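import Pool.Agent.W808.KS.Stm
import Pool.Agent.W808.HB.T_AS

set_option autoImplicit false

/-! KS-ASs : asymptotics of `Psl`. -/

namespace Pool.Agent.W808.KS

namespace TASs

open Pool.Agent.W808.HB.AS (log_add_bound compare pow_compare)

/-- the factors of `CR` -/
noncomputable def rr (p : ℝ) (i : ℕ) : ℝ :=
  ((2 * p + 3 * i) * (i + 1).factorial *
    ∏ s ∈ Finset.range (i + 1), ((2 * p + 1 + 4 * i + 2 * s) * (2 * p - 1 + 2 * i + s))) /
  ((2 * i + 2).factorial * ∏ s ∈ Finset.range (i + 2), (2 * p - 1 + 2 * i + 2 * s))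

lemma CR_eq (p : ℝ) (M : ℕ) : CR p M = ∏ i ∈ Finset.range M, rr p i := rfl

lemma CR_succ (p : ℝ) (M : ℕ) : CR p (M + 1) = CR p M * rr p M := by
  rw [CR_eq, CR_eq, Finset.prod_range_succ]

lemma rr_pos {p : ℝ} (hp : 1 ≤ p) (i : ℕ) : 0 < rr p i := by
  unfold rr
  have hi : (0:ℝ) ≤ i := Nat.cast_nonneg i
  have h1 : 0 < ∏ s ∈ Finset.range (i + 1),
      ((2 * p + 1 + 4 * (i:ℝ) + 2 * (s:ℝ)) * (2 * p - 1 + 2 * (i:ℝ) + (s:ℝ))) := by
    apply Finset.prod_pos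
    intro s _
    have hs : (0:ℝ) ≤ s := Nat.cast_nonneg s
    apply mul_pos <;> linarith
  have h2 : 0 < ∏ s ∈ Finset.range (i + 2), (2 * p - 1 + 2 * (i:ℝ) + 2 * (s:ℝ)) := by
    apply Finset.prod_pos
    intro s _
    have hs : (0:ℝ) ≤ s := Nat.cast_nonneg s
    linarith
  have h3 : (0:ℝ) < 2 * p + 3 * i := by linarith
  have h4 : (0:ℝ) < ((i + 1).factorial : ℝ) := by positivity
  have h5 : (0:ℝ) < ((2 * i + 2).factorial : ℝ) := by positivity
  exact div_pos (mul_pos (mul_pos h3 h4) h1) (mul_pos h5 h2)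

lemma CR_pos {p : ℝ} (hp : 1 ≤ p) (M : ℕ) : 0 < CR p M := Finset.prod_pos fun i _ => rr_pos hp i

/-- a product of an arithmetic progression -/
noncomputable def ap (x d : ℝ) (n : ℕ) : ℝ := ∏ s ∈ Finset.range n, (x + d * s)

lemma ap_pos {x d : ℝ} (hx : 0 < x) (hd : 0 ≤ d) (n : ℕ) : 0 < ap x d n := by
  apply Finset.prod_pos
  intro s _
  have hs : (0:ℝ) ≤ s := Nat.cast_nonneg s
  have := mul_nonneg hd hs
  linarith

lemma ap_succ (x d : ℝ) (n : ℕ) : ap x d (n + 1) = ap x d n * (x + d * n) := by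
  unfold ap
  rw [Finset.prod_range_succ]

lemma ap_succ' (x d : ℝ) (n : ℕ) : ap x d (n + 1) = x * ap (x + d) d n := by
  unfold ap
  rw [Finset.prod_range_succ']
  rw [mul_comm]
  congr 1
  · simp
  · apply Finset.prod_congr rfl
    intro s _
    push_cast
    ring

lemma rr_ap (p : ℝ) (i : ℕ) : rr p i =
    ((2 * p + 3 * i) * (i + 1).factorial *
      (ap (2 * p + 1 + 4 * i) 2 (i + 1) * ap (2 * p - 1 + 2 * i) 1 (i + 1))) /
    ((2 * i + 2).factorial * ap (2 * p - 1 + 2 * i) 2 (i + 2)) := by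
  unfold rr ap
  rw [Finset.prod_mul_distrib]
  simp only [one_mul]

/-- relation A -/
lemma rr_A {p : ℝ} (hp : 1 ≤ p) (i : ℕ) :
    rr (p + 1) i * ((2 * p + 6 * i + 7) * (2 * p + 6 * i + 5) * (2 * p + 3 * i + 3)) =
    rr p (i + 1) * (2 * (2 * i + 3) * (2 * p + 4 * i + 5) * (2 * p + 4 * i + 3)) := by
  have hi : (0:ℝ) ≤ i := Nat.cast_nonneg i
  rw [rr_ap, rr_ap]
  push_cast
  have eA : ap (2 * p + 1 + 4 * ((i:ℝ) + 1)) 2 (i + 1 + 1) * (2 * p + 4 * i + 3) =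
      ap (2 * (p + 1) + 1 + 4 * (i:ℝ)) 2 (i + 1) * ((2 * p + 6 * i + 5) * (2 * p + 6 * i + 7)) := by
    have h1 : ap (2 * p + 4 * (i:ℝ) + 3) 2 (i + 1 + 1 + 1) =
        (2 * p + 4 * i + 3) * ap (2 * p + 1 + 4 * ((i:ℝ) + 1)) 2 (i + 1 + 1) := by
      rw [ap_succ']
      congr 2
      ring
    have h2 : ap (2 * p + 4 * (i:ℝ) + 3) 2 (i + 1 + 1 + 1) =
        ap (2 * (p + 1) + 1 + 4 * (i:ℝ)) 2 (i + 1) * ((2 * p + 6 * i + 5) * (2 * p + 6 * i + 7)) := by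
      rw [ap_succ, ap_succ]
      push_cast
      rw [show 2 * p + 4 * (i:ℝ) + 3 = 2 * (p + 1) + 1 + 4 * (i:ℝ) by ring]
      ring
    rw [← h2, h1]
    ring
  have eB : ap (2 * p - 1 + 2 * ((i:ℝ) + 1)) 1 (i + 1 + 1) =
      ap (2 * (p + 1) - 1 + 2 * (i:ℝ)) 1 (i + 1) * (2 * p + 3 * i + 2) := by
    rw [ap_succ]
    push_cast
    rw [show 2 * p - 1 + 2 * ((i:ℝ) + 1) = 2 * (p + 1) - 1 + 2 * (i:ℝ) by ring]
    ring
  have eC : ap (2 * p - 1 + 2 * ((i:ℝ) + 1)) 2 (i + 1 + 2) =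
      ap (2 * (p + 1) - 1 + 2 * (i:ℝ)) 2 (i + 2) * (2 * p + 4 * i + 5) := by
    rw [show i + 1 + 2 = (i + 2) + 1 by ring, ap_succ]
    push_cast
    rw [show 2 * p - 1 + 2 * ((i:ℝ) + 1) = 2 * (p + 1) - 1 + 2 * (i:ℝ) by ring]
    ring
  have pA : 0 < ap (2 * (p + 1) + 1 + 4 * (i:ℝ)) 2 (i + 1) := ap_pos (by linarith) (by norm_num) _
  have pB : 0 < ap (2 * (p + 1) - 1 + 2 * (i:ℝ)) 1 (i + 1) := ap_pos (by linarith) (by norm_num) _
  have pC : 0 < ap (2 * (p + 1) - 1 + 2 * (i:ℝ)) 2 (i + 2) := ap_pos (by linarith) (by norm_num) _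
  have q1 : 0 < 2 * p + 4 * (i:ℝ) + 3 := by linarith
  have q2 : 0 < 2 * p + 4 * (i:ℝ) + 5 := by linarith
  have eA' : ap (2 * p + 1 + 4 * ((i:ℝ) + 1)) 2 (i + 1 + 1) =
      ap (2 * (p + 1) + 1 + 4 * (i:ℝ)) 2 (i + 1) * ((2 * p + 6 * i + 5) * (2 * p + 6 * i + 7)) /
        (2 * p + 4 * i + 3) := by
    rw [eq_div_iff q1.ne', eA]
  rw [eA', eB, eC]
  set A := ap (2 * (p + 1) + 1 + 4 * (i:ℝ)) 2 (i + 1)
  set B := ap (2 * (p + 1) - 1 + 2 * (i:ℝ)) 1 (i + 1)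
  set C := ap (2 * (p + 1) - 1 + 2 * (i:ℝ)) 2 (i + 2)
  rw [Nat.factorial_succ (i + 1), show 2 * (i + 1) + 2 = (2 * i + 2) + 1 + 1 by ring,
    Nat.factorial_succ (2 * i + 2 + 1), Nat.factorial_succ (2 * i + 2)]
  push_cast
  have f1 : (0:ℝ) < (i + 1).factorial := by positivity
  have f2 : (0:ℝ) < (2 * i + 2).factorial := by positivity
  field_simp
  ring

/-- relation B -/
lemma rr_B {p : ℝ} (hp : 1 ≤ p) (i : ℕ) :
    rr p (i + 1) * (2 * (2 * i + 3) * (2 * p + 4 * i + 1) * (2 * p + 4 * i + 3) ^ 2 *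
      (2 * p + 4 * i + 5) * (2 * p + 2 * i)) =
    rr p i * ((2 * p + 3 * i + 3) * (2 * p + 6 * i + 3) * (2 * p + 6 * i + 5) * (2 * p + 6 * i + 7) *
      (2 * p + 3 * i + 1) * (2 * p + 3 * i + 2)) := by
  have hi : (0:ℝ) ≤ i := Nat.cast_nonneg i
  rw [rr_ap, rr_ap]
  push_cast
  have eA : ap (2 * p + 1 + 4 * ((i:ℝ) + 1)) 2 (i + 1 + 1) =
      ap (2 * p + 1 + 4 * (i:ℝ)) 2 (i + 1) *
        ((2 * p + 6 * i + 3) * (2 * p + 6 * i + 5) * (2 * p + 6 * i + 7)) /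
        ((2 * p + 4 * i + 1) * (2 * p + 4 * i + 3)) := by
    have q1 : 0 < 2 * p + 4 * (i:ℝ) + 1 := by linarith
    have q2 : 0 < 2 * p + 4 * (i:ℝ) + 3 := by linarith
    rw [eq_div_iff (by positivity)]
    have h1 : ap (2 * p + 1 + 4 * (i:ℝ)) 2 (i + 1 + 1 + 1 + 1) =
        (2 * p + 4 * i + 1) * ((2 * p + 4 * i + 3) *
          ap (2 * p + 1 + 4 * ((i:ℝ) + 1)) 2 (i + 1 + 1)) := by
      rw [ap_succ', ap_succ', show 2 * p + 1 + 4 * (i:ℝ) + 2 + 2 = 2 * p + 1 + 4 * ((i:ℝ) + 1) by ring]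
      ring
    have h2 : ap (2 * p + 1 + 4 * (i:ℝ)) 2 (i + 1 + 1 + 1 + 1) =
        ap (2 * p + 1 + 4 * (i:ℝ)) 2 (i + 1) *
          ((2 * p + 6 * i + 3) * (2 * p + 6 * i + 5) * (2 * p + 6 * i + 7)) := by
      rw [ap_succ, ap_succ, ap_succ]
      push_cast
      ring
    rw [← h2, h1]
    ring
  have eB : ap (2 * p - 1 + 2 * ((i:ℝ) + 1)) 1 (i + 1 + 1) =
      ap (2 * p - 1 + 2 * (i:ℝ)) 1 (i + 1) *
        ((2 * p + 3 * i) * (2 * p + 3 * i + 1) * (2 * p + 3 * i + 2)) /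
        ((2 * p - 1 + 2 * i) * (2 * p + 2 * i)) := by
    have q1 : 0 < 2 * p - 1 + 2 * (i:ℝ) := by linarith
    have q2 : 0 < 2 * p + 2 * (i:ℝ) := by linarith
    rw [eq_div_iff (by positivity)]
    have h1 : ap (2 * p - 1 + 2 * (i:ℝ)) 1 (i + 1 + 1 + 1 + 1) =
        (2 * p - 1 + 2 * i) * ((2 * p + 2 * i) *
          ap (2 * p - 1 + 2 * ((i:ℝ) + 1)) 1 (i + 1 + 1)) := by
      rw [ap_succ', ap_succ', show 2 * p - 1 + 2 * (i:ℝ) + 1 + 1 = 2 * p - 1 + 2 * ((i:ℝ) + 1) by ring]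
      ring
    have h2 : ap (2 * p - 1 + 2 * (i:ℝ)) 1 (i + 1 + 1 + 1 + 1) =
        ap (2 * p - 1 + 2 * (i:ℝ)) 1 (i + 1) *
          ((2 * p + 3 * i) * (2 * p + 3 * i + 1) * (2 * p + 3 * i + 2)) := by
      rw [ap_succ, ap_succ, ap_succ]
      push_cast
      ring
    rw [← h2, h1]
    ring
  have eC : ap (2 * p - 1 + 2 * ((i:ℝ) + 1)) 2 (i + 1 + 2) =
      ap (2 * p - 1 + 2 * (i:ℝ)) 2 (i + 2) * ((2 * p + 4 * i + 3) * (2 * p + 4 * i + 5)) /
        (2 * p - 1 + 2 * i) := by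
    have q1 : 0 < 2 * p - 1 + 2 * (i:ℝ) := by linarith
    rw [eq_div_iff q1.ne']
    have h1 : ap (2 * p - 1 + 2 * (i:ℝ)) 2 (i + 2 + 1 + 1) =
        (2 * p - 1 + 2 * i) * ap (2 * p - 1 + 2 * ((i:ℝ) + 1)) 2 (i + 1 + 2) := by
      rw [ap_succ', show 2 * p - 1 + 2 * (i:ℝ) + 2 = 2 * p - 1 + 2 * ((i:ℝ) + 1) by ring]
    have h2 : ap (2 * p - 1 + 2 * (i:ℝ)) 2 (i + 2 + 1 + 1) =
        ap (2 * p - 1 + 2 * (i:ℝ)) 2 (i + 2) * ((2 * p + 4 * i + 3) * (2 * p + 4 * i + 5)) := by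
      rw [ap_succ, ap_succ]
      push_cast
      ring
    rw [← h2, h1]
    ring
  have pA : 0 < ap (2 * p + 1 + 4 * (i:ℝ)) 2 (i + 1) := ap_pos (by linarith) (by norm_num) _
  have pB : 0 < ap (2 * p - 1 + 2 * (i:ℝ)) 1 (i + 1) := ap_pos (by linarith) (by norm_num) _
  have pC : 0 < ap (2 * p - 1 + 2 * (i:ℝ)) 2 (i + 2) := ap_pos (by linarith) (by norm_num) _
  have q0 : 0 < 2 * p - 1 + 2 * (i:ℝ) := by linarith
  have q1 : 0 < 2 * p + 4 * (i:ℝ) + 1 := by linarith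
  have q2 : 0 < 2 * p + 4 * (i:ℝ) + 3 := by linarith
  have q3 : 0 < 2 * p + 4 * (i:ℝ) + 5 := by linarith
  have q4 : 0 < 2 * p + 2 * (i:ℝ) := by linarith
  rw [eA, eB, eC]
  set A := ap (2 * p + 1 + 4 * (i:ℝ)) 2 (i + 1)
  set B := ap (2 * p - 1 + 2 * (i:ℝ)) 1 (i + 1)
  set C := ap (2 * p - 1 + 2 * (i:ℝ)) 2 (i + 2)
  rw [Nat.factorial_succ (i + 1), show 2 * (i + 1) + 2 = (2 * i + 2) + 1 + 1 by ring,
    Nat.factorial_succ (2 * i + 2 + 1), Nat.factorial_succ (2 * i + 2)]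
  push_cast
  have f1 : (0:ℝ) < (i + 1).factorial := by positivity
  have f2 : (0:ℝ) < (2 * i + 2).factorial := by positivity
  field_simp
  ring

lemma hf_succ (m i : ℕ) : HB.AS.hf m (i + 1) *
    ((2 * i + 2) * (2 * i + 3) * (m + 2 * i + 1) * (m + 2 * i + 2) ^ 2 * (m + 2 * i + 3) *
      (2 * m + 2 * i + 1) * (2 * m + 2 * i + 2)) =
    HB.AS.hf m i * ((m + 3 * i + 3) * (m + 3 * i + 4) * (m + 3 * i + 5) * (i + 1) * (m + i + 1) *
      (2 * m + 3 * i + 1) * (2 * m + 3 * i + 2) * (2 * m + 3 * i + 3)) := by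
  unfold HB.AS.hf
  rw [show m + 3 * (i + 1) + 2 = (m + 3 * i + 2) + 1 + 1 + 1 by ring,
    show m + (i + 1) = (m + i) + 1 by ring,
    show 2 * m + 3 * (i + 1) = (2 * m + 3 * i) + 1 + 1 + 1 by ring,
    show 2 * (i + 1) + 1 = (2 * i + 1) + 1 + 1 by ring,
    show m + 2 * (i + 1) + 1 = (m + 2 * i + 1) + 1 + 1 by ring,
    show m + 2 * (i + 1) = (m + 2 * i) + 1 + 1 by ring,
    show 2 * m + 2 * (i + 1) = (2 * m + 2 * i) + 1 + 1 by ring]
  simp only [Nat.factorial_succ]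
  push_cast
  have f1 : (0:ℝ) < (m + i).factorial := by positivity
  have f2 : (0:ℝ) < (2 * m + 3 * i).factorial := by positivity
  have f3 : (0:ℝ) < (2 * m + 2 * i).factorial := by positivity
  have f4 : (0:ℝ) < (m + 3 * i).factorial := by positivity
  have f5 : (0:ℝ) < i.factorial := by positivity
  have f6 : (0:ℝ) < (2 * i).factorial := by positivity
  have f7 : (0:ℝ) < (m + 2 * i).factorial := by positivity
  field_simp
  ring

/-- logarithm of a product of shifts -/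
lemma log_list {x : ℝ} (hx : 0 < x) : ∀ l : List ℝ, (∀ b ∈ l, 0 ≤ b) →
    0 < (l.map (fun b => x + b)).prod ∧
    |Real.log ((l.map (fun b => x + b)).prod) - l.length * Real.log x - l.sum / x| ≤
      (l.map (fun b => b ^ 2)).sum / x ^ 2
  | [], _ => by simp
  | b :: l, h => by
    obtain ⟨h1, h2⟩ := log_list hx l (fun c hc => h c (List.mem_cons_of_mem _ hc))
    have hb : 0 ≤ b := h b List.mem_cons_self
    have h3 := log_add_bound hx hb
    simp only [List.map_cons, List.prod_cons, List.length_cons, List.sum_cons]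
    refine ⟨by positivity, ?_⟩
    rw [Real.log_mul (by positivity) h1.ne']
    push_cast
    have h2' := abs_le.mp h2
    have h3' := abs_le.mp h3
    rw [abs_le, add_div, add_div]
    constructor
    · linarith [h2'.1, h3'.1]
    · linarith [h2'.2, h3'.2]

/-- `R(N) = P(m+2, N+1) / P(m, N+2)` -/
noncomputable def R (m N : ℕ) : ℝ :=
  (2 ^ (N + 1) * CR ((m : ℝ) / 2 + 1 + 1) (N + 1) * CR (((m : ℝ) + 5) / 2 + 1) N * CR 3 (N + 1)) /
  (2 ^ (N + 2) * CR ((m : ℝ) / 2 + 1) (N + 2) * CR (((m : ℝ) + 5) / 2) (N + 1) * CR 3 N)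

lemma R_pos (m N : ℕ) : 0 < R m N := by
  have hm : (0:ℝ) ≤ m := Nat.cast_nonneg m
  have h1 : 0 < CR ((m : ℝ) / 2 + 1 + 1) (N + 1) := CR_pos (by linarith) _
  have h2 : 0 < CR (((m : ℝ) + 5) / 2 + 1) N := CR_pos (by linarith) _
  have h3 : 0 < CR 3 (N + 1) := CR_pos (by norm_num) _
  have h4 : 0 < CR ((m : ℝ) / 2 + 1) (N + 2) := CR_pos (by linarith) _
  have h5 : 0 < CR (((m : ℝ) + 5) / 2) (N + 1) := CR_pos (by linarith) _
  have h6 : 0 < CR 3 N := CR_pos (by norm_num) _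
  unfold R
  positivity

lemma R_succ (m N : ℕ) : R m (N + 1) *
    (rr ((m : ℝ) / 2 + 1) (N + 2) * rr (((m : ℝ) + 5) / 2) (N + 1) * rr 3 N) = R m N *
    (rr ((m : ℝ) / 2 + 1 + 1) (N + 1) * rr (((m : ℝ) + 5) / 2 + 1) N * rr 3 (N + 1)) := by
  have hm : (0:ℝ) ≤ m := Nat.cast_nonneg m
  have h1 : 0 < CR ((m : ℝ) / 2 + 1 + 1) (N + 1) := CR_pos (by linarith) _
  have h2 : 0 < CR (((m : ℝ) + 5) / 2 + 1) N := CR_pos (by linarith) _
  have h3 : 0 < CR 3 (N + 1) := CR_pos (by norm_num) _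
  have h4 : 0 < CR ((m : ℝ) / 2 + 1) (N + 2) := CR_pos (by linarith) _
  have h5 : 0 < CR (((m : ℝ) + 5) / 2) (N + 1) := CR_pos (by linarith) _
  have h6 : 0 < CR 3 N := CR_pos (by norm_num) _
  have g4 : 0 < rr ((m : ℝ) / 2 + 1) (N + 2) := rr_pos (by linarith) _
  have g5 : 0 < rr (((m : ℝ) + 5) / 2) (N + 1) := rr_pos (by linarith) _
  have g6 : 0 < rr 3 N := rr_pos (by norm_num) _
  unfold R
  rw [show N + 1 + 2 = (N + 2) + 1 by ring, CR_succ ((m : ℝ) / 2 + 1 + 1) (N + 1),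
    CR_succ (((m : ℝ) + 5) / 2 + 1) N, CR_succ ((m : ℝ) / 2 + 1) (N + 2),
    CR_succ (((m : ℝ) + 5) / 2) (N + 1), CR_succ 3 (N + 1), pow_succ (2:ℝ) (N + 1),
    pow_succ (2:ℝ) (N + 2)]
  have e3 : CR 3 (N + 1) = CR 3 N * rr 3 N := CR_succ 3 N
  have e4 : (2:ℝ) ^ (N + 2) = 2 ^ (N + 1) * 2 := pow_succ _ _
  rw [e4, e3]
  generalize rr 3 N = c6 at *
  generalize CR 3 N = C6 at *
  generalize rr (((m : ℝ) + 5) / 2) (N + 1) = c5 at *
  generalize rr ((m : ℝ) / 2 + 1) (N + 2) = c4 at *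
  generalize CR (((m : ℝ) + 5) / 2) (N + 1) = C5 at *
  generalize CR ((m : ℝ) / 2 + 1) (N + 2) = C4 at *
  generalize CR (((m : ℝ) + 5) / 2 + 1) N = C2 at *
  generalize CR ((m : ℝ) / 2 + 1 + 1) (N + 1) = C1 at *
  generalize rr ((m : ℝ) / 2 + 1 + 1) (N + 1) = c1 at *
  generalize rr (((m : ℝ) + 5) / 2 + 1) N = c2 at *
  generalize rr 3 (N + 1) = c3 at *
  field_simp

/-- logarithm of a quotient -/
lemma log_quot {a a' k1 k2 P1 P2 : ℝ} (ha : 0 < a) (ha' : 0 < a') (hk1 : 0 < k1) (hk2 : 0 < k2)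
    (hP1 : 0 < P1) (hP2 : 0 < P2) (h : a * (k2 * P2) = a' * (k1 * P1)) :
    Real.log a - Real.log a' = Real.log k1 - Real.log k2 + Real.log P1 - Real.log P2 := by
  have h' := congrArg Real.log h
  rw [Real.log_mul ha.ne' (by positivity), Real.log_mul ha'.ne' (by positivity),
    Real.log_mul hk2.ne' hP2.ne', Real.log_mul hk1.ne' hP1.ne'] at h'
  linarith

/-- asymptotics of `R` -/
lemma R_asymp (m : ℕ) : ∃ c C : ℝ, 0 < c ∧ 0 < C ∧ ∀ N : ℕ,
    c * ((N : ℝ) + 1) ^ (-((2 * m + 1) / 6 : ℝ)) ≤ R m N ∧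
      R m N ≤ C * ((N : ℝ) + 1) ^ (-((2 * m + 1) / 6 : ℝ)) := by
  have hm : (0:ℝ) ≤ m := Nat.cast_nonneg m
  set lA : List ℝ := [3 / 2, (m + 7) / 4, (m + 5) / 4] with hlA
  set lA' : List ℝ := [(m + 9) / 6, (m + 7) / 6, (m + 5) / 3] with hlA'
  set lB : List ℝ := [1 / 2, (m + 6) / 4, (m + 4) / 4] with hlB
  set lB' : List ℝ := [(m + 6) / 6, (m + 4) / 6, (m + 5) / 3] with hlB'
  set lC : List ℝ := [2, 1 / 2, 5 / 6, 7 / 6, 4 / 3, 5 / 3] with hlC
  set lC' : List ℝ := [1 / 2, 3 / 4, 5 / 4, 5 / 4, 7 / 4, 2] with hlC'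
  have pA : ∀ b ∈ lA, 0 ≤ b := by
    intro b hb
    simp only [hlA, List.mem_cons, List.not_mem_nil, or_false] at hb
    rcases hb with rfl | rfl | rfl <;> positivity
  have pA' : ∀ b ∈ lA', 0 ≤ b := by
    intro b hb
    simp only [hlA', List.mem_cons, List.not_mem_nil, or_false] at hb
    rcases hb with rfl | rfl | rfl <;> positivity
  have pB : ∀ b ∈ lB, 0 ≤ b := by
    intro b hb
    simp only [hlB, List.mem_cons, List.not_mem_nil, or_false] at hb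
    rcases hb with rfl | rfl | rfl <;> positivity
  have pB' : ∀ b ∈ lB', 0 ≤ b := by
    intro b hb
    simp only [hlB', List.mem_cons, List.not_mem_nil, or_false] at hb
    rcases hb with rfl | rfl | rfl <;> positivity
  have pC : ∀ b ∈ lC, 0 ≤ b := by
    intro b hb
    simp only [hlC, List.mem_cons, List.not_mem_nil, or_false] at hb
    rcases hb with rfl | rfl | rfl | rfl | rfl | rfl <;> positivity
  have pC' : ∀ b ∈ lC', 0 ≤ b := by
    intro b hb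
    simp only [hlC', List.mem_cons, List.not_mem_nil, or_false] at hb
    rcases hb with rfl | rfl | rfl | rfl | rfl | rfl <;> positivity
  refine compare (R m) (R_pos m) ((2 * m + 1) / 6)
    ((lA.map (fun b => b ^ 2)).sum + (lA'.map (fun b => b ^ 2)).sum +
      ((lB.map (fun b => b ^ 2)).sum + (lB'.map (fun b => b ^ 2)).sum) +
      ((lC.map (fun b => b ^ 2)).sum + (lC'.map (fun b => b ^ 2)).sum) + (2 * m + 1) / 6)
    fun N => ?_
  have hN : (0:ℝ) ≤ N := Nat.cast_nonneg N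
  set x : ℝ := (N : ℝ) + 1 with hx
  have hx0 : 0 < x := by positivity
  obtain ⟨qA, bA⟩ := log_list hx0 lA pA
  obtain ⟨qA', bA'⟩ := log_list hx0 lA' pA'
  obtain ⟨qB, bB⟩ := log_list hx0 lB pB
  obtain ⟨qB', bB'⟩ := log_list hx0 lB' pB'
  obtain ⟨qC, bC⟩ := log_list hx0 lC pC
  obtain ⟨qC', bC'⟩ := log_list hx0 lC' pC'
  have g1 : 0 < rr ((m : ℝ) / 2 + 1 + 1) (N + 1) := rr_pos (by linarith) _
  have g2 : 0 < rr (((m : ℝ) + 5) / 2 + 1) N := rr_pos (by linarith) _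
  have g3 : 0 < rr 3 (N + 1) := rr_pos (by norm_num) _
  have g4 : 0 < rr ((m : ℝ) / 2 + 1) (N + 2) := rr_pos (by linarith) _
  have g5 : 0 < rr (((m : ℝ) + 5) / 2) (N + 1) := rr_pos (by linarith) _
  have g6 : 0 < rr 3 N := rr_pos (by norm_num) _
  have eA : Real.log (rr ((m : ℝ) / 2 + 1 + 1) (N + 1)) - Real.log (rr ((m : ℝ) / 2 + 1) (N + 2)) =
      Real.log 64 - Real.log 108 + Real.log ((lA.map (fun b => x + b)).prod) -
        Real.log ((lA'.map (fun b => x + b)).prod) := by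
    refine log_quot g1 g4 (by norm_num) (by norm_num) qA qA' ?_
    have h := rr_A (p := (m : ℝ) / 2 + 1) (by linarith) (N + 1)
    push_cast at h
    simp only [hlA, hlA', List.map_cons, List.map_nil, List.prod_cons, List.prod_nil, hx]
    linear_combination h
  have eB : Real.log (rr (((m : ℝ) + 5) / 2 + 1) N) - Real.log (rr (((m : ℝ) + 5) / 2) (N + 1)) =
      Real.log 64 - Real.log 108 + Real.log ((lB.map (fun b => x + b)).prod) -
        Real.log ((lB'.map (fun b => x + b)).prod) := by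
    refine log_quot g2 g5 (by norm_num) (by norm_num) qB qB' ?_
    have h := rr_A (p := ((m : ℝ) + 5) / 2) (by linarith) N
    simp only [hlB, hlB', List.map_cons, List.map_nil, List.prod_cons, List.prod_nil, hx]
    linear_combination h
  have eC : Real.log (rr 3 (N + 1)) - Real.log (rr 3 N) =
      Real.log 5832 - Real.log 2048 + Real.log ((lC.map (fun b => x + b)).prod) -
        Real.log ((lC'.map (fun b => x + b)).prod) := by
    refine log_quot g3 g6 (by norm_num) (by norm_num) qC qC' ?_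
    have h := rr_B (p := 3) (by norm_num) N
    simp only [hlC, hlC', List.map_cons, List.map_nil, List.prod_cons, List.prod_nil, hx]
    linear_combination h
  have eK : Real.log 64 - Real.log 108 + (Real.log 64 - Real.log 108) +
      (Real.log 5832 - Real.log 2048) = 0 := by
    have h : Real.log (64 * 64 * 5832) = Real.log (108 * 108 * 2048) := by norm_num
    rw [Real.log_mul (by norm_num) (by norm_num), Real.log_mul (by norm_num) (by norm_num),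
      Real.log_mul (by norm_num) (by norm_num), Real.log_mul (by norm_num) (by norm_num)] at h
    linarith
  have eR : Real.log (R m (N + 1)) - Real.log (R m N) =
      (Real.log (rr ((m : ℝ) / 2 + 1 + 1) (N + 1)) - Real.log (rr ((m : ℝ) / 2 + 1) (N + 2))) +
      (Real.log (rr (((m : ℝ) + 5) / 2 + 1) N) - Real.log (rr (((m : ℝ) + 5) / 2) (N + 1))) +
      (Real.log (rr 3 (N + 1)) - Real.log (rr 3 N)) := by
    have h := congrArg Real.log (R_succ m N)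
    rw [Real.log_mul (R_pos _ _).ne' (by positivity), Real.log_mul (R_pos _ _).ne' (by positivity),
      Real.log_mul (by positivity) g6.ne', Real.log_mul g4.ne' g5.ne',
      Real.log_mul (by positivity) g3.ne', Real.log_mul g1.ne' g2.ne'] at h
    linarith
  have b5 := abs_le.mp (log_add_bound hx0 (show (0:ℝ) ≤ 1 by norm_num))
  have e2 : (N : ℝ) + 2 = x + 1 := by rw [hx]; ring
  rw [e2, eR, eA, eB, eC]
  have hs : (0:ℝ) ≤ (2 * m + 1) / 6 := by positivity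
  have b5l := mul_le_mul_of_nonneg_left b5.1 hs
  have b5u := mul_le_mul_of_nonneg_left b5.2 hs
  have bA1 := abs_le.mp bA
  have bA1' := abs_le.mp bA'
  have bB1 := abs_le.mp bB
  have bB1' := abs_le.mp bB'
  have bC1 := abs_le.mp bC
  have bC1' := abs_le.mp bC'
  have nA : (lA.length : ℝ) = 3 := by simp [hlA]
  have nA' : (lA'.length : ℝ) = 3 := by simp [hlA']
  have nB : (lB.length : ℝ) = 3 := by simp [hlB]
  have nB' : (lB'.length : ℝ) = 3 := by simp [hlB']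
  have nC : (lC.length : ℝ) = 6 := by simp [hlC]
  have nC' : (lC'.length : ℝ) = 6 := by simp [hlC']
  rw [nA] at bA1
  rw [nA'] at bA1'
  rw [nB] at bB1
  rw [nB'] at bB1'
  rw [nC] at bC1
  rw [nC'] at bC1'
  have e3 : lA.sum / x - lA'.sum / x + (lB.sum / x - lB'.sum / x) + (lC.sum / x - lC'.sum / x) +
      (2 * m + 1) / 6 * (1 / x) = 0 := by
    simp only [hlA, hlA', hlB, hlB', hlC, hlC', List.sum_cons, List.sum_nil]
    field_simp
    ring
  have b5l' : -(((2 * (m:ℝ) + 1) / 6) / x ^ 2) ≤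
      (2 * (m:ℝ) + 1) / 6 * (Real.log (x + 1) - Real.log x) - (2 * m + 1) / 6 * (1 / x) := by
    calc -(((2 * (m:ℝ) + 1) / 6) / x ^ 2) = (2 * (m:ℝ) + 1) / 6 * -(1 ^ 2 / x ^ 2) := by ring
      _ ≤ _ := b5l
      _ = _ := by ring
  have b5u' : (2 * (m:ℝ) + 1) / 6 * (Real.log (x + 1) - Real.log x) - (2 * m + 1) / 6 * (1 / x) ≤
      ((2 * (m:ℝ) + 1) / 6) / x ^ 2 := by
    calc (2 * (m:ℝ) + 1) / 6 * (Real.log (x + 1) - Real.log x) - (2 * m + 1) / 6 * (1 / x)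
        = (2 * (m:ℝ) + 1) / 6 * (Real.log (x + 1) - Real.log x - 1 / x) := by ring
      _ ≤ _ := b5u
      _ = _ := by ring
  clear b5l b5u b5
  set σ : ℝ := (2 * (m:ℝ) + 1) / 6 with hσ
  have eD : ((lA.map (fun b => b ^ 2)).sum + (lA'.map (fun b => b ^ 2)).sum +
      ((lB.map (fun b => b ^ 2)).sum + (lB'.map (fun b => b ^ 2)).sum) +
      ((lC.map (fun b => b ^ 2)).sum + (lC'.map (fun b => b ^ 2)).sum) + σ) / x ^ 2 =
      (lA.map (fun b => b ^ 2)).sum / x ^ 2 + (lA'.map (fun b => b ^ 2)).sum / x ^ 2 +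
      ((lB.map (fun b => b ^ 2)).sum / x ^ 2 + (lB'.map (fun b => b ^ 2)).sum / x ^ 2) +
      ((lC.map (fun b => b ^ 2)).sum / x ^ 2 + (lC'.map (fun b => b ^ 2)).sum / x ^ 2) +
        σ / x ^ 2 := by ring
  rw [eD, abs_le]
  constructor
  · linarith [bA1.1, bA1'.2, bB1.1, bB1'.2, bC1.1, bC1'.2]
  · linarith [bA1.2, bA1'.1, bB1.2, bB1'.1, bC1.2, bC1'.1]

lemma step4 {a a' b b' c c' d d' Na Da Nb Db Nc Dc Nd Dd : ℝ} (hDa : 0 < Da) (hDb : 0 < Db)
    (hDc : 0 < Dc) (hDd : 0 < Dd) (ha : a' * Da = a * Na) (hb : b' * Db = b * Nb)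
    (hc : c' * Dc = c * Nc) (hd : d' * Dd = d * Nd) (h : 2 * a * b = c * d)
    (e : Na * Nb * (Dc * Dd) = Nc * Nd * (Da * Db)) : 2 * a' * b' = c' * d' := by
  have h1 : a' = a * Na / Da := by rw [eq_div_iff hDa.ne', ha]
  have h2 : b' = b * Nb / Db := by rw [eq_div_iff hDb.ne', hb]
  have h3 : c' = c * Nc / Dc := by rw [eq_div_iff hDc.ne', hc]
  have h4 : d' = d * Nd / Dd := by rw [eq_div_iff hDd.ne', hd]
  rw [h1, h2, h3, h4]
  field_simp
  linear_combination (Na * Nb * (Dc * Dd)) * h + (c * d) * e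

lemma step2 {a a' c c' Na Da Nc Dc : ℝ} (hDa : 0 < Da)
    (hDc : 0 < Dc) (ha : a' * Da = a * Na)
    (hc : c' * Dc = c * Nc) (h : 2 * a = c)
    (e : Na * Dc = Nc * Da) : 2 * a' = c' := by
  have h1 : a' = a * Na / Da := by rw [eq_div_iff hDa.ne', ha]
  have h3 : c' = c * Nc / Dc := by rw [eq_div_iff hDc.ne', hc]
  rw [h1, h3]
  field_simp
  linear_combination (Na * Dc) * h + c * e

lemma g0 : ∀ N : ℕ, 2 * rr 1 (N + 1) * rr (5 / 2) N = HB.AS.hf 0 (N + 1) * rr 3 N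
  | 0 => by
    norm_num [rr, HB.AS.hf, Finset.prod_range_succ, Nat.factorial]
  | N + 1 => by
    have ih := g0 N
    have h1 := rr_B (p := 1) (by norm_num) (N + 1)
    have h2 := rr_B (p := 5 / 2) (by norm_num) N
    have h3 := rr_B (p := 3) (by norm_num) N
    have h4 := hf_succ 0 (N + 1)
    push_cast at h1 h4
    have hN : (0:ℝ) ≤ N := Nat.cast_nonneg N
    exact step4 (by positivity) (by positivity) (by positivity) (by positivity) h1 h2 h4 h3 ih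
      (by ring)

lemma g1 : ∀ N : ℕ, 2 * rr (3 / 2) (N + 1) = HB.AS.hf 1 (N + 1)
  | 0 => by
    norm_num [rr, HB.AS.hf, Finset.prod_range_succ, Nat.factorial]
  | N + 1 => by
    have ih := g1 N
    have h1 := rr_B (p := 3 / 2) (by norm_num) (N + 1)
    have h4 := hf_succ 1 (N + 1)
    push_cast at h1 h4
    have hN : (0:ℝ) ≤ N := Nat.cast_nonneg N
    exact step2 (by positivity) (by positivity) h1 h4 ih (by ring)

lemma Psl_pos (m N : ℕ) : 0 < Psl m (N + 1) := by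
  have hm : (0:ℝ) ≤ m := Nat.cast_nonneg m
  have h2 : 0 < CR (((m : ℝ) + 5) / 2) N := CR_pos (by linarith) _
  have h4 : 0 < CR ((m : ℝ) / 2 + 1) (N + 1) := CR_pos (by linarith) _
  have h6 : 0 < CR 3 N := CR_pos (by norm_num) _
  have h7 := HB.AS.Cn_pos (m % 2) (N + 1 + m / 2)
  unfold Psl
  rw [show N + 1 - 1 = N by omega]
  positivity

lemma Psl_step (m N : ℕ) : Psl (m + 2) (N + 1) = Psl m (N + 2) * R m N := by
  have hm : (0:ℝ) ≤ m := Nat.cast_nonneg m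
  have h3 : 0 < CR 3 (N + 1) := CR_pos (by norm_num) _
  have h4 : 0 < CR ((m : ℝ) / 2 + 1) (N + 2) := CR_pos (by linarith) _
  have h5 : 0 < CR (((m : ℝ) + 5) / 2) (N + 1) := CR_pos (by linarith) _
  have h6 : 0 < CR 3 N := CR_pos (by norm_num) _
  have h7 := HB.AS.Cn_pos (m % 2) (N + 2 + m / 2)
  unfold Psl R
  rw [show (m + 2) % 2 = m % 2 by omega, show N + 1 + (m + 2) / 2 = N + 2 + m / 2 by omega,
    show N + 1 - 1 = N by omega, show N + 2 - 1 = N + 1 by omega,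
    show (((m + 2 : ℕ) : ℝ)) / 2 + 1 = (m : ℝ) / 2 + 1 + 1 by push_cast; ring,
    show (((m + 2 : ℕ) : ℝ) + 5) / 2 = ((m : ℝ) + 5) / 2 + 1 by push_cast; ring]
  generalize CR 3 (N + 1) = C3 at *
  generalize CR 3 N = C6 at *
  generalize CR (((m : ℝ) + 5) / 2) (N + 1) = C5 at *
  generalize CR ((m : ℝ) / 2 + 1) (N + 2) = C4 at *
  generalize CR (((m : ℝ) + 5) / 2 + 1) N = C2 at *
  generalize CR ((m : ℝ) / 2 + 1 + 1) (N + 1) = C1 at *
  generalize HB.Cn (m % 2) (N + 2 + m / 2) = C7 at *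
  field_simp

lemma Psl_zero : ∀ N : ℕ, Psl 0 (N + 1) = 1
  | 0 => by
    norm_num [Psl, CR, HB.Cn, Finset.prod_range_succ, Nat.factorial]
  | N + 1 => by
    have ih := Psl_zero N
    have hg := g0 N
    unfold Psl at ih ⊢
    rw [show ((0 : ℕ) : ℝ) / 2 + 1 = 1 by norm_num, show (((0 : ℕ) : ℝ) + 5) / 2 = 5 / 2 by norm_num,
      show 0 % 2 = 0 by norm_num] at ih ⊢
    rw [show N + 1 + 1 - 1 = N + 1 by omega, CR_succ 1 (N + 1), CR_succ (5 / 2) N, CR_succ 3 N,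
      show N + 1 + 1 + 0 / 2 = N + 1 + 1 by omega, HB.AS.Cn_eq, Finset.prod_range_succ,
      ← HB.AS.Cn_eq, pow_succ]
    rw [show N + 1 - 1 = N by omega, show N + 1 + 0 / 2 = N + 1 by omega] at ih
    have h3 : 0 < CR 3 N := CR_pos (by norm_num) _
    have h5 : 0 < rr 3 N := rr_pos (by norm_num) _
    have h7 := HB.AS.Cn_pos 0 (N + 1)
    have h8 := HB.AS.hf_pos 0 (N + 1)
    rw [div_eq_one_iff_eq (by positivity)] at ih ⊢
    linear_combination (2 * rr 1 (N + 1) * rr (5 / 2) N) * ih + (HB.Cn 0 (N + 1) * CR 3 N) * hg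

lemma Psl_one : ∀ N : ℕ, Psl 1 (N + 1) = 1
  | 0 => by
    norm_num [Psl, CR, HB.Cn, Finset.prod_range_succ, Nat.factorial]
  | N + 1 => by
    have ih := Psl_one N
    have hg := g1 N
    unfold Psl at ih ⊢
    rw [show ((1 : ℕ) : ℝ) / 2 + 1 = 3 / 2 by norm_num, show (((1 : ℕ) : ℝ) + 5) / 2 = 3 by norm_num,
      show 1 % 2 = 1 by norm_num] at ih ⊢
    rw [show N + 1 + 1 - 1 = N + 1 by omega, CR_succ (3 / 2) (N + 1), CR_succ 3 N,
      show N + 1 + 1 + 1 / 2 = N + 1 + 1 by omega, HB.AS.Cn_eq, Finset.prod_range_succ,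
      ← HB.AS.Cn_eq, pow_succ]
    rw [show N + 1 - 1 = N by omega, show N + 1 + 1 / 2 = N + 1 by omega] at ih
    have h3 : 0 < CR 3 N := CR_pos (by norm_num) _
    have h5 : 0 < rr 3 N := rr_pos (by norm_num) _
    have h7 := HB.AS.Cn_pos 1 (N + 1)
    have h8 := HB.AS.hf_pos 1 (N + 1)
    rw [div_eq_one_iff_eq (by positivity)] at ih ⊢
    linear_combination (2 * rr (3 / 2) (N + 1) * rr 3 N) * ih +
      (HB.Cn 1 (N + 1) * CR 3 N * rr 3 N) * hg

/-- the bounds for all `m` -/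
lemma main (m : ℕ) : ∃ c C : ℝ, 0 < c ∧ 0 < C ∧ ∀ N : ℕ,
    c * ((N : ℝ) + 1) ^ (-((m : ℝ) * (m - 1) / 12)) ≤ Psl m (N + 1) ∧
      Psl m (N + 1) ≤ C * ((N : ℝ) + 1) ^ (-((m : ℝ) * (m - 1) / 12)) := by
  induction m using Nat.strong_induction_on with
  | _ m ih =>
  rcases Nat.lt_or_ge m 2 with h | h
  · refine ⟨1, 1, one_pos, one_pos, fun N => ?_⟩
    have hP : Psl m (N + 1) = 1 := by
      interval_cases m
      · exact Psl_zero N
      · exact Psl_one N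
    have he : -((m : ℝ) * (m - 1) / 12) = 0 := by
      interval_cases m <;> norm_num
    rw [hP, he, Real.rpow_zero]
    norm_num
  · obtain ⟨k, rfl⟩ : ∃ k, m = k + 2 := ⟨m - 2, by omega⟩
    obtain ⟨c1, C1, hc1, hC1, h1⟩ := ih k (by omega)
    obtain ⟨c2, C2, hc2, hC2, h2⟩ := R_asymp k
    have he : (0:ℝ) ≤ (k : ℝ) * (k - 1) / 12 := by
      rcases Nat.eq_zero_or_pos k with rfl | hk
      · simp
      · have : (1:ℝ) ≤ k := by exact_mod_cast hk
        have : (0:ℝ) ≤ (k : ℝ) * (k - 1) := by nlinarith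
        positivity
    refine ⟨c1 * 2 ^ (-((k : ℝ) * (k - 1) / 12)) * c2, C1 * C2, by positivity, by positivity,
      fun N => ?_⟩
    have h3 := h1 (N + 1)
    push_cast at h3
    rw [show (N : ℝ) + 1 + 1 = (N : ℝ) + 2 by ring] at h3
    have h4 := pow_compare he N
    have h5 := h2 N
    have hM0 : (0:ℝ) < (N : ℝ) + 1 := by positivity
    have e1 : ((N : ℝ) + 1) ^ (-(((k + 2 : ℕ) : ℝ) * (((k + 2 : ℕ) : ℝ) - 1) / 12)) =
        ((N : ℝ) + 1) ^ (-((k : ℝ) * (k - 1) / 12)) * ((N : ℝ) + 1) ^ (-((2 * k + 1) / 6 : ℝ)) := by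
      rw [← Real.rpow_add hM0]
      congr 1
      push_cast
      ring
    rw [e1, Psl_step]
    set A := ((N : ℝ) + 1) ^ (-((k : ℝ) * (k - 1) / 12)) with hA
    set B := ((N : ℝ) + 1) ^ (-((2 * k + 1) / 6 : ℝ)) with hB
    have hA0 : 0 < A := Real.rpow_pos_of_pos hM0 _
    have hB0 : 0 < B := Real.rpow_pos_of_pos hM0 _
    have hR := R_pos k N
    constructor
    · calc c1 * 2 ^ (-((k : ℝ) * (k - 1) / 12)) * c2 * (A * B)
          = (c1 * (2 ^ (-((k : ℝ) * (k - 1) / 12)) * A)) * (c2 * B) := by ring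
        _ ≤ Psl k (N + 2) * R k N := by
          refine mul_le_mul ?_ h5.1 (by positivity) ?_
          · exact le_trans (mul_le_mul_of_nonneg_left h4.1 hc1.le) h3.1
          · exact le_trans (by positivity) h3.1
    · calc Psl k (N + 2) * R k N ≤ (C1 * A) * (C2 * B) := by
            refine mul_le_mul ?_ h5.2 hR.le (by positivity)
            exact le_trans h3.2 (mul_le_mul_of_nonneg_left h4.2 hC1.le)
        _ = _ := by ring

end TASs

theorem t_ASs : S_ASs := by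
  intro m _
  obtain ⟨c, C, hc, hC, h⟩ := TASs.main m
  refine ⟨c, C, hc, hC, fun M hM => ?_⟩
  obtain ⟨N, rfl⟩ : ∃ N, M = N + 1 := ⟨M - 1, by omega⟩
  have := h N
  push_cast
  exact this

end Pool.Agent.W808.KS
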