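import Pool.Agent.W131.KS.B
import Pool.Agent.W808.HB.All

/-!
# Legs at the tip of a slit: base case without legs
-/

set_option autoImplicit false

namespace Pool.Agent.W808.KS

theorem t_B0 : S_TT → S_ZS → S_Gt → S_B0 :=
  Pool.Agent.W131.KS.B0 HB.a_E HB.a_M0 HB.a_M2

end Pool.Agent.W808.KS
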