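import Pool.Agent.W131.KS.B
import Pool.Agent.W808.HB.T_comp

/-!
# Legs at the tip of a slit: base case without other strands
-/

set_option autoImplicit false

namespace Pool.Agent.W808.KS

theorem t_B1 : S_G0 → S_B1 := Pool.Agent.W131.KS.B1 HB.t_comp

end Pool.Agent.W808.KS
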