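import Pool.Agent.W808.KS.Stm

/-!
# KS-Bd: deterministic comparison of the cut cylinder with the box in the slit plane
-/

set_option autoImplicit false

namespace Pool.Agent.W808.KS
open Relation

namespace TBd

lemma eqv_inv {α : Type} {r : α → α → Prop} {S : α → Prop} (h : ∀ x y, r x y → (S x ↔ S y)) {a b : α}
    (hab : EqvGen r a b) : S a ↔ S b := by
  induction hab with
  | rel x y hxy => exact h x y hxy
  | refl x => exact Iff.rfl
  | symm x y _ ih => exact ih.symm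
  | trans x y z _ _ h1 h2 => exact h1.trans h2

lemma BS_HS {N m R : ℕ} (hN : 4 * R + 2 * m ≤ N)
    {ω : ℤ × ℤ → Bool} {x y : ℤ × ℤ} (h : BS m R (fun p => ω (p.1 % N, p.2)) x y) :
    HS N m ω x y := by
  have key : ∀ j t : ℤ, (0 ≤ t ∨ j < 0 ∨ (m : ℤ) ≤ j) → -(R : ℤ) ≤ j → j + 1 ≤ R →
      (0 ≤ t ∨ (m : ℤ) ≤ j % N) := by
    intro j t h1 h2 h3
    rcases h1 with h1 | h1 | h1
    · exact Or.inl h1
    · right
      have e : j % (N : ℤ) = (j + N) % N := by rw [Int.add_emod_right]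
      rw [e, Int.emod_eq_of_lt (by omega) (by omega)]
      omega
    · right
      rw [Int.emod_eq_of_lt (by omega) (by omega)]
      exact h1
  cases h with
  | rise j t h0 h1 h2 h3 _ _ => exact HS.rise j t (key j t h0 h2 h3) h1
  | fall j t h0 h1 h2 h3 _ _ => exact HS.fall j t (key j t h0 h2 h3) h1
  | wallL i h1 =>
    have h3 := HS.wallR (N := N) (m := m) (ω := ω) 0 i
    rw [zero_mul] at h3
    exact h3
  | wallR i h1 =>
    have h3 := HS.wallL (N := N) (m := m) (ω := ω) 0 i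
    rw [zero_mul, zero_add] at h3
    exact h3

lemma box {m R : ℕ} (hmR : m ≤ R) {ω : ℤ × ℤ → Bool} {x y : ℤ × ℤ} (h : BS m R ω x y) :
    (-(R : ℤ) ≤ x.1 ∧ x.1 ≤ R ∧ -(R : ℤ) ≤ x.2 ∧ x.2 ≤ R) ∧
      (-(R : ℤ) ≤ y.1 ∧ y.1 ≤ R ∧ -(R : ℤ) ≤ y.2 ∧ y.2 ≤ R) := by
  cases h with
  | rise j t _ _ h1 h2 h3 h4 => dsimp only; omega
  | fall j t _ _ h1 h2 h3 h4 => dsimp only; omega
  | wallL i h1 => dsimp only; omega
  | wallR i h1 => dsimp only; omega

lemma wiredR {m R : ℕ} {ω : ℤ × ℤ → Bool} (k : ℕ) (h : 2 * k ≤ R) :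
    EqvGen (BS m R ω) ((m : ℤ), -(2 * k : ℤ)) ((m : ℤ), 0) := by
  induction k with
  | zero =>
    have : ((m : ℤ), -(2 * ((0 : ℕ) : ℤ))) = ((m : ℤ), 0) := by simp
    rw [this]
    exact EqvGen.refl _
  | succ k ih =>
    have h1 := BS.wallR (m := m) (R := R) (ω := ω) k (by omega)
    have e : -(2 * ((k + 1 : ℕ) : ℤ)) = -(2 * k : ℤ) - 2 := by push_cast; ring
    rw [e]
    exact EqvGen.trans _ _ _ (EqvGen.symm _ _ (EqvGen.rel _ _ h1)) (ih (by omega))

lemma wiredL {m R : ℕ} {ω : ℤ × ℤ → Bool} (k : ℕ) (h : 2 * k ≤ R) :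
    EqvGen (BS m R ω) ((0 : ℤ), -(2 * k : ℤ)) ((0 : ℤ), 0) := by
  induction k with
  | zero =>
    have : ((0 : ℤ), -(2 * ((0 : ℕ) : ℤ))) = ((0 : ℤ), 0) := by simp
    rw [this]
    exact EqvGen.refl _
  | succ k ih =>
    have h1 := BS.wallL (m := m) (R := R) (ω := ω) k (by omega)
    have e : -(2 * ((k + 1 : ℕ) : ℤ)) = -(2 * k : ℤ) - 2 := by push_cast; ring
    rw [e]
    exact EqvGen.trans _ _ _ (EqvGen.symm _ _ (EqvGen.rel _ _ h1)) (ih (by omega))

end TBd
open TBd

theorem t_Bd : S_Bd := by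
  intro N m R hm1 hmR hN ω hleg
  obtain ⟨hl1, hl2⟩ := hleg
  have hup : ∀ {x y : ℤ × ℤ}, EqvGen (BS m R (fun p => ω (p.1 % N, p.2))) x y →
      EqvGen (HS N m ω) x y := by
    intro x y h
    induction h with
    | rel x y hxy => exact EqvGen.rel _ _ (BS_HS hN hxy)
    | refl x => exact EqvGen.refl _
    | symm x y _ ih => exact EqvGen.symm _ _ ih
    | trans x y z _ _ h1 h2 => exact EqvGen.trans _ _ _ h1 h2
  have h1 : ∀ c d : ℕ, 1 ≤ c → c < m → d ≤ m → c ≠ d →
      ¬ EqvGen (BS m R (fun p => ω (p.1 % N, p.2))) ((c : ℤ), 0) ((d : ℤ), 0) :=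
    fun c d hc hcm hd hcd h => hl1 c d hc hcm hd hcd (hup h)
  refine ⟨h1, ?_⟩
  intro c hc hcm
  by_contra hno
  push Not at hno
  obtain ⟨s, hs, d, hd, hdm, hcon⟩ := hl2 c hc hcm
  -- the component in the box
  have hbox : ∀ x, EqvGen (BS m R (fun p => ω (p.1 % N, p.2))) ((c : ℤ), 0) x →
      (-(R : ℤ) < x.1 ∧ x.1 < R ∧ -(R : ℤ) < x.2 ∧ x.2 < R) := by
    intro x hx
    have hin : (-(R : ℤ) ≤ x.1 ∧ x.1 ≤ R ∧ -(R : ℤ) ≤ x.2 ∧ x.2 ≤ R) := by
      refine (eqv_inv (S := fun x : ℤ × ℤ => (-(R : ℤ) ≤ x.1 ∧ x.1 ≤ R ∧ -(R : ℤ) ≤ x.2 ∧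
        x.2 ≤ R)) ?_ hx).mp ?_
      · intro a b hab
        have := box hmR hab
        exact ⟨fun _ => this.2, fun _ => this.1⟩
      · dsimp only
        omega
    have h3 : ¬ (|x.1| = (R : ℤ) ∨ |x.2| = R) := fun h => hno x h hx
    have h4 : x.1 ≠ R := by
      intro h
      apply h3
      left
      rw [h]
      exact abs_of_nonneg (by positivity)
    have h5 : x.1 ≠ -(R : ℤ) := by
      intro h
      apply h3
      left
      rw [h, abs_neg]
      exact abs_of_nonneg (by positivity)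
    have h6 : x.2 ≠ R := by
      intro h
      apply h3
      right
      rw [h]
      exact abs_of_nonneg (by positivity)
    have h7 : x.2 ≠ -(R : ℤ) := by
      intro h
      apply h3
      right
      rw [h, abs_neg]
      exact abs_of_nonneg (by positivity)
    omega
  -- no wall point in the component
  have hs0 : ∀ s : ℤ, s ≠ 0 → (s * N + m < -(R : ℤ) ∧ s * N < -(R : ℤ)) ∨
      ((R : ℤ) < s * N + m ∧ (R : ℤ) < s * N) := by
    intro s hs
    rcases lt_or_gt_of_ne hs with hs0 | hs0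
    · left
      have h5 : s * N ≤ -(N : ℤ) := by nlinarith
      omega
    · right
      have h5 : (N : ℤ) ≤ s * N := by nlinarith
      omega
  have hwallL : ∀ (s : ℤ) (i : ℕ),
      ¬ EqvGen (BS m R (fun p => ω (p.1 % N, p.2))) ((c : ℤ), 0) (s * N + m, -(2 * i : ℤ)) := by
    intro s i hx
    have hb := hbox _ hx
    dsimp only at hb
    by_cases hs1 : s = 0
    · subst hs1
      rw [zero_mul, zero_add] at hx
      have h6 := EqvGen.trans _ _ _ hx (wiredR i (by omega))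
      exact h1 c m hc hcm le_rfl (by omega) h6
    · have := hs0 s hs1
      omega
  have hwallR : ∀ (s : ℤ) (i : ℕ),
      ¬ EqvGen (BS m R (fun p => ω (p.1 % N, p.2))) ((c : ℤ), 0) (s * N, -(2 * i : ℤ)) := by
    intro s i hx
    have hb := hbox _ hx
    dsimp only at hb
    by_cases hs1 : s = 0
    · subst hs1
      rw [zero_mul] at hx
      have h6 := EqvGen.trans _ _ _ hx (wiredL i (by omega))
      exact h1 c 0 hc hcm (by omega) (by omega) h6
    · have := hs0 s hs1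
      omega
  have hmod : ∀ j t : ℤ, (0 ≤ t ∨ (m : ℤ) ≤ j % N) → -(R : ℤ) ≤ j → j + 1 ≤ R →
      (0 ≤ t ∨ j < 0 ∨ (m : ℤ) ≤ j) := by
    intro j t h h2 h3
    rcases h with h | h
    · exact Or.inl h
    · by_cases hj : j < 0
      · exact Or.inr (Or.inl hj)
      · rw [Int.emod_eq_of_lt (by omega) (by omega)] at h
        exact Or.inr (Or.inr h)
  have hcl : ∀ x y, HS N m ω x y →
      (EqvGen (BS m R (fun p => ω (p.1 % N, p.2))) ((c : ℤ), 0) x ↔
        EqvGen (BS m R (fun p => ω (p.1 % N, p.2))) ((c : ℤ), 0) y) := by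
    intro x y hxy
    cases hxy with
    | rise j t h0 h =>
      have key : (-(R : ℤ) ≤ j ∧ j + 1 ≤ R ∧ -(R : ℤ) ≤ t ∧ t + 1 ≤ R) →
          EqvGen (BS m R (fun p => ω (p.1 % N, p.2))) (j, t) (j + 1, t + 1) :=
        fun hh => EqvGen.rel _ _ (BS.rise j t (hmod j t h0 hh.1 hh.2.1) h hh.1 hh.2.1 hh.2.2.1
          hh.2.2.2)
      constructor
      · intro hx
        have hb := hbox _ hx
        dsimp only at hb
        exact EqvGen.trans _ _ _ hx (key (by omega))
      · intro hx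
        have hb := hbox _ hx
        dsimp only at hb
        exact EqvGen.trans _ _ _ hx (EqvGen.symm _ _ (key (by omega)))
    | fall j t h0 h =>
      have key : (-(R : ℤ) ≤ j ∧ j + 1 ≤ R ∧ -(R : ℤ) ≤ t ∧ t + 1 ≤ R) →
          EqvGen (BS m R (fun p => ω (p.1 % N, p.2))) (j + 1, t) (j, t + 1) :=
        fun hh => EqvGen.rel _ _ (BS.fall j t (hmod j t h0 hh.1 hh.2.1) h hh.1 hh.2.1 hh.2.2.1
          hh.2.2.2)
      constructor
      · intro hx
        have hb := hbox _ hx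
        dsimp only at hb
        exact EqvGen.trans _ _ _ hx (key (by omega))
      · intro hx
        have hb := hbox _ hx
        dsimp only at hb
        exact EqvGen.trans _ _ _ hx (EqvGen.symm _ _ (key (by omega)))
    | wallL s i =>
      constructor
      · intro hx
        exact absurd hx (hwallL s i)
      · intro hx
        have e : -(2 * i : ℤ) - 2 = -(2 * ((i + 1 : ℕ) : ℤ)) := by push_cast; ring
        rw [e] at hx
        exact absurd hx (hwallL s (i + 1))
    | wallR s i =>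
      constructor
      · intro hx
        exact absurd hx (hwallR s i)
      · intro hx
        have e : -(2 * i : ℤ) - 2 = -(2 * ((i + 1 : ℕ) : ℤ)) := by push_cast; ring
        rw [e] at hx
        exact absurd hx (hwallR s (i + 1))
  have hfin : EqvGen (BS m R (fun p => ω (p.1 % N, p.2))) ((c : ℤ), 0) (s * N + d, 0) :=
    (eqv_inv hcl hcon).mp (EqvGen.refl _)
  have hb := hbox _ hfin
  dsimp only at hb
  rcases lt_or_gt_of_ne hs with hs0 | hs0
  · have h5 : s * N ≤ -(N : ℤ) := by nlinarith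
    omega
  · have h5 : (N : ℤ) ≤ s * N := by nlinarith
    omega

end Pool.Agent.W808.KS
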