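import Pool.Agent.W808.KS.Stm

/-!
# One leg (the case excluded in `S_KW`) (helper338)
-/

set_option autoImplicit false

namespace Pool.Agent.W808.KS
open Pool.Agent.H863R2.Cyl
open Pool.Agent.H988R2.Perc (Word PD Dyck LP Fw rainbow firstArc rem)
open Pool.Agent.H160R2.ML (Gn)
open Pool.Agent.W808.HB (bwm)

namespace TD1

open Pool.Agent.H863R2.Cyl.KRelAux
open Pool.Agent.H988R2.Perc (mem_LP Fw_V Fw_exch Fw_rec q_spec q_cube q_ne_zero q_ne_one)

/-! ## the functional on words -/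

theorem es_bs (b1 b2 m : ℕ) (w u : Word) :
    es b1 b2 m w (bs u) = if Gs b1 b2 m w u then 1 else 0 := by
  unfold es bs
  rw [Finsupp.linearCombination_single, one_smul]

theorem lin_id (v : VW) : lin (fun w => w) v = v :=
  congrFun (congrArg DFunLike.coe (Finsupp.lmapDomain_id ℂ ℂ)) _

theorem es_lin {b1 b2 m b1' b2' m' N : ℕ} {w w' : Word} {f g : Word → Word}
    (h : ∀ u : Word, u.length = N → Ok u → (Gs b1 b2 m w (f u) ↔ Gs b1' b2' m' w' (g u)))
    {v : VW} (hv : v ∈ VN N) : es b1 b2 m w (lin f v) = es b1' b2' m' w' (lin g v) := by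
  refine ext_VN (A := es b1 b2 m w ∘ₗ lin f) (B := es b1' b2' m' w' ∘ₗ lin g)
    (fun u h1 h2 => ?_) hv
  rw [LinearMap.comp_apply, LinearMap.comp_apply, lin_bs, lin_bs, es_bs, es_bs]
  simp only [h u h1 h2]

theorem es_lin' {b1 b2 m b1' b2' m' N : ℕ} {w w' : Word} {f : Word → Word}
    (h : ∀ u : Word, u.length = N → Ok u → (Gs b1 b2 m w (f u) ↔ Gs b1' b2' m' w' u))
    {v : VW} (hv : v ∈ VN N) : es b1 b2 m w (lin f v) = es b1' b2' m' w' v := by
  rw [es_lin (g := fun u => u) h hv, lin_id]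

theorem es_lin0 {b1 b2 m b1' b2' m' N : ℕ} {w w' : Word} {g : Word → Word}
    (h : ∀ u : Word, u.length = N → Ok u → (Gs b1 b2 m w u ↔ Gs b1' b2' m' w' (g u)))
    {v : VW} (hv : v ∈ VN N) : es b1 b2 m w v = es b1' b2' m' w' (lin g v) := by
  rw [← es_lin (f := fun u => u) h hv, lin_id]

theorem es_zero {b1 b2 m N : ℕ} {w : Word} {f : Word → Word}
    (h : ∀ u : Word, u.length = N → Ok u → ¬ Gs b1 b2 m w (f u))
    {v : VW} (hv : v ∈ VN N) : es b1 b2 m w (lin f v) = 0 := by
  refine (ext_VN (A := es b1 b2 m w ∘ₗ lin f) (B := 0) (fun u h1 h2 => ?_) hv)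
  rw [LinearMap.comp_apply, lin_bs, es_bs, if_neg (h u h1 h2), LinearMap.zero_apply]

theorem HV_eq (v : VW) (m : ℕ) (B1 B2 z : List ℂ) {N : ℕ}
    (hN : B1.length + z.length + B2.length = N) : HV v m B1 B2 z =
      ∑ w ∈ LP N, Fw w (B1 ++ z ++ B2) * es B1.length B2.length m w v := by
  subst hN
  rfl

/-! ## operators which commute with the generators -/

structure TS (T : VW →ₗ[ℂ] VW) (δ : ℕ) : Prop where
  mem : ∀ (N : ℕ) (v : VW), v ∈ VN N → T v ∈ VN (N + δ)
  act : ∀ (N i : ℕ) (v : VW), i + 2 ≤ N → v ∈ VN N → lin (act (i + δ)) (T v) = T (lin (act i) v)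

theorem ts_id : TS LinearMap.id 0 := ⟨fun _ _ h => h, fun _ _ _ _ _ => rfl⟩

theorem ts_K {r : ℂ} {K : VW →ₗ[ℂ] VW} (hr : r ^ 2 + r + 1 = 0) (hK : KSpec r K) : TS K 1 :=
  ⟨fun _ _ h => K_mem hK h, fun _ _ _ hi hv => K_act hr hK hi hv⟩

/-! ## polynomial functions -/

theorem expand {N : ℕ} {v : VW} (hv : v ∈ VN N) (L : VW →ₗ[ℂ] ℂ) :
    L v = ∑ σ : Wd N, v σ.1 * L (bs σ.1) := by
  classical
  obtain ⟨B, hB⟩ : ∃ B : VW →ₗ[ℂ] ℂ, ∀ v, B v = ∑ σ : Wd N, v σ.1 * L (bs σ.1) :=
    ⟨∑ σ : Wd N, (Finsupp.lapply (R := ℂ) (M := ℂ) σ.1 : VW →ₗ[ℂ] ℂ).smulRight (L (bs σ.1)),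
      fun v => by
        rw [LinearMap.sum_apply]
        exact Finset.sum_congr rfl fun σ _ => rfl⟩
  rw [← hB]
  refine ext_VN (A := L) (B := B) (fun w h1 h2 => ?_) hv
  rw [hB]
  refine ((Finset.sum_eq_single (⟨w, h1, h2⟩ : Wd N) ?_ ?_).trans ?_).symm
  · intro σ _ hσ
    have h3 : w ≠ σ.1 := fun h4 => hσ (Subtype.ext h4.symm)
    have h4 : (bs w) σ.1 = 0 := Finsupp.single_eq_of_ne (Ne.symm h3)
    exact mul_eq_zero_of_left h4 _
  · intro h3
    exact absurd (Finset.mem_univ (α := Wd N) _) h3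
  · show (bs w) w * L (bs w) = L (bs w)
    simp [bs]

theorem poly_lin {Ψ : List ℂ → VW} (hΨ : Fam q Ψ) (L : VW →ₗ[ℂ] ℂ) (z : List ℂ) :
    ∃ P : Polynomial ℂ, P.natDegree ≤ z.length ∧ ∀ a, L (Ψ (a :: z)) = P.eval a := by
  have h1 : ∀ σ : Wd (z.length + 1), ∃ P : Polynomial ℂ, P.natDegree ≤ z.length ∧
      ∀ a, Ψ (a :: z) σ.1 = P.eval a := by
    intro σ
    obtain ⟨P, h1, h2⟩ := (hΨ.deg (z.length + 1) σ.1).univ [] z (by simp)
    exact ⟨P, h1, h2⟩
  choose P h2 h3 using h1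
  refine ⟨∑ σ, P σ * Polynomial.C (L (bs σ.1)), ?_, fun a => ?_⟩
  · refine Polynomial.natDegree_sum_le_of_forall_le _ _ fun σ _ => ?_
    exact (Polynomial.natDegree_mul_C_le _ _).trans (h2 σ)
  · rw [expand (hΨ.mem (a :: z)) L, Polynomial.eval_finsetSum]
    refine Finset.sum_congr rfl fun σ _ => ?_
    rw [Polynomial.eval_mul, Polynomial.eval_C, ← h3]

theorem PD_lin {Ψ : List ℂ → VW} (hΨ : Fam q Ψ) (L : VW →ₗ[ℂ] ℂ) (A : List ℂ) (n : ℕ) :
    PD n (A.length + n - 1) (fun z => L (Ψ (A ++ z))) := by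
  have h1 : ∀ σ : Wd (A.length + n), PD n (A.length + n - 1)
      (fun z => L (bs σ.1) * Ψ (A ++ z) σ.1) := fun σ =>
    ((hΨ.deg (A.length + n) σ.1).sliceLeft A).smul _
  refine (PD.sum Finset.univ fun σ _ => h1 σ).congr fun z hz => ?_
  have h2 : (A ++ z).length = A.length + n := by rw [List.length_append, hz]
  have h3 := hΨ.mem (A ++ z)
  rw [h2] at h3
  rw [expand h3 L]
  exact Finset.sum_congr rfl fun σ _ => mul_comm _ _

theorem PD_HV {Ψ : List ℂ → VW} (hΨ : Fam q Ψ) (T : VW →ₗ[ℂ] VW) (m : ℕ) (A B1 B2 : List ℂ)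
    (n : ℕ) : ∃ d, PD n d (fun z => HV (T (Ψ (A ++ z))) m B1 B2 z) := by
  refine ⟨(B1.length + n + B2.length - 2) + (A.length + n - 1), ?_⟩
  have h1 : ∀ w ∈ LP (B1.length + n + B2.length), PD n
      ((B1.length + n + B2.length - 2) + (A.length + n - 1))
      (fun z => Fw w (B1 ++ z ++ B2) * es B1.length B2.length m w (T (Ψ (A ++ z)))) := by
    intro w hw
    refine PD.mul ?_ (PD_lin hΨ (es B1.length B2.length m w ∘ₗ T) A n)
    have h2 := ((Fw_V hw).pd.sliceRight B2).sliceLeft B1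
    exact h2
  refine (PD.sum _ h1).congr fun z hz => ?_
  rw [HV_eq _ _ _ _ _ (show B1.length + z.length + B2.length = B1.length + n + B2.length by rw [hz])]

theorem poly_sum {ι : Type*} (s : Finset ι) {d : ℕ} {f : ι → ℂ → ℂ}
    (h : ∀ i ∈ s, ∃ P : Polynomial ℂ, P.natDegree ≤ d ∧ ∀ a, f i a = P.eval a) :
    ∃ P : Polynomial ℂ, P.natDegree ≤ d ∧ ∀ a, ∑ i ∈ s, f i a = P.eval a := by
  classical
  have h' : ∀ i, ∃ P : Polynomial ℂ, i ∈ s → P.natDegree ≤ d ∧ ∀ a, f i a = P.eval a := by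
    intro i
    by_cases hi : i ∈ s
    · obtain ⟨P, hP⟩ := h i hi
      exact ⟨P, fun _ => hP⟩
    · exact ⟨0, fun hi' => absurd hi' hi⟩
  choose P hP using h'
  refine ⟨∑ i ∈ s, P i, Polynomial.natDegree_sum_le_of_forall_le _ _ fun i hi => (hP i hi).1,
    fun a => ?_⟩
  rw [Polynomial.eval_finsetSum]
  exact Finset.sum_congr rfl fun i hi => (hP i hi).2 a

theorem poly_A {Ψ : List ℂ → VW} (hΨ : Fam q Ψ) (T : VW →ₗ[ℂ] VW) (m : ℕ) (z : List ℂ) :
    ∃ P : Polynomial ℂ, P.natDegree ≤ z.length ∧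
      ∀ a, HV (T (Ψ (a :: z))) m [] [] z = P.eval a := by
  unfold HV
  refine poly_sum _ fun w _ => ?_
  obtain ⟨P, h1, h2⟩ := poly_lin hΨ (es 0 0 m w ∘ₗ T) z
  refine ⟨Polynomial.C (Fw w ([] ++ z ++ [])) * P, (Polynomial.natDegree_C_mul_le _ _).trans h1,
    fun a => ?_⟩
  rw [Polynomial.eval_mul, Polynomial.eval_C, ← h2]
  rfl

theorem poly_B1 (v : VW) (m : ℕ) (z : List ℂ) :
    ∃ P : Polynomial ℂ, P.natDegree ≤ z.length - 1 ∧ ∀ b, HV v m [b] [] z = P.eval b := by
  have h0 : ∀ b : ℂ, HV v m [b] [] z =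
      ∑ w ∈ LP (z.length + 1), Fw w ([] ++ b :: z) * es 1 0 m w v := fun b => by
    rw [HV_eq v m [b] [] z (N := z.length + 1) (by simp; omega)]
    simp
  simp_rw [h0]
  refine poly_sum _ fun w hw => ?_
  obtain ⟨P, h1, h2⟩ := (Fw_V hw).pd.univ [] z (by simp)
  refine ⟨P * Polynomial.C (es 1 0 m w v), (Polynomial.natDegree_mul_C_le _ _).trans (by omega),
    fun b => ?_⟩
  rw [Polynomial.eval_mul, Polynomial.eval_C, ← h2]

theorem poly_B2 (v : VW) (m : ℕ) (z : List ℂ) :
    ∃ P : Polynomial ℂ, P.natDegree ≤ z.length - 1 ∧ ∀ b, HV v m [] [b] z = P.eval b := by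
  have h0 : ∀ b : ℂ, HV v m [] [b] z =
      ∑ w ∈ LP (z.length + 1), Fw w (z ++ b :: []) * es 0 1 m w v := fun b => by
    rw [HV_eq v m [] [b] z (N := z.length + 1) (by simp)]
    simp
  simp_rw [h0]
  refine poly_sum _ fun w hw => ?_
  obtain ⟨P, h1, h2⟩ := (Fw_V hw).pd.univ z [] (by simp)
  refine ⟨P * Polynomial.C (es 0 1 m w v), (Polynomial.natDegree_mul_C_le _ _).trans (by omega),
    fun b => ?_⟩
  rw [Polynomial.eval_mul, Polynomial.eval_C, ← h2]

theorem poly_eq {f g : ℂ → ℂ} {d : ℕ}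
    (hf : ∃ P : Polynomial ℂ, P.natDegree ≤ d ∧ ∀ x, f x = P.eval x)
    (hg : ∃ P : Polynomial ℂ, P.natDegree ≤ d ∧ ∀ x, g x = P.eval x) (c : ℂ)
    (S : Finset ℂ) (hS : d < S.card) (h : ∀ x ∈ S, f x = c * g x) (x : ℂ) : f x = c * g x := by
  obtain ⟨P, h1, h2⟩ := hf
  obtain ⟨Q, h3, h4⟩ := hg
  have h5 : P - Polynomial.C c * Q = 0 := by
    refine Polynomial.eq_zero_of_natDegree_lt_card_of_eval_eq_zero' _ S (fun y hy => ?_)
      (lt_of_le_of_lt ?_ hS)
    · rw [Polynomial.eval_sub, Polynomial.eval_mul, Polynomial.eval_C, ← h2, ← h4, h y hy, sub_self]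
    · refine (Polynomial.natDegree_sub_le _ _).trans (max_le h1 ?_)
      exact (Polynomial.natDegree_C_mul_le _ _).trans h3
  have h6 := congrArg (Polynomial.eval x) h5
  rw [Polynomial.eval_sub, Polynomial.eval_mul, Polynomial.eval_C, Polynomial.eval_zero, ← h2,
    ← h4] at h6
  exact sub_eq_zero.1 h6

/-! ## symmetry -/

theorem es_act (hGm : S_Gm) {b1 b2 m n i : ℕ} {w : Word} (hw : w ∈ LP (b1 + n + b2))
    (hi : i + 2 ≤ n) {v : VW} (hv : v ∈ VN (m + n)) :
    es b1 b2 m w (lin (act (m + i)) v) =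
      es b1 b2 m (Pool.Agent.H988R2.Perc.act (b1 + i) w) v := by
  obtain ⟨hw1, hw2⟩ := mem_LP.1 hw
  refine es_lin' (fun u h1 h2 => ?_) hv
  have h3 : (cap (m + i) u).length + 2 = u.length := length_cap (by omega)
  have h4 : Ok (cap (m + i) u) := ok_cap h2 (by omega)
  rw [act_eq (by omega)]
  have h5 := (hGm b1 b2 m n i w (cap (m + i) u) hw2 h4 hi).1 hw1 (by omega)
  have h6 := Pool.Agent.H988R2.Perc.length_cap (i := b1 + i) (w := w) (by omega)
  have h7 := (hGm b1 b2 m n i (Pool.Agent.H988R2.Perc.cap (b1 + i) w) u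
    (Pool.Agent.H988R2.Perc.dyck_cap hw2 (by omega)) h2 hi).2 (by omega) (by omega)
  rw [h5, ← h7]
  rfl

theorem swap (hGm : S_Gm) {b1 b2 m : ℕ} (B1 B2 u v : List ℂ) (x y : ℂ) (hb1 : B1.length = b1)
    (hb2 : B2.length = b2) (hev : Even (b1 + (u.length + v.length + 2) + b2)) (V V' : VW)
    (hV : V ∈ VN (m + (u.length + v.length + 2)))
    (hex : (q * y - q ^ 2 * x) • V' = (q * x - q ^ 2 * y) • V +
      (x - y) • lin (act (m + u.length)) V)
    (h1 : q * x - q ^ 2 * y ≠ 0) (h2 : q * y - q ^ 2 * x ≠ 0) :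
    HV V' m B1 B2 (u ++ y :: x :: v) = HV V m B1 B2 (u ++ x :: y :: v) := by
  obtain ⟨M, hM⟩ := hev
  have hM' : b1 + (u.length + v.length + 2) + b2 = 2 * M := by omega
  have e1 : B1 ++ (u ++ y :: x :: v) ++ B2 = (B1 ++ u) ++ y :: x :: (v ++ B2) := by simp
  have e2 : B1 ++ (u ++ x :: y :: v) ++ B2 = (B1 ++ u) ++ x :: y :: (v ++ B2) := by simp
  rw [HV_eq V' m B1 B2 _ (N := 2 * M) (by simp; omega), HV_eq V m B1 B2 _ (N := 2 * M)
    (by simp; omega), e1, e2, hb1, hb2]
  have hl : (B1 ++ u).length = b1 + u.length := by simp [hb1]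
  have hex' : ∀ π ∈ LP (2 * M), (q * x - q ^ 2 * y) * Fw π ((B1 ++ u) ++ y :: x :: (v ++ B2)) =
      (q * y - q ^ 2 * x) * Fw π ((B1 ++ u) ++ x :: y :: (v ++ B2)) +
      (y - x) * ∑ w ∈ LP (2 * M), (if Pool.Agent.H988R2.Perc.act (b1 + u.length) w = π then
        Fw w ((B1 ++ u) ++ x :: y :: (v ++ B2)) else 0) := by
    intro π hπ
    have h3 := Fw_exch hπ (B1 ++ u) (v ++ B2) x y (by simp; omega)
    rw [hl] at h3
    exact h3
  set F : Word → ℂ := fun w => Fw w ((B1 ++ u) ++ x :: y :: (v ++ B2)) with hF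
  set e : Word → ℂ := fun w => es b1 b2 m w V with he
  set a : Word → Word := Pool.Agent.H988R2.Perc.act (b1 + u.length) with ha
  have hact : ∀ w ∈ LP (2 * M), a w ∈ LP (2 * M) := fun w hw => by
    obtain ⟨k1, k2⟩ := mem_LP.1 hw
    exact mem_LP.2 ⟨by rw [ha, Pool.Agent.H988R2.Perc.length_act (by omega), k1],
      Pool.Agent.H988R2.Perc.dyck_act k2 (by omega)⟩
  have haa : ∀ w ∈ LP (2 * M), a (a w) = a w := fun w hw => by
    obtain ⟨k1, k2⟩ := mem_LP.1 hw
    have k3 := Pool.Agent.H988R2.Perc.length_cap (i := b1 + u.length) (w := w) (by omega)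
    rw [ha]
    show Pool.Agent.H988R2.Perc.act (b1 + u.length) (Pool.Agent.H988R2.Perc.ins (b1 + u.length)
      (Pool.Agent.H988R2.Perc.cap (b1 + u.length) w)) = _
    rw [Pool.Agent.H988R2.Perc.act_ins_self (by omega)]
    rfl
  have hea : ∀ w ∈ LP (2 * M), es b1 b2 m w (lin (act (m + u.length)) V) = e (a w) := by
    intro w hw
    rw [← hM'] at hw
    exact es_act hGm hw (by omega) hV
  have hsum : ∀ g : Word → ℂ, ∑ π ∈ LP (2 * M), (∑ w ∈ LP (2 * M), if a w = π then F w else 0) * g π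
      = ∑ w ∈ LP (2 * M), F w * g (a w) := by
    intro g
    simp_rw [Finset.sum_mul]
    rw [Finset.sum_comm]
    refine Finset.sum_congr rfl fun w hw => ?_
    rw [Finset.sum_eq_single (a w)]
    · rw [if_pos rfl]
    · intro π _ hπ
      rw [if_neg (Ne.symm hπ), zero_mul]
    · intro h3
      exact absurd (hact w hw) h3
  have key : (q * x - q ^ 2 * y) * (q * y - q ^ 2 * x) *
      ∑ π ∈ LP (2 * M), Fw π ((B1 ++ u) ++ y :: x :: (v ++ B2)) * es b1 b2 m π V' =
      (q * x - q ^ 2 * y) * (q * y - q ^ 2 * x) * ∑ π ∈ LP (2 * M), F π * e π := by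
    calc (q * x - q ^ 2 * y) * (q * y - q ^ 2 * x) *
          ∑ π ∈ LP (2 * M), Fw π ((B1 ++ u) ++ y :: x :: (v ++ B2)) * es b1 b2 m π V'
        = ∑ π ∈ LP (2 * M), ((q * x - q ^ 2 * y) * Fw π ((B1 ++ u) ++ y :: x :: (v ++ B2))) *
            es b1 b2 m π ((q * y - q ^ 2 * x) • V') := by
          rw [Finset.mul_sum]
          refine Finset.sum_congr rfl fun π _ => ?_
          rw [map_smul, smul_eq_mul]
          ring
      _ = ∑ π ∈ LP (2 * M), ((q * y - q ^ 2 * x) * F π +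
            (y - x) * ∑ w ∈ LP (2 * M), if a w = π then F w else 0) *
            ((q * x - q ^ 2 * y) * e π + (x - y) * e (a π)) := by
          refine Finset.sum_congr rfl fun π hπ => ?_
          rw [hex' π hπ, hex, map_add, map_smul, map_smul, smul_eq_mul, smul_eq_mul, hea π hπ]
      _ = (q * y - q ^ 2 * x) * ∑ π ∈ LP (2 * M), F π *
              ((q * x - q ^ 2 * y) * e π + (x - y) * e (a π)) +
            (y - x) * ∑ π ∈ LP (2 * M), (∑ w ∈ LP (2 * M), if a w = π then F w else 0) *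
              ((q * x - q ^ 2 * y) * e π + (x - y) * e (a π)) := by
          rw [Finset.mul_sum, Finset.mul_sum, ← Finset.sum_add_distrib]
          refine Finset.sum_congr rfl fun π _ => ?_
          ring
      _ = (q * y - q ^ 2 * x) * ∑ π ∈ LP (2 * M), F π *
              ((q * x - q ^ 2 * y) * e π + (x - y) * e (a π)) +
            (y - x) * ∑ w ∈ LP (2 * M), F w *
              ((q * x - q ^ 2 * y) * e (a w) + (x - y) * e (a w)) := by
          rw [hsum fun π => (q * x - q ^ 2 * y) * e π + (x - y) * e (a π)]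
          congr 2
          refine Finset.sum_congr rfl fun w hw => ?_
          rw [haa w hw]
      _ = _ := by
          rw [Finset.mul_sum, Finset.mul_sum, Finset.mul_sum, ← Finset.sum_add_distrib]
          refine Finset.sum_congr rfl fun π _ => ?_
          linear_combination (-((x - y) ^ 2) * F π * e (a π)) * q_spec
  exact mul_left_cancel₀ (mul_ne_zero h1 h2) key

theorem Gn_perm {l l' : List ℂ} (h : l.Perm l') (hl : Gn l) : Gn l' :=
  ⟨fun x hx => hl.1 x (h.mem_iff.2 hx), (h.map _).nodup_iff.1 hl.2⟩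

theorem Gn_sublist {l l' : List ℂ} (h : l'.Sublist l) (hl : Gn l) : Gn l' :=
  ⟨fun x hx => hl.1 x (h.subset hx), (h.map _).nodup hl.2⟩

theorem gn_two {x y : ℂ} (h : x ^ 3 ≠ y ^ 3) : q * x - q ^ 2 * y ≠ 0 := by
  intro h1
  apply h
  have h2 : x = q * y := by
    have h3 : q * (x - q * y) = 0 := by linear_combination h1
    rcases mul_eq_zero.1 h3 with h4 | h4
    · exact absurd h4 q_ne_zero
    · linear_combination h4
  rw [h2, mul_pow, q_cube, one_mul]

theorem perm_of_swap {F : List ℂ → ℂ}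
    (hsw : ∀ (u v : List ℂ) (x y : ℂ), Gn (u ++ x :: y :: v) →
      F (u ++ y :: x :: v) = F (u ++ x :: y :: v)) {z z' : List ℂ} (hp : z.Perm z') (hG : Gn z) :
    F z = F z' := by
  have key : ∀ u : List ℂ, Gn (u ++ z) → F (u ++ z) = F (u ++ z') := by
    clear hG
    induction hp with
    | nil => intro u _; rfl
    | cons x _ ih =>
      intro u hu
      have := ih (u ++ [x]) (by simpa using hu)
      simpa using this
    | swap x y l =>
      intro u hu
      exact (hsw u l y x hu).symm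
    | trans p1 p2 ih1 ih2 =>
      intro u hu
      rw [ih1 u hu, ih2 u (Gn_perm (p1.append_left u) hu)]
  exact key [] hG

theorem sym (hGm : S_Gm) {Ψ : List ℂ → VW} (hΨ : Fam q Ψ) {T : VW →ₗ[ℂ] VW} {δ : ℕ}
    (hT : TS T δ) {m : ℕ} (A B1 B2 : List ℂ) (hm : m = A.length + δ) {z z' : List ℂ}
    (hp : z.Perm z') (hev : Even (B1.length + z.length + B2.length)) (hG : Gn z) :
    HV (T (Ψ (A ++ z))) m B1 B2 z = HV (T (Ψ (A ++ z'))) m B1 B2 z' := by
  obtain ⟨N, hN⟩ : ∃ N, N = z.length := ⟨_, rfl⟩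
  have h0 : (if z.length = N then HV (T (Ψ (A ++ z))) m B1 B2 z else 0) =
      if z'.length = N then HV (T (Ψ (A ++ z'))) m B1 B2 z' else 0 := by
    refine perm_of_swap (F := fun z => if z.length = N then HV (T (Ψ (A ++ z))) m B1 B2 z else 0)
      (fun u v x y hu => ?_) hp hG
    have hlen : (u ++ y :: x :: v).length = (u ++ x :: y :: v).length := by simp
    simp only [hlen]
    split_ifs with hl
    · have hxy : x ^ 3 ≠ y ^ 3 := by
        have h1 : Gn [x, y] := Gn_sublist (((((List.nil_sublist v).cons_cons y).cons_cons x)).trans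
          (List.sublist_append_right u _)) hu
        have h2 := h1.2
        simp only [List.map_cons, List.map_nil, List.nodup_cons, List.mem_cons, List.not_mem_nil,
          or_false, not_false_eq_true, List.nodup_nil, and_true] at h2
        exact h2
      have hl' : u.length + v.length + 2 = N := by
        rw [← hl]
        simp
        omega
      have hmem : T (Ψ (A ++ (u ++ x :: y :: v))) ∈ VN (m + (u.length + v.length + 2)) := by
        have h1 := hT.mem _ _ (hΨ.mem (A ++ (u ++ x :: y :: v)))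
        have h2 : (A ++ (u ++ x :: y :: v)).length + δ = m + (u.length + v.length + 2) := by
          rw [hm]
          simp
          omega
        rwa [h2] at h1
      refine swap hGm B1 B2 u v x y rfl rfl (by rw [hl', hN]; exact hev) _ _ hmem ?_ (gn_two hxy)
        (gn_two (Ne.symm hxy))
      have h1 := congrArg T (hΨ.exch (A ++ u) v x y)
      rw [map_smul, map_add, map_smul, map_smul, ← hT.act (A ++ (u ++ x :: y :: v)).length
        (A ++ u).length _ (by simp; omega) (by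
          have := hΨ.mem (A ++ u ++ x :: y :: v)
          rw [List.append_assoc] at this
          rw [List.append_assoc]
          exact this)] at h1
      have h2 : (A ++ u).length + δ = m + u.length := by
        rw [hm]
        simp
        omega
      rw [h2] at h1
      simpa only [List.append_assoc] using h1
    · rfl
  rw [if_pos hN.symm, if_pos (by rw [← hp.length_eq]; exact hN.symm)] at h0
  exact h0

/-! ## recursions -/

theorem LA1 (hGv : S_Gv) {r : ℂ} {K : VW →ₗ[ℂ] VW} (hK : KSpec r K) {Ψ : List ℂ → VW}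
    (hΨ : Fam q Ψ) (a : ℂ) (z : List ℂ) :
    HV (K (Ψ (a :: (q * a) :: z))) 2 [] [] ((q * a) :: z) =
      fac q a z * HV (K (Ψ z)) 1 [q * a] [] z := by
  have h1 := hΨ.recu [] z a
  simp only [List.nil_append, List.length_nil] at h1
  rw [h1, map_smul, K_lins hK (Nat.zero_le _) (hΨ.mem z),
    HV_eq _ 2 [] [] _ (N := z.length + 1) (by simp),
    HV_eq _ 1 [q * a] [] z (N := z.length + 1) (by simp; omega), Finset.mul_sum]
  refine Finset.sum_congr rfl fun w hw => ?_
  obtain ⟨hw1, hw2⟩ := mem_LP.1 hw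
  have h2 : es 0 0 2 w (lin (lins (0 + 1)) (K (Ψ z))) = es 1 0 1 w (K (Ψ z)) :=
    es_lin' (fun u k1 k2 => ((hGv 0 0 1 z.length w u hw2 k2).1 (by omega) (by omega)).1)
      (K_mem hK (hΨ.mem z))
  rw [map_smul, smul_eq_mul]
  simp only [List.length_nil, List.length_cons, zero_add]
  simp only [zero_add] at h2
  rw [h2]
  simp only [List.nil_append, List.append_nil, List.cons_append]
  ring

theorem LA2 (hGz : S_Gz) (hGv : S_Gv) {r : ℂ} {K : VW →ₗ[ℂ] VW} (hK : KSpec r K)
    {Ψ : List ℂ → VW} (hΨ : Fam q Ψ) (y : ℂ) (z : List ℂ) :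
    HV (K (Ψ ((q * y) :: (z ++ [y])))) 2 [] [] (z ++ [y]) =
      -r ^ 2 * fac q y z * HV (K (Ψ z)) 1 [] [y] z := by
  have h1 : Ψ ((q * y) :: (z ++ [y])) = fac q y z • lin seam (Ψ z) := by
    have h2 := hΨ.recu z [] y
    simp only [List.append_nil] at h2
    rw [hΨ.rot, List.append_assoc, List.singleton_append, h2, map_smul, lin_lin]
    congr 1
    refine lin_congr (fun w hw _ => ?_) (hΨ.mem z)
    rw [← hw, rotr_lins_last]
  rw [h1, map_smul, K_seam hK (hΨ.mem z),
    HV_eq _ 2 [] [] _ (N := z.length + 1) (by simp),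
    HV_eq _ 1 [] [y] z (N := z.length + 1) (by simp), Finset.mul_sum]
  refine Finset.sum_congr rfl fun w hw => ?_
  obtain ⟨hw1, hw2⟩ := mem_LP.1 hw
  have hKm := K_mem hK (hΨ.mem z)
  have h2 : es 0 0 2 w (lin seam (K (Ψ z))) = es 0 1 1 w (K (Ψ z)) :=
    es_lin' (fun u k1 k2 => ((hGv 0 0 1 z.length w u hw2 k2).1 (by omega) (by omega)).2) hKm
  have h3 : es 0 0 2 w (lin (act 0) (lin seam (K (Ψ z)))) = 0 := by
    refine es_zero (fun u k1 k2 => ?_) (seam_mem hKm)
    rw [act_eq (by omega)]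
    have k3 := length_cap (i := 0) (w := u) (by omega)
    exact (hGz 0 0 2 (z.length + 1) 0 w (cap 0 u) hw2 (ok_cap k2 (by omega))).1 (by omega)
      (by omega) (by omega)
  simp only [List.length_nil, List.length_cons, zero_add, List.nil_append, List.append_nil]
  rw [map_smul, map_neg, map_add, map_smul, map_smul, h2, h3]
  simp only [smul_eq_mul]
  ring

theorem sum_ins {M i : ℕ} (hi : i ≤ 2 * M) (F g : Word → ℂ) :
    ∑ w ∈ LP (2 * (M + 1)), (∑ w' ∈ LP (2 * M),
      if Pool.Agent.H988R2.Perc.ins i w' = w then F w' else 0) * g w =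
    ∑ w' ∈ LP (2 * M), F w' * g (Pool.Agent.H988R2.Perc.ins i w') := by
  simp_rw [Finset.sum_mul]
  rw [Finset.sum_comm]
  refine Finset.sum_congr rfl fun w hw => ?_
  obtain ⟨k1, k2⟩ := mem_LP.1 hw
  rw [Finset.sum_eq_single (Pool.Agent.H988R2.Perc.ins i w)]
  · rw [if_pos rfl]
  · intro π _ hπ
    rw [if_neg (Ne.symm hπ), zero_mul]
  · intro h3
    refine absurd (mem_LP.2 ⟨?_, Dyck.ins i w (by omega) k2⟩) h3
    rw [Pool.Agent.H988R2.Perc.length_ins]
    omega

theorem LB1 (hGv : S_Gv) {v : VW} (b : ℂ) (z : List ℂ) (hz : Even z.length)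
    (hv : v ∈ VN (z.length + 2)) : HV v 1 [b] [] ((q ^ 2 * b) :: z) =
      Pool.Agent.H988R2.Perc.fac b z * HV v 2 [] [] z := by
  obtain ⟨M, hM⟩ := hz
  have hM' : z.length = 2 * M := by omega
  rw [HV_eq v 1 [b] [] _ (N := 2 * (M + 1)) (by simp; omega),
    HV_eq v 2 [] [] z (N := 2 * M) (by simp; omega)]
  simp only [List.length_nil, List.length_cons, zero_add, List.nil_append, List.append_nil,
    List.cons_append]
  have h1 : ∀ w ∈ LP (2 * (M + 1)), Fw w (b :: (q ^ 2 * b) :: z) * es 1 0 1 w v =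
      Pool.Agent.H988R2.Perc.fac b z * ((∑ w' ∈ LP (2 * M),
        if Pool.Agent.H988R2.Perc.ins 0 w' = w then Fw w' z else 0) * es 1 0 1 w v) := by
    intro w hw
    have h2 := Fw_rec hw [] z b (by simp; omega)
    simp only [List.nil_append, List.length_nil] at h2
    rw [h2]
    ring
  rw [Finset.sum_congr rfl h1, ← Finset.mul_sum, sum_ins (Nat.zero_le _)]
  congr 1
  refine Finset.sum_congr rfl fun w hw => ?_
  obtain ⟨k1, k2⟩ := mem_LP.1 hw
  congr 1
  have h3 : ∀ u : Word, u.length = z.length + 2 → Ok u →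
      (Gs 1 0 1 (Pool.Agent.H988R2.Perc.ins 0 w) u ↔ Gs 0 0 2 w u) := fun u k3 k4 =>
    ((hGv 0 0 1 z.length w u k2 k4).2 (by omega) (by omega)).1
  have h4 := es_lin' (f := fun u => u) h3 hv
  rwa [lin_id] at h4

theorem LB2 (hKR : S_KR) (hGz : S_Gz) (hGv : S_Gv) {r : ℂ} {K : VW →ₗ[ℂ] VW}
    (hr : r ^ 2 + r + 1 = 0) (hK : KSpec r K) {Ψ : List ℂ → VW}
    (hΨ : Fam q Ψ) (b : ℂ) (z : List ℂ) (hz : Even z.length) :
    HV (K (Ψ (z ++ [b]))) 1 [] [q ^ 2 * b] (z ++ [b]) =
      -r * Pool.Agent.H988R2.Perc.fac b z * HV (K (Ψ (b :: z))) 2 [] [] z := by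
  obtain ⟨M, hM⟩ := hz
  have hM' : z.length = 2 * M := by omega
  rw [HV_eq _ 1 [] [q ^ 2 * b] _ (N := 2 * (M + 1)) (by simp; omega),
    HV_eq _ 2 [] [] z (N := 2 * M) (by simp; omega)]
  simp only [List.length_nil, List.length_cons, zero_add, List.nil_append, List.append_nil,
    List.append_assoc, List.cons_append]
  have hV : Ψ (z ++ [b]) ∈ VN (z.length + 1) := by
    have := hΨ.mem (z ++ [b])
    rwa [List.length_append, List.length_singleton] at this
  have hKV := K_mem hK hV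
  have h1 : ∀ w ∈ LP (2 * (M + 1)), Fw w (z ++ [b, q ^ 2 * b]) * es 0 1 1 w (K (Ψ (z ++ [b]))) =
      Pool.Agent.H988R2.Perc.fac b z * ((∑ w' ∈ LP (2 * M),
        if Pool.Agent.H988R2.Perc.ins z.length w' = w then Fw w' z else 0) *
          es 0 1 1 w (K (Ψ (z ++ [b])))) := by
    intro w hw
    have h2 := Fw_rec hw z [] b (by simp; omega)
    simp only [List.append_nil] at h2
    rw [h2]
    ring
  rw [Finset.sum_congr rfl h1, ← Finset.mul_sum, sum_ins (by omega), mul_comm (-r), mul_assoc]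
  congr 1
  rw [Finset.mul_sum]
  refine Finset.sum_congr rfl fun w hw => ?_
  obtain ⟨k1, k2⟩ := mem_LP.1 hw
  have h3 : es 0 1 1 (Pool.Agent.H988R2.Perc.ins z.length w) (K (Ψ (z ++ [b]))) =
      es 0 0 2 w (lin rotr (K (Ψ (z ++ [b])))) := by
    refine es_lin0 (fun u k3 k4 => ?_) hKV
    have := ((hGv 0 0 1 z.length w u k2 k4).2 (by omega) (by omega)).2
    simp only [zero_add] at this
    exact this
  have h4 := hKR r K hr hK (z.length + 1) _ hV
  rw [← hΨ.rot b z] at h4
  have hrot : lin rotr (K (Ψ (z ++ [b]))) ∈ VN (z.length + 1 + 1) :=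
    lin_mem (fun u k3 k4 => ⟨by rw [length_rotr, k3], ok_rotr.2 k4⟩) hKV
  have h5 : es 0 0 2 w (lin (act 0) (lin rotr (K (Ψ (z ++ [b]))))) = 0 := by
    refine es_zero (fun u k3 k4 => ?_) hrot
    rw [act_eq (by omega)]
    have k5 := length_cap (i := 0) (w := u) (by omega)
    exact (hGz 0 0 2 z.length 0 w (cap 0 u) k2 (ok_cap k4 (by omega))).1 (by omega)
      (by omega) (by omega)
  have h6 : es 0 0 2 w (K (Ψ (b :: z))) = -r ^ 2 * es 0 0 2 w (lin rotr (K (Ψ (z ++ [b])))) := by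
    rw [h4, map_neg, map_add, map_smul, map_smul, h5]
    simp only [smul_eq_mul]
    ring
  rw [h3, h6]
  have hr3 : r ^ 3 = 1 := by linear_combination (r - 1) * hr
  linear_combination (-(Fw w z * es 0 0 2 w (lin rotr (K (Ψ (z ++ [b])))))) * hr3

/-! ## no other strands -/

theorem base (hG0 : S_G0) {r : ℂ} {K : VW →ₗ[ℂ] VW} (hK : KSpec r K) {Ψ : List ℂ → VW}
    (hΨ : Fam q Ψ) (a : ℂ) :
    HV (K (Ψ [a])) 2 [] [] [] = r / (r - 1) * HV (Ψ [a]) 1 [] [] [] := by
  have hL : LP 0 = {[]} := Pool.Agent.H988R2.Perc.LP_zero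
  rw [HV_eq _ 2 [] [] [] (N := 0) rfl, HV_eq _ 1 [] [] [] (N := 0) rfl, hL, Finset.sum_singleton,
    Finset.sum_singleton, hΨ.one, hK.one]
  simp only [List.length_nil, List.append_nil]
  have hg : ∀ (m : ℕ) (u : Word), Ok u → u.length = m → (Gs 0 0 m [] u ↔ u = bwm m) := by
    intro m u h1 h2
    rw [hG0 0 0 m [] u Dyck.nil h1 rfl h2]
    simp [rainbow]
  have o1 : Ok [true] := by simp [Ok]
  have o2 : Ok [false, true] := by simp [Ok]
  have o3 : Ok [true, false] := by simp [Ok]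
  have g1 : Gs 0 0 1 [] [true] := (hg 1 _ o1 rfl).2 rfl
  have g2 : Gs 0 0 2 [] [false, true] := (hg 2 _ o2 rfl).2 rfl
  have g3 : ¬ Gs 0 0 2 [] [true, false] := fun h => by
    have := (hg 2 _ o3 rfl).1 h
    exact absurd this (by decide)
  rw [map_smul, map_sub, map_smul, map_smul, es_bs, es_bs, es_bs, if_pos g1, if_pos g2, if_neg g3]
  simp only [smul_eq_mul]
  ring

/-! ## generic lists -/

theorem hgen (n : ℕ) (f g : List ℂ → ℂ) (c : ℂ) (hf : ∃ d, PD n d f) (hg : ∃ d, PD n d g)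
    (h : ∀ z, z.length = n → Gn z → f z = c * g z) (z : List ℂ) (hz : z.length = n) :
    f z = c * g z := by
  obtain ⟨d1, hf⟩ := hf
  obtain ⟨d2, hg⟩ := hg
  have h1 : PD n (max d1 d2) (fun z => f z + (-c) * g z) :=
    (hf.le (le_max_left _ _)).add ((hg.le (le_max_right _ _)).smul (-c))
  have h2 := h1.generic (fun l => insert 0 ((l.toFinset ∪ (l.toFinset.image fun x => q * x)) ∪
    l.toFinset.image fun x => q ^ 2 * x)) (fun l hl hk => by
      have h3 := h l hl ?_
      · show f l + (-c) * g l = 0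
        rw [h3]
        ring
      · constructor
        · intro x hx h0
          obtain ⟨k, hk1, hk2⟩ := List.getElem_of_mem hx
          have h4 := hk k (by omega)
          rw [List.getD_eq_getElem _ _ hk1, hk2, h0] at h4
          exact h4 (Finset.mem_insert_self _ _)
        · rw [List.Nodup, List.pairwise_iff_getElem]
          intro i j hi hj hij h0
          rw [List.getElem_map, List.getElem_map] at h0
          have hi' : i < l.length := by simpa using hi
          have hj' : j < l.length := by simpa using hj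
          have h4 := hk j (by omega)
          rw [List.getD_eq_getElem _ _ hj'] at h4
          have hmem : l[i] ∈ (l.take j).toFinset := by
            rw [List.mem_toFinset, List.mem_take_iff_getElem]
            exact ⟨i, by omega, rfl⟩
          apply h4
          have h5 : (l[j] - l[i]) * ((l[j] - q * l[i]) * (l[j] - q ^ 2 * l[i])) = 0 := by
            have e1 : (l[j] - l[i]) * ((l[j] - q * l[i]) * (l[j] - q ^ 2 * l[i])) =
                l[j] ^ 3 - l[i] ^ 3 := by
              linear_combination (-(l[j] ^ 2 * l[i]) + l[j] * l[i] ^ 2 * q) * q_spec -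
                l[i] ^ 3 * q_cube
            rw [e1, h0]
            ring
          rw [Finset.mem_insert, Finset.mem_union, Finset.mem_union, Finset.mem_image,
            Finset.mem_image]
          right
          rcases mul_eq_zero.1 h5 with h6 | h6
          · left; left
            rw [sub_eq_zero.1 h6]
            exact hmem
          · rcases mul_eq_zero.1 h6 with h7 | h7
            · left; right
              exact ⟨l[i], hmem, (sub_eq_zero.1 h7).symm⟩
            · right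
              exact ⟨l[i], hmem, (sub_eq_zero.1 h7).symm⟩) z hz
  have h3 : f z + (-c) * g z = 0 := h2
  linear_combination h3

theorem hnod {z : List ℂ} (hz : Gn z) : z.Nodup := List.Nodup.of_map _ hz.2

theorem hcard (z : List ℂ) (s : ℂ) (hs : s ≠ 0) (hz : Gn z) :
    (z.toFinset.image fun x => s * x).card = z.length := by
  rw [Finset.card_image_of_injective _ (mul_right_injective₀ hs),
    List.toFinset_card_of_nodup (hnod hz)]

/-! ## the steps -/

theorem stepB (hKR : S_KR) (hGz : S_Gz) (hGm : S_Gm) (hGv : S_Gv) (hnB : S_nB)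
    {Ψ : List ℂ → VW} {r c : ℂ} {K : VW →ₗ[ℂ] VW} (hΨ : Fam q Ψ) (hr : r ^ 2 + r + 1 = 0)
    (hK : KSpec r K) (n : ℕ) (hn : Even n) (ih : ∀ (a : ℂ) (z : List ℂ), z.length = n →
      HV (K (Ψ (a :: z))) 2 [] [] z = c * HH Ψ [a] [] [] z) (b : ℂ) (z : List ℂ)
    (hz : z.length = n + 1) :
    HV (K (Ψ z)) 1 [b] [] z = c * HH Ψ [] [b] [] z ∧
      HV (K (Ψ z)) 1 [] [b] z = (-r * c) * HH Ψ [] [] [b] z := by
  have hTK := ts_K hr hK
  have hK' : ∀ m B1 B2, ∃ d, PD (n + 1) d (fun z => HV (K (Ψ z)) m B1 B2 z) := fun m B1 B2 =>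
    PD_HV hΨ K m [] B1 B2 (n + 1)
  have hI' : ∀ m B1 B2, ∃ d, PD (n + 1) d (fun z => HV (Ψ z) m B1 B2 z) := fun m B1 B2 =>
    PD_HV hΨ LinearMap.id m [] B1 B2 (n + 1)
  have hev : Even (1 + (n + 1)) := by
    have := hn.add_one.add_one
    rwa [add_comm 1]
  constructor
  · refine hgen (n + 1) (fun z => HV (K (Ψ z)) 1 [b] [] z) (fun z => HH Ψ [] [b] [] z) c
      (hK' _ _ _) (hI' _ _ _) (fun z hz hG => ?_) z hz
    refine poly_eq (f := fun b => HV (K (Ψ z)) 1 [b] [] z) (g := fun b => HH Ψ [] [b] [] z)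
      (d := n) ?_ ?_ c (z.toFinset.image fun x => q * x) ?_ ?_ b
    · have := poly_B1 (K (Ψ z)) 1 z
      rwa [hz] at this
    · have := poly_B1 (Ψ z) 0 z
      rwa [hz] at this
    · rw [hcard z q q_ne_zero hG, hz]
      omega
    · intro x hx
      obtain ⟨y, hy, hxy⟩ := Finset.mem_image.1 hx
      rw [List.mem_toFinset] at hy
      have hy2 : y = q ^ 2 * x := by
        rw [← hxy]
        linear_combination -y * q_cube
      have hp := List.perm_cons_erase hy
      obtain ⟨z', hz'⟩ : ∃ z', z' = z.erase y := ⟨_, rfl⟩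
      rw [← hz', hy2] at hp
      have hl : z'.length = n := by
        have := hp.length_eq
        rw [List.length_cons] at this
        omega
      have e1 := sym hGm hΨ hTK (m := 1) [] [x] [] rfl hp (by simpa [hz] using hev) hG
      have e2 := sym hGm hΨ ts_id (m := 0) [] [x] [] rfl hp (by simpa [hz] using hev) hG
      simp only [List.nil_append] at e1 e2
      show HV (K (Ψ z)) 1 [x] [] z = c * HH Ψ [] [x] [] z
      have e3 : HH Ψ [] [x] [] z = HH Ψ [] [x] [] ((q ^ 2 * x) :: z') := e2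
      rw [e1, e3]
      have hm : K (Ψ ((q ^ 2 * x) :: z')) ∈ VN (z'.length + 2) := K_mem hK (hΨ.mem _)
      rw [LB1 hGv x z' (by rwa [hl]) hm, ih _ z' hl]
      have e4 := (hnB Ψ hΨ [] [] [] z' x (by simpa [hl] using hn)).1
      simp only [List.nil_append, List.append_nil] at e4
      rw [e4]
      ring
  · refine hgen (n + 1) (fun z => HV (K (Ψ z)) 1 [] [b] z) (fun z => HH Ψ [] [] [b] z) (-r * c)
      (hK' _ _ _) (hI' _ _ _) (fun z hz hG => ?_) z hz
    refine poly_eq (f := fun b => HV (K (Ψ z)) 1 [] [b] z) (g := fun b => HH Ψ [] [] [b] z)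
      (d := n) ?_ ?_ (-r * c) (z.toFinset.image fun x => q ^ 2 * x) ?_ ?_ b
    · have := poly_B2 (K (Ψ z)) 1 z
      rwa [hz] at this
    · have := poly_B2 (Ψ z) 0 z
      rwa [hz] at this
    · rw [hcard z (q ^ 2) (pow_ne_zero 2 q_ne_zero) hG, hz]
      omega
    · intro x hx
      obtain ⟨y, hy, hxy⟩ := Finset.mem_image.1 hx
      rw [List.mem_toFinset] at hy
      have hp := (List.perm_cons_erase hy).trans (List.perm_append_singleton _ _).symm
      obtain ⟨z', hz'⟩ : ∃ z', z' = z.erase y := ⟨_, rfl⟩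
      rw [← hz'] at hp
      have hl : z'.length = n := by
        have := hp.length_eq
        rw [List.length_append, List.length_singleton] at this
        omega
      have hev' : Even (n + 1 + 1) := hn.add_one.add_one
      have e1 := sym hGm hΨ hTK (m := 1) [] [] [x] rfl hp (by simpa [hz] using hev') hG
      have e2 := sym hGm hΨ ts_id (m := 0) [] [] [x] rfl hp (by simpa [hz] using hev') hG
      simp only [List.nil_append] at e1 e2
      show HV (K (Ψ z)) 1 [] [x] z = (-r * c) * HH Ψ [] [] [x] z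
      have e3 : HH Ψ [] [] [x] z = HH Ψ [] [] [x] (z' ++ [y]) := e2
      rw [e1, e3, ← hxy]
      rw [LB2 hKR hGz hGv hr hK hΨ y z' (by rwa [hl]), ih _ z' hl]
      have e4 := (hnB Ψ hΨ [] [] [] z' y (by simpa [hl] using hn)).2
      simp only [List.nil_append, List.append_nil] at e4
      rw [e4]
      ring

theorem stepA (hGz : S_Gz) (hGm : S_Gm) (hGv : S_Gv) (hnA : S_nA)
    {Ψ : List ℂ → VW} {r c : ℂ} {K : VW →ₗ[ℂ] VW} (hΨ : Fam q Ψ) (hr : r ^ 2 + r + 1 = 0)
    (hK : KSpec r K) (n : ℕ) (hn : Odd n) (ih : ∀ (b : ℂ) (z : List ℂ), z.length = n →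
      HV (K (Ψ z)) 1 [b] [] z = c * HH Ψ [] [b] [] z ∧
      HV (K (Ψ z)) 1 [] [b] z = (-r * c) * HH Ψ [] [] [b] z) (a : ℂ) (z : List ℂ)
    (hz : z.length = n + 1) :
    HV (K (Ψ (a :: z))) 2 [] [] z = c * HH Ψ [a] [] [] z := by
  have hr3 : r ^ 3 = 1 := by linear_combination (r - 1) * hr
  have hTK := ts_K hr hK
  have hev : Even (n + 1) := hn.add_one
  refine hgen (n + 1) (fun z => HV (K (Ψ (a :: z))) 2 [] [] z) (fun z => HH Ψ [a] [] [] z) c
    (PD_HV hΨ K 2 [a] [] [] (n + 1)) (PD_HV hΨ LinearMap.id 1 [a] [] [] (n + 1))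
    (fun z hz hG => ?_) z hz
  obtain ⟨y0, hy0⟩ : ∃ y, y ∈ z := List.exists_mem_of_length_pos (by omega)
  refine poly_eq (f := fun a => HV (K (Ψ (a :: z))) 2 [] [] z) (g := fun a => HH Ψ [a] [] [] z)
    (d := n + 1) ?_ ?_ c (insert (q * y0) (z.toFinset.image fun x => q ^ 2 * x)) ?_ ?_ a
  · have := poly_A hΨ K 2 z
    rwa [hz] at this
  · have := poly_A hΨ LinearMap.id 1 z
    rwa [hz] at this
  · rw [Finset.card_insert_of_notMem, hcard z (q ^ 2) (pow_ne_zero 2 q_ne_zero) hG, hz]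
    · omega
    · intro h1
      obtain ⟨y, hy, hxy⟩ := Finset.mem_image.1 h1
      rw [List.mem_toFinset] at hy
      have h2 : y0 = q * y := by
        have h3 : q * (q * y - y0) = 0 := by linear_combination hxy
        rcases mul_eq_zero.1 h3 with h4 | h4
        · exact absurd h4 q_ne_zero
        · exact (sub_eq_zero.1 h4).symm
      have h3 : y0 ^ 3 = y ^ 3 := by rw [h2, mul_pow, q_cube, one_mul]
      have h4 : y0 = y := List.inj_on_of_nodup_map hG.2 hy0 hy h3
      rw [h4] at h2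
      have h5 : (q - 1) * y = 0 := by linear_combination -h2
      rcases mul_eq_zero.1 h5 with h6 | h6
      · exact q_ne_one (sub_eq_zero.1 h6)
      · exact hG.1 y hy h6
  · intro x hx
    rcases Finset.mem_insert.1 hx with hx | hx
    · -- `a = q y`
      have hp := (List.perm_cons_erase hy0).trans (List.perm_append_singleton _ _).symm
      obtain ⟨z', hz'⟩ : ∃ z', z' = z.erase y0 := ⟨_, rfl⟩
      rw [← hz'] at hp
      have hl : z'.length = n := by
        have := hp.length_eq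
        rw [List.length_append, List.length_singleton] at this
        omega
      have e1 := sym hGm hΨ hTK (m := 2) [x] [] [] rfl hp (by simpa [hz] using hev) hG
      have e2 := sym hGm hΨ ts_id (m := 1) [x] [] [] rfl hp (by simpa [hz] using hev) hG
      show HV (K (Ψ ([x] ++ z))) 2 [] [] z = c * HH Ψ [x] [] [] z
      have e3 : HH Ψ [x] [] [] z = HH Ψ [x] [] [] (z' ++ [y0]) := e2
      rw [e1, e3, hx]
      have e4 := LA2 hGz hGv hK hΨ y0 z'
      have e5 := (hnA Ψ hΨ [] [] [] z' y0 (by simpa [hl] using hev)).2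
      simp only [List.nil_append] at e5
      simp only [List.singleton_append]
      rw [e4, (ih y0 z' hl).2, e5]
      linear_combination (c * fac q y0 z' * HH Ψ [] [] [y0] z') * hr3
    · obtain ⟨y, hy, hxy⟩ := Finset.mem_image.1 hx
      rw [List.mem_toFinset] at hy
      have hy2 : y = q * x := by
        rw [← hxy]
        linear_combination -y * q_cube
      have hp := List.perm_cons_erase hy
      obtain ⟨z', hz'⟩ : ∃ z', z' = z.erase y := ⟨_, rfl⟩
      rw [← hz', hy2] at hp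
      have hl : z'.length = n := by
        have := hp.length_eq
        rw [List.length_cons] at this
        omega
      have e1 := sym hGm hΨ hTK (m := 2) [x] [] [] rfl hp (by simpa [hz] using hev) hG
      have e2 := sym hGm hΨ ts_id (m := 1) [x] [] [] rfl hp (by simpa [hz] using hev) hG
      show HV (K (Ψ ([x] ++ z))) 2 [] [] z = c * HH Ψ [x] [] [] z
      have e3 : HH Ψ [x] [] [] z = HH Ψ [x] [] [] ((q * x) :: z') := e2
      rw [e1, e3]
      have e4 := LA1 hGv hK hΨ x z'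
      have e5 := (hnA Ψ hΨ [] [] [] z' x (by simpa [hl] using hev)).1
      simp only [List.nil_append] at e5
      simp only [List.singleton_append]
      rw [e4, (ih (q * x) z' hl).1, e5]
      ring

end TD1

open TD1 in
/-- one leg (the case excluded in `S_KW`) -/
theorem t_D1 (hKR : S_KR) (hGz : S_Gz) (hGm : S_Gm) (hGv : S_Gv) (hG0 : S_G0) (hnA : S_nA)
    (hnB : S_nB) : S_D1 := by
  intro Ψ r K hΨ hr hK
  obtain ⟨c, hc⟩ : ∃ c : ℂ, c = r / (r - 1) := ⟨_, rfl⟩
  have hcK : cK r 1 0 = c := by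
    rw [hc]
    simp [cK]
  have key : ∀ n : ℕ, (Even n → ∀ (a : ℂ) (z : List ℂ), z.length = n →
      HV (K (Ψ (a :: z))) 2 [] [] z = c * HH Ψ [a] [] [] z) ∧
      (Odd n → ∀ (b : ℂ) (z : List ℂ), z.length = n →
        HV (K (Ψ z)) 1 [b] [] z = c * HH Ψ [] [b] [] z ∧
        HV (K (Ψ z)) 1 [] [b] z = (-r * c) * HH Ψ [] [] [b] z) := by
    intro n
    induction n with
    | zero =>
      refine ⟨fun _ a z hz => ?_, fun h => absurd h (by decide)⟩
      rw [List.length_eq_zero_iff.1 hz, hc]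
      exact base hG0 hK hΨ a
    | succ n ih =>
      refine ⟨fun h a z hz => ?_, fun h b z hz => ?_⟩
      · have hn : Odd n := by
          rcases Nat.even_or_odd n with h1 | h1
          · exact absurd h (Nat.not_even_iff_odd.2 h1.add_one)
          · exact h1
        exact stepA hGz hGm hGv hnA hΨ hr hK n hn (ih.2 hn) a z hz
      · have hn : Even n := by
          rcases Nat.even_or_odd n with h1 | h1
          · exact h1
          · exact absurd h1.add_one (Nat.not_even_iff_odd.2 h)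
        exact stepB hKR hGz hGm hGv hnB hΨ hr hK n hn (ih.1 hn) b z hz
  intro a z hz
  rw [hcK]
  exact (key z.length).1 hz a z rfl

end Pool.Agent.W808.KS
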