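import Pool.Agent.W808.KS.Stm

/-!
# Legs at the tip of a slit: decoupling of a leg (S_KW -> S_D1 -> S_DE)
-/

set_option autoImplicit false

namespace Pool.Agent.W808.KS
open Pool.Agent.H863R2.Cyl
open Pool.Agent.H988R2.Perc (Word PD Dyck LP Fw rainbow firstArc rem)

theorem t_DE : S_KW → S_D1 → S_DE := by
  intro hKW hD1 Ψ r K hΨ hr hK A B1 B2 z hB hz
  by_cases hex : z.length = 0 ∨ A.length + B1.length + B2.length ≠ 1
  · unfold HV HH HV
    rw [Finset.mul_sum]
    refine Finset.sum_congr rfl fun w hw => ?_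
    obtain ⟨hwl, hwD⟩ := Pool.Agent.H988R2.Perc.mem_LP.1 hw
    have hv : Ψ (A ++ z) ∈ VN (A.length + z.length) := by
      have := hΨ.mem (A ++ z)
      rwa [List.length_append] at this
    rw [hKW r K hr hK B1.length B2.length A.length z.length w (Ψ (A ++ z)) hwD hwl hv hex]
    ring
  · push Not at hex
    obtain ⟨_, h1⟩ := hex
    have hB1 : B1.length = 0 := by omega
    have hB2 : B2.length = 0 := by omega
    have hA : A.length = 1 := by omega
    rw [List.length_eq_zero_iff] at hB1 hB2
    obtain ⟨a, rfl⟩ := List.length_eq_one_iff.1 hA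
    subst hB1; subst hB2
    have := hD1 Ψ r K hΨ hr hK a z hz
    simpa using this

end Pool.Agent.W808.KS
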