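import Pool.Agent.W808.KS.Stm
import Pool.Agent.H988R2.Perc.T13

/-!
# Two zeros in the strip (helper215)
-/

set_option autoImplicit false

namespace Pool.Agent.W808.KS
open Pool.Agent.H863R2.Cyl (VW bs lin)
open Pool.Agent.H988R2.Perc

namespace TF00

/-- vectors supported on the words of length `N` -/
def WN (N : ℕ) : Submodule ℂ VW := Finsupp.supported ℂ ℂ {w : Word | w.length = N}

theorem lin_bs (f : Word → Word) (w : Word) : lin f (bs w) = bs (f w) := by
  unfold lin bs
  rw [Finsupp.lmapDomain_apply, Finsupp.mapDomain_single]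

theorem bs_mem {N : ℕ} {w : Word} (h : w.length = N) : bs w ∈ WN N :=
  Finsupp.single_mem_supported ℂ 1 h

theorem lin_mem {N M : ℕ} {f : Word → Word} (h : ∀ w : Word, w.length = N → (f w).length = M)
    {v : VW} (hv : v ∈ WN N) : lin f v ∈ WN M := by
  have e : v = ∑ w ∈ v.support, v w • bs w := by
    conv_lhs => rw [← Finsupp.sum_single v]
    unfold Finsupp.sum
    refine Finset.sum_congr rfl fun w _ => ?_
    simp
  rw [e, map_sum]
  refine Submodule.sum_mem _ fun w hw => ?_
  have := (Finsupp.mem_supported ℂ v).1 hv hw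
  rw [map_smul, lin_bs]
  exact Submodule.smul_mem _ _ (bs_mem (h w this))

theorem ext_WN {N : ℕ} {f g : VW →ₗ[ℂ] VW} (h : ∀ w : Word, w.length = N → f (bs w) = g (bs w))
    {v : VW} (hv : v ∈ WN N) : f v = g v := by
  have e : v = ∑ w ∈ v.support, v w • bs w := by
    conv_lhs => rw [← Finsupp.sum_single v]
    unfold Finsupp.sum
    refine Finset.sum_congr rfl fun w _ => ?_
    simp
  rw [e, map_sum, map_sum]
  refine Finset.sum_congr rfl fun w hw => ?_
  have := (Finsupp.mem_supported ℂ v).1 hv hw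
  rw [map_smul, map_smul, h w this]

/-- a strand passes over the strand `i` -/
noncomputable def ro (i : ℕ) : VW →ₗ[ℂ] VW := -(q ^ 2 • LinearMap.id + q • lin (act i))

theorem ro_apply (i : ℕ) (v : VW) : ro i v = -(q ^ 2 • v + q • lin (act i) v) := rfl

theorem ro_bs (i : ℕ) (w : Word) : ro i (bs w) = -(q ^ 2 • bs w + q • bs (act i w)) := by
  rw [ro_apply, lin_bs]

theorem ro_mem {N i : ℕ} (hi : i + 2 ≤ N) {v : VW} (hv : v ∈ WN N) : ro i v ∈ WN N := by
  rw [ro_apply]
  refine Submodule.neg_mem _ (Submodule.add_mem _ (Submodule.smul_mem _ _ hv)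
    (Submodule.smul_mem _ _ (lin_mem ?_ hv)))
  intro w hw
  rw [length_act (by omega), hw]

/-- the composition `ro (k + n - 1) ⋯ ro k` -/
noncomputable def Ro : ℕ → ℕ → VW →ₗ[ℂ] VW
  | _, 0 => LinearMap.id
  | k, n + 1 => (Ro (k + 1) n).comp (ro k)

theorem Ro_zero (k : ℕ) (v : VW) : Ro k 0 v = v := rfl

theorem Ro_succ (k n : ℕ) (v : VW) : Ro k (n + 1) v = Ro (k + 1) n (ro k v) := rfl

theorem Ro_add (k a b : ℕ) (v : VW) : Ro k (a + b) v = Ro (k + a) b (Ro k a v) := by
  induction a generalizing k v with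
  | zero => rw [Nat.zero_add, Nat.add_zero, Ro_zero]
  | succ a ih =>
    have h : a + 1 + b = (a + b) + 1 := by omega
    rw [h, Ro_succ, Ro_succ, ih]
    congr 2
    omega

theorem Ro_mem {N : ℕ} (k a : ℕ) (h : k + a + 1 ≤ N) {v : VW} (hv : v ∈ WN N) :
    Ro k a v ∈ WN N := by
  induction a generalizing k v with
  | zero => exact hv
  | succ a ih =>
    rw [Ro_succ]
    exact ih (k + 1) (by omega) (ro_mem (by omega) hv)

theorem ro_ins_right {N i p : ℕ} (hi : i + 2 ≤ p) (hp : p ≤ N) {v : VW} (hv : v ∈ WN N) :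
    ro i (lin (ins p) v) = lin (ins p) (ro i v) := by
  refine ext_WN (f := (ro i).comp (lin (ins p))) (g := (lin (ins p)).comp (ro i)) ?_ hv
  intro w hw
  rw [LinearMap.comp_apply, LinearMap.comp_apply, lin_bs, ro_bs, ro_bs, map_neg, map_add,
    map_smul, map_smul, lin_bs, lin_bs, act_ins_right hi (by omega)]

theorem ro_ins_left {N i p : ℕ} (hi : p + 2 ≤ i) (hp : i ≤ N) {v : VW} (hv : v ∈ WN N) :
    ro i (lin (ins p) v) = lin (ins p) (ro (i - 2) v) := by
  refine ext_WN (f := (ro i).comp (lin (ins p))) (g := (lin (ins p)).comp (ro (i - 2))) ?_ hv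
  intro w hw
  rw [LinearMap.comp_apply, LinearMap.comp_apply, lin_bs, ro_bs, ro_bs, map_neg, map_add,
    map_smul, map_smul, lin_bs, lin_bs, act_ins_left hi (by omega)]

theorem alg (r : ℂ) (hr : r ^ 2 + r + 1 = 0) (X Y : VW) :
    -(r ^ 2 • -(r ^ 2 • X + r • X) + r • -(r ^ 2 • Y + r • X)) = Y := by
  have h1 : -(r ^ 2 • -(r ^ 2 • X + r • X) + r • -(r ^ 2 • Y + r • X)) =
      (r ^ 4 + r ^ 3 + r ^ 2) • X + r ^ 3 • Y := by module
  have h2 : r ^ 4 + r ^ 3 + r ^ 2 = 0 := by linear_combination r ^ 2 * hr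
  have h3 : r ^ 3 = 1 := by linear_combination (r - 1) * hr
  rw [h1, h2, h3, zero_smul, zero_add, one_smul]

theorem ro_ro {N p : ℕ} (hp : p + 1 ≤ N) {v : VW} (hv : v ∈ WN N) :
    ro (p + 1) (ro p (lin (ins (p + 1)) v)) = lin (ins p) v := by
  have key := ext_WN (N := N) (f := ((ro (p + 1)).comp (ro p)).comp (lin (ins (p + 1))))
    (g := lin (ins p)) (by
      intro w hw
      rw [LinearMap.comp_apply, LinearMap.comp_apply, lin_bs, lin_bs, ro_bs, map_neg, map_add,
        map_smul, map_smul, ro_bs, ro_bs, act_ins_succ (by omega), act_ins_self (by omega),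
        act_succ_ins (by omega)]
      exact alg q q_spec _ _) hv
  rw [LinearMap.comp_apply, LinearMap.comp_apply] at key
  exact key

theorem Ro_ins_right {N : ℕ} (k a p : ℕ) (h : k + a + 1 ≤ p) (hp : p ≤ N) {v : VW}
    (hv : v ∈ WN N) : Ro k a (lin (ins p) v) = lin (ins p) (Ro k a v) := by
  induction a generalizing k v with
  | zero => rfl
  | succ a ih =>
    rw [Ro_succ, Ro_succ, ro_ins_right (by omega) hp hv, ih (k + 1) (by omega)
      (ro_mem (by omega) hv)]

theorem Ro_ins_left {N : ℕ} (k a p : ℕ) (h : p ≤ k) (hp : k + a + 1 ≤ N) {v : VW}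
    (hv : v ∈ WN N) : Ro (k + 2) a (lin (ins p) v) = lin (ins p) (Ro k a v) := by
  induction a generalizing k v with
  | zero => rfl
  | succ a ih =>
    rw [Ro_succ, Ro_succ, ro_ins_left (N := N) (by omega) (by omega) hv]
    have e : k + 2 - 2 = k := by omega
    have e2 : k + 2 + 1 = (k + 1) + 2 := by omega
    rw [e, e2, ih (k + 1) (by omega) (by omega) (ro_mem (by omega) hv)]

/-- a strand passes over a diagram -/
theorem passes {w : Word} (hw : Dyck w) : Ro 1 w.length (bs (ins 0 w)) = bs (true :: w ++ [false]) := by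
  induction hw with
  | nil => rfl
  | ins j w hj hw ih =>
    have e1 : ins 0 (ins j w) = ins (j + 2) (ins 0 w) := ins_ins (by omega) hj
    have e2 : (ins j w).length = j + (1 + (1 + (w.length - j))) := by
      rw [length_ins]; omega
    have hN : (ins 0 w).length = w.length + 2 := length_ins 0 w
    have hv : bs (ins 0 w) ∈ WN (w.length + 2) := bs_mem hN
    have hv1 : Ro 1 j (bs (ins 0 w)) ∈ WN (w.length + 2) := Ro_mem 1 j (by omega) hv
    rw [e1, e2, Ro_add, Ro_add, Ro_add]
    have e3 : bs (ins (j + 2) (ins 0 w)) = lin (ins (j + 2)) (bs (ins 0 w)) := (lin_bs _ _).symm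
    rw [e3, Ro_ins_right 1 j (j + 2) (by omega) (by omega : j + 2 ≤ w.length + 2) hv]
    have e4 : ∀ (k : ℕ) (v : VW), Ro k 1 v = ro k v := fun k v => rfl
    rw [e4, e4]
    have e5 : 1 + j + 1 = (j + 1) + 1 := by omega
    have e6 : 1 + j = j + 1 := by omega
    rw [e5, e6, ro_ro (by omega : j + 1 + 1 ≤ w.length + 2) hv1]
    have e7 : j + 1 + 1 + 1 = (j + 1) + 2 := by omega
    rw [e7, Ro_ins_left (j + 1) (w.length - j) (j + 1) (le_refl _)
      (by omega : j + 1 + (w.length - j) + 1 ≤ w.length + 2) hv1]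
    have e8 : Ro (j + 1) (w.length - j) (Ro 1 j (bs (ins 0 w))) = Ro 1 w.length (bs (ins 0 w)) := by
      have := Ro_add 1 j (w.length - j) (bs (ins 0 w))
      rw [Nat.add_sub_cancel' hj, e6] at this
      exact this.symm
    rw [e8, ih, lin_bs]
    congr 1
    unfold ins
    simp only [List.cons_append, List.take_succ_cons, List.drop_succ_cons, List.append_assoc]
    rw [List.take_append_of_le_length hj, List.drop_append_of_le_length hj]

/-- the vector of the components -/
noncomputable def vec (n : ℕ) (l : List ℂ) : VW := ∑ w ∈ LP (2 * n), Fw w l • bs w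

theorem vec_apply {n : ℕ} {w : Word} (hw : w ∈ LP (2 * n)) (l : List ℂ) :
    (vec n l) w = Fw w l := by
  unfold vec bs
  rw [Finsupp.finsetSum_apply]
  have : ∀ w' ∈ LP (2 * n), (Fw w' l • (Finsupp.single w' 1 : VW)) w =
      if w' = w then Fw w' l else 0 := by
    intro w' _
    rw [Finsupp.smul_apply, Finsupp.single_apply]
    split_ifs <;> simp
  rw [Finset.sum_congr rfl this, Finset.sum_ite_eq' _ w, if_pos hw]

theorem vec_exch (n : ℕ) (u v : List ℂ) (y : ℂ) (hy : y ≠ 0)
    (h : u.length + v.length + 2 = 2 * n) :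
    vec n (u ++ y :: 0 :: v) = ro u.length (vec n (u ++ 0 :: y :: v)) := by
  have h1 : ∀ w ∈ LP (2 * n), Fw w (u ++ y :: 0 :: v) • bs w =
      (-q ^ 2) • (Fw w (u ++ 0 :: y :: v) • bs w) + (-q) • ∑ w' ∈ LP (2 * n),
        (if act u.length w' = w then Fw w' (u ++ 0 :: y :: v) • bs w else 0) := by
    intro w hw
    have h2 := Fw_exch hw u v 0 y h
    have h3 : Fw w (u ++ y :: 0 :: v) = (-q ^ 2) * Fw w (u ++ 0 :: y :: v) +
        (-q) * ∑ w' ∈ LP (2 * n), (if act u.length w' = w then Fw w' (u ++ 0 :: y :: v) else 0) := by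
      have h4 := q_spec
      apply mul_left_cancel₀ (mul_ne_zero hy (pow_ne_zero 2 q_ne_zero))
      have e2 : q ^ 3 = 1 := q_cube
      generalize Fw w (u ++ y :: 0 :: v) = a at *
      generalize Fw w (u ++ 0 :: y :: v) = b at *
      generalize ∑ w' ∈ LP (2 * n), (if act u.length w' = w then Fw w' (u ++ 0 :: y :: v) else 0)
        = c at *
      linear_combination -h2 + (y * q * b + y * c) * e2
    rw [h3, add_smul, mul_smul, mul_smul, Finset.sum_smul]
    congr 2
    refine Finset.sum_congr rfl fun w' _ => ?_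
    split_ifs
    · rfl
    · rw [zero_smul]
  unfold vec
  rw [Finset.sum_congr rfl h1, Finset.sum_add_distrib, ← Finset.smul_sum, ← Finset.smul_sum,
    Finset.sum_comm, ro_apply, map_sum]
  have h5 : ∀ w' ∈ LP (2 * n), ∑ w ∈ LP (2 * n),
      (if act u.length w' = w then Fw w' (u ++ 0 :: y :: v) • bs w else 0) =
      lin (act u.length) (Fw w' (u ++ 0 :: y :: v) • bs w') := by
    intro w' hw'
    have hw1 := mem_LP.1 hw'
    have hi : u.length + 2 ≤ w'.length := by omega
    have hmem : act u.length w' ∈ LP (2 * n) :=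
      mem_LP.2 ⟨by rw [length_act hi, hw1.1], dyck_act hw1.2 hi⟩
    rw [Finset.sum_ite_eq, if_pos hmem, map_smul, lin_bs]
  rw [Finset.sum_congr rfl h5]
  module

theorem vec_move (n : ℕ) (y : List ℂ) : ∀ (u v : List ℂ), (∀ a ∈ y, a ≠ 0) →
    u.length + y.length + v.length + 1 = 2 * n →
    vec n (u ++ y ++ 0 :: v) = Ro u.length y.length (vec n (u ++ 0 :: y ++ v)) := by
  induction y with
  | nil =>
    intro u v _ _
    simp [Ro_zero]
  | cons a y ih =>
    intro u v hy h
    have h1 := ih (u ++ [a]) v (fun b hb => hy b (List.mem_cons_of_mem _ hb)) (by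
      simp only [List.length_append, List.length_cons, List.length_nil] at h ⊢; omega)
    have e1 : u ++ a :: y ++ 0 :: v = (u ++ [a]) ++ y ++ 0 :: v := by simp
    have e2 : (u ++ [a]) ++ 0 :: y ++ v = u ++ a :: 0 :: (y ++ v) := by simp
    have e3 : u ++ 0 :: a :: y ++ v = u ++ 0 :: a :: (y ++ v) := by simp
    have e4 : (u ++ [a]).length = u.length + 1 := by simp
    rw [e1, h1, e2, e3, e4, vec_exch n u (y ++ v) a (hy a List.mem_cons_self) (by
      simp only [List.length_append, List.length_cons] at h ⊢; omega)]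
    rfl

theorem fac_zero (l : List ℂ) : fac 0 l = q ^ l.length * l.prod := by
  unfold fac
  induction l with
  | nil => simp
  | cons a l ih =>
    rw [List.map_cons, List.prod_cons, ih, List.length_cons, List.prod_cons]
    have e1 : q ^ 4 = q := by linear_combination (q ^ 2 - q) * q_spec
    linear_combination (a * q ^ l.length * l.prod) * e1

theorem vec_rec (n : ℕ) (y : List ℂ) (h : y.length = 2 * n) :
    vec (n + 1) (0 :: 0 :: y) = (q ^ (2 * n) * y.prod) • lin (ins 0) (vec n y) := by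
  unfold vec
  have h1 : ∀ w ∈ LP (2 * (n + 1)), Fw w (0 :: 0 :: y) • bs w =
      (q ^ (2 * n) * y.prod) • ∑ w' ∈ LP (2 * n),
        (if ins 0 w' = w then Fw w' y • bs w else 0) := by
    intro w hw
    have h2 := Fw_rec hw [] y 0 (by simpa using h)
    simp only [List.nil_append, List.length_nil, mul_zero] at h2
    rw [h2, fac_zero, h, mul_smul, Finset.sum_smul]
    congr 1
    refine Finset.sum_congr rfl fun w' _ => ?_
    split_ifs
    · rfl
    · rw [zero_smul]
  rw [Finset.sum_congr rfl h1, ← Finset.smul_sum, Finset.sum_comm, map_sum]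
  congr 1
  refine Finset.sum_congr rfl fun w' hw' => ?_
  have hw1 := mem_LP.1 hw'
  have hmem : ins 0 w' ∈ LP (2 * (n + 1)) :=
    mem_LP.2 ⟨by rw [length_ins, hw1.1]; ring, (dyck_ins_iff (by omega)).2 hw1.2⟩
  rw [Finset.sum_ite_eq, if_pos hmem, map_smul, lin_bs]

end TF00

open TF00

theorem t_F00 : S_F00 := by
  intro L w y hw hy
  by_cases h0 : (0 : ℂ) ∈ y
  · obtain ⟨a, b, rfl⟩ := List.append_of_mem h0
    have h1 : (a ++ 0 :: b).prod = 0 := by simp
    rw [h1, mul_zero, zero_mul]
    have hV := Fw_V hw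
    have h2 := hV.wheel2 [] a (b ++ [0]) 0 (by
      simp only [List.length_append, List.length_cons, List.length_nil] at hy ⊢; omega)
      (by simp)
    simpa using h2
  · have hy0 : ∀ a ∈ y, a ≠ 0 := fun a ha h => h0 (h ▸ ha)
    have e0 : 2 * L + 2 = 2 * (L + 1) := by ring
    rw [e0] at hw
    have h1 := vec_move (L + 1) y [0] [] hy0 (by
      simp only [List.length_cons, List.length_nil]; omega)
    have e1 : [0] ++ y ++ 0 :: ([] : List ℂ) = 0 :: y ++ [0] := by simp
    have e2 : [0] ++ 0 :: y ++ ([] : List ℂ) = 0 :: 0 :: y := by simp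
    have e3 : ([0] : List ℂ).length = 1 := rfl
    rw [e1, e2, e3, vec_rec L y hy, map_smul] at h1
    have h2 := DFunLike.congr_fun h1 w
    rw [vec_apply hw, Finsupp.smul_apply] at h2
    rw [h2, smul_eq_mul]
    congr 1
    unfold vec
    rw [map_sum, map_sum, Finsupp.finsetSum_apply]
    refine Finset.sum_congr rfl fun w' hw' => ?_
    have hw1 := mem_LP.1 hw'
    rw [map_smul, map_smul, lin_bs, Finsupp.smul_apply]
    have e4 : y.length = w'.length := by rw [hy, hw1.1]
    rw [e4, passes hw1.2]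
    unfold bs
    rw [Finsupp.single_apply]
    split_ifs
    · rw [smul_eq_mul, mul_one]
    · rw [smul_zero]

end Pool.Agent.W808.KS
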