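import Pool.Agent.W808.KS.Stm

/-!
# The family at `q²`
-/

set_option autoImplicit false

namespace Pool.Agent.W808.KS.TFS
open Pool.Agent.H863R2.Cyl
open Pool.Agent.H988R2.Perc (Word PD)

/-! ## reversed polynomials -/

/-- constant exponent -/
noncomputable def cst (N n : ℕ) : Fin N →₀ ℕ := Finsupp.equivFunOnFinite.symm (fun _ => n)

theorem cst_apply (N n : ℕ) (i : Fin N) : cst N n i = n := rfl

/-- the reversed polynomial -/
noncomputable def revp {N : ℕ} (n : ℕ) (p : MvPolynomial (Fin N) ℂ) : MvPolynomial (Fin N) ℂ :=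
  ∑ d ∈ p.support, MvPolynomial.monomial (cst N n - d) (p.coeff d)

theorem revp_deg {N : ℕ} (n : ℕ) (p : MvPolynomial (Fin N) ℂ) (i : Fin N) :
    (revp n p).degreeOf i ≤ n := by
  classical
  rw [MvPolynomial.degreeOf_le_iff]
  intro m hm
  unfold revp at hm
  have h1 := MvPolynomial.support_sum hm
  rw [Finset.mem_biUnion] at h1
  obtain ⟨d, _, hd⟩ := h1
  have h2 := MvPolynomial.support_monomial_subset hd
  rw [Finset.mem_singleton] at h2
  rw [h2, Finsupp.tsub_apply, cst_apply]
  exact Nat.sub_le _ _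

theorem revp_eval {N : ℕ} (n : ℕ) (p : MvPolynomial (Fin N) ℂ) (hp : ∀ i, p.degreeOf i ≤ n)
    (z : Fin N → ℂ) (hz : ∀ i, z i ≠ 0) :
    MvPolynomial.eval z (revp n p) = (∏ i, z i) ^ n * MvPolynomial.eval (fun i => (z i)⁻¹) p := by
  classical
  unfold revp
  rw [map_sum, MvPolynomial.eval_eq', Finset.mul_sum]
  refine Finset.sum_congr rfl fun d hd => ?_
  rw [MvPolynomial.eval_monomial, Finsupp.prod_fintype _ _ (by intro i; simp)]
  rw [mul_left_comm, ← Finset.prod_pow, ← Finset.prod_mul_distrib]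
  congr 1
  refine Finset.prod_congr rfl fun i _ => ?_
  have h1 : d i ≤ n := (MvPolynomial.degreeOf_le_iff.mp (hp i)) d hd
  rw [Finsupp.tsub_apply, cst_apply, pow_sub₀ _ (hz i) h1, inv_pow]

/-! ## lists -/

theorem prod_getD (z : List ℂ) : (∏ i : Fin z.length, z.getD i 0) = z.prod := by
  have h : (fun i : Fin z.length => z.getD i 0) = fun i => z.get i := by
    funext i
    rw [List.getD_eq_getElem _ _ i.2]
    rfl
  rw [h, ← List.prod_ofFn]
  congr 1
  exact List.ofFn_get z

theorem getD_inv (z : List ℂ) (i : ℕ) : (z.map (fun x => x⁻¹)).getD i 0 = (z.getD i 0)⁻¹ := by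
  by_cases h : i < z.length
  · rw [List.getD_eq_getElem _ _ (by simpa using h), List.getD_eq_getElem _ _ h, List.getElem_map]
  · rw [List.getD_eq_default _ _ (by simpa using h), List.getD_eq_default _ _ (by simpa using h)]
    simp

theorem getD_ne (z : List ℂ) (hz : ∀ x ∈ z, x ≠ 0) (i : Fin z.length) : z.getD i 0 ≠ 0 := by
  rw [List.getD_eq_getElem _ _ i.2]
  exact hz _ (List.getElem_mem _)

/-! ## continuity along lines -/

/-- lists which depend continuously on a parameter -/
def LC (L : ℂ → List ℂ) (n : ℕ) : Prop :=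
  (∀ t, (L t).length = n) ∧ ∀ i, Continuous (fun t => (L t).getD i 0)

theorem LC.nil : LC (fun _ => []) 0 := ⟨fun _ => rfl, fun i => by simpa using continuous_const⟩

theorem LC.cons {L : ℂ → List ℂ} {n : ℕ} (h : LC L n) {a : ℂ → ℂ} (ha : Continuous a) :
    LC (fun t => a t :: L t) (n + 1) := by
  refine ⟨fun t => by simp [h.1 t], fun i => ?_⟩
  cases i with
  | zero => simpa using ha
  | succ i => simpa using h.2 i

theorem LC.sh (z : List ℂ) : LC (fun t => z.map (fun x => x + t)) z.length := by
  refine ⟨fun t => by simp, fun i => ?_⟩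
  by_cases h : i < z.length
  · have : (fun t : ℂ => (z.map (fun x => x + t)).getD i 0) = fun t => z[i] + t := by
      funext t
      rw [List.getD_eq_getElem _ _ (by simpa using h), List.getElem_map]
    rw [this]
    exact continuous_const.add continuous_id
  · have : (fun t : ℂ => (z.map (fun x => x + t)).getD i 0) = fun t => 0 := by
      funext t
      rw [List.getD_eq_default _ _ (by simpa using h)]
    rw [this]
    exact continuous_const

theorem LC.append {L M : ℂ → List ℂ} {n m : ℕ} (h : LC L n) (h' : LC M m) :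
    LC (fun t => L t ++ M t) (n + m) := by
  refine ⟨fun t => by simp [h.1 t, h'.1 t], fun i => ?_⟩
  by_cases hi : i < n
  · have : (fun t : ℂ => (L t ++ M t).getD i 0) = fun t => (L t).getD i 0 := by
      funext t
      rw [List.getD_append _ _ _ _ (by rw [h.1 t]; exact hi)]
    rw [this]
    exact h.2 i
  · have : (fun t : ℂ => (L t ++ M t).getD i 0) = fun t => (M t).getD (i - n) 0 := by
      funext t
      rw [List.getD_append_right _ _ _ _ (by rw [h.1 t]; exact not_lt.mp hi), h.1 t]
    rw [this]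
    exact h'.2 _

/-- vectors which depend continuously on a parameter -/
def CF (F : ℂ → VW) : Prop :=
  ∃ s : Finset Word, (∀ t, (F t).support ⊆ s) ∧ ∀ w, Continuous (fun t => F t w)

theorem CF.smul {F : ℂ → VW} (h : CF F) {c : ℂ → ℂ} (hc : Continuous c) :
    CF (fun t => c t • F t) := by
  obtain ⟨s, h1, h2⟩ := h
  refine ⟨s, fun t => (Finsupp.support_smul).trans (h1 t), fun w => ?_⟩
  show Continuous (fun t => c t * F t w)
  exact hc.mul (h2 w)

theorem CF.add {F G : ℂ → VW} (h : CF F) (h' : CF G) : CF (fun t => F t + G t) := by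
  classical
  obtain ⟨s, h1, h2⟩ := h
  obtain ⟨s', h1', h2'⟩ := h'
  refine ⟨s ∪ s', fun t => (Finsupp.support_add).trans (Finset.union_subset_union (h1 t) (h1' t)),
    fun w => ?_⟩
  show Continuous (fun t => F t w + G t w)
  exact (h2 w).add (h2' w)

theorem CF.lin {F : ℂ → VW} (h : CF F) (f : Word → Word) : CF (fun t => lin f (F t)) := by
  classical
  obtain ⟨s, h1, h2⟩ := h
  have key : ∀ t, Pool.Agent.H863R2.Cyl.lin f (F t) = ∑ a ∈ s, Finsupp.single (f a) (F t a) := by
    intro t
    show Finsupp.mapDomain f (F t) = _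
    unfold Finsupp.mapDomain
    rw [Finsupp.sum_of_support_subset _ (h1 t)]
    intro i _
    simp
  refine ⟨s.image f, fun t => ?_, fun w => ?_⟩
  · show (Finsupp.mapDomain f (F t)).support ⊆ _
    exact Finsupp.mapDomain_support.trans (Finset.image_subset_image (h1 t))
  · have : (fun t => Pool.Agent.H863R2.Cyl.lin f (F t) w)
        = fun t => ∑ a ∈ s, if f a = w then F t a else 0 := by
      funext t
      rw [key t, Finsupp.finsetSum_apply]
      refine Finset.sum_congr rfl fun a _ => ?_
      rw [Finsupp.single_apply]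
    rw [this]
    refine continuous_finsetSum _ fun a _ => ?_
    split_ifs
    · exact h2 a
    · exact continuous_const

theorem CF.const (v : VW) : CF (fun _ => v) := ⟨v.support, fun _ => le_rfl, fun _ => continuous_const⟩

theorem ext0 {f g : ℂ → ℂ} (hf : Continuous f) (hg : Continuous g) (S : Finset ℂ)
    (h : ∀ t, t ∉ S → f t = g t) : f 0 = g 0 := by
  have hd : Dense ((S : Set ℂ)ᶜ) := Set.Countable.dense_compl ℝ S.countable_toSet
  have := Continuous.ext_on hd hf hg (fun t ht => h t (by simpa using ht))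
  rw [this]

theorem CF.ext {F G : ℂ → VW} (hF : CF F) (hG : CF G) (S : Finset ℂ)
    (h : ∀ t, t ∉ S → F t = G t) : F 0 = G 0 := by
  obtain ⟨_, _, h2⟩ := hF
  obtain ⟨_, _, h2'⟩ := hG
  ext w
  exact ext0 (h2 w) (h2' w) S (fun t ht => by rw [h t ht])

/-! ## the construction -/

open scoped Classical in
/-- the admissible words -/
noncomputable def aw (N : ℕ) : Finset Word :=
  ((Finset.univ : Finset (Fin N → Bool)).image List.ofFn).filter (fun w => Ok w)

theorem mem_aw (N : ℕ) (w : Word) : w ∈ aw N ↔ w.length = N ∧ Ok w := by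
  classical
  unfold aw
  rw [Finset.mem_filter, Finset.mem_image]
  constructor
  · rintro ⟨⟨f, _, rfl⟩, h⟩
    exact ⟨by simp, h⟩
  · rintro ⟨rfl, h⟩
    exact ⟨⟨fun i => w.get i, Finset.mem_univ _, List.ofFn_get w⟩, h⟩

open scoped Classical in
/-- the new family -/
noncomputable def Ps (P : (N : ℕ) → Word → MvPolynomial (Fin N) ℂ) (z : List ℂ) : VW :=
  Finsupp.onFinset (aw z.length) (fun w => if w ∈ aw z.length then q ^ (z.length / 2) *
    MvPolynomial.eval (fun i : Fin z.length => z.getD i 0) (revp (z.length - 1) (P z.length w))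
    else 0) (by
      intro w hw
      by_contra h
      exact hw (if_neg h))

open scoped Classical in
theorem Ps_apply (P : (N : ℕ) → Word → MvPolynomial (Fin N) ℂ) (z : List ℂ) (N : ℕ)
    (hN : z.length = N) (w : Word) :
    Ps P z w = if w.length = N ∧ Ok w then q ^ (N / 2) *
      MvPolynomial.eval (fun i : Fin N => z.getD i 0) (revp (N - 1) (P N w)) else 0 := by
  classical
  subst hN
  unfold Ps
  rw [Finsupp.onFinset_apply]
  simp only [mem_aw]

theorem Ps_supp (P : (N : ℕ) → Word → MvPolynomial (Fin N) ℂ) (z : List ℂ) :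
    (Ps P z).support ⊆ aw z.length := by
  classical
  unfold Ps
  exact Finsupp.support_onFinset_subset

theorem Ps_mem (P : (N : ℕ) → Word → MvPolynomial (Fin N) ℂ) (z : List ℂ) :
    Ps P z ∈ VN z.length := by
  unfold VN
  rw [Finsupp.mem_supported]
  intro w hw
  exact (mem_aw _ _).mp (Ps_supp P z hw)

theorem Ps_CF (P : (N : ℕ) → Word → MvPolynomial (Fin N) ℂ) {L : ℂ → List ℂ} {n : ℕ}
    (h : LC L n) : CF (fun t => Ps P (L t)) := by
  classical
  refine ⟨aw n, fun t => ?_, fun w => ?_⟩
  · have := Ps_supp P (L t)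
    rwa [h.1 t] at this
  · have : (fun t => Ps P (L t) w) = fun t => if w.length = n ∧ Ok w then q ^ (n / 2) *
        MvPolynomial.eval (fun i : Fin n => (L t).getD i 0) (revp (n - 1) (P n w)) else 0 := by
      funext t
      exact Ps_apply P (L t) n (h.1 t) w
    rw [this]
    split_ifs
    · refine continuous_const.mul ?_
      have h1 : Continuous (fun t => (fun i : Fin n => (L t).getD i 0)) :=
        continuous_pi fun i => h.2 i
      exact (MvPolynomial.continuous_eval (revp (n - 1) (P n w))).comp h1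
    · exact continuous_const

/-- the key identity -/
theorem Ps_key (Ψ : List ℂ → VW) (hmem : ∀ z, Ψ z ∈ VN z.length)
    (P : (N : ℕ) → Word → MvPolynomial (Fin N) ℂ)
    (hP1 : ∀ N w i, (P N w).degreeOf i ≤ N - 1)
    (hP2 : ∀ (N : ℕ) (w : Word) (l : List ℂ), l.length = N →
      Ψ l w = MvPolynomial.eval (fun i : Fin N => l.getD i 0) (P N w))
    (z : List ℂ) (hz : ∀ x ∈ z, x ≠ 0) :
    Ps P z = (q ^ (z.length / 2) * z.prod ^ (z.length - 1)) • Ψ (z.map (fun x => x⁻¹)) := by
  ext w
  rw [Ps_apply P z z.length rfl w, Finsupp.smul_apply, smul_eq_mul]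
  by_cases hw : w.length = z.length ∧ Ok w
  · rw [if_pos hw, revp_eval _ _ (hP1 _ _) _ (getD_ne z hz), prod_getD, mul_assoc,
      hP2 z.length w _ (by simp)]
    have h1 : (fun i : Fin z.length => (z.map (fun x => x⁻¹)).getD i 0)
        = fun i : Fin z.length => (z.getD i 0)⁻¹ := funext fun i => getD_inv z i
    rw [h1]
  · rw [if_neg hw]
    have h1 := hmem (z.map (fun x => x⁻¹))
    unfold VN at h1
    rw [Finsupp.mem_supported] at h1
    have h2 : Ψ (z.map (fun x => x⁻¹)) w = 0 := by
      by_contra h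
      have := h1 (Finsupp.mem_support_iff.mpr h)
      exact hw (by simpa using this)
    rw [h2, mul_zero]

/-- lists without zeros, after a shift -/
noncomputable def bd (z : List ℂ) : Finset ℂ := (z.map (fun x => -x)).toFinset

theorem bd_spec (z : List ℂ) (t : ℂ) (ht : t ∉ bd z) : ∀ x ∈ z.map (fun x => x + t), x ≠ 0 := by
  intro x hx
  rw [List.mem_map] at hx
  obtain ⟨y, hy, rfl⟩ := hx
  intro h
  apply ht
  unfold bd
  rw [List.mem_toFinset, List.mem_map]
  exact ⟨y, hy, by linear_combination -h⟩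

theorem sh0 (z : List ℂ) : z.map (fun x => x + (0 : ℂ)) = z := by simp

/-- all the identities follow from the case without zeros -/
theorem exch_ext (Φ : List ℂ → VW) (hΦ : ∀ (L : ℂ → List ℂ) (n : ℕ), LC L n → CF (fun t => Φ (L t)))
    (a : ℂ) (h : ∀ (u v : List ℂ) (x y : ℂ), (∀ c ∈ u ++ y :: x :: v, c ≠ 0) →
      (a * y - a ^ 2 * x) • Φ (u ++ y :: x :: v) =
      (a * x - a ^ 2 * y) • Φ (u ++ x :: y :: v) +
      (x - y) • lin (act u.length) (Φ (u ++ x :: y :: v))) (u v : List ℂ) (x y : ℂ) :
    (a * y - a ^ 2 * x) • Φ (u ++ y :: x :: v) =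
      (a * x - a ^ 2 * y) • Φ (u ++ x :: y :: v) +
      (x - y) • lin (act u.length) (Φ (u ++ x :: y :: v)) := by
  have hx : Continuous (fun t : ℂ => x + t) := continuous_const.add continuous_id
  have hy : Continuous (fun t : ℂ => y + t) := continuous_const.add continuous_id
  have h1 : LC (fun t => u.map (fun c => c + t) ++ (y + t) :: (x + t) :: v.map (fun c => c + t)) _ :=
    (LC.sh u).append (((LC.sh v).cons hx).cons hy)
  have h2 : LC (fun t => u.map (fun c => c + t) ++ (x + t) :: (y + t) :: v.map (fun c => c + t)) _ :=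
    (LC.sh u).append (((LC.sh v).cons hy).cons hx)
  have F : CF (fun t : ℂ => (a * (y + t) - a ^ 2 * (x + t)) •
      Φ (u.map (fun c => c + t) ++ (y + t) :: (x + t) :: v.map (fun c => c + t))) :=
    (hΦ _ _ h1).smul (by fun_prop)
  have G : CF (fun t : ℂ => (a * (x + t) - a ^ 2 * (y + t)) •
      Φ (u.map (fun c => c + t) ++ (x + t) :: (y + t) :: v.map (fun c => c + t)) +
      ((x + t) - (y + t)) • lin (act u.length)
      (Φ (u.map (fun c => c + t) ++ (x + t) :: (y + t) :: v.map (fun c => c + t)))) :=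
    ((hΦ _ _ h2).smul (by fun_prop)).add (((hΦ _ _ h2).lin _).smul (by fun_prop))
  have := CF.ext F G (bd (u ++ y :: x :: v)) (fun t ht => by
    have h3 := bd_spec _ t ht
    rw [List.map_append, List.map_cons, List.map_cons] at h3
    have h4 := h _ _ _ _ h3
    rw [List.length_map] at h4
    exact h4)
  simpa using this

theorem rot_ext (Φ : List ℂ → VW) (hΦ : ∀ (L : ℂ → List ℂ) (n : ℕ), LC L n → CF (fun t => Φ (L t)))
    (h : ∀ (x : ℂ) (m : List ℂ), (∀ c ∈ x :: m, c ≠ 0) → Φ (x :: m) = lin rotr (Φ (m ++ [x])))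
    (x : ℂ) (m : List ℂ) : Φ (x :: m) = lin rotr (Φ (m ++ [x])) := by
  have hx : Continuous (fun t : ℂ => x + t) := continuous_const.add continuous_id
  have h1 : LC (fun t => (x + t) :: m.map (fun c => c + t)) _ := (LC.sh m).cons hx
  have h2 : LC (fun t => m.map (fun c => c + t) ++ [x + t]) _ := (LC.sh m).append (LC.nil.cons hx)
  have := CF.ext (hΦ _ _ h1) ((hΦ _ _ h2).lin rotr) (bd (x :: m)) (fun t ht => by
    have h3 := bd_spec _ t ht
    rw [List.map_cons] at h3
    exact h _ _ h3)
  simpa using this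

theorem fac_cont (a : ℂ) {x : ℂ → ℂ} (hx : Continuous x) (z : List ℂ) :
    Continuous (fun t => fac a (x t) (z.map (fun c => c + t))) := by
  unfold fac
  refine hx.mul ?_
  induction z with
  | nil => simpa using continuous_const
  | cons b z ih =>
    simp only [List.map_cons, List.prod_cons]
    exact (by fun_prop : Continuous fun t => (b + t - a ^ 2 * x t) ^ 2).mul ih

theorem recu_ext (Φ : List ℂ → VW) (hΦ : ∀ (L : ℂ → List ℂ) (n : ℕ), LC L n → CF (fun t => Φ (L t)))
    (a : ℂ) (ha : a ≠ 0) (h : ∀ (u v : List ℂ) (x : ℂ), (∀ c ∈ u ++ x :: (a * x) :: v, c ≠ 0) →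
      Φ (u ++ x :: (a * x) :: v) = fac a x (u ++ v) • lin (lins u.length) (Φ (u ++ v)))
    (u v : List ℂ) (x : ℂ) :
    Φ (u ++ x :: (a * x) :: v) = fac a x (u ++ v) • lin (lins u.length) (Φ (u ++ v)) := by
  have hx : Continuous (fun t : ℂ => x + t) := continuous_const.add continuous_id
  have hx2 : Continuous (fun t : ℂ => a * (x + t)) := continuous_const.mul hx
  have h1 : LC (fun t => u.map (fun c => c + t) ++ (x + t) :: (a * (x + t)) ::
      v.map (fun c => c + t)) _ := (LC.sh u).append (((LC.sh v).cons hx2).cons hx)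
  have h2 : LC (fun t => u.map (fun c => c + t) ++ v.map (fun c => c + t)) _ :=
    (LC.sh u).append (LC.sh v)
  have hfac : Continuous (fun t => fac a (x + t) (u.map (fun c => c + t) ++
      v.map (fun c => c + t))) := by
    have := fac_cont a hx (u ++ v)
    simpa only [List.map_append] using this
  have G : CF (fun t : ℂ => fac a (x + t) (u.map (fun c => c + t) ++ v.map (fun c => c + t)) •
      lin (lins u.length) (Φ (u.map (fun c => c + t) ++ v.map (fun c => c + t)))) :=
    ((hΦ _ _ h2).lin _).smul hfac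
  have := CF.ext (hΦ _ _ h1) G (bd (u ++ x :: v)) (fun t ht => by
    have h3 := bd_spec _ t ht
    rw [List.map_append, List.map_cons] at h3
    have h4 := h (u.map (fun c => c + t)) (v.map (fun c => c + t)) (x + t) (by
      intro c hc
      rw [List.mem_append, List.mem_cons, List.mem_cons] at hc
      rcases hc with hc | hc | hc | hc
      · exact h3 c (by simp only [List.mem_append]; exact Or.inl hc)
      · exact h3 c (by simp only [List.mem_append, List.mem_cons]; exact Or.inr (Or.inl hc))
      · rw [hc]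
        exact mul_ne_zero ha (h3 _ (by simp))
      · exact h3 c (by simp only [List.mem_append, List.mem_cons]; exact Or.inr (Or.inr hc)))
    rw [List.length_map] at h4
    exact h4)
  simpa using this

theorem q4 : (q ^ 2) ^ 2 = q := by
  have := Pool.Agent.H988R2.Perc.q_cube
  linear_combination q * this

/-- the fields of the new family -/
theorem key (Ψ : List ℂ → VW) (hF : Fam q Ψ) : ∃ Ψ' : List ℂ → VW, Fam (q ^ 2) Ψ' ∧
    ∀ z : List ℂ, (∀ x ∈ z, x ≠ 0) →
      Ψ' z = (q ^ (z.length / 2) * z.prod ^ (z.length - 1)) • Ψ (z.map (fun x => x⁻¹)) := by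
  have hq0 : q ≠ 0 := Pool.Agent.H988R2.Perc.q_ne_zero
  have hq1 : q ≠ 1 := Pool.Agent.H988R2.Perc.q_ne_one
  have hqs : q ^ 2 + q + 1 = 0 := Pool.Agent.H988R2.Perc.q_spec
  have hq3 : q ^ 3 = 1 := Pool.Agent.H988R2.Perc.q_cube
  have hq21 : q ^ 2 ≠ 1 := Pool.Agent.H988R2.Perc.q_sq_ne_one
  have hinv : q⁻¹ = q ^ 2 := by
    field_simp
    exact hq3.symm
  choose P hP1 hP2 using hF.deg
  have hK := Ps_key Ψ hF.mem P hP1 hP2
  have hC : ∀ (L : ℂ → List ℂ) (n : ℕ), LC L n → CF (fun t => Ps P (L t)) :=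
    fun L n h => Ps_CF P h
  refine ⟨Ps P, ?_, hK⟩
  have hnorm : (q ^ 2 - 1)⁻¹ = -(q * (q - 1)⁻¹) := by
    have h1 : q - 1 ≠ 0 := sub_ne_zero.mpr hq1
    have h2 : q ^ 2 - 1 ≠ 0 := sub_ne_zero.mpr hq21
    field_simp
    linear_combination (q - 1) * hqs
  have hones : ∀ N : ℕ, Ps P (List.replicate N 1) = (q ^ (N / 2)) • Ψ (List.replicate N 1) := by
    intro N
    rw [hK _ (by intro x hx; rw [List.eq_of_mem_replicate hx]; exact one_ne_zero)]
    simp
  refine { mem := Ps_mem P, nil := ?_, one := ?_, two := ?_, three := ?_, deg := ?_, exch := ?_,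
           rot := ?_, recu := ?_, stat := ?_, tot_ne := ?_ }
  · rw [hK [] (by simp)]
    simp [hF.nil]
  · intro x
    have h1 : LC (fun t => [x + t]) _ := LC.nil.cons (continuous_const.add continuous_id)
    have := CF.ext (hC _ _ h1) (CF.const (bs [true])) (bd [x]) (fun t ht => by
      have h3 := bd_spec _ t ht
      rw [List.map_cons, List.map_nil] at h3
      show Ps P [x + t] = bs [true]
      rw [hK _ h3]
      simp [hF.one])
    simpa using this
  · intro x y
    have h1 : LC (fun t => [x + t, y + t]) _ :=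
      (LC.nil.cons (continuous_const.add continuous_id)).cons (continuous_const.add continuous_id)
    obtain ⟨_, _, h2⟩ := hC _ _ h1
    have := ext0 (h2 [true, false])
      (g := fun t => (q ^ 2 - 1)⁻¹ * (q ^ 2 * (x + t) - (q ^ 2) ^ 2 * (y + t))) (by fun_prop)
      (bd [x, y]) (fun t ht => by
        have h3 := bd_spec _ t ht
        rw [List.map_cons, List.map_cons, List.map_nil] at h3
        have hx : x + t ≠ 0 := h3 _ (by simp)
        have hy : y + t ≠ 0 := h3 _ (by simp)
        show Ps P [x + t, y + t] [true, false] = _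
        rw [hK _ h3, Finsupp.smul_apply]
        simp only [List.map_cons, List.map_nil, List.length_cons, List.length_nil, List.prod_cons,
          List.prod_nil, smul_eq_mul]
        rw [hF.two, hnorm, q4]
        field_simp
        ring)
    simpa using this
  · intro x y z
    have h1 : LC (fun t => [x + t, y + t, z + t]) _ :=
      ((LC.nil.cons (continuous_const.add continuous_id)).cons
        (continuous_const.add continuous_id)).cons (continuous_const.add continuous_id)
    obtain ⟨_, _, h2⟩ := hC _ _ h1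
    have := ext0 (h2 [true, false, true])
      (g := fun t => -(q ^ 2 - 1)⁻¹ * ((q ^ 2 * (z + t) - (q ^ 2) ^ 2 * (y + t)) *
        (q ^ 2 * (x + t) - (q ^ 2) ^ 2 * (y + t)) * (q ^ 2 * (x + t) - (q ^ 2) ^ 2 * (z + t))))
      (by fun_prop)
      (bd [x, y, z]) (fun t ht => by
        have h3 := bd_spec _ t ht
        rw [List.map_cons, List.map_cons, List.map_cons, List.map_nil] at h3
        have hx : x + t ≠ 0 := h3 _ (by simp)
        have hy : y + t ≠ 0 := h3 _ (by simp)
        have hz : z + t ≠ 0 := h3 _ (by simp)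
        show Ps P [x + t, y + t, z + t] [true, false, true] = _
        rw [hK _ h3, Finsupp.smul_apply]
        simp only [List.map_cons, List.map_nil, List.length_cons, List.length_nil, List.prod_cons,
          List.prod_nil, smul_eq_mul]
        rw [hF.three, hnorm, q4]
        field_simp
        ring)
    simpa using this
  · intro N w
    by_cases hw : w.length = N ∧ Ok w
    · refine ⟨MvPolynomial.C (q ^ (N / 2)) * revp (N - 1) (P N w), fun i => ?_, fun l hl => ?_⟩
      · exact (MvPolynomial.degreeOf_C_mul_le _ _ _).trans (revp_deg _ _ _)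
      · show Ps P l w = _
        rw [Ps_apply P l N hl w, if_pos hw, map_mul, MvPolynomial.eval_C]
    · refine ⟨0, fun i => by simp, fun l hl => ?_⟩
      show Ps P l w = _
      rw [Ps_apply P l N hl w, if_neg hw, map_zero]
  · refine exch_ext (Ps P) hC (q ^ 2) (fun u v x y h => ?_)
    have hx : x ≠ 0 := h x (by simp)
    have hy : y ≠ 0 := h y (by simp)
    have h' : ∀ c ∈ u ++ x :: y :: v, c ≠ 0 := by
      intro c hc
      apply h
      simp only [List.mem_append, List.mem_cons] at hc ⊢
      tauto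
    rw [hK _ h, hK _ h']
    have e1 : (u ++ y :: x :: v).prod = (u ++ x :: y :: v).prod := by
      simp only [List.prod_append, List.prod_cons]; ring
    have e2 : (u ++ y :: x :: v).length = (u ++ x :: y :: v).length := by simp
    rw [e1, e2]
    set c := q ^ ((u ++ x :: y :: v).length / 2) *
      (u ++ x :: y :: v).prod ^ ((u ++ x :: y :: v).length - 1) with hc
    have h3 := hF.exch (u.map (fun x => x⁻¹)) (v.map (fun x => x⁻¹)) x⁻¹ y⁻¹
    rw [List.length_map] at h3
    simp only [List.map_append, List.map_cons, map_smul]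
    set V1 := Ψ (u.map (fun x => x⁻¹) ++ y⁻¹ :: x⁻¹ :: v.map (fun x => x⁻¹))
    set V2 := Ψ (u.map (fun x => x⁻¹) ++ x⁻¹ :: y⁻¹ :: v.map (fun x => x⁻¹))
    have h4 := congrArg (fun V => (-(x * y) * c) • V) h3
    simp only [smul_add, smul_smul] at h4 ⊢
    rw [q4]
    have a1 : -(x * y) * c * (q * y⁻¹ - q ^ 2 * x⁻¹) = (q ^ 2 * y - q * x) * c := by
      field_simp; ring
    have a2 : -(x * y) * c * (q * x⁻¹ - q ^ 2 * y⁻¹) = (q ^ 2 * x - q * y) * c := by
      field_simp; ring
    have a3 : -(x * y) * c * (x⁻¹ - y⁻¹) = (x - y) * c := by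
      field_simp; ring
    rw [a1, a2, a3] at h4
    exact h4
  · refine rot_ext (Ps P) hC (fun x m h => ?_)
    have h' : ∀ c ∈ m ++ [x], c ≠ 0 := by
      intro c hc
      apply h
      simp only [List.mem_append, List.mem_cons] at hc ⊢
      tauto
    rw [hK _ h, hK _ h', map_smul]
    have e1 : (m ++ [x]).prod = (x :: m).prod := by
      simp only [List.prod_append, List.prod_cons, List.prod_nil]; ring
    have e2 : (m ++ [x]).length = (x :: m).length := by simp
    rw [e1, e2]
    congr 1
    rw [List.map_cons, hF.rot, List.map_append, List.map_cons, List.map_nil]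
  · refine recu_ext (Ps P) hC (q ^ 2) (pow_ne_zero _ hq0) (fun u v x h => ?_)
    have hx : x ≠ 0 := h x (by simp)
    have h' : ∀ c ∈ u ++ v, c ≠ 0 := by
      intro c hc
      apply h
      simp only [List.mem_append, List.mem_cons] at hc ⊢
      tauto
    rw [hK _ h, hK _ h', map_smul, smul_smul]
    have e0 : (u ++ x :: (q ^ 2 * x) :: v).map (fun x => x⁻¹) =
        u.map (fun x => x⁻¹) ++ x⁻¹ :: (q * x⁻¹) :: v.map (fun x => x⁻¹) := by
      simp only [List.map_append, List.map_cons]
      congr 3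
      rw [mul_inv, ← inv_pow, hinv, q4]
    rw [e0, hF.recu, smul_smul, List.length_map, ← List.map_append]
    congr 1
    have e1 : (u ++ x :: (q ^ 2 * x) :: v).prod = q ^ 2 * x ^ 2 * (u ++ v).prod := by
      simp only [List.prod_append, List.prod_cons]; ring
    have e2 : (u ++ x :: (q ^ 2 * x) :: v).length = (u ++ v).length + 2 := by simp; ring
    rw [e1, e2]
    have gen : ∀ l : List ℂ, (∀ c ∈ l, c ≠ 0) →
        l.prod ^ 2 * x ^ (2 * l.length) *
          ((l.map (fun x => x⁻¹)).map (fun y => (y - q ^ 2 * x⁻¹) ^ 2)).prod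
        = q ^ l.length * (l.map (fun y => (y - (q ^ 2) ^ 2 * x) ^ 2)).prod := by
      intro l
      induction l with
      | nil => intro _; simp
      | cons b l ih =>
        intro hl
        have hb : b ≠ 0 := hl b (by simp)
        have ih' := ih (fun c hc => hl c (by simp [hc]))
        simp only [List.map_cons, List.prod_cons, List.length_cons]
        have s1 : b ^ 2 * x ^ 2 * (b⁻¹ - q ^ 2 * x⁻¹) ^ 2 = q * (b - (q ^ 2) ^ 2 * x) ^ 2 := by
          rw [q4]
          have : b ^ 2 * x ^ 2 * (b⁻¹ - q ^ 2 * x⁻¹) ^ 2 = (x - q ^ 2 * b) ^ 2 := by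
            field_simp
          rw [this]
          linear_combination (q * b ^ 2 - x ^ 2) * hq3
        calc (b * l.prod) ^ 2 * x ^ (2 * (l.length + 1)) * ((b⁻¹ - q ^ 2 * x⁻¹) ^ 2 *
              ((l.map (fun x => x⁻¹)).map (fun y => (y - q ^ 2 * x⁻¹) ^ 2)).prod)
            = (b ^ 2 * x ^ 2 * (b⁻¹ - q ^ 2 * x⁻¹) ^ 2) * (l.prod ^ 2 * x ^ (2 * l.length) *
              ((l.map (fun x => x⁻¹)).map (fun y => (y - q ^ 2 * x⁻¹) ^ 2)).prod) := by ring
          _ = _ := by rw [s1, ih']; ring
    have g1 := gen (u ++ v) h'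
    unfold fac
    set l := u ++ v with hl
    set A := ((l.map (fun x => x⁻¹)).map (fun y => (y - q ^ 2 * x⁻¹) ^ 2)).prod with hA
    set B := (l.map (fun y => (y - (q ^ 2) ^ 2 * x) ^ 2)).prod with hB
    have hlp : l.prod ≠ 0 := List.prod_ne_zero (fun h0 => h' 0 h0 rfl)
    obtain ⟨n, hn⟩ : ∃ n, l.length = n := ⟨_, rfl⟩
    rw [hn] at g1 ⊢
    have e3 : (n + 2) / 2 = n / 2 + 1 := by omega
    have e4 : n + 2 - 1 = n + 1 := by omega
    rw [e3, e4]
    have hpow : q ^ (3 * n + 3) = 1 := by
      rw [show 3 * n + 3 = 3 * (n + 1) by ring, pow_mul, hq3, one_pow]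
    rcases Nat.eq_zero_or_pos n with h0 | h0
    · have hlnil : l = [] := List.length_eq_zero_iff.mp (hn.trans h0)
      have hp1 : l.prod = 1 := by rw [hlnil]; simp
      rw [h0] at g1 ⊢
      rw [hp1] at g1 ⊢
      have g2 : A = B := by simpa using g1
      rw [g2]
      field_simp
      linear_combination B * x ^ 2 * hq3
    · obtain ⟨k, rfl⟩ : ∃ k, n = k + 1 := ⟨n - 1, by omega⟩
      have e5 : k + 1 - 1 = k := by omega
      rw [e5]
      have g3 : q ^ ((k + 1) / 2 + 1) * (q ^ 2 * x ^ 2 * l.prod) ^ (k + 1 + 1) * (x⁻¹ * A)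
          = q ^ ((k + 1) / 2) * l.prod ^ k * x * q ^ (2 * (k + 1) + 3) *
            (l.prod ^ 2 * x ^ (2 * (k + 1)) * A) := by
        rw [mul_pow, mul_pow, ← pow_mul, ← pow_mul, pow_succ q ((k + 1) / 2)]
        field_simp
        ring
      rw [g3, g1]
      have : q ^ ((k + 1) / 2) * l.prod ^ k * x * q ^ (2 * (k + 1) + 3) * (q ^ (k + 1) * B)
          = q ^ (3 * (k + 1) + 3) * (q ^ ((k + 1) / 2) * l.prod ^ k * x * B) := by ring
      rw [this, hpow]
      ring
  · intro m σ
    have h := hF.stat m σ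
    simp only [hones, Finsupp.smul_apply, smul_eq_mul]
    have h2 : ∀ c : Fin (m + 1) → Bool, push (Tc m c)
        (fun τ : Wd (m + 1) => q ^ ((m + 1) / 2) * Ψ (List.replicate (m + 1) 1) τ.1) σ
        = q ^ ((m + 1) / 2) * push (Tc m c)
        (fun τ : Wd (m + 1) => Ψ (List.replicate (m + 1) 1) τ.1) σ := by
      intro c
      unfold push
      rw [Finset.mul_sum]
      refine Finset.sum_congr rfl fun τ _ => ?_
      split_ifs
      · rfl
      · simp
    rw [Finset.sum_congr rfl (fun c _ => h2 c), ← Finset.mul_sum, h]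
    ring
  · intro N
    rw [hones, map_smul, smul_eq_mul]
    exact mul_ne_zero (pow_ne_zero _ hq0) (hF.tot_ne N)

end Pool.Agent.W808.KS.TFS

namespace Pool.Agent.W808.KS

theorem t_FS : S_FS := fun Ψ hF => TFS.key Ψ hF

end Pool.Agent.W808.KS
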