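import Pool.Agent.W808.KS.Stm

set_option autoImplicit false

namespace Pool.Agent.W808.KS
open Pool.Agent.H863R2.Cyl
open Pool.Agent.H988R2.Perc (Word PD Dyck LP Fw rainbow firstArc rem)
open Pool.Agent.W808.HB (bwm)

namespace TG0

/-- closing a pair `false, true` -/
theorem cap_ft (L R : Word) : cap L.length (L ++ false :: true :: R) = L ++ R := by
  unfold cap
  rw [List.rotate_append_length_eq]
  have h1 : cap0 (false :: true :: R ++ L) = R ++ L := rfl
  rw [h1]
  have h2 : (L ++ false :: true :: R).length - 2 - L.length = R.length := by
    simp only [List.length_append, List.length_cons]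
    omega
  rw [h2, List.rotate_append_length_eq]

theorem firstArc_rb (b c : ℕ) :
    firstArc (List.replicate b true ++ true :: false :: List.replicate c false) = b := by
  induction b with
  | zero => rfl
  | succ b ih =>
    cases b with
    | zero => rfl
    | succ b =>
      rw [List.replicate_succ, List.cons_append]
      have h1 : ∀ s : Word, firstArc (true :: (List.replicate (b + 1) true ++ s)) =
          firstArc (List.replicate (b + 1) true ++ s) + 1 := by
        intro s
        rw [List.replicate_succ, List.cons_append]
        rfl
      rw [h1, ih]

theorem rb_form (b : ℕ) : rainbow (b + 1) =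
    List.replicate b true ++ true :: false :: List.replicate b false := by
  unfold rainbow
  rw [List.replicate_succ', List.replicate_succ, List.append_assoc]
  rfl

theorem gl_rb : ∀ (b p : ℕ) (X : Word), X.length = p →
    gl p b (rainbow b) (X ++ (List.replicate b false ++ List.replicate b true)) = X := by
  intro b
  induction b with
  | zero =>
    intro p X _
    simp [gl]
  | succ b ih =>
    intro p X hX
    have h1 : firstArc (rainbow (b + 1)) = b := by rw [rb_form, firstArc_rb]
    have h2 : rem b (rainbow (b + 1)) = rainbow b := by
      rw [rb_form]
      unfold rem rainbow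
      have e1 : (List.replicate b true ++ true :: false :: List.replicate b false).take b =
          List.replicate b true := by
        rw [List.take_append_of_le_length (by simp), List.take_of_length_le (by simp)]
      have e2 : (List.replicate b true ++ true :: false :: List.replicate b false).drop (b + 2) =
          List.replicate b false := by
        rw [List.drop_append, List.drop_of_length_le (by simp)]
        simp
      rw [e1, e2]
    have h3 : X ++ (List.replicate (b + 1) false ++ List.replicate (b + 1) true) =
        (X ++ List.replicate b false) ++ false :: true :: List.replicate b true := by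
      rw [List.replicate_succ', List.replicate_succ]
      simp
    have h4 : p + b = (X ++ List.replicate b false).length := by simp [hX]
    change gl p b (rem (firstArc (rainbow (b + 1))) (rainbow (b + 1)))
      (cap (p + firstArc (rainbow (b + 1))) _) = X
    rw [h1, h2, h3, h4, cap_ft, List.append_assoc]
    exact ih p X hX

theorem tf : ∀ s : Word, ∃ a b : Word, true :: (s ++ [false]) = a ++ true :: false :: b := by
  intro s
  induction s with
  | nil => exact ⟨[], [], rfl⟩
  | cons c s ih =>
    cases c with
    | false => exact ⟨[], s ++ [false], rfl⟩
    | true =>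
      obtain ⟨a, b, h⟩ := ih
      exact ⟨true :: a, b, by rw [List.cons_append, h]; rfl⟩

theorem ins_eq (a b : Word) : Pool.Agent.H988R2.Perc.ins a.length (a ++ b) =
    a ++ true :: false :: b := by
  unfold Pool.Agent.H988R2.Perc.ins
  rw [List.take_left, List.drop_left]

theorem rb_of_peaks {w : Word} (hw : Dyck w) {b1 : ℕ}
    (h : ∀ (j : ℕ) (w' : Word), Dyck w' → j ≤ w'.length →
      w = Pool.Agent.H988R2.Perc.ins j w' → j + 1 = b1) :
    w = rainbow (w.length / 2) := by
  by_contra hne
  obtain ⟨x, v, hxv, hx, hv⟩ := Pool.Agent.H988R2.Perc.valley_exists hw hne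
  -- the first letter
  obtain ⟨x', rfl⟩ : ∃ x', x = true :: x' := by
    cases x with
    | nil => simp at hx
    | cons c x' =>
      cases c with
      | true => exact ⟨x', rfl⟩
      | false =>
        exfalso
        have := Pool.Agent.H988R2.Perc.dyck_prefix hw 1
        rw [hxv] at this
        simp at this
  -- the last letter
  obtain ⟨v', rfl⟩ : ∃ v', v = v' ++ [false] := by
    rcases List.eq_nil_or_concat v with hv0 | ⟨v', c, hvc⟩
    · rw [hv0] at hv; simp at hv
    · cases c with
      | false => exact ⟨v', by rw [hvc]; simp⟩
      | true =>
        exfalso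
        have h1 := Pool.Agent.H988R2.Perc.dyck_prefix hw (w.length - 1)
        have h2 := Pool.Agent.H988R2.Perc.dyck_count hw
        have h3 : w = (true :: x' ++ false :: true :: v') ++ [true] := by
          rw [hxv, hvc]; simp
        have h4 : w.take (w.length - 1) = true :: x' ++ false :: true :: v' := by
          have h5 : w.length - 1 = (true :: x' ++ false :: true :: v').length := by
            rw [h3]; simp; omega
          rw [h5, h3, List.take_left]
        rw [h4] at h1
        rw [h3] at h2
        rw [List.count_append, List.count_append] at h2
        simp only [List.count_cons, List.count_nil, List.count_append] at h1 h2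
        simp at h1 h2
        omega
  obtain ⟨a, b, hab⟩ := tf x'
  obtain ⟨a', b', hab'⟩ := tf v'
  have e1 : w = a ++ true :: false :: (b ++ true :: (v' ++ [false])) := by
    have : w = (true :: (x' ++ [false])) ++ true :: (v' ++ [false]) := by
      rw [hxv]; simp
    rw [this, hab]; simp
  have e2 : w = (true :: x' ++ false :: a') ++ true :: false :: b' := by
    have : w = (true :: x' ++ [false]) ++ (true :: (v' ++ [false])) := by
      rw [hxv]; simp
    rw [this, hab']; simp
  have hd1 : Dyck (a ++ (b ++ true :: (v' ++ [false]))) := by
    rw [← Pool.Agent.H988R2.Perc.dyck_ins_iff (i := a.length) (by simp), ins_eq, ← e1]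
    exact hw
  have hd2 : Dyck ((true :: x' ++ false :: a') ++ b') := by
    rw [← Pool.Agent.H988R2.Perc.dyck_ins_iff (i := (true :: x' ++ false :: a').length) (by simp),
      ins_eq, ← e2]
    exact hw
  have k1 := h a.length _ hd1 (by simp) (by rw [ins_eq]; exact e1)
  have k2 := h (true :: x' ++ false :: a').length _ hd2 (by simp)
    (by rw [ins_eq]; exact e2)
  have k3 := congrArg List.length hab
  simp at k2 k3
  omega

end TG0

theorem t_G0 : S_GC → S_GI → S_Gz → S_G0 := by
  intro _ _ hz b1 b2 m w u hw hu hwl hul
  -- the case of the rainbow
  have hrb : ∀ b : ℕ, (Gs b b m (rainbow b) u ↔ u = bwm m) := by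
    intro b
    unfold Gs
    have h1 : (rainbow b).length / 2 = b := by
      rw [Pool.Agent.H988R2.Perc.length_rainbow]; omega
    have h2 : Us b b m u = (List.replicate b false ++ (u ++ List.replicate b true)) ++
        (List.replicate b false ++ List.replicate b true) := by
      unfold Us
      rw [List.take_of_length_le (by omega), List.drop_of_length_le (by omega)]
      simp
    rw [h1, h2, TG0.gl_rb b (m + b + b) _ (by simp; omega)]
    have h3 : bwm (m + b + b) = List.replicate b false ++ (bwm m ++ List.replicate b true) := by
      unfold bwm
      have e1 : (m + b + b) / 2 = b + m / 2 := by omega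
      have e2 : m + b + b - (m + b + b) / 2 = (m - m / 2) + b := by omega
      rw [e2, e1, List.replicate_add b (m / 2), List.replicate_add (m - m / 2) b]
      simp only [List.append_assoc]
    rw [h3]
    constructor
    · intro h
      exact List.append_cancel_right (List.append_cancel_left h)
    · rintro rfl
      rfl
  constructor
  · intro hG
    have hpk : ∀ (j : ℕ) (w' : Word), Dyck w' → j ≤ w'.length →
        w = Pool.Agent.H988R2.Perc.ins j w' → j + 1 = b1 := by
      intro j w' hw' hj hjw
      by_contra hne
      have hl : w.length = w'.length + 2 := by
        rw [hjw, Pool.Agent.H988R2.Perc.length_ins]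
      refine (hz b1 b2 m 0 j w' u hw' hu).2 (by omega) (by omega) hj (by omega) ?_
      rw [← hjw]
      exact hG
    have hw2 := TG0.rb_of_peaks hw hpk
    obtain ⟨n, hn⟩ := (Pool.Agent.H988R2.Perc.dyck_even hw).two_dvd
    have hn2 : w.length / 2 = n := by omega
    rw [hn2] at hw2
    have hb : b1 = n ∧ b2 = n := by
      cases n with
      | zero => omega
      | succ c =>
        have h1 := hpk c (rainbow c) (Pool.Agent.H988R2.Perc.dyck_rainbow c)
          (by rw [Pool.Agent.H988R2.Perc.length_rainbow]; omega)
          (by rw [hw2, Pool.Agent.H988R2.Perc.rainbow_succ])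
        omega
    obtain ⟨rfl, rfl⟩ := hb
    refine ⟨rfl, hw2, ?_⟩
    rw [← hrb b2, ← hw2]
    exact hG
  · rintro ⟨rfl, rfl, h⟩
    exact (hrb b1).2 h

end Pool.Agent.W808.KS
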