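import Pool.Agent.W808.KS.Stm

/-! Project KS: the arcs can be closed in any order. -/

set_option autoImplicit false

namespace Pool.Agent.W808.KS

open Pool.Agent.H863R2.Cyl
open Pool.Agent.H988R2.Perc (Word Dyck firstArc rem length_ins dyck_firstArc ins_eq_ins ins_inj
  dyck_ins_iff)

theorem t_GC : S_GC := by
  intro p n
  induction n with
  | zero =>
    intro i w U _ hl _ _ hi
    have hw0 : w = [] := List.length_eq_zero_iff.1 (by omega)
    have hi0 : i = 0 := by omega
    subst hw0 hi0
    simp [Pool.Agent.H988R2.Perc.ins, gl, firstArc]
  | succ n ih =>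
    intro i w U hw hl hU hUl hi
    set W := Pool.Agent.H988R2.Perc.ins i w with hW
    have hWd : Dyck W := Dyck.ins i w (by omega) hw
    have hWl : W.length = 2 * n + 4 := by rw [hW, length_ins]; omega
    have hWne : W ≠ [] := by
      intro h
      rw [h] at hWl
      simp at hWl
    obtain ⟨hk, hWk, hrd⟩ := dyck_firstArc hWd hWne
    have e1 : gl p (n + 1 + 1) W U =
        gl p (n + 1) (rem (firstArc W) W) (cap (p + firstArc W) U) := rfl
    rw [e1]
    set k := firstArc W with hkd
    set w' := rem k W with hw'
    have hl' : w'.length = 2 * n + 2 := by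
      have := length_ins k w'
      rw [← hWk] at this
      omega
    have heq : Pool.Agent.H988R2.Perc.ins i w = Pool.Agent.H988R2.Perc.ins k w' := hWk
    have hli := length_cap (i := p + i) (w := U) (by omega)
    have hlk := length_cap (i := p + k) (w := U) (by omega)
    have hoi : Ok (cap (p + i) U) := ok_cap hU (by omega)
    have hok : Ok (cap (p + k) U) := ok_cap hU (by omega)
    rcases lt_trichotomy i k with hik | hik | hik
    · obtain ⟨h1, x, h2, h3, h4, h5⟩ := ins_eq_ins hik (by omega) (by omega) heq
      have hxd : Dyck x := (dyck_ins_iff h2).1 (h5 ▸ hrd)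
      have hxl : x.length = 2 * n := by
        have := length_ins i x
        rw [← h5] at this
        omega
      rw [h5, h4, ih i x _ hxd hxl hok (by omega) (by omega),
        ih (k - 2) x _ hxd hxl hoi (by omega) (by omega)]
      have := cap_cap (i := p + i) (j := p + (k - 2)) (w := U) (by omega) (by omega)
      rw [show p + (k - 2) + 2 = p + k by omega] at this
      rw [this]
    · have : w = w' := by
        rw [← hik] at heq
        exact ins_inj (by omega) (by omega) heq
      rw [← this, ← hik]
    · obtain ⟨h1, x, h2, h3, h4, h5⟩ := ins_eq_ins hik (by omega) (by omega) heq.symm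
      have hxd : Dyck x := (dyck_ins_iff h2).1 (h5 ▸ hw)
      have hxl : x.length = 2 * n := by
        have := length_ins k x
        rw [← h5] at this
        omega
      rw [h5, h4, ih (i - 2) x _ hxd hxl hok (by omega) (by omega),
        ih k x _ hxd hxl hoi (by omega) (by omega)]
      have := cap_cap (i := p + k) (j := p + (i - 2)) (w := U) (by omega) (by omega)
      rw [show p + (i - 2) + 2 = p + i by omega] at this
      rw [this]

end Pool.Agent.W808.KS
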