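import Pool.Agent.W808.KS.Stm
import Pool.Agent.H863R2.Cyl.Lst2

/-! `t_GI`: an arc of the lower word. -/

set_option autoImplicit false

namespace Pool.Agent.W808.KS
open Pool.Agent.H863R2.Cyl
open Pool.Agent.H988R2.Perc (Word Dyck)

theorem t_GI (hGC : S_GC) : S_GI := by
  intro p n
  induction n with
  | zero =>
    intro i w U hw hwl hU hUl hi
    have hne : w ≠ [] := by
      rintro rfl
      simp at hwl
    obtain ⟨h1, h2, h3⟩ := Pool.Agent.H988R2.Perc.dyck_firstArc hw hne
    set j := Pool.Agent.H988R2.Perc.firstArc w with hj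
    set w' := Pool.Agent.H988R2.Perc.rem j w with hw'
    have hl : w'.length + 2 = w.length := by
      conv_rhs => rw [h2]
      rw [Pool.Agent.H988R2.Perc.length_ins]
    have hj0 : j = i := by omega
    rw [h2, hGC p 0 j w' _ h3 (by omega) (ok_lins.2 hU) (by rw [Pool.Agent.H988R2.Perc.length_ins]; omega) (by omega),
      hj0, cap_lins_self (by omega), Pool.Agent.H988R2.Perc.cap_ins_self (by omega)]
  | succ n ih =>
    intro i w U hw hwl hU hUl hi
    have hne : w ≠ [] := by
      rintro rfl
      simp at hwl
    obtain ⟨h1, h2, h3⟩ := Pool.Agent.H988R2.Perc.dyck_firstArc hw hne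
    set j := Pool.Agent.H988R2.Perc.firstArc w with hj
    set w' := Pool.Agent.H988R2.Perc.rem j w with hw'
    have hl : w'.length + 2 = w.length := by
      conv_rhs => rw [h2]
      rw [Pool.Agent.H988R2.Perc.length_ins]
    rw [h2, hGC p (n + 1) j w' _ h3 (by omega) (ok_lins.2 hU) (by rw [Pool.Agent.H988R2.Perc.length_ins]; omega)
      (by omega)]
    rcases (by omega : i + 2 ≤ j ∨ j = i + 1 ∨ j = i ∨ i = j + 1 ∨ j + 2 ≤ i) with
      c | c | c | c | c
    · have hcl := Pool.Agent.H863R2.Cyl.length_cap (i := p + (j - 2)) (w := U) (by omega)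
      have hcl' := Pool.Agent.H988R2.Perc.length_cap (i := i) (w := w') (by omega)
      rw [cap_lins_left (i := p + j) (j := p + i) (w := U) (by omega) (by omega),
        Pool.Agent.H988R2.Perc.cap_ins_right c (by omega),
        show p + j - 2 = p + (j - 2) by omega,
        ih i w' (cap (p + (j - 2)) U) h3 (by omega) (ok_cap hU (by omega)) (by omega) (by omega),
        hGC p n (j - 2) _ U (Pool.Agent.H988R2.Perc.dyck_cap h3 (by omega)) (by omega) hU
          (by omega) (by omega)]
    · rw [c, ← add_assoc, cap_succ_lins (by omega), Pool.Agent.H988R2.Perc.cap_ins_succ (by omega)]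
    · rw [c, cap_lins_self (by omega), Pool.Agent.H988R2.Perc.cap_ins_self (by omega)]
    · rw [c, ← add_assoc, cap_lins_succ (by omega), Pool.Agent.H988R2.Perc.cap_succ_ins (by omega)]
    · have hcl := Pool.Agent.H863R2.Cyl.length_cap (i := p + j) (w := U) (by omega)
      have hcl' := Pool.Agent.H988R2.Perc.length_cap (i := i - 2) (w := w') (by omega)
      rw [cap_lins_right (i := p + j) (j := p + i) (w := U) (by omega) (by omega),
        Pool.Agent.H988R2.Perc.cap_ins_left c (by omega),
        show p + i - 2 = p + (i - 2) by omega,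
        ih (i - 2) w' (cap (p + j) U) h3 (by omega) (ok_cap hU (by omega)) (by omega) (by omega),
        hGC p n j _ U (Pool.Agent.H988R2.Perc.dyck_cap h3 (by omega)) (by omega) hU
          (by omega) (by omega)]

end Pool.Agent.W808.KS
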