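import Pool.Agent.W808.KS.Stm

/-! Task KS-GLs (`S_GLs`): gluing of the two halves (helper782). -/

set_option autoImplicit false

namespace Pool.Agent.W808.KS
open Pool.Agent.H863R2.Cyl
open Pool.Agent.H988R2.Perc (Word PD)

namespace TGLs

open Relation (EqvGen)

theorem eqv_vert {α : Type*} {r : α → α → Prop} {V : α → Prop} (hV : ∀ x y, r x y → V x ∧ V y)
    {x y : α} (h : EqvGen r x y) : x = y ∨ (V x ∧ V y) := by
  induction h with
  | rel x y h => exact Or.inr (hV x y h)
  | refl x => exact Or.inl rfl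
  | symm x y _ h =>
    rcases h with h | h
    · exact Or.inl h.symm
    · exact Or.inr ⟨h.2, h.1⟩
  | trans x y z _ _ h1 h2 =>
    rcases h1 with h1 | h1
    · subst h1; exact h2
    · rcases h2 with h2 | h2
      · subst h2; exact Or.inr h1
      · exact Or.inr ⟨h1.1, h2.2⟩

/-- glueing along the boundary points -/
theorem glue {α I B : Type*} (R : I → α → α → Prop) (V : I → α → Prop) (ι : B → α)
    (hι : Function.Injective ι)
    (hV : ∀ i x y, R i x y → V i x ∧ V i y)
    (hB : ∀ i j x, V i x → V j x → i = j ∨ ∃ b, x = ι b) {a b : B}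
    (h : EqvGen (fun x y => ∃ i, R i x y) (ι a) (ι b)) :
    EqvGen (fun a b => ∃ i, EqvGen (R i) (ι a) (ι b)) a b := by
  have hj : ∀ (i j : I) (x y z : α), EqvGen (R i) x y → EqvGen (R j) y z →
      (EqvGen (R i) x z ∨ EqvGen (R j) x z) ∨
      ∃ c, EqvGen (R i) x (ι c) ∧ EqvGen (R j) (ι c) z := by
    intro i j x y z h1 h2
    rcases eqv_vert (hV i) h1 with e | ⟨_, v1⟩
    · subst e; exact Or.inl (Or.inr h2)
    · rcases eqv_vert (hV j) h2 with e | ⟨v2, _⟩
      · subst e; exact Or.inl (Or.inl h1)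
      · rcases hB i j y v1 v2 with e | ⟨c, e⟩
        · subst e; exact Or.inl (Or.inl (h1.trans _ _ _ h2))
        · subst e; exact Or.inr ⟨c, h1, h2⟩
  have key : ∀ x y : α, EqvGen (fun x y => ∃ i, R i x y) x y →
      (∃ i, EqvGen (R i) x y) ∨ x = y ∨
      ∃ (a b : B) (i j : I), EqvGen (R i) x (ι a) ∧ EqvGen (R j) y (ι b) ∧
        EqvGen (fun a b => ∃ i, EqvGen (R i) (ι a) (ι b)) a b := by
    intro x y h
    induction h with
    | rel x y h =>
      obtain ⟨i, h⟩ := h
      exact Or.inl ⟨i, EqvGen.rel _ _ h⟩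
    | refl x => exact Or.inr (Or.inl rfl)
    | symm x y _ h =>
      rcases h with ⟨i, h⟩ | h | ⟨a, b, i, j, h1, h2, h3⟩
      · exact Or.inl ⟨i, h.symm _ _⟩
      · exact Or.inr (Or.inl h.symm)
      · exact Or.inr (Or.inr ⟨b, a, j, i, h2, h1, h3.symm _ _⟩)
    | trans x y z _ _ h1 h2 =>
      rcases h1 with ⟨i, h1⟩ | h1 | ⟨a, b, i, j, h11, h12, h13⟩
      · rcases h2 with ⟨k, h2⟩ | h2 | ⟨a', b', i', j', h21, h22, h23⟩
        · rcases hj i k x y z h1 h2 with (h | h) | ⟨c, h, h'⟩
          · exact Or.inl ⟨i, h⟩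
          · exact Or.inl ⟨k, h⟩
          · exact Or.inr (Or.inr ⟨c, c, i, k, h, h'.symm _ _, EqvGen.refl _⟩)
        · subst h2; exact Or.inl ⟨i, h1⟩
        · rcases hj i i' x y (ι a') h1 h21 with (h | h) | ⟨c, h, h'⟩
          · exact Or.inr (Or.inr ⟨a', b', i, j', h, h22, h23⟩)
          · exact Or.inr (Or.inr ⟨a', b', i', j', h, h22, h23⟩)
          · exact Or.inr (Or.inr ⟨c, b', i, j', h, h22,
              EqvGen.trans _ _ _ (EqvGen.rel _ _ ⟨i', h'⟩) h23⟩)
      · subst h1; exact h2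
      · rcases h2 with ⟨k, h2⟩ | h2 | ⟨a', b', i', j', h21, h22, h23⟩
        · rcases hj k j z y (ι b) (h2.symm _ _) h12 with (h | h) | ⟨c, h, h'⟩
          · exact Or.inr (Or.inr ⟨a, b, i, k, h11, h, h13⟩)
          · exact Or.inr (Or.inr ⟨a, b, i, j, h11, h, h13⟩)
          · exact Or.inr (Or.inr ⟨a, c, i, k, h11, h,
              EqvGen.trans _ _ _ h13 (EqvGen.symm _ _ (EqvGen.rel _ _ ⟨j, h'⟩))⟩)
        · subst h2; exact Or.inr (Or.inr ⟨a, b, i, j, h11, h12, h13⟩)
        · refine Or.inr (Or.inr ⟨a, b', i, j', h11, h22, EqvGen.trans _ _ _ h13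
            (EqvGen.trans _ _ _ ?_ h23)⟩)
          rcases hj j i' (ι b) y (ι a') (h12.symm _ _) h21 with (h | h) | ⟨c, h, h'⟩
          · exact EqvGen.rel _ _ ⟨j, h⟩
          · exact EqvGen.rel _ _ ⟨i', h⟩
          · exact EqvGen.trans _ _ _ (EqvGen.rel _ _ ⟨j, h⟩) (EqvGen.rel _ _ ⟨i', h'⟩)
  rcases key _ _ h with ⟨i, h⟩ | h | ⟨c, d, i, j, h1, h2, h3⟩
  · exact EqvGen.rel _ _ ⟨i, h⟩
  · rw [hι h]; exact EqvGen.refl _
  · exact EqvGen.trans _ _ _ (EqvGen.rel _ _ ⟨i, h1⟩)
      (EqvGen.trans _ _ _ h3 (EqvGen.symm _ _ (EqvGen.rel _ _ ⟨j, h2⟩)))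

/-- the image of a relation -/
def Im {α β : Type*} (r : α → α → Prop) (f : α → β) (p q : β) : Prop :=
  ∃ x y, r x y ∧ p = f x ∧ q = f y

theorem map_eqv {α β : Type*} {r : α → α → Prop} {f : α → β} (hf : Function.Injective f) {p q : β}
    (h : EqvGen (Im r f) p q) : p = q ∨ ∃ x y, p = f x ∧ q = f y ∧ EqvGen r x y := by
  induction h with
  | rel p q h =>
    obtain ⟨x, y, h, h1, h2⟩ := h
    exact Or.inr ⟨x, y, h1, h2, EqvGen.rel _ _ h⟩
  | refl p => exact Or.inl rfl
  | symm p q _ h =>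
    rcases h with h | ⟨x, y, h1, h2, h3⟩
    · exact Or.inl h.symm
    · exact Or.inr ⟨y, x, h2, h1, h3.symm _ _⟩
  | trans p q s _ _ h1 h2 =>
    rcases h1 with h1 | ⟨x, y, h11, h12, h13⟩
    · subst h1; exact h2
    · rcases h2 with h2 | ⟨x', y', h21, h22, h23⟩
      · subst h2; exact Or.inr ⟨x, y, h11, h12, h13⟩
      · have e : y = x' := hf (h12.symm.trans h21)
        subst e
        exact Or.inr ⟨x, y', h11, h22, h13.trans _ _ _ h23⟩

theorem map_eqv' {α β : Type*} {r : α → α → Prop} {f : α → β} (hf : Function.Injective f) {x y : α}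
    (h : EqvGen (Im r f) (f x) (f y)) : EqvGen r x y := by
  rcases map_eqv hf h with h | ⟨x', y', h1, h2, h3⟩
  · rw [hf h]; exact EqvGen.refl _
  · rw [hf h1, hf h2]; exact h3

theorem mono_eqv {α β : Type*} {r : α → α → Prop} {s : β → β → Prop} (f : α → β)
    (hf : ∀ x y, r x y → EqvGen s (f x) (f y)) {x y : α} (h : EqvGen r x y) :
    EqvGen s (f x) (f y) := by
  induction h with
  | rel x y h => exact hf x y h
  | refl x => exact EqvGen.refl _
  | symm x y _ h => exact h.symm _ _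
  | trans x y z _ _ h1 h2 => exact h1.trans _ _ _ h2

/-- the upper embedding -/
def eu (p : ℤ × ℕ) : ℤ × ℤ := (p.1, (p.2 : ℤ))

theorem eu_inj : Function.Injective eu := by
  intro p q h
  simp only [eu, Prod.mk.injEq, Nat.cast_inj] at h
  exact Prod.ext h.1 h.2

/-- the shift of the strip -/
def es' (c : ℤ) (p : ℤ × ℤ) : ℤ × ℤ := (c + p.1, p.2)

theorem es'_inj (c : ℤ) : Function.Injective (es' c) := by
  intro p q h
  simp only [es', Prod.mk.injEq, add_right_inj] at h
  exact Prod.ext h.1 h.2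

/-- the parts -/
def Pt (N m M : ℕ) (ω : ℤ × ℤ → Bool) : Option ℤ → ℤ × ℤ → ℤ × ℤ → Prop
  | none => Im (HB.HL N N (lowH ω)) eu
  | some s => Im (SI m M ω) (es' (s * N + m))

/-- their vertices -/
def Vt (N m M : ℕ) : Option ℤ → ℤ × ℤ → Prop
  | none => fun p => 0 ≤ p.2
  | some s => fun p => p.2 ≤ 0 ∧ s * N + m ≤ p.1 ∧ p.1 ≤ s * N + m + 2 * M

theorem Pt_Vt (N m M : ℕ) (ω : ℤ × ℤ → Bool) (i : Option ℤ) (x y : ℤ × ℤ)
    (h : Pt N m M ω i x y) : Vt N m M i x ∧ Vt N m M i y := by
  cases i with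
  | none =>
    obtain ⟨x', y', _, h1, h2⟩ := h
    subst h1 h2
    exact ⟨Int.natCast_nonneg _, Int.natCast_nonneg _⟩
  | some s =>
    obtain ⟨x', y', h, h1, h2⟩ := h
    subst h1 h2
    cases h with
    | rise j t h1 h2 h3 =>
      simp only [Vt, es']
      refine ⟨⟨?_, ?_, ?_⟩, ⟨?_, ?_, ?_⟩⟩ <;> omega
    | fall j t h1 h2 h3 =>
      simp only [Vt, es']
      refine ⟨⟨?_, ?_, ?_⟩, ⟨?_, ?_, ?_⟩⟩ <;> omega
    | wallL s =>
      simp only [Vt, es']
      refine ⟨⟨?_, ?_, ?_⟩, ⟨?_, ?_, ?_⟩⟩ <;> omega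
    | wallR s =>
      simp only [Vt, es']
      refine ⟨⟨?_, ?_, ?_⟩, ⟨?_, ?_, ?_⟩⟩ <;> push_cast <;> omega

theorem Vt_inter (N m M : ℕ) (hN : N = m + 2 * M) (hm : 1 ≤ m) (i j : Option ℤ) (x : ℤ × ℤ)
    (h1 : Vt N m M i x) (h2 : Vt N m M j x) : i = j ∨ ∃ b : ℤ, x = (b, 0) := by
  obtain ⟨a, t⟩ := x
  cases i with
  | none =>
    cases j with
    | none => exact Or.inl rfl
    | some s =>
      right
      simp only [Vt] at h1 h2
      have : t = 0 := by omega
      exact ⟨a, by rw [this]⟩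
  | some s =>
    cases j with
    | none =>
      right
      simp only [Vt] at h1 h2
      have : t = 0 := by omega
      exact ⟨a, by rw [this]⟩
    | some s' =>
      left
      simp only [Vt] at h1 h2
      have hN1 : (N : ℤ) = m + 2 * M := by exact_mod_cast hN
      have hm1 : (1 : ℤ) ≤ m := by exact_mod_cast hm
      have hN0 : (0 : ℤ) < N := by omega
      obtain ⟨_, h3, h4⟩ := h1
      obtain ⟨_, h5, h6⟩ := h2
      have e1 : s = s' := by
        by_contra hne
        rcases lt_or_gt_of_ne hne with h | h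
        · have : (s + 1) * (N : ℤ) ≤ s' * N := by
            apply mul_le_mul_of_nonneg_right _ hN0.le
            omega
          rw [add_mul, one_mul] at this
          omega
        · have : (s' + 1) * (N : ℤ) ≤ s * N := by
            apply mul_le_mul_of_nonneg_right _ hN0.le
            omega
          rw [add_mul, one_mul] at this
          omega
      rw [e1]

theorem HS_Pt (N m M : ℕ) (ω : ℤ × ℤ → Bool) (hN : N = m + 2 * M) (hM : 1 ≤ M) (x y : ℤ × ℤ)
    (h : HS N m ω x y) : ∃ i, Pt N m M ω i x y := by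
  have hN1 : (N : ℤ) = m + 2 * M := by exact_mod_cast hN
  have hN0 : (0 : ℤ) < N := by omega
  cases h with
  | rise j t h1 h2 =>
    by_cases ht : 0 ≤ t
    · obtain ⟨t, rfl⟩ := Int.eq_ofNat_of_zero_le ht
      exact ⟨none, (j, t), (j + 1, t + 1), HB.HL.rise j t h2, rfl, by simp [eu]⟩
    · have h3 : (m : ℤ) ≤ j % N := by rcases h1 with h | h; exact absurd h ht; exact h
      have h4 : j % N < N := Int.emod_lt_of_pos _ hN0
      have h5 := Int.emod_add_mul_ediv j N
      obtain ⟨k, hk⟩ := Int.eq_ofNat_of_zero_le (show 0 ≤ j % N - m by omega)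
      refine ⟨some (j / N), (k, t), (k + 1, t + 1), SI.rise k t (by omega) (by omega) ?_, ?_, ?_⟩
      · rw [← h2]
        congr 2
        omega
      · simp only [es', Prod.mk.injEq, and_true]
        rw [mul_comm]; omega
      · simp only [es', Prod.mk.injEq, and_true]
        rw [mul_comm]; omega
  | fall j t h1 h2 =>
    by_cases ht : 0 ≤ t
    · obtain ⟨t, rfl⟩ := Int.eq_ofNat_of_zero_le ht
      exact ⟨none, (j + 1, t), (j, t + 1), HB.HL.fall j t h2, rfl, by simp [eu]⟩
    · have h3 : (m : ℤ) ≤ j % N := by rcases h1 with h | h; exact absurd h ht; exact h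
      have h4 : j % N < N := Int.emod_lt_of_pos _ hN0
      have h5 := Int.emod_add_mul_ediv j N
      obtain ⟨k, hk⟩ := Int.eq_ofNat_of_zero_le (show 0 ≤ j % N - m by omega)
      refine ⟨some (j / N), (k + 1, t), (k, t + 1), SI.fall k t (by omega) (by omega) ?_, ?_, ?_⟩
      · rw [← h2]
        congr 2
        omega
      · simp only [es', Prod.mk.injEq, and_true]
        rw [mul_comm]; omega
      · simp only [es', Prod.mk.injEq, and_true]
        rw [mul_comm]; omega
  | wallL s i =>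
    exact ⟨some s, (0, -(2 * i : ℤ)), (0, -(2 * i : ℤ) - 2), SI.wallL i, by simp [es'],
      by simp [es']⟩
  | wallR s i =>
    refine ⟨some (s - 1), ((2 * M : ℕ), -(2 * i : ℤ)), ((2 * M : ℕ), -(2 * i : ℤ) - 2),
      SI.wallR i, ?_, ?_⟩
    · simp only [es', Prod.mk.injEq, and_true]
      push_cast
      rw [hN1]; ring
    · simp only [es', Prod.mk.injEq, and_true]
      push_cast
      rw [hN1]; ring

theorem Pt_HS (N m M : ℕ) (ω : ℤ × ℤ → Bool) (hN : N = m + 2 * M) (i : Option ℤ) (x y : ℤ × ℤ)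
    (h : Pt N m M ω i x y) : HS N m ω x y := by
  have hN1 : (N : ℤ) = m + 2 * M := by exact_mod_cast hN
  have hmod : ∀ (s : ℤ) (j : ℕ), j < 2 * M → (s * N + m + j) % (N : ℤ) = m + j := by
    intro s j hj
    rw [show s * (N : ℤ) + m + j = (m + j) + N * s by ring, Int.add_mul_emod_self_left]
    exact Int.emod_eq_of_lt (by omega) (by omega)
  cases i with
  | none =>
    obtain ⟨x', y', h, h1, h2⟩ := h
    subst h1 h2
    cases h with
    | rise j t h =>
      have := HS.rise (N := N) (m := m) (ω := ω) j t (Or.inl (Int.natCast_nonneg _)) h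
      simpa [eu] using this
    | fall j t h =>
      have := HS.fall (N := N) (m := m) (ω := ω) j t (Or.inl (Int.natCast_nonneg _)) h
      simpa [eu] using this
    | wire s i h => omega
  | some s =>
    obtain ⟨x', y', h, h1, h2⟩ := h
    subst h1 h2
    cases h with
    | rise j t h1 h2 h3 =>
      have := HS.rise (N := N) (m := m) (ω := ω) (s * N + m + j) t
        (Or.inr (by rw [hmod s j h1]; omega)) (by rw [hmod s j h1]; exact h3)
      simpa [es', add_assoc] using this
    | fall j t h1 h2 h3 =>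
      have := HS.fall (N := N) (m := m) (ω := ω) (s * N + m + j) t
        (Or.inr (by rw [hmod s j h1]; omega)) (by rw [hmod s j h1]; exact h3)
      simpa [es', add_assoc] using this
    | wallL i =>
      have := HS.wallL (N := N) (m := m) (ω := ω) s i
      simpa [es', add_assoc] using this
    | wallR i =>
      have := HS.wallR (N := N) (m := m) (ω := ω) (s + 1) i
      have e : ((s + 1) * N : ℤ) = s * N + m + (2 * M : ℕ) := by
        push_cast; rw [hN1]; ring
      rw [e] at this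
      simpa [es'] using this

end TGLs

open TGLs Relation in
theorem t_GLs : S_GLs := by
  intro N m M ω hN hm hM a b
  have hιi : Function.Injective (fun a : ℤ => ((a, 0) : ℤ × ℤ)) := by
    intro a b h
    simpa using h
  constructor
  · intro h
    have h1 : EqvGen (fun x y => ∃ i, Pt N m M ω i x y) (a, 0) (b, 0) :=
      mono_eqv (fun x => x) (fun x y h => EqvGen.rel _ _ (HS_Pt N m M ω hN hM x y h)) h
    have h2 := glue (Pt N m M ω) (Vt N m M) (fun a : ℤ => ((a, 0) : ℤ × ℤ)) hιi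
      (Pt_Vt N m M ω) (Vt_inter N m M hN hm) h1
    refine mono_eqv (fun x => x) ?_ h2
    rintro a b ⟨i, h⟩
    cases i with
    | none =>
      refine EqvGen.rel _ _ (Or.inl ?_)
      exact map_eqv' (x := (a, 0)) (y := (b, 0)) eu_inj h
    | some s =>
      rcases eqv_vert (Pt_Vt N m M ω (some s)) h with h0 | ⟨v1, v2⟩
      · have : a = b := by simpa using h0
        rw [this]; exact EqvGen.refl _
      · refine EqvGen.rel _ _ (Or.inr ?_)
        simp only [Vt] at v1 v2
        obtain ⟨i, hi⟩ := Int.eq_ofNat_of_zero_le (show 0 ≤ a - (s * N + m) by omega)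
        obtain ⟨k, hk⟩ := Int.eq_ofNat_of_zero_le (show 0 ≤ b - (s * N + m) by omega)
        refine ⟨s, i, k, by omega, by omega, by omega, by omega, ?_⟩
        have ea : ((a, 0) : ℤ × ℤ) = es' (s * N + m) (i, 0) := by
          simp only [es', Prod.mk.injEq, and_true]; omega
        have eb : ((b, 0) : ℤ × ℤ) = es' (s * N + m) (k, 0) := by
          simp only [es', Prod.mk.injEq, and_true]; omega
        have h' : EqvGen (Im (SI m M ω) (es' (s * N + m))) (a, 0) (b, 0) := h
        rw [ea, eb] at h'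
        exact map_eqv' (es'_inj _) h'
  · intro h
    refine mono_eqv (fun a : ℤ => ((a, 0) : ℤ × ℤ)) ?_ h
    rintro a b (h | ⟨s, i, k, hi, hk, rfl, rfl, h⟩)
    · have := mono_eqv (s := HS N m ω) eu (fun x y h => EqvGen.rel _ _
        (Pt_HS N m M ω hN none _ _ ⟨x, y, h, rfl, rfl⟩)) h
      exact this
    · have := mono_eqv (s := HS N m ω) (es' (s * N + m)) (fun x y h => EqvGen.rel _ _
        (Pt_HS N m M ω hN (some s) _ _ ⟨x, y, h, rfl, rfl⟩)) h
      exact this

end Pool.Agent.W808.KS
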