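import Pool.Agent.W808.KS.Stm

/-!
# Two legs joined above
-/

set_option autoImplicit false

namespace Pool.Agent.W808.KS

open Pool.Agent.H863R2.Cyl
open Pool.Agent.H988R2.Perc (Word Dyck firstArc rem ins_app exists_split)
open Pool.Agent.W808.HB (bwm)

namespace TGo

/-- the operation on the Dyck word -/
theorem cons_ins {i : ℕ} {w : Word} (hi : i ≤ w.length) :
    true :: Pool.Agent.H988R2.Perc.ins i w ++ [false] =
      Pool.Agent.H988R2.Perc.ins (i + 1) (true :: w ++ [false]) := by
  obtain ⟨a, b, rfl, ha⟩ := exists_split hi
  have e : true :: (a ++ b) ++ [false] = (true :: a) ++ (b ++ [false]) := by simp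
  rw [e, ins_app a b ha, ins_app (true :: a) (b ++ [false]) (by simp [ha])]
  simp

theorem dyck_cons {w : Word} (h : Dyck w) : Dyck (true :: w ++ [false]) := by
  induction h with
  | nil => exact Dyck.ins 0 [] le_rfl Dyck.nil
  | ins i w hi _ ih =>
    rw [cons_ins hi]
    refine Dyck.ins (i + 1) _ ?_ ih
    simp only [List.length_append, List.length_cons, List.length_nil]
    omega

theorem len_ins (i : ℕ) (w : Word) :
    (Pool.Agent.H988R2.Perc.ins i w).length = w.length + 2 :=
  Pool.Agent.H988R2.Perc.length_ins i w

theorem dyck_even {w : Word} (h : Dyck w) : w.length % 2 = 0 := by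
  induction h with
  | nil => rfl
  | ins i w hi _ ih =>
    rw [len_ins]
    omega

theorem key (hGC : S_GC) {w : Word} (h : Dyck w) : ∀ (n p : ℕ) (U : Word), w.length = 2 * n →
    Ok U → U.length = p + 2 * n →
    gl (p + 2) (n + 1) (true :: w ++ [false]) (seam (lins p U)) = seam (gl p n w U) := by
  induction h with
  | nil =>
    intro n p U hn hU hl
    have hn0 : n = 0 := by simpa using hn.symm
    subst hn0
    have hl' : U.length = p := by omega
    change cap (p + 2 + 0) (seam (lins p U)) = seam U
    have e1 : (lins p U).length = p + 2 + 0 := by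
      rw [len_ins, hl']
    rw [← e1, cap_last_seam (by rw [e1]; omega), ← hl', rotr_lins_last]
  | ins i w hi hw ih =>
    intro n p U hn hU hl
    rw [len_ins] at hn
    obtain ⟨n', rfl⟩ : ∃ n', n = n' + 1 := ⟨n - 1, by omega⟩
    have hw' : w.length = 2 * n' := by omega
    have hlU : (lins p U).length = p + 2 * n' + 4 := by
      rw [len_ins, hl]
      ring
    have hlV : (seam (lins p U)).length = p + 2 * n' + 6 := by
      have h1 : (seam (lins p U)).length = (lins p U).length + 2 := by
        simp [seam]
      rw [h1, hlU]
    have e1 := hGC (p + 2) (n' + 1) (i + 1) (true :: w ++ [false]) (seam (lins p U))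
      (dyck_cons hw) (by
        simp only [List.length_append, List.length_cons, List.length_nil]
        omega) (ok_seam.2 (ok_lins.2 hU)) (by rw [hlV]; ring) (by omega)
    have e2 := hGC p n' i w U hw hw' hU (by rw [hl]; ring) (by omega)
    have e3 : cap (p + 2 + (i + 1)) (seam (lins p U)) = seam (lins p (cap (p + i) U)) := by
      have e4 : p + 2 + (i + 1) = (p + 2 + i) + 1 := by ring
      rw [e4, cap_seam (by omega), cap_lins_left (by omega) (by omega)]
      congr 3
      omega
    rw [cons_ins hi, e1, e2, e3]
    have hlc : (cap (p + i) U).length + 2 = U.length := length_cap (by omega)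
    exact ih n' p (cap (p + i) U) hw' (ok_cap hU (by omega)) (by omega)

theorem seam_inj {a b : Word} : seam a = seam b ↔ a = b := by
  unfold seam
  constructor
  · intro h
    have h1 : a ++ [true] = b ++ [true] := List.cons_injective h
    exact List.append_cancel_right h1
  · rintro rfl
    rfl

theorem bwm_succ (p : ℕ) : bwm (p + 2) = seam (bwm p) := by
  unfold bwm seam
  have e1 : (p + 2) / 2 = p / 2 + 1 := by omega
  have e2 : p + 2 - (p / 2 + 1) = (p - p / 2) + 1 := by omega
  rw [e1, e2, List.replicate_succ, List.replicate_succ' (n := p - p / 2)]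
  simp

theorem len_Us {b1 b2 m n : ℕ} {u : Word} (hu : u.length = m + n) :
    (Us b1 b2 m u).length = (m + b1 + b2) + (b1 + n + b2) := by
  unfold Us
  simp only [List.length_append, List.length_replicate, List.length_take, List.length_drop, hu]
  have : min m (m + n) = m := by omega
  rw [this]
  omega

theorem ok_Us {b1 b2 m n : ℕ} {u : Word} (hu : u.length = m + n) (h : Ok u) :
    Ok (Us b1 b2 m u) := by
  unfold Ok at h ⊢
  rw [len_Us hu]
  have h1 : (Us b1 b2 m u).count true = u.count true + b1 + b2 := by
    unfold Us
    have h2 : u.count true = (u.take m).count true + (u.drop m).count true := by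
      rw [← List.count_append, List.take_append_drop]
    simp only [List.count_append, List.count_replicate]
    rw [h2]
    simp
    omega
  rw [h1, h, hu]
  omega

theorem Us_succ {b1 b2 m n : ℕ} {u : Word} (hu : u.length = m + n) :
    Us (b1 + 1) (b2 + 1) m u = seam (lins (m + b1 + b2) (Us b1 b2 m u)) := by
  have e1 : Us b1 b2 m u = (List.replicate b2 false ++ u.take m ++ List.replicate b1 true) ++
      (List.replicate b1 false ++ u.drop m ++ List.replicate b2 true) := by
    unfold Us
    simp
  rw [e1, lins, ins_app _ _ (by
    simp only [List.length_append, List.length_replicate, List.length_take, hu]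
    omega)]
  unfold Us seam
  rw [List.replicate_succ (n := b2), List.replicate_succ (n := b1) (a := false),
    List.replicate_succ' (n := b1), List.replicate_succ' (n := b2)]
  simp

end TGo

open TGo in
theorem t_Go : S_GC → S_GI → S_Go := by
  intro hGC _ b1 b2 m n w u hw hu hwl hul
  have hev := dyck_even hw
  obtain ⟨k, hk⟩ : ∃ k, w.length = 2 * k := ⟨w.length / 2, by omega⟩
  unfold Gs
  have e1 : (true :: w ++ [false]).length / 2 = k + 1 := by
    simp only [List.length_append, List.length_cons, List.length_nil]
    omega
  have e2 : w.length / 2 = k := by omega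
  have e3 : m + (b1 + 1) + (b2 + 1) = (m + b1 + b2) + 2 := by ring
  rw [e1, e2, e3, Us_succ hul, key hGC hw k (m + b1 + b2) (Us b1 b2 m u) hk (ok_Us hul hu)
    (by rw [len_Us hul]; omega), bwm_succ, seam_inj]

end Pool.Agent.W808.KS
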