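import Pool.Agent.W808.KS.Stm

set_option autoImplicit false

namespace Pool.Agent.W808.KS
open Pool.Agent.H863R2.Cyl
open Pool.Agent.H988R2.Perc (Word PD Dyck LP Fw rainbow firstArc rem)
open Pool.Agent.W808.HB (bwm)

namespace TGt

theorem gl_ok (p : ℕ) : ∀ (n : ℕ) (w U : Word), Dyck w → w.length = 2 * n → Ok U →
    U.length = p + 2 * n → Ok (gl p n w U) ∧ (gl p n w U).length = p := by
  intro n
  induction n with
  | zero =>
    intro w U _ _ hU hl
    exact ⟨hU, by simpa [gl] using hl⟩
  | succ n ih =>
    intro w U hw hwl hU hl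
    have hne : w ≠ [] := by
      rintro rfl
      simp at hwl
    obtain ⟨h1, h2, h3⟩ := Pool.Agent.H988R2.Perc.dyck_firstArc hw hne
    have h4 : (rem (firstArc w) w).length = 2 * n := by
      have := congrArg List.length h2
      rw [Pool.Agent.H988R2.Perc.length_ins] at this
      omega
    have h5 : p + firstArc w + 2 ≤ U.length := by omega
    have h6 := length_cap h5
    exact ih _ _ h3 h4 (ok_cap hU h5) (by omega)

end TGt

theorem t_Gt : S_Gt := by
  intro m w u hw hu hm hl
  obtain ⟨n, hn⟩ := (Pool.Agent.H988R2.Perc.dyck_even hw).two_dvd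
  unfold Gs
  have hU : Us 0 0 m u = u := by simp [Us]
  rw [hU]
  have h1 := TGt.gl_ok (m + 0 + 0) (w.length / 2) w u hw (by omega) hu (by omega)
  generalize gl (m + 0 + 0) (w.length / 2) w u = r at h1
  obtain ⟨h2, h3⟩ := h1
  interval_cases m
  · have : r = [] := List.length_eq_zero_iff.1 (by simpa using h3)
    rw [this]
    rfl
  · obtain ⟨x, rfl⟩ := List.length_eq_one_iff.1 (by simpa using h3 : r.length = 1)
    cases x
    · exfalso
      unfold Ok at h2
      simp at h2
    · rfl

end Pool.Agent.W808.KS
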