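import Pool.Agent.W808.KS.Defs

/-!
# Legs at the tip of a slit: the steps
(every step is a `Prop`; the file `T_X.lean` proves `t_X` from its hypotheses)
-/

set_option autoImplicit false

namespace Pool.Agent.W808.KS
open Pool.Agent.H863R2.Cyl
open Pool.Agent.H988R2.Perc (Word PD Dyck LP Fw rainbow firstArc rem)
open Pool.Agent.H988R2.Perc.T10 (pairs fA fB)
open Pool.Agent.H160R2.ML (pfq Gn)
open Pool.Agent.W808.HB (bwm prs Xf Yf vdx wdx bet xY)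
open Filter Topology MeasureTheory

/-! ## W: words -/

/-- the arcs can be closed in any order -/
def S_GC : Prop := ∀ (p n i : ℕ) (w U : Word), Dyck w → w.length = 2 * n → Ok U →
  U.length = p + 2 * n + 2 → i ≤ 2 * n →
  gl p (n + 1) (Pool.Agent.H988R2.Perc.ins i w) U = gl p n w (cap (p + i) U)

/-- an arc of the lower word -/
def S_GI : Prop := ∀ (p n i : ℕ) (w U : Word), Dyck w → w.length = 2 * n + 2 → Ok U →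
  U.length = p + 2 * n → i ≤ 2 * n →
  gl p (n + 1) w (lins (p + i) U) = gl p n (Pool.Agent.H988R2.Perc.cap i w) U

/-- arcs between legs -/
def S_Gz : Prop := ∀ (b1 b2 m n i : ℕ) (w u : Word), Dyck w → Ok u →
  (w.length = b1 + n + b2 → u.length + 2 = m + n → i + 2 ≤ m → ¬ Gs b1 b2 m w (lins i u)) ∧
  (w.length + 2 = b1 + n + b2 → u.length = m + n → i ≤ w.length → (i + 2 ≤ b1 ∨ b1 + n ≤ i) →
    ¬ Gs b1 b2 m (Pool.Agent.H988R2.Perc.ins i w) u)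

/-- arcs between the other strands -/
def S_Gm : Prop := ∀ (b1 b2 m n i : ℕ) (w u : Word), Dyck w → Ok u → i + 2 ≤ n →
  (w.length = b1 + n + b2 → u.length + 2 = m + n →
    (Gs b1 b2 m w (lins (m + i) u) ↔ Gs b1 b2 m (Pool.Agent.H988R2.Perc.cap (b1 + i) w) u)) ∧
  (w.length + 2 = b1 + n + b2 → u.length = m + n →
    (Gs b1 b2 m (Pool.Agent.H988R2.Perc.ins (b1 + i) w) u ↔ Gs b1 b2 m w (cap (m + i) u)))

/-- arcs between a leg and another strand -/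
def S_Gv : Prop := ∀ (b1 b2 m n : ℕ) (w u : Word), Dyck w → Ok u →
  (w.length = b1 + n + 1 + b2 → u.length = m + n →
    (Gs b1 b2 (m + 1) w (lins m u) ↔ Gs (b1 + 1) b2 m w u) ∧
    (Gs b1 b2 (m + 1) w (seam u) ↔ Gs b1 (b2 + 1) m w u)) ∧
  (w.length = b1 + n + b2 → u.length = m + n + 1 →
    (Gs (b1 + 1) b2 m (Pool.Agent.H988R2.Perc.ins b1 w) u ↔ Gs b1 b2 (m + 1) w u) ∧
    (Gs b1 (b2 + 1) m (Pool.Agent.H988R2.Perc.ins (b1 + n) w) u ↔ Gs b1 b2 (m + 1) w (rotr u)))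

/-- no other strands -/
def S_G0 : Prop := ∀ (b1 b2 m : ℕ) (w u : Word), Dyck w → Ok u → w.length = b1 + b2 → u.length = m →
  (Gs b1 b2 m w u ↔ b1 = b2 ∧ w = rainbow b1 ∧ u = bwm m)

/-- at most one leg -/
def S_Gt : Prop := ∀ (m : ℕ) (w u : Word), Dyck w → Ok u → m ≤ 1 → u.length = m + w.length →
  Gs 0 0 m w u

/-- two legs joined above -/
def S_Go : Prop := ∀ (b1 b2 m n : ℕ) (w u : Word), Dyck w → Ok u → w.length = b1 + n + b2 →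
  u.length = m + n → (Gs (b1 + 1) (b2 + 1) m (true :: w ++ [false]) u ↔ Gs b1 b2 m w u)

/-! ## K: the braid limits -/

/-- rotation (`r` is one of the two cube roots of unity) -/
def S_KR : Prop := ∀ (r : ℂ) (K : VW →ₗ[ℂ] VW), r ^ 2 + r + 1 = 0 → KSpec r K → ∀ (N : ℕ) (v : VW),
  v ∈ VN N → K (lin rotr v) = -(r ^ 2 • lin rotr (K v) + r • lin (act 0) (lin rotr (K v)))

/-- the leg functional and `K` -/
def S_KW : Prop := ∀ (r : ℂ) (K : VW →ₗ[ℂ] VW), r ^ 2 + r + 1 = 0 → KSpec r K →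
  ∀ (b1 b2 m n : ℕ) (w : Word) (v : VW), Dyck w → w.length = b1 + n + b2 → v ∈ VN (m + n) →
  (n = 0 ∨ m + b1 + b2 ≠ 1) →
  es b1 b2 (m + 1) w (K v) = cK r (m + b1 + b2) b2 * es b1 b2 m w v

/-- the family at `q²` -/
def S_FS : Prop := ∀ Ψ : List ℂ → VW, Fam q Ψ → ∃ Ψ' : List ℂ → VW, Fam (q ^ 2) Ψ' ∧
  ∀ z : List ℂ, (∀ x ∈ z, x ≠ 0) →
    Ψ' z = (q ^ (z.length / 2) * z.prod ^ (z.length - 1)) • Ψ (z.map (fun x => x⁻¹))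

/-- the leading coefficient in the first variable -/
def S_LC : Prop := ∀ (Ψ : List ℂ → VW) (K' : VW →ₗ[ℂ] VW), Fam q Ψ → KSpec (q ^ 2) K' →
  ∀ l : List ℂ, (∀ x ∈ l, x ≠ 0) → ∀ w : Word, ∃ P : Polynomial ℂ, P.natDegree ≤ l.length ∧
    (∀ a, P.eval a = Ψ (a :: l) w) ∧
    P.coeff l.length = (if Even l.length then 1 else q ^ 2) * K' (Ψ l) w

/-- two zeros in the strip -/
def S_F00 : Prop := ∀ (L : ℕ) (w : Word) (y : List ℂ), w ∈ LP (2 * L + 2) → y.length = 2 * L →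
  Fw w (0 :: y ++ [0]) = q ^ (2 * L) * y.prod *
    ∑ w' ∈ LP (2 * L), if true :: w' ++ [false] = w then Fw w' y else 0

/-! ## H: the partition function -/

/-- exchange of legs -/
def S_exA : Prop := ∀ Ψ : List ℂ → VW, Fam q Ψ → ∀ (u v B1 B2 z : List ℂ) (x y : ℂ),
  Even (B1.length + z.length + B2.length) →
  (q * y - q ^ 2 * x) * HH Ψ (u ++ y :: x :: v) B1 B2 z =
    (q * x - q ^ 2 * y) * HH Ψ (u ++ x :: y :: v) B1 B2 z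

def S_exB : Prop := ∀ Ψ : List ℂ → VW, Fam q Ψ → ∀ (A u v B z : List ℂ) (x y : ℂ),
  Even (u.length + v.length + z.length + B.length) →
  (q * x - q ^ 2 * y) * HH Ψ A (u ++ y :: x :: v) B z =
    (q * y - q ^ 2 * x) * HH Ψ A (u ++ x :: y :: v) B z ∧
  (q * x - q ^ 2 * y) * HH Ψ A B (u ++ y :: x :: v) z =
    (q * y - q ^ 2 * x) * HH Ψ A B (u ++ x :: y :: v) z

/-- symmetry in the other strands -/
def S_sz : Prop := ∀ Ψ : List ℂ → VW, Fam q Ψ → ∀ (A B1 B2 z z' : List ℂ),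
  Even (B1.length + z.length + B2.length) → z.Perm z' → Gn z → HH Ψ A B1 B2 z = HH Ψ A B1 B2 z'

/-- recursions at the legs below -/
def S_nA : Prop := ∀ Ψ : List ℂ → VW, Fam q Ψ → ∀ (A B1 B2 z : List ℂ) (a : ℂ),
  Even (B1.length + z.length + 1 + B2.length) →
  HH Ψ (A ++ [a]) B1 B2 ((q * a) :: z) = fac q a (A ++ z) * HH Ψ A (B1 ++ [q * a]) B2 z ∧
  HH Ψ ((q * a) :: A) B1 B2 (z ++ [a]) = fac q a (A ++ z) * HH Ψ A B1 (a :: B2) z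

/-- recursions at the legs above -/
def S_nB : Prop := ∀ Ψ : List ℂ → VW, Fam q Ψ → ∀ (A B1 B2 z : List ℂ) (b : ℂ),
  Even (B1.length + z.length + B2.length) →
  HH Ψ A (B1 ++ [b]) B2 ((q ^ 2 * b) :: z) =
    Pool.Agent.H988R2.Perc.fac b (B1 ++ z ++ B2) * HH Ψ (A ++ [q ^ 2 * b]) B1 B2 z ∧
  HH Ψ A B1 ((q ^ 2 * b) :: B2) (z ++ [b]) =
    Pool.Agent.H988R2.Perc.fac b (B1 ++ z ++ B2) * HH Ψ (b :: A) B1 B2 z

/-- polynomial in every leg below -/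
def S_dg : Prop := ∀ Ψ : List ℂ → VW, Fam q Ψ → ∀ (u v B1 B2 z : List ℂ),
  ∃ P : Polynomial ℂ, P.natDegree ≤ u.length + v.length + z.length ∧
    ∀ x, P.eval x = HH Ψ (u ++ x :: v) B1 B2 z

/-- one leg (the case excluded in `S_KW`) -/
def S_D1 : Prop := ∀ (Ψ : List ℂ → VW) (r : ℂ) (K : VW →ₗ[ℂ] VW), Fam q Ψ → r ^ 2 + r + 1 = 0 →
  KSpec r K → ∀ (a : ℂ) (z : List ℂ), Even z.length →
  HV (K (Ψ (a :: z))) 2 [] [] z = cK r 1 0 * HH Ψ [a] [] [] z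

/-- decoupling of a leg -/
def S_DE : Prop := ∀ (Ψ : List ℂ → VW) (r : ℂ) (K : VW →ₗ[ℂ] VW), Fam q Ψ → r ^ 2 + r + 1 = 0 →
  KSpec r K → ∀ (A B1 B2 z : List ℂ), B1.length = B2.length → Even z.length →
  HV (K (Ψ (A ++ z))) (A.length + 1) B1 B2 z =
    cK r (A.length + B1.length + B2.length) B2.length * HH Ψ A B1 B2 z

/-- two legs below: quotient by `pfq` -/
def S_RU : Prop := ∀ Ψ : List ℂ → VW, Fam q Ψ → ∀ (A B1 B2 z : List ℂ),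
  Even (B1.length + z.length + B2.length) → Gn A →
  ∃ R : ℕ → ℕ → ℂ, (∀ i j, R i j = R j i) ∧ ∀ u v : ℂ,
    HH Ψ (v :: A ++ [u]) B1 B2 z = pfq q (v :: A ++ [u]) *
      ∑ i ∈ Finset.range (z.length + 1), ∑ j ∈ Finset.range (z.length + 1), R i j * u ^ i * v ^ j

/-- two legs above, at both sides: quotient -/
def S_RV : Prop := ∀ Ψ : List ℂ → VW, Fam q Ψ → ∀ (A B1 B2 z : List ℂ), B1.length = B2.length →
  Even z.length → Gn (prs B1) → Gn (prs B2) →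
  ∃ R : ℕ → ℕ → ℂ, (∀ i j, i ≤ z.length → R (z.length - i) j = R i j) ∧
    (∀ i j, j ≤ z.length → R i (z.length - j) = R i j) ∧ ∀ u v : ℂ,
    HH Ψ A (B1 ++ [u]) (v :: B2) z = pairs fA (B1 ++ [u]) * pairs fB (v :: B2) *
      ∑ i ∈ Finset.range (z.length + 1), ∑ j ∈ Finset.range (z.length + 1), R i j * u ^ i * v ^ j

/-- a pair of legs `a⁻¹`, `a` below -/
def S_QA : Prop := ∀ Ψ : List ℂ → VW, Fam q Ψ → ∀ (A B1 B2 z : List ℂ), B1.length = B2.length →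
  Even z.length → Gn A → (∀ x ∈ z, x ≠ 0) →
  ∃ Q : Polynomial ℂ, Q.natDegree ≤ z.length ∧
    (∀ a, a ≠ 0 → HH Ψ (a⁻¹ :: A ++ [a]) B1 B2 z = pfq q (a⁻¹ :: A ++ [a]) * Q.eval (Xf a)) ∧
    Q.coeff z.length * ((q - 1) * (-1) ^ A.length * pfq q A) = z.prod * HH Ψ A B1 B2 z

/-- a pair of legs `b`, `b⁻¹` above -/
def S_QB : Prop := ∀ Ψ : List ℂ → VW, Fam q Ψ → ∀ (A B z : List ℂ), Even z.length → Gn (prs B) →
  ∃ Q : Polynomial ℂ, Q.natDegree ≤ z.length ∧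
    (∀ b, b ≠ 0 → HH Ψ A (B ++ [b]) (b⁻¹ :: rv B) z =
      pairs fA (B ++ [b]) * pairs fB (b⁻¹ :: rv B) * Q.eval (Xf b)) ∧
    Q.coeff z.length * (pairs fA B * pairs fB (rv B)) =
      q ^ z.length * z.prod * HH Ψ A B (rv B) z

/-! ## T: the determinants -/

/-- polynomial in a leg; symmetric -/
def S_TP : Prop := ∀ (g : ℂ → ℂ) (C : List ℂ) (M : ℕ) (y : Fin M → ℂ),
  (∃ P : Polynomial ℂ, P.natDegree ≤ M ∧ (∀ c, P.eval (Xf c) = DT g (c :: C) y) ∧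
    P.coeff M = DT g C y) ∧
  (∀ C', C.Perm C' → DT g C y = DT g C' y) ∧
  (∀ s : Equiv.Perm (Fin M), DT g C (y ∘ s) = DT g C y) ∧
  (∀ i, y i ≠ 0 → DT g C (Function.update y i (y i)⁻¹) = DT g C y)

/-- recursion -/
def S_TR : Prop := ∀ (g : ℂ → ℂ) (C : List ℂ) (c0 : ℂ) (M : ℕ) (y0 : ℂ) (y : Fin M → ℂ),
  Gn (prs (y0 ^ 2 :: List.ofFn (sq y))) → Xf c0 = Yf q (y0 ^ 2) →
  DT g (c0 :: C) (Fin.cons y0 y : Fin (M + 1) → ℂ) * (Xf (y0 ^ 2) - Yf q (y0 ^ 2)) *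
      ∏ j, (Xf (y j ^ 2) - Yf q (y0 ^ 2)) ^ 2
    = g y0 * (Yf q (y0 ^ 2) - Yf q (y0 ^ 2)⁻¹) * lam C (y0 ^ 2) *
      (∏ j, (Xf (y0 ^ 2) - Xf (y j ^ 2)) ^ 2) * DT g (y0 ^ 2 :: C) y

/-- recursion of the formula: legs below (`a = q² x₀`) -/
def S_RA : Prop := ∀ (ε : ℕ) (A B : List ℂ) (M : ℕ) (y0 : ℂ) (y : Fin M → ℂ), ε ≤ 1 →
  Gn (prs (A ++ B ++ y0 ^ 2 :: List.ofFn (sq y))) →
  Rf ε ((q ^ 2 * y0 ^ 2) :: A) B (Fin.cons y0 y : Fin (M + 1) → ℂ) =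
    fac q (q ^ 2 * y0 ^ 2)
        ((q * (y0 ^ 2)⁻¹) :: symA ε A ++ (prs (List.ofFn (sq y)) ++ [(y0 ^ 2)⁻¹])) *
      fac q (y0 ^ 2)⁻¹ (symA ε A ++ prs (List.ofFn (sq y))) *
      (∏ j, (Xf (y0 ^ 2) - Xf (y j ^ 2)) ^ 8) * Rf ε A (B ++ [y0 ^ 2]) y

/-- recursion of the formula: legs above (`b = q x₀`) -/
def S_RB : Prop := ∀ (ε : ℕ) (A B : List ℂ) (M : ℕ) (y0 : ℂ) (y : Fin M → ℂ), ε ≤ 1 →
  Gn (prs (A ++ B ++ y0 ^ 2 :: List.ofFn (sq y))) →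
  Rf ε A (B ++ [q * y0 ^ 2]) (Fin.cons y0 y : Fin (M + 1) → ℂ) =
    Pool.Agent.H988R2.Perc.fac (q * y0 ^ 2)
        (B ++ (prs (List.ofFn (sq y)) ++ [(y0 ^ 2)⁻¹]) ++ (q ^ 2 * (y0 ^ 2)⁻¹) :: rv B) *
      Pool.Agent.H988R2.Perc.fac (y0 ^ 2)⁻¹ (B ++ prs (List.ofFn (sq y)) ++ rv B) *
      (∏ j, (Xf (y0 ^ 2) - Xf (y j ^ 2)) ^ 8) * Rf ε (y0 ^ 2 :: A) B y

/-- identities without legs -/
def S_TT : Prop := ∀ (M : ℕ) (y : Fin M → ℂ), Gn (prs (List.ofFn (sq y))) →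
  HB.TT q [] (sq y) = (-q) ^ M * DT (g2 0) [] y ∧
  KC.TT [] (sq y) = DT (g1 0) [] y ∧
  HB.TT q [1] (sq y) * KC.TT [] (sq y) = DT (g1 1) [] y * DT (g2 1) [] y

/-- the strip -/
def S_ZS : Prop := ∀ (M : ℕ) (x : Fin M → ℂ), Gn (prs (List.ofFn x)) →
  Zs (prs (List.ofFn x)) * vdx x ^ 2 = (q - 1) ^ M * q ^ M ^ 2 * wdx x * KC.TT [] x

/-- no legs (or the leg `1`) -/
def S_B0 : Prop := ∀ Ψ : List ℂ → VW, Fam q Ψ → ∀ (ε M : ℕ) (y : Fin M → ℂ), ε ≤ 1 →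
  Gn (prs (List.ofFn (sq y))) →
  HH Ψ (symA ε []) [] [] (prs (List.ofFn (sq y))) * vdx (sq y) ^ 4 = Rf ε [] [] y

/-- no other strands -/
def S_B1 : Prop := ∀ Ψ : List ℂ → VW, Fam q Ψ → ∀ (ε : ℕ) (A B : List ℂ) (y : Fin 0 → ℂ), ε ≤ 1 →
  Gn (prs (A ++ B)) → HH Ψ (symA ε A) B (rv B) [] = Rf ε A B y

/-- the exact formula for given numbers of legs and pairs -/
def Cl (ε k l M : ℕ) : Prop := ∀ Ψ : List ℂ → VW, Fam q Ψ → ∀ (A B : List ℂ) (y : Fin M → ℂ),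
  A.length = k → B.length = l → Gn (prs (A ++ B ++ List.ofFn (sq y))) →
  HH Ψ (symA ε A) B (rv B) (prs (List.ofFn (sq y))) * vdx (sq y) ^ 4 = Rf ε A B y

/-- one more leg `a` below -/
def S_MA : Prop := ∀ ε k l M : ℕ, ε ≤ 1 → Cl ε k (l + 1) M → Cl ε k l (M + 1) →
  Cl ε (k + 1) l (M + 1)

/-- one more leg `b` above -/
def S_MB : Prop := ∀ ε k l M : ℕ, ε ≤ 1 → Cl ε (k + 1) l M → Cl ε k l (M + 1) →
  Cl ε k (l + 1) (M + 1)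

/-- **the exact formula** (generic parameters) -/
def S_M1 : Prop := ∀ Ψ : List ℂ → VW, Fam q Ψ → ∀ (ε : ℕ) (A B : List ℂ) (M : ℕ) (y : Fin M → ℂ),
  ε ≤ 1 → Gn (prs (A ++ B ++ List.ofFn (sq y))) →
  HH Ψ (symA ε A) B (rv B) (prs (List.ofFn (sq y))) * vdx (sq y) ^ 4 = Rf ε A B y

/-- the same for arbitrary legs below -/
def S_M2 : Prop := ∀ Ψ : List ℂ → VW, Fam q Ψ → ∀ (ε : ℕ) (A : List ℂ) (M : ℕ) (y : Fin M → ℂ),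
  ε ≤ 1 → (∀ a ∈ A, a ≠ 0) → Gn (prs (List.ofFn (sq y))) →
  HH Ψ (symA ε A) [] [] (prs (List.ofFn (sq y))) * vdx (sq y) ^ 4 = Rf ε A [] y

/-! ## L: the homogeneous limit -/

/-- the determinants in the variables `T` -/
def S_TKs : Prop := ∀ (ε k M : ℕ) (T : Fin M → ℝ) (y : Fin M → ℂ), ε ≤ 1 → (∀ i, 0 < T i) →
  (∀ i, T i ≠ 1) → (∀ i, y i ^ 2 = xY q ((T i : ℂ) ^ 2)) →
  (∀ i j, 1 - bet ((T i : ℂ) ^ 2) * ((T j : ℂ) ^ 2 * ((T j : ℂ) ^ 2 - 1)) ≠ 0) →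
  (∀ i j, 1 - bet ((T i : ℂ) ^ 2) * ((T j : ℂ)⁻¹ ^ 2 * ((T j : ℂ)⁻¹ ^ 2 - 1)) ≠ 0) →
  DT (g1 ε) (List.replicate k 1) y * DT (g2 ε) (List.replicate k 1) y *
      ∏ j, (1 + bet ((T j : ℂ) ^ 2)) ^ (2 * k + ε)
    = (q ^ 2 / (q - 1) * 9 ^ k * (-3 * q) ^ ε) ^ M * (∏ j, (1 - 2 * bet ((T j : ℂ) ^ 2)) ^ 2) *
      (∏ j, (1 + bet ((T j : ℂ) ^ 2))) *
      ((Matrix.of fun i j : Fin M => K1 ε k (bet ((T i : ℂ) ^ 2)) (T j)).det *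
        (Matrix.of fun i j : Fin M => K2 ε k (bet ((T i : ℂ) ^ 2)) (T j)).det)

/-- limits of the determinants -/
def S_KLs : Prop := ∀ ε k M : ℕ, ε ≤ 1 →
  Tendsto (fun t : ℝ =>
      (Matrix.of fun i j : Fin M => K1 ε k (bet (Tv t i ^ 2)) (Tv t j)).det
        / (Matrix.vandermonde (fun i : Fin M => bet (Tv t i ^ 2))).det ^ 2) (𝓝[>] 0)
    (𝓝 (V1 ε k M : ℂ)) ∧
  (1 ≤ M → Tendsto (fun t : ℝ =>
      (Matrix.of fun i j : Fin M => K2 ε k (bet (Tv t i ^ 2)) (Tv t j)).det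
        / (Matrix.vandermonde (fun i : Fin M => bet (Tv t i ^ 2))).det ^ 2) (𝓝[>] 0)
    (𝓝 ((if ε = 0 then 2 else 1) * (V2 ε k (M - 1) : ℂ))))

/-- evaluation -/
def S_VV : Prop := ∀ k M : ℕ,
  V1 0 k M = CR ((k : ℝ) + 1) M ∧ (1 ≤ k → V1 1 k M = 2 ^ M * CR ((k : ℝ) + 3 / 2) M) ∧
  V2 0 k M = 2 ^ M * CR ((k : ℝ) + 5 / 2) M ∧ V2 1 k M = CR ((k : ℝ) + 3) M

/-- the homogeneous value -/
def S_HVs : Prop := ∀ Ψ : List ℂ → VW, Fam q Ψ → ∀ m M : ℕ, 2 ≤ m → 1 ≤ M →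
  ‖HH Ψ (List.replicate m 1) [] [] (List.replicate (2 * M) 1)‖ =
    Psl m M * (‖tot (Ψ (List.replicate (m + 2 * M) 1))‖ * ‖Zs (List.replicate (2 * M) 1)‖)

/-- asymptotics -/
def S_ASs : Prop := ∀ m : ℕ, 2 ≤ m → ∃ c C : ℝ, 0 < c ∧ 0 < C ∧ ∀ M : ℕ, 1 ≤ M →
  c * (M : ℝ) ^ (-((m : ℝ) * (m - 1) / 12)) ≤ Psl m M ∧
  Psl m M ≤ C * (M : ℝ) ^ (-((m : ℝ) * (m - 1) / 12))

/-! ## P: probability -/

/-- words and connections -/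
def S_WGs : Prop := ∀ (m M : ℕ) (u w : Word), Ok u → Dyck w → u.length = m + 2 * M →
  w.length = 2 * M → 1 ≤ u.length →
  (Gs 0 0 m w u ↔ HB.Sec m u.length (Relation.EqvGen (Ls u.length m u w)))

/-- the finite strip -/
def S_SFs : Prop := ∀ (m M K : ℕ) (ω : ℤ × ℤ → Bool), 1 ≤ M →
  KC.XW (2 * M) (cT m K ω) (KC.w0 M) K ∈ LP (2 * M) ∧
  ∀ a b : ℕ, a ≤ 2 * M → b ≤ 2 * M →
    (KC.Fc (KC.XW (2 * M) (cT m K ω) (KC.w0 M) K) a b ↔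
      Relation.EqvGen (SF m M K ω) ((a : ℤ), 0) ((b : ℤ), 0))

/-- an alternating row decides the connections of the half-infinite strip -/
def S_SIs : Prop := ∀ (m M K s : ℕ) (ω : ℤ × ℤ → Bool), 1 ≤ M → s < K →
  AltS m M ω (-(2 * s : ℤ) - 1) → ∀ a b : ℕ, a ≤ 2 * M → b ≤ 2 * M →
    (KC.Fc (KC.XW (2 * M) (cT m K ω) (KC.w0 M) K) a b ↔
      Relation.EqvGen (SI m M ω) ((a : ℤ), 0) ((b : ℤ), 0))

/-- the two halves -/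
def S_GLs : Prop := ∀ (N m M : ℕ) (ω : ℤ × ℤ → Bool), N = m + 2 * M → 1 ≤ m → 1 ≤ M → ∀ a b : ℤ,
  Relation.EqvGen (HS N m ω) (a, 0) (b, 0) ↔
    Relation.EqvGen (fun a b : ℤ => Relation.EqvGen (HB.HL N N (lowH ω)) (a, 0) (b, 0) ∨
      ∃ (s : ℤ) (i k : ℕ), i ≤ 2 * M ∧ k ≤ 2 * M ∧ a = s * N + m + i ∧ b = s * N + m + k ∧
        Relation.EqvGen (SI m M ω) ((i : ℤ), 0) ((k : ℤ), 0)) a b

/-- the leg event and the words -/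
def S_Y1 : Prop := ∀ (n m M K L s t : ℕ) (ω : ℤ × ℤ → Bool), n + 1 = m + 2 * M → 1 ≤ m → 1 ≤ M →
  s < K → AltS m M ω (-(2 * s : ℤ) - 1) → t < L → HB.Alt (n + 1) (lowH ω) t →
  ∀ σ : Wd (n + 1), LegS (n + 1) m ω ↔
    Gs 0 0 m (KC.XW (2 * M) (cT m K ω) (KC.w0 M) K) (rows n (HB.crow (n + 1) L (lowH ω)) L σ).1

/-- averaging over the rows of both halves -/
def S_Y2 : Prop := ∀ (n m M K L : ℕ), n + 1 = m + 2 * M → 1 ≤ M → ∀ μ : Wd (n + 1) → ℝ,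
  (∀ σ, ∑ c : Fin (n + 1) → Bool, push (Tc n c) μ σ = 2 ^ (n + 1) * μ σ) →
  ∑ σ, μ σ * coinsZ.real {ω | Gs 0 0 m (KC.XW (2 * M) (cT m K ω) (KC.w0 M) K)
      (rows n (HB.crow (n + 1) L (lowH ω)) L σ).1}
    = ∑ σ : Wd (n + 1), ∑ w ∈ LP (2 * M),
      μ σ * KC.lawW M K w * (if Gs 0 0 m w σ.1 then 1 else 0)

/-- alternating rows exist -/
def S_Y3 : Prop := ∀ (m M N : ℕ) (ε : ℝ), 0 < ε → ∃ L : ℕ, ∀ K : ℕ, L ≤ K →
  coinsZ.real {ω | ¬ ((∃ t < L, HB.Alt N (lowH ω) t) ∧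
    ∃ s < K, AltS m M ω (-(2 * s : ℤ) - 1))} ≤ ε

/-- the stationary probability of the leg event -/
def S_PWs : Prop := ∀ n m M : ℕ, n + 1 = m + 2 * M → 2 ≤ m → 1 ≤ M → ∀ μ : Wd (n + 1) → ℝ,
  (∀ σ, 0 ≤ μ σ) → ∑ σ, μ σ = 1 →
  (∀ σ, ∑ c : Fin (n + 1) → Bool, push (Tc n c) μ σ = 2 ^ (n + 1) * μ σ) →
  Tendsto (fun K => ∑ σ : Wd (n + 1), ∑ w ∈ LP (2 * M),
      μ σ * KC.lawW M K w * (if Gs 0 0 m w σ.1 then 1 else 0)) atTop (𝓝 (Psl m M))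

/-- **the exact probability** -/
def S_LAW : Prop := ∀ m M : ℕ, 2 ≤ m → 1 ≤ M →
  coinsZ.real {ω | LegS (m + 2 * M) m ω} = Psl m M

/-! ## B: the slit plane -/

/-- deterministic comparison -/
def S_Bd : Prop := ∀ (N m R : ℕ), 1 ≤ m → m ≤ R → 4 * R + 2 * m ≤ N → ∀ ω : ℤ × ℤ → Bool,
  LegS N m ω → SArm m R (fun p => ω (p.1 % N, p.2))

def S_Bc : Prop := ∀ (N m R : ℕ), 4 * R + 2 * m ≤ N →
  coinsZ.real {ω | SArm m R (fun p => ω (p.1 % N, p.2))} = coinsZ.real {ω | SArm m R ω}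

/-- **lower bound in the slit plane** -/
def S_LBs : Prop := ∀ m : ℕ, 2 ≤ m → ∃ c : ℝ, 0 < c ∧ ∀ R : ℕ, m ≤ R →
  c * (R : ℝ) ^ (-((m : ℝ) * (m - 1) / 12)) ≤ coinsZ.real {ω | SArm m R ω}

end Pool.Agent.W808.KS
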