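import Pool.Agent.H863R2.Cyl.Lst
import Pool.Agent.H863R2.Cyl.Lst2
import Pool.Agent.W808.KS.Stm

/-! KS-Gv: arcs between a leg and another strand. -/

set_option autoImplicit false

namespace Pool.Agent.W808.KS
open Pool.Agent.H863R2.Cyl
open Pool.Agent.H988R2.Perc (Word Dyck flipR flipL)
open Pool.Agent.W808.HB (bwm)

namespace TGv

theorem flipL_repF (n : ℕ) : ∀ (d : ℕ) (s : Word),
    flipL d (List.replicate n false ++ s) = List.replicate n false ++ flipL (d + n) s := by
  induction n with
  | zero => intro d s; rfl
  | succ n ih =>
    intro d s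
    rw [List.replicate_succ, List.cons_append, flipL, ih, List.cons_append]
    congr 3
    omega

theorem flipL_repT (n : ℕ) : ∀ (d : ℕ) (s : Word),
    flipL (d + n) (List.replicate n true ++ s) = List.replicate n true ++ flipL d s := by
  induction n with
  | zero => intro d s; rfl
  | succ n ih =>
    intro d s
    rw [List.replicate_succ, List.cons_append, ← add_assoc, flipL, ih, List.cons_append]

theorem flipR_repT (n : ℕ) : ∀ (d : ℕ) (s : Word),
    flipR d (List.replicate n true ++ s) = List.replicate n true ++ flipR (d + n) s := by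
  induction n with
  | zero => intro d s; rfl
  | succ n ih =>
    intro d s
    rw [List.replicate_succ, List.cons_append, flipR, ih, List.cons_append]
    congr 3
    omega

theorem flipR_repF (n : ℕ) : ∀ (d : ℕ) (s : Word),
    flipR (d + n) (List.replicate n false ++ s) = List.replicate n false ++ flipR d s := by
  induction n with
  | zero => intro d s; rfl
  | succ n ih =>
    intro d s
    rw [List.replicate_succ, List.cons_append, ← add_assoc, flipR, ih, List.cons_append]

theorem cap_FT {i : ℕ} (a b : Word) (h : a.length = i) :
    Pool.Agent.H863R2.Cyl.cap i (a ++ false :: true :: b) = a ++ b := by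
  rw [L2Aux.cap_app _ _ _ _ h, L2Aux.flipC_FT, L2Aux.rotate_app _ _ rfl]

theorem cap_FF {i k : ℕ} (c b : Word) (h : c.length + 1 + k + k = i) :
    Pool.Agent.H863R2.Cyl.cap i
      ((c ++ true :: (List.replicate k true ++ List.replicate k false)) ++ false :: false :: b) =
      (c ++ false :: (List.replicate k true ++ List.replicate k false)) ++ b := by
  rw [L2Aux.cap_app _ _ _ _ (by simp; omega), L2Aux.flipC_FF]
  have e1 : (b ++ (c ++ true :: (List.replicate k true ++ List.replicate k false))).reverse =
      List.replicate k false ++ (List.replicate k true ++ true :: (c.reverse ++ b.reverse)) := by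
    simp
  have e2 : flipL 0 (List.replicate k false ++ (List.replicate k true ++ true ::
      (c.reverse ++ b.reverse))) =
      List.replicate k false ++ (List.replicate k true ++ false :: (c.reverse ++ b.reverse)) := by
    rw [flipL_repF, flipL_repT, flipL]
  rw [e1, e2]
  have e3 : (List.replicate k false ++ (List.replicate k true ++ false ::
      (c.reverse ++ b.reverse))).reverse =
      b ++ (c ++ false :: (List.replicate k true ++ List.replicate k false)) := by
    simp
  rw [e3, L2Aux.rotate_app _ _ rfl]

theorem cap_TT {i k : ℕ} (c : Word) (h : k + 1 + c.length = i) :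
    Pool.Agent.H863R2.Cyl.cap i
      ((List.replicate k false ++ false :: c) ++ true :: true :: List.replicate k true) =
      (List.replicate k false ++ true :: c) ++ List.replicate k true := by
  rw [L2Aux.cap_app _ _ _ _ (by simp; omega), L2Aux.flipC_TT]
  have e2 : flipR 0 (List.replicate k true ++ (List.replicate k false ++ false :: c)) =
      List.replicate k true ++ (List.replicate k false ++ true :: c) := by
    rw [flipR_repT, flipR_repF, flipR]
  rw [e2, L2Aux.rotate_app _ _ rfl]

theorem ok_Us (b1 b2 m : ℕ) (u : Word) : Ok (Us b1 b2 m u) ↔ Ok u := by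
  unfold Ok Us
  have h2 : u.count true = (u.take m).count true + (u.drop m).count true := by
    rw [← List.count_append, List.take_append_drop]
  have h3 : u.length = (u.take m).length + (u.drop m).length := by
    rw [← List.length_append, List.take_append_drop]
  simp only [List.count_append, List.length_append, List.length_replicate, List.count_replicate]
  rw [h2, h3]
  simp
  omega

theorem length_Us (b1 b2 m : ℕ) (u : Word) :
    (Us b1 b2 m u).length = u.length + 2 * b1 + 2 * b2 := by
  unfold Us
  have h3 : u.length = (u.take m).length + (u.drop m).length := by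
    rw [← List.length_append, List.take_append_drop]
  simp only [List.length_append, List.length_replicate]
  omega

theorem take_drop {m : ℕ} {u : Word} (h : m < u.length) :
    ∃ (a b : Word) (x : Bool), u = a ++ x :: b ∧ a.length = m := by
  refine ⟨u.take m, u.drop (m + 1), u[m], ?_, ?_⟩
  · rw [List.getElem_cons_drop, List.take_append_drop]
  · rw [List.length_take]
    omega

theorem Us_app (b1 b2 m : ℕ) (a b : Word) (h : a.length = m) :
    Us b1 b2 m (a ++ b) = List.replicate b2 false ++ a ++ List.replicate b1 true ++
      List.replicate b1 false ++ b ++ List.replicate b2 true := by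
  subst h
  unfold Us
  rw [List.take_left, List.drop_left]

theorem Us_lins (b1 b2 m : ℕ) (u : Word) (h : m ≤ u.length) :
    Us b1 b2 (m + 1) (lins m u) = Us (b1 + 1) b2 m u := by
  obtain ⟨a, b, rfl, ha⟩ : ∃ a b : Word, u = a ++ b ∧ a.length = m :=
    ⟨u.take m, u.drop m, (List.take_append_drop m u).symm, by rw [List.length_take]; omega⟩
  have e : lins m (a ++ b) = (a ++ [true]) ++ (false :: b) := by
    unfold lins Pool.Agent.H988R2.Perc.ins
    subst ha
    rw [List.take_left, List.drop_left]
    simp
  rw [e, Us_app _ _ _ _ _ (by simp [ha]), Us_app _ _ _ _ _ ha, List.replicate_succ (n := b1),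
    List.replicate_succ' (n := b1)]
  simp

theorem Us_seam (b1 b2 m : ℕ) (u : Word) (h : m ≤ u.length) :
    Us b1 b2 (m + 1) (seam u) = Us b1 (b2 + 1) m u := by
  obtain ⟨a, b, rfl, ha⟩ : ∃ a b : Word, u = a ++ b ∧ a.length = m :=
    ⟨u.take m, u.drop m, (List.take_append_drop m u).symm, by rw [List.length_take]; omega⟩
  have e : seam (a ++ b) = (false :: a) ++ (b ++ [true]) := by
    unfold seam
    simp
  rw [e, Us_app _ _ _ _ _ (by simp [ha]), Us_app _ _ _ _ _ ha,
    List.replicate_succ' (n := b2) (a := false), List.replicate_succ (n := b2) (a := true)]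
  simp

theorem cap_Us1 (b1 b2 m : ℕ) (u : Word) (h : m < u.length) :
    Pool.Agent.H863R2.Cyl.cap (m + (b1 + 1) + b2 + b1) (Us (b1 + 1) b2 m u) =
      Us b1 b2 (m + 1) u := by
  obtain ⟨a, b, x, rfl, ha⟩ := take_drop h
  have e : a ++ x :: b = (a ++ [x]) ++ b := by simp
  rw [Us_app _ _ _ _ _ ha, e, Us_app _ _ _ _ _ (by simp [ha])]
  cases x with
  | true =>
    have e1 : List.replicate b2 false ++ a ++ List.replicate (b1 + 1) true ++
        List.replicate (b1 + 1) false ++ true :: b ++ List.replicate b2 true =
        (List.replicate b2 false ++ a ++ List.replicate (b1 + 1) true ++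
        List.replicate b1 false) ++ false :: true :: (b ++ List.replicate b2 true) := by
      rw [List.replicate_succ' (n := b1) (a := false)]
      simp
    rw [e1, cap_FT _ _ (by simp; omega), List.replicate_succ]
    simp
  | false =>
    have e1 : List.replicate b2 false ++ a ++ List.replicate (b1 + 1) true ++
        List.replicate (b1 + 1) false ++ false :: b ++ List.replicate b2 true =
        ((List.replicate b2 false ++ a) ++ true :: (List.replicate b1 true ++
        List.replicate b1 false)) ++ false :: false :: (b ++ List.replicate b2 true) := by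
      rw [List.replicate_succ' (n := b1) (a := false), List.replicate_succ (n := b1) (a := true)]
      simp
    rw [e1, cap_FF _ _ (by simp; omega)]
    simp

theorem cap_Us2 (b1 b2 m n : ℕ) (u : Word) (h : u.length = m + n + 1) :
    Pool.Agent.H863R2.Cyl.cap (m + b1 + (b2 + 1) + (b1 + n)) (Us b1 (b2 + 1) m u) =
      Us b1 b2 (m + 1) (rotr u) := by
  have hne : u ≠ [] := by
    rintro rfl
    simp at h
  obtain ⟨u', x, rfl⟩ : ∃ (u' : Word) (x : Bool), u = u' ++ [x] :=
    ⟨u.dropLast, u.getLast hne, (List.dropLast_append_getLast hne).symm⟩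
  have h' : u'.length = m + n := by simpa using h
  obtain ⟨a, b, rfl, ha⟩ : ∃ a b : Word, u' = a ++ b ∧ a.length = m :=
    ⟨u'.take m, u'.drop m, (List.take_append_drop m u').symm, by rw [List.length_take]; omega⟩
  have hb : b.length = n := by
    rw [List.length_append] at h'
    omega
  rw [rotr_concat]
  have e : a ++ b ++ [x] = a ++ (b ++ [x]) := by simp
  have e' : x :: (a ++ b) = (x :: a) ++ b := by simp
  rw [e, e', Us_app _ _ _ _ _ ha, Us_app _ _ _ _ _ (by simp [ha])]
  cases x with
  | false =>
    have e1 : List.replicate (b2 + 1) false ++ a ++ List.replicate b1 true ++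
        List.replicate b1 false ++ (b ++ [false]) ++ List.replicate (b2 + 1) true =
        (List.replicate (b2 + 1) false ++ a ++ List.replicate b1 true ++
        List.replicate b1 false ++ b) ++ false :: true :: List.replicate b2 true := by
      rw [List.replicate_succ (n := b2) (a := true)]
      simp
    rw [e1, cap_FT _ _ (by simp; omega), List.replicate_succ' (n := b2)]
    simp
  | true =>
    have e1 : List.replicate (b2 + 1) false ++ a ++ List.replicate b1 true ++
        List.replicate b1 false ++ (b ++ [true]) ++ List.replicate (b2 + 1) true =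
        (List.replicate b2 false ++ false :: (a ++ List.replicate b1 true ++
        List.replicate b1 false ++ b)) ++ true :: true :: List.replicate b2 true := by
      rw [List.replicate_succ (n := b2) (a := true), List.replicate_succ' (n := b2) (a := false)]
      simp
    rw [e1, cap_TT _ (by simp; omega)]
    simp

end TGv

open TGv

theorem t_Gv : S_GC → S_GI → S_Gv := by
  intro hGC _ b1 b2 m n w u hw hu
  obtain ⟨n0, hn0⟩ := Pool.Agent.H988R2.Perc.dyck_even hw
  refine ⟨fun hl1 hl2 => ⟨?_, ?_⟩, fun hl1 hl2 => ⟨?_, ?_⟩⟩
  · unfold Gs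
    rw [Us_lins _ _ _ _ (by omega)]
    have e : m + 1 + b1 + b2 = m + (b1 + 1) + b2 := by omega
    rw [e]
  · unfold Gs
    rw [Us_seam _ _ _ _ (by omega)]
    have e : m + 1 + b1 + b2 = m + b1 + (b2 + 1) := by omega
    rw [e]
  · unfold Gs
    have e : m + 1 + b1 + b2 = m + (b1 + 1) + b2 := by omega
    have e1 : (Pool.Agent.H988R2.Perc.ins b1 w).length / 2 = n0 + 1 := by
      rw [Pool.Agent.H988R2.Perc.length_ins]
      omega
    have e2 : w.length / 2 = n0 := by omega
    rw [e, e1, e2, hGC _ _ _ _ _ hw (by omega) ((ok_Us _ _ _ _).mpr hu)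
      (by rw [length_Us]; omega) (by omega), cap_Us1 _ _ _ _ (by omega)]
  · unfold Gs
    have e : m + 1 + b1 + b2 = m + b1 + (b2 + 1) := by omega
    have e1 : (Pool.Agent.H988R2.Perc.ins (b1 + n) w).length / 2 = n0 + 1 := by
      rw [Pool.Agent.H988R2.Perc.length_ins]
      omega
    have e2 : w.length / 2 = n0 := by omega
    rw [e, e1, e2, hGC _ _ _ _ _ hw (by omega) ((ok_Us _ _ _ _).mpr hu)
      (by rw [length_Us]; omega) (by omega), cap_Us2 _ _ _ _ _ hl2]

end Pool.Agent.W808.KS
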