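import Pool.Agent.W808.KS.Stm

/-! KS-Gz (helper613): arcs between legs -/

set_option autoImplicit false

namespace Pool.Agent.W808.KS
open Pool.Agent.H863R2.Cyl
open Pool.Agent.H988R2.Perc (Word PD Dyck LP Fw rainbow firstArc rem)
open Pool.Agent.W808.HB (bwm)

namespace TGz

open Pool.Agent.H988R2.Perc (ins_app exists_split length_ins dyck_firstArc dyck_even ins_ins)

theorem bwm_ne (m i : ℕ) (v : Word) (hi : i + 2 ≤ m) (hv : v.length + 2 = m) :
    lins i v ≠ bwm m := by
  intro h
  obtain ⟨a, b, rfl, ha⟩ := Pool.Agent.H988R2.Perc.exists_split (i := i) (w := v) (by omega)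
  rw [lins, Pool.Agent.H988R2.Perc.ins_app _ _ ha] at h
  unfold bwm at h
  have h0 : (a ++ true :: false :: b)[i]? = some true := by
    rw [List.getElem?_append_right (by omega)]
    simp [ha]
  have h1 : (a ++ true :: false :: b)[i + 1]? = some false := by
    rw [List.getElem?_append_right (by omega)]
    simp [ha]
  rw [h] at h0 h1
  rcases Nat.lt_or_ge i (m / 2) with h2 | h2
  · rw [List.getElem?_append_left (by simpa using h2)] at h0
    rw [List.getElem?_replicate_of_lt h2] at h0
    simp at h0
  · rw [List.getElem?_append_right (by simp; omega)] at h1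
    rw [List.getElem?_replicate] at h1
    split at h1 <;> simp at h1

/-- a small arc among the legs stays -/
theorem gl_lins (p k : ℕ) (hk : k + 2 ≤ p) : ∀ (n : ℕ) (w U : Word), Dyck w → w.length = 2 * n →
    U.length + 2 = p + 2 * n → ∃ v : Word, v.length + 2 = p ∧ gl p n w (lins k U) = lins k v := by
  intro n
  induction n with
  | zero =>
    intro w U _ _ hU
    exact ⟨U, by omega, rfl⟩
  | succ n ih =>
    intro w U hw hl hU
    have hne : w ≠ [] := by
      rintro rfl
      simp at hl
    obtain ⟨h1, h2, h3⟩ := dyck_firstArc hw hne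
    have hf : firstArc w + 2 ≤ w.length := h1
    have hc : cap (p + firstArc w) (lins k U) = lins k (cap (p + firstArc w - 2) U) :=
      cap_lins_left (by omega) (by omega)
    have hlc := length_cap (i := p + firstArc w - 2) (w := U) (by omega)
    have hlr : (rem (firstArc w) w).length = 2 * n := by
      have := congrArg List.length h2
      rw [length_ins] at this
      omega
    obtain ⟨v, hv, h4⟩ := ih (rem (firstArc w) w) (cap (p + firstArc w - 2) U) h3 hlr (by omega)
    refine ⟨v, hv, ?_⟩
    change gl p n (rem (firstArc w) w) (cap (p + firstArc w) (lins k U)) = lins k v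
    rw [hc, h4]

/-- adding an arc around -/
theorem nest_succ (j : ℕ) (A B : Word) :
    A ++ List.replicate (j + 1) true ++ List.replicate (j + 1) false ++ B =
      lins (A.length + j) (A ++ List.replicate j true ++ List.replicate j false ++ B) := by
  have e1 : A ++ List.replicate j true ++ List.replicate j false ++ B =
      (A ++ List.replicate j true) ++ (List.replicate j false ++ B) := by simp
  rw [e1, lins, ins_app _ _ (by simp), List.replicate_succ', List.replicate_succ]
  simp

theorem cap_nest (A B : Word) : ∀ (i j : ℕ), i + 2 ≤ j →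
    cap (A.length + j + i) (A ++ List.replicate j true ++ List.replicate j false ++ B) =
      lins (A.length + j - 2 - i)
        (A ++ List.replicate (j - 2) true ++ List.replicate (j - 2) false ++ B) := by
  intro i
  induction i with
  | zero =>
    intro j hj
    obtain ⟨j, rfl⟩ : ∃ j', j = j' + 2 := ⟨j - 2, by omega⟩
    have e0 : A.length + (j + 2) + 0 = (A.length + (j + 1)) + 1 := by omega
    rw [nest_succ (j + 1) A B, e0, cap_succ_lins (by simp), nest_succ j A B]
    congr 1
  | succ i ih =>
    intro j hj
    obtain ⟨j, rfl⟩ : ∃ j', j = j' + 3 := ⟨j - 3, by omega⟩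
    rw [nest_succ (j + 2) A B, cap_lins_left (by omega) (by simp; omega)]
    have e0 : A.length + (j + 3) + (i + 1) - 2 = A.length + (j + 2) + i := by omega
    rw [e0, ih (j + 2) (by omega)]
    have e1 : j + 3 - 2 = j + 1 := by omega
    have e2 : j + 2 - 2 = j := by omega
    rw [e1, e2, nest_succ j A B]
    have e3 : A.length + (j + 3) - 2 - (i + 1) = A.length + (j + 2) - 2 - i := by omega
    have e4 : A.length + (j + 2) = (A.length + j) + 2 := by omega
    rw [e3]
    unfold lins
    rw [e4]
    exact (ins_ins (by omega) (by simp)).symm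

/-- iterated arcs across the seam -/
def sm (V : Word) (b : ℕ) : Word := List.replicate b false ++ V ++ List.replicate b true

theorem sm_succ (V : Word) (b : ℕ) : sm V (b + 1) = seam (sm V b) := by
  unfold sm seam
  rw [List.replicate_succ, List.replicate_succ']
  simp

theorem length_sm (V : Word) (b : ℕ) : (sm V b).length = V.length + 2 * b := by
  unfold sm
  simp
  omega

theorem cap_sm (V : Word) : ∀ (b j : ℕ), j + 2 ≤ b →
    cap (V.length + b + j) (sm V b) = lins (b - 2 - j) (sm V (b - 2)) := by
  intro b
  induction b with
  | zero => intro j hj; omega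
  | succ b ih =>
    intro j hj
    obtain ⟨b, rfl⟩ : ∃ b', b = b' + 1 := ⟨b - 1, by omega⟩
    rcases Nat.lt_or_ge j b with h | h
    · rw [sm_succ]
      have e0 : V.length + (b + 1 + 1) + j = (V.length + (b + 1) + j) + 1 := by omega
      rw [e0, cap_seam (by rw [length_sm]; omega), ih j (by omega)]
      obtain ⟨b, rfl⟩ : ∃ b', b = b' + 1 := ⟨b - 1, by omega⟩
      have e1 : b + 1 + 1 - 2 = b := by omega
      have e2 : b + 1 + 1 + 1 - 2 = b + 1 := by omega
      have e3 : b + 1 - j = (b - j) + 1 := by omega
      rw [e1, e2, sm_succ V b, e3, lins_seam (by rw [length_sm]; omega)]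
    · obtain rfl : j = b := by omega
      rw [sm_succ]
      have e0 : V.length + (j + 1 + 1) + j = (sm V (j + 1)).length := by
        rw [length_sm]; omega
      rw [e0, cap_last_seam (by rw [length_sm]; omega), sm_succ, rotr_seam]
      have e1 : j + 1 + 1 - 2 = j := by omega
      rw [e1, Nat.sub_self]

theorem Us_eq_sm (b1 b2 m : ℕ) (u : Word) : Us b1 b2 m u =
    sm (u.take m ++ List.replicate b1 true ++ List.replicate b1 false ++ u.drop m) b2 := by
  unfold Us sm
  simp

theorem Us_eq_nest (b1 b2 m : ℕ) (u : Word) : Us b1 b2 m u =
    (List.replicate b2 false ++ u.take m) ++ List.replicate b1 true ++ List.replicate b1 false ++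
      (u.drop m ++ List.replicate b2 true) := by
  unfold Us
  simp

theorem length_Us (b1 b2 m : ℕ) (u : Word) :
    (Us b1 b2 m u).length = u.length + 2 * b1 + 2 * b2 := by
  rw [Us_eq_sm, length_sm]
  have h := congrArg List.length (List.take_append_drop m u)
  rw [List.length_append] at h
  simp only [List.length_append, List.length_replicate]
  omega

theorem ok_Us (b1 b2 m : ℕ) (u : Word) (hu : Ok u) : Ok (Us b1 b2 m u) := by
  have h := congrArg (List.count true) (List.take_append_drop m u)
  rw [List.count_append] at h
  have hl := length_Us b1 b2 m u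
  unfold Ok at hu ⊢
  rw [hl]
  unfold Us
  simp only [List.count_append, List.count_replicate]
  simp
  omega

end TGz

open TGz in
theorem t_Gz (hGC : S_GC) (_ : S_GI) : S_Gz := by
  intro b1 b2 m n i w u hw hu
  constructor
  · intro hwl hul him hG
    unfold Gs at hG
    obtain ⟨a, c', rfl, ha⟩ := Pool.Agent.H988R2.Perc.exists_split (i := i) (w := u) (by omega)
    obtain ⟨b, c, rfl, hb⟩ := Pool.Agent.H988R2.Perc.exists_split (i := m - 2 - i) (w := c')
      (by simp at hul; omega)
    have hU : Us b1 b2 m (lins i (a ++ (b ++ c))) =
        lins (b2 + i) (Us b1 b2 (m - 2) (a ++ (b ++ c))) := by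
      have e1 : lins i (a ++ (b ++ c)) = (a ++ true :: false :: b) ++ c := by
        rw [lins, Pool.Agent.H988R2.Perc.ins_app _ _ ha]
        simp
      have e2 : a ++ (b ++ c) = (a ++ b) ++ c := by simp
      rw [e1]
      have hl1 : (a ++ true :: false :: b).length = m := by
        simp only [List.length_append, List.length_cons]
        omega
      have hl2 : (a ++ b).length = m - 2 := by
        rw [List.length_append]
        omega
      unfold Us
      rw [e2, List.take_left' hl1, List.drop_left' hl1, List.take_left' hl2, List.drop_left' hl2]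
      have e3 : List.replicate b2 false ++ (a ++ b) ++ List.replicate b1 true ++
          List.replicate b1 false ++ c ++ List.replicate b2 true =
          (List.replicate b2 false ++ a) ++ (b ++ (List.replicate b1 true ++
          List.replicate b1 false ++ c ++ List.replicate b2 true)) := by simp
      rw [e3, lins, Pool.Agent.H988R2.Perc.ins_app _ _ (by simp [ha])]
      simp
    obtain ⟨n', hn'⟩ := Pool.Agent.H988R2.Perc.dyck_even hw
    have hn2 : w.length / 2 = n' := by omega
    rw [hn2, hU] at hG
    have hlU := length_Us b1 b2 (m - 2) (a ++ (b ++ c))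
    obtain ⟨v, hv, h1⟩ := gl_lins (m + b1 + b2) (b2 + i) (by omega) n' w
      (Us b1 b2 (m - 2) (a ++ (b ++ c))) hw (by omega) (by omega)
    rw [h1] at hG
    exact bwm_ne _ _ v (by omega) hv hG
  · intro hwl hul hi hor hG
    unfold Gs at hG
    obtain ⟨n', hn'⟩ := Pool.Agent.H988R2.Perc.dyck_even hw
    have hli : (Pool.Agent.H988R2.Perc.ins i w).length = w.length + 2 :=
      Pool.Agent.H988R2.Perc.length_ins i w
    have hn2 : (Pool.Agent.H988R2.Perc.ins i w).length / 2 = n' + 1 := by omega
    have hlU := length_Us b1 b2 m u
    rw [hn2, hGC (m + b1 + b2) n' i w (Us b1 b2 m u) hw (by omega) (ok_Us b1 b2 m u hu)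
      (by omega) (by omega)] at hG
    rcases hor with h | h
    · have hc : cap (m + b1 + b2 + i) (Us b1 b2 m u) =
          lins (m + b1 + b2 - 2 - i) (Us (b1 - 2) b2 m u) := by
        rw [Us_eq_nest, Us_eq_nest]
        have hlA : (List.replicate b2 false ++ u.take m).length = b2 + m := by
          rw [List.length_append, List.length_replicate, List.length_take]
          omega
        have := cap_nest (List.replicate b2 false ++ u.take m) (u.drop m ++ List.replicate b2 true)
          i b1 h
        rw [hlA] at this
        have e1 : m + b1 + b2 + i = b2 + m + b1 + i := by omega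
        have e2 : m + b1 + b2 - 2 - i = b2 + m + b1 - 2 - i := by omega
        rw [e1, e2]
        exact this
      rw [hc] at hG
      have hlU2 := length_Us (b1 - 2) b2 m u
      obtain ⟨v, hv, h1⟩ := gl_lins (m + b1 + b2) (m + b1 + b2 - 2 - i) (by omega) n' w
        (Us (b1 - 2) b2 m u) hw (by omega) (by omega)
      rw [h1] at hG
      exact bwm_ne _ _ v (by omega) hv hG
    · have hc : cap (m + b1 + b2 + i) (Us b1 b2 m u) =
          lins (b2 - 2 - (i - (b1 + n))) (Us b1 (b2 - 2) m u) := by
        rw [Us_eq_sm, Us_eq_sm]
        have hlV : (u.take m ++ List.replicate b1 true ++ List.replicate b1 false ++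
            u.drop m).length = u.length + 2 * b1 := by
          have h5 := congrArg List.length (List.take_append_drop m u)
          rw [List.length_append] at h5
          simp only [List.length_append, List.length_replicate]
          omega
        have := cap_sm (u.take m ++ List.replicate b1 true ++ List.replicate b1 false ++ u.drop m)
          b2 (i - (b1 + n)) (by omega)
        rw [hlV] at this
        have e1 : m + b1 + b2 + i = u.length + 2 * b1 + b2 + (i - (b1 + n)) := by omega
        rw [e1]
        exact this
      rw [hc] at hG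
      have hlU2 := length_Us b1 (b2 - 2) m u
      obtain ⟨v, hv, h1⟩ := gl_lins (m + b1 + b2) (b2 - 2 - (i - (b1 + n))) (by omega) n' w
        (Us b1 (b2 - 2) m u) hw (by omega) (by omega)
      rw [h1] at hG
      exact bwm_ne _ _ v (by omega) hv hG

end Pool.Agent.W808.KS
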