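import Pool.Agent.W808.KS.Stm
import Pool.Agent.W808.HB.T_DC
import Pool.Agent.W808.HB.T_E
import Pool.Agent.W808.HB.T_Eb
import Pool.Agent.W808.HB.T_Ec
import Pool.Agent.W808.HB.T_Ei
import Pool.Agent.W808.HB.T_Es
import Pool.Agent.W808.HB.T_Ez
import Pool.Agent.W808.HB.T_HV
import Pool.Agent.W808.HB.T_KL
import Pool.Agent.W808.HB.T_KR
import Pool.Agent.W808.HB.T_M0
import Pool.Agent.W808.HB.T_M1
import Pool.Agent.W808.HB.T_M2
import Pool.Agent.W808.HB.T_PW
import Pool.Agent.W808.HB.T_TK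
import Pool.Agent.W808.HB.T_TP
import Pool.Agent.W808.HB.T_TR
import Pool.Agent.W808.HB.T_U
import Pool.Agent.W808.HB.T_bs
import Pool.Agent.W808.HB.T_comp
import Pool.Agent.W808.HB.T_deg
import Pool.Agent.W808.HB.T_flip
import Pool.Agent.W808.HB.T_legx
import Pool.Agent.W808.HB.T_mvL
import Pool.Agent.W808.HB.T_mvR
import Pool.Agent.W808.HB.T_pex
import Pool.Agent.W808.HB.T_sym
import Pool.Agent.W808.KC.T_DC
import Pool.Agent.W808.KC.T_Ec
import Pool.Agent.W808.KC.T_Ei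
import Pool.Agent.W808.KC.T_HV
import Pool.Agent.W808.KC.T_KL
import Pool.Agent.W808.KC.T_M1
import Pool.Agent.W808.KC.T_M2
import Pool.Agent.W808.KC.T_MRa
import Pool.Agent.W808.KC.T_MRb
import Pool.Agent.W808.KC.T_TK
import Pool.Agent.W808.KC.T_TP
import Pool.Agent.W808.KC.T_TR
import Pool.Agent.W808.KC.T_U
import Pool.Agent.W808.KC.T_deg
import Pool.Agent.W808.KC.T_flip
import Pool.Agent.W808.KC.T_mvR
import Pool.Agent.W808.KC.T_pex
import Pool.Agent.W808.KC.T_sym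

/-!
# Task HVs: the homogeneous value
-/

set_option autoImplicit false
set_option maxHeartbeats 4000000

namespace Pool.Agent.W808.KS
open Pool.Agent.H863R2.Cyl
open Pool.Agent.H988R2.Perc (Word PD Dyck LP Fw rainbow firstArc rem q_spec Fw_V)
open Pool.Agent.H988R2.Perc.T10 (pairs fA fB)
open Pool.Agent.H160R2.ML (pfq Gn)
open Pool.Agent.H160R2
open Pool.Agent.W808.HB (bwm prs Xf Yf vdx wdx bet xY)
open Pool.Agent.W808.HB.THV
open Filter Topology

namespace THVs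

theorem hE : HB.S_E := HB.t_E HB.t_Ez HB.t_Ei HB.t_Ec HB.t_Es HB.t_Eb
theorem hM1 : HB.S_M1 :=
  HB.t_M1 HB.t_legx (HB.t_sym HB.t_flip HB.t_pex) HB.t_mvR HB.t_mvL HB.t_deg (HB.t_bs HB.t_comp)
    HB.t_TP HB.t_TR
theorem hM2 : HB.S_M2 := HB.t_M2 hM1 HB.t_deg HB.t_TP
theorem hHV : HB.S_HV := HB.t_HV hM2 (HB.t_M0 hM2 HB.t_TP) HB.t_TK (HB.t_KL HB.t_U)
theorem hDC : HB.S_DC := HB.t_DC HB.t_KR

theorem kM1 : KC.S_M1 :=
  KC.t_M1 (KC.t_legx KC.t_Ez) (KC.t_sym (KC.t_flip KC.t_Ei KC.t_Ec) (KC.t_pex KC.t_Ei KC.t_Ec))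
    (KC.t_mvR KC.t_Ei) KC.t_inv KC.t_deg (KC.t_bs KC.t_E1) KC.t_TP KC.t_TR
theorem kM2 : KC.S_M2 := KC.t_M2 kM1 KC.t_deg KC.t_TP
theorem kHV : KC.S_HV := KC.t_HV kM2 KC.t_TK (KC.t_KL KC.t_U)
theorem kDC : KC.S_DC := KC.t_DC (KC.t_MRb KC.t_MRa HB.t_KR)

theorem contAt_HH {Ψ : List ℂ → VW} (hΨ : Fam q Ψ) (A : List ℂ) (M : ℕ) :
    ContinuousAt (fun x : Fin M → ℂ => HH Ψ A [] [] (prs (List.ofFn x))) (fun _ => 1) := by
  have h1 : (fun x : Fin M → ℂ => HH Ψ A [] [] (prs (List.ofFn x))) = fun x =>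
      ∑ w ∈ LP (2 * M), Fw w ([] ++ prs (List.ofFn x) ++ []) *
        ∑ u ∈ GPropAux.WS (A.length + 2 * M),
          (if Gs 0 0 A.length w u then (1 : ℂ) else 0) * Ψ (A ++ prs (List.ofFn x)) u := by
    funext x
    have m1 := hΨ.mem (A ++ prs (List.ofFn x))
    rw [List.length_append, prs_length, List.length_ofFn] at m1
    unfold HH HV
    simp only [List.length_nil, prs_length, List.length_ofFn, zero_add, add_zero]
    refine Finset.sum_congr rfl fun w _ => ?_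
    congr 1
    exact lin_eq (fun _ u => if Gs 0 0 A.length w u then (1 : ℂ) else 0) 0 m1
  rw [h1]
  refine tendsto_finsetSum _ fun w hw => ?_
  refine Tendsto.mul ?_ ?_
  · exact Pool.Agent.W808.KC.THV.contAt_pd3 (Fw_V hw).pd [] [] M (by simp)
  · refine tendsto_finsetSum _ fun u _ => ?_
    exact (contAt_pd (hΨ.deg _ u) A M rfl).const_mul _

theorem symA_rep (ε k : ℕ) : symA ε (List.replicate k 1) = List.replicate (2 * k + ε) 1 := by
  induction k with
  | zero => simp [symA]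
  | succ k ih =>
    rw [List.replicate_succ]
    simp only [symA]
    rw [ih, inv_one, List.cons_append, ← List.replicate_succ', ← List.replicate_succ]
    congr 1
    ring

theorem tot_norm {Ψ : List ℂ → VW} (hΨ : Fam q Ψ) (N : ℕ) :
    ‖tot (Ψ (List.replicate N 1))‖ = 3 ^ ((N - 1) ^ 2 / 4) * HB.Cn (N % 2) (N / 2) := by
  have hE : HB.S_E := hE
  have hD : HB.Dat q HB.el Ψ := ⟨q_spec, hE, hΨ⟩
  have v := hHV q HB.el Ψ hD (N % 2) (N / 2)
  rw [hDC, abs_of_pos (HB.TPW.Cn_pos _ _)] at v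
  have hN : N % 2 + 2 * (N / 2) = N := Nat.mod_add_div N 2
  rw [hN] at v
  rw [← v]
  congr 1
  unfold HB.GG
  rw [List.replicate_append_replicate, hN, List.length_replicate]
  have hm := hΨ.mem (List.replicate N 1)
  rw [List.length_replicate] at hm
  rw [ValueAux.tot_eq hm, ValueAux.lc_eq _ hm]
  refine Finset.sum_congr rfl fun σ _ => ?_
  have hσ := σ.2
  have h1 : HB.el (N % 2) σ.1 = 1 := by
    rcases Nat.mod_two_eq_zero_or_one N with h | h
    · rw [h]
      exact hE.tot0 (N / 2) σ.1 hσ.2 (by rw [hσ.1]; omega)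
    · rw [h]
      exact hE.tot1 (N / 2) σ.1 hσ.2 (by rw [hσ.1]; omega)
  rw [h1, smul_eq_mul, mul_one]

theorem CR_pos {p : ℝ} (hp : 1 ≤ p) (M : ℕ) : 0 < CR p M := by
  unfold CR
  refine Finset.prod_pos fun i _ => ?_
  have hi : (0 : ℝ) ≤ i := Nat.cast_nonneg i
  refine div_pos (mul_pos (mul_pos (by linarith) (by positivity)) ?_) (mul_pos (by positivity) ?_)
  · refine Finset.prod_pos fun s _ => ?_
    have hs : (0 : ℝ) ≤ s := Nat.cast_nonneg s
    exact mul_pos (by linarith) (by linarith)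
  · refine Finset.prod_pos fun s _ => ?_
    have hs : (0 : ℝ) ≤ s := Nat.cast_nonneg s
    linarith

theorem V1_zero (k M : ℕ) : V1 0 k M = KC.Dc k M := by
  unfold V1 KC.Dc v1
  simp

theorem Zs_norm (hV : S_VV) (M : ℕ) (hM : 1 ≤ M) :
    ‖Zs (List.replicate (2 * M) 1)‖ = 3 ^ (M * (M - 1)) * CR 3 (M - 1) := by
  have v := kHV 1 (M - 1) (le_refl 1)
  have hC : ((KC.Dc (2 * 1) (M - 1) : ℝ)) = CR 3 (M - 1) := by
    have h := (hV 2 (M - 1)).1
    rw [V1_zero] at h
    rw [show 2 * 1 = 2 by norm_num, h]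
    norm_num
  rw [hC] at v
  have h1 : Zs (List.replicate (2 * M) 1) =
      KC.GG (List.replicate 1 1) (List.replicate (2 * (M - 1)) 1) (List.replicate 1 1) := by
    unfold Zs KC.GG
    rw [List.replicate_append_replicate, List.replicate_append_replicate,
      List.length_replicate, List.length_replicate, List.length_replicate]
    have e : 1 + 2 * (M - 1) + 1 = 2 * M := by omega
    rw [e]
    refine Finset.sum_congr rfl fun w hw => ?_
    have h2 : KC.Gd 1 w := by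
      apply KC.t_E1.1 w
      · exact (Pool.Agent.H988R2.Perc.mem_LP.1 hw).2
      · have := (Pool.Agent.H988R2.Perc.mem_LP.1 hw).1
        omega
    unfold KC.el
    rw [if_pos h2, one_mul]
  rw [h1, v]
  have e2 : (1 + (M - 1)) * (1 + (M - 1) - 1) = M * (M - 1) := by
    have : 1 + (M - 1) = M := by omega
    rw [this]
  have hn := (norms q_spec).1
  rw [norm_mul, norm_pow, norm_mul, hn, mul_one, e2, Complex.norm_real,
    Real.norm_of_nonneg (CR_pos (by norm_num) _).le]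
  norm_num

theorem Rf_eq (ε k M : ℕ) (y : Fin M → ℂ) :
    Rf ε (List.replicate k 1) [] y =
      kap ε k 0 M * pfq q (List.replicate (2 * k + ε) 1) *
        (wdx (sq y) ^ 2 * (DT (g1 ε) (List.replicate k 1) y * DT (g2 ε) (List.replicate k 1) y)) := by
  unfold Rf
  rw [symA_rep, List.length_replicate, List.append_nil]
  simp [rv, pairs]

/-- the value of the partition function at the homogeneous point -/
theorem HH_val (h2 : S_M2) (hT : S_TKs) (hK : S_KLs) {Ψ : List ℂ → VW} (hΨ : Fam q Ψ)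
    (ε k M : ℕ) (hε : ε ≤ 1) (hM : 1 ≤ M) :
    HH Ψ (List.replicate (2 * k + ε) 1) [] [] (List.replicate (2 * M) 1) =
      kap ε k 0 M * pfq q (List.replicate (2 * k + ε) 1) *
        (9 ^ (M * (M - 1)) * (q ^ 2 / (q - 1) * 9 ^ k * (-3 * q) ^ ε) ^ M *
          ((V1 ε k M : ℂ) * ((if ε = 0 then 2 else 1) * (V2 ε k (M - 1) : ℂ)))) := by
  classical
  have hq : q ^ 2 + q + 1 = 0 := q_spec
  have hq3 : q ^ 3 = 1 := by linear_combination (q - 1) * hq
  have hq1 : q + 1 ≠ 0 := by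
    intro h
    have : q ^ 2 = 0 := by linear_combination hq - h
    rw [pow_eq_zero_iff (by norm_num)] at this
    rw [this] at hq3
    norm_num at hq3
  set m : ℕ := 2 * k + ε with hm
  set P : ℂ := kap ε k 0 M * pfq q (List.replicate m 1) with hP
  set Cc : ℂ := q ^ 2 / (q - 1) * 9 ^ k * (-3 * q) ^ ε with hCc
  set l : Filter ℝ := 𝓝[>] (0 : ℝ) with hl
  have hpos : ∀ᶠ t in l, (0 : ℝ) < t := self_mem_nhdsWithin
  set Tr : ℝ → ℕ → ℝ := fun t i => 1 + t * (i + 1) with hTr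
  set Yr : ℝ → ℕ → ℝ := fun t i => (Tr t i) ^ 2 with hYr
  set x : ℝ → Fin M → ℂ := fun t i => xY q (Yr t i) with hx
  have hyex : ∀ z : ℂ, ∃ w : ℂ, w ^ 2 = z := fun z =>
    IsAlgClosed.exists_pow_nat_eq z (by norm_num)
  choose rt hrt using hyex
  set y : ℝ → Fin M → ℂ := fun t i => rt (x t i) with hy
  have hsq : ∀ t, sq (y t) = x t := by
    intro t
    funext i
    simp only [sq, hy]
    exact hrt _
  have hform : ∀ t, Gn (prs (List.ofFn (x t))) →
      HH Ψ (List.replicate m 1) [] [] (prs (List.ofFn (x t))) * vdx (x t) ^ 4 =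
        P * (wdx (x t) ^ 2 * (DT (g1 ε) (List.replicate k 1) (y t) *
          DT (g2 ε) (List.replicate k 1) (y t))) := by
    intro t hx
    have h := h2 Ψ hΨ ε (List.replicate k 1) M (y t) hε
      (fun a ha => by rw [(List.mem_replicate.1 ha).2]; exact one_ne_zero)
      (by rw [hsq]; exact hx)
    rw [Rf_eq, symA_rep, hsq] at h
    exact h
  have hTc : ∀ i : ℕ, Tendsto (fun t => ((Tr t i : ℝ) : ℂ)) l (𝓝 1) := by
    intro i
    have h1 : Continuous (fun t : ℝ => ((Tr t i : ℝ) : ℂ)) := by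
      simp only [hTr]
      fun_prop
    have h3 := h1.tendsto 0
    have h4 : ((Tr 0 i : ℝ) : ℂ) = 1 := by simp [hTr]
    rw [h4] at h3
    exact h3.mono_left nhdsWithin_le_nhds
  have hYT : ∀ t i, ((Yr t i : ℝ) : ℂ) = ((Tr t i : ℝ) : ℂ) ^ 2 := by
    intro t i
    simp only [hYr]
    push_cast
    ring
  have hYc : ∀ i : ℕ, Tendsto (fun t => ((Yr t i : ℝ) : ℂ)) l (𝓝 1) := by
    intro i
    have h1 := (hTc i).pow 2
    rw [one_pow] at h1
    refine h1.congr fun t => ?_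
    rw [hYT]
  have hbc : ∀ i : ℕ, Tendsto (fun t => bet (Yr t i)) l (𝓝 0) := by
    intro i
    have h1 : ContinuousAt bet 1 := by
      unfold bet
      exact ((continuousAt_id.sub continuousAt_const).pow 2).div continuousAt_id one_ne_zero
    have h3 := h1.tendsto.comp (hYc i)
    have h4 : bet 1 = 0 := by simp [bet]
    rw [h4] at h3
    exact h3
  have hxc : ∀ i : Fin M, Tendsto (fun t => x t i) l (𝓝 1) := by
    intro i
    have h1 : ContinuousAt (xY q) 1 := by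
      unfold xY
      exact (continuousAt_const.add (continuousAt_const.mul continuousAt_id)).div
        (continuousAt_const.add continuousAt_id) hq1
    have h3 := h1.tendsto.comp (hYc i)
    have h4 : xY q 1 = 1 := by
      unfold xY
      rw [mul_one, add_comm 1 q]
      exact div_self hq1
    rw [h4] at h3
    exact h3
  have hXc : ∀ i : Fin M, Tendsto (fun t => Xf (x t i)) l (𝓝 2) := by
    intro i
    have h1 := (hxc i).add ((hxc i).inv₀ one_ne_zero)
    have h3 : (1 : ℂ) + 1⁻¹ = 2 := by norm_num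
    rw [h3] at h1
    exact h1
  have hxt : Tendsto x l (𝓝 (fun _ => (1 : ℂ))) := tendsto_pi_nhds.2 hxc
  have hG : Tendsto (fun t => HH Ψ (List.replicate m 1) [] [] (prs (List.ofFn (x t)))) l
      (𝓝 (HH Ψ (List.replicate m 1) [] [] (prs (List.ofFn (fun _ : Fin M => (1 : ℂ)))))) :=
    (contAt_HH hΨ (List.replicate m 1) M).tendsto.comp hxt
  rw [List.ofFn_const, prs_replicate] at hG
  -- eventual conditions
  have hT1 : ∀ t : ℝ, 0 < t → ∀ i, 1 < Tr t i := by
    intro t ht i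
    simp only [hTr]
    have : 0 < t * ((i : ℝ) + 1) := by positivity
    linarith
  have hYpos : ∀ t : ℝ, 0 < t → ∀ i, 0 < Yr t i := by
    intro t ht i
    have := hT1 t ht i
    simp only [hYr]
    positivity
  have hY1 : ∀ t : ℝ, 0 < t → ∀ i, 1 < Yr t i := by
    intro t ht i
    have := hT1 t ht i
    simp only [hYr]
    nlinarith
  have hYne : ∀ t : ℝ, 0 < t → ∀ i, Yr t i ≠ 1 := fun t ht i => (hY1 t ht i).ne'
  have hbinj : ∀ t : ℝ, 0 < t → ∀ i j : ℕ, bet (Yr t i) = bet (Yr t j) → i = j := by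
    intro t ht i j hij
    have hi := hYpos t ht i
    have hj := hYpos t ht j
    have h3 : (Yr t i - 1) ^ 2 / Yr t i = (Yr t j - 1) ^ 2 / Yr t j := by
      unfold bet at hij
      exact_mod_cast hij
    rw [div_eq_div_iff hi.ne' hj.ne'] at h3
    have h4 : (Yr t i - Yr t j) * (Yr t i * Yr t j - 1) = 0 := by linear_combination h3
    have hi1 := hY1 t ht i
    have hj1 := hY1 t ht j
    have h5 : Yr t i * Yr t j - 1 ≠ 0 := by nlinarith
    have h6 := (mul_eq_zero.1 h4).resolve_right h5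
    have h7 : (Tr t i - Tr t j) * (Tr t i + Tr t j) = 0 := by
      simp only [hYr] at h6
      linear_combination h6
    have hi2 := hT1 t ht i
    have hj2 := hT1 t ht j
    have h8 := (mul_eq_zero.1 h7).resolve_right (by linarith)
    simp only [hTr] at h8
    have h9 : t * ((i : ℝ) - j) = 0 := by linear_combination h8
    have h10 := (mul_eq_zero.1 h9).resolve_left ht.ne'
    have h11 : (i : ℝ) = j := by linarith
    exact_mod_cast h11
  have hb0 : ∀ t : ℝ, 0 < t → ∀ i, bet (Yr t i) ≠ 0 := by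
    intro t ht i h
    unfold bet at h
    have hi : ((Yr t i : ℝ) : ℂ) ≠ 0 := by exact_mod_cast (hYpos t ht i).ne'
    rw [div_eq_zero_iff] at h
    have h3 := h.resolve_right hi
    rw [pow_eq_zero_iff (by norm_num)] at h3
    have h4 : ((Yr t i : ℝ) : ℂ) = 1 := by linear_combination h3
    exact hYne t ht i (by exact_mod_cast h4)
  have e1 : ∀ᶠ t in l, ∀ i j : Fin M,
      (1 : ℂ) - bet ((Tr t i : ℂ) ^ 2) * ((Tr t j : ℂ) ^ 2 * ((Tr t j : ℂ) ^ 2 - 1)) ≠ 0 := by
    refine eventually_all.2 fun i => eventually_all.2 fun j => ?_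
    have h3 : Tendsto (fun t => (1 : ℂ) - bet ((Tr t i : ℂ) ^ 2) *
        ((Tr t j : ℂ) ^ 2 * ((Tr t j : ℂ) ^ 2 - 1))) l
        (𝓝 (1 - 0 * (1 ^ 2 * (1 ^ 2 - 1)))) := by
      refine Tendsto.const_sub 1 (Tendsto.mul ?_ (((hTc j).pow 2).mul (((hTc j).pow 2).sub_const 1)))
      refine (hbc i).congr fun t => ?_
      rw [hYT]
    exact h3.eventually_ne (by norm_num)
  have e2 : ∀ᶠ t in l, ∀ i j : Fin M,
      (1 : ℂ) - bet ((Tr t i : ℂ) ^ 2) * ((Tr t j : ℂ)⁻¹ ^ 2 * ((Tr t j : ℂ)⁻¹ ^ 2 - 1)) ≠ 0 := by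
    refine eventually_all.2 fun i => eventually_all.2 fun j => ?_
    have h3 : Tendsto (fun t => (1 : ℂ) - bet ((Tr t i : ℂ) ^ 2) *
        ((Tr t j : ℂ)⁻¹ ^ 2 * ((Tr t j : ℂ)⁻¹ ^ 2 - 1))) l
        (𝓝 (1 - 0 * (1⁻¹ ^ 2 * (1⁻¹ ^ 2 - 1)))) := by
      refine Tendsto.const_sub 1 (Tendsto.mul ?_ ((((hTc j).inv₀ one_ne_zero).pow 2).mul
        ((((hTc j).inv₀ one_ne_zero).pow 2).sub_const 1)))
      refine (hbc i).congr fun t => ?_
      rw [hYT]
    exact h3.eventually_ne (by norm_num)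
  have e3 : ∀ᶠ t in l, ∀ i j : Fin M, x t i ^ 2 + x t i * x t j + x t j ^ 2 ≠ 0 := by
    refine eventually_all.2 fun i => eventually_all.2 fun j => ?_
    have h3 : Tendsto (fun t => x t i ^ 2 + x t i * x t j + x t j ^ 2) l
        (𝓝 (1 ^ 2 + 1 * 1 + 1 ^ 2)) :=
      (((hxc i).pow 2).add ((hxc i).mul (hxc j))).add ((hxc j).pow 2)
    exact h3.eventually_ne (by norm_num)
  have e4 : ∀ᶠ t in l, ∀ i j : Fin M, x t i ^ 2 + x t i * (x t j)⁻¹ + (x t j)⁻¹ ^ 2 ≠ 0 := by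
    refine eventually_all.2 fun i => eventually_all.2 fun j => ?_
    have h3 : Tendsto (fun t => x t i ^ 2 + x t i * (x t j)⁻¹ + (x t j)⁻¹ ^ 2) l
        (𝓝 (1 ^ 2 + 1 * 1⁻¹ + 1⁻¹ ^ 2)) :=
      (((hxc i).pow 2).add ((hxc i).mul ((hxc j).inv₀ one_ne_zero))).add
        (((hxc j).inv₀ one_ne_zero).pow 2)
    exact h3.eventually_ne (by norm_num)
  have e5 : ∀ᶠ t in l, ∀ i : Fin M, x t i + 1 ≠ 0 := by
    refine eventually_all.2 fun i => ?_
    have h3 : Tendsto (fun t => x t i + 1) l (𝓝 (1 + 1)) := (hxc i).add_const 1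
    exact h3.eventually_ne (by norm_num)
  -- the pieces
  set c : ℕ := ∑ i : Fin M, (Finset.Ioi i).card with hc
  have hc2 : 2 * c = M * (M - 1) := by
    have h3 : c = ∑ i : Fin M, (M - 1 - (i : ℕ)) := by
      rw [hc]
      refine Finset.sum_congr rfl fun i _ => ?_
      rw [Fin.card_Ioi]
    rw [h3, Fin.sum_univ_eq_sum_range (fun i => M - 1 - i) M, Finset.sum_range_reflect (fun i => i) M,
      mul_comm, Finset.sum_range_id_mul_two]
  have hconst : ∀ a : ℂ, (∏ i : Fin M, ∏ _j ∈ Finset.Ioi i, a) = a ^ c := by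
    intro a
    simp only [Finset.prod_const]
    rw [Finset.prod_pow_eq_pow_sum]
  set SS : ℝ → ℂ := fun t => ∏ i : Fin M, ∏ j ∈ Finset.Ioi i,
    (Xf (x t i) ^ 2 + Xf (x t i) * Xf (x t j) + Xf (x t j) ^ 2 - 3) ^ 2 with hSS
  set RR : ℝ → ℂ := fun t => ∏ i : Fin M, ∏ j ∈ Finset.Ioi i,
    ((1 + bet (Yr t i)) * (1 + bet (Yr t j))) ^ 2 with hRR
  have hSSt : Tendsto SS l (𝓝 (81 ^ c)) := by
    have h3 : Tendsto SS l (𝓝 (∏ i : Fin M, ∏ _j ∈ Finset.Ioi i,
        ((2 : ℂ) ^ 2 + 2 * 2 + 2 ^ 2 - 3) ^ 2)) := by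
      refine tendsto_finsetProd _ fun i _ => tendsto_finsetProd _ fun j _ => ?_
      exact (((((hXc i).pow 2).add ((hXc i).mul (hXc j))).add ((hXc j).pow 2)).sub_const 3).pow 2
    rw [hconst] at h3
    have h4 : ((2 : ℂ) ^ 2 + 2 * 2 + 2 ^ 2 - 3) ^ 2 = 81 := by norm_num
    rw [h4] at h3
    exact h3
  have hRRt : Tendsto RR l (𝓝 1) := by
    have h3 : Tendsto RR l (𝓝 (∏ i : Fin M, ∏ _j ∈ Finset.Ioi i,
        (((1 : ℂ) + 0) * (1 + 0)) ^ 2)) := by
      refine tendsto_finsetProd _ fun i _ => tendsto_finsetProd _ fun j _ => ?_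
      exact (((hbc i).const_add 1).mul ((hbc j).const_add 1)).pow 2
    rw [hconst] at h3
    have h4 : (((1 : ℂ) + 0) * (1 + 0)) ^ 2 = 1 := by norm_num
    rw [h4, one_pow] at h3
    exact h3
  set P1 : ℝ → ℂ := fun t => ∏ j : Fin M, (1 - 2 * bet (Yr t j)) ^ 2 with hP1d
  set P0 : ℝ → ℂ := fun t => ∏ j : Fin M, (1 + bet (Yr t j)) with hP0d
  set P2 : ℝ → ℂ := fun t => ∏ j : Fin M, (1 + bet (Yr t j)) ^ (2 * k + ε) with hP2d
  have hP1 : Tendsto P1 l (𝓝 1) := by
    have h3 : Tendsto P1 l (𝓝 (∏ _j : Fin M, (1 - 2 * (0 : ℂ)) ^ 2)) :=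
      tendsto_finsetProd _ fun j _ => (((hbc j).const_mul 2).const_sub 1).pow 2
    simpa using h3
  have hP0 : Tendsto P0 l (𝓝 1) := by
    have h3 : Tendsto P0 l (𝓝 (∏ _j : Fin M, (1 + (0 : ℂ)))) :=
      tendsto_finsetProd _ fun j _ => (hbc j).const_add 1
    simpa using h3
  have hP2 : Tendsto P2 l (𝓝 1) := by
    have h3 : Tendsto P2 l (𝓝 (∏ _j : Fin M, (1 + (0 : ℂ)) ^ (2 * k + ε))) :=
      tendsto_finsetProd _ fun j _ => ((hbc j).const_add 1).pow (2 * k + ε)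
    simpa using h3
  obtain ⟨hK1, hK2'⟩ := hK ε k M hε
  have hK2 := hK2' hM
  set W1 : ℝ → ℂ := fun t => (Matrix.of fun i j : Fin M => K1 ε k (bet (Tv t i ^ 2)) (Tv t j)).det
      / (Matrix.vandermonde (fun i : Fin M => bet (Tv t i ^ 2))).det ^ 2 with hW1
  set W2 : ℝ → ℂ := fun t => (Matrix.of fun i j : Fin M => K2 ε k (bet (Tv t i ^ 2)) (Tv t j)).det
      / (Matrix.vandermonde (fun i : Fin M => bet (Tv t i ^ 2))).det ^ 2 with hW2
  have hTv : ∀ t i, Tv t i = ((Tr t i : ℝ) : ℂ) := fun t i => rfl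
  have heq : ∀ᶠ t in l, HH Ψ (List.replicate m 1) [] [] (prs (List.ofFn (x t))) * 81 ^ c =
      P * SS t ^ 2 * RR t ^ 2 * Cc ^ M * P1 t * P0 t * W1 t * W2 t / P2 t := by
    filter_upwards [hpos, e1, e2, e3, e4, e5] with t ht g1' g2' g3 g4 g5
    have hx0 : ∀ i, x t i ≠ 0 := fun i => xY_ne hq _ (hYpos t ht i)
    have hXd : ∀ i j : Fin M, Xf (x t i) - Xf (x t j) =
        3 * (bet (Yr t j) - bet (Yr t i)) / ((1 + bet (Yr t i)) * (1 + bet (Yr t j))) :=
      fun i j => Xf_sub hq _ _ (hYpos t ht i) (hYpos t ht j)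
    have hb1 : ∀ i : ℕ, (1 : ℂ) + bet (Yr t i) ≠ 0 := fun i => bet_ne (hYpos t ht i)
    have hXne : ∀ i j : Fin M, i ≠ j → Xf (x t i) - Xf (x t j) ≠ 0 := by
      intro i j hij
      rw [hXd]
      refine div_ne_zero (mul_ne_zero (by norm_num) ?_) (mul_ne_zero (hb1 _) (hb1 _))
      intro h
      exact hij (Fin.ext (hbinj t ht i j (by linear_combination -h)))
    have hGn : Gn (prs (List.ofFn (x t))) := by
      apply gn_prs
      · intro y hy
        rw [List.mem_ofFn] at hy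
        obtain ⟨i, rfl⟩ := hy
        exact hx0 i
      · intro y hy
        rw [List.mem_ofFn] at hy
        obtain ⟨i, rfl⟩ := hy
        intro h
        have h3 : (x t i - (x t i)⁻¹) * (x t i ^ 2 + x t i * (x t i)⁻¹ + (x t i)⁻¹ ^ 2) = 0 := by
          linear_combination h
        have h4 := (mul_eq_zero.1 h3).resolve_right (g4 i i)
        have h5 : (x t i - 1) * (x t i + 1) = 0 := by
          have h6 : x t i * (x t i)⁻¹ = 1 := mul_inv_cancel₀ (hx0 i)
          linear_combination x t i * h4 + h6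
        have h6 := (mul_eq_zero.1 h5).resolve_right (g5 i)
        have h7 : x t i = 1 := by linear_combination h6
        have h8 := Xf_xY hq _ (hYpos t ht i)
        have h9 : Xf (x t i) = 2 := by rw [h7]; unfold Xf; norm_num
        have h10 : (3 : ℂ) / (1 + bet (Yr t i)) - 1 = 2 := h8.symm.trans h9
        have h11 : bet (Yr t i) = 0 := by
          have := hb1 i
          field_simp at h10
          linear_combination -(1 / 3) * h10
        exact hb0 t ht i h11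
      · rw [List.pairwise_ofFn]
        intro i j hij
        constructor
        · intro h
          have h3 : (x t i - x t j) * (x t i ^ 2 + x t i * x t j + x t j ^ 2) = 0 := by
            linear_combination h
          have h4 := (mul_eq_zero.1 h3).resolve_right (g3 i j)
          have h5 : x t i = x t j := by linear_combination h4
          exact hXne i j hij.ne (by rw [h5, sub_self])
        · intro h
          have h3 : (x t i - (x t j)⁻¹) * (x t i ^ 2 + x t i * (x t j)⁻¹ + (x t j)⁻¹ ^ 2) = 0 := by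
            linear_combination h
          have h4 := (mul_eq_zero.1 h3).resolve_right (g4 i j)
          have h5 : x t i = (x t j)⁻¹ := by linear_combination h4
          apply hXne i j hij.ne
          unfold Xf
          rw [h5, inv_inv]
          ring
    have h1 := hform t hGn
    have hTK := hT ε k M (fun i => Tr t i) (y t) hε
      (fun i => lt_trans one_pos (hT1 t ht i)) (fun i => (hT1 t ht i).ne')
      (fun i => by
        have : y t i ^ 2 = x t i := hrt _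
        rw [this]
        show xY q ((Yr t i : ℝ) : ℂ) = _
        rw [hYT]) g1' g2'
    -- `wdx = vdx * SS`
    have hwd : wdx (x t) = vdx (x t) * SS t := by
      simp only [wdx, vdx, hSS, ← Finset.prod_mul_distrib]
      refine Finset.prod_congr rfl fun i _ => Finset.prod_congr rfl fun j _ => ?_
      rw [cubes _ _ (hx0 i) (hx0 j), mul_pow]
    have hV : (Matrix.vandermonde (fun i : Fin M => bet (Yr t i))).det ≠ 0 := by
      rw [Matrix.det_vandermonde_ne_zero_iff]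
      intro i j hij
      exact Fin.ext (hbinj t ht i j hij)
    have hvd : vdx (x t) * RR t =
        9 ^ c * (Matrix.vandermonde (fun i : Fin M => bet (Yr t i))).det ^ 2 := by
      rw [pow_two (Matrix.vandermonde (fun i : Fin M => bet (Yr t i))).det,
        ← HL.HomogAux.vand_sq, ← hconst]
      simp only [vdx, hRR, ← Finset.prod_mul_distrib]
      refine Finset.prod_congr rfl fun i _ => Finset.prod_congr rfl fun j _ => ?_
      rw [hXd]
      have := hb1 i
      have := hb1 j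
      field_simp
      ring
    have hvne : vdx (x t) ≠ 0 := by
      simp only [vdx]
      refine Finset.prod_ne_zero_iff.2 fun i _ => Finset.prod_ne_zero_iff.2 fun j hj => ?_
      refine pow_ne_zero _ (hXne i j ?_)
      exact (Finset.mem_Ioi.1 hj).ne
    have hPne : P2 t ≠ 0 :=
      Finset.prod_ne_zero_iff.2 fun j _ => pow_ne_zero _ (hb1 _)
    set V : ℂ := (Matrix.vandermonde (fun i : Fin M => bet (Yr t i))).det with hVd
    have hVT : (Matrix.vandermonde (fun i : Fin M => bet (Tv t i ^ 2))).det = V := by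
      rw [hVd]
      congr 2
      funext i
      rw [hTv, hYT]
    have hW1t : W1 t * V ^ 2 =
        (Matrix.of fun i j : Fin M => K1 ε k (bet ((Tr t i : ℂ) ^ 2)) (Tr t j)).det := by
      simp only [hW1]
      rw [hVT]
      exact div_mul_cancel₀ _ (pow_ne_zero 2 hV)
    have hW2t : W2 t * V ^ 2 =
        (Matrix.of fun i j : Fin M => K2 ε k (bet ((Tr t i : ℂ) ^ 2)) (Tr t j)).det := by
      simp only [hW2]
      rw [hVT]
      exact div_mul_cancel₀ _ (pow_ne_zero 2 hV)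
    rw [hwd] at h1
    set G : ℂ := HH Ψ (List.replicate m 1) [] [] (prs (List.ofFn (x t))) with hGd
    set D : ℂ := DT (g1 ε) (List.replicate k 1) (y t) * DT (g2 ε) (List.replicate k 1) (y t)
      with hDd
    have h3 : G * vdx (x t) ^ 2 = P * (SS t ^ 2 * D) := by
      apply mul_left_cancel₀ (pow_ne_zero 2 hvne)
      linear_combination h1
    have hTK' : D * P2 t = Cc ^ M * P1 t * P0 t * ((W1 t * V ^ 2) * (W2 t * V ^ 2)) := by
      rw [hW1t, hW2t]
      have e : ∀ j : Fin M, bet ((Tr t j : ℂ) ^ 2) = bet (Yr t j) := fun j => by rw [hYT]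
      simp only [hP1d, hP0d, hP2d, ← e]
      exact hTK
    have hvd2 : (vdx (x t) * RR t) ^ 2 = 81 ^ c * V ^ 4 := by
      rw [hvd, mul_pow, ← pow_mul, ← pow_mul, mul_comm c 2, pow_mul]
      norm_num
    rw [eq_div_iff hPne]
    apply mul_left_cancel₀ (pow_ne_zero 4 hV)
    linear_combination (-(G * P2 t)) * hvd2 + (RR t ^ 2 * P2 t) * h3
      + (P * SS t ^ 2 * RR t ^ 2) * hTK'
  have hL := (hG.mul_const (81 ^ c)).congr' heq
  have hR : Tendsto (fun t => P * SS t ^ 2 * RR t ^ 2 * Cc ^ M * P1 t * P0 t * W1 t * W2 t / P2 t) l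
      (𝓝 (P * (81 ^ c) ^ 2 * 1 ^ 2 * Cc ^ M * 1 * 1 * (V1 ε k M : ℂ) *
        ((if ε = 0 then 2 else 1) * (V2 ε k (M - 1) : ℂ)) / 1)) :=
    ((((((((hSSt.pow 2).const_mul P).mul (hRRt.pow 2)).mul_const (Cc ^ M)).mul hP1).mul hP0).mul
      hK1).mul hK2).div hP2 one_ne_zero
  have hfin := tendsto_nhds_unique hL hR
  have h9 : (81 : ℂ) ^ c ≠ 0 := pow_ne_zero _ (by norm_num)
  apply mul_right_cancel₀ h9
  rw [hfin]
  have h81 : (81 : ℂ) ^ c = 9 ^ (M * (M - 1)) := by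
    rw [← hc2, pow_mul]
    norm_num
  rw [h81]
  ring

end THVs

open THVs in
theorem t_HVs (h2 : S_M2) (hT : S_TKs) (hK : S_KLs) (hV : S_VV) : S_HVs := by
  intro Ψ hΨ m M hm hM
  obtain ⟨ε, k, hε, hk, hmk⟩ : ∃ ε k : ℕ, ε ≤ 1 ∧ 1 ≤ k ∧ m = 2 * k + ε :=
    ⟨m % 2, m / 2, by omega, by omega, by omega⟩
  have hval := HH_val h2 hT hK hΨ ε k M hε hM
  rw [← hmk] at hval
  have hq : q ^ 2 + q + 1 = 0 := q_spec
  obtain ⟨n1, -, n3, -⟩ := norms hq
  set r : ℝ := Real.sqrt 3 with hr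
  have hr2 : r ^ 2 = 3 := Real.sq_sqrt (by norm_num)
  have hr0 : 0 < r := Real.sqrt_pos.2 (by norm_num)
  -- the determinants
  have hVV : V1 ε k M * ((if ε = 0 then 2 else 1) * V2 ε k (M - 1)) =
      2 ^ M * CR ((m : ℝ) / 2 + 1) M * CR (((m : ℝ) + 5) / 2) (M - 1) := by
    obtain ⟨v1, v2, -, -⟩ := hV k M
    obtain ⟨-, -, v3, v4⟩ := hV k (M - 1)
    have h2M : (2 : ℝ) * 2 ^ (M - 1) = 2 ^ M := by
      rw [← pow_succ']
      congr 1
      omega
    rcases Nat.le_one_iff_eq_zero_or_eq_one.1 hε with h | h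
    · subst h
      rw [v1, v3, if_pos rfl, ← h2M, hmk]
      have e1 : ((2 * k + 0 : ℕ) : ℝ) / 2 + 1 = (k : ℝ) + 1 := by push_cast; ring
      have e2 : (((2 * k + 0 : ℕ) : ℝ) + 5) / 2 = (k : ℝ) + 5 / 2 := by push_cast; ring
      rw [e1, e2]
      ring
    · subst h
      rw [v2 hk, v4, if_neg one_ne_zero, hmk]
      have e1 : ((2 * k + 1 : ℕ) : ℝ) / 2 + 1 = (k : ℝ) + 3 / 2 := by push_cast; ring
      have e2 : (((2 * k + 1 : ℕ) : ℝ) + 5) / 2 = (k : ℝ) + 3 := by push_cast; ring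
      rw [e1, e2]
      ring
  have hmr : (2 : ℝ) ≤ m := by exact_mod_cast hm
  have hc1 : 0 < CR ((m : ℝ) / 2 + 1) M := CR_pos (by linarith) M
  have hc2 : 0 < CR (((m : ℝ) + 5) / 2) (M - 1) := CR_pos (by linarith) (M - 1)
  have hc3 : 0 < CR 3 (M - 1) := CR_pos (by norm_num) (M - 1)
  have hc4 := HB.TPW.Cn_pos (m % 2) (M + m / 2)
  set X : ℝ := 2 ^ M * CR ((m : ℝ) / 2 + 1) M * CR (((m : ℝ) + 5) / 2) (M - 1) with hX
  have hX0 : 0 ≤ X := by positivity
  have nV : ‖(V1 ε k M : ℂ) * ((if ε = 0 then 2 else 1) * (V2 ε k (M - 1) : ℂ))‖ = X := by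
    have e : (V1 ε k M : ℂ) * ((if ε = 0 then 2 else 1) * (V2 ε k (M - 1) : ℂ)) = ((X : ℝ) : ℂ) := by
      rw [← hVV]
      split_ifs <;> push_cast <;> ring
    rw [e, Complex.norm_real, Real.norm_of_nonneg hX0]
  have nkap : ‖kap ε k 0 M‖ = r ^ M * (r ^ k)⁻¹ := by
    unfold kap
    rw [norm_mul, norm_mul, norm_mul, norm_pow, norm_pow, norm_pow, norm_inv, norm_pow, norm_neg,
      norm_one, one_pow, one_mul, n1, one_pow, mul_one, n3]
  have nC : ‖q ^ 2 / (q - 1) * 9 ^ k * (-3 * q) ^ ε‖ = r⁻¹ * 9 ^ k * 3 ^ ε := by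
    rw [norm_mul, norm_mul, norm_div, norm_pow, norm_pow, norm_pow, norm_mul, n1, n3, norm_neg]
    norm_num
  have npf := pfq_norm hq m
  rw [← hr] at npf
  have hHH : ‖HH Ψ (List.replicate m 1) [] [] (List.replicate (2 * M) 1)‖ =
      r ^ M * (r ^ k)⁻¹ * ‖pfq q (List.replicate m 1)‖ *
        (9 ^ (M * (M - 1)) * (r⁻¹ * 9 ^ k * 3 ^ ε) ^ M * X) := by
    rw [hval, norm_mul, norm_mul, norm_mul, norm_mul, nV, nkap, norm_pow, norm_pow, nC]
    norm_num
  set p : ℝ := ‖pfq q (List.replicate m 1)‖ with hp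
  have hp0 : 0 ≤ p := norm_nonneg _
  have hexp := expo m M
  set E : ℕ := (m + 2 * M - 1) ^ 2 / 4 with hE
  have hmk2 : m / 2 = k := by omega
  rw [hmk2] at hexp
  have hab : p * 9 ^ (M * (M - 1)) * (9 ^ k * 3 ^ ε) ^ M = 3 ^ (E + M * (M - 1)) * r ^ k := by
    have h9 : (9 : ℝ) = r ^ 4 := by rw [show (4 : ℕ) = 2 * 2 by norm_num, pow_mul, hr2]; norm_num
    have h0 : 0 ≤ p * 9 ^ (M * (M - 1)) * (9 ^ k * 3 ^ ε) ^ M := by positivity
    have h0' : 0 ≤ 3 ^ (E + M * (M - 1)) * r ^ k := by positivity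
    rw [← sq_eq_sq₀ h0 h0', mul_pow, mul_pow, npf, mul_pow, h9, ← hr2]
    simp only [← pow_mul, ← pow_add]
    congr 1
    have hmM : (4 * k + 2 * ε) * M = 2 * (m * M) := by rw [hmk]; ring
    generalize M * (M - 1) = Q at hexp ⊢
    generalize m * (m - 1) = Q' at hexp ⊢
    generalize m * M = Q'' at hexp hmM
    have : m * (m - 1) = m * (m - 1) := rfl
    nlinarith
  have htot := tot_norm hΨ (m + 2 * M)
  have hd1 : (m + 2 * M) % 2 = m % 2 := by omega
  have hd2 : (m + 2 * M) / 2 = M + m / 2 := by omega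
  rw [hd1, hd2, ← hE] at htot
  have hZ := Zs_norm hV M hM
  rw [hHH, htot, hZ]
  unfold Psl
  rw [← hX]
  have hrk : r ^ k ≠ 0 := pow_ne_zero _ hr0.ne'
  have hrM : r ^ M ≠ 0 := pow_ne_zero _ hr0.ne'
  have e1 : r ^ M * (r ^ k)⁻¹ * p * (9 ^ (M * (M - 1)) * (r⁻¹ * 9 ^ k * 3 ^ ε) ^ M * X) =
      (p * 9 ^ (M * (M - 1)) * (9 ^ k * 3 ^ ε) ^ M) * (r ^ k)⁻¹ * X := by
    have e2 : (r⁻¹ * 9 ^ k * 3 ^ ε) ^ M = (r ^ M)⁻¹ * (9 ^ k * 3 ^ ε) ^ M := by
      rw [mul_assoc, mul_pow, inv_pow]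
    rw [e2]
    field_simp
  rw [e1, hab]
  have e3 : X / (HB.Cn (m % 2) (M + m / 2) * CR 3 (M - 1)) *
      (3 ^ E * HB.Cn (m % 2) (M + m / 2) * (3 ^ (M * (M - 1)) * CR 3 (M - 1))) =
      X * (3 ^ E * 3 ^ (M * (M - 1))) := by
    have := hc4.ne'
    have := hc3.ne'
    field_simp
  rw [e3, pow_add]
  field_simp

end Pool.Agent.W808.KS
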