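import Pool.Agent.W808.KS.Stm
import Pool.Agent.W808.KC.T_KL
import Pool.Agent.W808.KC.T_U

/-!
# KLs: the limits of the two determinants at the homogeneous point, by helper395
-/

set_option autoImplicit false

namespace Pool.Agent.W808.KS
open Pool.Agent.H863R2.Cyl.HomLim (LL LL_add LL_smul LL_sum LL_mono det_LL det_vandermonde_smul)
open Filter Topology Matrix
open Pool.Agent.W808.HB (bet)
open Pool.Agent.W808.HB.KL (ep Path tendsto_t tendsto_eps eventually_pos eventually_ne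
  tendsto_pow_mul tendsto_mono tendsto_rem path_of aa)
open Pool.Agent.W808.KC (uc Kf)
open Pool.Agent.W808.KC.TKL (uc_zero Rm Kf_expand)

namespace TKLs

/-! ### the points -/

lemma Tv_eq (t : ℝ) (i : ℕ) : Tv t i = 1 + t * (i + 1) := by
  unfold Tv; push_cast; ring

lemma Tv_tendsto (i : ℕ) : Tendsto (fun t => Tv t i) (𝓝[>] 0) (𝓝 1) := by
  have h := (tendsto_t.mul_const ((i : ℂ) + 1)).const_add 1
  simp only [zero_mul, add_zero] at h
  exact h.congr fun t => (Tv_eq t i).symm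

lemma Tv_ne {t : ℝ} (ht : 0 < t) (i : ℕ) : Tv t i ≠ 0 := by
  unfold Tv
  have : (0 : ℝ) < 1 + t * (i + 1) := by positivity
  exact_mod_cast this.ne'

lemma Tv_ne1 {t : ℝ} (ht : 0 < t) (i : ℕ) : Tv t i - 1 ≠ 0 := by
  have : Tv t i - 1 = ((t * (i + 1) : ℝ) : ℂ) := by rw [Tv_eq]; push_cast; ring
  rw [this]
  have : (0 : ℝ) < t * (i + 1) := by positivity
  exact_mod_cast this.ne'

lemma Tv_ne2 {t : ℝ} (ht : 0 < t) (i : ℕ) : Tv t i + 1 ≠ 0 := by
  have : Tv t i + 1 = ((2 + t * (i + 1) : ℝ) : ℂ) := by rw [Tv_eq]; push_cast; ring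
  rw [this]
  have : (0 : ℝ) < 2 + t * (i + 1) := by positivity
  exact_mod_cast this.ne'

lemma Tv_ne3 {t : ℝ} (ht : 0 < t) (i : ℕ) : Tv t i ^ 2 + 1 ≠ 0 := by
  have : Tv t i ^ 2 + 1 = (((1 + t * (i + 1)) ^ 2 + 1 : ℝ) : ℂ) := by
    unfold Tv; push_cast; ring
  rw [this]
  have : (0 : ℝ) < (1 + t * (i + 1)) ^ 2 + 1 := by positivity
  exact_mod_cast this.ne'

/-- the scaled points -/
noncomputable def al2 {M : ℕ} (t : ℝ) (i : Fin M) : ℂ :=
  ((i : ℕ) + 1 : ℂ) ^ 2 * ((Tv t i + 1) / Tv t i) ^ 2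

lemma bet_eq {M : ℕ} (t : ℝ) (i : Fin M) : bet (Tv t i ^ 2) = ep t * al2 t i := by
  unfold bet al2 ep
  have h1 : Tv t i - 1 = t * ((i : ℕ) + 1) := by rw [Tv_eq]; ring
  have h2 : (Tv t i ^ 2 - 1) ^ 2 = (t * ((i : ℕ) + 1)) ^ 2 * (Tv t i + 1) ^ 2 := by
    rw [← h1]; ring
  rw [h2, div_pow]
  ring

lemma al2_tendsto {M : ℕ} (i : Fin M) :
    Tendsto (fun t => al2 t i) (𝓝[>] 0) (𝓝 (((i : ℕ) + 1 : ℂ) ^ 2 * ((1 + 1) / 1) ^ 2)) :=
  ((((Tv_tendsto i).add_const 1).div (Tv_tendsto i) one_ne_zero).pow 2).const_mul _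

lemma al2_inj {M : ℕ} :
    Function.Injective (fun i : Fin M => (((i : ℕ) + 1 : ℂ) ^ 2 * ((1 + 1) / 1) ^ 2)) := by
  intro i j h
  have h0 : (((i : ℕ) + 1 : ℂ) ^ 2) = (((j : ℕ) + 1 : ℂ) ^ 2) :=
    mul_right_cancel₀ (b := (((1 : ℂ) + 1) / 1) ^ 2) (by norm_num) h
  exact Pool.Agent.W808.HB.KL.al_inj h0

lemma bet_tendsto (i : ℕ) : Tendsto (fun t => bet (Tv t i ^ 2)) (𝓝[>] 0) (𝓝 0) := by
  have h := ((((Tv_tendsto i).pow 2).sub_const 1).pow 2).div ((Tv_tendsto i).pow 2)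
    (by norm_num)
  have e : (((1 : ℂ) ^ 2 - 1) ^ 2 / 1 ^ 2) = 0 := by norm_num
  rw [e] at h
  exact h

/-! ### the remainder -/

lemma Rm_tendsto2 (m K : ℕ) (hK : 0 < K) (i j : ℕ) :
    ∃ r0, Tendsto (fun t => Rm m K (bet (Tv t i ^ 2)) (Tv t j ^ 2)) (𝓝[>] 0) (𝓝 r0) := by
  have hY : Tendsto (fun t => Tv t j ^ 2) (𝓝[>] 0) (𝓝 1) := by
    simpa using (Tv_tendsto j).pow 2
  have hYi : Tendsto (fun t => (Tv t j ^ 2)⁻¹) (𝓝[>] 0) (𝓝 1) := by
    simpa using hY.inv₀ one_ne_zero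
  have hb := bet_tendsto i
  have ha : Tendsto (fun t => aa (Tv t j ^ 2)) (𝓝[>] 0) (𝓝 0) := by
    have h1 := hY.mul (hY.sub_const 1)
    simp only [sub_self, mul_zero] at h1
    exact h1
  have ha' : Tendsto (fun t => aa (Tv t j ^ 2)⁻¹) (𝓝[>] 0) (𝓝 0) := by
    have h1 := hYi.mul (hYi.sub_const 1)
    simp only [sub_self, mul_zero] at h1
    exact h1
  -- the quotients by `Y - 1/Y`
  have hq : Tendsto (fun t => (Tv t j ^ 2) ^ 2 / (Tv t j ^ 2 + 1)) (𝓝[>] 0)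
      (𝓝 (1 ^ 2 / (1 + 1))) := (hY.pow 2).div (hY.add_const 1) (by norm_num)
  have hq' : Tendsto (fun t => (Tv t j ^ 2)⁻¹ / (Tv t j ^ 2 + 1)) (𝓝[>] 0) (𝓝 (1 / (1 + 1))) :=
    hYi.div (hY.add_const 1) (by norm_num)
  have h1 : Tendsto (fun t => 1 - bet (Tv t i ^ 2) * aa (Tv t j ^ 2)) (𝓝[>] 0) (𝓝 1) := by
    have := (hb.mul ha).const_sub 1
    simpa using this
  have h2 : Tendsto (fun t => 1 - bet (Tv t i ^ 2) * aa (Tv t j ^ 2)⁻¹) (𝓝[>] 0) (𝓝 1) := by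
    have := (hb.mul ha').const_sub 1
    simpa using this
  refine ⟨_, Tendsto.congr' ?_ ((((hY.pow (m + 1)).mul
    ((ha.pow (K - 1)).mul (h1.inv₀ one_ne_zero))).mul hq).add
    (((hYi.pow (m + 1)).mul
    ((ha'.pow (K - 1)).mul (h2.inv₀ one_ne_zero))).mul hq'))⟩
  filter_upwards [eventually_pos] with t ht
  obtain ⟨K', rfl⟩ : ∃ K', K = K' + 1 := ⟨K - 1, by omega⟩
  have hY0 : Tv t j ^ 2 ≠ 0 := pow_ne_zero _ (Tv_ne ht j)
  have hY1 : Tv t j ^ 2 - 1 ≠ 0 := by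
    have : Tv t j ^ 2 - 1 = (Tv t j - 1) * (Tv t j + 1) := by ring
    rw [this]
    exact mul_ne_zero (Tv_ne1 ht j) (Tv_ne2 ht j)
  have hY2 : Tv t j ^ 2 + 1 ≠ 0 := Tv_ne3 ht j
  unfold Rm
  simp only [Nat.add_sub_cancel]
  generalize hYY : Tv t j ^ 2 = Y at hY0 hY1 hY2 ⊢
  have e1 : Y - Y⁻¹ = (Y - 1) * (Y + 1) * Y⁻¹ := by field_simp; ring
  have e2 : aa Y = Y * (Y - 1) := rfl
  have e3 : aa Y⁻¹ = -(Y⁻¹ ^ 2 * (Y - 1)) := by
    unfold aa
    field_simp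
    ring
  have e4 : aa Y ^ (K' + 1) / (Y - Y⁻¹) = aa Y ^ K' * (Y ^ 2 / (Y + 1)) := by
    rw [pow_succ, e1]
    nth_rewrite 2 [e2]
    field_simp
  have e5 : aa Y⁻¹ ^ (K' + 1) / (Y - Y⁻¹) = -(aa Y⁻¹ ^ K' * (Y⁻¹ / (Y + 1))) := by
    rw [pow_succ, e1]
    nth_rewrite 2 [e3]
    field_simp
  have e6 : ∀ p r u v : ℂ, (p * (aa Y ^ (K' + 1) * u) - r * (aa Y⁻¹ ^ (K' + 1) * v)) / (Y - Y⁻¹) =
      p * u * (aa Y ^ (K' + 1) / (Y - Y⁻¹)) - r * v * (aa Y⁻¹ ^ (K' + 1) / (Y - Y⁻¹)) := by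
    intro p r u v
    ring
  rw [e6, e4, e5]
  ring

lemma Y_sub {t : ℝ} (ht : 0 < t) (j : ℕ) : Tv t j ^ 2 - (Tv t j ^ 2)⁻¹ ≠ 0 := by
  have h0 := Tv_ne ht j
  have h1 := Tv_ne1 ht j
  have h2 := Tv_ne2 ht j
  have h3 := Tv_ne3 ht j
  have e : Tv t j ^ 2 - (Tv t j ^ 2)⁻¹ =
      (Tv t j - 1) * (Tv t j + 1) * (Tv t j ^ 2 + 1) * (Tv t j ^ 2)⁻¹ := by
    field_simp
    ring
  rw [e]
  exact mul_ne_zero (mul_ne_zero (mul_ne_zero h1 h2) h3) (inv_ne_zero (pow_ne_zero _ h0))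

lemma den_ne (M : ℕ) : ∀ᶠ t in 𝓝[>] (0 : ℝ), ∀ i j : Fin M,
    1 - bet (Tv t i ^ 2) * aa (Tv t j ^ 2) ≠ 0 ∧
    1 - bet (Tv t i ^ 2) * aa (Tv t j ^ 2)⁻¹ ≠ 0 := by
  rw [eventually_all]; intro i; rw [eventually_all]; intro j
  have hY : Tendsto (fun t => Tv t j ^ 2) (𝓝[>] 0) (𝓝 1) := by
    simpa using (Tv_tendsto j).pow 2
  have hYi : Tendsto (fun t => (Tv t j ^ 2)⁻¹) (𝓝[>] 0) (𝓝 1) := by
    simpa using hY.inv₀ one_ne_zero
  have h1 := ((bet_tendsto i).mul (hY.mul (hY.sub_const 1))).const_sub 1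
  simp only [zero_mul, sub_zero] at h1
  have h2 := ((bet_tendsto i).mul (hYi.mul (hYi.sub_const 1))).const_sub 1
  simp only [zero_mul, sub_zero] at h2
  filter_upwards [h1.eventually_ne one_ne_zero, h2.eventually_ne one_ne_zero] with t e1 e2
  exact ⟨e1, e2⟩

/-! ### expansions -/

/-- an expansion in the scaled points, up to the order `2 M` -/
def Ex2 (M : ℕ) (c : ℕ → ℕ → ℂ) (F : ℝ → Fin M → Fin M → ℂ) : Prop :=
  ∃ (R : ℕ) (ρ : ℝ → Fin M → Fin M → ℂ),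
    (∀ i j, ∃ r0, Tendsto (fun t => ρ t i j) (𝓝[>] 0) (𝓝 r0)) ∧
    (∀ p r, p < 2 * M → R ≤ r → c p r = 0) ∧
    ∀ᶠ t in 𝓝[>] (0 : ℝ), ∀ i j, F t i j =
      (∑ p ∈ Finset.range (2 * M), ∑ r ∈ Finset.range R,
        c p r * ((ep t * al2 t i) ^ p * (ep t * al2 t j) ^ r)) + ep t ^ (2 * M) * ρ t i j

lemma ext_sum {N : ℕ} {c : ℕ → ℕ → ℂ} {R R' : ℕ} (h : R ≤ R')
    (hc : ∀ p r, p < N → R ≤ r → c p r = 0) (x y : ℂ) :
    (∑ p ∈ Finset.range N, ∑ r ∈ Finset.range R, c p r * (x ^ p * y ^ r)) =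
    ∑ p ∈ Finset.range N, ∑ r ∈ Finset.range R', c p r * (x ^ p * y ^ r) := by
  refine Finset.sum_congr rfl fun p hp => ?_
  refine Finset.sum_subset (Finset.range_mono h) fun r _ hr => ?_
  rw [hc p r (Finset.mem_range.1 hp) (by simpa using hr), zero_mul]

lemma Ex2.add {M : ℕ} {c1 c2 : ℕ → ℕ → ℂ} {F1 F2 : ℝ → Fin M → Fin M → ℂ}
    (h1 : Ex2 M c1 F1) (h2 : Ex2 M c2 F2) :
    Ex2 M (fun p r => c1 p r + c2 p r) (fun t i j => F1 t i j + F2 t i j) := by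
  obtain ⟨R1, ρ1, a1, b1, e1⟩ := h1
  obtain ⟨R2, ρ2, a2, b2, e2⟩ := h2
  refine ⟨max R1 R2, fun t i j => ρ1 t i j + ρ2 t i j, fun i j => ?_, fun p r hp hr => ?_, ?_⟩
  · obtain ⟨x, hx⟩ := a1 i j
    obtain ⟨y, hy⟩ := a2 i j
    exact ⟨_, hx.add hy⟩
  · show c1 p r + c2 p r = 0
    rw [b1 p r hp (le_trans (le_max_left _ _) hr), b2 p r hp (le_trans (le_max_right _ _) hr),
      add_zero]
  · filter_upwards [e1, e2] with t f1 f2 i j
    rw [f1 i j, f2 i j, ext_sum (le_max_left R1 R2) b1, ext_sum (le_max_right R1 R2) b2]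
    have e : (∑ p ∈ Finset.range (2 * M), ∑ r ∈ Finset.range (max R1 R2),
        (c1 p r + c2 p r) * ((ep t * al2 t i) ^ p * (ep t * al2 t j) ^ r)) =
       (∑ p ∈ Finset.range (2 * M), ∑ r ∈ Finset.range (max R1 R2),
        c1 p r * ((ep t * al2 t i) ^ p * (ep t * al2 t j) ^ r)) +
       ∑ p ∈ Finset.range (2 * M), ∑ r ∈ Finset.range (max R1 R2),
        c2 p r * ((ep t * al2 t i) ^ p * (ep t * al2 t j) ^ r) := by
      rw [← Finset.sum_add_distrib]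
      refine Finset.sum_congr rfl fun p _ => ?_
      rw [← Finset.sum_add_distrib]
      refine Finset.sum_congr rfl fun r _ => ?_
      ring
    rw [e]
    ring

lemma Ex2.congr {M : ℕ} {c c' : ℕ → ℕ → ℂ} {F G : ℝ → Fin M → Fin M → ℂ} (h : Ex2 M c F)
    (hc : ∀ p r, c' p r = c p r)
    (hF : ∀ᶠ t in 𝓝[>] (0 : ℝ), ∀ i j, G t i j = F t i j) : Ex2 M c' G := by
  obtain rfl : c' = c := by
    funext p r
    exact hc p r
  obtain ⟨R, ρ, a, b, e⟩ := h
  refine ⟨R, ρ, a, b, ?_⟩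
  filter_upwards [e, hF] with t f1 f2 i j
  rw [f2 i j, f1 i j]

lemma ex_Kf (M m : ℕ) : Ex2 M (fun p r => (uc m p r : ℂ))
    (fun t i j => Kf m (bet (Tv t i ^ 2)) (Tv t j ^ 2)) := by
  refine ⟨m + 4 * M + 1,
    fun t i j => al2 t i ^ (2 * M) * Rm m (2 * M) (bet (Tv t i ^ 2)) (Tv t j ^ 2),
    fun i j => ?_, fun p r hp hr => ?_, ?_⟩
  · obtain ⟨r0, hr0⟩ := Rm_tendsto2 m (2 * M) (by have := i.2; omega) i j
    exact ⟨_, ((al2_tendsto i).pow (2 * M)).mul hr0⟩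
  · show (uc m p r : ℂ) = 0
    rw [uc_zero (by omega), Nat.cast_zero]
  · filter_upwards [den_ne M, eventually_pos] with t e1 ht i j
    rw [Kf_expand Pool.Agent.W808.KC.t_U m (2 * M) _ _ (pow_ne_zero _ (Tv_ne ht j)) (Y_sub ht j)
      (e1 i j).1 (e1 i j).2]
    have e2 : (∑ k ∈ Finset.range (2 * M), ∑ l ∈ Finset.range (m + 2 * k + 1),
        (uc m k l : ℂ) * (bet (Tv t i ^ 2) ^ k * bet (Tv t j ^ 2) ^ l)) =
        ∑ p ∈ Finset.range (2 * M), ∑ r ∈ Finset.range (m + 4 * M + 1),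
          (uc m p r : ℂ) * ((ep t * al2 t i) ^ p * (ep t * al2 t j) ^ r) := by
      refine Finset.sum_congr rfl fun p hp => ?_
      have hp' := Finset.mem_range.1 hp
      rw [← bet_eq t i, ← bet_eq t j]
      refine Finset.sum_subset (Finset.range_mono (by omega)) fun r _ hr => ?_
      rw [uc_zero (by simpa using hr), Nat.cast_zero, zero_mul]
    rw [e2]
    have e3 : bet (Tv t i ^ 2) ^ (2 * M) = ep t ^ (2 * M) * al2 t i ^ (2 * M) := by
      rw [bet_eq t i, mul_pow]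
    rw [e3]
    ring

/-- the coefficients of `b * β * K` -/
def sh (c : ℕ → ℕ → ℂ) : ℕ → ℕ → ℂ
  | 0, _ => 0
  | _ + 1, 0 => 0
  | p + 1, r + 1 => c p r

lemma ex_bK (M m : ℕ) (hM : 1 ≤ M) : Ex2 M (sh (fun p r => (uc m p r : ℂ)))
    (fun t i j => bet (Tv t i ^ 2) * bet (Tv t j ^ 2) *
      Kf m (bet (Tv t i ^ 2)) (Tv t j ^ 2)) := by
  obtain ⟨K, hK⟩ : ∃ K, 2 * M = K + 1 := ⟨2 * M - 1, by omega⟩
  refine ⟨m + 4 * M + 2,
    fun t i j => al2 t i ^ (2 * M) * (bet (Tv t j ^ 2) * Rm m K (bet (Tv t i ^ 2)) (Tv t j ^ 2)),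
    fun i j => ?_, fun p r hp hr => ?_, ?_⟩
  · obtain ⟨r0, hr0⟩ := Rm_tendsto2 m K (by omega) i j
    exact ⟨_, ((al2_tendsto i).pow (2 * M)).mul ((bet_tendsto j).mul hr0)⟩
  · cases p with
    | zero => rfl
    | succ p =>
      cases r with
      | zero => rfl
      | succ r =>
        show (uc m p r : ℂ) = 0
        rw [uc_zero (by omega), Nat.cast_zero]
  · filter_upwards [den_ne M, eventually_pos] with t e1 ht i j
    rw [Kf_expand Pool.Agent.W808.KC.t_U m K _ _ (pow_ne_zero _ (Tv_ne ht j)) (Y_sub ht j)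
      (e1 i j).1 (e1 i j).2]
    have e2 : (∑ p ∈ Finset.range (2 * M), ∑ r ∈ Finset.range (m + 4 * M + 2),
          sh (fun p r => (uc m p r : ℂ)) p r * ((ep t * al2 t i) ^ p * (ep t * al2 t j) ^ r)) =
        bet (Tv t i ^ 2) * bet (Tv t j ^ 2) *
        (∑ k ∈ Finset.range K, ∑ l ∈ Finset.range (m + 2 * k + 1),
        (uc m k l : ℂ) * (bet (Tv t i ^ 2) ^ k * bet (Tv t j ^ 2) ^ l)) := by
      rw [hK, Finset.sum_range_succ']
      have z0 : (∑ r ∈ Finset.range (m + 4 * M + 2),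
          sh (fun p r => (uc m p r : ℂ)) 0 r *
            ((ep t * al2 t i) ^ 0 * (ep t * al2 t j) ^ r)) = 0 := by
        refine Finset.sum_eq_zero fun r _ => ?_
        show (0 : ℂ) * _ = 0
        rw [zero_mul]
      rw [z0, add_zero, Finset.mul_sum]
      refine Finset.sum_congr rfl fun p hp => ?_
      have hp' := Finset.mem_range.1 hp
      rw [show m + 4 * M + 2 = (m + 4 * M + 1) + 1 from rfl, Finset.sum_range_succ']
      have z1 : sh (fun p r => (uc m p r : ℂ)) (p + 1) 0 *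
            ((ep t * al2 t i) ^ (p + 1) * (ep t * al2 t j) ^ 0) = 0 := by
        show (0 : ℂ) * _ = 0
        rw [zero_mul]
      rw [z1, add_zero, ← bet_eq t i, ← bet_eq t j]
      have z2 : (∑ l ∈ Finset.range (m + 2 * p + 1),
          (uc m p l : ℂ) * (bet (Tv t i ^ 2) ^ p * bet (Tv t j ^ 2) ^ l)) =
          ∑ l ∈ Finset.range (m + 4 * M + 1),
          (uc m p l : ℂ) * (bet (Tv t i ^ 2) ^ p * bet (Tv t j ^ 2) ^ l) := by
        refine Finset.sum_subset (Finset.range_mono (by omega)) fun r _ hr => ?_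
        rw [uc_zero (by simpa using hr), Nat.cast_zero, zero_mul]
      rw [z2, Finset.mul_sum]
      refine Finset.sum_congr rfl fun r _ => ?_
      show (uc m p r : ℂ) * _ = _
      ring
    rw [e2]
    have e3 : bet (Tv t i ^ 2) * bet (Tv t i ^ 2) ^ K = ep t ^ (2 * M) * al2 t i ^ (2 * M) := by
      rw [← pow_succ', ← hK, bet_eq t i, mul_pow]
    linear_combination (bet (Tv t j ^ 2) * Rm m K (bet (Tv t i ^ 2)) (Tv t j ^ 2)) * e3

lemma ex_poly (M : ℕ) (hM : 1 ≤ M) (P : Polynomial ℂ) :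
    Ex2 M (fun p r => if p = 0 then P.coeff r else 0)
    (fun t _ j => P.eval (bet (Tv t j ^ 2))) := by
  obtain ⟨K, hK⟩ : ∃ K, 2 * M = K + 1 := ⟨2 * M - 1, by omega⟩
  refine ⟨P.natDegree + 1, fun _ _ _ => 0, fun i j => ⟨0, tendsto_const_nhds⟩,
    fun p r hp hr => ?_, Eventually.of_forall fun t i j => ?_⟩
  · show (if p = 0 then P.coeff r else 0) = 0
    rw [Polynomial.coeff_eq_zero_of_natDegree_lt (by omega), ite_self]
  · show Polynomial.eval (bet (Tv t j ^ 2)) P = _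
    rw [hK, Finset.sum_range_succ', mul_zero, add_zero, Finset.sum_eq_zero, zero_add,
      Polynomial.eval_eq_sum_range, bet_eq t j]
    · refine Finset.sum_congr rfl fun r _ => ?_
      show _ = P.coeff r * _
      rw [pow_zero, one_mul]
    · intro p _
      refine Finset.sum_eq_zero fun r _ => ?_
      show (if p + 1 = 0 then P.coeff r else 0) * _ = 0
      rw [if_neg (Nat.succ_ne_zero p), zero_mul]

/-! ### the limit of the determinant -/

theorem glim {M : ℕ} {c : ℕ → ℕ → ℂ} {F : ℝ → Fin M → Fin M → ℂ} (h : Ex2 M c F) :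
    Tendsto (fun t : ℝ => (Matrix.of (F t)).det
        / (Matrix.vandermonde (fun i : Fin M => bet (Tv t i ^ 2))).det ^ 2) (𝓝[>] 0)
    (𝓝 (Matrix.of fun k l : Fin M => c k l).det) := by
  obtain ⟨R, ρ, hρ, hR, hF⟩ := h
  have hP : Path (fun t => (vandermonde (al2 (M := M) t))⁻¹) (fun t => al2 t) :=
    path_of al2_tendsto al2_inj
  set A : ℝ → Matrix (Fin M) (Fin M) ℂ := fun t => (vandermonde (al2 (M := M) t))⁻¹ with hA
  -- the entries
  have hlim : ∀ k l : Fin M, Tendsto (fun t => LL (A t) (A t) (ep t) k l (F t)) (𝓝[>] 0)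
      (𝓝 (c k l)) := by
    intro k l
    have h1 : Tendsto (fun t => ∑ p ∈ Finset.range (2 * M), ∑ r ∈ Finset.range R,
        c p r * LL (A t) (A t) (ep t) k l
          (fun i j => (ep t * al2 t i) ^ p * (ep t * al2 t j) ^ r)) (𝓝[>] 0)
        (𝓝 (c k l)) := by
      have h2 := tendsto_finsetSum (Finset.range (2 * M)) (fun p _ =>
        tendsto_finsetSum (Finset.range R) (fun r _ =>
          (tendsto_mono hP k l p r).const_mul (c p r)))
      have h3 : (∑ p ∈ Finset.range (2 * M), ∑ r ∈ Finset.range R,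
          c p r * (if (k : ℕ) = p ∧ (l : ℕ) = r then (1 : ℂ) else 0)) = c k l := by
        rw [Finset.sum_eq_single (k : ℕ)]
        · by_cases hl : (l : ℕ) < R
          · rw [Finset.sum_eq_single (l : ℕ)]
            · rw [if_pos ⟨rfl, rfl⟩, mul_one]
            · intro b _ hb
              rw [if_neg (fun h' => hb h'.2.symm), mul_zero]
            · intro h'
              exact absurd (Finset.mem_range.2 hl) h'
          · rw [hR k l (by have := k.2; omega) (not_lt.1 hl)]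
            apply Finset.sum_eq_zero
            intro r hr
            rw [if_neg, mul_zero]
            rintro ⟨-, h'⟩
            apply hl
            rw [h']
            exact Finset.mem_range.1 hr
        · intro b _ hb
          apply Finset.sum_eq_zero
          intro r _
          rw [if_neg (fun h' => hb h'.1.symm), mul_zero]
        · intro h'
          exfalso
          apply h'
          rw [Finset.mem_range]
          have := k.2
          omega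
      rw [h3] at h2
      exact h2
    have h3 := tendsto_rem hP k l ρ hρ
    have h4 := h1.add h3
    rw [add_zero] at h4
    apply h4.congr'
    filter_upwards [hF] with t e
    have e3 : F t = fun i j : Fin M =>
        (∑ p ∈ Finset.range (2 * M), ∑ r ∈ Finset.range R,
          c p r * ((ep t * al2 t i) ^ p * (ep t * al2 t j) ^ r)) +
        ep t ^ (2 * M) * ρ t i j := by
      funext i j
      exact e i j
    rw [e3, LL_add, LL_sum]
    congr 1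
    refine Finset.sum_congr rfl fun p _ => ?_
    rw [LL_sum]
    refine Finset.sum_congr rfl fun r _ => ?_
    rw [LL_smul]
  have hdetlim : Tendsto (fun t => (Matrix.of fun k l : Fin M =>
      LL (A t) (A t) (ep t) k l (F t)).det) (𝓝[>] 0)
      (𝓝 (Matrix.of fun k l : Fin M => c k l).det) := by
    refine ((Continuous.matrix_det continuous_id).tendsto _).comp ?_
    apply tendsto_pi_nhds.mpr; intro k
    apply tendsto_pi_nhds.mpr; intro l
    exact hlim k l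
  apply hdetlim.congr'
  have hV : Tendsto (fun t => (vandermonde (al2 (M := M) t)).det) (𝓝[>] 0)
      (𝓝 (vandermonde (fun i : Fin M => (((i : ℕ) + 1 : ℂ) ^ 2 * ((1 + 1) / 1) ^ 2))).det) := by
    refine ((Continuous.matrix_det continuous_id).tendsto _).comp ?_
    apply tendsto_pi_nhds.mpr; intro i
    apply tendsto_pi_nhds.mpr; intro j
    exact (al2_tendsto i).pow _
  have hV0 : (vandermonde (fun i : Fin M =>
      (((i : ℕ) + 1 : ℂ) ^ 2 * ((1 + 1) / 1) ^ 2))).det ≠ 0 :=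
    det_vandermonde_ne_zero_iff.mpr al2_inj
  filter_upwards [hP.inv, eventually_ne, hV.eventually_ne hV0] with t h1 h2 h3
  have h4 : (Matrix.of (F t)).det = _ :=
    det_LL (A t) (A t) (vandermonde (al2 t)) (vandermonde (al2 t)) h1 h1 h2 (F t)
  have h5 : (vandermonde (fun i : Fin M => bet (Tv t i ^ 2))).det =
      (∏ k : Fin M, ep t ^ (k : ℕ)) * (vandermonde (al2 (M := M) t)).det := by
    rw [← det_vandermonde_smul]
    congr 2
    funext i
    exact bet_eq t i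
  have h6 : (∏ k : Fin M, ep t ^ (k : ℕ)) ≠ 0 :=
    Finset.prod_ne_zero_iff.2 fun k _ => pow_ne_zero _ h2
  show _ = (Matrix.of (F t)).det / (vandermonde (fun i : Fin M => bet (Tv t i ^ 2))).det ^ 2
  rw [h4, h5]
  field_simp

/-! ### the kernels -/

lemma K1_zero (k : ℕ) (b T : ℂ) : K1 0 k b T = Kf k b (T ^ 2) := by
  unfold K1 Kf
  rw [pow_zero, mul_one, ← pow_mul, ← inv_pow, ← pow_mul,
    show 2 + 2 * k + 0 = 2 * (k + 1) by ring]

lemma K1_one (k : ℕ) (b T : ℂ) (hT : T ≠ 0) :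
    K1 1 k b T = Kf (k + 1) b (T ^ 2) + Kf k b (T ^ 2) := by
  unfold K1 Kf
  rw [← inv_pow]
  have hi : T * T⁻¹ = 1 := mul_inv_cancel₀ hT
  generalize T⁻¹ = S at hi ⊢
  have h1 : T ^ (2 + 2 * k + 1) * (T + S) ^ 1 = (T ^ 2) ^ (k + 1 + 1) + (T ^ 2) ^ (k + 1) := by
    rw [← pow_mul, ← pow_mul, show 2 + 2 * k + 1 = 2 * (k + 1) + 1 by ring,
      show 2 * (k + 1 + 1) = 2 * (k + 1) + 2 by ring, pow_succ T (2 * (k + 1)),
      pow_add T (2 * (k + 1)) 2]
    linear_combination T ^ (2 * (k + 1)) * hi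
  have h2 : S ^ (2 + 2 * k + 1) * (T + S) ^ 1 = (S ^ 2) ^ (k + 1 + 1) + (S ^ 2) ^ (k + 1) := by
    rw [← pow_mul, ← pow_mul, show 2 + 2 * k + 1 = 2 * (k + 1) + 1 by ring,
      show 2 * (k + 1 + 1) = 2 * (k + 1) + 2 by ring, pow_succ S (2 * (k + 1)),
      pow_add S (2 * (k + 1)) 2]
    linear_combination S ^ (2 * (k + 1)) * hi
  rw [← add_div, div_mul_eq_mul_div]
  congr 1
  rw [sub_mul, div_mul_eq_mul_div, div_mul_eq_mul_div, h1, h2]
  ring

/-- the polynomials of the first row -/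
noncomputable def Pc (ε : ℕ) : ℕ → Polynomial ℂ
  | 0 => if ε = 0 then 2 else 1
  | 1 => if ε = 0 then Polynomial.X + 2 else Polynomial.X + 1
  | n + 2 => (Polynomial.X + 2) * Pc ε (n + 1) - Pc ε n

lemma bet_sq {T : ℂ} (hT : T ≠ 0) : bet (T ^ 2) = (T - T⁻¹) ^ 2 := by
  unfold bet
  field_simp

lemma Pc_eval {ε : ℕ} (hε : ε ≤ 1) {T : ℂ} (hT : T ≠ 0) (h2 : T + T⁻¹ ≠ 0) (n : ℕ) :
    (Pc ε n).eval (bet (T ^ 2)) = (T ^ (2 * n + ε) + T⁻¹ ^ (2 * n + ε)) / (T + T⁻¹) ^ ε ∧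
    (Pc ε (n + 1)).eval (bet (T ^ 2)) =
      (T ^ (2 * (n + 1) + ε) + T⁻¹ ^ (2 * (n + 1) + ε)) / (T + T⁻¹) ^ ε := by
  rw [bet_sq hT]
  have hi : T * T⁻¹ = 1 := mul_inv_cancel₀ hT
  generalize T⁻¹ = S at hi h2 ⊢
  induction n with
  | zero =>
    obtain rfl | rfl : ε = 0 ∨ ε = 1 := by omega
    · refine ⟨?_, ?_⟩
      · simp only [Pc, if_true]
        norm_num
      · simp only [Pc, if_true]
        simp only [Polynomial.eval_add, Polynomial.eval_X, Polynomial.eval_ofNat]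
        norm_num
        linear_combination (-2) * hi
    · refine ⟨?_, ?_⟩
      · simp only [Pc, one_ne_zero, if_false]
        norm_num
        rw [div_self h2]
      · simp only [Pc, one_ne_zero, if_false]
        simp only [Polynomial.eval_add, Polynomial.eval_X, Polynomial.eval_one]
        rw [eq_div_iff (pow_ne_zero _ h2)]
        norm_num
        linear_combination (-(T + S)) * hi
  | succ n ih =>
    refine ⟨ih.2, ?_⟩
    have e : Pc ε (n + 1 + 1) = (Polynomial.X + 2) * Pc ε (n + 1) - Pc ε n := rfl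
    rw [e, Polynomial.eval_sub, Polynomial.eval_mul, ih.1, ih.2]
    simp only [Polynomial.eval_add, Polynomial.eval_X, Polynomial.eval_ofNat]
    rw [mul_div_assoc', ← sub_div]
    congr 1
    rw [show 2 * (n + 1) + ε = (2 * n + ε) + 2 by ring,
      show 2 * (n + 1 + 1) + ε = (2 * n + ε) + 4 by ring]
    generalize 2 * n + ε = s
    rw [pow_add T s 2, pow_add S s 2, pow_add T s 4, pow_add S s 4]
    linear_combination (T ^ s * (-2 * T ^ 2 + T * S + 1) + S ^ s * (-2 * S ^ 2 + T * S + 1)) * hi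

lemma Pc_zero {ε : ℕ} (hε : ε ≤ 1) (n : ℕ) : (Pc ε n).coeff 0 = (if ε = 0 then 2 else 1) ∧
    (Pc ε (n + 1)).coeff 0 = (if ε = 0 then 2 else 1) := by
  simp only [Polynomial.coeff_zero_eq_eval_zero]
  induction n with
  | zero =>
    obtain rfl | rfl : ε = 0 ∨ ε = 1 := by omega
    · simp [Pc]
    · simp [Pc]
  | succ n ih =>
    refine ⟨ih.2, ?_⟩
    have e : Pc ε (n + 1 + 1) = (Polynomial.X + 2) * Pc ε (n + 1) - Pc ε n := rfl
    rw [e, Polynomial.eval_sub, Polynomial.eval_mul, ih.1, ih.2]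
    simp only [Polynomial.eval_add, Polynomial.eval_X, Polynomial.eval_ofNat]
    ring

/-- the common identity -/
lemma core {b T S u v : ℂ} (hi : T * S = 1) :
    u + v = (u * (1 - b * (T ^ 2 * (T ^ 2 - 1))) + v * (1 - b * (S ^ 2 * (S ^ 2 - 1)))) +
      b * (T - S) * (u * T ^ 3 - v * S ^ 3) := by
  linear_combination (u * b * T ^ 2 + v * b * S ^ 2) * hi

lemma K2_zero (k : ℕ) (b T : ℂ) (hT : T ≠ 0) (h1 : T - T⁻¹ ≠ 0) (h2 : T + T⁻¹ ≠ 0)
    (d1 : 1 - b * (T ^ 2 * (T ^ 2 - 1)) ≠ 0) (d2 : 1 - b * (T⁻¹ ^ 2 * (T⁻¹ ^ 2 - 1)) ≠ 0) :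
    K2 0 k b T = (Pc 0 (k + 1)).eval (bet (T ^ 2)) +
      (b * bet (T ^ 2) * Kf (k + 2) b (T ^ 2) + b * bet (T ^ 2) * Kf (k + 1) b (T ^ 2)) := by
  rw [(Pc_eval (by norm_num) hT h2 (k + 1)).1, bet_sq hT]
  unfold K2 Kf
  rw [← inv_pow]
  have hi : T * T⁻¹ = 1 := mul_inv_cancel₀ hT
  generalize T⁻¹ = S at hi h1 h2 d1 d2 ⊢
  rw [show 2 + 2 * k + 0 = 2 * (k + 1) by ring, show 2 * (k + 1) + 0 = 2 * (k + 1) by ring,
    pow_mul T 2 (k + 1), pow_mul S 2 (k + 1)]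
  have h3 : T ^ 2 - S ^ 2 = (T - S) * (T + S) := by ring
  rw [h3, pow_zero, div_one, div_one]
  rw [pow_succ (T ^ 2) (k + 2), pow_succ (S ^ 2) (k + 2), pow_succ (T ^ 2) (k + 1),
    pow_succ (S ^ 2) (k + 1)]
  generalize (T ^ 2) ^ (k + 1) = P
  generalize (S ^ 2) ^ (k + 1) = Q
  obtain ⟨u, hu⟩ : ∃ u, P = u * (1 - b * (T ^ 2 * (T ^ 2 - 1))) :=
    ⟨P / (1 - b * (T ^ 2 * (T ^ 2 - 1))), (div_mul_cancel₀ _ d1).symm⟩
  obtain ⟨v, hv⟩ : ∃ v, Q = v * (1 - b * (S ^ 2 * (S ^ 2 - 1))) :=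
    ⟨Q / (1 - b * (S ^ 2 * (S ^ 2 - 1))), (div_mul_cancel₀ _ d2).symm⟩
  have f1 : ∀ z, P * z / (1 - b * (T ^ 2 * (T ^ 2 - 1))) = u * z := by
    intro z
    rw [hu, div_eq_iff d1]
    ring
  have f2 : ∀ z, Q * z / (1 - b * (S ^ 2 * (S ^ 2 - 1))) = v * z := by
    intro z
    rw [hv, div_eq_iff d2]
    ring
  have f3 := f1 1
  have f4 := f2 1
  rw [mul_one, mul_one] at f3 f4
  rw [mul_assoc P, mul_assoc Q, f1, f2, f1, f2, f3, f4]
  have n1 : (u * (T ^ 2 * T ^ 2) - v * (S ^ 2 * S ^ 2)) + (u * T ^ 2 - v * S ^ 2) =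
      (u * T ^ 3 - v * S ^ 3) * (T + S) := by
    linear_combination (v * S ^ 2 - u * T ^ 2) * hi
  have n2 : b * (T - S) ^ 2 * ((u * (T ^ 2 * T ^ 2) - v * (S ^ 2 * S ^ 2)) / ((T - S) * (T + S))) +
      b * (T - S) ^ 2 * ((u * T ^ 2 - v * S ^ 2) / ((T - S) * (T + S))) =
      b * (T - S) * (u * T ^ 3 - v * S ^ 3) := by
    rw [← mul_add, ← add_div, n1]
    field_simp
  rw [n2, hu, hv]
  exact core hi

lemma K2_one (k : ℕ) (b T : ℂ) (hT : T ≠ 0) (h1 : T - T⁻¹ ≠ 0) (h2 : T + T⁻¹ ≠ 0)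
    (d1 : 1 - b * (T ^ 2 * (T ^ 2 - 1)) ≠ 0) (d2 : 1 - b * (T⁻¹ ^ 2 * (T⁻¹ ^ 2 - 1)) ≠ 0) :
    K2 1 k b T = (Pc 1 (k + 1)).eval (bet (T ^ 2)) + b * bet (T ^ 2) * Kf (k + 2) b (T ^ 2) := by
  rw [(Pc_eval (by norm_num) hT h2 (k + 1)).1, bet_sq hT]
  unfold K2 Kf
  rw [← inv_pow]
  have hi : T * T⁻¹ = 1 := mul_inv_cancel₀ hT
  generalize T⁻¹ = S at hi h1 h2 d1 d2 ⊢
  have h3 : T ^ 2 - S ^ 2 = (T - S) * (T + S) := by ring
  rw [h3, pow_one, ← pow_mul, ← pow_mul,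
    show 2 * (k + 2 + 1) = (2 + 2 * k + 1) + 3 by ring,
    show 2 * (k + 1) + 1 = 2 + 2 * k + 1 by ring, pow_add T (2 + 2 * k + 1) 3,
    pow_add S (2 + 2 * k + 1) 3]
  generalize T ^ (2 + 2 * k + 1) = P
  generalize S ^ (2 + 2 * k + 1) = Q
  obtain ⟨u, hu⟩ : ∃ u, P = u * (1 - b * (T ^ 2 * (T ^ 2 - 1))) :=
    ⟨P / (1 - b * (T ^ 2 * (T ^ 2 - 1))), (div_mul_cancel₀ _ d1).symm⟩
  obtain ⟨v, hv⟩ : ∃ v, Q = v * (1 - b * (S ^ 2 * (S ^ 2 - 1))) :=
    ⟨Q / (1 - b * (S ^ 2 * (S ^ 2 - 1))), (div_mul_cancel₀ _ d2).symm⟩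
  have f1 : ∀ z, P * z / (1 - b * (T ^ 2 * (T ^ 2 - 1))) = u * z := by
    intro z
    rw [hu, div_eq_iff d1]
    ring
  have f2 : ∀ z, Q * z / (1 - b * (S ^ 2 * (S ^ 2 - 1))) = v * z := by
    intro z
    rw [hv, div_eq_iff d2]
    ring
  have f3 := f1 1
  have f4 := f2 1
  rw [mul_one, mul_one] at f3 f4
  rw [f1, f2, f3, f4]
  have n2 : b * (T - S) ^ 2 * ((u * T ^ 3 - v * S ^ 3) / ((T - S) * (T + S))) =
      b * (T - S) * (u * T ^ 3 - v * S ^ 3) / (T + S) := by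
    field_simp
  rw [n2, hu, hv, ← add_div]
  congr 1
  exact core hi

/-! ### the coefficients -/

lemma cast_det {n : ℕ} (f : ℕ → ℕ → ℕ) :
    (((Matrix.of fun r l : Fin n => (f r l : ℝ)).det : ℝ) : ℂ) =
      (Matrix.of fun r l : Fin n => (f r l : ℂ)).det := by
  have h := RingHom.map_det Complex.ofRealHom (Matrix.of fun r l : Fin n => (f r l : ℝ))
  rw [Complex.ofRealHom_eq_coe] at h
  rw [h]
  congr 1

lemma sh_add (c c' : ℕ → ℕ → ℂ) (p r : ℕ) :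
    sh (fun p r => c p r + c' p r) p r = sh c p r + sh c' p r := by
  cases p with
  | zero => simp [sh]
  | succ p =>
    cases r with
    | zero => simp [sh]
    | succ r => simp [sh]

lemma det_blk {M : ℕ} (c : ℕ → ℕ → ℂ) (P : ℕ → ℂ) :
    (Matrix.of fun k l : Fin (M + 1) => (if (k : ℕ) = 0 then P l else 0) + sh c k l).det =
      P 0 * (Matrix.of fun k l : Fin M => c k l).det := by
  rw [Matrix.det_succ_column_zero, Fin.sum_univ_succ, Finset.sum_eq_zero]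
  · rw [add_zero]
    have e : ((Matrix.of fun k l : Fin (M + 1) =>
        (if (k : ℕ) = 0 then P l else 0) + sh c k l).submatrix (Fin.succAbove 0) Fin.succ) =
        (Matrix.of fun k l : Fin M => c k l) := by
      ext i j
      simp [sh]
    rw [e]
    simp [sh]
  · intro i _
    simp [sh]

end TKLs

open TKLs in
theorem t_KLs : S_KLs := by
  intro ε k M hε
  refine ⟨?_, fun hM => ?_⟩
  · have h : Ex2 M (fun p r => (v1 ε k p r : ℂ))
        (fun t i j => K1 ε k (bet (Tv t i ^ 2)) (Tv t j)) := by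
      obtain rfl | rfl : ε = 0 ∨ ε = 1 := by omega
      · refine (ex_Kf M k).congr (fun p r => ?_) (Eventually.of_forall fun t i j => K1_zero k _ _)
        simp [v1]
      · refine ((ex_Kf M (k + 1)).add (ex_Kf M k)).congr (fun p r => ?_) ?_
        · simp [v1]
        · filter_upwards [eventually_pos] with t ht i j
          exact K1_one k _ _ (Tv_ne ht j)
    have h2 := glim h
    unfold V1
    rw [cast_det]
    exact h2
  · have h : Ex2 M (fun p r => (if p = 0 then (Pc ε (k + 1)).coeff r else 0) +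
          sh (fun p r => (v2 ε k p r : ℂ)) p r)
        (fun t i j => K2 ε k (bet (Tv t i ^ 2)) (Tv t j)) := by
      have hd : ∀ᶠ t in 𝓝[>] (0 : ℝ), ∀ i j : Fin M, Tv t j ≠ 0 ∧ Tv t j - (Tv t j)⁻¹ ≠ 0 ∧
          Tv t j + (Tv t j)⁻¹ ≠ 0 ∧
          1 - bet (Tv t i ^ 2) * (Tv t j ^ 2 * (Tv t j ^ 2 - 1)) ≠ 0 ∧
          1 - bet (Tv t i ^ 2) * ((Tv t j)⁻¹ ^ 2 * ((Tv t j)⁻¹ ^ 2 - 1)) ≠ 0 := by
        filter_upwards [eventually_pos, den_ne M] with t ht e i j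
        have g0 := Tv_ne ht j
        have g1 := Tv_ne1 ht j
        have g2 := Tv_ne2 ht j
        have g3 := Tv_ne3 ht j
        refine ⟨g0, ?_, ?_, (e i j).1, ?_⟩
        · have : Tv t j - (Tv t j)⁻¹ = (Tv t j - 1) * (Tv t j + 1) * (Tv t j)⁻¹ := by
            field_simp
            ring
          rw [this]
          exact mul_ne_zero (mul_ne_zero g1 g2) (inv_ne_zero g0)
        · have : Tv t j + (Tv t j)⁻¹ = (Tv t j ^ 2 + 1) * (Tv t j)⁻¹ := by
            field_simp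
          rw [this]
          exact mul_ne_zero g3 (inv_ne_zero g0)
        · have := (e i j).2
          rw [← inv_pow] at this
          exact this
      obtain rfl | rfl : ε = 0 ∨ ε = 1 := by omega
      · refine ((ex_poly M hM (Pc 0 (k + 1))).add ((ex_bK M (k + 2) hM).add
          (ex_bK M (k + 1) hM))).congr (fun p r => ?_) ?_
        · rw [← sh_add]
          simp [v2]
        · filter_upwards [hd] with t e i j
          obtain ⟨g1, g2, g3, g4, g5⟩ := e i j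
          exact K2_zero k _ _ g1 g2 g3 g4 g5
      · refine ((ex_poly M hM (Pc 1 (k + 1))).add (ex_bK M (k + 2) hM)).congr
          (fun p r => ?_) ?_
        · simp [v2]
        · filter_upwards [hd] with t e i j
          obtain ⟨g1, g2, g3, g4, g5⟩ := e i j
          exact K2_one k _ _ g1 g2 g3 g4 g5
    have h2 := glim h
    obtain ⟨M', rfl⟩ : ∃ M', M = M' + 1 := ⟨M - 1, by omega⟩
    rw [det_blk (fun p r => (v2 ε k p r : ℂ)) (fun r => (Pc ε (k + 1)).coeff r)] at h2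
    unfold V2
    rw [cast_det, Nat.add_sub_cancel]
    have e := (Pc_zero hε (k + 1)).1
    rw [e] at h2
    exact h2

end Pool.Agent.W808.KS
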