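import Pool.Agent.W808.KS.Stm

/-!
# KS-KR: `K` and the rotation
-/

set_option autoImplicit false

namespace Pool.Agent.W808.KS
open Pool.Agent.H863R2.Cyl
open Pool.Agent.H988R2.Perc (Word)

namespace TKR
open Pool.Agent.H863R2.Cyl.KRelAux

theorem kr_bs {r : ℂ} {K : VW →ₗ[ℂ] VW} (hr : r ^ 2 + r + 1 = 0) (hK : KSpec r K) (w : Word)
    (hw : Ok w) : K (bs (rotr w)) =
      -(r ^ 2 • lin rotr (K (bs w)) + r • lin (act 0) (lin rotr (K (bs w)))) := by
  rcases Nat.eq_zero_or_pos w.length with h0 | h0
  · obtain rfl := eq_nil h0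
    have e1 : rotr ([] : Word) = [] := rfl
    have e2 : rotr [true] = [true] := rfl
    have e3 : act 0 [true] = [true] := rfl
    rw [e1, hK.nil, lin_bs, e2, lin_bs, e3, ← add_smul, ← neg_smul]
    have : -(r ^ 2 + r) = 1 := by linear_combination -hr
    rw [this, one_smul]
  · have hl := length_seam w
    have e1 : rotr w = cap w.length (seam w) := (cap_last_seam h0).symm
    have hx : K (bs w) ∈ VN (w.length + 1) := K_bs_mem hK _ w rfl hw
    have hy := seam_mem hx
    have e2 := K_cap hr hK (N := w.length + 2) (i := w.length) le_rfl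
      (bs_mem (w := seam w) hl (ok_seam.2 hw))
    rw [lin_bs] at e2
    rw [e1, ← e2, hK.seam w hw, map_neg, map_add, map_smul, map_smul]
    have e3 : lin (cap (w.length + 1)) (lin seam (K (bs w))) = lin rotr (K (bs w)) := by
      rw [lin_lin]
      refine lin_congr (fun v hv _ => ?_) hx
      have h1 := cap_last_seam (w := v) (by omega)
      rwa [hv] at h1
    have e4 : lin (cap (w.length + 1)) (lin (act 0) (lin seam (K (bs w)))) =
        lin (act 0) (lin (cap (w.length + 1)) (lin seam (K (bs w)))) :=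
      lin_comm (fun v hv => capS_act0 (i := w.length) (y := v) h0 (by omega)) hy
    rw [e4, e3]

end TKR

open TKR KRelAux in
theorem t_KR : S_KR := by
  intro r K hr hK N v hv
  have h := ext_VN (A := K ∘ₗ lin rotr)
    (B := -(r ^ 2 • (lin rotr ∘ₗ K) + r • (lin (act 0) ∘ₗ lin rotr ∘ₗ K))) (N := N)
    (fun w h1 h2 => by
      simp only [LinearMap.comp_apply, lin_bs, LinearMap.neg_apply, LinearMap.add_apply,
        LinearMap.smul_apply]
      exact kr_bs hr hK w h2) hv
  exact h

end Pool.Agent.W808.KS
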