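import Pool.Agent.W808.KS.Stm

/-!
# Legs at the tip of a slit: the leg functional and the operator `K`
-/

set_option autoImplicit false

namespace Pool.Agent.W808.KS
open Pool.Agent.H863R2.Cyl
open Pool.Agent.H863R2.Cyl.KRelAux
open Pool.Agent.H988R2.Perc (Word PD Dyck LP Fw rainbow firstArc rem)
open Pool.Agent.W808.HB (bwm)

namespace TKW

/-! ### the functional on vectors -/

theorem es_bs (b1 b2 m : ℕ) (w u : Word) :
    es b1 b2 m w (bs u) = if Gs b1 b2 m w u then (1 : ℂ) else 0 := by
  unfold es bs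
  rw [Finsupp.linearCombination_single]
  simp

theorem es_congr {b1 b2 m b1' b2' m' N : ℕ} {w w' : Word} {f : Word → Word}
    (h : ∀ u : Word, u.length = N → Ok u → (Gs b1 b2 m w u ↔ Gs b1' b2' m' w' (f u)))
    {v : VW} (hv : v ∈ VN N) : es b1 b2 m w v = es b1' b2' m' w' (lin f v) := by
  have h1 := ext_VN (A := es b1 b2 m w) (B := es b1' b2' m' w' ∘ₗ lin f) (N := N)
    (fun u h1 h2 => by
      rw [LinearMap.comp_apply, lin_bs, es_bs, es_bs]
      exact if_congr (h u h1 h2) rfl rfl) hv
  exact h1

theorem es_congr' {b1 b2 m b1' b2' m' N : ℕ} {w w' : Word}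
    (h : ∀ u : Word, u.length = N → Ok u → (Gs b1 b2 m w u ↔ Gs b1' b2' m' w' u))
    {v : VW} (hv : v ∈ VN N) : es b1 b2 m w v = es b1' b2' m' w' v :=
  ext_VN (A := es b1 b2 m w) (B := es b1' b2' m' w') (N := N)
    (fun u h1 h2 => by
      rw [es_bs, es_bs]
      exact if_congr (h u h1 h2) rfl rfl) hv

theorem es_zero {b1 b2 m N : ℕ} {w : Word}
    (h : ∀ u : Word, u.length = N → Ok u → ¬ Gs b1 b2 m w u)
    {v : VW} (hv : v ∈ VN N) : es b1 b2 m w v = 0 := by
  have h1 := ext_VN (A := es b1 b2 m w) (B := 0) (N := N)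
    (fun u h1 h2 => by
      rw [es_bs, if_neg (h u h1 h2)]
      rfl) hv
  exact h1

theorem es_act0 (hz : S_Gz) {b1 b2 m n : ℕ} {w : Word} (hw : Dyck w)
    (hl : w.length = b1 + n + b2) (hm : 2 ≤ m) {v : VW} (hv : v ∈ VN (m + n)) :
    es b1 b2 m w (lin (act 0) v) = 0 := by
  have h1 := ext_VN (A := es b1 b2 m w ∘ₗ lin (act 0)) (B := 0) (N := m + n)
    (fun u h1 h2 => by
      rw [LinearMap.comp_apply, lin_bs, es_bs, act_eq (by omega), if_neg]
      · rfl
      · have h3 := length_cap (i := 0) (w := u) (by omega)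
        exact (hz b1 b2 m n 0 w (cap 0 u) hw (ok_cap h2 (by omega))).1 hl (by omega) (by omega)) hv
  exact h1

/-! ### the coefficient of `bwm` -/

theorem lins_ne_bwm (i M : ℕ) (x : Word) : lins i x ≠ bwm M := by
  intro h
  have h1 : List.Pairwise (fun a b : Bool => a = true → b = true) (bwm M) := by
    unfold bwm
    rw [List.pairwise_append]
    refine ⟨?_, ?_, ?_⟩
    · rw [List.pairwise_replicate]
      right
      intro h
      exact h
    · rw [List.pairwise_replicate]
      right
      intro h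
      exact h
    · intro a _ b hb _
      exact List.eq_of_mem_replicate hb
  rw [← h] at h1
  have h2 : List.Sublist [true, false] (lins i x) := by
    have h3 : List.Sublist [true, false] (true :: false :: x.drop i) := by
      simp
    exact h3.trans (List.sublist_append_right _ _)
  have h4 := h1.sublist h2
  simp at h4

theorem seam_bwm (m : ℕ) : seam (bwm m) = bwm (m + 2) := by
  unfold seam bwm
  have h1 : (m + 2) / 2 = m / 2 + 1 := by omega
  have h2 : m + 2 - (m / 2 + 1) = (m - m / 2) + 1 := by omega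
  rw [h1, h2, List.replicate_succ, List.replicate_succ' (n := m - m / 2)]
  simp

theorem seam_inj : Function.Injective seam := by
  intro a b h
  unfold seam at h
  simpa using h

theorem co_lins (i M : ℕ) (v : VW) : (lin (lins i) v) (bwm M) = 0 := by
  unfold lin
  rw [Finsupp.lmapDomain_apply]
  apply Finsupp.mapDomain_of_notMem_range
  rintro ⟨x, hx⟩
  exact lins_ne_bwm i M x hx

theorem co_act0 (M N : ℕ) (hN : 2 ≤ N) {v : VW} (hv : v ∈ VN N) :
    (lin (act 0) v) (bwm M) = 0 := by
  have h1 : lin (act 0) v = lin (lins 0) (lin (cap 0) v) := by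
    rw [lin_lin]
    exact lin_congr (fun w hw _ => act_eq (by omega)) hv
  rw [h1, co_lins]

theorem co_seam (M : ℕ) (v : VW) : (lin seam v) (bwm (M + 2)) = v (bwm M) := by
  unfold lin
  rw [Finsupp.lmapDomain_apply, ← seam_bwm, Finsupp.mapDomain_apply seam_inj]

/-- the constant without legs above -/
noncomputable def cb (r : ℂ) (m : ℕ) : ℂ :=
  (-r ^ 2) ^ (m / 2) * (if m % 2 = 1 then r / (r - 1) else 1)

theorem coef {r : ℂ} {K : VW →ₗ[ℂ] VW} (hK : KSpec r K) :
    ∀ (m : ℕ) (u : Word), u.length = m → Ok u →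
      (K (bs u)) (bwm (m + 1)) = if u = bwm m then cb r m else 0 := by
  intro m
  induction m using Nat.strong_induction_on with
  | _ m ih =>
    intro u hu hok
    rcases Nat.lt_or_ge m 2 with hm | hm
    · interval_cases m
      · have h0 := eq_nil hu
        subst h0
        rw [hK.nil]
        simp [bs, bwm, cb]
      · have h0 := eq_one hu hok
        subst h0
        rw [hK.one]
        have h1 : bwm (1 + 1) = [false, true] := rfl
        have h2 : bwm 1 = [true] := rfl
        rw [h1, h2, if_pos rfl]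
        simp [bs, cb]
        ring
    · rcases exists_arc hok (by omega) with ⟨i, u', hi, hu', he, _, _⟩ | ⟨u', hu', he, _⟩
      · rw [he, hK.ins i u' hu' hi, co_lins, if_neg (lins_ne_bwm i m u')]
      · have hl := length_seam u'
        rw [← he] at hl
        have hx : K (bs u') ∈ VN (u'.length + 1) := K_bs_mem hK _ u' rfl hu'
        have hy := seam_mem hx
        obtain ⟨k, rfl⟩ : ∃ k, m = k + 2 := ⟨m - 2, by omega⟩
        have hk : u'.length = k := by omega
        rw [he, hK.seam u' hu']
        have e1 := ih k (by omega) u' hk hu'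
        have e2 := co_seam (k + 1) (K (bs u'))
        have e3 := co_act0 (k + 1 + 2) (u'.length + 1 + 2) (by omega) hy
        rw [show k + 2 + 1 = k + 1 + 2 by omega]
        rw [Finsupp.neg_apply, Finsupp.add_apply, Finsupp.smul_apply, Finsupp.smul_apply, e2, e3, e1]
        by_cases h : u' = bwm k
        · rw [if_pos h, if_pos (by rw [h, seam_bwm])]
          unfold cb
          have h1 : (k + 2) / 2 = k / 2 + 1 := by omega
          have h2 : (k + 2) % 2 = k % 2 := by omega
          rw [h1, h2, pow_succ]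
          simp only [smul_eq_mul, mul_zero, add_zero]
          ring
        · rw [if_neg h, if_neg]
          · simp
          · intro h'
            rw [← seam_bwm] at h'
            exact h (seam_inj h')

theorem cube {r : ℂ} (hr : r ^ 2 + r + 1 = 0) : r ^ 3 = 1 := by
  linear_combination (r - 1) * hr

theorem cK_base {r : ℂ} (hr : r ^ 2 + r + 1 = 0) (m b : ℕ) : cK r (m + b + b) b = cb r m := by
  unfold cK cb
  have h1 : (m + b + b) / 2 = m / 2 + b := by omega
  have h2 : (m + b + b) % 2 = m % 2 := by omega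
  rw [h1, h2, pow_add]
  have h3 : (-r) ^ b * (-r ^ 2) ^ b = 1 := by
    rw [← mul_pow]
    have : -r * -r ^ 2 = 1 := by linear_combination cube hr
    rw [this, one_pow]
  linear_combination ((-r ^ 2) ^ (m / 2) * (if m % 2 = 1 then r / (r - 1) else 1)) * h3

theorem cK_succ (r : ℂ) (p b : ℕ) : cK r p (b + 1) = -r * cK r p b := by
  unfold cK
  rw [pow_succ]
  ring

open Classical in
/-- the functional without other strands -/
theorem es_n0 (h0 : S_G0) {b1 b2 m : ℕ} {w : Word} (hw : Dyck w) (hl : w.length = b1 + b2)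
    {v : VW} (hv : v ∈ VN m) :
    es b1 b2 m w v = if b1 = b2 ∧ w = rainbow b1 then v (bwm m) else 0 := by
  have h1 := ext_VN (A := es b1 b2 m w)
    (B := if b1 = b2 ∧ w = rainbow b1 then Finsupp.lapply (bwm m) else 0) (N := m)
    (fun u h1 h2 => by
      rw [es_bs]
      by_cases h : b1 = b2 ∧ w = rainbow b1
      · rw [if_pos h]
        by_cases h' : u = bwm m
        · rw [if_pos ((h0 b1 b2 m w u hw h2 hl h1).2 ⟨h.1, h.2, h'⟩), h']
          simp [bs]
        · rw [if_neg (fun hg => h' ((h0 b1 b2 m w u hw h2 hl h1).1 hg).2.2)]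
          simp [bs, h']
      · rw [if_neg h, if_neg]
        · rfl
        · intro hg
          have h3 := (h0 b1 b2 m w u hw h2 hl h1).1 hg
          exact h ⟨h3.1, h3.2.1⟩) hv
  rw [h1]
  split_ifs
  · rfl
  · rfl

theorem base (h0 : S_G0) {r : ℂ} {K : VW →ₗ[ℂ] VW} (hr : r ^ 2 + r + 1 = 0) (hK : KSpec r K)
    {b1 b2 m : ℕ} {w : Word} (hw : Dyck w) (hl : w.length = b1 + b2) {v : VW} (hv : v ∈ VN m) :
    es b1 b2 (m + 1) w (K v) = cK r (m + b1 + b2) b2 * es b1 b2 m w v := by
  have h1 := ext_VN (A := es b1 b2 (m + 1) w ∘ₗ K)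
    (B := cK r (m + b1 + b2) b2 • es b1 b2 m w) (N := m)
    (fun u h1 h2 => by
      rw [LinearMap.comp_apply, LinearMap.smul_apply, es_n0 h0 hw hl (K_bs_mem hK m u h1 h2),
        es_n0 h0 hw hl (bs_mem h1 h2), coef hK m u h1 h2]
      by_cases h : b1 = b2 ∧ w = rainbow b1
      · rw [if_pos h, if_pos h]
        obtain ⟨h3, _⟩ := h
        subst h3
        rw [cK_base hr]
        by_cases h' : u = bwm m
        · rw [if_pos h', h']
          simp [bs]
        · rw [if_neg h']
          simp [bs, h']
      · rw [if_neg h, if_neg h]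
        simp) hv
  exact h1

theorem main (hKR : S_KR) (hz : S_Gz) (hm : S_Gm) (hv' : S_Gv) (h0 : S_G0) {r : ℂ}
    {K : VW →ₗ[ℂ] VW} (hr : r ^ 2 + r + 1 = 0) (hK : KSpec r K) :
    ∀ (w : Word), Dyck w → ∀ (b1 b2 m n : ℕ) (v : VW), w.length = b1 + n + b2 → v ∈ VN (m + n) →
      (n = 0 ∨ m + b1 + b2 ≠ 1) →
      es b1 b2 (m + 1) w (K v) = cK r (m + b1 + b2) b2 * es b1 b2 m w v := by
  intro w hw
  induction hw with
  | nil =>
    intro b1 b2 m n v hl hv _
    have hn : n = 0 := by simp at hl; omega
    subst hn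
    exact base h0 hr hK Dyck.nil (by omega) hv
  | ins j w hj hw ih =>
    intro b1 b2 m n v hl hv hp
    have hL := Pool.Agent.H988R2.Perc.length_ins j w
    rcases Nat.eq_zero_or_pos n with hn | hn
    · subst hn
      exact base h0 hr hK (Dyck.ins j w hj hw) (by omega) hv
    have hKv : K v ∈ VN (m + 1 + n) := by
      have := K_mem hK hv
      rwa [show m + n + 1 = m + 1 + n by omega] at this
    by_cases ha : j + 2 ≤ b1 ∨ b1 + n ≤ j
    · -- both sides vanish
      rw [es_zero (fun u h1 h2 => (hz b1 b2 (m + 1) n j w u hw h2).2 (by omega) h1 hj ha) hKv,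
        es_zero (fun u h1 h2 => (hz b1 b2 m n j w u hw h2).2 (by omega) h1 hj ha) hv, mul_zero]
    · rw [not_or] at ha
      obtain ⟨ha1, ha2⟩ := ha
      by_cases hb : b1 ≤ j ∧ j + 2 ≤ b1 + n
      · obtain ⟨i, rfl⟩ : ∃ i, j = b1 + i := ⟨j - b1, by omega⟩
        obtain ⟨n, rfl⟩ : ∃ n', n = n' + 2 := ⟨n - 2, by omega⟩
        have e1 : es b1 b2 (m + 1) (Pool.Agent.H988R2.Perc.ins (b1 + i) w) (K v) =
            es b1 b2 (m + 1) w (lin (cap (m + 1 + i)) (K v)) :=
          es_congr (fun u h1 h2 => (hm b1 b2 (m + 1) (n + 2) i w u hw h2 (by omega)).2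
            (by omega) h1) hKv
        have e2 : es b1 b2 m (Pool.Agent.H988R2.Perc.ins (b1 + i) w) v =
            es b1 b2 m w (lin (cap (m + i)) v) :=
          es_congr (fun u h1 h2 => (hm b1 b2 m (n + 2) i w u hw h2 (by omega)).2
            (by omega) h1) hv
        have e3 : lin (cap (m + 1 + i)) (K v) = K (lin (cap (m + i)) v) := by
          have := K_cap hr hK (i := m + i) (by omega) hv
          rwa [show m + i + 1 = m + 1 + i by omega] at this
        have hv2 : lin (cap (m + i)) v ∈ VN (m + n) := cap_mem (by omega) hv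
        rw [e1, e2, e3]
        exact ih b1 b2 m n _ (by omega) hv2 (by omega)
      · by_cases hc : j + 1 = b1
        · -- an arc between a left leg and the first strand
          subst hc
          obtain ⟨n, rfl⟩ : ∃ n', n = n' + 1 := ⟨n - 1, by omega⟩
          have e1 : es (j + 1) b2 (m + 1) (Pool.Agent.H988R2.Perc.ins j w) (K v) =
              es j b2 (m + 1 + 1) w (K v) :=
            es_congr' (fun u h1 h2 => ((hv' j b2 (m + 1) n w u hw h2).2 (by omega) (by omega)).1) hKv
          have e2 : es (j + 1) b2 m (Pool.Agent.H988R2.Perc.ins j w) v = es j b2 (m + 1) w v :=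
            es_congr' (fun u h1 h2 => ((hv' j b2 m n w u hw h2).2 (by omega) (by omega)).1) hv
          rw [e1, e2]
          have hv2 : v ∈ VN (m + 1 + n) := by
            rwa [show m + (n + 1) = m + 1 + n by omega] at hv
          have h3 := ih j b2 (m + 1) n v (by omega) hv2 (by omega)
          rw [h3, show m + 1 + j + b2 = m + (j + 1) + b2 by omega]
        · -- an arc between a right leg and the last strand
          obtain ⟨n, rfl⟩ : ∃ n', n = n' + 1 := ⟨n - 1, by omega⟩
          obtain ⟨b2, rfl⟩ : ∃ b', b2 = b' + 1 := ⟨b2 - 1, by omega⟩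
          have hj2 : j = b1 + n := by omega
          subst hj2
          have e1 : es b1 (b2 + 1) (m + 1) (Pool.Agent.H988R2.Perc.ins (b1 + n) w) (K v) =
              es b1 b2 (m + 1 + 1) w (lin rotr (K v)) :=
            es_congr (fun u h1 h2 => ((hv' b1 b2 (m + 1) n w u hw h2).2 (by omega) (by omega)).2) hKv
          have e2 : es b1 (b2 + 1) m (Pool.Agent.H988R2.Perc.ins (b1 + n) w) v =
              es b1 b2 (m + 1) w (lin rotr v) :=
            es_congr (fun u h1 h2 => ((hv' b1 b2 m n w u hw h2).2 (by omega) (by omega)).2) hv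
          have hv2 : lin rotr v ∈ VN (m + 1 + n) := by
            refine lin_mem (fun u h1 h2 => ⟨?_, ok_rotr.2 h2⟩) hv
            rw [length_rotr, h1]
            omega
          have hv3 : lin rotr (K v) ∈ VN (m + 1 + 1 + n) := by
            refine lin_mem (fun u h1 h2 => ⟨?_, ok_rotr.2 h2⟩) hKv
            rw [length_rotr, h1]
            omega
          have h3 := ih b1 b2 (m + 1) n (lin rotr v) (by omega) hv2 (by omega)
          have h4 := es_act0 hz (b1 := b1) (b2 := b2) (m := m + 1 + 1) (n := n) hw (by omega)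
            (by omega) hv3
          have h5 := congrArg (es b1 b2 (m + 1 + 1) w) (hKR r K hr hK (m + (n + 1)) v hv)
          rw [map_neg, map_add, map_smul, map_smul, h4, h3] at h5
          simp only [smul_eq_mul, mul_zero, add_zero] at h5
          rw [e1, e2, cK_succ, show m + b1 + (b2 + 1) = m + 1 + b1 + b2 by omega]
          linear_combination r * h5 - es b1 b2 (m + 1 + 1) w (lin rotr (K v)) * cube hr

end TKW

/-- **the leg functional and `K`** -/
theorem t_KW : S_KR → S_Gz → S_Gm → S_Gv → S_G0 → S_KW := by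
  intro hKR hz hm hv' h0 r K hr hK b1 b2 m n w v hw hl hv hp
  exact TKW.main hKR hz hm hv' h0 hr hK w hw b1 b2 m n v hl hv hp

end Pool.Agent.W808.KS
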