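import Pool.Agent.W808.KS.Stm
import Pool.Agent.H863R2.Cyl.Markov

/-! # Legs at the tip of a slit, task LAW: the exact probability -/

set_option autoImplicit false

namespace Pool.Agent.W808.KS
open Pool.Agent.H863R2.Cyl
open Pool.Agent.H988R2.Perc (Word PD Dyck LP Fw)
open Filter Topology MeasureTheory

theorem t_LAW : S_Y1 → S_Y2 → S_Y3 → S_PWs → S_LAW := by
  intro h1 h2 h3 hP m M hm hM
  have hprob : IsProbabilityMeasure coinsZ := by
    unfold coinsZ
    infer_instance
  obtain ⟨n, hn⟩ : ∃ n, n + 1 = m + 2 * M := ⟨m + 2 * M - 1, by omega⟩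
  rw [← hn]
  obtain ⟨μ, hμ0, hμ1, hst, -, -⟩ := markov_exists n
  have hlim := hP n m M hn hm hM μ hμ0 hμ1 hst
  refine eq_of_forall_dist_le ?_
  intro ε hε
  obtain ⟨L, hL⟩ := h3 m M (n + 1) ε hε
  set P := coinsZ.real {ω | LegS (n + 1) m ω} with hPd
  set F : ℕ → ℝ := fun K => ∑ σ : Wd (n + 1), ∑ w ∈ LP (2 * M),
      μ σ * KC.lawW M K w * (if Gs 0 0 m w σ.1 then 1 else 0) with hF
  have key : ∀ K : ℕ, L ≤ K → dist P (F K) ≤ ε := by
    intro K hK
    have hbad := hL K hK
    have hFK : F K = ∑ σ, μ σ * coinsZ.real {ω | Gs 0 0 m (KC.XW (2 * M) (cT m K ω) (KC.w0 M) K)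
      (rows n (HB.crow (n + 1) L (lowH ω)) L σ).1} := (h2 n m M K L hn hM μ hst).symm
    rw [hFK, Real.dist_eq]
    have e1 : P = ∑ σ, μ σ * P := by
      rw [← Finset.sum_mul, hμ1, one_mul]
    have e2 : ∀ σ : Wd (n + 1),
        |P - coinsZ.real {ω | Gs 0 0 m (KC.XW (2 * M) (cT m K ω) (KC.w0 M) K)
          (rows n (HB.crow (n + 1) L (lowH ω)) L σ).1}| ≤ ε := by
      intro σ
      have s1 : {ω | LegS (n + 1) m ω} ⊆
          {ω | Gs 0 0 m (KC.XW (2 * M) (cT m K ω) (KC.w0 M) K)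
            (rows n (HB.crow (n + 1) L (lowH ω)) L σ).1} ∪
          {ω | ¬ ((∃ t < L, HB.Alt (n + 1) (lowH ω) t) ∧
            ∃ s < K, AltS m M ω (-(2 * s : ℤ) - 1))} := by
        intro ω hω
        by_cases hb : (∃ t < L, HB.Alt (n + 1) (lowH ω) t) ∧
            ∃ s < K, AltS m M ω (-(2 * s : ℤ) - 1)
        · left
          obtain ⟨⟨t, ht, hA⟩, s, hs, hB⟩ := hb
          exact (h1 n m M K L s t ω hn (by omega) hM hs hB ht hA σ).1 hω
        · right
          exact hb
      have s2 : {ω | Gs 0 0 m (KC.XW (2 * M) (cT m K ω) (KC.w0 M) K)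
            (rows n (HB.crow (n + 1) L (lowH ω)) L σ).1} ⊆ {ω | LegS (n + 1) m ω} ∪
          {ω | ¬ ((∃ t < L, HB.Alt (n + 1) (lowH ω) t) ∧
            ∃ s < K, AltS m M ω (-(2 * s : ℤ) - 1))} := by
        intro ω hω
        by_cases hb : (∃ t < L, HB.Alt (n + 1) (lowH ω) t) ∧
            ∃ s < K, AltS m M ω (-(2 * s : ℤ) - 1)
        · left
          obtain ⟨⟨t, ht, hA⟩, s, hs, hB⟩ := hb
          exact (h1 n m M K L s t ω hn (by omega) hM hs hB ht hA σ).2 hω
        · right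
          exact hb
      have t1 := (measureReal_mono (μ := coinsZ) s1).trans (measureReal_union_le _ _)
      have t2 := (measureReal_mono (μ := coinsZ) s2).trans (measureReal_union_le _ _)
      rw [abs_le]
      constructor <;> linarith
    calc |P - ∑ σ, μ σ * coinsZ.real {ω | Gs 0 0 m (KC.XW (2 * M) (cT m K ω) (KC.w0 M) K)
          (rows n (HB.crow (n + 1) L (lowH ω)) L σ).1}|
        = |∑ σ, μ σ * (P - coinsZ.real {ω | Gs 0 0 m (KC.XW (2 * M) (cT m K ω) (KC.w0 M) K)
          (rows n (HB.crow (n + 1) L (lowH ω)) L σ).1})| := by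
          congr 1
          conv_lhs => rw [e1]
          rw [← Finset.sum_sub_distrib]
          refine Finset.sum_congr rfl fun σ _ => ?_
          ring
      _ ≤ ∑ σ, μ σ * ε := by
          refine (Finset.abs_sum_le_sum_abs _ _).trans ?_
          refine Finset.sum_le_sum fun σ _ => ?_
          rw [abs_mul, abs_of_nonneg (hμ0 σ)]
          exact mul_le_mul_of_nonneg_left (e2 σ) (hμ0 σ)
      _ = ε := by rw [← Finset.sum_mul, hμ1, one_mul]
  have hd : Tendsto (fun K => dist P (F K)) atTop (𝓝 (dist P (Psl m M))) :=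
    tendsto_const_nhds.dist hlim
  refine le_of_tendsto hd ?_
  filter_upwards [eventually_ge_atTop L] with K hK using key K hK

end Pool.Agent.W808.KS
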