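import Pool.Agent.W808.KS.Stm
import Pool.Agent.H863R2.Cyl.Braid

/-!
# KS-LC: the leading coefficient in the first variable
-/

set_option autoImplicit false

namespace Pool.Agent.W808.KS
open Pool.Agent.H863R2.Cyl
open Pool.Agent.H988R2.Perc (Word PD Dyck LP Fw rainbow firstArc rem)

namespace TLC

lemma map_inv_inv (l : List ℂ) : (l.map (fun x => x⁻¹)).map (fun x => x⁻¹) = l := by
  rw [List.map_map]
  have : (fun x : ℂ => x⁻¹) ∘ (fun x => x⁻¹) = id := by
    funext x
    simp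
  rw [this, List.map_id]

lemma reflect_eval {P : Polynomial ℂ} {n : ℕ} (h : P.natDegree ≤ n) {s : ℂ} (hs : s ≠ 0) :
    (Polynomial.reflect n P).eval s = s ^ n * P.eval s⁻¹ := by
  have hs' : s⁻¹ ≠ 0 := inv_ne_zero hs
  let _ := invertibleOfNonzero hs'
  have h1 := Polynomial.eval₂_reflect_mul_pow (RingHom.id ℂ) s⁻¹ n P h
  rw [invOf_eq_inv, inv_inv] at h1
  change (Polynomial.reflect n P).eval s * s⁻¹ ^ n = P.eval s⁻¹ at h1
  rw [← h1, inv_pow]
  field_simp

lemma poly_ext {P Q : Polynomial ℂ} (h : ∀ s : ℂ, s ≠ 0 → P.eval s = Q.eval s) : P = Q := by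
  rw [← sub_eq_zero]
  apply Polynomial.eq_zero_of_infinite_isRoot
  apply Set.Infinite.mono (s := {(0 : ℂ)}ᶜ)
  · intro y hy
    show (P - Q).eval y = 0
    rw [Polynomial.eval_sub, h y hy, sub_self]
  · exact (Set.finite_singleton (0 : ℂ)).infinite_compl

end TLC

open TLC in
theorem t_LC : S_FS → S_LC := by
  intro hFS Ψ K' hΨ hK' l hl w
  obtain ⟨Ψ', hΨ', hrel⟩ := hFS Ψ hΨ
  have hq : q ^ 2 + q + 1 = 0 := Pool.Agent.H988R2.Perc.q_spec
  have hq3 : q ^ 3 = 1 := BLAux.cube hq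
  have hq0 : q ≠ 0 := BLAux.q_ne_zero hq
  have hq2 : (q ^ 2) ^ 2 + q ^ 2 + 1 = 0 := by linear_combination q * hq3 + hq
  set n := l.length with hn
  set l' := l.map (fun x => x⁻¹) with hl'
  have hl'n : l'.length = n := by rw [hl', List.length_map]
  have hl'0 : ∀ x ∈ l', x ≠ 0 := by
    intro x hx
    rw [hl', List.mem_map] at hx
    obtain ⟨y, hy, rfl⟩ := hx
    exact inv_ne_zero (hl y hy)
  have hl'p : l'.prod ≠ 0 := List.prod_ne_zero fun h => hl'0 0 h rfl
  have hl'm : l'.map (fun x => x⁻¹) = l := map_inv_inv l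
  obtain ⟨P, hPd, hP⟩ := PD.univ (hΨ.deg (n + 1) w) [] l (by simp [hn])
  obtain ⟨P', hPd', hP'⟩ := PD.univ (hΨ'.deg (n + 1) w) [] l' (by simp [hl'n])
  simp only [List.nil_append] at hP hP'
  rw [Nat.add_sub_cancel] at hPd hPd'
  refine ⟨P, hPd, fun a => (hP a).symm, ?_⟩
  -- the two polynomials
  have hpoly : P' = Polynomial.C (q ^ ((n + 1) / 2) * l'.prod ^ n) * Polynomial.reflect n P := by
    refine poly_ext fun s hs => ?_
    rw [Polynomial.eval_mul, Polynomial.eval_C, reflect_eval hPd hs, ← hP', ← hP]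
    have h1 := hrel (s :: l') (by
      intro x hx
      rcases List.mem_cons.1 hx with rfl | hx
      · exact hs
      · exact hl'0 x hx)
    rw [h1, List.map_cons, hl'm, Finsupp.smul_apply, smul_eq_mul, List.length_cons,
      List.prod_cons, hl'n, Nat.add_sub_cancel, mul_pow]
    ring
  have h0 := congrArg (Polynomial.eval 0) hpoly
  rw [Polynomial.eval_mul, Polynomial.eval_C, ← hP', braid_limit hq2 hΨ' hK' l',
    hrel l' hl'0, hl'm, hl'n, map_smul, Finsupp.smul_apply, Finsupp.smul_apply, smul_eq_mul,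
    smul_eq_mul, ← Polynomial.coeff_zero_eq_eval_zero, Polynomial.coeff_reflect,
    Polynomial.revAt_le (Nat.zero_le n), Nat.sub_zero] at h0
  have h2 : l'.prod * l'.prod ^ (n - 1) = l'.prod ^ n := by
    rcases Nat.eq_zero_or_pos n with h | h
    · have h3 : l' = [] := List.length_eq_zero_iff.1 (hl'n.trans h)
      rw [h, h3]
      simp
    · rw [← pow_succ']
      congr 1
      omega
  have h3 : q ^ ((n + 1) / 2) * P.coeff n = q ^ (n / 2) * K' (Ψ l) w := by
    have h4 : l'.prod ^ n ≠ 0 := pow_ne_zero _ hl'p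
    apply mul_left_cancel₀ h4
    have h5 : l'.prod * (q ^ (n / 2) * l'.prod ^ (n - 1) * (K' (Ψ l)) w) =
      l'.prod ^ n * (q ^ (n / 2) * (K' (Ψ l)) w) := by
      rw [← h2]
      ring
    rw [← h5, h0]
    ring
  split_ifs with he
  · obtain ⟨m, hm⟩ := he
    have e1 : (n + 1) / 2 = m := by omega
    have e2 : n / 2 = m := by omega
    rw [e1, e2] at h3
    rw [one_mul]
    exact mul_left_cancel₀ (pow_ne_zero m hq0) h3
  · rw [Nat.not_even_iff_odd] at he
    obtain ⟨m, hm⟩ := he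
    have e1 : (n + 1) / 2 = m + 1 := by omega
    have e2 : n / 2 = m := by omega
    rw [e1, e2] at h3
    apply mul_left_cancel₀ (pow_ne_zero (m + 1) hq0)
    rw [h3]
    linear_combination (-(q ^ m * K' (Ψ l) w)) * hq3

end Pool.Agent.W808.KS
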