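import Pool.Agent.W808.KS.Stm

/-!
# KS-M1 (helper885): the exact formula for all numbers of legs and pairs
-/

set_option autoImplicit false

namespace Pool.Agent.W808.KS
open Pool.Agent.H863R2.Cyl
open Pool.Agent.H160R2.ML (pfq Gn)
open Pool.Agent.W808.HB (prs Xf Yf vdx wdx)

namespace TM1

theorem cl_all (hA : S_MA) (hB : S_MB) (h0 : S_B0) (h1 : S_B1) (ε : ℕ) (hε : ε ≤ 1) :
    ∀ M k l : ℕ, Cl ε k l M := by
  intro M
  induction M with
  | zero =>
    intro k l Ψ hΨ A B y _ _ hG
    have e0 : List.ofFn (sq y) = [] := List.ofFn_zero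
    have e1 : prs (List.ofFn (sq y)) = [] := by rw [e0]; rfl
    have e2 : vdx (sq y) = 1 := by simp [vdx]
    rw [e0, List.append_nil] at hG
    rw [e1, e2, one_pow, mul_one]
    exact h1 Ψ hΨ ε A B y hε hG
  | succ M ih =>
    intro k
    induction k with
    | zero =>
      intro l
      induction l with
      | zero =>
        intro Ψ hΨ A B y hA hB hG
        rw [List.length_eq_zero_iff] at hA hB
        subst hA hB
        exact h0 Ψ hΨ ε (M + 1) y hε hG
      | succ l ihl => exact hB ε 0 l M hε (ih 1 l) ihl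
    | succ k ihk =>
      intro l
      exact hA ε k l M hε (ih k (l + 1)) (ihk l)

end TM1

/-- **The exact formula** (generic parameters). -/
theorem t_M1 (hA : S_MA) (hB : S_MB) (h0 : S_B0) (h1 : S_B1) : S_M1 := by
  intro Ψ hΨ ε A B M y hε hG
  exact TM1.cl_all hA hB h0 h1 ε hε M A.length B.length Ψ hΨ A B y rfl rfl hG

end Pool.Agent.W808.KS
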