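import Pool.Agent.W808.KS.Stm
import Pool.Agent.W808.HB.T_M2
import Pool.Agent.W808.KC.T_M2

/-!
# KS-M2 (helper885): the exact formula for arbitrary legs below
-/

set_option autoImplicit false

namespace Pool.Agent.W808.KS
open Pool.Agent.H863R2.Cyl
open Pool.Agent.H988R2.Perc (Word PD Dyck LP Fw)
open Pool.Agent.H988R2.Perc.T10 (pairs fA fB)
open Pool.Agent.H160R2.ML (pfq Gn)
open Pool.Agent.W808.HB (prs Xf Yf vdx wdx)
open Filter Topology

namespace TM2

/-- lists with entries continuous at `a` -/
inductive CL (a : ℂ) : (ℂ → List ℂ) → Prop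
  | nil : CL a (fun _ => [])
  | cons (f : ℂ → ℂ) (l : ℂ → List ℂ) : ContinuousAt f a → CL a l → CL a (fun b => f b :: l b)

theorem CL.const (a : ℂ) (v : List ℂ) : CL a (fun _ => v) := by
  induction v with
  | nil => exact CL.nil
  | cons c v ih => exact CL.cons (fun _ => c) (fun _ => v) continuousAt_const ih

theorem CL.append {a : ℂ} {l l' : ℂ → List ℂ} (h : CL a l) (h' : CL a l') :
    CL a (fun b => l b ++ l' b) := by
  induction h with
  | nil => exact h'
  | cons f l hf _ ih => exact CL.cons f (fun b => l b ++ l' b) hf ih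

theorem CL.len {a : ℂ} {l : ℂ → List ℂ} (h : CL a l) : ∀ b, (l b).length = (l a).length := by
  induction h with
  | nil => intro b; rfl
  | cons f l _ _ ih => intro b; simp [ih b]

theorem CL.getD {a : ℂ} {l : ℂ → List ℂ} (h : CL a l) :
    ∀ i : ℕ, ContinuousAt (fun b => (l b).getD i 0) a := by
  induction h with
  | nil => intro i; simpa using continuousAt_const
  | cons f l hf _ ih =>
    intro i
    cases i with
    | zero => simpa using hf
    | succ i => simpa using ih i

theorem CL.prod {a : ℂ} {l : ℂ → List ℂ} (h : CL a l) (g : ℂ → ℂ → ℂ)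
    (hg : ∀ f : ℂ → ℂ, ContinuousAt f a → ContinuousAt (fun b => g b (f b)) a) :
    ContinuousAt (fun b => ((l b).map (g b)).prod) a := by
  induction h with
  | nil => simpa using continuousAt_const
  | cons f l hf _ ih =>
    simp only [List.map_cons, List.prod_cons]
    exact (hg f hf).mul ih

theorem CL.pfq {a : ℂ} {l : ℂ → List ℂ} (h : CL a l) (r : ℂ) :
    ContinuousAt (fun b => pfq r (l b)) a := by
  induction h with
  | nil => exact continuousAt_const
  | cons f l hf hl ih =>
    have e : (fun b => Pool.Agent.H160R2.ML.pfq r (f b :: l b)) = fun b =>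
        ((l b).map (fun c => r * c - r ^ 2 * f b)).prod * Pool.Agent.H160R2.ML.pfq r (l b) := by
      funext b; rfl
    rw [e]
    refine (hl.prod (fun b c => r * c - r ^ 2 * f b) ?_).mul ih
    intro g hg
    exact (continuousAt_const.mul hg).sub (continuousAt_const.mul hf)

theorem CL.symA {a : ℂ} (ha : a ≠ 0) (ε : ℕ) (u v : List ℂ) :
    CL a (fun b => symA ε (u ++ b :: v)) := by
  induction u with
  | nil =>
    have e : (fun b : ℂ => KS.symA ε ([] ++ b :: v)) =
        fun b => (b⁻¹ :: KS.symA ε v) ++ [b] := by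
      funext b; rfl
    rw [e]
    exact (CL.cons (fun b => b⁻¹) (fun _ => KS.symA ε v) (continuousAt_inv₀ ha)
      (CL.const a _)).append (CL.cons (fun b => b) (fun _ => []) continuousAt_id CL.nil)
  | cons c u ih =>
    have e : (fun b : ℂ => KS.symA ε ((c :: u) ++ b :: v)) =
        fun b => (c⁻¹ :: KS.symA ε (u ++ b :: v)) ++ [c] := by
      funext b; rfl
    rw [e]
    exact (CL.cons (fun _ => c⁻¹) (fun b => KS.symA ε (u ++ b :: v)) continuousAt_const ih).append
      (CL.const a [c])

theorem psi_cont {Ψ : List ℂ → VW} (h : Fam q Ψ) {a : ℂ} {l : ℂ → List ℂ} (hl : CL a l)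
    (w : Word) : ContinuousAt (fun b => Ψ (l b) w) a := by
  obtain ⟨p, -, hp⟩ := h.deg (l a).length w
  have e : (fun b => Ψ (l b) w) = fun b =>
      MvPolynomial.eval (fun i : Fin (l a).length => (l b).getD i 0) p := by
    funext b
    exact hp (l b) (hl.len b)
  rw [e]
  have h1 : ContinuousAt (fun b => fun i : Fin (l a).length => (l b).getD (i : ℕ) 0) a :=
    continuousAt_pi.2 fun i => hl.getD i
  have h2 : Continuous fun x : Fin (l a).length → ℂ => MvPolynomial.eval x p :=
    MvPolynomial.continuous_eval p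
  exact h2.continuousAt.comp h1

theorem HH_cont {Ψ : List ℂ → VW} (h : Fam q Ψ) {a : ℂ} {l : ℂ → List ℂ} (hl : CL a l)
    (z : List ℂ) : ContinuousAt (fun b => HH Ψ (l b) [] [] z) a := by
  have e : (fun b => HH Ψ (l b) [] [] z) = fun b =>
      ∑ w ∈ LP (0 + z.length + 0), Fw w ([] ++ z ++ []) *
        ∑ u ∈ Pool.Agent.H160R2.ML.TB.WS ((l a).length + z.length),
          (if Gs 0 0 (l a).length w u then (1 : ℂ) else 0) * Ψ (l b ++ z) u := by
    funext b
    unfold HH HV
    simp only [List.length_nil]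
    refine Finset.sum_congr rfl fun w _ => ?_
    have m1 := h.mem (l b ++ z)
    rw [List.length_append, hl.len b] at m1
    rw [hl.len b]
    unfold es
    rw [HB.M2aux.lin_eq _ m1]
  rw [e]
  refine tendsto_finsetSum _ fun w _ => ?_
  refine ContinuousAt.mul continuousAt_const ?_
  refine tendsto_finsetSum _ fun u _ => ?_
  exact ContinuousAt.mul continuousAt_const (psi_cont h (hl.append (CL.const a z)) u)

theorem Xf_cont {a : ℂ} (ha : a ≠ 0) : ContinuousAt Xf a := by
  unfold Xf
  exact continuousAt_id.add (continuousAt_inv₀ ha)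

theorem lam_cont {a : ℂ} (ha : a ≠ 0) (u v : List ℂ) (x : ℂ) :
    ContinuousAt (fun b => lam (u ++ b :: v) x) a := by
  have e : (fun b => lam (u ++ b :: v) x) = fun b =>
      (u.map (fun c => Xf c - Yf q x⁻¹)).prod *
        ((Xf b - Yf q x⁻¹) * (v.map (fun c => Xf c - Yf q x⁻¹)).prod) := by
    funext b
    unfold lam
    rw [List.map_append, List.prod_append, List.map_cons, List.prod_cons]
  rw [e]
  exact continuousAt_const.mul (((Xf_cont ha).sub continuousAt_const).mul continuousAt_const)

theorem DT_cont {a : ℂ} (ha : a ≠ 0) (g : ℂ → ℂ) (u v : List ℂ) {M : ℕ} (y : Fin M → ℂ) :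
    ContinuousAt (fun b => DT g (u ++ b :: v) y) a := by
  unfold DT
  have h1 : ContinuousAt (fun b => (Matrix.of fun i j : Fin M =>
      g (y j) * lam (u ++ b :: v) (y j ^ 2) / (Xf (y i ^ 2) - Yf q (y j ^ 2))
      + g (y j)⁻¹ * lam (u ++ b :: v) ((y j)⁻¹ ^ 2) / (Xf (y i ^ 2) - Yf q ((y j)⁻¹ ^ 2)) :
      Matrix (Fin M) (Fin M) ℂ)) a := by
    refine continuousAt_pi.2 fun i => continuousAt_pi.2 fun j => ?_
    exact ((continuousAt_const.mul (lam_cont ha u v _)).div_const _).add
      ((continuousAt_const.mul (lam_cont ha u v _)).div_const _)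
  have h2 : Continuous fun A : Matrix (Fin M) (Fin M) ℂ => A.det := Continuous.matrix_det continuous_id
  exact h2.continuousAt.comp h1

theorem eq_zero_of_ne {f : ℂ → ℂ} {a : ℂ} (hf : ContinuousAt f a) (S : Set ℂ) (hS : S.Finite)
    (h : ∀ u, u ∉ S → f u = 0) : f a = 0 := by
  have h1 : Tendsto f (𝓝[≠] a) (𝓝 (f a)) := hf.tendsto.mono_left nhdsWithin_le_nhds
  have h2 : ∀ᶠ u in 𝓝[≠] a, f u = 0 := by
    have h3 : (S \ {a})ᶜ ∈ 𝓝 a := (hS.subset Set.diff_subset).isClosed.isOpen_compl.mem_nhds (by simp)
    have h4 : ∀ᶠ u in 𝓝[≠] a, u ∈ (S \ {a})ᶜ := nhdsWithin_le_nhds h3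
    filter_upwards [h4, self_mem_nhdsWithin] with u hu hua
    apply h
    intro huS
    exact hu ⟨huS, hua⟩
  have h5 : Tendsto f (𝓝[≠] a) (𝓝 0) := by
    refine (tendsto_congr' ?_).2 tendsto_const_nhds
    exact h2
  exact tendsto_nhds_unique h1 h5

end TM2

open TM2 in
theorem t_M2 (h1 : S_M1) (_ : S_dg) (_ : S_TP) : S_M2 := by
  intro Ψ hΨ ε A M y hε hA hz
  have key : ∀ (u v : List ℂ), (∀ a ∈ u, a ≠ 0) → Gn (prs (v ++ List.ofFn (sq y))) →
      HH Ψ (symA ε (u ++ v)) [] [] (prs (List.ofFn (sq y))) * vdx (sq y) ^ 4 =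
        Rf ε (u ++ v) [] y := by
    intro u
    induction u using List.reverseRecOn with
    | nil =>
      intro v _ hG
      have := h1 Ψ hΨ ε v [] M y hε (by rw [List.append_nil]; exact hG)
      exact this
    | append_singleton u a ih =>
      intro v hu hG
      have ha : a ≠ 0 := hu a (by simp)
      simp only [List.append_assoc, List.cons_append, List.nil_append]
      let f : ℂ → ℂ := fun b =>
        HH Ψ (symA ε (u ++ b :: v)) [] [] (prs (List.ofFn (sq y))) * vdx (sq y) ^ 4 -
          Rf ε (u ++ b :: v) [] y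
      have hf : ContinuousAt f a := by
        refine ((HH_cont hΨ (CL.symA ha ε u v) _).mul continuousAt_const).sub ?_
        have e : (fun b => Rf ε (u ++ b :: v) [] y) = fun b =>
            kap ε (u.length + (v.length + 1)) 0 M * pfq q (symA ε (u ++ b :: v)) *
              (pairs fA [] * pairs fB (rv [])) *
              (wdx (sq y) ^ 2 * (DT (g1 ε) (u ++ b :: v) y * DT (g2 ε) (u ++ b :: v) y)) := by
          funext b
          unfold Rf
          rw [List.append_nil, List.length_append, List.length_cons, List.length_nil]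
        rw [e]
        exact ((continuousAt_const.mul ((CL.symA ha ε u v).pfq q)).mul continuousAt_const).mul
          (continuousAt_const.mul ((DT_cont ha _ u v y).mul (DT_cont ha _ u v y)))
      have h0 := eq_zero_of_ne hf _ (KC.TM2.bad_finite _ hG) (fun b hb => by
        have hG' : Gn (prs (b :: v ++ List.ofFn (sq y))) := by
          by_contra hcon
          exact hb hcon
        have h2 := ih (b :: v) (fun c hc => hu c (by simp [hc])) hG'
        exact sub_eq_zero.2 h2)
      exact sub_eq_zero.1 h0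
  have h2 := key A [] hA (by simpa using hz)
  simpa using h2

end Pool.Agent.W808.KS
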