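import Pool.Agent.W808.KS.Stm
import Pool.Agent.W808.KC.T_M1

/-!
# The exact formula: one more leg above (task KS-MB)
-/

set_option autoImplicit false

namespace Pool.Agent.W808.KS
open Pool.Agent.H863R2.Cyl
open Pool.Agent.H988R2.Perc (q_cube q_ne_zero q_ne_one)
open Pool.Agent.H988R2.Perc.T10 (pairs fA fB pairs_append_singleton)
open Pool.Agent.H160R2.ML (pfq Gn)
open Pool.Agent.W808.HB (prs Xf Yf vdx wdx)

namespace TMB

open Pool.Agent.W808.HB.TM1 (prs_nil prs_cons prs_append prs_len prs_even prs_perm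
  mem_prs prs_prod Gn_perm Gn_sub Gn_cons Gn_append Gn_inj vdx_perm wdx_perm vdx_cons wdx_cons
  Xf_inv ef ef_inv ofFn_cons)
open Pool.Agent.W808.KC.TM1 (prs_perm_append mem_prs_self mem_prs_inv cube_ne q_inv)

/-! ### generic lists -/

theorem prs_sublist {l l' : List ℂ} (h : l.Sublist l') : (prs l).Sublist (prs l') := by
  induction h with
  | slnil => exact List.Sublist.refl _
  | cons a _ ih =>
    rw [prs_cons]
    exact (ih.cons _).cons _
  | cons_cons a _ ih =>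
    rw [prs_cons, prs_cons]
    exact (ih.cons_cons _).cons_cons _

theorem prs_map_inv_perm (l : List ℂ) : (prs (l.map (fun b => b⁻¹))).Perm (prs l) := by
  induction l with
  | nil => exact List.Perm.refl _
  | cons x l ih =>
    rw [List.map_cons, prs_cons, prs_cons, inv_inv]
    exact (List.Perm.swap _ _ _).trans ((ih.cons _).cons _)

theorem prs_rv_perm (l : List ℂ) : (prs (rv l)).Perm (prs l) :=
  (prs_perm (List.reverse_perm _)).trans (prs_map_inv_perm l)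

theorem rv_append (B : List ℂ) (b : ℂ) : rv (B ++ [b]) = b⁻¹ :: rv B := by
  simp [rv]

theorem rv_length (B : List ℂ) : (rv B).length = B.length := by simp [rv]

theorem prs_inv_mem {u : ℂ} {l : List ℂ} (h : u ∈ prs l) : u⁻¹ ∈ prs l := by
  obtain ⟨x, hx, h1 | h1⟩ := mem_prs h
  · rw [h1]
    exact mem_prs_inv hx
  · rw [h1, inv_inv]
    exact mem_prs_self hx

/-- nonvanishing of the products over pairs -/
theorem pairs_ne (f : ℂ → ℂ → ℂ)
    (hf : ∀ x y : ℂ, x ≠ 0 → x ^ 3 ≠ y ^ 3 → x⁻¹ ^ 3 ≠ y ^ 3 → f x y ≠ 0) (l : List ℂ)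
    (hl : Gn (prs l)) : pairs f l ≠ 0 := by
  induction l with
  | nil => simp [pairs]
  | cons x l ih =>
    have hl' := hl
    rw [prs_cons] at hl'
    rw [pairs]
    refine mul_ne_zero ?_ (ih (Gn_sub ((List.sublist_cons_self _ _).trans
      (List.sublist_cons_self _ _)) hl'))
    rw [Ne, List.prod_eq_zero_iff, List.mem_map]
    rintro ⟨y, hy, h0⟩
    refine hf x y (hl'.1 x List.mem_cons_self) ?_ ?_ h0
    · exact Gn_cons hl' y (List.mem_cons_of_mem _ (mem_prs_self hy))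
    · exact Gn_cons (Gn_sub (List.sublist_cons_self _ _) hl') y (mem_prs_self hy)

theorem fA_ne (x y : ℂ) (hx : x ≠ 0) (h : x ^ 3 ≠ y ^ 3) (h' : x⁻¹ ^ 3 ≠ y ^ 3) : fA x y ≠ 0 := by
  unfold fA
  apply mul_ne_zero
  · intro h0
    apply cube_ne h 2 0
    rw [pow_zero, one_mul]
    linear_combination -h0
  · intro h0
    apply cube_ne h' 2 0
    rw [pow_zero, one_mul]
    have hx1 : x * x⁻¹ = 1 := mul_inv_cancel₀ hx
    linear_combination (-x⁻¹) * h0 + y * hx1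

theorem fB_ne (x y : ℂ) (hx : x ≠ 0) (h : x ^ 3 ≠ y ^ 3) (h' : x⁻¹ ^ 3 ≠ y ^ 3) : fB x y ≠ 0 := by
  unfold fB
  apply mul_ne_zero
  · intro h0
    apply cube_ne h 1 2
    rw [pow_one]
    linear_combination h0
  · intro h0
    apply cube_ne h' 2 1
    rw [pow_one]
    have hx1 : x * x⁻¹ = 1 := mul_inv_cancel₀ hx
    linear_combination (-x⁻¹) * h0 + q * y * hx1

theorem Gn_qlast {B : List ℂ} {u : ℂ} (h : Gn (prs (B ++ [u]))) : Gn (prs (B ++ [q * u])) := by
  have hu : u ≠ 0 := h.1 u (mem_prs_self (List.mem_append_right _ (List.mem_singleton_self _)))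
  have hqu : q * u ≠ 0 := mul_ne_zero q_ne_zero hu
  rw [prs_append, prs_cons, prs_nil] at h ⊢
  refine ⟨?_, ?_⟩
  · intro x hx
    rw [List.mem_append] at hx
    rcases hx with hx | hx
    · exact h.1 x (List.mem_append_left _ hx)
    · simp only [List.mem_cons, List.not_mem_nil, or_false] at hx
      rcases hx with rfl | rfl
      · exact hqu
      · exact inv_ne_zero hqu
  · have h2 := h.2
    have e1 : (q * u) ^ 3 = u ^ 3 := by
      rw [mul_pow, q_cube, one_mul]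
    have e2 : (q * u)⁻¹ ^ 3 = u⁻¹ ^ 3 := by
      rw [inv_pow, inv_pow, e1]
    simp only [List.map_append, List.map_cons, List.map_nil] at h2 ⊢
    rw [e1, e2]
    exact h2

theorem Gn_node {B l : List ℂ} (h : Gn (prs (B ++ l))) {u : ℂ} (hu : u ∈ prs l) :
    Gn (prs (B ++ [u])) := by
  obtain ⟨x, hx, h1 | h1⟩ := mem_prs hu
  · rw [h1]
    refine Gn_sub (prs_sublist (List.Sublist.append_left ?_ _)) h
    exact List.singleton_sublist.2 hx
  · have h2 : Gn (prs (B ++ [x])) := by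
      refine Gn_sub (prs_sublist (List.Sublist.append_left ?_ _)) h
      exact List.singleton_sublist.2 hx
    refine Gn_perm ?_ h2
    rw [h1, prs_append, prs_append]
    refine List.Perm.append_left _ ?_
    rw [prs_cons, prs_cons, inv_inv, prs_nil]
    exact List.Perm.swap _ _ _

/-! ### the equation -/

theorem sq_cons {M : ℕ} (y0 : ℂ) (y : Fin M → ℂ) :
    sq (Fin.cons y0 y : Fin (M + 1) → ℂ) = Fin.cons (y0 ^ 2) (sq y) := by
  funext i
  refine Fin.cases ?_ (fun i => ?_) i <;> simp [sq]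

theorem sq_comp {M : ℕ} (y : Fin M → ℂ) (s : Equiv.Perm (Fin M)) : sq (y ∘ s) = sq y ∘ s := rfl

/-- the formula -/
def EQ (Ψ : List ℂ → VW) (ε : ℕ) (A B : List ℂ) {M : ℕ} (y : Fin M → ℂ) : Prop :=
  HH Ψ (symA ε A) B (rv B) (prs (List.ofFn (sq y))) * vdx (sq y) ^ 4 = Rf ε A B y

theorem EQ_perm (hsz : S_sz) (hTP : S_TP) {Ψ : List ℂ → VW} (hΨ : Fam q Ψ) {ε : ℕ}
    {A B : List ℂ} {M : ℕ} {y : Fin M → ℂ} (hG : Gn (prs (List.ofFn (sq y))))
    (s : Equiv.Perm (Fin M)) : EQ Ψ ε A B (y ∘ s) ↔ EQ Ψ ε A B y := by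
  have hpm : (List.ofFn (sq y ∘ s)).Perm (List.ofFn (sq y)) :=
    Equiv.Perm.ofFn_comp_perm s (sq y)
  have hev : Even (B.length + (prs (List.ofFn (sq y))).length + (rv B).length) := by
    rw [rv_length, prs_len]
    exact ⟨B.length + (List.ofFn (sq y)).length, by ring⟩
  unfold EQ Rf
  rw [sq_comp, ← hsz Ψ hΨ (symA ε A) B (rv B) _ _ hev (prs_perm hpm.symm) hG, vdx_perm, wdx_perm,
    (hTP (g1 ε) (A ++ B) M y).2.2.1 s, (hTP (g2 ε) (A ++ B) M y).2.2.1 s]

theorem EQ_inv (hsz : S_sz) (hTP : S_TP) {Ψ : List ℂ → VW} (hΨ : Fam q Ψ) {ε : ℕ}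
    {A B : List ℂ} {M : ℕ} {y0 : ℂ} {y : Fin M → ℂ}
    (hG : Gn (prs (y0 ^ 2 :: List.ofFn (sq y)))) :
    EQ Ψ ε A B (Fin.cons y0⁻¹ y : Fin (M + 1) → ℂ) ↔
      EQ Ψ ε A B (Fin.cons y0 y : Fin (M + 1) → ℂ) := by
  have hx0 : y0 ^ 2 ≠ 0 := hG.1 _ (by rw [prs_cons]; exact List.mem_cons_self)
  have hy0 : y0 ≠ 0 := fun h => hx0 (by rw [h]; ring)
  have hev : Even (B.length + (prs (y0 ^ 2 :: List.ofFn (sq y))).length + (rv B).length) := by
    rw [rv_length, prs_len]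
    exact ⟨B.length + (y0 ^ 2 :: List.ofFn (sq y)).length, by ring⟩
  have h2 : ∀ g : ℂ → ℂ, DT g (A ++ B) (Fin.cons y0⁻¹ y : Fin (M + 1) → ℂ) =
      DT g (A ++ B) (Fin.cons y0 y : Fin (M + 1) → ℂ) := by
    intro g
    have h := (hTP g (A ++ B) (M + 1) (Fin.cons y0 y : Fin (M + 1) → ℂ)).2.2.2 0
      (by rw [Fin.cons_zero]; exact hy0)
    rw [Fin.cons_zero, Fin.update_cons_zero] at h
    exact h
  have h1 : HH Ψ (symA ε A) B (rv B) (prs ((y0 ^ 2)⁻¹ :: List.ofFn (sq y))) =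
      HH Ψ (symA ε A) B (rv B) (prs (y0 ^ 2 :: List.ofFn (sq y))) := by
    refine (hsz Ψ hΨ (symA ε A) B (rv B) _ _ hev ?_ hG).symm
    rw [prs_cons, prs_cons, inv_inv]
    exact List.Perm.swap _ _ _
  unfold EQ Rf
  rw [sq_cons, sq_cons, ofFn_cons, ofFn_cons, inv_pow, h1, h2, h2, vdx_cons, vdx_cons, wdx_cons,
    wdx_cons, Xf_inv, ef_inv]

theorem kap_succ (ε k l M : ℕ) : kap ε k (l + 1) M = kap ε k l M * q ^ (2 * M) := by
  unfold kap
  have e1 : M * (M + 1 - ε + 2 * (l + 1)) = M * (M + 1 - ε + 2 * l) + 2 * M := by ring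
  rw [e1, pow_add]
  ring

/-! ### evaluation at `q x₀` -/

theorem evB (hnB : S_nB) (hsz : S_sz) (hRB : S_RB) {Ψ : List ℂ → VW} (hΨ : Fam q Ψ)
    {ε k l M : ℕ} (hε : ε ≤ 1) (hC : Cl ε (k + 1) l M) (A B : List ℂ) (hA : A.length = k)
    (hB : B.length = l) (y0 : ℂ) (y : Fin M → ℂ)
    (hG : Gn (prs (A ++ B ++ y0 ^ 2 :: List.ofFn (sq y)))) :
    EQ Ψ ε A (B ++ [q * y0 ^ 2]) (Fin.cons y0 y : Fin (M + 1) → ℂ) := by
  have h3 : q ^ 3 = 1 := q_cube
  have hx0 : y0 ^ 2 ≠ 0 :=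
    hG.1 _ (mem_prs_self (List.mem_append_right _ List.mem_cons_self))
  have e0 : q ^ 2 * (q * y0 ^ 2) = y0 ^ 2 := by linear_combination y0 ^ 2 * h3
  have ei : (q * y0 ^ 2)⁻¹ = q ^ 2 * (y0 ^ 2)⁻¹ := by rw [mul_inv, q_inv]
  have hGz : Gn (prs (y0 ^ 2 :: List.ofFn (sq y))) :=
    Gn_sub (prs_sublist (List.sublist_append_right _ _)) hG
  have hev1 : Even (B.length + (prs (List.ofFn (sq y)) ++ [(y0 ^ 2)⁻¹]).length +
      ((q ^ 2 * (y0 ^ 2)⁻¹) :: rv B).length) := by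
    rw [List.length_append, List.length_singleton, List.length_cons, rv_length, prs_len]
    exact ⟨B.length + (List.ofFn (sq y)).length + 1, by ring⟩
  have hev2 : Even (B.length + (prs (List.ofFn (sq y))).length + (rv B).length) := by
    rw [rv_length, prs_len]
    exact ⟨B.length + (List.ofFn (sq y)).length, by ring⟩
  have hev3 : Even ((B ++ [q * y0 ^ 2]).length + (prs (y0 ^ 2 :: List.ofFn (sq y))).length +
      ((q ^ 2 * (y0 ^ 2)⁻¹) :: rv B).length) := by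
    rw [List.length_append, List.length_singleton, prs_len, List.length_cons, List.length_cons,
      rv_length]
    exact ⟨B.length + ((List.ofFn (sq y)).length + 1) + 1, by ring⟩
  have hp : (prs (y0 ^ 2 :: List.ofFn (sq y))).Perm
      (y0 ^ 2 :: (prs (List.ofFn (sq y)) ++ [(y0 ^ 2)⁻¹])) := by
    rw [prs_cons]
    exact List.Perm.cons _ (List.perm_append_singleton _ _).symm
  have h1 := (hnB Ψ hΨ (symA ε A) B ((q ^ 2 * (y0 ^ 2)⁻¹) :: rv B)
    (prs (List.ofFn (sq y)) ++ [(y0 ^ 2)⁻¹]) (q * y0 ^ 2) hev1).1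
  have h2 := (hnB Ψ hΨ (symA ε A ++ [y0 ^ 2]) B (rv B) (prs (List.ofFn (sq y))) (y0 ^ 2)⁻¹
    hev2).2
  rw [e0] at h1
  have hIH := hC Ψ hΨ (y0 ^ 2 :: A) B y (by rw [List.length_cons, hA]) hB (by
    refine Gn_perm (prs_perm ?_) hG
    rw [List.cons_append, List.cons_append]
    exact List.perm_middle)
  have hR := hRB ε A B M y0 y hε hG
  have hsym : symA ε (y0 ^ 2 :: A) = (y0 ^ 2)⁻¹ :: (symA ε A ++ [y0 ^ 2]) := rfl
  unfold EQ
  rw [rv_append, ei, sq_cons, ofFn_cons,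
    hsz Ψ hΨ (symA ε A) (B ++ [q * y0 ^ 2]) ((q ^ 2 * (y0 ^ 2)⁻¹) :: rv B) _ _ hev3 hp hGz, h1, h2,
    hR, vdx_cons, ← hIH, hsym]
  have hE : (∏ j, (Xf (y0 ^ 2) - Xf (sq y j)) ^ 2) ^ 4 =
      ∏ j, (Xf (y0 ^ 2) - Xf (y j ^ 2)) ^ 8 := by
    rw [← Finset.prod_pow]
    refine Finset.prod_congr rfl fun j _ => ?_
    rw [← pow_mul]
    rfl
  rw [mul_pow, hE]
  ring

/-! ### interpolation -/

theorem DT_last (hTP : S_TP) (g : ℂ → ℂ) (A B : List ℂ) (b : ℂ) {M : ℕ} (y : Fin M → ℂ) :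
    DT g (A ++ (B ++ [b])) y = DT g (b :: (A ++ B)) y := by
  refine (hTP g _ M y).2.1 _ ?_
  rw [← List.append_assoc]
  exact List.perm_append_singleton _ _

theorem prs_prod_one {l : List ℂ} (h : ∀ x ∈ l, x ≠ 0) : (prs l).prod = 1 := by
  induction l with
  | nil => rfl
  | cons x l ih =>
    rw [prs_cons, List.prod_cons, List.prod_cons,
      ih (fun y hy => h y (List.mem_cons_of_mem _ hy)), mul_one,
      mul_inv_cancel₀ (h x List.mem_cons_self)]

theorem Xf_inj {l : List ℂ} (hl : Gn (prs l)) {u v : ℂ} (hu : u ∈ prs l) (hv : v ∈ prs l)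
    (h : Xf (q * u) = Xf (q * v)) : u = v := by
  have h3 : q ^ 3 = 1 := q_cube
  have hu0 := hl.1 u hu
  have hv0 := hl.1 v hv
  have hu1 : u * u⁻¹ = 1 := mul_inv_cancel₀ hu0
  have hv1 : v * v⁻¹ = 1 := mul_inv_cancel₀ hv0
  have h1 : (u - v) * (q - q ^ 2 * (u⁻¹ * v⁻¹)) = 0 := by
    unfold Xf at h
    rw [mul_inv, mul_inv, q_inv] at h
    linear_combination h - q ^ 2 * v⁻¹ * hu1 + q ^ 2 * u⁻¹ * hv1
  rcases mul_eq_zero.1 h1 with h2 | h2
  · exact sub_eq_zero.1 h2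
  · exfalso
    have h4 : v = q * u⁻¹ := by
      linear_combination (v * q ^ 2) * h2 + (-v + q * u⁻¹ * (v * v⁻¹)) * h3 + (q * u⁻¹) * hv1
    have h5 : u⁻¹ ^ 3 = v ^ 3 := by
      rw [h4, mul_pow, h3, one_mul]
    have h6 := Gn_inj hl (prs_inv_mem hu) hv h5
    rw [← h6] at h4
    have h7 : (q - 1) * u⁻¹ = 0 := by linear_combination -h4
    rcases mul_eq_zero.1 h7 with h8 | h8
    · exact q_ne_one (sub_eq_zero.1 h8)
    · exact inv_ne_zero hu0 h8

theorem step (hQB : S_QB) (hnB : S_nB) (hsz : S_sz) (hTP : S_TP) (hRB : S_RB) (ε k l M : ℕ)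
    (hε : ε ≤ 1) (hC1 : Cl ε (k + 1) l M) (hC2 : Cl ε k l (M + 1)) : Cl ε k (l + 1) (M + 1) := by
  intro Ψ hΨ A B0 y hA hB0 hG
  obtain ⟨B, b, rfl⟩ : ∃ B b, B0 = B ++ [b] := by
    rcases List.eq_nil_or_concat B0 with h | ⟨B, b, h⟩
    · rw [h, List.length_nil] at hB0
      omega
    · exact ⟨B, b, by rw [h, List.concat_eq_append]⟩
  have hB : B.length = l := by
    rw [List.length_append, List.length_singleton] at hB0
    omega
  have hsub : (A ++ B ++ List.ofFn (sq y)).Sublist (A ++ (B ++ [b]) ++ List.ofFn (sq y)) := by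
    refine List.Sublist.append_right (List.Sublist.append_left ?_ _) _
    exact List.sublist_append_left _ _
  have hG' : Gn (prs (A ++ B ++ List.ofFn (sq y))) := Gn_sub (prs_sublist hsub) hG
  have hGz : Gn (prs (List.ofFn (sq y))) :=
    Gn_sub (prs_sublist (List.sublist_append_right _ _)) hG
  have hGBz : Gn (prs (B ++ List.ofFn (sq y))) := by
    refine Gn_sub (prs_sublist ?_) hG'
    rw [List.append_assoc]
    exact List.sublist_append_right _ _
  have hGB : Gn (prs B) := Gn_sub (prs_sublist (List.sublist_append_left _ _)) hGBz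
  have hb0 : b ≠ 0 := hG.1 b (mem_prs_self (List.mem_append_left _
    (List.mem_append_right _ (List.mem_append_right _ (List.mem_singleton_self _)))))
  -- the values
  have key0 : ∀ (y0 : ℂ) (y1 : Fin M → ℂ), Gn (prs (A ++ B ++ y0 ^ 2 :: List.ofFn (sq y1))) →
      EQ Ψ ε A (B ++ [q * y0 ^ 2]) (Fin.cons y0 y1 : Fin (M + 1) → ℂ) :=
    fun y0 y1 h => evB hnB hsz hRB hΨ hε hC1 A B hA hB y0 y1 h
  have hsw : ∀ j : Fin (M + 1), ∃ y1 : Fin M → ℂ,
      (Fin.cons (y j) y1 : Fin (M + 1) → ℂ) = y ∘ Equiv.swap 0 j ∧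
      (y j ^ 2 :: List.ofFn (sq y1)).Perm (List.ofFn (sq y)) := by
    intro j
    have e1 : (y ∘ Equiv.swap 0 j) 0 = y j := by simp
    have e2 : (Fin.cons (y j) (Fin.tail (y ∘ Equiv.swap 0 j)) : Fin (M + 1) → ℂ) =
        y ∘ Equiv.swap 0 j := by
      rw [← e1]
      exact Fin.cons_self_tail _
    refine ⟨Fin.tail (y ∘ Equiv.swap 0 j), e2, ?_⟩
    rw [← ofFn_cons, ← sq_cons, e2, sq_comp]
    exact Equiv.Perm.ofFn_comp_perm (Equiv.swap 0 j) (sq y)
  have keyj : ∀ j : Fin (M + 1), EQ Ψ ε A (B ++ [q * y j ^ 2]) y := by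
    intro j
    obtain ⟨y1, h1, h2⟩ := hsw j
    have h := key0 (y j) y1 (Gn_perm (prs_perm (List.Perm.append_left _ h2.symm)) hG')
    rw [h1, EQ_perm hsz hTP hΨ hGz] at h
    exact h
  have keyj' : ∀ j : Fin (M + 1), EQ Ψ ε A (B ++ [q * (y j ^ 2)⁻¹]) y := by
    intro j
    obtain ⟨y1, h1, h2⟩ := hsw j
    have h := key0 (y j)⁻¹ y1 (by
      rw [inv_pow]
      rw [prs_append] at hG' ⊢
      refine Gn_perm ?_ hG'
      refine List.Perm.append_left _ ((prs_perm h2.symm).trans ?_)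
      rw [prs_cons, prs_cons, inv_inv]
      exact List.Perm.swap _ _ _)
    rw [EQ_inv hsz hTP hΨ (Gn_perm (prs_perm h2.symm) hGz), h1,
      EQ_perm hsz hTP hΨ hGz, inv_pow] at h
    exact h
  have keyu : ∀ u ∈ prs (List.ofFn (sq y)), EQ Ψ ε A (B ++ [q * u]) y := by
    intro u hu
    obtain ⟨v, hv, h⟩ := mem_prs hu
    obtain ⟨j, rfl⟩ := List.mem_ofFn.1 hv
    rcases h with rfl | rfl
    · exact keyj j
    · exact keyj' j
  -- the polynomials
  have hlen : (prs (List.ofFn (sq y))).length = 2 * (M + 1) := by rw [prs_len, List.length_ofFn]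
  obtain ⟨Q, hQd, hQe, hQc⟩ := hQB Ψ hΨ (symA ε A) B (prs (List.ofFn (sq y))) (prs_even _) hGB
  obtain ⟨P1, hP1d, hP1e, hP1c⟩ := (hTP (g1 ε) (A ++ B) (M + 1) y).1
  obtain ⟨P2, hP2d, hP2e, hP2c⟩ := (hTP (g2 ε) (A ++ B) (M + 1) y).1
  have hprod : (prs (List.ofFn (sq y))).prod = 1 :=
    prs_prod_one fun x hx => hGz.1 x (mem_prs_self hx)
  rw [hlen] at hQd hQc
  rw [hprod, mul_one] at hQc
  have hIH := hC2 Ψ hΨ A B y hA hB hG'
  set K : ℂ := kap ε k (l + 1) (M + 1) * pfq q (symA ε A) * wdx (sq y) ^ 2 with hK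
  set R : Polynomial ℂ := Q * Polynomial.C (vdx (sq y) ^ 4) - Polynomial.C K * (P1 * P2) with hR
  have hRe : ∀ c, c ≠ 0 → pairs fA (B ++ [c]) * pairs fB (rv (B ++ [c])) * R.eval (Xf c) =
      HH Ψ (symA ε A) (B ++ [c]) (rv (B ++ [c])) (prs (List.ofFn (sq y))) * vdx (sq y) ^ 4 -
        Rf ε A (B ++ [c]) y := by
    intro c hc
    have h1 := hQe c hc
    rw [← rv_append] at h1
    rw [h1, hR, Polynomial.eval_sub, Polynomial.eval_mul, Polynomial.eval_C, Polynomial.eval_mul,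
      Polynomial.eval_C, Polynomial.eval_mul, hP1e, hP2e, Rf, DT_last hTP, DT_last hTP, hA,
      List.length_append, List.length_singleton, hB, hK]
    ring
  have hpB : pairs fA B * pairs fB (rv B) ≠ 0 :=
    mul_ne_zero (pairs_ne fA fA_ne B hGB)
      (pairs_ne fB fB_ne (rv B) (Gn_perm (prs_rv_perm B).symm hGB))
  have hcoef : R.coeff (2 * (M + 1)) = 0 := by
    have hPP : (P1 * P2).coeff (2 * (M + 1)) = P1.coeff (M + 1) * P2.coeff (M + 1) := by
      rw [two_mul]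
      exact Polynomial.coeff_mul_add_eq_of_natDegree_le hP1d hP2d
    rw [hR, Polynomial.coeff_sub, Polynomial.coeff_mul_C, Polynomial.coeff_C_mul, hPP, hP1c, hP2c]
    refine mul_left_cancel₀ hpB ?_
    rw [mul_zero]
    have h1 : HH Ψ (symA ε A) B (rv B) (prs (List.ofFn (sq y))) * vdx (sq y) ^ 4 =
        kap ε k l (M + 1) * pfq q (symA ε A) * (pairs fA B * pairs fB (rv B)) *
        (wdx (sq y) ^ 2 * (DT (g1 ε) (A ++ B) y * DT (g2 ε) (A ++ B) y)) := by
      rw [hIH, Rf, hA, hB]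
    rw [hK, kap_succ]
    linear_combination (vdx (sq y) ^ 4) * hQc + q ^ (2 * (M + 1)) * h1
  have hRd : R.degree < ((2 * (M + 1) : ℕ) : WithBot ℕ) := by
    rw [Polynomial.degree_lt_iff_coeff_zero]
    intro m hm
    rcases hm.lt_or_eq with hm | rfl
    · apply Polynomial.coeff_eq_zero_of_natDegree_lt
      refine lt_of_le_of_lt ?_ hm
      refine (Polynomial.natDegree_sub_le _ _).trans (max_le ?_ ?_)
      · exact (Polynomial.natDegree_mul_C_le _ _).trans hQd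
      · refine (Polynomial.natDegree_C_mul_le _ _).trans (Polynomial.natDegree_mul_le.trans ?_)
        omega
    · exact hcoef
  have hR0 : R = 0 := by
    set L : List ℂ := (prs (List.ofFn (sq y))).map (fun u => Xf (q * u)) with hL
    have hnd : L.Nodup := List.Nodup.map_on
      (fun u hu v hv h => Xf_inj hGz hu hv h) (List.Nodup.of_map _ hGz.2)
    refine Polynomial.eq_zero_of_degree_lt_of_eval_finset_eq_zero L.toFinset ?_ ?_
    · rw [List.toFinset_card_of_nodup hnd, hL, List.length_map, hlen]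
      exact hRd
    · intro X hX
      rw [List.mem_toFinset, hL, List.mem_map] at hX
      obtain ⟨u, hu, rfl⟩ := hX
      have hu0 : q * u ≠ 0 := mul_ne_zero q_ne_zero (hGz.1 u hu)
      have h1 := hRe (q * u) hu0
      have h2 := keyu u hu
      unfold EQ at h2
      rw [h2, sub_self] at h1
      have hGq : Gn (prs (B ++ [q * u])) := Gn_qlast (Gn_node hGBz hu)
      have hne : pairs fA (B ++ [q * u]) * pairs fB (rv (B ++ [q * u])) ≠ 0 :=
        mul_ne_zero (pairs_ne fA fA_ne _ hGq)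
          (pairs_ne fB fB_ne _ (Gn_perm (prs_rv_perm _).symm hGq))
      exact (mul_eq_zero.1 h1).resolve_left hne
  have h := hRe b hb0
  rw [hR0, Polynomial.eval_zero, mul_zero] at h
  exact sub_eq_zero.1 h.symm

end TMB

/-- One more leg above. -/
theorem t_MB (hQB : S_QB) (hnB : S_nB) (hsz : S_sz) (_hexB : S_exB) (_hexA : S_exA) (hTP : S_TP)
    (hRB : S_RB) : S_MB :=
  fun ε k l M hε h1 h2 => TMB.step hQB hnB hsz hTP hRB ε k l M hε h1 h2

end Pool.Agent.W808.KS
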