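import Pool.Agent.W808.KS.Stm
import Pool.Agent.W808.KC.T_LIM
import Pool.Agent.H863R2.Cyl.Value
import Pool.Agent.H863R2.Cyl.FamEx

/-! # Legs at the tip of a slit, task PWs: the stationary probability -/

set_option autoImplicit false

namespace Pool.Agent.W808.KS
open Pool.Agent.H863R2.Cyl
open Pool.Agent.H988R2.Perc (Word PD Dyck LP Fw mem_LP q_ne_zero)
open Filter Topology

namespace TPWs

lemma lawW_nonneg (n : ℕ) : ∀ (K : ℕ) (w : Word), 0 ≤ KC.lawW n K w := by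
  intro K
  induction K with
  | zero =>
    intro w
    unfold KC.lawW
    split_ifs
    · exact zero_le_one
    · exact le_refl _
  | succ K ih =>
    intro w
    unfold KC.lawW
    refine div_nonneg (Finset.sum_nonneg fun v _ => Finset.sum_nonneg fun c _ =>
      Finset.sum_nonneg fun c' _ => ?_) (by positivity)
    split_ifs
    · exact ih v
    · exact le_refl _

lemma Zs_ne (hHV : KC.S_HV) (hDC : KC.S_DC) (hE1 : KC.S_E1) (M : ℕ) (hM : 1 ≤ M) :
    Zs (List.replicate (2 * M) 1) ≠ 0 := by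
  obtain ⟨n, rfl⟩ : ∃ n, M = n + 1 := ⟨M - 1, by omega⟩
  have hZ1 : Zs (List.replicate (2 * (n + 1)) 1) =
      (3 * q) ^ ((1 + n) * (1 + n - 1)) * (KC.Dc (2 * 1) n : ℂ) := by
    rw [← hHV 1 n le_rfl, KC.TLIM.GG_eq 1 n (2 * (n + 1)) (by ring)]
    unfold Zs
    rw [List.length_replicate]
    refine Finset.sum_congr rfl fun w hw => ?_
    rw [mem_LP] at hw
    have h1 := hE1.1 w hw.2 (by omega)
    unfold KC.el
    rw [if_pos h1, one_mul]
  have h3q : (3 * q : ℂ) ≠ 0 := mul_ne_zero (by norm_num) q_ne_zero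
  have hD1 : KC.Dc (2 * 1) n ≠ 0 := by
    rw [hDC]
    exact (KC.TLIM.Cn_pos _ _).ne'
  rw [hZ1]
  exact mul_ne_zero (pow_ne_zero _ h3q) (by exact_mod_cast hD1)

lemma HH_eq {r : ℂ} {Ψ : List ℂ → VW} (hΨ : Fam r Ψ) (n m M : ℕ) (hn : n + 1 = m + 2 * M)
    (μ : Wd (n + 1) → ℝ) (hμ : ∑ σ, μ σ = 1)
    (hst : ∀ σ, ∑ c : Fin (n + 1) → Bool, push (Tc n c) μ σ = 2 ^ (n + 1) * μ σ) :
    HH Ψ (List.replicate m 1) [] [] (List.replicate (2 * M) 1) =
      tot (Ψ (List.replicate (n + 1) 1)) *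
        ∑ σ : Wd (n + 1), ∑ w ∈ LP (2 * M),
          (μ σ : ℂ) * Fw w (List.replicate (2 * M) 1) * (if Gs 0 0 m w σ.1 then 1 else 0) := by
  have hmem : Ψ (List.replicate (n + 1) 1) ∈ VN (n + 1) := by
    have := hΨ.mem (List.replicate (n + 1) 1)
    rwa [List.length_replicate] at this
  unfold HH HV
  rw [← List.replicate_add, ← hn]
  simp only [List.length_replicate, List.length_nil, zero_add, add_zero, List.nil_append,
    List.append_nil]
  rw [Finset.sum_comm, Finset.mul_sum]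
  refine Finset.sum_congr rfl fun w _ => ?_
  unfold es
  rw [ValueAux.lc_eq _ hmem, Finset.mul_sum, Finset.mul_sum]
  refine Finset.sum_congr rfl fun σ _ => ?_
  rw [smul_eq_mul, ValueAux.eq_mu hΨ n μ hμ hst σ]
  ring

theorem core (hCV : KC.S_CV) (hZ : ∀ M : ℕ, 1 ≤ M → Zs (List.replicate (2 * M) 1) ≠ 0) :
    S_HVs → S_PWs := by
  intro hHV n m M hn hm hM μ hμ0 hμ hst
  obtain ⟨Ψ, hΨ⟩ := exists_Fam q Pool.Agent.H988R2.Perc.q_spec
  have hH := HH_eq hΨ n m M hn μ hμ hst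
  have hV := hHV Ψ hΨ m M hm hM
  have hZ0 := hZ M hM
  have hT0 : tot (Ψ (List.replicate (n + 1) 1)) ≠ 0 := hΨ.tot_ne (n + 1)
  rw [← hn, hH, norm_mul] at hV
  set Z : ℂ := Zs (List.replicate (2 * M) 1) with hZd
  have hZe : Z = ∑ w ∈ LP (2 * M), Fw w (List.replicate (2 * M) 1) := by
    rw [hZd]
    unfold Zs
    rw [List.length_replicate]
  set S : ℂ := ∑ σ : Wd (n + 1), ∑ w ∈ LP (2 * M),
    (μ σ : ℂ) * Fw w (List.replicate (2 * M) 1) * (if Gs 0 0 m w σ.1 then 1 else 0) with hS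
  have hcv : ∀ w ∈ LP (2 * M), Tendsto (fun K => (KC.lawW M K w : ℂ)) atTop
      (𝓝 (Fw w (List.replicate (2 * M) 1) / Z)) := by
    rw [hZe]
    exact hCV M hM (by rw [← hZe]; exact hZ0)
  have hlim : Tendsto (fun K => ∑ σ : Wd (n + 1), ∑ w ∈ LP (2 * M),
      (μ σ : ℂ) * (KC.lawW M K w : ℂ) * (if Gs 0 0 m w σ.1 then 1 else 0)) atTop (𝓝 (S / Z)) := by
    have e : S / Z = ∑ σ : Wd (n + 1), ∑ w ∈ LP (2 * M),
        (μ σ : ℂ) * (Fw w (List.replicate (2 * M) 1) / Z) * (if Gs 0 0 m w σ.1 then 1 else 0) := by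
      rw [hS, Finset.sum_div]
      refine Finset.sum_congr rfl fun σ _ => ?_
      rw [Finset.sum_div]
      refine Finset.sum_congr rfl fun w _ => ?_
      ring
    rw [e]
    refine tendsto_finsetSum _ fun σ _ => tendsto_finsetSum _ fun w hw => ?_
    exact ((hcv w hw).const_mul _).mul_const _
  set F : ℕ → ℝ := fun K => ∑ σ : Wd (n + 1), ∑ w ∈ LP (2 * M),
      μ σ * KC.lawW M K w * (if Gs 0 0 m w σ.1 then 1 else 0) with hF
  have hFc : (fun K => ∑ σ : Wd (n + 1), ∑ w ∈ LP (2 * M),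
      (μ σ : ℂ) * (KC.lawW M K w : ℂ) * (if Gs 0 0 m w σ.1 then 1 else 0)) =
      fun K => ((F K : ℝ) : ℂ) := by
    funext K
    rw [hF]
    push_cast
    refine Finset.sum_congr rfl fun σ _ => Finset.sum_congr rfl fun w _ => ?_
    split_ifs
    · simp
    · simp
  rw [hFc] at hlim
  have hF0 : ∀ K, 0 ≤ F K := by
    intro K
    rw [hF]
    refine Finset.sum_nonneg fun σ _ => Finset.sum_nonneg fun w _ => ?_
    refine mul_nonneg (mul_nonneg (hμ0 σ) (lawW_nonneg _ _ _)) ?_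
    split_ifs
    · exact zero_le_one
    · exact le_refl _
  have hnorm : ‖S / Z‖ = Psl m M := by
    rw [norm_div, div_eq_iff (norm_ne_zero_iff.2 hZ0)]
    apply mul_left_cancel₀ (norm_ne_zero_iff.2 hT0)
    linear_combination hV
  have h1 : Tendsto (fun K => ‖((F K : ℝ) : ℂ)‖) atTop (𝓝 ‖S / Z‖) := hlim.norm
  rw [hnorm] at h1
  refine h1.congr fun K => ?_
  rw [Complex.norm_real, Real.norm_of_nonneg (hF0 K)]

end TPWs

/-- the four first hypotheses are `KC.a_CV`, `KC.a_HV`, `KC.a_DC`, `KC.t_E1` (of `KC/All.lean`) -/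
theorem t_PWs : KC.S_CV → KC.S_HV → KC.S_DC → KC.S_E1 → S_HVs → S_PWs :=
  fun hCV hHV hDC hE1 => TPWs.core hCV (TPWs.Zs_ne hHV hDC hE1)

end Pool.Agent.W808.KS
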