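import Pool.Agent.W808.KS.T_RU
import Pool.Agent.H863R2.Cyl.Braid
import Pool.Agent.H863R2.Cyl.KEx

/-!
# A pair of legs below (task KS-QA)
-/

set_option autoImplicit false

namespace Pool.Agent.W808.KS
open Pool.Agent.H863R2.Cyl
open Pool.Agent.H988R2.Perc (Word PD Dyck LP Fw)
open Pool.Agent.H160R2.ML (pfq Gn)
open Pool.Agent.W808.HB (Xf)

namespace TQA

open TRU
open Pool.Agent.W808.HB.TM1 (pfq_append Gn_perm Gn_sub Gn_cons Gn_append map_scale)
open Pool.Agent.W493.KS
open Polynomial

theorem qs : q ^ 2 + q + 1 = 0 := Pool.Agent.H988R2.Perc.q_spec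
theorem qs2 : (q ^ 2) ^ 2 + q ^ 2 + 1 = 0 := by
  linear_combination q * q3 + qs

/-! ### the functional is linear -/

theorem phi_expand (φ : VW →ₗ[ℂ] ℂ) {N : ℕ} {v : VW} (hv : v ∈ VN N) :
    φ v = ∑ w ∈ BLAux.SN N, v w * φ (bs w) := by
  conv_lhs => rw [BLAux.expand hv]
  rw [map_sum]
  refine Finset.sum_congr rfl fun w _ => ?_
  rw [map_smul, smul_eq_mul]

/-- the functional as a linear map -/
noncomputable def hvl (m : ℕ) (B1 B2 z : List ℂ) : VW →ₗ[ℂ] ℂ :=
  ∑ w ∈ LP (B1.length + z.length + B2.length), Fw w (B1 ++ z ++ B2) • es B1.length B2.length m w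

theorem hvl_eq (m : ℕ) (B1 B2 z : List ℂ) (v : VW) : hvl m B1 B2 z v = HV v m B1 B2 z := by
  unfold hvl HV
  rw [LinearMap.sum_apply]
  refine Finset.sum_congr rfl fun w _ => ?_
  rw [LinearMap.smul_apply, smul_eq_mul]

/-! ### symmetric Laurent polynomials -/

/-- `x^k + x^(-k)` as a polynomial in `x + x⁻¹` -/
noncomputable def Tq : ℕ → ℂ[X]
  | 0 => 2
  | 1 => X
  | (k + 2) => X * Tq (k + 1) - Tq k

theorem Tq_eval {a : ℂ} (ha : a ≠ 0) (k : ℕ) :
    (Tq k).eval (Xf a) = a ^ k + a⁻¹ ^ k ∧
      (Tq (k + 1)).eval (Xf a) = a ^ (k + 1) + a⁻¹ ^ (k + 1) := by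
  induction k with
  | zero =>
    refine ⟨?_, ?_⟩
    · simp [Tq]; norm_num
    · simp [Tq, Xf]
  | succ k ih =>
    refine ⟨ih.2, ?_⟩
    have h1 : Tq (k + 1 + 1) = X * Tq (k + 1) - Tq k := rfl
    rw [h1, eval_sub, eval_mul, eval_X, ih.1, ih.2]
    unfold Xf
    have h2 : a * a⁻¹ = 1 := mul_inv_cancel₀ ha
    linear_combination (a ^ k + a⁻¹ ^ k) * h2

theorem Tq_deg (k : ℕ) : (Tq k).natDegree ≤ k ∧ (Tq (k + 1)).natDegree ≤ k + 1 := by
  induction k with
  | zero =>
    refine ⟨?_, ?_⟩
    · have h : Tq 0 = C 2 := rfl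
      rw [h, natDegree_C]
    · have h : Tq (0 + 1) = X := rfl
      rw [h]
      exact natDegree_X_le
  | succ k ih =>
    refine ⟨ih.2, ?_⟩
    have h1 : Tq (k + 1 + 1) = X * Tq (k + 1) - Tq k := rfl
    rw [h1]
    refine (natDegree_sub_le _ _).trans (max_le ?_ (ih.1.trans (by omega)))
    refine natDegree_mul_le.trans ?_
    have := natDegree_X_le (R := ℂ)
    omega

theorem Tq_coeff (k : ℕ) : (Tq (k + 1)).coeff (k + 1) = 1 := by
  induction k with
  | zero =>
    have h : Tq (0 + 1) = X := rfl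
    rw [h, coeff_X_one]
  | succ k ih =>
    have h1 : Tq (k + 1 + 1) = X * Tq (k + 1) - Tq k := rfl
    rw [h1, coeff_sub, coeff_X_mul, ih, coeff_eq_zero_of_natDegree_lt
      (lt_of_le_of_lt (Tq_deg k).1 (by omega)), sub_zero]

theorem laurent (n : ℕ) (R : ℕ → ℕ → ℂ) (hR : ∀ i j, R i j = R j i) :
    ∃ Q : ℂ[X], Q.natDegree ≤ n ∧ (∀ a, a ≠ 0 → S2 n R a a⁻¹ = Q.eval (Xf a)) ∧
      Q.coeff n = R n 0 := by
  refine ⟨∑ i ∈ Finset.range (n + 1), ∑ j ∈ Finset.range (n + 1),
    C (R i j / 2) * Tq ((i - j) + (j - i)), ?_, ?_, ?_⟩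
  · refine natDegree_sum_le_of_forall_le _ _ fun i hi => ?_
    refine natDegree_sum_le_of_forall_le _ _ fun j hj => ?_
    rw [Finset.mem_range] at hi hj
    refine (natDegree_C_mul_le _ _).trans ((Tq_deg _).1.trans ?_)
    omega
  · intro a ha
    have h1 : a * a⁻¹ = 1 := mul_inv_cancel₀ ha
    have h2 : S2 n R a a⁻¹ = S2 n R a⁻¹ a := by
      unfold S2
      rw [Finset.sum_comm]
      refine Finset.sum_congr rfl fun i _ => Finset.sum_congr rfl fun j _ => ?_
      rw [hR]
      ring
    have h3 : S2 n R a a⁻¹ = (S2 n R a a⁻¹ + S2 n R a⁻¹ a) / 2 := by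
      rw [← h2]; ring
    rw [h3]
    unfold S2
    rw [← Finset.sum_add_distrib, Finset.sum_div, eval_finsetSum]
    refine Finset.sum_congr rfl fun i _ => ?_
    rw [← Finset.sum_add_distrib, Finset.sum_div, eval_finsetSum]
    refine Finset.sum_congr rfl fun j _ => ?_
    rw [eval_mul, eval_C, (Tq_eval ha _).1]
    rcases le_total i j with h | h
    · obtain ⟨d, rfl⟩ := Nat.exists_eq_add_of_le h
      have e1 : (i - (i + d)) + (i + d - i) = d := by omega
      rw [e1, pow_add, pow_add]
      have h4 : a ^ i * a⁻¹ ^ i = 1 := by rw [← mul_pow, h1, one_pow]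
      linear_combination (R i (i + d) / 2 * (a⁻¹ ^ d + a ^ d)) * h4
    · obtain ⟨d, rfl⟩ := Nat.exists_eq_add_of_le h
      have e1 : (j + d - j) + (j - (j + d)) = d := by omega
      rw [e1, pow_add, pow_add]
      have h4 : a ^ j * a⁻¹ ^ j = 1 := by rw [← mul_pow, h1, one_pow]
      linear_combination (R (j + d) j / 2 * (a⁻¹ ^ d + a ^ d)) * h4
  · have h0 : (∑ i ∈ Finset.range (n + 1), ∑ j ∈ Finset.range (n + 1),
        C (R i j / 2) * Tq ((i - j) + (j - i))).coeff n =
        ∑ i ∈ Finset.range (n + 1), ∑ j ∈ Finset.range (n + 1),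
          R i j / 2 * (Tq ((i - j) + (j - i))).coeff n := by
      rw [finsetSum_coeff]
      refine Finset.sum_congr rfl fun i _ => ?_
      rw [finsetSum_coeff]
      refine Finset.sum_congr rfl fun j _ => ?_
      rw [coeff_C_mul]
    rw [h0]
    have hz : ∀ i j, (i - j) + (j - i) < n → R i j / 2 * (Tq ((i - j) + (j - i))).coeff n = 0 := by
      intro i j h
      rw [coeff_eq_zero_of_natDegree_lt (lt_of_le_of_lt (Tq_deg _).1 h), mul_zero]
    rcases Nat.eq_zero_or_pos n with hn | hn
    · subst hn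
      have h : Tq 0 = C 2 := rfl
      simp [h]
    · obtain ⟨k, rfl⟩ : ∃ k, n = k + 1 := ⟨n - 1, by omega⟩
      rw [Finset.sum_range_succ, Finset.sum_range_succ']
      rw [Finset.sum_eq_zero (s := Finset.range k), zero_add]
      · rw [Finset.sum_eq_single (k + 1), Finset.sum_eq_single 0]
        · have e1 : (0 - (k + 1)) + (k + 1 - 0) = k + 1 := by omega
          have e2 : (k + 1 - 0) + (0 - (k + 1)) = k + 1 := by omega
          rw [e1, e2, Tq_coeff, hR 0 (k + 1)]
          ring
        · intro j hj hj0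
          rw [Finset.mem_range] at hj
          exact hz _ _ (by omega)
        · intro h
          exact absurd (Finset.mem_range.2 (by omega)) h
        · intro j hj hj0
          rw [Finset.mem_range] at hj
          exact hz _ _ (by omega)
        · intro h
          exact absurd (Finset.mem_range.2 (by omega)) h
      · intro i hi
        rw [Finset.mem_range] at hi
        refine Finset.sum_eq_zero fun j hj => ?_
        rw [Finset.mem_range] at hj
        exact hz _ _ (by omega)

/-! ### constants -/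

theorem cK_prod (m n b : ℕ) (hn : Even n) :
    cK q (m + 1 + b + b) b * ((if Even (m + n) then 1 else q ^ 2) * cK (q ^ 2) (m + b + b) b) *
      (q - 1) = q := by
  have h1 : q - 1 ≠ 0 := sub_ne_zero.2 q1
  have h2 : q ^ 2 - 1 ≠ 0 := sub_ne_zero.2 Pool.Agent.H988R2.Perc.q_sq_ne_one
  have hb : (-q) ^ b * (-q ^ 2) ^ b = 1 := by
    rw [← mul_pow]
    have : -q * -q ^ 2 = 1 := by linear_combination q3
    rw [this, one_pow]
  have hs : ∀ s : ℕ, (-q ^ 2) ^ s * (-(q ^ 2) ^ 2) ^ s = 1 := by
    intro s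
    rw [← mul_pow]
    have : -q ^ 2 * -(q ^ 2) ^ 2 = 1 := by linear_combination (q ^ 3 + 1) * q3
    rw [this, one_pow]
  unfold cK
  rcases Nat.even_or_odd m with ⟨s, hm⟩ | ⟨s, hm⟩
  · have e1 : Even (m + n) := Even.add ⟨s, hm⟩ hn
    have e2 : (m + 1 + b + b) / 2 = s + b := by omega
    have e3 : (m + b + b) / 2 = s + b := by omega
    have e4 : (m + 1 + b + b) % 2 = 1 := by omega
    have e5 : ¬ (m + b + b) % 2 = 1 := by omega
    rw [if_pos e1, e2, e3, if_pos e4, if_neg e5]
    have e6 : q / (q - 1) * (q - 1) = q := div_mul_cancel₀ _ h1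
    linear_combination q * hb * (1 : ℂ) + (-q) ^ b * (-q ^ 2) ^ b * q * hs (s + b) +
      ((-q) ^ b * (-q ^ 2) ^ b * ((-q ^ 2) ^ (s + b) * (-(q ^ 2) ^ 2) ^ (s + b))) * e6
  · have e1 : ¬ Even (m + n) := by
      rw [Nat.not_even_iff_odd]
      exact Odd.add_even ⟨s, hm⟩ hn
    have e2 : (m + 1 + b + b) / 2 = s + b + 1 := by omega
    have e3 : (m + b + b) / 2 = s + b := by omega
    have e4 : ¬ (m + 1 + b + b) % 2 = 1 := by omega
    have e5 : (m + b + b) % 2 = 1 := by omega
    rw [if_neg e1, e2, e3, if_neg e4, if_pos e5, pow_succ]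
    have e6 : -q ^ 2 * (q ^ 2 * (q ^ 2 / (q ^ 2 - 1))) * (q - 1) = q := by
      have e7 : q + 1 ≠ 0 := by
        intro h
        apply h2
        linear_combination (q - 1) * h
      have e8 : q ^ 2 - 1 = (q - 1) * (q + 1) := by ring
      rw [e8]
      field_simp
      linear_combination (-(q ^ 3 + 1)) * q3 - qs
    linear_combination q * hb * (1 : ℂ) + (-q) ^ b * (-q ^ 2) ^ b * q * hs (s + b) +
      ((-q) ^ b * (-q ^ 2) ^ b * ((-q ^ 2) ^ (s + b) * (-(q ^ 2) ^ 2) ^ (s + b))) * e6

/-! ### leading coefficients -/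

theorem prod_lead (A : List ℂ) :
    ((A.map (fun b => C (q * b) - C (q ^ 2) * X)).prod : ℂ[X]).natDegree ≤ A.length ∧
    ((A.map (fun b => C (q * b) - C (q ^ 2) * X)).prod : ℂ[X]).coeff A.length =
      (-q ^ 2) ^ A.length := by
  induction A with
  | nil => simp
  | cons b A ih =>
    have h1 : (C (q * b) - C (q ^ 2) * X : ℂ[X]).natDegree ≤ 1 := by compute_degree
    have h2 : (C (q * b) - C (q ^ 2) * X : ℂ[X]).coeff 1 = -q ^ 2 := by
      rw [coeff_sub, coeff_C_mul, coeff_X_one, coeff_C, if_neg one_ne_zero]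
      ring
    rw [List.map_cons, List.prod_cons, List.length_cons]
    refine ⟨natDegree_mul_le.trans (by omega), ?_⟩
    rw [add_comm A.length 1, coeff_mul_add_eq_of_natDegree_le h1 ih.1, h2, ih.2]
    ring

/-- the leading coefficient of the partition function in the first leg -/
theorem lead (hDE : S_DE) (hLC : S_LC) {Ψ : List ℂ → VW} (hF : Fam q Ψ) {A B1 B2 z : List ℂ}
    (hB : B1.length = B2.length) (hz : Even z.length) (hA : ∀ x ∈ A, x ≠ 0)
    (hz0 : ∀ x ∈ z, x ≠ 0) : ∃ P : ℂ[X], P.natDegree ≤ A.length + z.length ∧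
      (∀ u, P.eval u = HH Ψ (u :: A) B1 B2 z) ∧
      P.coeff (A.length + z.length) = (if Even (A.length + z.length) then 1 else q ^ 2) *
        cK (q ^ 2) (A.length + B1.length + B2.length) B2.length * HH Ψ A B1 B2 z := by
  obtain ⟨K', hK'⟩ := exists_K (q ^ 2)
  have hl : ∀ x ∈ A ++ z, x ≠ 0 := by
    intro x hx
    rcases List.mem_append.1 hx with h | h
    · exact hA x h
    · exact hz0 x h
  have hlen : (A ++ z).length = A.length + z.length := List.length_append
  choose P hPd hPe hPc using hLC Ψ K' hF hK' (A ++ z) hl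
  rw [hlen] at hPd hPc
  set φ := hvl (A.length + 1) B1 B2 z with hφ
  refine ⟨∑ w ∈ BLAux.SN (A.length + z.length + 1), P w * C (φ (bs w)), ?_, ?_, ?_⟩
  · refine natDegree_sum_le_of_forall_le _ _ fun w _ => ?_
    exact (natDegree_mul_C_le _ _).trans (hPd w)
  · intro u
    have h1 : Ψ (u :: (A ++ z)) ∈ VN (A.length + z.length + 1) := by
      have := hF.mem (u :: (A ++ z))
      rwa [List.length_cons, hlen] at this
    have h2 : HH Ψ (u :: A) B1 B2 z = φ (Ψ (u :: (A ++ z))) := by
      rw [hφ, hvl_eq]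
      rfl
    rw [h2, phi_expand φ h1, eval_finsetSum]
    refine Finset.sum_congr rfl fun w _ => ?_
    rw [eval_mul, eval_C, hPe]
  · have h1 : K' (Ψ (A ++ z)) ∈ VN (A.length + z.length + 1) := by
      have h3 := hF.mem (A ++ z)
      rw [hlen] at h3
      exact K_mem hK' h3
    have h2 := hDE Ψ (q ^ 2) K' hF qs2 hK' A B1 B2 z hB hz
    rw [← hvl_eq, ← hφ, phi_expand φ h1] at h2
    rw [finsetSum_coeff, mul_assoc, ← h2, Finset.mul_sum]
    refine Finset.sum_congr rfl fun w _ => ?_
    rw [coeff_mul_C, hPc]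
    ring

end TQA

open TRU TQA Pool.Agent.W493.KS Polynomial Pool.Agent.W808.HB.TM1 in
theorem t_QA : S_RU → S_exA → S_DE → S_LC → S_dg → S_QA := by
  intro hRU hX hDE hLC _ Ψ hF A B1 B2 z hB hz hA hz0
  have hev : Even (B1.length + z.length + B2.length) := by
    obtain ⟨k, hk⟩ := hz
    exact ⟨B1.length + k, by omega⟩
  obtain ⟨R, hRs, hR⟩ := hRU Ψ hF A B1 B2 z hev hA
  have hR' : ∀ u v, HH Ψ (v :: A ++ [u]) B1 B2 z = pfq q (v :: A ++ [u]) * S2 z.length R u v := hR
  obtain ⟨Q, hQd, hQe, hQc⟩ := laurent z.length R hRs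
  refine ⟨Q, hQd, ?_, ?_⟩
  · intro a ha
    rw [hR', hQe a ha]
  · rw [hQc]
    set E : List ℂ → ℂ := fun l => HH Ψ l B1 B2 z with hEd
    have hE : Ex E := fun u v x y => hX Ψ hF u v B1 B2 z x y hev
    obtain ⟨K, hK⟩ := exists_K q
    obtain ⟨P, hPd, hPe, hPc⟩ := lead hDE hLC hF hB hz hA.1 hz0
    obtain ⟨_, b, _, hb, hab⟩ := nodes hA
    have hAp : A.prod ≠ 0 := by
      rw [Ne, List.prod_eq_zero_iff]
      intro h
      exact hA.1 0 h rfl
    have hzp : z.prod ≠ 0 := by
      rw [Ne, List.prod_eq_zero_iff]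
      intro h
      exact hz0 0 h rfl
    -- the identity at the nodes
    have hS0 : ∀ u, S2 z.length R u 0 = ∑ i ∈ Finset.range (z.length + 1), R i 0 * u ^ i := by
      intro u
      unfold S2
      refine Finset.sum_congr rfl fun i _ => ?_
      rw [Finset.sum_eq_single 0]
      · simp
      · intro j _ hj
        rw [zero_pow hj, mul_zero]
      · intro h
        exact absurd (Finset.mem_range.2 (by omega)) h
    have hid : C (z.prod * cK q (A.length + 1 + B1.length + B2.length) B2.length) * P =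
        C (q ^ (A.length + 1)) * (((A.map (fun b => C (q * b) - C (q ^ 2) * X)).prod *
          C (pfq q A)) * ∑ i ∈ Finset.range (z.length + 1), C (R i 0) * X ^ i) := by
      apply poly_ext hb
      intro m
      set u := b m with hu
      have hG1 : Gn (A ++ [u]) := Gn_sub (List.sublist_cons_self _ _) (hab 0 m)
      have hu0 : u ≠ 0 := hG1.1 u (by simp)
      have h1 := hR' u 0
      have h2 : HH Ψ (0 :: A ++ [u]) B1 B2 z =
          (A ++ [u] ++ z).prod * HV (K (Ψ (A ++ [u] ++ z))) ((A ++ [u]).length + 1) B1 B2 z := by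
        have h3 : HH Ψ (0 :: A ++ [u]) B1 B2 z =
            HV (Ψ (0 :: (A ++ [u] ++ z))) ((A ++ [u]).length + 1) B1 B2 z := rfl
        rw [h3, braid_limit qs hF hK, ← hvl_eq, ← hvl_eq, map_smul, smul_eq_mul]
      rw [h2, hDE Ψ q K hF qs hK (A ++ [u]) B1 B2 z hB hz, hS0] at h1
      have h4 := perm hE (List.perm_append_singleton u A).symm [] (by
        simpa using Gn_perm (List.perm_append_singleton u A) hG1)
      simp only [List.nil_append] at h4
      have h5 : pfq q (0 :: A ++ [u]) = q ^ (A.length + 1) * (A.prod * u) * pfq q (A ++ [u]) := by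
        have h6 : pfq q (0 :: A ++ [u]) =
            ((A ++ [u]).map (fun b => q * b - q ^ 2 * 0)).prod * pfq q (A ++ [u]) := rfl
        rw [h6, map_scale (A ++ [u]) (fun b => q * b - q ^ 2 * 0) (fun b => b) q
          (fun b => by ring)]
        simp
      have h7 : pfq q (u :: A) = (A.map (fun b => q * b - q ^ 2 * u)).prod * pfq q A := rfl
      have h8 : (((A.map (fun b => C (q * b) - C (q ^ 2) * X)).prod : ℂ[X])).eval u =
          (A.map (fun b => q * b - q ^ 2 * u)).prod := by
        rw [Polynomial.eval_list_prod, List.map_map]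
        congr 1
        refine List.map_congr_left fun b _ => ?_
        simp
      rw [h5] at h1
      have h9 : (A ++ [u] ++ z).prod = A.prod * u * z.prod := by simp [mul_assoc]
      have h10 : (A ++ [u]).length + B1.length + B2.length =
        A.length + 1 + B1.length + B2.length := by simp
      rw [h9, h10] at h1
      have h11 : z.prod * cK q (A.length + 1 + B1.length + B2.length) B2.length * E (A ++ [u]) =
          q ^ (A.length + 1) * pfq q (A ++ [u]) *
            ∑ i ∈ Finset.range (z.length + 1), R i 0 * u ^ i := by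
        apply mul_left_cancel₀ (mul_ne_zero hAp hu0)
        linear_combination h1
      rw [eval_mul, eval_C, hPe, eval_mul, eval_C, eval_mul, eval_mul, eval_C, h8, sum_eval]
      rw [h7] at h4
      have h12 : E (u :: A) = HH Ψ (u :: A) B1 B2 z := rfl
      rw [← h12]
      apply mul_left_cancel₀ (pfq_ne hG1)
      linear_combination
        (z.prod * cK q (A.length + 1 + B1.length + B2.length) B2.length) * h4 +
          ((A.map (fun b => q * b - q ^ 2 * u)).prod * pfq q A) * h11
    have hco := congrArg (fun P : ℂ[X] => P.coeff (A.length + z.length)) hid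
    have hd1 := prod_lead A
    have hd2 : ((A.map (fun b => C (q * b) - C (q ^ 2) * X)).prod * C (pfq q A) : ℂ[X]).natDegree ≤
        A.length := (natDegree_mul_C_le _ _).trans hd1.1
    have hd3 : (∑ i ∈ Finset.range (z.length + 1), C (R i 0) * X ^ i : ℂ[X]).natDegree ≤
        z.length := by
      refine natDegree_sum_le_of_forall_le _ _ fun i hi => ?_
      rw [Finset.mem_range] at hi
      exact (natDegree_C_mul_X_pow_le _ _).trans (by omega)
    have hco' : (z.prod * cK q (A.length + 1 + B1.length + B2.length) B2.length) *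
        P.coeff (A.length + z.length) =
        q ^ (A.length + 1) * ((-q ^ 2) ^ A.length * pfq q A * R z.length 0) := by
      have h1 : (C (z.prod * cK q (A.length + 1 + B1.length + B2.length) B2.length) * P).coeff
          (A.length + z.length) = (C (q ^ (A.length + 1)) *
          (((A.map (fun b => C (q * b) - C (q ^ 2) * X)).prod *
          C (pfq q A)) * ∑ i ∈ Finset.range (z.length + 1), C (R i 0) * X ^ i)).coeff
          (A.length + z.length) := by rw [hid]
      rw [coeff_C_mul, coeff_C_mul, coeff_mul_add_eq_of_natDegree_le hd2 hd3, coeff_mul_C, hd1.2,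
        sum_coeff _ _ le_rfl] at h1
      exact h1
    rw [hPc] at hco'
    have hc := cK_prod A.length z.length B2.length hz
    rw [hB] at hco'
    have h20 : q ^ (A.length + 1) * (-q ^ 2) ^ A.length = q * (-1) ^ A.length := by
      have h21 : q ^ (A.length + 1) * (-q ^ 2) ^ A.length = q * (q * (-q ^ 2)) ^ A.length := by
        rw [mul_pow, pow_succ]; ring
      rw [h21]
      congr 2
      linear_combination -TRU.q3
    apply mul_left_cancel₀ q0
    linear_combination (-(q - 1)) * hco' + (z.prod * HH Ψ A B1 B2 z) * hc -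
      ((q - 1) * pfq q A * R z.length 0) * h20

end Pool.Agent.W808.KS
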