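import Pool.Agent.W808.KS.Stm
import Pool.Agent.H988R2.Perc.T02

/-! `S_QB`: a pair of legs `b`, `b⁻¹` above. -/

set_option autoImplicit false

namespace Pool.Agent.W808.KS.TQB
open Pool.Agent.H863R2.Cyl
open Pool.Agent.H988R2.Perc (Word PD Dyck LP Fw rainbow firstArc rem mem_LP)
open Pool.Agent.H988R2.Perc.T10 (pairs fA fB pairs_append_singleton)
open Pool.Agent.H160R2.ML (pfq Gn)
open Pool.Agent.W808.HB (bwm prs Xf Yf vdx wdx bet xY)

theorem q_spec : q ^ 2 + q + 1 = 0 := Pool.Agent.H988R2.Perc.q_spec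
theorem q_cube : q ^ 3 = 1 := Pool.Agent.H988R2.Perc.q_cube
theorem q_ne_zero : q ≠ 0 := Pool.Agent.H988R2.Perc.q_ne_zero

theorem dyck_wrap {w : Word} (h : Dyck w) : Dyck (true :: w ++ [false]) := by
  induction h with
  | nil => exact Dyck.ins 0 [] (by simp) Dyck.nil
  | ins i w hi h ih =>
    have := Dyck.ins (i+1) (true :: w ++ [false]) (by simp; omega) ih
    have e : Pool.Agent.H988R2.Perc.ins (i+1) (true :: w ++ [false]) =
        true :: Pool.Agent.H988R2.Perc.ins i w ++ [false] := by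
      simp [Pool.Agent.H988R2.Perc.ins, List.take_append_of_le_length hi,
        List.drop_append_of_le_length hi]
    rwa [e] at this

/-! ### the polynomials `b ^ d + b ^ (-d)` -/

open Polynomial in
/-- `b ^ d + b ^ (-d)` as a polynomial in `b + b⁻¹` -/
noncomputable def E : ℕ → Polynomial ℂ
  | 0 => C 2
  | 1 => X
  | (d + 2) => X * E (d + 1) - E d

theorem E_eval (b : ℂ) (hb : b ≠ 0) : ∀ d, (E d).eval (b + b⁻¹) = b ^ d + b⁻¹ ^ d
  | 0 => by simp [E]; norm_num
  | 1 => by simp [E]
  | (d + 2) => by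
    rw [E, Polynomial.eval_sub, Polynomial.eval_mul, Polynomial.eval_X, E_eval b hb (d + 1),
      E_eval b hb d]
    have h : b * b⁻¹ = 1 := mul_inv_cancel₀ hb
    linear_combination (b ^ d + b⁻¹ ^ d) * h

theorem E_deg : ∀ d, (E d).natDegree ≤ d
  | 0 => by simp [E]
  | 1 => by simp [E]
  | (d + 2) => by
    rw [E]
    refine (Polynomial.natDegree_sub_le _ _).trans (max_le ?_ ?_)
    · refine Polynomial.natDegree_mul_le.trans ?_
      have := E_deg (d + 1)
      rw [Polynomial.natDegree_X]
      omega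
    · exact (E_deg d).trans (by omega)

theorem E_coeff : ∀ d, (E (d + 1)).coeff (d + 1) = 1
  | 0 => by simp [E]
  | (d + 1) => by
    rw [E, Polynomial.coeff_sub, Polynomial.coeff_X_mul, E_coeff d,
      Polynomial.coeff_eq_zero_of_natDegree_lt ((E_deg d).trans_lt (by omega)), sub_zero]

/-- `|i - j|` -/
def ad (i j : ℕ) : ℕ := (i - j) + (j - i)

open Polynomial in
/-- the polynomial of the symmetrised sum -/
noncomputable def QQ (n : ℕ) (R : ℕ → ℕ → ℂ) : Polynomial ℂ :=
  C (1 / 2) * ∑ i ∈ Finset.range (n + 1), ∑ j ∈ Finset.range (n + 1), C (R i j) * E (ad i j)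

theorem QQ_deg (n : ℕ) (R : ℕ → ℕ → ℂ) : (QQ n R).natDegree ≤ n := by
  unfold QQ
  refine (Polynomial.natDegree_C_mul_le _ _).trans ?_
  refine Polynomial.natDegree_sum_le_of_forall_le _ _ fun i hi => ?_
  refine Polynomial.natDegree_sum_le_of_forall_le _ _ fun j hj => ?_
  refine (Polynomial.natDegree_C_mul_le _ _).trans ((E_deg _).trans ?_)
  rw [Finset.mem_range] at hi hj
  unfold ad
  omega

theorem QQ_coeff (n : ℕ) (R : ℕ → ℕ → ℂ) : (QQ n R).coeff n = (R n 0 + R 0 n) / 2 := by
  unfold QQ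
  rw [Polynomial.coeff_C_mul, Polynomial.finsetSum_coeff]
  rcases n with _ | n
  · simp [ad, E]
    ring
  · have m1 : n + 1 ∈ Finset.range (n + 1 + 1) := Finset.mem_range.2 (by omega)
    have m0 : 0 ∈ Finset.range (n + 1 + 1) := Finset.mem_range.2 (by omega)
    have h : ∀ i ∈ Finset.range (n + 1 + 1),
        (∑ j ∈ Finset.range (n + 1 + 1), Polynomial.C (R i j) * E (ad i j)).coeff (n + 1) =
          (if i = 0 then R 0 (n + 1) else 0) + (if i = n + 1 then R (n + 1) 0 else 0) := by
      intro i hi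
      rw [Finset.mem_range] at hi
      rw [Polynomial.finsetSum_coeff]
      have h2 : ∀ j ∈ Finset.range (n + 1 + 1),
          (Polynomial.C (R i j) * E (ad i j)).coeff (n + 1) =
            (if j = n + 1 then (if i = 0 then R 0 (n + 1) else 0) else 0) +
            (if j = 0 then (if i = n + 1 then R (n + 1) 0 else 0) else 0) := by
        intro j hj
        rw [Finset.mem_range] at hj
        rw [Polynomial.coeff_C_mul]
        by_cases h1 : i = 0 ∧ j = n + 1
        · obtain ⟨rfl, rfl⟩ := h1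
          have : ad 0 (n + 1) = n + 1 := by unfold ad; omega
          rw [this, E_coeff]
          simp
        · by_cases h3 : i = n + 1 ∧ j = 0
          · obtain ⟨rfl, rfl⟩ := h3
            have : ad (n + 1) 0 = n + 1 := by unfold ad; omega
            rw [this, E_coeff]
            simp
          · have h4 : ad i j < n + 1 := by unfold ad; omega
            rw [Polynomial.coeff_eq_zero_of_natDegree_lt ((E_deg _).trans_lt h4), mul_zero]
            symm
            have h5 : (if j = n + 1 then (if i = 0 then R 0 (n + 1) else 0) else 0) = 0 := by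
              split_ifs with a b
              · exact absurd ⟨b, a⟩ h1
              · rfl
              · rfl
            have h6 : (if j = 0 then (if i = n + 1 then R (n + 1) 0 else 0) else 0) = 0 := by
              split_ifs with a b
              · exact absurd ⟨b, a⟩ h3
              · rfl
              · rfl
            rw [h5, h6, add_zero]
      rw [Finset.sum_congr rfl h2, Finset.sum_add_distrib, Finset.sum_ite_eq', Finset.sum_ite_eq',
        if_pos m1, if_pos m0]
    rw [Finset.sum_congr rfl h, Finset.sum_add_distrib, Finset.sum_ite_eq', Finset.sum_ite_eq',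
        if_pos m1, if_pos m0]
    ring

theorem QQ_eval (n : ℕ) (R : ℕ → ℕ → ℂ) (h1 : ∀ i j, i ≤ n → R (n - i) j = R i j)
    (h2 : ∀ i j, j ≤ n → R i (n - j) = R i j) (b : ℂ) (hb : b ≠ 0) :
    (QQ n R).eval (b + b⁻¹) =
      ∑ i ∈ Finset.range (n + 1), ∑ j ∈ Finset.range (n + 1), R i j * b ^ i * b⁻¹ ^ j := by
  have hbi : b * b⁻¹ = 1 := mul_inv_cancel₀ hb
  have key : ∑ i ∈ Finset.range (n + 1), ∑ j ∈ Finset.range (n + 1), R i j * b ^ j * b⁻¹ ^ i =
      ∑ i ∈ Finset.range (n + 1), ∑ j ∈ Finset.range (n + 1), R i j * b ^ i * b⁻¹ ^ j := by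
    rw [← Finset.sum_flip (fun i => ∑ j ∈ Finset.range (n + 1), R i j * b ^ j * b⁻¹ ^ i)]
    refine Finset.sum_congr rfl fun i hi => ?_
    rw [Finset.mem_range] at hi
    rw [← Finset.sum_flip (fun j => R (n - i) j * b ^ j * b⁻¹ ^ (n - i))]
    refine Finset.sum_congr rfl fun j hj => ?_
    rw [Finset.mem_range] at hj
    rw [h2 _ _ (by omega), h1 _ _ (by omega), mul_assoc, mul_assoc]
    congr 1
    have e1 : b ^ j * b⁻¹ ^ j = 1 := by rw [← mul_pow, hbi, one_pow]
    have e2 : b ^ i * b⁻¹ ^ i = 1 := by rw [← mul_pow, hbi, one_pow]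
    have e3 : b ^ n * b⁻¹ ^ n = 1 := by rw [← mul_pow, hbi, one_pow]
    have e4 : b ^ (n - j) * b ^ j = b ^ n := by rw [← pow_add]; congr 1; omega
    have e5 : b⁻¹ ^ (n - i) * b⁻¹ ^ i = b⁻¹ ^ n := by rw [← pow_add]; congr 1; omega
    have hj0 : b ^ j ≠ 0 := pow_ne_zero _ hb
    have hi0 : b⁻¹ ^ i ≠ 0 := pow_ne_zero _ (inv_ne_zero hb)
    apply mul_right_cancel₀ (mul_ne_zero hj0 hi0)
    calc b ^ (n - j) * b⁻¹ ^ (n - i) * (b ^ j * b⁻¹ ^ i)
        = (b ^ (n - j) * b ^ j) * (b⁻¹ ^ (n - i) * b⁻¹ ^ i) := by ring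
      _ = 1 := by rw [e4, e5, e3]
      _ = (b ^ i * b⁻¹ ^ i) * (b ^ j * b⁻¹ ^ j) := by rw [e1, e2, one_mul]
      _ = b ^ i * b⁻¹ ^ j * (b ^ j * b⁻¹ ^ i) := by ring
  unfold QQ
  rw [Polynomial.eval_mul, Polynomial.eval_C, Polynomial.eval_finsetSum]
  have e : ∀ i ∈ Finset.range (n + 1),
      (∑ j ∈ Finset.range (n + 1), Polynomial.C (R i j) * E (ad i j)).eval (b + b⁻¹) =
        ∑ j ∈ Finset.range (n + 1), R i j * b ^ i * b⁻¹ ^ j +
        ∑ j ∈ Finset.range (n + 1), R i j * b ^ j * b⁻¹ ^ i := by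
    intro i hi
    rw [Polynomial.eval_finsetSum, ← Finset.sum_add_distrib]
    refine Finset.sum_congr rfl fun j hj => ?_
    rw [Polynomial.eval_mul, Polynomial.eval_C, E_eval b hb]
    rcases le_total i j with hij | hij
    · obtain ⟨k, rfl⟩ := Nat.exists_eq_add_of_le hij
      have : ad i (i + k) = k := by unfold ad; omega
      rw [this]
      have e2 : b ^ i * b⁻¹ ^ i = 1 := by rw [← mul_pow, hbi, one_pow]
      rw [pow_add, pow_add]
      linear_combination (-(R i (i + k) * (b ^ k + b⁻¹ ^ k))) * e2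
    · obtain ⟨k, rfl⟩ := Nat.exists_eq_add_of_le hij
      have : ad (j + k) j = k := by unfold ad; omega
      rw [this]
      have e2 : b ^ j * b⁻¹ ^ j = 1 := by rw [← mul_pow, hbi, one_pow]
      rw [pow_add, pow_add]
      linear_combination (-(R (j + k) j * (b ^ k + b⁻¹ ^ k))) * e2
  rw [Finset.sum_congr rfl e, Finset.sum_add_distrib, key]
  ring

/-! ### lists -/

theorem map_q (l : List ℂ) : (l.map (fun c => q * c)).prod = q ^ l.length * l.prod := by
  induction l with
  | nil => simp
  | cons x l ih => simp only [List.map_cons, List.prod_cons, ih, List.length_cons, pow_succ]; ring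

theorem pairsA0 (B : List ℂ) : pairs fA (B ++ [0]) = pairs fA B * (q ^ B.length * B.prod) := by
  rw [pairs_append_singleton, ← map_q]
  congr 3
  funext c
  have h := q_cube
  change (0 - q ^ 2 * c) * (c * 0 - q ^ 2) = q * c
  linear_combination q * c * h

theorem pairsB0 (B : List ℂ) : pairs fB (0 :: B) = (q ^ B.length * B.prod) * pairs fB B := by
  rw [pairs, ← map_q]
  congr 3
  funext c
  have h := q_cube
  change (q * 0 - q ^ 2 * c) * (q * 0 * c - q ^ 2) = q * c
  linear_combination q * c * h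

theorem rv_length (B : List ℂ) : (rv B).length = B.length := by simp [rv]

theorem rv_prod (B : List ℂ) (h : ∀ b ∈ B, b ≠ 0) : B.prod * (rv B).prod = 1 := by
  unfold rv
  rw [List.prod_reverse]
  induction B with
  | nil => simp
  | cons x B ih =>
    rw [List.map_cons, List.prod_cons, List.prod_cons]
    have h1 : x * x⁻¹ = 1 := mul_inv_cancel₀ (h x (by simp))
    have h2 := ih (fun b hb => h b (by simp [hb]))
    calc x * B.prod * (x⁻¹ * (B.map (fun b => b⁻¹)).prod)
        = (x * x⁻¹) * (B.prod * (B.map (fun b => b⁻¹)).prod) := by ring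
      _ = 1 := by rw [h1, h2, one_mul]

theorem prs_rv (B : List ℂ) : (prs (rv B)).Perm (prs B) := by
  unfold rv prs
  induction B with
  | nil => simp
  | cons x B ih =>
    rw [List.map_cons, List.reverse_cons, List.flatMap_append, List.flatMap_cons]
    refine List.Perm.trans (List.perm_append_comm) ?_
    refine List.Perm.append ?_ ih
    simp only [List.flatMap_nil, inv_inv, List.append_nil]
    exact List.Perm.swap _ _ _

theorem Gn_perm {l l' : List ℂ} (h : l.Perm l') (hl : Gn l) : Gn l' :=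
  ⟨fun x hx => hl.1 x (h.mem_iff.2 hx), ((h.map _).nodup_iff).1 hl.2⟩

theorem Gn_ne {B : List ℂ} (h : Gn (prs B)) : ∀ b ∈ B, b ≠ 0 := fun b hb =>
  h.1 b (List.mem_flatMap.2 ⟨b, hb, by simp⟩)

/-! ### the zeros -/

theorem move1 (hex : S_exB) (Ψ : List ℂ → VW) (hΨ : Fam q Ψ) (A B2 z : List ℂ) :
    ∀ B v : List ℂ, (∀ b ∈ B, b ≠ 0) → Even (B.length + v.length + 1 + z.length + B2.length) →
      HH Ψ A (B ++ 0 :: v) B2 z = (-q ^ 2) ^ B.length * HH Ψ A (0 :: B ++ v) B2 z := by
  intro B
  induction B using List.reverseRecOn with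
  | nil => intro v _ _; simp
  | append_singleton B c ih =>
    intro v hB hev
    have hc : c ≠ 0 := hB c (by simp)
    rw [List.length_append, List.length_singleton] at hev ⊢
    have h := (hex Ψ hΨ A B v B2 z 0 c (by
      rcases hev with ⟨k, hk⟩; exact ⟨k - 1, by omega⟩)).1
    have h1 := ih (c :: v) (fun b hb => hB b (by simp [hb])) (by
      rw [List.length_cons]; rcases hev with ⟨k, hk⟩; exact ⟨k, by omega⟩)
    have h2 : HH Ψ A (B ++ c :: 0 :: v) B2 z = -q ^ 2 * HH Ψ A (B ++ 0 :: c :: v) B2 z := by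
      have h3 : q ^ 2 * c ≠ 0 := mul_ne_zero (pow_ne_zero _ q_ne_zero) hc
      apply mul_left_cancel₀ h3
      have h4 := q_cube
      linear_combination (-1 : ℂ) * h + q * c * HH Ψ A (B ++ 0 :: c :: v) B2 z * h4
    have e : B ++ [c] ++ 0 :: v = B ++ c :: 0 :: v := by simp
    rw [e, h2, h1, pow_succ]
    have e' : 0 :: B ++ c :: v = 0 :: (B ++ [c]) ++ v := by simp
    rw [e']
    ring

theorem move2 (hex : S_exB) (Ψ : List ℂ → VW) (hΨ : Fam q Ψ) (A B1 z : List ℂ) :
    ∀ B u : List ℂ, (∀ b ∈ B, b ≠ 0) → Even (B1.length + z.length + u.length + 1 + B.length) →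
      HH Ψ A B1 (u ++ 0 :: B) z = (-q) ^ B.length * HH Ψ A B1 (u ++ B ++ [0]) z := by
  intro B
  induction B with
  | nil => intro u _ _; simp
  | cons c B ih =>
    intro u hB hev
    have hc : c ≠ 0 := hB c (by simp)
    rw [List.length_cons] at hev ⊢
    have h := (hex Ψ hΨ A u B B1 z c 0 (by
      rcases hev with ⟨k, hk⟩; exact ⟨k - 1, by omega⟩)).2
    have h1 := ih (u ++ [c]) (fun b hb => hB b (by simp [hb])) (by
      rw [List.length_append, List.length_singleton]; rcases hev with ⟨k, hk⟩; exact ⟨k, by omega⟩)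
    have h2 : HH Ψ A B1 (u ++ 0 :: c :: B) z = -q * HH Ψ A B1 (u ++ c :: 0 :: B) z := by
      have h3 : q * c ≠ 0 := mul_ne_zero q_ne_zero hc
      apply mul_left_cancel₀ h3
      linear_combination h
    have e : u ++ [c] ++ 0 :: B = u ++ c :: 0 :: B := by simp
    rw [e] at h1
    rw [h2, h1, pow_succ]
    have e' : u ++ [c] ++ B ++ [0] = u ++ c :: B ++ [0] := by simp
    rw [e']
    ring

theorem es_congr {N b1 b2 m b1' b2' m' : ℕ} {w w' : Word} {v : VW} (hv : v ∈ VN N)
    (h : ∀ u : Word, u.length = N → Ok u → (Gs b1 b2 m w u ↔ Gs b1' b2' m' w' u)) :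
    es b1 b2 m w v = es b1' b2' m' w' v := by
  unfold es
  rw [Finsupp.linearCombination_apply, Finsupp.linearCombination_apply]
  unfold Finsupp.sum
  refine Finset.sum_congr rfl fun u hu => ?_
  have h1 := (Finsupp.mem_supported ℂ v).1 hv hu
  have h2 := h u h1.1 h1.2
  dsimp only
  by_cases h3 : Gs b1 b2 m w u
  · rw [if_pos h3, if_pos (h2.1 h3)]
  · rw [if_neg h3, if_neg (fun h4 => h3 (h2.2 h4))]

theorem outer (hF : S_F00) (hGo : S_Go) (Ψ : List ℂ → VW) (hΨ : Fam q Ψ)
    (A B C z : List ℂ) (hBC : B.length = C.length) (hz : Even z.length) :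
    HH Ψ A (0 :: B) (C ++ [0]) z =
      q ^ (B.length + z.length + C.length) * (B ++ z ++ C).prod * HH Ψ A B C z := by
  obtain ⟨k, hk⟩ := hz
  set L := B.length + k with hL
  have hlen : (B ++ z ++ C).length = 2 * L := by
    simp only [List.length_append]; omega
  unfold HH HV
  have e1 : (0 :: B).length + z.length + (C ++ [0]).length = 2 * L + 2 := by
    simp only [List.length_append, List.length_cons, List.length_nil]; omega
  have e2 : B.length + z.length + C.length = 2 * L := by omega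
  have e3 : 0 :: B ++ z ++ (C ++ [0]) = 0 :: (B ++ z ++ C) ++ [0] := by simp
  rw [e1, e2, e3]
  have hv : Ψ (A ++ z) ∈ VN (A.length + z.length) := by
    have := hΨ.mem (A ++ z)
    rwa [List.length_append] at this
  have h1 : ∀ w ∈ LP (2 * L + 2),
      Fw w (0 :: (B ++ z ++ C) ++ [0]) *
        es (0 :: B).length (C ++ [0]).length A.length w (Ψ (A ++ z)) =
      ∑ w' ∈ LP (2 * L), (q ^ (2 * L) * (B ++ z ++ C).prod * Fw w' (B ++ z ++ C)) *
        (if true :: w' ++ [false] = w then
          es (0 :: B).length (C ++ [0]).length A.length w (Ψ (A ++ z)) else 0) := by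
    intro w hw
    rw [hF L w _ hw hlen, Finset.mul_sum, Finset.sum_mul]
    refine Finset.sum_congr rfl fun w' _ => ?_
    split_ifs with h
    · ring
    · simp
  rw [Finset.sum_congr rfl h1, Finset.sum_comm, Finset.mul_sum]
  refine Finset.sum_congr rfl fun w' hw' => ?_
  rw [← Finset.mul_sum, mul_assoc (q ^ (2 * L) * (B ++ z ++ C).prod)]
  congr 2
  obtain ⟨hw1, hw2⟩ := mem_LP.1 hw'
  have hmem : true :: w' ++ [false] ∈ LP (2 * L + 2) :=
    mem_LP.2 ⟨by simp [hw1], dyck_wrap hw2⟩
  rw [Finset.sum_ite_eq, if_pos hmem]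
  rw [List.length_append, List.length_singleton, List.length_cons]
  exact es_congr hv fun u hu1 hu2 => hGo B.length C.length A.length z.length w' u hw2 hu2
    (by omega) hu1

end TQB

open Pool.Agent.H863R2.Cyl TQB in
theorem t_QB : S_RV → S_exB → S_F00 → S_Go → S_QB := by
  intro hRV hex hF hGo Ψ hΨ A B z hz hB
  have hB0 := Gn_ne hB
  have hB' : Pool.Agent.H160R2.ML.Gn (HB.prs (rv B)) := Gn_perm (prs_rv B).symm hB
  have hrB0 := Gn_ne hB'
  have hlen : B.length = (rv B).length := (rv_length B).symm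
  obtain ⟨R, h1, h2, h3⟩ := hRV Ψ hΨ A B (rv B) z hlen hz hB hB'
  refine ⟨QQ z.length R, QQ_deg _ _, fun b hb => ?_, ?_⟩
  · rw [h3 b b⁻¹]
    congr 1
    exact (QQ_eval _ R h1 h2 b hb).symm
  · rw [QQ_coeff]
    have hR1 : R z.length 0 = R 0 0 := by
      have := h1 0 0 (by omega)
      rwa [Nat.sub_zero] at this
    have hR2 : R 0 z.length = R 0 0 := by
      have := h2 0 0 (by omega)
      rwa [Nat.sub_zero] at this
    rw [hR1, hR2, add_self_div_two]
    have h4 := h3 0 0
    have h5 : ∑ i ∈ Finset.range (z.length + 1), ∑ j ∈ Finset.range (z.length + 1),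
        R i j * (0 : ℂ) ^ i * 0 ^ j = R 0 0 := by
      rw [Finset.sum_eq_single 0]
      · rw [Finset.sum_eq_single 0]
        · simp
        · intro j _ hj; simp [hj]
        · intro h; simp at h
      · intro i _ hi; simp [hi]
      · intro h; simp at h
    rw [h5, pairsA0, pairsB0] at h4
    have h6 := move1 hex Ψ hΨ A (0 :: rv B) z B [] hB0 (by
      rcases hz with ⟨k, hk⟩
      simp only [List.length_nil, List.length_cons, rv_length]
      exact ⟨B.length + k + 1, by omega⟩)
    have h7 := move2 hex Ψ hΨ A (0 :: B) z (rv B) [] hrB0 (by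
      rcases hz with ⟨k, hk⟩
      simp only [List.length_nil, List.length_cons, rv_length]
      exact ⟨B.length + k + 1, by omega⟩)
    rw [List.append_nil] at h6
    simp only [List.nil_append] at h7
    rw [h6, h7, outer hF hGo Ψ hΨ A B (rv B) z hlen hz] at h4
    have h8 := rv_prod B hB0
    have h9 : (B ++ z ++ rv B).prod = z.prod := by
      rw [List.prod_append, List.prod_append]
      linear_combination z.prod * h8
    rw [h9, rv_length] at h4
    have h10 : (-q ^ 2) ^ B.length * (-q) ^ B.length = 1 := by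
      rw [← mul_pow]
      have : -q ^ 2 * -q = 1 := by
        have := TQB.q_cube
        linear_combination this
      rw [this, one_pow]
    have h11 : q ^ B.length ≠ 0 := pow_ne_zero _ TQB.q_ne_zero
    apply mul_left_cancel₀ (mul_ne_zero h11 h11)
    have h12 : q ^ (B.length + z.length + B.length) = q ^ B.length * q ^ B.length * q ^ z.length := by
      rw [← pow_add, ← pow_add]; congr 1; omega
    rw [h12] at h4
    linear_combination (-1 : ℂ) * h4 +
      (q ^ B.length * q ^ B.length * q ^ z.length * z.prod * HH Ψ A B (rv B) z) * h10 -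
      (Pool.Agent.H988R2.Perc.T10.pairs Pool.Agent.H988R2.Perc.T10.fA B *
        Pool.Agent.H988R2.Perc.T10.pairs Pool.Agent.H988R2.Perc.T10.fB (rv B) *
        q ^ B.length * q ^ B.length * R 0 0) * h8

end Pool.Agent.W808.KS
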