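import Pool.Agent.W808.KS.Stm
import Pool.Agent.W808.HB.T_M1

/-!
# Legs at the tip of a slit: recursion of the formula, legs below (task KS-RA, helper193)
-/

set_option autoImplicit false

namespace Pool.Agent.W808.KS
open Pool.Agent.H863R2.Cyl
open Pool.Agent.H988R2.Perc (Word PD Dyck LP Fw rainbow firstArc rem)
open Pool.Agent.H988R2.Perc.T10 (pairs fA fB)
open Pool.Agent.H160R2.ML (pfq Gn)
open Pool.Agent.W808.HB (bwm prs Xf Yf vdx wdx bet xY)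

namespace TRA
open Pool.Agent.W808.HB.TM1 (pfq_append map_scale map_mul map_sq YY wdx_cons' sq_prod q_fac1
  q_fac2 prs_cons prs_append Gn_sub Gn_cons Gn_append)

theorem hq : q ^ 2 + q + 1 = 0 := Pool.Agent.H988R2.Perc.q_spec

theorem q3 : q ^ 3 = 1 := Pool.Agent.H988R2.Perc.q_cube

theorem symA_len (ε : ℕ) (A : List ℂ) : (symA ε A).length = 2 * A.length + ε := by
  induction A with
  | nil => simp [symA]
  | cons a A ih =>
    rw [symA, List.length_append, List.length_cons, ih, List.length_singleton, List.length_cons]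
    ring

theorem symA_prod (ε : ℕ) (A : List ℂ) (f : ℂ → ℂ) :
    ((symA ε A).map f).prod = f 1 ^ ε * (A.map (fun a => f a * f a⁻¹)).prod := by
  induction A with
  | nil => simp [symA]
  | cons a A ih =>
    rw [symA, List.map_append, List.prod_append, List.map_cons, List.prod_cons, ih,
      List.map_cons, List.prod_cons]
    simp only [List.map_cons, List.map_nil, List.prod_cons, List.prod_nil]
    ring

theorem map_scale' (A : List ℂ) (f g : ℂ → ℂ) (c : ℂ) (h : ∀ a ∈ A, f a = c * g a) :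
    (A.map f).prod = c ^ A.length * (A.map g).prod := by
  induction A with
  | nil => simp
  | cons a A ih =>
    rw [List.map_cons, List.prod_cons, ih (fun b hb => h b (List.mem_cons_of_mem _ hb)),
      List.map_cons, List.prod_cons, List.length_cons, h a List.mem_cons_self, pow_succ]
    ring

/-- products over the symmetric legs -/
theorem P1 {x : ℂ} (hx : x ≠ 0) (ε : ℕ) (A : List ℂ) (hA : ∀ a ∈ A, a ≠ 0) :
    ((symA ε A).map (fun s => s - q * x)).prod =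
      (1 - q * x) ^ ε * ((-(q * x)) ^ A.length * lam A x) := by
  rw [symA_prod, map_scale' A _ (fun c => Xf c - Yf q x⁻¹) (-(q * x))
    (fun a ha => q_fac1 hq hx (hA a ha))]
  rfl

theorem P2 {x : ℂ} (hx : x ≠ 0) (ε : ℕ) (A : List ℂ) (hA : ∀ a ∈ A, a ≠ 0) :
    ((symA ε A).map (fun s => s - q ^ 2 * x⁻¹)).prod =
      (1 - q ^ 2 * x⁻¹) ^ ε * ((-(q ^ 2 * x⁻¹)) ^ A.length * lam A x) := by
  rw [symA_prod, map_scale' A _ (fun c => Xf c - Yf q x⁻¹) (-(q ^ 2 * x⁻¹))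
    (fun a ha => q_fac2 hq hx (hA a ha))]
  rfl

theorem cc {x : ℂ} (hx : x ≠ 0) (n : ℕ) : (-(q * x)) ^ n * (-(q ^ 2 * x⁻¹)) ^ n = 1 := by
  rw [← mul_pow]
  have h1 : x * x⁻¹ = 1 := mul_inv_cancel₀ hx
  have e : -(q * x) * -(q ^ 2 * x⁻¹) = 1 := by
    linear_combination q ^ 3 * h1 + q3
  rw [e, one_pow]

theorem P12 {x : ℂ} (hx : x ≠ 0) (ε : ℕ) (A : List ℂ) (hA : ∀ a ∈ A, a ≠ 0) :
    ((symA ε A).map (fun s => s - q * x)).prod *
      ((symA ε A).map (fun s => s - q ^ 2 * x⁻¹)).prod = (2 - Yf q x⁻¹) ^ ε * lam A x ^ 2 := by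
  rw [P1 hx ε A hA, P2 hx ε A hA]
  have h1 : x * x⁻¹ = 1 := mul_inv_cancel₀ hx
  have e : (1 - q * x) * (1 - q ^ 2 * x⁻¹) = 2 - Yf q x⁻¹ := by
    unfold Yf
    rw [inv_inv]
    linear_combination q ^ 3 * h1 + q3
  have e2 := cc hx A.length
  rw [← e, mul_pow]
  linear_combination ((1 - q * x) ^ ε * (1 - q ^ 2 * x⁻¹) ^ ε * lam A x ^ 2) * e2

theorem pfq_sym {x : ℂ} (hx : x ≠ 0) (ε : ℕ) (A : List ℂ) (hA : ∀ a ∈ A, a ≠ 0) :
    pfq q (symA ε ((q ^ 2 * x) :: A)) =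
      (-1) ^ ε * ((2 - Yf q x⁻¹) ^ ε * lam A x ^ 2) * (x - x⁻¹) * pfq q (symA ε A) := by
  have h1 : x * x⁻¹ = 1 := mul_inv_cancel₀ hx
  have hinv : (q ^ 2 * x)⁻¹ = q * x⁻¹ := by
    rw [mul_inv]
    congr 1
    rw [inv_eq_iff_eq_inv]
    refine eq_inv_of_mul_eq_one_left ?_
    linear_combination q3
  have hq3 := q3
  rw [symA, pfq_append, hinv, pfq, List.map_cons, List.prod_cons,
    map_scale (symA ε A) (fun b => q * b - q ^ 2 * (q * x⁻¹)) (fun s => s - q ^ 2 * x⁻¹) q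
      (fun b => by ring),
    map_scale (symA ε A) (fun a => q * (q ^ 2 * x) - q ^ 2 * a) (fun s => s - q * x) (-q ^ 2)
      (fun b => by ring), symA_len, ← P12 hx ε A hA]
  have e1 : q ^ (2 * A.length + ε) * (-q ^ 2) ^ (2 * A.length + ε) = (-1) ^ ε := by
    rw [← mul_pow]
    have : q * -q ^ 2 = -1 := by linear_combination -hq3
    rw [this, pow_add, pow_mul]
    norm_num
  have e2 : q * (q ^ 2 * x) - q ^ 2 * (q * x⁻¹) = x - x⁻¹ := by
    linear_combination (x - x⁻¹) * hq3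
  rw [e2]
  linear_combination (((symA ε A).map (fun s => s - q * x)).prod *
      ((symA ε A).map (fun s => s - q ^ 2 * x⁻¹)).prod * (x - x⁻¹) * pfq q (symA ε A)) * e1

theorem lam_append (A B : List ℂ) (x : ℂ) : lam (A ++ B) x = lam A x * lam B x := by
  unfold lam
  rw [List.map_append, List.prod_append]

theorem rv_snoc (B : List ℂ) (x : ℂ) : rv (B ++ [x]) = x⁻¹ :: rv B := by
  unfold rv
  rw [List.map_append, List.reverse_append]
  rfl

theorem fAB {x b : ℂ} (hx : x ≠ 0) (hb : b ≠ 0) :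
    fA b x * fB x⁻¹ b⁻¹ = q ^ 2 * (Xf b - Yf q x⁻¹) ^ 2 := by
  have h1 : x * x⁻¹ = 1 := mul_inv_cancel₀ hx
  have h2 : b * b⁻¹ = 1 := mul_inv_cancel₀ hb
  have hq3 := q3
  have e1 : fA b x = -(q ^ 2 * x * b) * (Xf b - Yf q x⁻¹) := by
    unfold fA Xf Yf
    rw [inv_inv]
    linear_combination (q ^ 2 * x) * h2 - (q ^ 4 * b) * h1 - (x ^ 2 * b) * hq3
  have e2 : fB x⁻¹ b⁻¹ = -(x⁻¹ * b⁻¹) * (Xf b - Yf q x⁻¹) := by
    unfold fB Xf Yf
    rw [inv_inv]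
    linear_combination (-q * b⁻¹) * h1 + x⁻¹ * h2 +
      (q * b⁻¹ - x⁻¹ - x⁻¹ * b⁻¹ ^ 2) * hq3
  rw [e1, e2]
  linear_combination (q ^ 2 * (Xf b - Yf q x⁻¹) ^ 2) * (b * b⁻¹ * h1 + h2)

theorem pairsAB {x : ℂ} (hx : x ≠ 0) (B : List ℂ) (hB : ∀ b ∈ B, b ≠ 0) :
    pairs fA (B ++ [x]) * pairs fB (rv (B ++ [x])) =
      q ^ (2 * B.length) * lam B x ^ 2 * (pairs fA B * pairs fB (rv B)) := by
  rw [rv_snoc, Pool.Agent.H988R2.Perc.T10.pairs_append_singleton]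
  have e : pairs fB (x⁻¹ :: rv B) = ((rv B).map (fB x⁻¹)).prod * pairs fB (rv B) := rfl
  have e2 : ((rv B).map (fB x⁻¹)).prod = (B.map (fun b => fB x⁻¹ b⁻¹)).prod := by
    unfold rv
    rw [List.map_reverse, List.prod_reverse, List.map_map]
    rfl
  have e3 : (B.map (fun y => fA y x)).prod * (B.map (fun b => fB x⁻¹ b⁻¹)).prod =
      q ^ (2 * B.length) * lam B x ^ 2 := by
    induction B with
    | nil => simp [lam]
    | cons b B ih =>
      have ih' := ih (fun c hc => hB c (List.mem_cons_of_mem _ hc)) rfl (by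
        unfold rv
        rw [List.map_reverse, List.prod_reverse, List.map_map]
        rfl)
      have h := fAB hx (hB b List.mem_cons_self)
      unfold lam at ih' ⊢
      rw [List.map_cons, List.prod_cons, List.map_cons, List.prod_cons, List.map_cons,
        List.prod_cons, List.length_cons, mul_add, mul_one, pow_add]
      linear_combination (fA b x * fB x⁻¹ b⁻¹) * ih' +
        (q ^ (2 * B.length) * (B.map (fun c => Xf c - Yf q x⁻¹)).prod ^ 2) * h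
  rw [e, e2]
  linear_combination (pairs fA B * pairs fB (rv B)) * e3

theorem fac12 {x : ℂ} (hx : x ≠ 0) (ε : ℕ) (A : List ℂ) (hA : ∀ a ∈ A, a ≠ 0) {M : ℕ}
    (z : Fin M → ℂ) (hz : ∀ j, z j ≠ 0) :
    fac q (q ^ 2 * x) ((q * x⁻¹) :: symA ε A ++ (prs (List.ofFn z) ++ [x⁻¹])) *
      fac q x⁻¹ (symA ε A ++ prs (List.ofFn z)) =
      q ^ 4 * (x⁻¹ - x) ^ 2 * (x⁻¹ - q * x) ^ 2 *
        ((2 - Yf q x⁻¹) ^ ε * lam A x ^ 2) ^ 2 * YY z (Yf q x⁻¹) ^ 4 := by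
  have h1 : x * x⁻¹ = 1 := mul_inv_cancel₀ hx
  have hq3 := q3
  have e4 : q ^ 2 * (q ^ 2 * x) = q * x := by linear_combination (q * x) * hq3
  unfold fac
  rw [List.map_append, List.prod_append, List.map_cons, List.prod_cons, List.map_append,
    List.prod_append, List.map_append, List.prod_append, e4,
    map_sq (symA ε A) (fun y => (y - q * x) ^ 2) (fun b => b - q * x) (fun b => rfl),
    map_sq (symA ε A) (fun y => (y - q ^ 2 * x⁻¹) ^ 2) (fun b => b - q ^ 2 * x⁻¹) (fun b => rfl),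
    sq_prod z (q * x) (-(q * x)) (Yf q x⁻¹) (fun j => q_fac1 hq hx (hz j)),
    sq_prod z (q ^ 2 * x⁻¹) (-(q ^ 2 * x⁻¹)) (Yf q x⁻¹) (fun j => q_fac2 hq hx (hz j))]
  simp only [List.map_cons, List.map_nil, List.prod_cons, List.prod_nil, mul_one]
  have e5 := cc hx (2 * M)
  rw [← P12 hx ε A hA]
  have e6 : (q * x⁻¹ - q * x) ^ 2 = q ^ 2 * (x⁻¹ - x) ^ 2 := by ring
  rw [e6]
  generalize ((symA ε A).map (fun s => s - q * x)).prod = p1
  generalize ((symA ε A).map (fun s => s - q ^ 2 * x⁻¹)).prod = p2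
  generalize YY z (Yf q x⁻¹) = W
  generalize (-(q * x)) ^ (2 * M) = c1 at *
  generalize (-(q ^ 2 * x⁻¹)) ^ (2 * M) = c2 at *
  linear_combination (q ^ 4 * (x⁻¹ - x) ^ 2 * (x⁻¹ - q * x) ^ 2 * (p1 * p2) ^ 2 * W ^ 4) *
    (x * x⁻¹ * e5 + h1)

theorem hkap (ε k l M : ℕ) (hε : ε ≤ 1) :
    -kap ε (k + 1) l (M + 1) = q ^ (2 + 2 * ε + 2 * l) * kap ε k (l + 1) M := by
  have hq1 : q - 1 ≠ 0 := sub_ne_zero.2 Pool.Agent.H988R2.Perc.q_ne_one
  have hq3 := q3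
  unfold kap
  have e1 : (q - 1) ^ (M + 1) * ((q - 1) ^ (k + 1))⁻¹ = (q - 1) ^ M * ((q - 1) ^ k)⁻¹ := by
    rw [pow_succ, pow_succ, mul_inv]
    field_simp
  rw [e1]
  interval_cases ε
  · have e2 : q ^ ((M + 1) * (M + 1 + 1 - 0 + 2 * l)) =
        q ^ (2 + 2 * 0 + 2 * l) * q ^ (M * (M + 1 - 0 + 2 * (l + 1))) := by
      rw [← pow_add]
      congr 1
      simp only [Nat.sub_zero]
      ring
    rw [e2]
    simp only [Nat.sub_zero, mul_one, mul_zero, add_zero, pow_succ]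
    ring
  · have e2 : q ^ 3 * q ^ ((M + 1) * (M + 1 + 1 - 1 + 2 * l)) =
        q ^ (2 + 2 * 1 + 2 * l) * q ^ (M * (M + 1 - 1 + 2 * (l + 1))) := by
      rw [← pow_add, ← pow_add]
      congr 1
      simp only [Nat.add_sub_cancel]
      ring
    rw [hq3, one_mul] at e2
    rw [e2]
    simp only [Nat.sub_self, mul_zero, mul_one, zero_add, pow_succ]
    ring

theorem alg {Q K K' sg E la lb x x' r v pA p1 p2 V W W' w D1 D2 d1 d2 Z P G1 G2 S c2 c3 : ℂ}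
    (hT : D1 * Z * W ^ 2 * (D2 * Z * W ^ 2) =
      G1 * P * (la * lb) * V * d1 * (G2 * P * (la * lb) * V * d2))
    (hZ : Z = (1 - Q) * v) (hP : P = -(Q ^ 2 - Q) * (x' - x))
    (hg : G1 * G2 * (x' - x) = r ^ 2 * v ^ 2 * S) (hk : -K = Q ^ 2 * c2 * c3 * K')
    (hE : E = sg * c2 * S) :
    K * (sg * (E * la ^ 2) * (x - x') * pA) * (p1 * p2) *
        ((V * (W ^ 2 * W' ^ 2) * w) ^ 2 * (D1 * D2)) * Z ^ 2 =
      Q ^ 4 * (x' - x) ^ 2 * r ^ 2 * (E * la ^ 2) ^ 2 * W' ^ 4 * V ^ 4 *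
        (K' * pA * (c3 * lb ^ 2 * (p1 * p2)) * (w ^ 2 * (d1 * d2))) * Z ^ 2 := by
  subst hP
  have hT' : K * (sg * (E * la ^ 2) * (x - x') * pA) * (p1 * p2) *
        ((V * (W ^ 2 * W' ^ 2) * w) ^ 2 * (D1 * D2)) * Z ^ 2 =
      K * sg * E * la ^ 2 * (x - x') * pA * p1 * p2 * V ^ 2 * W' ^ 4 * w ^ 2 *
        (G1 * (-(Q ^ 2 - Q) * (x' - x)) * (la * lb) * V * d1 *
          (G2 * (-(Q ^ 2 - Q) * (x' - x)) * (la * lb) * V * d2)) := by
    rw [← hT]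
    ring
  rw [hT']
  subst hZ
  linear_combination (-(K * sg * E * la ^ 2 * pA * p1 * p2 * V ^ 2 * W' ^ 4 * w ^ 2) *
      (-(Q ^ 2 - Q) * (x' - x)) ^ 2 * (la * lb) ^ 2 * V ^ 2 * d1 * d2) * hg +
    (sg * E * la ^ 2 * pA * p1 * p2 * V ^ 2 * W' ^ 4 * w ^ 2 * (r ^ 2 * v ^ 2 * S) *
      (-(Q ^ 2 - Q) * (x' - x)) ^ 2 * (la * lb) ^ 2 * V ^ 2 * d1 * d2) * hk -
    (Q ^ 4 * (x' - x) ^ 2 * r ^ 2 * E * la ^ 4 * W' ^ 4 * V ^ 4 *
      (K' * pA * (c3 * lb ^ 2 * (p1 * p2)) * (w ^ 2 * (d1 * d2))) * ((1 - Q) * v) ^ 2) * hE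

end TRA

open TRA Pool.Agent.W808.HB.TM1 in
theorem t_RA : S_TR → S_TP → S_RA := by
  intro hTR hTP ε A B M y0 y hε hG
  obtain ⟨x, hxd⟩ : ∃ x, x = y0 ^ 2 := ⟨_, rfl⟩
  rw [← hxd] at hG ⊢
  have hq3 := TRA.q3
  -- genericity
  have hG1 : Gn (prs (x :: List.ofFn (sq y))) := by
    rw [prs_append] at hG
    exact Gn_sub (List.sublist_append_right _ _) hG
  have hGA : Gn (prs (A ++ B)) := by
    rw [prs_append] at hG
    exact Gn_sub (List.sublist_append_left _ _) hG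
  have hmem : ∀ c ∈ A ++ B, c ≠ 0 := fun c hc => hGA.1 c (by
    unfold prs
    rw [List.mem_flatMap]
    exact ⟨c, hc, List.mem_cons_self⟩)
  have hA : ∀ a ∈ A, a ≠ 0 := fun a ha => hmem a (List.mem_append_left _ ha)
  have hB : ∀ b ∈ B, b ≠ 0 := fun b hb => hmem b (List.mem_append_right _ hb)
  have hx : x ≠ 0 := hG1.1 x (by rw [prs_cons]; exact List.mem_cons_self)
  have hy0 : y0 ≠ 0 := by
    rintro rfl
    apply hx
    rw [hxd]
    ring
  have hz : ∀ j, sq y j ≠ 0 := fun j => hG1.1 (sq y j) (by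
    unfold prs
    rw [List.mem_flatMap]
    exact ⟨sq y j, List.mem_cons_of_mem _ (List.mem_ofFn.2 ⟨j, rfl⟩), List.mem_cons_self⟩)
  have h1 : x * x⁻¹ = 1 := mul_inv_cancel₀ hx
  have hcube : x ^ 3 ≠ x⁻¹ ^ 3 := by
    have := Gn_cons (a := x) (l := x⁻¹ :: prs (List.ofFn (sq y))) (by rw [prs_cons] at hG1; exact hG1)
      x⁻¹ List.mem_cons_self
    exact this
  have hd : x⁻¹ - x ≠ 0 := by
    intro h
    apply hcube
    have : x = x⁻¹ := by linear_combination -h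
    rw [← this]
  have hv : x⁻¹ - q ^ 2 * x ≠ 0 := by
    intro h
    apply hcube
    have : x⁻¹ = q ^ 2 * x := by linear_combination h
    rw [this]
    linear_combination (-(q ^ 3 + 1) * x ^ 3) * hq3
  have hq1 : q - 1 ≠ 0 := sub_ne_zero.2 Pool.Agent.H988R2.Perc.q_ne_one
  -- the recursion of the determinants
  have hX0 : Xf (q ^ 2 * x) = Yf q x := by
    have hinv : (q ^ 2 * x)⁻¹ = q * x⁻¹ := by
      rw [mul_inv]
      congr 1
      rw [inv_eq_iff_eq_inv]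
      refine eq_inv_of_mul_eq_one_left ?_
      linear_combination hq3
    unfold Xf Yf
    rw [hinv]
  have hsq : sq (Fin.cons y0 y : Fin (M + 1) → ℂ) = (Fin.cons x (sq y) : Fin (M + 1) → ℂ) := by
    funext i
    refine Fin.cases ?_ (fun i => ?_) i
    · simp [sq, hxd]
    · simp [sq]
  have hT := fun g => hTR g (A ++ B) (q ^ 2 * x) M y0 y (by rw [← hxd]; exact hG1)
    (by rw [← hxd]; exact hX0)
  have hP := fun g => (hTP g (x :: (A ++ B)) M y).2.1 (A ++ (B ++ [x])) (by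
    rw [← List.append_assoc]
    exact (List.perm_append_singleton x (A ++ B)).symm)
  have hT1 := hT (g1 ε)
  have hT2 := hT (g2 ε)
  rw [← hxd, hP, lam_append] at hT1 hT2
  have hYY : ∀ Y, ∏ j, (Xf (y j ^ 2) - Y) ^ 2 = YY (sq y) Y ^ 2 := by
    intro Y
    rw [YY, ← Finset.prod_pow]
    rfl
  rw [hYY] at hT1 hT2
  obtain ⟨V, hV⟩ : ∃ V, V = ∏ j, (Xf x - Xf (y j ^ 2)) ^ 2 := ⟨_, rfl⟩
  have hV8 : ∏ j, (Xf x - Xf (y j ^ 2)) ^ 8 = V ^ 4 := by
    rw [hV, ← Finset.prod_pow]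
    refine Finset.prod_congr rfl fun j _ => ?_
    rw [← pow_mul]
  have hw : wdx (sq (Fin.cons y0 y : Fin (M + 1) → ℂ)) =
      V * (YY (sq y) (Yf q x) ^ 2 * YY (sq y) (Yf q x⁻¹) ^ 2) * wdx (sq y) := by
    rw [hsq, wdx_cons' TRA.hq hx hz, hV]
    rfl
  rw [← hV] at hT1 hT2
  unfold Rf
  rw [List.cons_append, hw, hV8, pfq_sym hx ε A hA, pairsAB hx B hB, List.length_cons,
    List.length_append, List.length_singleton, fac12 hx ε A hA (sq y) hz]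
  -- scalars
  have hXY : Xf x - Yf q x = (1 - q) * (x⁻¹ - q ^ 2 * x) := by
    unfold Xf Yf
    linear_combination (-x) * hq3
  have hYY' : Yf q x - Yf q x⁻¹ = -(q ^ 2 - q) * (x⁻¹ - x) := by
    unfold Yf
    rw [inv_inv]
    ring
  have hinv0 : y0 * y0⁻¹ = 1 := mul_inv_cancel₀ hy0
  have hxi : x⁻¹ = y0⁻¹ ^ 2 := by rw [hxd, inv_pow]
  obtain ⟨s, hs⟩ : ∃ s, s = (y0⁻¹ - q * y0) ^ 2 := ⟨_, rfl⟩
  have h2Y : 2 - Yf q x⁻¹ = -q ^ 2 * s := by
    unfold Yf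
    rw [inv_inv, hs, hxi, hxd]
    linear_combination (-2 * q ^ 3) * hinv0 + (q * y0 ^ 2 - 2) * hq3
  have hgg : g1 ε y0 * g2 ε y0 * (x⁻¹ - x) =
      (x⁻¹ - q * x) ^ 2 * (x⁻¹ - q ^ 2 * x) ^ 2 * s ^ ε := by
    unfold g1 g2 KC.gs gs2 sg
    rw [← hxd, hs, ← pow_mul, mul_comm 2 ε, pow_mul]
    change (x⁻¹ - q * x) * (x⁻¹ - q ^ 2 * x) / (x⁻¹ - x) * (y0⁻¹ - q * y0) ^ ε *
      ((x⁻¹ - q * x) * (x⁻¹ - q ^ 2 * x) * (y0⁻¹ - q * y0) ^ ε) * (x⁻¹ - x) = _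
    have e := div_mul_cancel₀ ((x⁻¹ - q * x) * (x⁻¹ - q ^ 2 * x)) hd
    generalize (y0⁻¹ - q * y0) ^ ε = t at *
    linear_combination (t ^ 2 * (x⁻¹ - q * x) * (x⁻¹ - q ^ 2 * x)) * e
  have hk := hkap ε A.length B.length M hε
  have hXYne : Xf x - Yf q x ≠ 0 := by
    rw [hXY]
    exact mul_ne_zero (by intro h; apply hq1; linear_combination -h) hv
  have hE : (2 - Yf q x⁻¹) ^ ε = (-1) ^ ε * q ^ (2 * ε) * s ^ ε := by
    rw [h2Y, pow_mul, ← mul_pow, ← mul_pow]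
    congr 1
    ring
  refine mul_right_cancel₀ (pow_ne_zero 2 hXYne) ?_
  have hT12 := congrArg₂ (· * ·) hT1 hT2
  have hqq : q ^ (2 + 2 * ε + 2 * B.length) = q ^ 2 * q ^ (2 * ε) * q ^ (2 * B.length) := by
    rw [pow_add, pow_add]
  rw [hqq] at hk
  exact TRA.alg hT12 hXY hYY' hgg hk hE

end Pool.Agent.W808.KS
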