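import Pool.Agent.W808.KS.Stm
import Pool.Agent.W808.HB.T_M1

/-!
# Recursion of the formula, legs above (task KS-RB)
-/

set_option autoImplicit false

namespace Pool.Agent.W808.KS
open Pool.Agent.H863R2.Cyl
open Pool.Agent.H988R2.Perc (Word PD Dyck LP Fw rainbow firstArc rem)
open Pool.Agent.H988R2.Perc.T10 (pairs fA fB)
open Pool.Agent.H160R2.ML (pfq Gn)
open Pool.Agent.W808.HB (bwm prs Xf Yf vdx wdx bet xY)

namespace TRB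
open Pool.Agent.W808.HB.TM1 (q_ne q_ne1 prs_cons prs_append prs_prod Gn_sub YY wdx_cons' Xf_inv
  pfq_append)

theorem hq : q ^ 2 + q + 1 = 0 := Pool.Agent.H988R2.Perc.q_spec

theorem h3 : q ^ 3 = 1 := by linear_combination (q - 1) * hq

/-- the factor of the strip, in terms of `q` -/
theorem fac_eq (x : ℂ) (l : List ℂ) : Pool.Agent.H988R2.Perc.fac x l =
    (l.map (fun y => (x - q ^ 2 * y) * (x * y - q ^ 2))).prod := rfl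

theorem fac_append (x : ℂ) (l l' : List ℂ) : Pool.Agent.H988R2.Perc.fac x (l ++ l') =
    Pool.Agent.H988R2.Perc.fac x l * Pool.Agent.H988R2.Perc.fac x l' := by
  rw [fac_eq, fac_eq, fac_eq, List.map_append, List.prod_append]

theorem fac_cons (x a : ℂ) (l : List ℂ) : Pool.Agent.H988R2.Perc.fac x (a :: l) =
    ((x - q ^ 2 * a) * (x * a - q ^ 2)) * Pool.Agent.H988R2.Perc.fac x l := by
  rw [fac_eq, fac_eq, List.map_cons, List.prod_cons]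

theorem fac_nil (x : ℂ) : Pool.Agent.H988R2.Perc.fac x [] = 1 := rfl

theorem rv_append (B : List ℂ) (b : ℂ) : rv (B ++ [b]) = b⁻¹ :: rv B := by
  simp [rv]

theorem rv_cons (B : List ℂ) (b : ℂ) : rv (b :: B) = rv B ++ [b⁻¹] := by
  simp [rv]

/-- the legs above against the new leg -/
theorem legB {x : ℂ} (hx : x ≠ 0) (B : List ℂ) (hB : ∀ b ∈ B, b ≠ 0) :
    Pool.Agent.H988R2.Perc.fac (q * x) (rv B) * Pool.Agent.H988R2.Perc.fac x⁻¹ B =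
      q ^ (2 * B.length) * lam B x⁻¹ ^ 2 := by
  have hq : q ^ 2 + q + 1 = 0 := hq
  have hx1 : x * x⁻¹ = 1 := mul_inv_cancel₀ hx
  induction B with
  | nil => simp [rv, lam, fac_nil]
  | cons b B ih =>
    have ih' := ih (fun c hc => hB c (List.mem_cons_of_mem _ hc))
    have hb : b ≠ 0 := hB b List.mem_cons_self
    have hb1 : b * b⁻¹ = 1 := mul_inv_cancel₀ hb
    have e1 : lam (b :: B) x⁻¹ = (Xf b - Yf q x) * lam B x⁻¹ := by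
      unfold lam
      rw [List.map_cons, List.prod_cons, inv_inv]
    have e2 : (((q * x - q ^ 2 * b⁻¹) * (q * x * b⁻¹ - q ^ 2)) *
        ((x⁻¹ - q ^ 2 * b) * (x⁻¹ * b - q ^ 2))) = q ^ 2 * (Xf b - Yf q x) ^ 2 := by
      unfold Xf Yf
      linear_combination (b⁻¹ * x⁻¹ * b * q ^ 2 * x + b⁻¹ * b * q ^ 2 + -(b⁻¹ * b ^ 2 * q ^ 4 * x) + -(b⁻¹ * q ^ 4 * x) + -(b⁻¹ ^ 2 * x⁻¹ * b * q ^ 3) + b⁻¹ ^ 2 * b ^ 2 * q ^ 5 + b⁻¹ ^ 2 * q ^ 5 + -(x⁻¹ * b * q ^ 3) + b ^ 2 * q ^ 5 + -(q ^ 5)) * hx1 + (-(b⁻¹ * x⁻¹ * q ^ 3) + b⁻¹ * b * q ^ 5 + -(b⁻¹ * q ^ 7 * x) + -(x⁻¹ * b * q ^ 6) + x⁻¹ ^ 2 * q ^ 4 + -(b * q ^ 4 * x) + -(q ^ 2) + q ^ 5 + q ^ 6 * x ^ 2 + q ^ 8) * hb1 + (b⁻¹ * x⁻¹ * q ^ 3 + -(b⁻¹ * x⁻¹ * q ^ 4) + b⁻¹ * q ^ 4 * x + -(b⁻¹ * q ^ 5 * x) + -(b⁻¹ ^ 2 * q ^ 2) + b⁻¹ ^ 2 * q ^ 3 + x⁻¹ * b * q ^ 3 + -(x⁻¹ * b * q ^ 4) + b * q ^ 4 * x + -(b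 * q ^ 5 * x) + -(b ^ 2 * q ^ 2) + b ^ 2 * q ^ 3 + -(q ^ 2) + q ^ 3 + -(q ^ 5) + q ^ 6) * hq
    rw [rv_cons, fac_append, fac_cons, fac_cons, fac_nil, e1, List.length_cons]
    have e3 : q ^ (2 * (B.length + 1)) = q ^ 2 * q ^ (2 * B.length) := by
      rw [← pow_add]; congr 1; ring
    rw [e3]
    linear_combination ((q * x - q ^ 2 * b⁻¹) * (q * x * b⁻¹ - q ^ 2)) *
        ((x⁻¹ - q ^ 2 * b) * (x⁻¹ * b - q ^ 2)) * ih' +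
      (q ^ (2 * B.length) * lam B x⁻¹ ^ 2) * e2

theorem fA_leg (x : ℂ) (B : List ℂ) :
    (B.map (fun b => fA b (q * x))).prod = Pool.Agent.H988R2.Perc.fac (q * x) B := by
  rw [fac_eq]
  congr 1
  refine List.map_congr_left fun b _ => ?_
  show (q * x - q ^ 2 * b) * (b * (q * x) - q ^ 2) = _
  ring

theorem fB_leg {x : ℂ} (hx : x ≠ 0) (B : List ℂ) :
    (B.map (fB (q * x)⁻¹)).prod = Pool.Agent.H988R2.Perc.fac x⁻¹ B := by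
  have e : q * (q * x)⁻¹ = x⁻¹ := by
    rw [mul_inv, ← mul_assoc, mul_inv_cancel₀ (q_ne hq), one_mul]
  rw [fac_eq]
  congr 1
  refine List.map_congr_left fun b _ => ?_
  show (q * (q * x)⁻¹ - q ^ 2 * b) * (q * (q * x)⁻¹ * b - q ^ 2) = _
  rw [e]

/-- the other strands against the new leg -/
theorem prs1 {x : ℂ} (hx : x ≠ 0) {M : ℕ} {z : Fin M → ℂ} (hz : ∀ j, z j ≠ 0) :
    Pool.Agent.H988R2.Perc.fac (q * x) (prs (List.ofFn z)) = x ^ (2 * M) * YY z (Yf q x) ^ 2 := by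
  have hx1 : x * x⁻¹ = 1 := mul_inv_cancel₀ hx
  have hq : q ^ 2 + q + 1 = 0 := hq
  rw [fac_eq, prs_prod, List.map_ofFn, List.prod_ofFn, YY, ← Finset.prod_pow]
  have e : x ^ (2 * M) = ∏ _j : Fin M, x ^ 2 := by
    rw [Finset.prod_const, Finset.card_univ, Fintype.card_fin, ← pow_mul]
  rw [e, ← Finset.prod_mul_distrib]
  refine Finset.prod_congr rfl fun j _ => ?_
  simp only [Function.comp]
  have hb1 : z j * (z j)⁻¹ = 1 := mul_inv_cancel₀ (hz j)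
  generalize z j = b at *
  have p1 : (q * x - q ^ 2 * b) * (q * x - q ^ 2 * b⁻¹) = -(x * (Xf b - Yf q x)) := by
    unfold Xf Yf
    linear_combination (-(q)) * hx1 + (q ^ 4) * hb1 + (-(b⁻¹ * q * x) + b⁻¹ * x + -(b * q * x) + b * x + -(q) + q ^ 2) * hq
  have p2 : (q * x * b - q ^ 2) * (q * x * b⁻¹ - q ^ 2) = -(x * (Xf b - Yf q x)) := by
    unfold Xf Yf
    linear_combination (-(q)) * hx1 + (q ^ 2 * x ^ 2) * hb1 + (-(b⁻¹ * q * x) + b⁻¹ * x + -(b * q * x) + b * x + -(q) + q ^ 2) * hq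
  calc _ = ((q * x - q ^ 2 * b) * (q * x - q ^ 2 * b⁻¹)) *
        ((q * x * b - q ^ 2) * (q * x * b⁻¹ - q ^ 2)) := by ring
    _ = _ := by rw [p1, p2]; ring

theorem prs2 {x : ℂ} (hx : x ≠ 0) {M : ℕ} {z : Fin M → ℂ} (hz : ∀ j, z j ≠ 0) :
    Pool.Agent.H988R2.Perc.fac x⁻¹ (prs (List.ofFn z)) =
      (q ^ 2 * x⁻¹) ^ (2 * M) * YY z (Yf q x) ^ 2 := by
  have hx1 : x * x⁻¹ = 1 := mul_inv_cancel₀ hx
  have hq : q ^ 2 + q + 1 = 0 := hq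
  rw [fac_eq, prs_prod, List.map_ofFn, List.prod_ofFn, YY, ← Finset.prod_pow]
  have e : (q ^ 2 * x⁻¹) ^ (2 * M) = ∏ _j : Fin M, (q ^ 2 * x⁻¹) ^ 2 := by
    rw [Finset.prod_const, Finset.card_univ, Fintype.card_fin, ← pow_mul]
  rw [e, ← Finset.prod_mul_distrib]
  refine Finset.prod_congr rfl fun j _ => ?_
  simp only [Function.comp]
  have hb1 : z j * (z j)⁻¹ = 1 := mul_inv_cancel₀ (hz j)
  generalize z j = b at *
  have p3 : (x⁻¹ - q ^ 2 * b) * (x⁻¹ - q ^ 2 * b⁻¹) = -(q ^ 2 * x⁻¹ * (Xf b - Yf q x)) := by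
    unfold Xf Yf
    linear_combination (-(q ^ 4)) * hx1 + (q ^ 4) * hb1 + (x⁻¹ ^ 2 + -(x⁻¹ ^ 2 * q)) * hq
  have p4 : (x⁻¹ * b - q ^ 2) * (x⁻¹ * b⁻¹ - q ^ 2) = -(q ^ 2 * x⁻¹ * (Xf b - Yf q x)) := by
    unfold Xf Yf
    linear_combination (-(q ^ 4)) * hx1 + (x⁻¹ ^ 2) * hb1 + (x⁻¹ ^ 2 + -(x⁻¹ ^ 2 * q)) * hq
  calc _ = ((x⁻¹ - q ^ 2 * b) * (x⁻¹ - q ^ 2 * b⁻¹)) *
        ((x⁻¹ * b - q ^ 2) * (x⁻¹ * b⁻¹ - q ^ 2)) := by ring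
    _ = _ := by rw [p3, p4]; ring

/-- the legs below against the new leg -/
theorem legA {x : ℂ} (hx : x ≠ 0) (ε : ℕ) (A : List ℂ) (hA : ∀ a ∈ A, a ≠ 0) :
    ((symA ε A).map (fun c => q * c - q ^ 2 * x⁻¹)).prod *
      ((symA ε A).map (fun c => q * x - q ^ 2 * c)).prod =
      lam A x⁻¹ ^ 2 * ((q - q ^ 2 * x⁻¹) * (q * x - q ^ 2)) ^ ε := by
  have hq : q ^ 2 + q + 1 = 0 := hq
  have hx1 : x * x⁻¹ = 1 := mul_inv_cancel₀ hx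
  induction A with
  | nil => simp [symA, lam, mul_pow]
  | cons b A ih =>
    have ih' := ih (fun c hc => hA c (List.mem_cons_of_mem _ hc))
    have hb : b ≠ 0 := hA b List.mem_cons_self
    have hb1 : b * b⁻¹ = 1 := mul_inv_cancel₀ hb
    have e1 : lam (b :: A) x⁻¹ = (Xf b - Yf q x) * lam A x⁻¹ := by
      unfold lam
      rw [List.map_cons, List.prod_cons, inv_inv]
    have p1 : (q * x - q ^ 2 * b) * (q * x - q ^ 2 * b⁻¹) = -(x * (Xf b - Yf q x)) := by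
      unfold Xf Yf
      linear_combination (-(q)) * hx1 + (q ^ 4) * hb1 + (-(b⁻¹ * q * x) + b⁻¹ * x + -(b * q * x) + b * x + -(q) + q ^ 2) * hq
    have a1 : (q * b - q ^ 2 * x⁻¹) * (q * b⁻¹ - q ^ 2 * x⁻¹) = -(x⁻¹ * (Xf b - Yf q x)) := by
      unfold Xf Yf
      linear_combination (-(q ^ 2)) * hx1 + (q ^ 2) * hb1 + (b⁻¹ * x⁻¹ + -(b⁻¹ * x⁻¹ * q) + x⁻¹ * b + -(x⁻¹ * b * q) + -(x⁻¹ ^ 2 * q) + x⁻¹ ^ 2 * q ^ 2) * hq
    have hl : ∀ f : ℂ → ℂ, ((symA ε (b :: A)).map f).prod =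
        (f b * f b⁻¹) * ((symA ε A).map f).prod := by
      intro f
      simp only [symA, List.map_append, List.map_cons, List.map_nil, List.prod_append,
        List.prod_cons, List.prod_nil]
      ring
    rw [hl, hl, e1]
    generalize ((symA ε A).map (fun c => q * c - q ^ 2 * x⁻¹)).prod = U1 at *
    generalize ((symA ε A).map (fun c => q * x - q ^ 2 * c)).prod = U2 at *
    generalize ((q - q ^ 2 * x⁻¹) * (q * x - q ^ 2)) ^ ε = E at *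
    generalize Xf b - Yf q x = W at *
    generalize lam A x⁻¹ = L at *
    calc _ = ((q * b - q ^ 2 * x⁻¹) * (q * b⁻¹ - q ^ 2 * x⁻¹)) *
        ((q * x - q ^ 2 * b) * (q * x - q ^ 2 * b⁻¹)) * (U1 * U2) := by ring
      _ = (x * x⁻¹) * W ^ 2 * (U1 * U2) := by rw [a1, p1]; ring
      _ = _ := by rw [hx1, ih']; ring

/-- the exponents -/
theorem kap0 (k l M : ℕ) : kap 0 k (l + 1) (M + 1) =
    -((q - 1) ^ 2 * q ^ M * q ^ (2 * l) * q) * kap 0 (k + 1) l M := by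
  have h3 : q ^ 3 = 1 := h3
  have hq1 : q - 1 ≠ 0 := sub_ne_zero.2 (q_ne1 hq)
  unfold kap
  have e1 : (M + 1) * (M + 1 + 1 - 0 + 2 * (l + 1)) = 3 * (M + 1) + (M * (M + 1 - 0 + 2 * l) +
      (M + 2 * l + 1)) := by
    have a1 : M + 1 + 1 - 0 + 2 * (l + 1) = M + 2 * l + 4 := by omega
    have a2 : M + 1 - 0 + 2 * l = M + 2 * l + 1 := by omega
    rw [a1, a2]
    ring
  have e2 : q ^ (3 * (M + 1)) = 1 := by rw [pow_mul, h3, one_pow]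
  rw [e1, pow_add q (3 * (M + 1)), e2, pow_add q (M * (M + 1 - 0 + 2 * l)), pow_add q (M + 2 * l),
    pow_add q M, pow_one]
  have e4 : (M + 1) * (1 - 0) + k * 0 = M + 1 := by simp
  have e5 : M * (1 - 0) + (k + 1) * 0 = M := by simp
  rw [e4, e5, pow_succ (q - 1) k, mul_inv, pow_succ (q - 1) M, pow_succ (-1 : ℂ) M]
  have e6 : (q - 1) * (q - 1)⁻¹ = 1 := mul_inv_cancel₀ hq1
  linear_combination ((-1) ^ M * (q - 1) ^ M * ((q - 1) ^ k)⁻¹ * q ^ (M * (M + 1 - 0 + 2 * l)) *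
    (q ^ M * q ^ (2 * l) * q) * (q - 1)) * e6

theorem kap1 (k l M : ℕ) : kap 1 k (l + 1) (M + 1) =
    -((q - 1) ^ 2 * q ^ M * q ^ (2 * l)) * kap 1 (k + 1) l M := by
  have h3 : q ^ 3 = 1 := h3
  have hq1 : q - 1 ≠ 0 := sub_ne_zero.2 (q_ne1 hq)
  unfold kap
  have e1 : (M + 1) * (M + 1 + 1 - 1 + 2 * (l + 1)) = 3 * (M + 1) + (M * (M + 1 - 1 + 2 * l) +
      (M + 2 * l)) := by
    have a1 : M + 1 + 1 - 1 + 2 * (l + 1) = M + 2 * l + 3 := by omega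
    have a2 : M + 1 - 1 + 2 * l = M + 2 * l := by omega
    rw [a1, a2]
    ring
  have e2 : q ^ (3 * (M + 1)) = 1 := by rw [pow_mul, h3, one_pow]
  rw [e1, pow_add q (3 * (M + 1)), e2, pow_add q (M * (M + 1 - 1 + 2 * l)), pow_add q M]
  have e4 : (M + 1) * (1 - 1) + k * 1 = k := by simp
  have e5 : M * (1 - 1) + (k + 1) * 1 = k + 1 := by simp
  rw [e4, e5, pow_succ (q - 1) k, mul_inv, pow_succ (q - 1) M, pow_succ (-1 : ℂ) k]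
  have e6 : (q - 1) * (q - 1)⁻¹ = 1 := mul_inv_cancel₀ hq1
  linear_combination (-(-1) ^ k * (q - 1) ^ M * ((q - 1) ^ k)⁻¹ * q ^ (M * (M + 1 - 1 + 2 * l)) *
    (q ^ M * q ^ (2 * l)) * (q - 1)) * e6

/-- the scalar identity -/
theorem sc {x : ℂ} (hx : x ≠ 0) (hxx : x - x⁻¹ ≠ 0) :
    -((q - 1) ^ 2 * q) * (KC.gs x⁻¹ * gs2 x⁻¹) * (Yf q x⁻¹ - Yf q x) ^ 2 =
      ((q * x - q ^ 2 * x⁻¹) * (q * x * x⁻¹ - q ^ 2) *
        ((q * x - q ^ 2 * (q ^ 2 * x⁻¹)) * (q * x * (q ^ 2 * x⁻¹) - q ^ 2)) *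
        (q * x - q ^ 2 * x⁻¹)) * (Xf x - Yf q x⁻¹) ^ 2 := by
  have h3 : q ^ 3 = 1 := h3
  have hx1 : x * x⁻¹ = 1 := mul_inv_cancel₀ hx
  have hg : KC.gs x⁻¹ * (x - x⁻¹) = (x - q * x⁻¹) * (x - q ^ 2 * x⁻¹) := by
    show (x⁻¹⁻¹ - q * x⁻¹) * (x⁻¹⁻¹ - q ^ 2 * x⁻¹) / (x⁻¹⁻¹ - x⁻¹) * (x - x⁻¹) = _
    rw [inv_inv, div_mul_cancel₀ _ hxx]
  have hg2 : gs2 x⁻¹ = (x - q * x⁻¹) * (x - q ^ 2 * x⁻¹) := by
    unfold gs2
    rw [inv_inv]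
  have hY : Yf q x⁻¹ - Yf q x = (q - q ^ 2) * (x - x⁻¹) := by
    unfold Yf
    rw [inv_inv]
    ring
  have hZ : Xf x - Yf q x⁻¹ = (1 - q) * (x - q ^ 2 * x⁻¹) := by
    unfold Xf Yf
    rw [inv_inv]
    linear_combination (-x⁻¹) * h3
  have c1 : q * x * x⁻¹ - q ^ 2 = q * (1 - q) := by linear_combination q * hx1
  have c2 : q * x - q ^ 2 * (q ^ 2 * x⁻¹) = q * (x - x⁻¹) := by
    linear_combination (-q * x⁻¹) * h3
  have c3 : q * x * (q ^ 2 * x⁻¹) - q ^ 2 = 1 - q ^ 2 := by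
    linear_combination q ^ 3 * hx1 + h3
  rw [hg2, hY, hZ, c1, c2, c3]
  generalize KC.gs x⁻¹ = g at *
  generalize x⁻¹ = X at *
  linear_combination (-((q - 1) ^ 2 * q) * ((x - q * X) * (x - q ^ 2 * X)) * ((q - q ^ 2) ^ 2 *
    (x - X))) * hg + (q ^ 3 * (1 - q) ^ 3 * ((x - q * X) * (x - q ^ 2 * X)) ^ 2 * (x - X)) * h3

theorem Xf_q {x : ℂ} (hx : x ≠ 0) : Xf (q * x) = Yf q x⁻¹ := by
  have h3 : q ^ 3 = 1 := h3
  unfold Xf Yf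
  rw [inv_inv]
  have e : (q * x)⁻¹ = q ^ 2 * x⁻¹ := by
    rw [mul_inv]
    congr 1
    exact inv_eq_of_mul_eq_one_right (by linear_combination h3)
  rw [e]
  ring

theorem DT_inv (g : ℂ → ℂ) (C : List ℂ) (x : ℂ) {M : ℕ} (y : Fin M → ℂ) :
    DT g (x⁻¹ :: C) y = DT g (x :: C) y := by
  have e : ∀ u, lam (x⁻¹ :: C) u = lam (x :: C) u := by
    intro u
    unfold lam
    rw [List.map_cons, List.map_cons, List.prod_cons, List.prod_cons, Xf_inv]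
  unfold DT
  simp only [e]

/-- the determinants -/
theorem dets (hTR : S_TR) (hTP : S_TP) (g : ℂ → ℂ) (A B : List ℂ) (M : ℕ) (y0 : ℂ) (y : Fin M → ℂ)
    (hy0 : y0 ≠ 0) (hG : Gn (prs ((y0⁻¹) ^ 2 :: List.ofFn (sq y)))) :
    DT g (A ++ (B ++ [q * y0 ^ 2])) (Fin.cons y0 y : Fin (M + 1) → ℂ) *
        (Xf (y0 ^ 2) - Yf q (y0 ^ 2)⁻¹) * YY (sq y) (Yf q (y0 ^ 2)⁻¹) ^ 2 =
      g y0⁻¹ * (Yf q (y0 ^ 2)⁻¹ - Yf q (y0 ^ 2)) * lam (A ++ B) (y0 ^ 2)⁻¹ *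
        (∏ j, (Xf (y0 ^ 2) - Xf (y j ^ 2)) ^ 2) * DT g (y0 ^ 2 :: A ++ B) y := by
  have hx : y0 ^ 2 ≠ 0 := pow_ne_zero 2 hy0
  have e0 : (y0⁻¹) ^ 2 = (y0 ^ 2)⁻¹ := inv_pow y0 2
  have h := hTR g (A ++ B) (q * y0 ^ 2) M y0⁻¹ y hG (by rw [e0]; exact Xf_q hx)
  rw [e0, inv_inv, Xf_inv, DT_inv] at h
  have h1 := (hTP g (q * y0 ^ 2 :: (A ++ B)) (M + 1) (Fin.cons y0 y : Fin (M + 1) → ℂ)).2.2.2 0
    (by rw [Fin.cons_zero]; exact hy0)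
  rw [Fin.cons_zero, Fin.update_cons_zero] at h1
  have h2 : DT g (A ++ (B ++ [q * y0 ^ 2])) (Fin.cons y0 y : Fin (M + 1) → ℂ) =
      DT g (q * y0 ^ 2 :: (A ++ B)) (Fin.cons y0 y : Fin (M + 1) → ℂ) := by
    refine (hTP g _ (M + 1) (Fin.cons y0 y : Fin (M + 1) → ℂ)).2.1 _ ?_
    rw [← List.append_assoc]
    exact List.perm_append_singleton _ _
  rw [h1] at h
  rw [h2, YY, ← Finset.prod_pow]
  exact h

end TRB

open TRB in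
theorem t_RB (hTR : S_TR) (hTP : S_TP) : S_RB := by
  intro ε A B M y0 y hε hG
  have hq : q ^ 2 + q + 1 = 0 := TRB.hq
  have h3 : q ^ 3 = 1 := TRB.h3
  have hGx : Gn (prs (y0 ^ 2 :: List.ofFn (sq y))) := by
    rw [HB.TM1.prs_append] at hG
    exact HB.TM1.Gn_sub (List.sublist_append_right _ _) hG
  have hx : y0 ^ 2 ≠ 0 := hGx.1 _ (by rw [HB.TM1.prs_cons]; exact List.mem_cons_self)
  have hy0 : y0 ≠ 0 := fun h => hx (by rw [h]; ring)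
  have hmem : ∀ c ∈ A ++ B ++ y0 ^ 2 :: List.ofFn (sq y), c ≠ 0 := by
    intro c hc
    refine hG.1 c ?_
    unfold prs
    rw [List.mem_flatMap]
    exact ⟨c, hc, List.mem_cons_self⟩
  have hA : ∀ a ∈ A, a ≠ 0 := fun a ha => hmem a (by simp [ha])
  have hB : ∀ b ∈ B, b ≠ 0 := fun b hb => hmem b (by simp [hb])
  have hz : ∀ j, sq y j ≠ 0 := fun j => hmem _ (by
    refine List.mem_append_right _ (List.mem_cons_of_mem _ ?_)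
    exact List.mem_ofFn.2 ⟨j, rfl⟩)
  have hne : (y0 ^ 2) ^ 3 ≠ ((y0 ^ 2)⁻¹) ^ 3 := by
    rw [HB.TM1.prs_cons] at hGx
    exact HB.TM1.Gn_cons hGx _ List.mem_cons_self
  have e_sq : sq (Fin.cons y0 y : Fin (M + 1) → ℂ) = Fin.cons (y0 ^ 2) (sq y) := by
    funext i
    refine Fin.cases ?_ (fun i => ?_) i <;> simp [sq]
  have hGx' : Gn (prs ((y0⁻¹) ^ 2 :: List.ofFn (sq y))) := by
    refine HB.TM1.Gn_perm ?_ hGx
    rw [HB.TM1.prs_cons, HB.TM1.prs_cons, inv_pow, inv_inv]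
    exact List.Perm.swap _ _ _
  have hT1 := dets hTR hTP (g1 ε) A B M y0 y hy0 hGx'
  have hT2 := dets hTR hTP (g2 ε) A B M y0 y hy0 hGx'
  have hW := HB.TM1.wdx_cons' hq hx hz
  have hGG := legB hx B hB
  have hUU := legA hx ε A hA
  have hP1 := prs1 hx hz
  have hP2 := prs2 hx hz
  have hF1 := fA_leg (y0 ^ 2) B
  have hF2 := fB_leg hx (rv B)
  have hxi : y0 ^ 2 * (y0 ^ 2)⁻¹ = 1 := mul_inv_cancel₀ hx
  have hxx : (y0 ^ 2) ^ (2 * M) * (q ^ 2 * (y0 ^ 2)⁻¹) ^ (2 * M) = q ^ M := by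
    rw [← mul_pow]
    have e : y0 ^ 2 * (q ^ 2 * (y0 ^ 2)⁻¹) = q ^ 2 := by linear_combination q ^ 2 * hxi
    rw [e, ← pow_mul, show 2 * (2 * M) = 3 * M + M by ring, pow_add, pow_mul, h3, one_pow, one_mul]
  have hd : y0 ^ 2 - (y0 ^ 2)⁻¹ ≠ 0 := by
    intro h
    apply hne
    rw [← sub_eq_zero.1 h]
  have hZ : Xf (y0 ^ 2) - Yf q (y0 ^ 2)⁻¹ ≠ 0 := by
    have e : Xf (y0 ^ 2) - Yf q (y0 ^ 2)⁻¹ = (1 - q) * (y0 ^ 2 - q ^ 2 * (y0 ^ 2)⁻¹) := by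
      unfold Xf Yf
      rw [inv_inv]
      linear_combination (-(y0 ^ 2)⁻¹) * h3
    rw [e]
    refine mul_ne_zero (sub_ne_zero.2 (HB.TM1.q_ne1 hq).symm) ?_
    intro h
    apply hne
    have h' : y0 ^ 2 = q ^ 2 * (y0 ^ 2)⁻¹ := sub_eq_zero.1 h
    calc (y0 ^ 2) ^ 3 = (q ^ 2 * (y0 ^ 2)⁻¹) ^ 3 := congrArg (· ^ 3) h'
      _ = (q ^ 3) ^ 2 * ((y0 ^ 2)⁻¹) ^ 3 := by ring
      _ = _ := by rw [h3, one_pow, one_mul]
  have hsc := sc hx hd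
  have hs : kap ε A.length (B.length + 1) (M + 1) * (g1 ε y0⁻¹ * g2 ε y0⁻¹) *
        (Yf q (y0 ^ 2)⁻¹ - Yf q (y0 ^ 2)) ^ 2 =
      kap ε (A.length + 1) B.length M * q ^ M * q ^ (2 * B.length) *
        ((q - q ^ 2 * (y0 ^ 2)⁻¹) * (q * y0 ^ 2 - q ^ 2)) ^ ε *
        ((q * y0 ^ 2 - q ^ 2 * (y0 ^ 2)⁻¹) * (q * y0 ^ 2 * (y0 ^ 2)⁻¹ - q ^ 2) *
        ((q * y0 ^ 2 - q ^ 2 * (q ^ 2 * (y0 ^ 2)⁻¹)) *
          (q * y0 ^ 2 * (q ^ 2 * (y0 ^ 2)⁻¹) - q ^ 2)) *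
        (q * y0 ^ 2 - q ^ 2 * (y0 ^ 2)⁻¹)) * (Xf (y0 ^ 2) - Yf q (y0 ^ 2)⁻¹) ^ 2 := by
    have eg1 : g1 ε y0⁻¹ = KC.gs (y0 ^ 2)⁻¹ * sg ε y0⁻¹ := by
      unfold g1
      rw [inv_pow]
    have eg2 : g2 ε y0⁻¹ = gs2 (y0 ^ 2)⁻¹ * sg ε y0⁻¹ := by
      unfold g2
      rw [inv_pow]
    rw [eg1, eg2]
    obtain rfl | rfl : ε = 0 ∨ ε = 1 := by omega
    · rw [kap0]
      have es : sg 0 y0⁻¹ = 1 := by simp [sg]
      rw [es, pow_zero]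
      linear_combination (kap 0 (A.length + 1) B.length M * q ^ M * q ^ (2 * B.length)) * hsc
    · rw [kap1]
      have es : sg 1 y0⁻¹ = y0 - q * y0⁻¹ := by simp [sg]
      have hyi : y0 * y0⁻¹ = 1 := mul_inv_cancel₀ hy0
      have eE : (q - q ^ 2 * (y0 ^ 2)⁻¹) * (q * y0 ^ 2 - q ^ 2) = q ^ 2 * (y0 - q * y0⁻¹) ^ 2 := by
        rw [← inv_pow]
        linear_combination (-(q ^ 3 * (y0 * y0⁻¹ + 1)) + 2 * q ^ 3) * hyi
      rw [es, pow_one, eE]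
      linear_combination (kap 1 (A.length + 1) B.length M * q ^ M * q ^ (2 * B.length) * q ^ 2 *
        (y0 - q * y0⁻¹) ^ 2) * hsc + (kap 1 (A.length + 1) B.length M * q ^ M *
        q ^ (2 * B.length) * ((q - 1) ^ 2) * (KC.gs (y0 ^ 2)⁻¹ * gs2 (y0 ^ 2)⁻¹) *
        (Yf q (y0 ^ 2)⁻¹ - Yf q (y0 ^ 2)) ^ 2 * (y0 - q * y0⁻¹) ^ 2) * h3
  refine mul_right_cancel₀ (pow_ne_zero 2 hZ) ?_
  have hLA : lam (A ++ B) (y0 ^ 2)⁻¹ = lam A (y0 ^ 2)⁻¹ * lam B (y0 ^ 2)⁻¹ := by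
    unfold lam
    rw [List.map_append, List.prod_append]
  have hpA : pairs fA (B ++ [q * y0 ^ 2]) =
      pairs fA B * Pool.Agent.H988R2.Perc.fac (q * y0 ^ 2) B := by
    rw [Pool.Agent.H988R2.Perc.T10.pairs_append_singleton, hF1]
  have hpB : pairs fB (rv (B ++ [q * y0 ^ 2])) =
      Pool.Agent.H988R2.Perc.fac (y0 ^ 2)⁻¹ (rv B) * pairs fB (rv B) := by
    rw [rv_append, pairs, hF2]
  have hpf : pfq q (symA ε (y0 ^ 2 :: A)) =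
      (((symA ε A).map (fun c => q * c - q ^ 2 * (y0 ^ 2)⁻¹)).prod *
        (q * y0 ^ 2 - q ^ 2 * (y0 ^ 2)⁻¹)) *
      (pfq q (symA ε A) * ((symA ε A).map (fun c => q * y0 ^ 2 - q ^ 2 * c)).prod) := by
    rw [symA, List.cons_append, pfq, HB.TM1.pfq_append, List.map_append, List.prod_append,
      List.map_cons, List.map_nil, List.prod_cons, List.prod_nil, mul_one]
  have hD8 : (∏ j, (Xf (y0 ^ 2) - Xf (y j ^ 2)) ^ 8) =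
      (∏ j, (Xf (y0 ^ 2) - Xf (y j ^ 2)) ^ 2) ^ 4 := by
    rw [← Finset.prod_pow]
    refine Finset.prod_congr rfl fun j _ => ?_
    ring
  have hW' : wdx (sq (Fin.cons y0 y : Fin (M + 1) → ℂ)) =
      (∏ j, (Xf (y0 ^ 2) - Xf (y j ^ 2)) ^ 2) *
        (HB.TM1.YY (sq y) (Yf q (y0 ^ 2)) ^ 2 * HB.TM1.YY (sq y) (Yf q (y0 ^ 2)⁻¹) ^ 2) *
        wdx (sq y) := by
    rw [e_sq]
    exact hW
  unfold Rf
  rw [hpA, hpB, hpf, hD8, hW', fac_append, fac_append, fac_append, fac_cons, fac_nil, fac_cons,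
    fac_append, fac_append, hP1, hP2, List.length_append, List.length_singleton, List.length_cons]
  rw [hLA] at hT1 hT2
  generalize DT (g1 ε) (A ++ (B ++ [q * y0 ^ 2])) (Fin.cons y0 y : Fin (M + 1) → ℂ) = T1 at *
  generalize DT (g2 ε) (A ++ (B ++ [q * y0 ^ 2])) (Fin.cons y0 y : Fin (M + 1) → ℂ) = T2 at *
  generalize DT (g1 ε) (y0 ^ 2 :: A ++ B) y = R1 at *
  generalize DT (g2 ε) (y0 ^ 2 :: A ++ B) y = R2 at *
  generalize kap ε A.length (B.length + 1) (M + 1) = K1 at *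
  generalize kap ε (A.length + 1) B.length M = K2 at *
  generalize g1 ε y0⁻¹ = gv1 at *
  generalize g2 ε y0⁻¹ = gv2 at *
  generalize Yf q (y0 ^ 2)⁻¹ - Yf q (y0 ^ 2) = dY at *
  generalize Xf (y0 ^ 2) - Yf q (y0 ^ 2)⁻¹ = Z at *
  generalize HB.TM1.YY (sq y) (Yf q (y0 ^ 2)) = Y1 at *
  generalize HB.TM1.YY (sq y) (Yf q (y0 ^ 2)⁻¹) = Y2 at *
  generalize (∏ j, (Xf (y0 ^ 2) - Xf (y j ^ 2)) ^ 2) = D at *
  generalize lam A (y0 ^ 2)⁻¹ = LA at *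
  generalize lam B (y0 ^ 2)⁻¹ = LB at *
  generalize ((symA ε A).map (fun c => q * c - q ^ 2 * (y0 ^ 2)⁻¹)).prod = U1 at *
  generalize ((symA ε A).map (fun c => q * y0 ^ 2 - q ^ 2 * c)).prod = U2 at *
  generalize ((q - q ^ 2 * (y0 ^ 2)⁻¹) * (q * y0 ^ 2 - q ^ 2)) ^ ε = E at *
  generalize pfq q (symA ε A) = PS at *
  generalize pairs fA B = PA at *
  generalize pairs fB (rv B) = PB at *
  generalize wdx (sq y) = W at *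
  generalize Pool.Agent.H988R2.Perc.fac (q * y0 ^ 2) B = F1 at *
  generalize Pool.Agent.H988R2.Perc.fac (y0 ^ 2)⁻¹ (rv B) = F2 at *
  generalize Pool.Agent.H988R2.Perc.fac (q * y0 ^ 2) (rv B) = G1 at *
  generalize Pool.Agent.H988R2.Perc.fac (y0 ^ 2)⁻¹ B = G2 at *
  generalize (y0 ^ 2) ^ (2 * M) = x1 at *
  generalize (q ^ 2 * (y0 ^ 2)⁻¹) ^ (2 * M) = x2 at *
  generalize q ^ (2 * B.length) = ql at *
  generalize q ^ M = qM at *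
  generalize (q * y0 ^ 2 - q ^ 2 * (y0 ^ 2)⁻¹) = c0 at *
  generalize (q * y0 ^ 2 * (y0 ^ 2)⁻¹ - q ^ 2) = c1 at *
  generalize (q * y0 ^ 2 - q ^ 2 * (q ^ 2 * (y0 ^ 2)⁻¹)) = c2 at *
  generalize (q * y0 ^ 2 * (q ^ 2 * (y0 ^ 2)⁻¹) - q ^ 2) = c3 at *
  linear_combination (PS * PA * F1 * F2 * PB * W ^ 2 * D ^ 2 * Y1 ^ 4 * K1 * (T2 * Z * Y2 ^ 2)) * hT1
    + (PS * PA * F1 * F2 * PB * W ^ 2 * D ^ 2 * Y1 ^ 4 * K1 * (gv1 * dY * (LA * LB) * D * R1)) * hT2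
    + (PS * PA * F1 * F2 * PB * W ^ 2 * D ^ 2 * Y1 ^ 4 * (LA * LB) ^ 2 * D ^ 2 * R1 * R2) * hs
    - (PS * PA * F1 * F2 * PB * W ^ 2 * D ^ 2 * Y1 ^ 4 * D ^ 2 * R1 * R2 * K2 *
        (c0 * c1 * (c2 * c3) * c0) * Z ^ 2) *
      ((G1 * G2 * U1 * U2) * hxx + (qM * (U1 * U2)) * hGG + (qM * ql * LB ^ 2) * hUU)

end Pool.Agent.W808.KS
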