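import Pool.Agent.W808.KS.Stm
import Pool.Agent.W808.HB.T_M1
import Pool.Agent.W493.KS.Two

/-!
# Two legs below: quotient by `pfq` (task KS-RU)
-/

set_option autoImplicit false

namespace Pool.Agent.W808.KS
open Pool.Agent.H863R2.Cyl
open Pool.Agent.H160R2.ML (pfq Gn)

namespace TRU

open Pool.Agent.W808.HB.TM1 (pfq_append Gn_perm Gn_sub Gn_cons Gn_append map_scale)
open Pool.Agent.W493.KS
open Polynomial

theorem q3 : q ^ 3 = 1 := Pool.Agent.H988R2.Perc.q_cube
theorem q0 : q ≠ 0 := Pool.Agent.H988R2.Perc.q_ne_zero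
theorem q1 : q ≠ 1 := Pool.Agent.H988R2.Perc.q_ne_one

/-! ### generic nodes -/

theorem exists_big (L : List ℂ) : ∃ N : ℕ, 1 ≤ N ∧ ∀ c ∈ L, ‖c‖ < N := by
  induction L with
  | nil => exact ⟨1, le_rfl, by simp⟩
  | cons x L ih =>
    obtain ⟨N, h1, h2⟩ := ih
    obtain ⟨M, hM⟩ := exists_nat_gt ‖x‖
    refine ⟨N + M, by omega, ?_⟩
    intro c hc
    push_cast
    have hN : (0 : ℝ) ≤ N := Nat.cast_nonneg _
    have hM' : (0 : ℝ) ≤ M := Nat.cast_nonneg _
    rcases List.mem_cons.1 hc with rfl | hc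
    · linarith
    · have := h2 c hc
      linarith

theorem cube_norm {x c : ℂ} (h : ‖x‖ ≠ ‖c‖) : x ^ 3 ≠ c ^ 3 := by
  intro h1
  apply h
  have h2 : ‖x‖ ^ 3 = ‖c‖ ^ 3 := by rw [← norm_pow, ← norm_pow, h1]
  exact (pow_left_inj₀ (norm_nonneg _) (norm_nonneg _) (by norm_num)).1 h2

theorem Gn_mk {x : ℂ} {l : List ℂ} (hl : Gn l) (hx : x ≠ 0) (h : ∀ c ∈ l, x ^ 3 ≠ c ^ 3) :
    Gn (x :: l) := by
  refine ⟨?_, ?_⟩
  · intro y hy
    rcases List.mem_cons.1 hy with rfl | hy
    · exact hx
    · exact hl.1 y hy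
  · rw [List.map_cons, List.nodup_cons]
    refine ⟨?_, hl.2⟩
    intro h1
    rw [List.mem_map] at h1
    obtain ⟨c, hc, h2⟩ := h1
    exact h c hc h2.symm

theorem nodes {A : List ℂ} (hA : Gn A) : ∃ a b : ℕ → ℂ, Function.Injective a ∧
    Function.Injective b ∧ ∀ i j, Gn (a i :: A ++ [b j]) := by
  obtain ⟨N, hN1, hN⟩ := exists_big A
  refine ⟨fun i => ((N + 2 * i : ℕ) : ℂ), fun j => ((N + 2 * j + 1 : ℕ) : ℂ), ?_, ?_, ?_⟩
  · intro i j h
    simp only at h
    have h1 : N + 2 * i = N + 2 * j := by exact_mod_cast h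
    omega
  · intro i j h
    simp only at h
    have h1 : N + 2 * i + 1 = N + 2 * j + 1 := by exact_mod_cast h
    omega
  · intro i j
    have hp : ((((N + 2 * i : ℕ) : ℂ)) :: ((N + 2 * j + 1 : ℕ) : ℂ) :: A).Perm
        (((N + 2 * i : ℕ) : ℂ) :: A ++ [((N + 2 * j + 1 : ℕ) : ℂ)]) := by
      rw [List.cons_append]
      refine List.Perm.cons _ ?_
      exact (List.perm_append_singleton _ _).symm
    refine Gn_perm hp ?_
    have hn : ∀ k : ℕ, ∀ c ∈ A, ((N + k : ℕ) : ℂ) ^ 3 ≠ c ^ 3 := by
      intro k c hc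
      apply cube_norm
      rw [Complex.norm_natCast]
      have h1 := hN c hc
      have h2 : (0 : ℝ) ≤ k := Nat.cast_nonneg _
      push_cast
      intro h3
      linarith
    refine Gn_mk (Gn_mk hA ?_ ?_) ?_ ?_
    · exact_mod_cast (by omega : N + 2 * j + 1 ≠ 0)
    · intro c hc
      have := hn (2 * j + 1) c hc
      rwa [← add_assoc] at this
    · exact_mod_cast (by omega : N + 2 * i ≠ 0)
    · intro c hc
      rcases List.mem_cons.1 hc with rfl | hc
      · apply cube_norm
        rw [Complex.norm_natCast, Complex.norm_natCast]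
        intro h
        have h1 : N + 2 * i = N + 2 * j + 1 := by exact_mod_cast h
        omega
      · exact hn (2 * i) c hc

/-! ### the exchange relation -/

/-- the exchange relation -/
def Ex (E : List ℂ → ℂ) : Prop := ∀ (u v : List ℂ) (x y : ℂ),
  (q * y - q ^ 2 * x) * E (u ++ y :: x :: v) = (q * x - q ^ 2 * y) * E (u ++ x :: y :: v)

theorem fac_ne {x y : ℂ} (h : x ^ 3 ≠ y ^ 3) : q * y - q ^ 2 * x ≠ 0 := by
  intro h1
  apply h
  have h2 : y = q * x := by
    have h3 : q ^ 2 * (q * y - q ^ 2 * x) = 0 := by rw [h1, mul_zero]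
    linear_combination h3 - (y - q * x) * q3
  rw [h2, mul_pow, q3, one_mul]

theorem pfq_ne {l : List ℂ} (h : Gn l) : pfq q l ≠ 0 := by
  induction l with
  | nil => simp [pfq]
  | cons a l ih =>
    rw [pfq]
    refine mul_ne_zero ?_ (ih (Gn_sub (List.sublist_cons_self a l) h))
    rw [Ne, List.prod_eq_zero_iff, List.mem_map]
    rintro ⟨b, hb, h0⟩
    exact fac_ne (Gn_cons h b hb) h0

theorem pfq_swap (u v : List ℂ) (x y : ℂ) :
    (q * y - q ^ 2 * x) * pfq q (u ++ y :: x :: v) =
      (q * x - q ^ 2 * y) * pfq q (u ++ x :: y :: v) := by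
  induction u with
  | nil =>
    simp only [List.nil_append, pfq, List.map_cons, List.prod_cons]
    ring
  | cons a u ih =>
    simp only [List.cons_append, pfq, List.map_append, List.map_cons, List.prod_append,
      List.prod_cons]
    linear_combination ((u.map (fun b => q * b - q ^ 2 * a)).prod *
      (v.map (fun b => q * b - q ^ 2 * a)).prod * (q * x - q ^ 2 * a) * (q * y - q ^ 2 * a)) * ih

theorem perm {E : List ℂ → ℂ} (hE : Ex E) {l l' : List ℂ} (h : l.Perm l') :
    ∀ u, Gn (u ++ l) → E (u ++ l) * pfq q (u ++ l') = E (u ++ l') * pfq q (u ++ l) := by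
  induction h with
  | nil => intro u _; rfl
  | @cons x l l' _ ih =>
    intro u hu
    have h1 := ih (u ++ [x]) (by simpa using hu)
    simpa using h1
  | @swap x y l =>
    intro u hu
    have h1 := hE u l x y
    have h2 := pfq_swap u l x y
    have h3 : x ^ 3 ≠ y ^ 3 := by
      have h4 := Gn_cons (Gn_sub (List.sublist_append_right u (y :: x :: l)) hu) x
        List.mem_cons_self
      exact fun h5 => h4 h5.symm
    have h4 := fac_ne h3
    apply mul_left_cancel₀ h4
    linear_combination pfq q (u ++ x :: y :: l) * h1 - E (u ++ x :: y :: l) * h2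
  | @trans l1 l2 l3 h12 h23 ih1 ih2 =>
    intro u hu
    have hu2 : Gn (u ++ l2) := Gn_perm (List.Perm.append_left u h12) hu
    have h1 := ih1 u hu
    have h2 := ih2 u hu2
    apply mul_left_cancel₀ (pfq_ne hu2)
    linear_combination pfq q (u ++ l3) * h1 + pfq q (u ++ l1) * h2

theorem move {E : List ℂ → ℂ} (hE : Ex E) (x : ℂ) (v : List ℂ) : ∀ u : List ℂ,
    (v.map (fun a => q * a - q ^ 2 * x)).prod * E (u ++ v ++ [x]) =
      (v.map (fun a => q * x - q ^ 2 * a)).prod * E (u ++ x :: v) := by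
  induction v with
  | nil => intro u; simp
  | cons a v ih =>
    intro u
    have h1 := ih (u ++ [a])
    have h2 := hE u v x a
    have e2 : u ++ [a] ++ v ++ [x] = u ++ (a :: v) ++ [x] := by simp
    have e3 : u ++ [a] ++ x :: v = u ++ a :: x :: v := by simp
    rw [e2, e3] at h1
    rw [List.map_cons, List.prod_cons, List.map_cons, List.prod_cons, mul_assoc, h1]
    linear_combination (v.map (fun a => q * x - q ^ 2 * a)).prod * h2

theorem van {E : List ℂ → ℂ} (hE : Ex E) {A : List ℂ} (hA : Gn A) {a : ℂ} (ha : a ∈ A) :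
    E (A ++ [q * a]) = 0 := by
  obtain ⟨u, v, rfl⟩ := List.append_of_mem ha
  have hGv : ∀ b ∈ v, a ^ 3 ≠ b ^ 3 := Gn_cons (Gn_sub (List.sublist_append_right u (a :: v)) hA)
  have h1 := move hE (q * a) v (u ++ [a])
  have h2 := hE u v (q * a) a
  have ha0 : a ≠ 0 := hA.1 a ha
  have h4 : E (u ++ a :: (q * a) :: v) = 0 := by
    have h5 : (q * a - q ^ 2 * (q * a)) * E (u ++ a :: (q * a) :: v) = 0 := by
      rw [h2]
      ring
    rcases mul_eq_zero.1 h5 with h6 | h6
    · exfalso
      have h7 : (q - 1) * a = 0 := by linear_combination h6 + a * q3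
      rcases mul_eq_zero.1 h7 with h8 | h8
      · exact q1 (sub_eq_zero.1 h8)
      · exact ha0 h8
    · exact h6
  have e2 : u ++ [a] ++ v ++ [q * a] = u ++ (a :: v) ++ [q * a] := by simp
  have e3 : u ++ [a] ++ (q * a) :: v = u ++ a :: (q * a) :: v := by simp
  rw [e2, e3, h4, mul_zero] at h1
  rcases mul_eq_zero.1 h1 with h6 | h6
  · exfalso
    rw [List.prod_eq_zero_iff, List.mem_map] at h6
    obtain ⟨b, hb, h7⟩ := h6
    apply hGv b hb
    have h8 : a = q * b := by linear_combination -h7 - a * q3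
    rw [h8, mul_pow, q3, one_mul]
  · exact h6

/-- the quotient in the last leg -/
theorem slice {E : List ℂ → ℂ} (hE : Ex E) {l : List ℂ} (hl : Gn l) (n : ℕ)
    (hP : ∃ P : ℂ[X], P.natDegree ≤ l.length + n ∧ ∀ x, P.eval x = E (l ++ [x])) :
    ∃ Q : ℂ[X], Q.natDegree ≤ n ∧ ∀ u, E (l ++ [u]) = pfq q (l ++ [u]) * Q.eval u := by
  obtain ⟨P, hPd, hP⟩ := hP
  have hnd : (l.map (fun b => q * b)).Nodup := by
    refine List.Nodup.map_on ?_ (List.Nodup.of_map _ hl.2)
    intro b _ c _ h5
    exact mul_left_cancel₀ q0 h5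
  obtain ⟨Q, hQd, hQ⟩ := list_div n (l.map (fun b => q * b)) P hnd (by
    intro z hz
    rw [List.mem_map] at hz
    obtain ⟨c, hc, rfl⟩ := hz
    rw [hP]
    exact van hE hl hc) (by rw [List.length_map]; exact hPd)
  have hk : pfq q l * q ^ l.length ≠ 0 := mul_ne_zero (pfq_ne hl) (pow_ne_zero _ q0)
  refine ⟨C ((pfq q l * q ^ l.length)⁻¹) * Q, (natDegree_C_mul_le _ _).trans hQd, ?_⟩
  intro u
  have h1 : (((l.map (fun b => q * b)).map (fun z => X - C z)).prod).eval u =
      (l.map (fun c => u - q * c)).prod := by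
    rw [Polynomial.eval_list_prod, List.map_map, List.map_map]
    congr 1
    refine List.map_congr_left fun b _ => ?_
    simp
  rw [← hP, hQ, eval_mul, h1, pfq_append, eval_mul, eval_C,
    map_scale l (fun a => q * u - q ^ 2 * a) (fun c => u - q * c) q (fun a => by ring)]
  have h2 : (pfq q l * q ^ l.length)⁻¹ * (pfq q l * q ^ l.length) = 1 := inv_mul_cancel₀ hk
  linear_combination (-(l.map (fun c => u - q * c)).prod * Q.eval u) * h2

end TRU

open TRU Pool.Agent.W493.KS Polynomial Pool.Agent.W808.HB.TM1 in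
theorem t_RU : S_exA → S_dg → S_RU := by
  intro hX hD Ψ hF A B1 B2 z hz hA
  set E : List ℂ → ℂ := fun l => HH Ψ l B1 B2 z with hEd
  have hE : Ex E := fun u v x y => hX Ψ hF u v B1 B2 z x y hz
  obtain ⟨a, b, ha, hb, hab⟩ := nodes hA
  have hal : ∀ i, Gn (a i :: A) := fun i => Gn_sub (List.sublist_append_left _ [b 0]) (hab i 0)
  have hp1 : ∀ i j, (a i :: A ++ [b j]).Perm (b j :: A ++ [a i]) := by
    intro i j
    have h1 : (a i :: A ++ [b j]).Perm (b j :: a i :: A) := List.perm_append_singleton _ _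
    have h2 : (b j :: A ++ [a i]).Perm (b j :: a i :: A) := by
      rw [List.cons_append]
      exact (List.perm_append_singleton _ _).cons _
    exact h1.trans h2.symm
  have hba : ∀ i j, Gn (b j :: A ++ [a i]) := fun i j => Gn_perm (hp1 i j) (hab i j)
  have hbl : ∀ i, Gn (b i :: A) := fun i => Gn_sub (List.sublist_append_left _ [a 0]) (hba 0 i)
  have hdeg : ∀ l : List ℂ, ∃ P : ℂ[X], P.natDegree ≤ l.length + z.length ∧
      ∀ x, P.eval x = E (l ++ [x]) := by
    intro l
    obtain ⟨P, h1, h2⟩ := hD Ψ hF l [] B1 B2 z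
    exact ⟨P, by simpa using h1, h2⟩
  have hpoly : ∀ l : List ℂ, ∃ P : ℂ[X], ∀ x, P.eval x = E (x :: l) := by
    intro l
    obtain ⟨P, _, h2⟩ := hD Ψ hF [] l B1 B2 z
    exact ⟨P, h2⟩
  have hpolyp : ∀ l : List ℂ, ∃ P : ℂ[X], ∀ x, P.eval x = pfq q (x :: l) := by
    intro l
    refine ⟨(l.map (fun b => C (q * b) - C (q ^ 2) * X)).prod * C (pfq q l), ?_⟩
    intro x
    rw [pfq, eval_mul, eval_C, Polynomial.eval_list_prod, List.map_map]
    congr 2
    refine List.map_congr_left fun b _ => ?_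
    simp
  have hq2 := quot2 (n := z.length) (E := fun u v => E (v :: A ++ [u]))
    (p := fun u v => pfq q (v :: A ++ [u])) ha hb
    (fun m => slice hE (hal m) z.length (hdeg _))
    (by
      intro m
      obtain ⟨Q, hQd, hQ⟩ := slice hE (hbl m) z.length (hdeg _)
      refine ⟨Q, hQd, ?_⟩
      obtain ⟨P1, hP1⟩ := hpoly (A ++ [b m])
      obtain ⟨P2, hP2⟩ := hpolyp (A ++ [b m])
      have h1 : P1 = P2 * Q := by
        apply poly_ext ha
        intro i
        rw [eval_mul, hP1, hP2]
        have h2 := perm hE (hp1 i m) [] (by simpa using hab i m)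
        simp only [List.nil_append] at h2
        rw [hQ (a i)] at h2
        have h3 := pfq_ne (hba i m)
        apply mul_left_cancel₀ h3
        simp only [List.cons_append] at h2 ⊢
        linear_combination h2
      intro v
      have h2 := hP1 v
      rw [h1, eval_mul, hP2] at h2
      simp only [List.cons_append] at h2 ⊢
      exact h2.symm)
    (fun i j => pfq_ne (hab j i))
    (fun u => by
      obtain ⟨P, hP⟩ := hpoly (A ++ [u])
      exact ⟨P, fun v => by rw [hP]; simp⟩)
    (fun u => by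
      obtain ⟨P, hP⟩ := hpolyp (A ++ [u])
      exact ⟨P, fun v => by rw [hP]; simp⟩)
  obtain ⟨r, hr⟩ := hq2
  have hsw : ∀ u v, S2 z.length (fun i j => r j i) u v = S2 z.length r v u := by
    intro u v
    unfold S2
    rw [Finset.sum_comm]
    refine Finset.sum_congr rfl fun i _ => Finset.sum_congr rfl fun j _ => ?_
    ring
  have hu := uniq (n := z.length) (r := r) (r' := fun i j => r j i) ha hb (by
    intro m m'
    rw [hsw]
    have h1 := hr (b m) (a m')
    have h2 := hr (a m') (b m)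
    have h3 := perm hE (hp1 m' m) [] (by simpa using hab m' m)
    simp only [List.nil_append] at h3
    rw [h1, h2] at h3
    have h4 := mul_ne_zero (pfq_ne (hab m' m)) (pfq_ne (hba m' m))
    apply mul_left_cancel₀ h4
    linear_combination h3)
  refine ⟨fun i j => if i ≤ z.length ∧ j ≤ z.length then r i j else 0, ?_, ?_⟩
  · intro i j
    show (if i ≤ z.length ∧ j ≤ z.length then r i j else 0) =
      (if j ≤ z.length ∧ i ≤ z.length then r j i else 0)
    by_cases h : i ≤ z.length ∧ j ≤ z.length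
    · rw [if_pos h, if_pos h.symm]
      exact hu i j h.1 h.2
    · rw [if_neg h, if_neg (fun h' => h h'.symm)]
  · intro u v
    have h1 := hr u v
    have h2 : S2 z.length r u v = ∑ i ∈ Finset.range (z.length + 1),
        ∑ j ∈ Finset.range (z.length + 1),
          (if i ≤ z.length ∧ j ≤ z.length then r i j else 0) * u ^ i * v ^ j := by
      unfold S2
      refine Finset.sum_congr rfl fun i hi => Finset.sum_congr rfl fun j hj => ?_
      rw [Finset.mem_range] at hi hj
      rw [if_pos ⟨by omega, by omega⟩]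
    rw [← h2]
    exact h1

end Pool.Agent.W808.KS
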