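import Pool.Agent.W808.KS.Stm
import Pool.Agent.W808.HB.T_M1
import Pool.Agent.H988R2.Perc.T03
import Pool.Agent.H988R2.Perc.T13
import Pool.Agent.W493.KS.Two

/-!
# Two legs above, one at each side: quotient (task KS-RV)
-/

set_option autoImplicit false

namespace Pool.Agent.W808.KS
open Pool.Agent.H863R2.Cyl
open Pool.Agent.H988R2.Perc (Word PD Dyck LP Fw)
open Pool.Agent.H988R2.Perc.T10 (pairs fA fB pairs_append_singleton)
open Pool.Agent.H160R2.ML (pfq Gn)
open Pool.Agent.W808.HB (prs)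

namespace TRV

open Pool.Agent.W808.HB.TM1 (Gn_perm Gn_sub Gn_cons Gn_append map_scale prs_cons prs_len prs_prod
  mem_prs)
open Pool.Agent.W493.KS
open Polynomial

theorem q3 : q ^ 3 = 1 := Pool.Agent.H988R2.Perc.q_cube
theorem q0 : q ≠ 0 := Pool.Agent.H988R2.Perc.q_ne_zero
theorem q1 : q ≠ 1 := Pool.Agent.H988R2.Perc.q_ne_one
theorem q2s : q ^ 2 + q + 1 = 0 := Pool.Agent.H988R2.Perc.q_spec

theorem q2s' : (q ^ 2) ^ 2 + q ^ 2 + 1 = 0 := by
  linear_combination q * q3 + q2s

/-! ### generic values -/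

theorem exists_big (L : List ℂ) : ∃ N : ℕ, 1 ≤ N ∧ ∀ c ∈ L, ‖c‖ < N := by
  induction L with
  | nil => exact ⟨1, le_rfl, by simp⟩
  | cons x L ih =>
    obtain ⟨N, h1, h2⟩ := ih
    obtain ⟨M, hM⟩ := exists_nat_gt ‖x‖
    refine ⟨N + M, by omega, ?_⟩
    intro c hc
    push_cast
    have hN : (0 : ℝ) ≤ N := Nat.cast_nonneg _
    have hM' : (0 : ℝ) ≤ M := Nat.cast_nonneg _
    rcases List.mem_cons.1 hc with rfl | hc
    · linarith
    · have := h2 c hc
      linarith

theorem cube_norm {x c : ℂ} (h : ‖x‖ ≠ ‖c‖) : x ^ 3 ≠ c ^ 3 := by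
  intro h1
  apply h
  have h2 : ‖x‖ ^ 3 = ‖c‖ ^ 3 := by rw [← norm_pow, ← norm_pow, h1]
  exact (pow_left_inj₀ (norm_nonneg _) (norm_nonneg _) (by norm_num)).1 h2

/-- generic with respect to the list `B` -/
def Gx (B : List ℂ) (x : ℂ) : Prop := x ≠ 0 ∧ ∀ c ∈ B, x ^ 3 ≠ c ^ 3 ∧ (x * c) ^ 3 ≠ 1

theorem nodes (B : List ℂ) : ∃ a : ℕ → ℂ, Function.Injective a ∧ ∀ i, Gx B (a i) := by
  obtain ⟨N, hN1, hN⟩ := exists_big (B ++ B.map (fun c => c⁻¹))
  refine ⟨fun i => ((N + i : ℕ) : ℂ), ?_, ?_⟩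
  · intro i j h
    simp only at h
    have h1 : N + i = N + j := by exact_mod_cast h
    omega
  · intro i
    have hx : ((N + i : ℕ) : ℂ) ≠ 0 := by exact_mod_cast (by omega : N + i ≠ 0)
    have hi : (0 : ℝ) ≤ i := Nat.cast_nonneg _
    refine ⟨hx, ?_⟩
    intro c hc
    constructor
    · apply cube_norm
      rw [Complex.norm_natCast]
      have h1 := hN c (List.mem_append_left _ hc)
      push_cast
      intro h3
      linarith
    · intro h
      have h1 := hN c⁻¹ (List.mem_append_right _ (List.mem_map_of_mem hc))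
      have hc0 : c ≠ 0 := by
        rintro rfl
        rw [mul_zero] at h
        norm_num at h
      have h2 : ((N + i : ℕ) : ℂ) ^ 3 ≠ c⁻¹ ^ 3 := by
        apply cube_norm
        rw [Complex.norm_natCast]
        push_cast
        intro h3
        linarith
      apply h2
      rw [mul_pow] at h
      rw [inv_pow]
      exact eq_inv_of_mul_eq_one_left h

theorem prs_perm_append (l : List ℂ) : (prs l).Perm (l ++ l.map (fun x => x⁻¹)) := by
  induction l with
  | nil => exact List.Perm.refl _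
  | cons x l ih =>
    rw [prs_cons, List.map_cons, List.cons_append]
    refine List.Perm.cons _ ?_
    exact (ih.cons _).trans List.perm_middle.symm

theorem Gn_ninv {l : List ℂ} (h : Gn (prs l)) : ∀ b ∈ l, ∀ c ∈ l, b ^ 3 ≠ c⁻¹ ^ 3 := by
  intro b hb c hc
  exact Gn_append (Gn_perm (prs_perm_append l) h) b hb c⁻¹
    (List.mem_map_of_mem (f := fun x : ℂ => x⁻¹) hc)

theorem Gn_self {l : List ℂ} (h : Gn (prs l)) : Gn l :=
  Gn_sub (List.sublist_append_left l _) (Gn_perm (prs_perm_append l) h)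

theorem prod_ne {A : List ℂ} {f : ℂ → ℂ} (h : ∀ b ∈ A, f b ≠ 0) : (A.map f).prod ≠ 0 := by
  rw [Ne, List.prod_eq_zero_iff, List.mem_map]
  rintro ⟨a, ha, h0⟩
  exact h a ha h0

/-! ### the exchange relation for a cube root of unity -/

/-- the exchange relation -/
def ExR (r : ℂ) (E : List ℂ → ℂ) : Prop := ∀ (u v : List ℂ) (x y : ℂ),
  (x - r * y) * E (u ++ y :: x :: v) = (y - r * x) * E (u ++ x :: y :: v)

section
variable {r : ℂ} (hr : r ^ 2 + r + 1 = 0)
include hr

theorem r3 : r ^ 3 = 1 := by linear_combination (r - 1) * hr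

theorem r0 : r ≠ 0 := by
  rintro rfl
  norm_num at hr

theorem r1 : r ≠ 1 := by
  rintro rfl
  norm_num at hr

theorem cne {u v : ℂ} (h : u ^ 3 ≠ v ^ 3) (i j : ℕ) : r ^ i * u ≠ r ^ j * v := by
  intro he
  apply h
  have h3 := r3 hr
  have h4 : (r ^ i * u) ^ 3 = (r ^ j * v) ^ 3 := by rw [he]
  have h5 : (r ^ i * u) ^ 3 = (r ^ 3) ^ i * u ^ 3 := by ring
  have h6 : (r ^ j * v) ^ 3 = (r ^ 3) ^ j * v ^ 3 := by ring
  rw [h5, h6, h3, one_pow, one_pow, one_mul, one_mul] at h4
  exact h4

omit hr in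
theorem move {E : List ℂ → ℂ} (hE : ExR r E) (x : ℂ) (w v : List ℂ) : ∀ u : List ℂ,
    (v.map (fun c => x - r * c)).prod * E (u ++ v ++ x :: w) =
      (v.map (fun c => c - r * x)).prod * E (u ++ x :: (v ++ w)) := by
  induction v with
  | nil => intro u; simp
  | cons c v ih =>
    intro u
    have h1 := ih (u ++ [c])
    have h2 := hE u (v ++ w) x c
    have e2 : u ++ [c] ++ v ++ x :: w = u ++ (c :: v) ++ x :: w := by simp
    have e3 : u ++ [c] ++ x :: (v ++ w) = u ++ c :: x :: (v ++ w) := by simp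
    rw [e2, e3] at h1
    rw [List.map_cons, List.prod_cons, List.map_cons, List.prod_cons, mul_assoc, h1,
      List.cons_append]
    linear_combination (v.map (fun c => c - r * x)).prod * h2

theorem van1 {E : List ℂ → ℂ} (hE : ExR r E) {B : List ℂ} (hB : Gn (prs B)) {c : ℂ} (hc : c ∈ B) :
    E (B ++ [r ^ 2 * c]) = 0 := by
  have h3 := r3 hr
  have hGB := Gn_self hB
  obtain ⟨s, t, rfl⟩ := List.append_of_mem hc
  have hGt : ∀ b ∈ t, c ^ 3 ≠ b ^ 3 := Gn_cons (Gn_sub (List.sublist_append_right s (c :: t)) hGB)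
  have hc0 : c ≠ 0 := hGB.1 c hc
  have h1 := move hE (r ^ 2 * c) [] t (s ++ [c])
  have h2 := hE s t (r ^ 2 * c) c
  have h4 : E (s ++ c :: (r ^ 2 * c) :: t) = 0 := by
    have h5 : (r ^ 2 * c - r * c) * E (s ++ c :: (r ^ 2 * c) :: t) = 0 := by
      rw [h2]
      linear_combination (-c * E (s ++ (r ^ 2 * c) :: c :: t)) * h3
    rcases mul_eq_zero.1 h5 with h6 | h6
    · exfalso
      have h7 : r * c * (r - 1) = 0 := by linear_combination h6
      rcases mul_eq_zero.1 h7 with h8 | h8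
      · exact mul_ne_zero (r0 hr) hc0 h8
      · exact r1 hr (sub_eq_zero.1 h8)
    · exact h6
  have e2 : s ++ [c] ++ t ++ (r ^ 2 * c) :: [] = s ++ (c :: t) ++ [r ^ 2 * c] := by simp
  have e3 : s ++ [c] ++ (r ^ 2 * c) :: (t ++ []) = s ++ c :: (r ^ 2 * c) :: t := by simp
  rw [e2, e3, h4, mul_zero] at h1
  rcases mul_eq_zero.1 h1 with h6 | h6
  · exfalso
    refine prod_ne (fun b hb => ?_) h6
    have := cne hr (hGt b hb) 2 1
    rw [pow_one] at this
    exact sub_ne_zero.2 this
  · exact h6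

theorem van2 {E : List ℂ → ℂ} (hE : ExR r E) {B : List ℂ} (hB : Gn (prs B)) {D : ℕ}
    (hI : ∀ x, x ≠ 0 → E (x :: B) = x ^ D * E (x⁻¹ :: B)) {c : ℂ} (hc : c ∈ B) :
    E (B ++ [r ^ 2 * c⁻¹]) = 0 := by
  have h3 := r3 hr
  have hr0 := r0 hr
  have hGB := Gn_self hB
  have hinv := Gn_ninv hB
  have hc0 : c ≠ 0 := hGB.1 c hc
  have ha0 : r ^ 2 * c⁻¹ ≠ 0 := mul_ne_zero (pow_ne_zero 2 hr0) (inv_ne_zero hc0)
  have hai : (r ^ 2 * c⁻¹)⁻¹ = r * c := by
    rw [mul_inv, inv_inv]
    congr 1
    exact (eq_inv_of_mul_eq_one_left (by linear_combination h3)).symm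
  have h1 := move hE (r ^ 2 * c⁻¹) [] B []
  have h2 := hI (r ^ 2 * c⁻¹) ha0
  rw [hai] at h2
  have h5 : E ((r * c) :: B) = 0 := by
    obtain ⟨s, t, rfl⟩ := List.append_of_mem hc
    have hGs : ∀ b ∈ s, b ^ 3 ≠ c ^ 3 := fun b hb => Gn_append hGB b hb c List.mem_cons_self
    have h4 := move hE (r * c) (c :: t) s []
    have h6 := hE s t c (r * c)
    have h7 : E (s ++ (r * c) :: c :: t) = 0 := by
      have h8 : (c - r * (r * c)) * E (s ++ (r * c) :: c :: t) = 0 := by
        rw [h6]; ring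
      rcases mul_eq_zero.1 h8 with h9 | h9
      · exfalso
        have h10 : (r - 1) * c = 0 := by linear_combination r * h9 + c * h3
        rcases mul_eq_zero.1 h10 with h8 | h8
        · exact r1 hr (sub_eq_zero.1 h8)
        · exact hc0 h8
      · exact h9
    rw [List.nil_append, h7, mul_zero, List.nil_append] at h4
    rcases mul_eq_zero.1 h4.symm with h8 | h8
    · exfalso
      refine prod_ne (fun b hb => ?_) h8
      have := cne hr (hGs b hb) 0 2
      intro h9
      apply this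
      linear_combination h9
    · exact h8
  rw [h5, mul_zero] at h2
  rw [List.nil_append, List.nil_append, List.append_nil, h2, mul_zero] at h1
  rcases mul_eq_zero.1 h1 with h8 | h8
  · exfalso
    refine prod_ne (fun b hb => ?_) h8
    intro h9
    apply cne hr (hinv b hb c hc) 1 2
    linear_combination -h9
  · exact h8

/-- the factor -/
noncomputable def DD (r : ℂ) (B : List ℂ) (u : ℂ) : ℂ :=
  (B.map (fun c => (u - r ^ 2 * c) * (u * c - r ^ 2))).prod

theorem DD_ne {B : List ℂ} {x : ℂ} (hx : Gx B x) : DD r B x ≠ 0 := by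
  refine prod_ne (fun c hc => ?_)
  obtain ⟨h1, h2⟩ := hx.2 c hc
  refine mul_ne_zero ?_ ?_
  · have := cne hr h1 0 2
    intro h9
    apply this
    linear_combination h9
  · have := cne hr (u := x * c) (v := 1) (by rw [one_pow]; exact h2) 0 2
    intro h9
    apply this
    linear_combination h9

theorem slice {E : List ℂ → ℂ} (hE : ExR r E) {B : List ℂ} (hB : Gn (prs B)) {n : ℕ}
    (hI : ∀ x, x ≠ 0 → E (x :: B) = x ^ (2 * B.length + n) * E (x⁻¹ :: B))
    (hP : ∃ P : ℂ[X], P.natDegree ≤ 2 * B.length + n ∧ ∀ x, P.eval x = E (B ++ [x])) :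
    ∃ Q : ℂ[X], Q.natDegree ≤ n ∧ ∀ u, E (B ++ [u]) = DD r B u * Q.eval u := by
  obtain ⟨P, hPd, hP⟩ := hP
  have hr2 : r ^ 2 ≠ 0 := pow_ne_zero 2 (r0 hr)
  have hnd : ((prs B).map (fun b => r ^ 2 * b)).Nodup := by
    refine List.Nodup.map_on ?_ (List.Nodup.of_map _ hB.2)
    intro b _ c _ h5
    exact mul_left_cancel₀ hr2 h5
  obtain ⟨Q, hQd, hQ⟩ := list_div n ((prs B).map (fun b => r ^ 2 * b)) P hnd (by
    intro z hz
    rw [List.mem_map] at hz
    obtain ⟨c', hc', rfl⟩ := hz
    rw [hP]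
    obtain ⟨c, hc, h | h⟩ := mem_prs hc'
    · rw [h]; exact van1 hr hE hB hc
    · rw [h]; exact van2 hr hE hB hI hc) (by rw [List.length_map, prs_len]; exact hPd)
  have hk : B.prod ≠ 0 := by
    rw [Ne, List.prod_eq_zero_iff]
    intro h
    exact (Gn_self hB).1 0 h rfl
  refine ⟨C (B.prod⁻¹) * Q, (natDegree_C_mul_le _ _).trans hQd, ?_⟩
  intro u
  have h1 : ((((prs B).map (fun b => r ^ 2 * b)).map (fun z => X - C z)).prod).eval u =
      ((prs B).map (fun c => u - r ^ 2 * c)).prod := by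
    rw [Polynomial.eval_list_prod, List.map_map, List.map_map]
    congr 1
    refine List.map_congr_left fun b _ => ?_
    simp
  have h2 : ∀ l : List ℂ, (∀ c ∈ l, c ≠ 0) → DD r l u =
      l.prod * (l.map (fun x => (u - r ^ 2 * x) * (u - r ^ 2 * x⁻¹))).prod := by
    intro l
    induction l with
    | nil => intro _; simp [DD]
    | cons c l ih =>
      intro hl
      have h3 := ih (fun b hb => hl b (List.mem_cons_of_mem _ hb))
      have hc0 := hl c List.mem_cons_self
      have h4 : DD r (c :: l) u = (u - r ^ 2 * c) * (u * c - r ^ 2) * DD r l u := rfl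
      rw [h4, h3, List.prod_cons, List.map_cons, List.prod_cons]
      have h5 : c * c⁻¹ = 1 := mul_inv_cancel₀ hc0
      linear_combination (-(u - r ^ 2 * c) * r ^ 2 *
        (-(l.prod * (l.map (fun x => (u - r ^ 2 * x) * (u - r ^ 2 * x⁻¹))).prod))) * h5
  rw [← hP, hQ, eval_mul, h1, prs_prod, h2 B (Gn_self hB).1, eval_mul, eval_C]
  have h3 : B.prod⁻¹ * B.prod = 1 := inv_mul_cancel₀ hk
  linear_combination (-(B.map (fun x => (u - r ^ 2 * x) * (u - r ^ 2 * x⁻¹))).prod * Q.eval u) * h3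

theorem symB {E : List ℂ → ℂ} (hE : ExR r E) {B : List ℂ} {n : ℕ}
    (hI : ∀ x, x ≠ 0 → E (x :: B) = x ^ (2 * B.length + n) * E (x⁻¹ :: B))
    {u : ℂ} (hu : Gx B u) :
    E (B ++ [u]) * DD r B u⁻¹ = u ^ n * DD r B u * E (B ++ [u⁻¹]) := by
  have hu0 := hu.1
  have h1 := move hE u [] B []
  have h2 := move hE u⁻¹ [] B []
  simp only [List.nil_append, List.append_nil] at h1 h2
  rw [hI u hu0] at h1
  have ha : (B.map (fun c => u - r * c)).prod ≠ 0 := by
    refine prod_ne (fun c hc => ?_)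
    have := cne hr (hu.2 c hc).1 0 1
    intro h9
    apply this
    linear_combination h9
  have hb : (B.map (fun c => u⁻¹ - r * c)).prod ≠ 0 := by
    refine prod_ne (fun c hc => ?_)
    intro h9
    have h10 : u * c = r ^ 2 := by
      have h11 : u * (u⁻¹ - r * c) = 0 := by rw [h9, mul_zero]
      have h12 : u * u⁻¹ = 1 := mul_inv_cancel₀ hu0
      linear_combination (-r ^ 2) * h11 + r ^ 2 * h12 - u * c * r3 hr
    apply (hu.2 c hc).2
    rw [h10]
    linear_combination (r ^ 3 + 1) * r3 hr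
  have key : ∀ l : List ℂ, (l.map (fun c => c - r * u)).prod * u ^ (2 * l.length) * DD r l u⁻¹ *
      (l.map (fun c => u⁻¹ - r * c)).prod =
      DD r l u * (l.map (fun c => u - r * c)).prod * (l.map (fun c => c - r * u⁻¹)).prod := by
    intro l
    induction l with
    | nil => simp [DD]
    | cons c l ih =>
      have e1 : ∀ x, DD r (c :: l) x = (x - r ^ 2 * c) * (x * c - r ^ 2) * DD r l x := fun _ => rfl
      rw [e1, e1, List.map_cons, List.prod_cons, List.map_cons, List.prod_cons, List.map_cons,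
        List.prod_cons, List.map_cons, List.prod_cons, List.length_cons]
      have h5 : (c - r * u) * u ^ 2 * ((u⁻¹ - r ^ 2 * c) * (u⁻¹ * c - r ^ 2)) * (u⁻¹ - r * c) =
          (u - r ^ 2 * c) * (u * c - r ^ 2) * (u - r * c) * (c - r * u⁻¹) := by
        have h3 := r3 hr
        have h6 : (c - r * u) * u ^ 2 * ((u⁻¹ - r ^ 2 * c) * (u⁻¹ * c - r ^ 2)) * (u⁻¹ - r * c) =
          u⁻¹ * ((c - r * u) * (1 - r ^ 2 * (c * u)) * (c - r ^ 2 * u) * (1 - r * (c * u))) := by
          field_simp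
        have h7 : (u - r ^ 2 * c) * (u * c - r ^ 2) * (u - r * c) * (c - r * u⁻¹) =
          u⁻¹ * ((u - r ^ 2 * c) * (u * c - r ^ 2) * (u - r * c) * (c * u - r)) := by
          field_simp
        have h8 : (c - r * u) * (c - r ^ 2 * u) = c ^ 2 + c * u + u ^ 2 := by
          linear_combination (-c * u) * hr + u ^ 2 * h3
        have h9 : (1 - r ^ 2 * (c * u)) * (1 - r * (c * u)) = 1 + c * u + (c * u) ^ 2 := by
          linear_combination (-c * u) * hr + (c * u) ^ 2 * h3
        have h10 : (u - r ^ 2 * c) * (u - r * c) = c ^ 2 + c * u + u ^ 2 := by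
          linear_combination (-c * u) * hr + c ^ 2 * h3
        have h11 : (u * c - r ^ 2) * (c * u - r) = 1 + c * u + (c * u) ^ 2 := by
          linear_combination (-c * u) * hr + h3
        rw [h6, h7]
        linear_combination u⁻¹ * ((1 - r ^ 2 * (c * u)) * (1 - r * (c * u)) * h8 +
          (c ^ 2 + c * u + u ^ 2) * h9 - (u * c - r ^ 2) * (c * u - r) * h10 -
          (c ^ 2 + c * u + u ^ 2) * h11)
      have e2 : u ^ (2 * (l.length + 1)) = u ^ 2 * u ^ (2 * l.length) := by ring
      rw [e2]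
      linear_combination ((l.map (fun c => c - r * u)).prod * u ^ (2 * l.length) * DD r l u⁻¹ *
        (l.map (fun c => u⁻¹ - r * c)).prod) * h5 +
        ((u - r ^ 2 * c) * (u * c - r ^ 2) * (u - r * c) * (c - r * u⁻¹)) * ih
  have hk := key B
  have e3 : u ^ (2 * B.length + n) = u ^ (2 * B.length) * u ^ n := by rw [pow_add]
  rw [e3] at h1
  apply mul_left_cancel₀ (mul_ne_zero ha hb)
  linear_combination (DD r B u⁻¹ * (B.map (fun c => u⁻¹ - r * c)).prod) * h1 -
    (u ^ n * DD r B u * (B.map (fun c => u - r * c)).prod) * h2 +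
    (u ^ n * E (u⁻¹ :: B)) * hk

end

theorem Gx_inv {B : List ℂ} {x : ℂ} (hx : Gx B x) : Gx B x⁻¹ := by
  refine ⟨inv_ne_zero hx.1, fun c hc => ?_⟩
  obtain ⟨h1, h2⟩ := hx.2 c hc
  constructor
  · intro h3
    apply h2
    rw [mul_pow, ← h3, inv_pow]
    exact mul_inv_cancel₀ (pow_ne_zero 3 hx.1)
  · intro h3
    apply h1
    rw [mul_pow, inv_pow] at h3
    have h4 := pow_ne_zero 3 hx.1
    field_simp at h3
    exact ((div_eq_one_iff_eq h4).1 h3).symm

theorem pairsA_ne {l : List ℂ} (h : Gn (prs l)) : pairs fA l ≠ 0 := by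
  induction l with
  | nil => simp [pairs]
  | cons x l ih =>
    rw [pairs]
    refine mul_ne_zero (prod_ne fun c hc => ?_) (ih (Gn_sub (by
      rw [prs_cons]
      exact (List.sublist_cons_self _ _).trans (List.sublist_cons_self _ _)) h))
    have h1 : x ^ 3 ≠ c ^ 3 := Gn_cons (Gn_self h) c hc
    have h2 := Gn_ninv h x List.mem_cons_self c (List.mem_cons_of_mem _ hc)
    have hc0 : c ≠ 0 := (Gn_self h).1 c (List.mem_cons_of_mem _ hc)
    unfold fA
    refine mul_ne_zero ?_ ?_
    · intro h9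
      apply cne q2s h1 2 0
      linear_combination -h9
    · intro h9
      apply cne q2s h2 0 2
      have h10 : c * c⁻¹ = 1 := mul_inv_cancel₀ hc0
      linear_combination c⁻¹ * h9 - x * h10

theorem pairsB_ne {l : List ℂ} (h : Gn (prs l)) : pairs fB l ≠ 0 := by
  induction l with
  | nil => simp [pairs]
  | cons x l ih =>
    rw [pairs]
    refine mul_ne_zero (prod_ne fun c hc => ?_) (ih (Gn_sub (by
      rw [prs_cons]
      exact (List.sublist_cons_self _ _).trans (List.sublist_cons_self _ _)) h))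
    have h1 : x ^ 3 ≠ c ^ 3 := Gn_cons (Gn_self h) c hc
    have h2 := Gn_ninv h x List.mem_cons_self c (List.mem_cons_of_mem _ hc)
    have hc0 : c ≠ 0 := (Gn_self h).1 c (List.mem_cons_of_mem _ hc)
    unfold fB
    refine mul_ne_zero ?_ ?_
    · intro h9
      apply cne q2s h1 1 2
      linear_combination h9
    · intro h9
      apply cne q2s h2 1 2
      have h10 : c * c⁻¹ = 1 := mul_inv_cancel₀ hc0
      linear_combination c⁻¹ * h9 - q * x * h10

theorem pairsA_app (B : List ℂ) (u : ℂ) : pairs fA (B ++ [u]) = pairs fA B * DD q B u := by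
  rw [pairs_append_singleton, DD]
  congr 2
  refine List.map_congr_left fun c _ => ?_
  unfold fA
  ring

theorem pairsB_cons (B : List ℂ) (v : ℂ) :
    pairs fB (v :: B) = q ^ (2 * B.length) * pairs fB B * DD (q ^ 2) B.reverse v := by
  rw [pairs, DD, List.map_reverse, List.prod_reverse]
  have h1 : (B.map (fB v)).prod =
      q ^ (2 * B.length) * (B.map (fun c => (v - (q ^ 2) ^ 2 * c) * (v * c - (q ^ 2) ^ 2))).prod := by
    induction B with
    | nil => simp
    | cons c B ih =>
      rw [List.map_cons, List.prod_cons, ih, List.map_cons, List.prod_cons, List.length_cons]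
      have h2 : fB v c = q ^ 2 * ((v - (q ^ 2) ^ 2 * c) * (v * c - (q ^ 2) ^ 2)) := by
        unfold fB
        have h4 : Pool.Agent.H988R2.Perc.q = q := rfl
        rw [h4]
        linear_combination
          (q ^ 3 * v + q ^ 3 * v * c ^ 2 - q ^ 4 * c - q ^ 7 * c) * q3
      rw [h2]
      ring
  rw [h1]
  ring

theorem S2_refl_u (n : ℕ) (r : ℕ → ℕ → ℂ) {u : ℂ} (hu : u ≠ 0) (v : ℂ) :
    S2 n (fun i j => r (n - i) j) u v = u ^ n * S2 n r u⁻¹ v := by
  rw [S2_u, S2_u, Finset.mul_sum]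
  rw [← Finset.sum_range_reflect]
  refine Finset.sum_congr rfl fun i hi => ?_
  rw [Finset.mem_range] at hi
  have h1 : n - (n + 1 - 1 - i) = i := by omega
  have h2 : n + 1 - 1 - i = n - i := by omega
  rw [h1, h2]
  have h3 : u ^ n = u ^ (n - i) * u ^ i := by rw [← pow_add]; congr 1; omega
  rw [h3, inv_pow]
  have h4 : u ^ i * (u ^ i)⁻¹ = 1 := mul_inv_cancel₀ (pow_ne_zero _ hu)
  linear_combination (-(∑ j ∈ Finset.range (n + 1), r i j * v ^ j) * u ^ (n - i)) * h4

theorem S2_refl_v (n : ℕ) (r : ℕ → ℕ → ℂ) (u : ℂ) {v : ℂ} (hv : v ≠ 0) :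
    S2 n (fun i j => r i (n - j)) u v = v ^ n * S2 n r u v⁻¹ := by
  rw [S2_v, S2_v, Finset.mul_sum]
  rw [← Finset.sum_range_reflect]
  refine Finset.sum_congr rfl fun i hi => ?_
  rw [Finset.mem_range] at hi
  have h1 : n - (n + 1 - 1 - i) = i := by omega
  have h2 : n + 1 - 1 - i = n - i := by omega
  rw [h1, h2]
  have h3 : v ^ n = v ^ (n - i) * v ^ i := by rw [← pow_add]; congr 1; omega
  rw [h3, inv_pow]
  have h4 : v ^ i * (v ^ i)⁻¹ = 1 := mul_inv_cancel₀ (pow_ne_zero _ hv)
  linear_combination (-(∑ j ∈ Finset.range (n + 1), r j i * u ^ j) * v ^ (n - i)) * h4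

/-! ### polynomials -/

theorem polyFw (N : ℕ) (c : Word → ℂ) (L R : List ℂ) (h : L.length + R.length + 1 = N) :
    ∃ P : ℂ[X], P.natDegree ≤ N - 2 ∧
      ∀ x, P.eval x = ∑ w ∈ LP N, Fw w (L ++ x :: R) * c w := by
  have hPD : ∀ w : Word, ∃ P : Polynomial ℂ, w ∈ LP N →
      P.natDegree ≤ N - 2 ∧ ∀ x, Fw w (L ++ x :: R) = P.eval x := by
    intro w
    by_cases hw : w ∈ LP N
    · obtain ⟨P, hP, hPe⟩ := Pool.Agent.H988R2.Perc.PD.univ (Pool.Agent.H988R2.Perc.Fw_V hw).pd L
        R h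
      exact ⟨P, fun _ => ⟨hP, hPe⟩⟩
    · exact ⟨0, fun h => absurd h hw⟩
  choose P hP using hPD
  refine ⟨∑ w ∈ LP N, P w * C (c w), ?_, ?_⟩
  · refine natDegree_sum_le_of_forall_le _ _ fun w hw => ?_
    exact (natDegree_mul_C_le _ _).trans (hP w hw).1
  · intro x
    rw [eval_finsetSum]
    refine Finset.sum_congr rfl fun w hw => ?_
    rw [(hP w hw).2, eval_mul, eval_C]

theorem HH_eq (Ψ : List ℂ → VW) (A B1 B2 z : List ℂ) (N : ℕ)
    (h : B1.length + z.length + B2.length = N) : HH Ψ A B1 B2 z =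
    ∑ w ∈ LP N, Fw w (B1 ++ z ++ B2) * es B1.length B2.length A.length w (Ψ (A ++ z)) := by
  subst h
  rfl

theorem conv {e1 e2 x y : ℂ} (h : (q * y - q ^ 2 * x) * e1 = (q * x - q ^ 2 * y) * e2) :
    (x - q ^ 2 * y) * e1 = (y - q ^ 2 * x) * e2 := by
  have h1 : (y - q * x) * e1 = (x - q * y) * e2 := by
    linear_combination q ^ 2 * h - ((y - q * x) * e1 - (x - q * y) * e2) * q3
  by_cases hy : y - q * x = 0
  · rw [hy, zero_mul] at h1
    have hy' : y = q * x := sub_eq_zero.1 hy
    rcases mul_eq_zero.1 h1.symm with h2 | h2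
    · have h3 : (1 - q ^ 2) * x = 0 := by rw [hy'] at h2; linear_combination h2
      have h4 : 1 - q ^ 2 ≠ 0 := by
        intro h5
        exact Pool.Agent.H988R2.Perc.q_sq_ne_one (sub_eq_zero.1 h5).symm
      have h5 : x = 0 := (mul_eq_zero.1 h3).resolve_left h4
      rw [hy', h5]; ring
    · rw [h2, hy']
      linear_combination (-x * e1) * q3
  · apply mul_left_cancel₀ hy
    have hS : (x - q ^ 2 * y) * (x - q * y) = (y - q * x) * (y - q ^ 2 * x) := by
      linear_combination (y ^ 2 - x ^ 2) * q3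
    linear_combination (x - q ^ 2 * y) * h1 + e2 * hS

end TRV

open TRV Pool.Agent.W493.KS Polynomial Pool.Agent.W808.HB.TM1 in
theorem t_RV : S_exB → S_RV := by
  intro hX Ψ hF A B1 B2 z hl hz hG1 hG2
  set n := z.length with hn
  obtain ⟨k, hk⟩ := hz
  have hev : ∀ s t B : List ℂ, s.length + t.length + 2 = B1.length + 1 →
      B.length = B1.length + 1 → Even (s.length + t.length + z.length + B.length) := by
    intro s t B h1 h2
    exact ⟨B1.length + k, by omega⟩
  -- the two families of functions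
  set El : ℂ → List ℂ → ℂ := fun v L =>
    if L.length = B1.length + 1 then HH Ψ A L (v :: B2) z else 0 with hEl
  set Er : ℂ → List ℂ → ℂ := fun u L =>
    if L.length = B1.length + 1 then HH Ψ A (B1 ++ [u]) L.reverse z else 0 with hEr
  have hXl : ∀ v, ExR q (El v) := by
    intro v s t x y
    by_cases h : s.length + t.length + 2 = B1.length + 1
    · have e1 : El v (s ++ y :: x :: t) = HH Ψ A (s ++ y :: x :: t) (v :: B2) z :=
        if_pos (by simp only [List.length_append, List.length_cons]; omega)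
      have e2 : El v (s ++ x :: y :: t) = HH Ψ A (s ++ x :: y :: t) (v :: B2) z :=
        if_pos (by simp only [List.length_append, List.length_cons]; omega)
      have h1 := (hX Ψ hF A s t (v :: B2) z x y (hev s t (v :: B2) h
        (by rw [List.length_cons, hl]))).1
      rw [e1, e2]
      apply mul_left_cancel₀ q0
      linear_combination h1
    · have e1 : El v (s ++ y :: x :: t) = 0 :=
        if_neg (by simp only [List.length_append, List.length_cons]; omega)
      have e2 : El v (s ++ x :: y :: t) = 0 :=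
        if_neg (by simp only [List.length_append, List.length_cons]; omega)
      rw [e1, e2, mul_zero, mul_zero]
  have hXr : ∀ u, ExR (q ^ 2) (Er u) := by
    intro u s t x y
    by_cases h : s.length + t.length + 2 = B1.length + 1
    · have e1 : Er u (s ++ y :: x :: t) =
          HH Ψ A (B1 ++ [u]) (t.reverse ++ x :: y :: s.reverse) z := by
        have : Er u (s ++ y :: x :: t) = HH Ψ A (B1 ++ [u]) (s ++ y :: x :: t).reverse z :=
          if_pos (by simp only [List.length_append, List.length_cons]; omega)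
        rw [this]
        simp
      have e2 : Er u (s ++ x :: y :: t) =
          HH Ψ A (B1 ++ [u]) (t.reverse ++ y :: x :: s.reverse) z := by
        have : Er u (s ++ x :: y :: t) = HH Ψ A (B1 ++ [u]) (s ++ x :: y :: t).reverse z :=
          if_pos (by simp only [List.length_append, List.length_cons]; omega)
        rw [this]
        simp
      have h1 := (hX Ψ hF A t.reverse s.reverse (B1 ++ [u]) z y x
        (hev t.reverse s.reverse (B1 ++ [u])
          (by rw [List.length_reverse, List.length_reverse]; omega) (by simp))).2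
      rw [e1, e2]
      exact conv h1
    · have e1 : Er u (s ++ y :: x :: t) = 0 :=
        if_neg (by simp only [List.length_append, List.length_cons]; omega)
      have e2 : Er u (s ++ x :: y :: t) = 0 :=
        if_neg (by simp only [List.length_append, List.length_cons]; omega)
      rw [e1, e2, mul_zero, mul_zero]
  have hIl : ∀ v x, x ≠ 0 → El v (x :: B1) = x ^ (2 * B1.length + n) * El v (x⁻¹ :: B1) := by
    intro v x hx
    have e1 : ∀ y, El v (y :: B1) = HH Ψ A (y :: B1) (v :: B2) z := fun y => if_pos (by simp)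
    rw [e1, e1, HH_eq Ψ A _ _ z (2 * B1.length + n + 2) (by
      simp only [List.length_cons]; omega), HH_eq Ψ A _ _ z (2 * B1.length + n + 2) (by
      simp only [List.length_cons]; omega), Finset.mul_sum]
    refine Finset.sum_congr rfl fun w hw => ?_
    have hw1 := Pool.Agent.H988R2.Perc.mem_LP.1 hw
    have h1 := (Pool.Agent.H988R2.Perc.Fw_spec hw1.2).2.1 x (B1 ++ z ++ v :: B2) hx
      (by rw [hw1.1]; simp only [List.length_append, List.length_cons]; omega)
    rw [hw1.1] at h1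
    have e3 : ∀ y : ℂ, y :: B1 ++ z ++ v :: B2 = y :: (B1 ++ z ++ v :: B2) := by intro y; simp
    rw [e3, e3, h1, Nat.add_sub_cancel]
    simp only [List.length_cons]
    ring
  have hIr : ∀ u x, x ≠ 0 →
      Er u (x :: B2.reverse) = x ^ (2 * B2.reverse.length + n) * Er u (x⁻¹ :: B2.reverse) := by
    intro u x hx
    have e1 : ∀ y, Er u (y :: B2.reverse) = HH Ψ A (B1 ++ [u]) (B2 ++ [y]) z := by
      intro y
      have : Er u (y :: B2.reverse) = HH Ψ A (B1 ++ [u]) (y :: B2.reverse).reverse z :=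
        if_pos (by simp [hl])
      rw [this]
      simp
    rw [e1, e1, HH_eq Ψ A _ _ z (2 * B1.length + n + 2) (by
      simp only [List.length_append, List.length_cons, List.length_nil]; omega),
      HH_eq Ψ A _ _ z (2 * B1.length + n + 2) (by
      simp only [List.length_append, List.length_cons, List.length_nil]; omega), Finset.mul_sum]
    refine Finset.sum_congr rfl fun w hw => ?_
    have hw1 := Pool.Agent.H988R2.Perc.mem_LP.1 hw
    have h1 := (Pool.Agent.H988R2.Perc.Fw_spec hw1.2).2.2.1 x (B1 ++ [u] ++ z ++ B2) hx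
      (by rw [hw1.1]; simp only [List.length_append, List.length_cons, List.length_nil]; omega)
    rw [hw1.1] at h1
    have e3 : ∀ y : ℂ, B1 ++ [u] ++ z ++ (B2 ++ [y]) = (B1 ++ [u] ++ z ++ B2) ++ [y] := by
      intro y; simp
    rw [e3, e3, h1, Nat.add_sub_cancel, List.length_reverse, ← hl]
    simp only [List.length_append, List.length_cons, List.length_nil]
    ring
  have hll : B2.reverse.length = B1.length := by rw [List.length_reverse, hl]
  have eEl : ∀ u v, El v (B1 ++ [u]) = HH Ψ A (B1 ++ [u]) (v :: B2) z := fun u v =>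
    if_pos (by simp)
  have eEr : ∀ u v, Er u (B2.reverse ++ [v]) = HH Ψ A (B1 ++ [u]) (v :: B2) z := by
    intro u v
    have : Er u (B2.reverse ++ [v]) = HH Ψ A (B1 ++ [u]) (B2.reverse ++ [v]).reverse z :=
      if_pos (by simp [hl])
    rw [this]
    simp
  have hPl : ∀ v, ∃ P : ℂ[X], P.natDegree ≤ 2 * B1.length + n ∧
      ∀ x, P.eval x = HH Ψ A (B1 ++ [x]) (v :: B2) z := by
    intro v
    obtain ⟨P, h1, h2⟩ := polyFw (2 * B1.length + n + 2)
      (fun w => es (B1.length + 1) (B2.length + 1) A.length w (Ψ (A ++ z))) B1 (z ++ v :: B2)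
      (by simp only [List.length_append, List.length_cons]; omega)
    refine ⟨P, by simpa using h1, fun x => ?_⟩
    rw [h2, HH_eq Ψ A _ _ z (2 * B1.length + n + 2) (by
      simp only [List.length_append, List.length_cons, List.length_nil]; omega)]
    refine Finset.sum_congr rfl fun w _ => ?_
    simp
  have hPr : ∀ u, ∃ P : ℂ[X], P.natDegree ≤ 2 * B2.reverse.length + n ∧
      ∀ x, P.eval x = HH Ψ A (B1 ++ [u]) (x :: B2) z := by
    intro u
    obtain ⟨P, h1, h2⟩ := polyFw (2 * B1.length + n + 2)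
      (fun w => es (B1.length + 1) (B2.length + 1) A.length w (Ψ (A ++ z))) (B1 ++ [u] ++ z) B2
      (by simp only [List.length_append, List.length_cons, List.length_nil]; omega)
    refine ⟨P, by rw [hll]; simpa using h1, fun x => ?_⟩
    rw [h2, HH_eq Ψ A _ _ z (2 * B1.length + n + 2) (by
      simp only [List.length_append, List.length_cons, List.length_nil]; omega)]
    refine Finset.sum_congr rfl fun w _ => ?_
    simp
  have hG2' : Gn (prs B2.reverse) :=
    Gn_perm (prs_perm (List.reverse_perm B2).symm) hG2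
  obtain ⟨b, hb, hbG⟩ := nodes B1
  obtain ⟨a, ha, haG⟩ := nodes B2.reverse
  have hpA := pairsA_ne hG1
  have hpB := pairsB_ne hG2
  have hq2 : (q ^ (2 * B2.length) : ℂ) ≠ 0 := pow_ne_zero _ q0
  have hpBc : ∀ v, Gx B2.reverse v → pairs fB (v :: B2) ≠ 0 := by
    intro v hv
    rw [pairsB_cons]
    exact mul_ne_zero (mul_ne_zero hq2 hpB) (DD_ne q2s' hv)
  have hpAc : ∀ u, Gx B1 u → pairs fA (B1 ++ [u]) ≠ 0 := by
    intro u hu
    rw [pairsA_app]
    exact mul_ne_zero hpA (DD_ne q2s hu)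
  obtain ⟨r, hr⟩ := quot2 (n := n) (E := fun u v => HH Ψ A (B1 ++ [u]) (v :: B2) z)
    (p := fun u v => pairs fA (B1 ++ [u]) * pairs fB (v :: B2)) ha hb
    (by
      intro m
      obtain ⟨P, hPd, hP⟩ := hPl (a m)
      obtain ⟨Q, hQd, hQ⟩ := slice q2s (hXl (a m)) hG1 (hIl (a m))
        ⟨P, hPd, fun x => by rw [hP, eEl]⟩
      have hk : pairs fA B1 * pairs fB (a m :: B2) ≠ 0 := mul_ne_zero hpA (hpBc _ (haG m))
      refine ⟨C ((pairs fA B1 * pairs fB (a m :: B2))⁻¹) * Q, (natDegree_C_mul_le _ _).trans hQd, ?_⟩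
      intro u
      have h1 := hQ u
      rw [eEl] at h1
      have h2 := inv_mul_cancel₀ hk
      rw [h1, pairsA_app, eval_mul, eval_C]
      linear_combination (-(DD q B1 u) * Q.eval u) * h2)
    (by
      intro m
      obtain ⟨P, hPd, hP⟩ := hPr (b m)
      obtain ⟨Q, hQd, hQ⟩ := slice q2s' (hXr (b m)) hG2' (hIr (b m))
        ⟨P, hPd, fun x => by rw [hP, eEr]⟩
      have hk : pairs fA (B1 ++ [b m]) * (q ^ (2 * B2.length) * pairs fB B2) ≠ 0 :=
        mul_ne_zero (hpAc _ (hbG m)) (mul_ne_zero hq2 hpB)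
      refine ⟨C ((pairs fA (B1 ++ [b m]) * (q ^ (2 * B2.length) * pairs fB B2))⁻¹) * Q,
        (natDegree_C_mul_le _ _).trans hQd, ?_⟩
      intro v
      have h1 := hQ v
      rw [eEr] at h1
      have h2 := inv_mul_cancel₀ hk
      rw [h1, pairsB_cons, eval_mul, eval_C]
      linear_combination (-(DD (q ^ 2) B2.reverse v) * Q.eval v) * h2)
    (fun i j => mul_ne_zero (hpAc _ (hbG i)) (hpBc _ (haG j)))
    (fun u => by
      obtain ⟨P, _, hP⟩ := hPr u
      exact ⟨P, hP⟩)
    (fun u => by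
      refine ⟨C (pairs fA (B1 ++ [u])) * ((B2.map (fun c => (C q * X - C (q ^ 2 * c)) *
        (C (q * c) * X - C (q ^ 2)))).prod * C (pairs fB B2)), fun v => ?_⟩
      rw [eval_mul, eval_mul, eval_C, eval_C, Polynomial.eval_list_prod, List.map_map, pairs]
      congr 3
      refine List.map_congr_left fun c _ => ?_
      simp only [Function.comp, eval_mul, eval_sub, eval_C, eval_X, fB]
      ring)
  have hu1 := uniq (n := n) (r := r) (r' := fun i j => r (n - i) j) ha hb (by
    intro m m'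
    rw [S2_refl_u n r (hbG m).1]
    have h1 := hr (b m) (a m')
    have h2 := hr (b m)⁻¹ (a m')
    have h3 := symB q2s (hXl (a m')) (hIl (a m')) (hbG m)
    rw [eEl, eEl, h1, h2, pairsA_app, pairsA_app] at h3
    have h4 : pairs fA B1 * DD q B1 (b m) * pairs fB (a m' :: B2) * DD q B1 (b m)⁻¹ ≠ 0 :=
      mul_ne_zero (mul_ne_zero (mul_ne_zero hpA (DD_ne q2s (hbG m))) (hpBc _ (haG m')))
        (DD_ne q2s (Gx_inv (hbG m)))
    apply mul_left_cancel₀ h4
    linear_combination h3)
  have hu2 := uniq (n := n) (r := r) (r' := fun i j => r i (n - j)) ha hb (by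
    intro m m'
    rw [S2_refl_v n r _ (haG m').1]
    have h1 := hr (b m) (a m')
    have h2 := hr (b m) (a m')⁻¹
    have h3 := symB q2s' (hXr (b m)) (hIr (b m)) (haG m')
    rw [eEr, eEr, h1, h2, pairsB_cons, pairsB_cons] at h3
    have h4 : pairs fA (B1 ++ [b m]) * (q ^ (2 * B2.length) * pairs fB B2) *
        DD (q ^ 2) B2.reverse (a m') * DD (q ^ 2) B2.reverse (a m')⁻¹ ≠ 0 :=
      mul_ne_zero (mul_ne_zero (mul_ne_zero (hpAc _ (hbG m)) (mul_ne_zero hq2 hpB))
        (DD_ne q2s' (haG m'))) (DD_ne q2s' (Gx_inv (haG m')))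
    apply mul_left_cancel₀ h4
    linear_combination h3)
  refine ⟨fun i j => if i ≤ n ∧ j ≤ n then r i j else 0, ?_, ?_, ?_⟩
  · intro i j hi
    show (if n - i ≤ n ∧ j ≤ n then r (n - i) j else 0) = (if i ≤ n ∧ j ≤ n then r i j else 0)
    by_cases hj : j ≤ n
    · rw [if_pos ⟨by omega, hj⟩, if_pos ⟨hi, hj⟩]
      exact (hu1 i j hi hj).symm
    · rw [if_neg (fun h => hj h.2), if_neg (fun h => hj h.2)]
  · intro i j hj
    show (if i ≤ n ∧ n - j ≤ n then r i (n - j) else 0) = (if i ≤ n ∧ j ≤ n then r i j else 0)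
    by_cases hi : i ≤ n
    · rw [if_pos ⟨hi, by omega⟩, if_pos ⟨hi, hj⟩]
      exact (hu2 i j hi hj).symm
    · rw [if_neg (fun h => hi h.1), if_neg (fun h => hi h.1)]
  · intro u v
    have h1 := hr u v
    have h2 : S2 n r u v = ∑ i ∈ Finset.range (n + 1),
        ∑ j ∈ Finset.range (n + 1),
          (if i ≤ n ∧ j ≤ n then r i j else 0) * u ^ i * v ^ j := by
      unfold S2
      refine Finset.sum_congr rfl fun i hi => Finset.sum_congr rfl fun j hj => ?_
      rw [Finset.mem_range] at hi hj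
      rw [if_pos ⟨by omega, by omega⟩]
    rw [← h2]
    exact h1

end Pool.Agent.W808.KS
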