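import Pool.Agent.W808.KS.Stm
import Pool.Agent.W808.KC.T_SM

/-!
# The finite strip and its word (`S_SFs`)
-/

set_option autoImplicit false

namespace Pool.Agent.W808.KS
open H974
open H906.Cyl
open Pool.Agent.H988R2.Perc (Word ins cap act Dyck LP mem_LP)
open Relation

namespace TSFs

/-! ### words depend only on the tiles which are used -/

theorem fwdW_congr (c c' : ℕ → Bool) : ∀ (L : ℕ) (_ : ∀ i, 1 ≤ i → i ≤ L → c i = c' i) (w : Word),
    KC.fwdW L c w = KC.fwdW L c' w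
  | 0, _, _ => rfl
  | L + 1, h, w => by
    have ih := fwdW_congr c c' L (fun i h1 h2 => h i h1 (by omega)) w
    simp only [KC.fwdW]
    rw [h (L + 1) (by omega) le_rfl, ih]

theorem bwdW_congr (c c' : ℕ → Bool) : ∀ (L : ℕ) (_ : ∀ i, 1 ≤ i → i ≤ L → c i = c' i) (w : Word),
    KC.bwdW L c w = KC.bwdW L c' w
  | 0, _, _ => rfl
  | L + 1, h, w => by
    simp only [KC.bwdW]
    rw [h (L + 1) (by omega) le_rfl]
    exact bwdW_congr c c' L (fun i h1 h2 => h i h1 (by omega)) _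

theorem XW_congr (L : ℕ) (c c' : ℕ → ℕ → Bool) (w : Word) : ∀ (K : ℕ)
    (_ : ∀ k i, k < 2 * K → 1 ≤ i → i ≤ L → c k i = c' k i), KC.XW L c w K = KC.XW L c' w K
  | 0, _ => rfl
  | K + 1, h => by
    simp only [KC.XW, KC.rowW]
    rw [XW_congr L c c' w K (fun k i h1 h2 h3 => h k i (by omega) h2 h3),
      fwdW_congr (c (2 * K)) (c' (2 * K)) L (fun i h1 h2 => h (2 * K) i (by omega) h1 h2),
      bwdW_congr (c (2 * K + 1)) (c' (2 * K + 1)) L
        (fun i h1 h2 => h (2 * K + 1) i (by omega) h1 h2)]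

/-! ### the set of edges -/

/-- the configuration with the same diagonals -/
def Gw (m K : ℕ) (ω : ℤ × ℤ → Bool) : Set Edg :=
  {e | dco e < 2 * K ∧ (ω ((m : ℤ) + (e.1 + e.2.1 + 1), -dco e - 1) = true ↔
    (e.1 + e.2.1 + 1 + dco e) % 2 = 1)}

theorem mem_Gw (m K : ℕ) (ω : ℤ × ℤ → Bool) (s t : ℤ) : edz s t ∈ Gw m K ω ↔
    t < 2 * K ∧ (ω ((m : ℤ) + (s + 1), -t - 1) = true ↔ (s + 1 + t) % 2 = 1) := by
  unfold Gw
  rw [Set.mem_setOf_eq, KC.TSM.dco_edz, KC.TSM.sum_edz]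

open Classical in
theorem cF_eq (m K : ℕ) (ω : ℤ × ℤ → Bool) (k i : ℕ) (hk : k < 2 * K) :
    KC.cF K (Gw m K ω) k i = cT m K ω k i := by
  have hmem : edz ((i : ℤ) - 2) (2 * K - 1 - k) ∈ Gw m K ω ↔
      (ω ((m : ℤ) + i - 1, (k : ℤ) - 2 * K) = true ↔ ((i : ℤ) - k) % 2 = 1) := by
    rw [mem_Gw]
    have e1 : (m : ℤ) + ((i : ℤ) - 2 + 1) = (m : ℤ) + i - 1 := by ring
    have e2 : -(2 * (K : ℤ) - 1 - k) - 1 = (k : ℤ) - 2 * K := by ring
    have e3 : ((i : ℤ) - 2 + 1 + (2 * K - 1 - k)) % 2 = 1 ↔ ((i : ℤ) - k) % 2 = 1 := by omega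
    rw [e1, e2, e3]
    constructor
    · rintro ⟨-, h⟩
      exact h
    · intro h
      exact ⟨by omega, h⟩
  unfold KC.cF cT
  rcases Nat.mod_two_eq_zero_or_one i with hi | hi <;>
    rcases Nat.mod_two_eq_zero_or_one k with hk' | hk'
  · have hp : ¬ ((i : ℤ) - k) % 2 = 1 := by omega
    rw [if_neg (by omega), if_pos hk']
    have h3 : decide (edz ((i : ℤ) - 2) (2 * K - 1 - k) ∈ Gw m K ω) =
        !ω ((m : ℤ) + i - 1, (k : ℤ) - 2 * K) := by
      rw [Bool.eq_iff_iff, decide_eq_true_iff, hmem]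
      simp [hp]
    rw [h3, Bool.not_not]
  · have hp : ((i : ℤ) - k) % 2 = 1 := by omega
    rw [if_neg (by omega), if_neg (by omega)]
    have h3 : decide (edz ((i : ℤ) - 2) (2 * K - 1 - k) ∈ Gw m K ω) =
        ω ((m : ℤ) + i - 1, (k : ℤ) - 2 * K) := by
      rw [Bool.eq_iff_iff, decide_eq_true_iff, hmem]
      simp [hp]
    rw [h3]
  · have hp : ((i : ℤ) - k) % 2 = 1 := by omega
    rw [if_pos hi, if_pos hk']
    rw [Bool.eq_iff_iff, decide_eq_true_iff, hmem]
    simp [hp]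
  · have hp : ¬ ((i : ℤ) - k) % 2 = 1 := by omega
    rw [if_pos hi, if_neg (by omega)]
    rw [Bool.eq_iff_iff, decide_eq_true_iff, hmem]
    simp [hp]

/-! ### comparison of the links -/

theorem eqvGen_map {α β : Type*} {E : α → α → Prop} {E' : β → β → Prop} (f : α → β)
    (h : ∀ a b, E a b → EqvGen E' (f a) (f b)) {x y : α} (hxy : EqvGen E x y) :
    EqvGen E' (f x) (f y) := by
  induction hxy with
  | rel a b k => exact h a b k
  | refl a => exact EqvGen.refl _
  | symm a b _ ih => exact EqvGen.symm _ _ ih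
  | trans a b d _ _ ih1 ih2 => exact EqvGen.trans _ _ _ ih1 ih2

/-- the region below the strip is contracted to a point -/
noncomputable def phi (K : ℕ) (p : ℤ × ℤ) : ℤ × ℤ :=
  if 2 * (K : ℤ) ≤ p.2 ∧ (p.1 + p.2) % 2 = 0 then (0, -(2 * K : ℤ)) else (p.1, -p.2)

theorem top_conn (m M K : ℕ) (ω : ℤ × ℤ → Bool) : ∀ c : ℕ, c ≤ M →
    EqvGen (SF m M K ω) (0, -(2 * K : ℤ)) (((2 * c : ℕ) : ℤ), -(2 * K : ℤ))
  | 0, _ => by simpa using EqvGen.refl _
  | c + 1, hc => by
    have h1 := top_conn m M K ω c (by omega)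
    have h2 := EqvGen.rel _ _ (SF.top (m := m) (M := M) (K := K) (ω := ω) c (by omega))
    have e : (((2 * (c + 1) : ℕ) : ℤ), -(2 * K : ℤ)) = (((2 * c : ℕ) : ℤ) + 2, -(2 * K : ℤ)) := by
      push_cast; ring_nf
    rw [e]
    exact EqvGen.trans _ _ _ h1 h2

theorem phi_conn (m M K : ℕ) (ω : ℤ × ℤ → Bool) (j t : ℤ) (hj : 0 ≤ j) (hj' : j ≤ 2 * M)
    (ht : t ≤ 2 * K) : EqvGen (SF m M K ω) (j, -t) (phi K (j, t)) := by
  unfold phi
  split_ifs with h
  · simp only at h
    have h1 : t = 2 * K := by omega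
    have h2 : j = ((2 * (j.toNat / 2) : ℕ) : ℤ) := by omega
    have h3 := top_conn m M K ω (j.toNat / 2) (by omega)
    rw [← h2, ← h1] at h3
    rw [← h1]
    exact h3.symm
  · exact EqvGen.refl _

theorem phi_deep (K : ℕ) (j t : ℤ) (ht : 2 * K ≤ t) (hp : (j + t) % 2 = 0) :
    phi K (j, t) = (0, -(2 * K : ℤ)) := if_pos ⟨ht, hp⟩

theorem EE_to_SF (m n K : ℕ) (ω : ℤ × ℤ → Bool) (p q : ℤ × ℤ)
    (h : KC.TSM.EE n (Gw m K ω) (fun _ t => (0 : ℤ) ≤ t) 0 0 p q) :
    EqvGen (SF m (n + 1) K ω) (phi K p) (phi K q) := by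
  rcases h with ⟨j, t, h1, h2, h3, h4⟩ | ⟨s, h1, h2, h3⟩ | ⟨s, h1, h2, h3⟩
  · have hmem := mem_Gw m K ω (j - 1) t
    have e1 : (m : ℤ) + (j - 1 + 1) = m + j := by ring
    have e2 : (j - 1 + 1 + t) % 2 = 1 ↔ (j + t) % 2 = 1 := by
      rw [show j - 1 + 1 + t = j + t by ring]
    rw [e1, e2] at hmem
    have hjn : ((j.toNat : ℕ) : ℤ) = j := Int.toNat_of_nonneg h1
    rcases lt_or_ge t (2 * K) with ht | ht
    · rcases h4 with ⟨k1, k2, k3⟩ | ⟨k1, k2, k3⟩
      · have hω : ω ((m : ℤ) + j, -t - 1) = true := by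
          rw [hmem] at k1
          by_contra hc
          have hP : ¬ ((j + t) % 2 = 1) := by
            intro hP
            exact hc ((k1.2 hP).2.2 hP)
          exact hP (k1.1 ⟨ht, ⟨fun h => absurd h hc, fun h => absurd h hP⟩⟩)
        have hf := SF.fall (m := m) (M := n + 1) (K := K) (ω := ω) j.toNat (-t - 1) (by omega)
          (by omega) (by omega) (by rw [hjn]; exact hω)
        rw [hjn] at hf
        have e3 : -t - 1 + 1 = -t := by ring
        have e4 : -t - 1 = -(t + 1) := by ring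
        rw [e3, e4] at hf
        rw [k2, k3]
        have c1 := phi_conn m (n + 1) K ω j t h1 (by push_cast; omega) (by omega)
        have c2 := phi_conn m (n + 1) K ω (j + 1) (t + 1) (by omega) (by push_cast; omega)
          (by omega)
        exact (c1.symm _ _).trans _ _ _ (((EqvGen.rel _ _ hf).symm _ _).trans _ _ _ c2)
      · have hω : ω ((m : ℤ) + j, -t - 1) = false := by
          rw [hmem] at k1
          by_contra hc
          have hc' : ω ((m : ℤ) + j, -t - 1) = true := by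
            simpa using hc
          apply k1
          constructor
          · rintro ⟨-, h⟩; exact h.1 hc'
          · intro h; exact ⟨ht, ⟨fun _ => h, fun _ => hc'⟩⟩
        have hf := SF.rise (m := m) (M := n + 1) (K := K) (ω := ω) j.toNat (-t - 1) (by omega)
          (by omega) (by omega) (by rw [hjn]; exact hω)
        rw [hjn] at hf
        have e3 : -t - 1 + 1 = -t := by ring
        have e4 : -t - 1 = -(t + 1) := by ring
        rw [e3, e4] at hf
        rw [k2, k3]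
        have c1 := phi_conn m (n + 1) K ω (j + 1) t (by omega) (by push_cast; omega) (by omega)
        have c2 := phi_conn m (n + 1) K ω j (t + 1) (by omega) (by push_cast; omega)
          (by omega)
        exact (c1.symm _ _).trans _ _ _ (((EqvGen.rel _ _ hf).symm _ _).trans _ _ _ c2)
    · have hno : ¬ (edz (j - 1) t ∈ Gw m K ω) := by
        rw [hmem]; rintro ⟨h, -⟩; omega
      rcases h4 with ⟨k1, k2, k3⟩ | ⟨k1, k2, k3⟩
      · have hP : (j + t) % 2 = 0 := by
          have : ¬ ((j + t) % 2 = 1) := fun h => hno (k1.2 h)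
          omega
        rw [k2, k3, phi_deep K j t ht hP, phi_deep K (j + 1) (t + 1) (by omega) (by omega)]
        exact EqvGen.refl _
      · have hP : (j + t) % 2 = 1 := by
          by_contra hc
          exact k1 ⟨fun h => absurd h hno, fun h => absurd h hc⟩
        rw [k2, k3, phi_deep K (j + 1) t ht (by omega), phi_deep K j (t + 1) (by omega) (by omega)]
        exact EqvGen.refl _
  · rw [h2, h3]
    rcases lt_or_ge s K with hs | hs
    · have hw := SF.wallL (m := m) (M := n + 1) (K := K) (ω := ω) s.toNat (by omega)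
      have hsn : ((s.toNat : ℕ) : ℤ) = s := Int.toNat_of_nonneg (by omega)
      rw [hsn] at hw
      have e4 : -(2 * s) - 2 = -(2 * s + 2) := by ring
      rw [e4] at hw
      have c1 := phi_conn m (n + 1) K ω 0 (2 * s) le_rfl (by push_cast; omega) (by omega)
      have c2 := phi_conn m (n + 1) K ω 0 (2 * s + 2) le_rfl (by push_cast; omega) (by omega)
      exact (c1.symm _ _).trans _ _ _ ((EqvGen.rel _ _ hw).trans _ _ _ c2)
    · rw [phi_deep K 0 (2 * s) (by omega) (by omega),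
        phi_deep K 0 (2 * s + 2) (by omega) (by omega)]
      exact EqvGen.refl _
  · rw [h2, h3]
    rcases lt_or_ge s K with hs | hs
    · have hw := SF.wallR (m := m) (M := n + 1) (K := K) (ω := ω) s.toNat (by omega)
      have hsn : ((s.toNat : ℕ) : ℤ) = s := Int.toNat_of_nonneg (by omega)
      rw [hsn] at hw
      have e4 : -(2 * s) - 2 = -(2 * s + 2) := by ring
      have e5 : ((2 * (n + 1) : ℕ) : ℤ) = 2 * (n : ℤ) + 2 := by push_cast; ring
      rw [e4, e5] at hw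
      have c1 := phi_conn m (n + 1) K ω (2 * (n : ℤ) + 2) (2 * s) (by omega) (by push_cast; omega)
        (by omega)
      have c2 := phi_conn m (n + 1) K ω (2 * (n : ℤ) + 2) (2 * s + 2) (by omega)
        (by push_cast; omega) (by omega)
      exact (c1.symm _ _).trans _ _ _ ((EqvGen.rel _ _ hw).trans _ _ _ c2)
    · rw [phi_deep K (2 * (n : ℤ) + 2) (2 * s) (by omega) (by omega),
        phi_deep K (2 * (n : ℤ) + 2) (2 * s + 2) (by omega) (by omega)]
      exact EqvGen.refl _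

theorem SF_to_EE (m n K : ℕ) (ω : ℤ × ℤ → Bool) (p q : ℤ × ℤ) (h : SF m (n + 1) K ω p q) :
    EqvGen (KC.TSM.EE n (Gw m K ω) (fun _ t => (0 : ℤ) ≤ t) 0 0) (p.1, -p.2) (q.1, -q.2) := by
  rcases h with ⟨j, t, h1, h2, h3, h4⟩ | ⟨j, t, h1, h2, h3, h4⟩ | ⟨s, h1⟩ | ⟨s, h1⟩ | ⟨i, h1⟩
  · -- rise
    have hmem := mem_Gw m K ω ((j : ℤ) - 1) (-t - 1)
    have e1 : (m : ℤ) + ((j : ℤ) - 1 + 1) = m + j := by ring
    have e2 : -(-t - 1) - 1 = t := by ring
    rw [e1, e2, h4] at hmem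
    apply EqvGen.symm
    apply EqvGen.rel
    refine Or.inl ⟨j, -t - 1, by omega, by omega, by show (0 : ℤ) ≤ -t - 1; omega,
      Or.inr ⟨?_, ?_, ?_⟩⟩
    · rw [hmem]
      intro hh
      have hp : ((j : ℤ) - 1 + 1 + (-t - 1)) % 2 = 1 ↔ ((j : ℤ) + (-t - 1)) % 2 = 1 := by
        rw [show (j : ℤ) - 1 + 1 + (-t - 1) = (j : ℤ) + (-t - 1) by ring]
      rw [hp] at hh
      by_cases hP : ((j : ℤ) + (-t - 1)) % 2 = 1
      · have := (hh.2 hP).2
        simp [hP] at this
      · apply hP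
        apply hh.1
        refine ⟨by omega, ?_⟩
        simp [hP]
    · refine Prod.ext ?_ ?_ <;> dsimp only <;> ring
    · refine Prod.ext ?_ ?_ <;> dsimp only <;> ring
  · -- fall
    have hmem := mem_Gw m K ω ((j : ℤ) - 1) (-t - 1)
    have e1 : (m : ℤ) + ((j : ℤ) - 1 + 1) = m + j := by ring
    have e2 : -(-t - 1) - 1 = t := by ring
    rw [e1, e2, h4] at hmem
    apply EqvGen.symm
    apply EqvGen.rel
    refine Or.inl ⟨j, -t - 1, by omega, by omega, by show (0 : ℤ) ≤ -t - 1; omega,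
      Or.inl ⟨?_, ?_, ?_⟩⟩
    · rw [hmem]
      have hp : ((j : ℤ) - 1 + 1 + (-t - 1)) % 2 = 1 ↔ ((j : ℤ) + (-t - 1)) % 2 = 1 := by
        rw [show (j : ℤ) - 1 + 1 + (-t - 1) = (j : ℤ) + (-t - 1) by ring]
      rw [hp]
      constructor
      · rintro ⟨-, hh⟩; exact hh.1 rfl
      · intro hh; exact ⟨by omega, ⟨fun _ => hh, fun _ => rfl⟩⟩
    · refine Prod.ext ?_ ?_ <;> dsimp only <;> ring
    · refine Prod.ext ?_ ?_ <;> dsimp only <;> ring
  · -- wallL
    apply EqvGen.rel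
    refine Or.inr (Or.inl ⟨s, by omega, ?_, ?_⟩)
    · refine Prod.ext ?_ ?_ <;> dsimp only <;> ring
    · refine Prod.ext ?_ ?_ <;> dsimp only <;> ring
  · -- wallR
    apply EqvGen.rel
    refine Or.inr (Or.inr ⟨s, by omega, ?_, ?_⟩)
    · refine Prod.ext ?_ ?_ <;> dsimp only <;> push_cast <;> ring
    · refine Prod.ext ?_ ?_ <;> dsimp only <;> push_cast <;> ring
  · -- top
    have hno : ∀ j : ℤ, ¬ (edz (j - 1) (2 * K) ∈ Gw m K ω) := by
      intro j; rw [mem_Gw]; rintro ⟨h, -⟩; omega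
    refine EqvGen.trans _ (((2 * i : ℕ) : ℤ) + 1, 2 * (K : ℤ) + 1) _ ?_ ?_
    · apply EqvGen.rel
      refine Or.inl ⟨((2 * i : ℕ) : ℤ), 2 * K, by omega, by omega,
        by show (0 : ℤ) ≤ 2 * K; omega, Or.inl ⟨?_, ?_, rfl⟩⟩
      · constructor
        · intro h; exact absurd h (hno _)
        · intro h; omega
      · refine Prod.ext ?_ ?_ <;> dsimp only <;> ring
    · apply EqvGen.symm
      apply EqvGen.rel
      refine Or.inl ⟨((2 * i : ℕ) : ℤ) + 1, 2 * K, by omega, by omega,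
        by show (0 : ℤ) ≤ 2 * K; omega, Or.inr ⟨?_, ?_, ?_⟩⟩
      · intro h
        exact (hno _) (h.2 (by omega))
      · refine Prod.ext ?_ ?_ <;> dsimp only <;> ring
      · refine Prod.ext ?_ ?_ <;> dsimp only <;> ring

end TSFs

open TSFs in
theorem t_SFs : S_SFs := by
  intro m M K ω hM
  obtain ⟨n, rfl⟩ : ∃ n, M = n + 1 := ⟨M - 1, by omega⟩
  have hG : ∀ e ∈ Gw m K ω, dco e < 2 * K := fun e he => he.1
  classical
  obtain ⟨hw, hl, h⟩ := KC.TSM.rep_XW n K (Gw m K ω) hG K le_rfl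
  have hX : KC.XW (2 * n + 2) (KC.cF K (Gw m K ω)) (KC.w0 (n + 1)) K =
      KC.XW (2 * (n + 1)) (cT m K ω) (KC.w0 (n + 1)) K := by
    have : 2 * (n + 1) = 2 * n + 2 := by ring
    rw [this]
    exact XW_congr _ _ _ _ _ (fun k i h1 _ _ => cF_eq m K ω k i h1)
  have e : 2 * ((K : ℤ) - K) = 0 := by ring
  rw [← hX]
  refine ⟨mem_LP.2 ⟨by rw [hl]; ring, hw⟩, fun a b ha hb => ?_⟩
  rw [h a b (by omega) (by omega)]
  simp only [e]
  constructor
  · intro hh
    have h1 := eqvGen_map (phi K) (fun p q k => EE_to_SF m n K ω p q k) hh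
    have c1 := phi_conn m (n + 1) K ω a 0 (by omega) (by push_cast; omega) (by omega)
    have c2 := phi_conn m (n + 1) K ω b 0 (by omega) (by push_cast; omega) (by omega)
    rw [neg_zero] at c1 c2
    exact c1.trans _ _ _ (h1.trans _ _ _ (c2.symm _ _))
  · intro hh
    have h1 := eqvGen_map (fun p : ℤ × ℤ => (p.1, -p.2)) (fun p q k => SF_to_EE m n K ω p q k) hh
    simpa using h1

end Pool.Agent.W808.KS
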