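import Pool.Agent.W808.KS.Stm

/-!
# An alternating row decides the connections of the half-infinite strip
-/

set_option autoImplicit false

namespace Pool.Agent.W808.KS
open Relation

namespace TSIs

/-- all steps, and all links of points of the same parity below the height `-2 s` -/
inductive SX (m M s : ℕ) (ω : ℤ × ℤ → Bool) : ℤ × ℤ → ℤ × ℤ → Prop
  | rise (j : ℕ) (t : ℤ) : j < 2 * M → t < 0 → ω ((m : ℤ) + j, t) = false →
      SX m M s ω (j, t) (j + 1, t + 1)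
  | fall (j : ℕ) (t : ℤ) : j < 2 * M → t < 0 → ω ((m : ℤ) + j, t) = true →
      SX m M s ω (j + 1, t) (j, t + 1)
  | wallL (i : ℕ) : SX m M s ω (0, -(2 * i : ℤ)) (0, -(2 * i : ℤ) - 2)
  | wallR (i : ℕ) : SX m M s ω ((2 * M : ℕ), -(2 * i : ℤ)) ((2 * M : ℕ), -(2 * i : ℤ) - 2)
  | low (x y : ℤ × ℤ) : x.2 < -(2 * s : ℤ) → y.2 < -(2 * s : ℤ) →
      (x.1 + x.2) % 2 = (y.1 + y.2) % 2 → SX m M s ω x y

open Classical in
/-- the class of a point -/
noncomputable def G (m M s : ℕ) (ω : ℤ × ℤ → Bool) (x : ℤ × ℤ) : Option (Quot (SF m M s ω)) :=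
  if -(2 * s : ℤ) ≤ x.2 then some (Quot.mk _ x)
  else if (x.1 + x.2) % 2 = 0 then some (Quot.mk _ (0, -(2 * s : ℤ))) else none

lemma G_up {m M s : ℕ} {ω : ℤ × ℤ → Bool} {x : ℤ × ℤ} (h : -(2 * s : ℤ) ≤ x.2) :
    G m M s ω x = some (Quot.mk _ x) := by
  unfold G; rw [if_pos h]

lemma G_ev {m M s : ℕ} {ω : ℤ × ℤ → Bool} {x : ℤ × ℤ} (h : x.2 < -(2 * s : ℤ))
    (h2 : (x.1 + x.2) % 2 = 0) : G m M s ω x = some (Quot.mk _ (0, -(2 * s : ℤ))) := by
  unfold G; rw [if_neg (not_le.2 h), if_pos h2]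

lemma G_low {m M s : ℕ} {ω : ℤ × ℤ → Bool} {x y : ℤ × ℤ} (h : x.2 < -(2 * s : ℤ))
    (h' : y.2 < -(2 * s : ℤ)) (h2 : (x.1 + x.2) % 2 = (y.1 + y.2) % 2) :
    G m M s ω x = G m M s ω y := by
  unfold G; rw [if_neg (not_le.2 h), if_neg (not_le.2 h'), h2]

lemma even_top (m M s : ℕ) (ω : ℤ × ℤ → Bool) : ∀ i : ℕ, i ≤ M →
    (Quot.mk (SF m M s ω) (((2 * i : ℕ) : ℤ), -(2 * s : ℤ))) =
      Quot.mk _ (0, -(2 * s : ℤ)) := by
  intro i
  induction i with
  | zero => intro _; rfl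
  | succ i ih =>
    intro hi
    rw [← ih (by omega)]
    have h1 := Quot.sound (SF.top (m := m) (M := M) (K := s) (ω := ω) i (by omega))
    have e : (((2 * (i + 1) : ℕ) : ℤ), -(2 * s : ℤ)) =
        (((2 * i : ℕ) : ℤ) + 2, -(2 * s : ℤ)) := by
      rw [Prod.mk.injEq]
      constructor
      · push_cast; ring
      · rfl
    rw [e]
    exact h1.symm

lemma G_step {m M s : ℕ} {ω : ℤ × ℤ → Bool} (hA : AltS m M ω (-(2 * s : ℤ) - 1))
    {x y : ℤ × ℤ} (h : SX m M s ω x y) : G m M s ω x = G m M s ω y := by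
  cases h with
  | rise j t hj ht hω =>
    rcases lt_trichotomy t (-(2 * s : ℤ) - 1) with h1 | h1 | h1
    · refine G_low ?_ ?_ ?_
      · change t < _; omega
      · change t + 1 < _; omega
      · change ((j : ℤ) + t) % 2 = ((j : ℤ) + 1 + (t + 1)) % 2; omega
    · rw [h1] at hω
      rw [hA j hj, decide_eq_false_iff_not] at hω
      rw [G_ev (x := ((j : ℤ), t)) (by change t < _; omega)
        (by change ((j : ℤ) + t) % 2 = 0; omega),
        G_up (x := ((j : ℤ) + 1, t + 1)) (by change _ ≤ t + 1; omega)]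
      obtain ⟨i, hi⟩ : ∃ i : ℕ, j + 1 = 2 * i := ⟨(j + 1) / 2, by omega⟩
      have e : ((j : ℤ) + 1, t + 1) = (((2 * i : ℕ) : ℤ), -(2 * s : ℤ)) := by
        rw [← hi, Prod.mk.injEq]
        constructor
        · push_cast; ring
        · omega
      rw [e, even_top m M s ω i (by omega)]
    · rw [G_up (x := ((j : ℤ), t)) (by change _ ≤ t; omega),
        G_up (x := ((j : ℤ) + 1, t + 1)) (by change _ ≤ t + 1; omega)]
      exact congrArg some (Quot.sound (SF.rise j t hj ht (by omega) hω))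
  | fall j t hj ht hω =>
    rcases lt_trichotomy t (-(2 * s : ℤ) - 1) with h1 | h1 | h1
    · refine G_low ?_ ?_ ?_
      · change t < _; omega
      · change t + 1 < _; omega
      · change ((j : ℤ) + 1 + t) % 2 = ((j : ℤ) + (t + 1)) % 2; omega
    · rw [h1] at hω
      rw [hA j hj, decide_eq_true_iff] at hω
      rw [G_ev (x := ((j : ℤ) + 1, t)) (by change t < _; omega)
        (by change ((j : ℤ) + 1 + t) % 2 = 0; omega),
        G_up (x := ((j : ℤ), t + 1)) (by change _ ≤ t + 1; omega)]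
      obtain ⟨i, hi⟩ : ∃ i : ℕ, j = 2 * i := ⟨j / 2, by omega⟩
      have e : ((j : ℤ), t + 1) = (((2 * i : ℕ) : ℤ), -(2 * s : ℤ)) := by
        rw [← hi, Prod.mk.injEq]
        constructor
        · rfl
        · omega
      rw [e, even_top m M s ω i (by omega)]
    · rw [G_up (x := ((j : ℤ) + 1, t)) (by change _ ≤ t; omega),
        G_up (x := ((j : ℤ), t + 1)) (by change _ ≤ t + 1; omega)]
      exact congrArg some (Quot.sound (SF.fall j t hj ht (by omega) hω))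
  | wallL i =>
    rcases lt_trichotomy i s with h1 | h1 | h1
    · rw [G_up (x := (0, -(2 * i : ℤ))) (by change _ ≤ -(2 * i : ℤ); omega),
        G_up (x := (0, -(2 * i : ℤ) - 2)) (by change _ ≤ -(2 * i : ℤ) - 2; omega)]
      exact congrArg some (Quot.sound (SF.wallL i h1))
    · rw [G_up (x := (0, -(2 * i : ℤ))) (by change _ ≤ -(2 * i : ℤ); omega),
        G_ev (x := (0, -(2 * i : ℤ) - 2)) (by change -(2 * i : ℤ) - 2 < _; omega)
        (by change ((0 : ℤ) + (-(2 * i : ℤ) - 2)) % 2 = 0; omega), h1]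
    · refine G_low ?_ ?_ ?_
      · change -(2 * i : ℤ) < _; omega
      · change -(2 * i : ℤ) - 2 < _; omega
      · change ((0 : ℤ) + -(2 * i : ℤ)) % 2 = ((0 : ℤ) + (-(2 * i : ℤ) - 2)) % 2; omega
  | wallR i =>
    rcases lt_trichotomy i s with h1 | h1 | h1
    · rw [G_up (x := (((2 * M : ℕ) : ℤ), -(2 * i : ℤ))) (by change _ ≤ -(2 * i : ℤ); omega),
        G_up (x := (((2 * M : ℕ) : ℤ), -(2 * i : ℤ) - 2)) (by change _ ≤ -(2 * i : ℤ) - 2; omega)]
      exact congrArg some (Quot.sound (SF.wallR i h1))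
    · rw [G_up (x := (((2 * M : ℕ) : ℤ), -(2 * i : ℤ))) (by change _ ≤ -(2 * i : ℤ); omega),
        G_ev (x := (((2 * M : ℕ) : ℤ), -(2 * i : ℤ) - 2)) (by change -(2 * i : ℤ) - 2 < _; omega)
        (by change (((2 * M : ℕ) : ℤ) + (-(2 * i : ℤ) - 2)) % 2 = 0; omega), h1,
        even_top m M s ω M le_rfl]
    · refine G_low ?_ ?_ ?_
      · change -(2 * i : ℤ) < _; omega
      · change -(2 * i : ℤ) - 2 < _; omega
      · change (((2 * M : ℕ) : ℤ) + -(2 * i : ℤ)) % 2 =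
          (((2 * M : ℕ) : ℤ) + (-(2 * i : ℤ) - 2)) % 2
        omega
  | low _ _ h1 h2 h3 => exact G_low h1 h2 h3

lemma G_gen {m M s : ℕ} {ω : ℤ × ℤ → Bool} (hA : AltS m M ω (-(2 * s : ℤ) - 1))
    {R : ℤ × ℤ → ℤ × ℤ → Prop} (hR : ∀ x y, R x y → SX m M s ω x y) {x y : ℤ × ℤ}
    (h : EqvGen R x y) : G m M s ω x = G m M s ω y := by
  induction h with
  | rel x y h => exact G_step hA (hR _ _ h)
  | refl x => rfl
  | symm x y _ ih => exact ih.symm
  | trans x y z _ _ h1 h2 => exact h1.trans h2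

/-- down to the strip closed at the height `-2 s` -/
lemma down {m M s : ℕ} {ω : ℤ × ℤ → Bool} (hA : AltS m M ω (-(2 * s : ℤ) - 1))
    {R : ℤ × ℤ → ℤ × ℤ → Prop} (hR : ∀ x y, R x y → SX m M s ω x y) (a b : ℤ)
    (h : EqvGen R (a, 0) (b, 0)) : EqvGen (SF m M s ω) (a, 0) (b, 0) := by
  have h1 := G_gen hA hR h
  rw [G_up (x := (a, 0)) (by change _ ≤ (0 : ℤ); omega),
    G_up (x := (b, 0)) (by change _ ≤ (0 : ℤ); omega)] at h1
  exact Quot.eqvGen_exact (Option.some.inj h1)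

/-- and back -/
lemma back {m M s : ℕ} {ω : ℤ × ℤ → Bool} (hA : AltS m M ω (-(2 * s : ℤ) - 1))
    {R : ℤ × ℤ → ℤ × ℤ → Prop}
    (h1 : ∀ (j : ℕ) (t : ℤ), j < 2 * M → t < 0 → -(2 * s : ℤ) - 1 ≤ t →
      ω ((m : ℤ) + j, t) = false → R (j, t) (j + 1, t + 1))
    (h2 : ∀ (j : ℕ) (t : ℤ), j < 2 * M → t < 0 → -(2 * s : ℤ) - 1 ≤ t →
      ω ((m : ℤ) + j, t) = true → R (j + 1, t) (j, t + 1))
    (h3 : ∀ i : ℕ, i < s → R (0, -(2 * i : ℤ)) (0, -(2 * i : ℤ) - 2))
    (h4 : ∀ i : ℕ, i < s → R ((2 * M : ℕ), -(2 * i : ℤ)) ((2 * M : ℕ), -(2 * i : ℤ) - 2))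
    {x y : ℤ × ℤ} (h : EqvGen (SF m M s ω) x y) : EqvGen R x y := by
  induction h with
  | rel x y h =>
    cases h with
    | rise j t hj ht hts hω => exact EqvGen.rel _ _ (h1 j t hj ht (by omega) hω)
    | fall j t hj ht hts hω => exact EqvGen.rel _ _ (h2 j t hj ht (by omega) hω)
    | wallL i hi => exact EqvGen.rel _ _ (h3 i hi)
    | wallR i hi => exact EqvGen.rel _ _ (h4 i hi)
    | top i hi =>
      have e1 := h2 (2 * i) (-(2 * s : ℤ) - 1) (by omega) (by omega) le_rfl (by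
        rw [hA (2 * i) (by omega), decide_eq_true_iff]; omega)
      have e2 := h1 (2 * i + 1) (-(2 * s : ℤ) - 1) (by omega) (by omega) le_rfl (by
        rw [hA (2 * i + 1) (by omega), decide_eq_false_iff_not]; omega)
      have p1 : -(2 * s : ℤ) - 1 + 1 = -(2 * s : ℤ) := by ring
      have p2 : (((2 * i + 1 : ℕ) : ℤ)) = ((2 * i : ℕ) : ℤ) + 1 := by push_cast; ring
      have p3 : ((2 * i : ℕ) : ℤ) + 1 + 1 = ((2 * i : ℕ) : ℤ) + 2 := by ring
      rw [p1] at e1 e2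
      rw [p2, p3] at e2
      exact EqvGen.trans _ _ _ (EqvGen.symm _ _ (EqvGen.rel _ _ e1)) (EqvGen.rel _ _ e2)
  | refl x => exact EqvGen.refl x
  | symm x y _ ih => exact EqvGen.symm _ _ ih
  | trans x y z _ _ h1 h2 => exact EqvGen.trans _ _ _ h1 h2

lemma SI_SX {m M : ℕ} (s : ℕ) {ω : ℤ × ℤ → Bool} (x y : ℤ × ℤ) (h : SI m M ω x y) :
    SX m M s ω x y := by
  cases h with
  | rise j t h1 h2 h3 => exact SX.rise j t h1 h2 h3
  | fall j t h1 h2 h3 => exact SX.fall j t h1 h2 h3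
  | wallL i => exact SX.wallL i
  | wallR i => exact SX.wallR i

lemma SF_SX {m M K : ℕ} (s : ℕ) (hs : s < K) {ω : ℤ × ℤ → Bool} (x y : ℤ × ℤ)
    (h : SF m M K ω x y) : SX m M s ω x y := by
  cases h with
  | rise j t h1 h2 h3 h4 => exact SX.rise j t h1 h2 h4
  | fall j t h1 h2 h3 h4 => exact SX.fall j t h1 h2 h4
  | wallL i hi => exact SX.wallL i
  | wallR i hi => exact SX.wallR i
  | top i hi =>
    refine SX.low _ _ ?_ ?_ ?_
    · change -(2 * K : ℤ) < _; omega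
    · change -(2 * K : ℤ) < _; omega
    · change (((2 * i : ℕ) : ℤ) + -(2 * K : ℤ)) % 2 = (((2 * i : ℕ) : ℤ) + 2 + -(2 * K : ℤ)) % 2
      omega

end TSIs

open TSIs in
theorem t_SIs : S_SFs → S_SIs := by
  intro hF m M K s ω hM hs hA a b ha hb
  rw [(hF m M K ω hM).2 a b ha hb]
  constructor
  · intro h
    exact back hA (fun j t h1 h2 _ h4 => SI.rise j t h1 h2 h4)
      (fun j t h1 h2 _ h4 => SI.fall j t h1 h2 h4) (fun i _ => SI.wallL i) (fun i _ => SI.wallR i)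
      (down hA (SF_SX s hs) a b h)
  · intro h
    exact back hA (fun j t h1 h2 h3 h4 => SF.rise j t h1 h2 (by omega) h4)
      (fun j t h1 h2 h3 h4 => SF.fall j t h1 h2 (by omega) h4) (fun i hi => SF.wallL i (by omega))
      (fun i hi => SF.wallR i (by omega)) (down hA (SI_SX s) a b h)

end Pool.Agent.W808.KS
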