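import Pool.Agent.W808.KS.Stm
import Pool.Agent.W808.KC.T_TK

/-!
# KS-TKs: the determinants in the variables `T` (`S_TKs`)
-/

set_option autoImplicit false

namespace Pool.Agent.W808.KS
open Pool.Agent.H988R2.Perc (q_spec q_ne_zero)
open Pool.Agent.W808.HB (Xf Yf bet xY)
namespace TTKs
open Pool.Agent.W808.HB.TTK

theorem lam_lp (k : ℕ) (x : ℂ) (hx : x ≠ 0) :
    lam (List.replicate k 1) x = HB.lp q (List.replicate k 1) x := by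
  have hq := q_spec
  have h3 := q3 _ hq
  unfold lam HB.lp
  rw [List.map_replicate, List.map_replicate, List.prod_replicate, List.prod_replicate]
  congr 1
  unfold Xf Yf
  rw [inv_inv, inv_one]
  have : x * x⁻¹ = 1 := mul_inv_cancel₀ hx
  have e : (q : ℂ) = Pool.Agent.H988R2.Perc.q := rfl
  rw [e]
  linear_combination (-Pool.Agent.H988R2.Perc.q ^ 3) * this - h3

theorem bet1 (Y : ℂ) (hY : Y ≠ 0) : 1 + bet Y = (Y ^ 2 - Y + 1) / Y := by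
  unfold bet; field_simp; ring

theorem bet2 (Y : ℂ) (hY : Y ≠ 0) : 1 - 2 * bet Y = -((2 * Y - 1) * (Y - 2)) / Y := by
  unfold bet; field_simp; ring

theorem gs2_x (Y : ℂ) (hY : Y ≠ 0) (hW : Y ^ 2 - Y + 1 ≠ 0) :
    gs2 (xY q Y) = 3 * (1 - 2 * bet Y) / (1 + bet Y) ^ 2 := by
  have hq := q_spec
  have ha := a0 _ Y hq hW
  have hb := b0 _ Y hq hW
  have hq0 := q0 _ hq
  have h3 := q3 _ hq
  have e : (q : ℂ) = Pool.Agent.H988R2.Perc.q := rfl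
  unfold gs2
  rw [bet1 Y hY, bet2 Y hY, e]
  generalize Pool.Agent.H988R2.Perc.q = r at *
  have e1 : (xY r Y)⁻¹ - r * xY r Y = r * (1 - r) * (2 * Y - 1) / ((r + Y) * (1 + r * Y)) := by
    rw [xinv, xY, ← mul_div_assoc, div_sub_div _ _ hb ha, mul_comm (1 + r * Y) (r + Y)]
    congr 1
    linear_combination (-Y ^ 2) * h3
  have e2 : (xY r Y)⁻¹ - r ^ 2 * xY r Y = (1 - r) * (Y ^ 2 - 2 * Y) / ((r + Y) * (1 + r * Y)) := by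
    rw [xinv, xY, ← mul_div_assoc, div_sub_div _ _ hb ha, mul_comm (1 + r * Y) (r + Y)]
    congr 1
    linear_combination (-2 * Y - r * Y ^ 2) * h3
  have hr : (1 - r) ^ 2 = -3 * r := by linear_combination hq
  have hW2 : r * (Y ^ 2 - Y + 1) ≠ 0 := mul_ne_zero hq0 hW
  rw [e1, e2, ab r Y hq, div_mul_div_comm]
  have e3 : 3 * (-((2 * Y - 1) * (Y - 2)) / Y) / ((Y ^ 2 - Y + 1) / Y) ^ 2
      = -3 * r * r * ((2 * Y - 1) * (Y ^ 2 - 2 * Y))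
        / (r * (Y ^ 2 - Y + 1) * (r * (Y ^ 2 - Y + 1))) := by
    generalize Y ^ 2 - Y + 1 = W at *
    field_simp
  rw [e3]
  congr 1
  linear_combination (r * (2 * Y - 1) * (Y ^ 2 - 2 * Y)) * hr

theorem s_sq (Y y : ℂ) (hW : Y ^ 2 - Y + 1 ≠ 0) (hy : y ^ 2 = xY q Y) (hy0 : y ≠ 0) :
    (y⁻¹ - q * y) ^ 2 = -3 * q * Y ^ 2 / (Y ^ 2 - Y + 1) := by
  have hq := q_spec
  have ha := a0 _ Y hq hW
  have hb := b0 _ Y hq hW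
  have hq0 := q0 _ hq
  have h3 := q3 _ hq
  have e : (y⁻¹ - q * y) ^ 2 = (xY q Y)⁻¹ - 2 * q + q ^ 2 * xY q Y := by
    rw [← hy]; field_simp; ring
  rw [e, xinv, xY]
  have e' : (q : ℂ) = Pool.Agent.H988R2.Perc.q := rfl
  rw [e']
  generalize Pool.Agent.H988R2.Perc.q = r at *
  have e1 : (r + Y) / (1 + r * Y) - 2 * r + r ^ 2 * ((1 + r * Y) / (r + Y))
      = ((r + Y) - r * (1 + r * Y)) ^ 2 / ((r + Y) * (1 + r * Y)) := by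
    field_simp
    ring
  rw [e1, ab r Y hq, div_eq_div_iff (mul_ne_zero hq0 hW) hW]
  have h4 : (1 - r ^ 2) ^ 2 = -3 * r ^ 2 := by linear_combination (r ^ 2 - r + 1) * hq
  linear_combination (Y ^ 2 * (Y ^ 2 - Y + 1)) * h4

theorem s_mul (Y y : ℂ) (hW : Y ^ 2 - Y + 1 ≠ 0) (hy : y ^ 2 = xY q Y) (hy0 : y ≠ 0) :
    (y⁻¹ - q * y) * (y - q * y⁻¹) = -3 * q * Y / (Y ^ 2 - Y + 1) := by
  have hq := q_spec
  have e : (y⁻¹ - q * y) * (y - q * y⁻¹) = 1 + q ^ 2 - q * Xf (xY q Y) := by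
    rw [← hy, Xf]; field_simp; ring
  rw [e, Xf_x _ Y hq hW, eq_div_iff hW]
  have e' : (q : ℂ) = Pool.Agent.H988R2.Perc.q := rfl
  rw [e']
  generalize Pool.Agent.H988R2.Perc.q = r at *
  rw [sub_mul, mul_assoc r, div_mul_cancel₀ _ hW]
  linear_combination (Y ^ 2 - Y + 1) * hq

/-- `s = c T`, `s' = c / T`, `c ^ 2 = - 3 q / (1 + b)` -/
theorem cex (T y : ℂ) (hT : T ≠ 0) (hW : (T ^ 2) ^ 2 - T ^ 2 + 1 ≠ 0) (hy : y ^ 2 = xY q (T ^ 2)) :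
    ∃ c : ℂ, c ^ 2 = -3 * q / (1 + bet (T ^ 2)) ∧ (∀ ε, sg ε y = c ^ ε * T ^ ε) ∧
      ∀ ε, sg ε y⁻¹ = c ^ ε * T⁻¹ ^ ε := by
  have hq := q_spec
  have ha := a0 _ _ hq hW
  have hb := b0 _ _ hq hW
  have hq0 : (q : ℂ) ≠ 0 := q0 _ hq
  have hY : T ^ 2 ≠ 0 := pow_ne_zero 2 hT
  have hy0 : y ≠ 0 := by
    rintro rfl
    rw [xY] at hy
    exact div_ne_zero hb ha (by rw [← hy]; norm_num)
  have h1 := s_sq (T ^ 2) y hW hy hy0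
  have h2 := s_mul (T ^ 2) y hW hy hy0
  have hs : y⁻¹ - q * y ≠ 0 := by
    intro h
    rw [h] at h1
    have h3 : -3 * q * (T ^ 2) ^ 2 / ((T ^ 2) ^ 2 - T ^ 2 + 1) ≠ 0 :=
      div_ne_zero (mul_ne_zero (mul_ne_zero (by norm_num) hq0) (pow_ne_zero 2 hY)) hW
    exact h3 (by rw [← h1]; norm_num)
  have hc2 : ((y⁻¹ - q * y) / T) ^ 2 = -3 * q * T ^ 2 / ((T ^ 2) ^ 2 - T ^ 2 + 1) := by
    rw [div_pow, h1, div_eq_iff hY, div_mul_eq_mul_div]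
    congr 1
    ring
  have hs' : y - q * y⁻¹ = (y⁻¹ - q * y) / T * T⁻¹ := by
    have h5 : (y⁻¹ - q * y) * (y - q * y⁻¹) = (y⁻¹ - q * y) * ((y⁻¹ - q * y) / T * T⁻¹) := by
      rw [h2, ← hc2]
      field_simp
    exact mul_left_cancel₀ hs h5
  refine ⟨(y⁻¹ - q * y) / T, ?_, fun ε => ?_, fun ε => ?_⟩
  · rw [hc2, bet1 _ hY, div_div_eq_mul_div]
  · rw [sg, ← mul_pow, div_mul_cancel₀ _ hT]
  · rw [sg, ← mul_pow, inv_inv, hs']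

theorem term2 (Y b : ℂ) (t : ℕ) (hY : Y ≠ 0)
    (hW : Y ^ 2 - Y + 1 ≠ 0) (hb : 1 + b ≠ 0)
    (hd : 1 - b * (Y * (Y - 1)) ≠ 0) :
    gs2 (xY q Y) * HB.lp q (List.replicate t 1) (xY q Y) / ((2 - b) / (1 + b) - Yf q (xY q Y))
      = 3 ^ t * (1 - 2 * bet Y) / (1 + bet Y) ^ (t + 1) * (1 + b)
        * (Y ^ (t + 1) / (1 - b * (Y * (Y - 1)))) := by
  have hq := q_spec
  have e3 : (2 - b) / (1 + b) - Yf q (xY q Y)
      = 3 * (1 - b * (Y * (Y - 1))) / ((1 + b) * (Y ^ 2 - Y + 1)) := by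
    rw [Yf_x _ Y hq hW, div_sub_div _ _ hb hW]
    congr 1; ring
  have hB : 1 + bet Y ≠ 0 := by rw [bet1 Y hY]; exact div_ne_zero hW hY
  have e4 : Y ^ 2 - Y + 1 = Y * (1 + bet Y) := by rw [bet1 Y hY]; field_simp
  rw [gs2_x Y hY hW, lp_x _ Y hq hW t, e3, e4]
  generalize 1 + bet Y = B at *
  generalize 1 - 2 * bet Y = F at *
  generalize 1 - b * (Y * (Y - 1)) = D at *
  rw [div_pow, mul_pow, mul_pow, ← pow_mul, mul_comm 2 t, pow_mul]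
  field_simp
  ring

end TTKs

open TTKs Pool.Agent.W808.HB.TTK in
theorem t_TKs : S_TKs := by
  intro ε k M T y hε hpos hne hy hd hd'
  have hq := q_spec
  have hT : ∀ i, (T i : ℂ) ≠ 0 := fun i => by exact_mod_cast (hpos i).ne'
  have hY : ∀ i, (T i : ℂ) ^ 2 ≠ 0 := fun i => pow_ne_zero 2 (hT i)
  have hW : ∀ i, ((T i : ℂ) ^ 2) ^ 2 - (T i : ℂ) ^ 2 + 1 ≠ 0 := fun i => by
    have : ((T i) ^ 2) ^ 2 - (T i) ^ 2 + 1 ≠ 0 := by nlinarith [sq_nonneg ((T i) ^ 2 - 1), hpos i, sq_nonneg ((T i)^2)]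
    exact_mod_cast this
  have hE : ∀ i, ((T i : ℂ) ^ 2) ^ 2 - 1 ≠ 0 := fun i => by
    have : ((T i) ^ 2) ^ 2 - 1 ≠ 0 := by
      intro h
      have h2 : (T i - 1) * ((T i + 1) * ((T i) ^ 2 + 1)) = 0 := by linear_combination h
      rcases mul_eq_zero.1 h2 with h3 | h3
      · exact hne i (by linarith)
      · have := hpos i
        have : 0 < (T i + 1) * ((T i) ^ 2 + 1) := by positivity
        linarith
    exact_mod_cast this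
  have hW' : ∀ i, (((T i : ℂ)⁻¹) ^ 2) ^ 2 - ((T i : ℂ)⁻¹) ^ 2 + 1 ≠ 0 := fun i => by
    have : (((T i : ℂ)⁻¹) ^ 2) ^ 2 - ((T i : ℂ)⁻¹) ^ 2 + 1
        = (((T i : ℂ) ^ 2) ^ 2 - (T i : ℂ) ^ 2 + 1) / ((T i : ℂ) ^ 2) ^ 2 := by
      have := hT i
      field_simp
      ring
    rw [this]
    exact div_ne_zero (hW i) (pow_ne_zero 2 (hY i))
  have hE' : ∀ i, (((T i : ℂ)⁻¹) ^ 2) ^ 2 - 1 ≠ 0 := fun i => by
    have : (((T i : ℂ)⁻¹) ^ 2) ^ 2 - 1 = -(((T i : ℂ) ^ 2) ^ 2 - 1) / ((T i : ℂ) ^ 2) ^ 2 := by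
      have := hT i
      field_simp
      ring
    rw [this]
    exact div_ne_zero (neg_ne_zero.2 (hE i)) (pow_ne_zero 2 (hY i))
  have hB : ∀ i, 1 + bet ((T i : ℂ) ^ 2) ≠ 0 := fun i => by
    rw [bet1 _ (hY i)]
    exact div_ne_zero (hW i) (hY i)
  have hTT : ∀ i, (T i : ℂ) + (T i : ℂ)⁻¹ ≠ 0 := fun i => by
    have : T i + (T i)⁻¹ ≠ 0 := by
      have := hpos i
      have : 0 < T i + (T i)⁻¹ := by positivity
      exact this.ne'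
    exact_mod_cast this
  have hX : ∀ i, Xf (y i ^ 2) = (2 - bet ((T i : ℂ) ^ 2)) / (1 + bet ((T i : ℂ) ^ 2)) := fun i => by
    rw [hy i, Xf_x _ _ hq (hW i), div_eq_div_iff (hW i) (hB i)]
    have := hY i
    generalize (T i : ℂ) ^ 2 = Y at *
    unfold bet; field_simp; ring
  have hyi : ∀ i, (y i)⁻¹ ^ 2 = xY q ((T i : ℂ)⁻¹ ^ 2) := fun i => by
    rw [inv_pow, hy i, inv_pow, xYinv _ _ (hY i)]
  have hx0 : ∀ i, xY q ((T i : ℂ) ^ 2) ≠ 0 := fun i =>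
    div_ne_zero (b0 _ _ hq (hW i)) (a0 _ _ hq (hW i))
  have hx0' : ∀ i, xY q ((T i : ℂ)⁻¹ ^ 2) ≠ 0 := fun i =>
    div_ne_zero (b0 _ _ hq (hW' i)) (a0 _ _ hq (hW' i))
  have hbi : ∀ i, bet ((T i : ℂ)⁻¹ ^ 2) = bet ((T i : ℂ) ^ 2) := fun i => by
    rw [inv_pow, bet_inv _ (hY i)]
  choose c hc1 hc2 hc3 using fun i => cex (T i : ℂ) (y i) (hT i) (hW i) (hy i)
  have ent1 : ∀ i j, g1 ε (y j) * lam (List.replicate k 1) (y j ^ 2)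
        / (Xf (y i ^ 2) - Yf q (y j ^ 2))
      + g1 ε (y j)⁻¹ * lam (List.replicate k 1) ((y j)⁻¹ ^ 2)
        / (Xf (y i ^ 2) - Yf q ((y j)⁻¹ ^ 2))
      = (1 + bet ((T i : ℂ) ^ 2)) * (((-(q * (q - 1)) / 3 * 3 ^ k) * c j ^ ε *
          (1 - 2 * bet ((T j : ℂ) ^ 2)) / (1 + bet ((T j : ℂ) ^ 2)) ^ k
          / ((T j : ℂ) + (T j : ℂ)⁻¹) ^ ε)
        * K1 ε k (bet ((T i : ℂ) ^ 2)) (T j)) := by
    intro i j
    have t1 := KC.TTK.term ((T j : ℂ) ^ 2) (bet ((T i : ℂ) ^ 2)) k (hY j) (hW j) (hE j) (hB i) (hd i j)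
    have t2 := KC.TTK.term ((T j : ℂ)⁻¹ ^ 2) (bet ((T i : ℂ) ^ 2)) k
      (pow_ne_zero 2 (inv_ne_zero (hT j))) (hW' j) (hE' j) (hB i) (hd' i j)
    have l1 : g1 ε (y j) * lam (List.replicate k 1) (y j ^ 2) / (Xf (y i ^ 2) - Yf q (y j ^ 2))
        = (c j ^ ε * (T j : ℂ) ^ ε) * (KC.gs (xY q ((T j : ℂ) ^ 2)) *
          HB.lp q (List.replicate k 1) (xY q ((T j : ℂ) ^ 2)) /
          ((2 - bet ((T i : ℂ) ^ 2)) / (1 + bet ((T i : ℂ) ^ 2)) - Yf q (xY q ((T j : ℂ) ^ 2)))) := by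
      rw [g1, hc2 j ε, hX i, hy j, lam_lp k _ (hx0 j)]
      ring
    have l2 : g1 ε (y j)⁻¹ * lam (List.replicate k 1) ((y j)⁻¹ ^ 2)
          / (Xf (y i ^ 2) - Yf q ((y j)⁻¹ ^ 2))
        = (c j ^ ε * (T j : ℂ)⁻¹ ^ ε) * (KC.gs (xY q ((T j : ℂ)⁻¹ ^ 2)) *
          HB.lp q (List.replicate k 1) (xY q ((T j : ℂ)⁻¹ ^ 2)) /
          ((2 - bet ((T i : ℂ) ^ 2)) / (1 + bet ((T i : ℂ) ^ 2)) - Yf q (xY q ((T j : ℂ)⁻¹ ^ 2)))) := by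
      rw [g1, hc3 j ε, hX i, hyi j, lam_lp k _ (hx0' j)]
      ring
    rw [l1, l2]
    erw [t1, t2]
    rw [hbi j, K1]
    have h5 : ((T j : ℂ)⁻¹ ^ 2) - ((T j : ℂ)⁻¹ ^ 2)⁻¹
        = -((T j : ℂ) ^ 2 - ((T j : ℂ) ^ 2)⁻¹) := by
      rw [inv_pow, inv_inv]; ring
    rw [h5, div_neg]
    have h6 : (T j : ℂ) ^ 2 - (T j : ℂ)⁻¹ ^ 2 = (T j : ℂ) ^ 2 - ((T j : ℂ) ^ 2)⁻¹ := by rw [inv_pow]
    rw [h6]
    have h7 : (T j : ℂ) ^ (2 + 2 * k + ε) = (T j : ℂ) ^ ε * ((T j : ℂ) ^ 2) ^ (k + 1) := by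
      rw [← pow_mul, ← pow_add]; congr 1; ring
    have h8 : (T j : ℂ)⁻¹ ^ (2 + 2 * k + ε) = (T j : ℂ)⁻¹ ^ ε * ((T j : ℂ)⁻¹ ^ 2) ^ (k + 1) := by
      rw [← pow_mul, ← pow_add]; congr 1; ring
    rw [h7, h8]
    have h9 : ((T j : ℂ) + (T j : ℂ)⁻¹) ^ ε ≠ 0 := pow_ne_zero _ (hTT j)
    generalize ((T j : ℂ) + (T j : ℂ)⁻¹) ^ ε = Z at *
    generalize (T j : ℂ) ^ 2 - ((T j : ℂ) ^ 2)⁻¹ = Z2 at *
    generalize (1 - bet ((T i : ℂ) ^ 2) * ((T j : ℂ) ^ 2 * ((T j : ℂ) ^ 2 - 1))) = D1 at *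
    generalize (1 - bet ((T i : ℂ) ^ 2) * ((T j : ℂ)⁻¹ ^ 2 * ((T j : ℂ)⁻¹ ^ 2 - 1))) = D2 at *
    generalize ((T j : ℂ)⁻¹ ^ 2) ^ (k + 1) = P1 at *
    generalize ((T j : ℂ) ^ 2) ^ (k + 1) = P2 at *
    generalize (T j : ℂ)⁻¹ ^ ε = P3 at *
    generalize (T j : ℂ) ^ ε = P4 at *
    generalize c j ^ ε = P5 at *
    generalize -(Pool.Agent.H988R2.Perc.q * (Pool.Agent.H988R2.Perc.q - 1)) / 3 * 3 ^ k = P6 at *
    field_simp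
    ring
  have ent2 : ∀ i j, g2 ε (y j) * lam (List.replicate k 1) (y j ^ 2)
        / (Xf (y i ^ 2) - Yf q (y j ^ 2))
      + g2 ε (y j)⁻¹ * lam (List.replicate k 1) ((y j)⁻¹ ^ 2)
        / (Xf (y i ^ 2) - Yf q ((y j)⁻¹ ^ 2))
      = (1 + bet ((T i : ℂ) ^ 2)) * ((3 ^ k * c j ^ ε *
          (1 - 2 * bet ((T j : ℂ) ^ 2)) / (1 + bet ((T j : ℂ) ^ 2)) ^ (k + 1)
          * ((T j : ℂ) + (T j : ℂ)⁻¹) ^ ε)
        * K2 ε k (bet ((T i : ℂ) ^ 2)) (T j)) := by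
    intro i j
    have t1 := term2 ((T j : ℂ) ^ 2) (bet ((T i : ℂ) ^ 2)) k (hY j) (hW j) (hB i) (hd i j)
    have t2 := term2 ((T j : ℂ)⁻¹ ^ 2) (bet ((T i : ℂ) ^ 2)) k
      (pow_ne_zero 2 (inv_ne_zero (hT j))) (hW' j) (hB i) (hd' i j)
    have l1 : g2 ε (y j) * lam (List.replicate k 1) (y j ^ 2) / (Xf (y i ^ 2) - Yf q (y j ^ 2))
        = (c j ^ ε * (T j : ℂ) ^ ε) * (gs2 (xY q ((T j : ℂ) ^ 2)) *
          HB.lp q (List.replicate k 1) (xY q ((T j : ℂ) ^ 2)) /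
          ((2 - bet ((T i : ℂ) ^ 2)) / (1 + bet ((T i : ℂ) ^ 2)) - Yf q (xY q ((T j : ℂ) ^ 2)))) := by
      rw [g2, hc2 j ε, hX i, hy j, lam_lp k _ (hx0 j)]
      ring
    have l2 : g2 ε (y j)⁻¹ * lam (List.replicate k 1) ((y j)⁻¹ ^ 2)
          / (Xf (y i ^ 2) - Yf q ((y j)⁻¹ ^ 2))
        = (c j ^ ε * (T j : ℂ)⁻¹ ^ ε) * (gs2 (xY q ((T j : ℂ)⁻¹ ^ 2)) *
          HB.lp q (List.replicate k 1) (xY q ((T j : ℂ)⁻¹ ^ 2)) /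
          ((2 - bet ((T i : ℂ) ^ 2)) / (1 + bet ((T i : ℂ) ^ 2)) - Yf q (xY q ((T j : ℂ)⁻¹ ^ 2)))) := by
      rw [g2, hc3 j ε, hX i, hyi j, lam_lp k _ (hx0' j)]
      ring
    rw [l1, l2, t1, t2, hbi j, K2]
    have h7 : (T j : ℂ) ^ (2 + 2 * k + ε) = (T j : ℂ) ^ ε * ((T j : ℂ) ^ 2) ^ (k + 1) := by
      rw [← pow_mul, ← pow_add]; congr 1; ring
    have h8 : (T j : ℂ)⁻¹ ^ (2 + 2 * k + ε) = (T j : ℂ)⁻¹ ^ ε * ((T j : ℂ)⁻¹ ^ 2) ^ (k + 1) := by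
      rw [← pow_mul, ← pow_add]; congr 1; ring
    rw [h7, h8]
    have h9 : ((T j : ℂ) + (T j : ℂ)⁻¹) ^ ε ≠ 0 := pow_ne_zero _ (hTT j)
    generalize ((T j : ℂ) + (T j : ℂ)⁻¹) ^ ε = Z at *
    generalize (1 - bet ((T i : ℂ) ^ 2) * ((T j : ℂ) ^ 2 * ((T j : ℂ) ^ 2 - 1))) = D1 at *
    generalize (1 - bet ((T i : ℂ) ^ 2) * ((T j : ℂ)⁻¹ ^ 2 * ((T j : ℂ)⁻¹ ^ 2 - 1))) = D2 at *
    generalize ((T j : ℂ)⁻¹ ^ 2) ^ (k + 1) = P1 at *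
    generalize ((T j : ℂ) ^ 2) ^ (k + 1) = P2 at *
    generalize (T j : ℂ)⁻¹ ^ ε = P3 at *
    generalize (T j : ℂ) ^ ε = P4 at *
    generalize c j ^ ε = P5 at *
    generalize (1 + bet ((T j : ℂ) ^ 2)) ^ (k + 1) = P6 at *
    field_simp
  have d1 : DT (g1 ε) (List.replicate k 1) y
      = (∏ i, (1 + bet ((T i : ℂ) ^ 2))) * ((∏ j, (-(q * (q - 1)) / 3 * 3 ^ k) * c j ^ ε *
          (1 - 2 * bet ((T j : ℂ) ^ 2)) / (1 + bet ((T j : ℂ) ^ 2)) ^ k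
          / ((T j : ℂ) + (T j : ℂ)⁻¹) ^ ε)
        * (Matrix.of fun i j : Fin M => K1 ε k (bet ((T i : ℂ) ^ 2)) (T j)).det) := by
    rw [← Matrix.det_mul_row, ← Matrix.det_mul_column]
    unfold DT
    congr 1
    ext i j
    simp only [Matrix.of_apply]
    exact ent1 i j
  have d2 : DT (g2 ε) (List.replicate k 1) y
      = (∏ i, (1 + bet ((T i : ℂ) ^ 2))) * ((∏ j, 3 ^ k * c j ^ ε *
          (1 - 2 * bet ((T j : ℂ) ^ 2)) / (1 + bet ((T j : ℂ) ^ 2)) ^ (k + 1)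
          * ((T j : ℂ) + (T j : ℂ)⁻¹) ^ ε)
        * (Matrix.of fun i j : Fin M => K2 ε k (bet ((T i : ℂ) ^ 2)) (T j)).det) := by
    rw [← Matrix.det_mul_row, ← Matrix.det_mul_column]
    unfold DT
    congr 1
    ext i j
    simp only [Matrix.of_apply]
    exact ent2 i j
  have qm1 : (q : ℂ) - 1 ≠ 0 := KC.TTK.qm1
  have hc : (q : ℂ) ^ 2 / (q - 1) = -(q * (q - 1)) / 3 := by
    rw [div_eq_iff qm1]
    have e' : (q : ℂ) = Pool.Agent.H988R2.Perc.q := rfl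
    rw [e']
    linear_combination (Pool.Agent.H988R2.Perc.q / 3) * hq
  have hP : (∏ i, (1 + bet ((T i : ℂ) ^ 2))) * (∏ j, (-(q * (q - 1)) / 3 * 3 ^ k) * c j ^ ε *
          (1 - 2 * bet ((T j : ℂ) ^ 2)) / (1 + bet ((T j : ℂ) ^ 2)) ^ k
          / ((T j : ℂ) + (T j : ℂ)⁻¹) ^ ε) *
        ((∏ i, (1 + bet ((T i : ℂ) ^ 2))) * (∏ j, 3 ^ k * c j ^ ε *
          (1 - 2 * bet ((T j : ℂ) ^ 2)) / (1 + bet ((T j : ℂ) ^ 2)) ^ (k + 1)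
          * ((T j : ℂ) + (T j : ℂ)⁻¹) ^ ε)) * ∏ j, (1 + bet ((T j : ℂ) ^ 2)) ^ (2 * k + ε)
      = (q ^ 2 / (q - 1) * 9 ^ k * (-3 * q) ^ ε) ^ M * (∏ j, (1 - 2 * bet ((T j : ℂ) ^ 2)) ^ 2) *
      (∏ j, (1 + bet ((T j : ℂ) ^ 2))) := by
    have : (q ^ 2 / (q - 1) * 9 ^ k * (-3 * q) ^ ε) ^ M
      = ∏ _j : Fin M, (q ^ 2 / (q - 1) * 9 ^ k * (-3 * q) ^ ε) := by simp
    rw [this]
    simp only [← Finset.prod_mul_distrib]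
    refine Finset.prod_congr rfl fun j _ => ?_
    have h1 := hB j
    have h2 := hTT j
    have h3 : c j ^ ε * c j ^ ε = (-3 * q / (1 + bet ((T j : ℂ) ^ 2))) ^ ε := by
      rw [← mul_pow, ← pow_two, hc1 j]
    have h4 : (9 : ℂ) ^ k = 3 ^ k * 3 ^ k := by rw [← mul_pow]; norm_num
    have h9 : ((T j : ℂ) + (T j : ℂ)⁻¹) ^ ε ≠ 0 := pow_ne_zero _ (hTT j)
    rw [div_pow] at h3
    have h5 : (1 + bet ((T j : ℂ) ^ 2)) ^ (2 * k + ε) = (1 + bet ((T j : ℂ) ^ 2)) ^ k *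
        (1 + bet ((T j : ℂ) ^ 2)) ^ k * (1 + bet ((T j : ℂ) ^ 2)) ^ ε := by
      rw [← pow_add, ← pow_add]; congr 1; ring
    rw [hc, h4, h5, pow_succ (1 + bet ((T j : ℂ) ^ 2)) k]
    have hk : (1 + bet ((T j : ℂ) ^ 2)) ^ k ≠ 0 := pow_ne_zero _ h1
    have he : (1 + bet ((T j : ℂ) ^ 2)) ^ ε ≠ 0 := pow_ne_zero _ h1
    generalize ((T j : ℂ) + (T j : ℂ)⁻¹) ^ ε = Z at *
    generalize (-3 * (q : ℂ)) ^ ε = Z1 at *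
    generalize (1 + bet ((T j : ℂ) ^ 2)) ^ ε = Z2 at *
    generalize (1 + bet ((T j : ℂ) ^ 2)) ^ k = Z3 at *
    generalize (1 - 2 * bet ((T j : ℂ) ^ 2)) = Z4 at *
    generalize (1 + bet ((T j : ℂ) ^ 2)) = Z5 at *
    generalize -((q : ℂ) * (q - 1)) / 3 = Z6 at *
    generalize c j ^ ε = Z7 at *
    have h10 : Z7 * Z7 * Z2 = Z1 := by rw [h3, div_mul_cancel₀ _ he]
    field_simp
    linear_combination (Z4 ^ 2 * Z6) * h10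
  rw [d1, d2, ← hP]
  ring

end Pool.Agent.W808.KS
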