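import Pool.Agent.W808.KS.Stm

/-!
# Task TP: elementary properties of the determinant `DT` (slit version)
-/

set_option autoImplicit false

namespace Pool.Agent.W808.KS

open Pool.Agent.W808.HB (Xf Yf)
open Pool.Agent.H988R2.Perc

namespace TTP

theorem lam_cons (c : ℂ) (C : List ℂ) (x : ℂ) :
    lam (c :: C) x = (Xf c - Yf q x⁻¹) * lam C x := by
  unfold lam
  simp

theorem lam_perm {C C' : List ℂ} (h : C.Perm C') (x : ℂ) : lam C x = lam C' x := by
  unfold lam
  exact (h.map _).prod_eq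

theorem Xf_inv (x : ℂ) : Xf x⁻¹ = Xf x := by
  unfold Xf
  rw [inv_inv]
  ring

/-- the entry -/
noncomputable def ent (g : ℂ → ℂ) (C : List ℂ) {M : ℕ} (y : Fin M → ℂ) (i j : Fin M) : ℂ :=
  g (y j) * lam C (y j ^ 2) / (Xf (y i ^ 2) - Yf q (y j ^ 2))
    + g (y j)⁻¹ * lam C ((y j)⁻¹ ^ 2) / (Xf (y i ^ 2) - Yf q ((y j)⁻¹ ^ 2))

theorem DT_eq (g : ℂ → ℂ) (C : List ℂ) {M : ℕ} (y : Fin M → ℂ) :
    DT g C y = (Matrix.of (ent g C y)).det := rfl

/-- the constant part -/
noncomputable def enc (g : ℂ → ℂ) (C : List ℂ) {M : ℕ} (y : Fin M → ℂ) (i j : Fin M) : ℂ :=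
  -(Yf q (y j ^ 2)⁻¹ * (g (y j) * lam C (y j ^ 2) / (Xf (y i ^ 2) - Yf q (y j ^ 2))))
    - Yf q ((y j)⁻¹ ^ 2)⁻¹ *
      (g (y j)⁻¹ * lam C ((y j)⁻¹ ^ 2) / (Xf (y i ^ 2) - Yf q ((y j)⁻¹ ^ 2)))

theorem ent_cons (g : ℂ → ℂ) (c : ℂ) (C : List ℂ) {M : ℕ} (y : Fin M → ℂ) (i j : Fin M) :
    ent g (c :: C) y i j = Xf c * ent g C y i j + enc g C y i j := by
  unfold ent enc
  rw [lam_cons, lam_cons]
  ring

end TTP

open TTP in
theorem t_TP : S_TP := by
  intro g C M y
  refine ⟨?_, ?_, ?_, ?_⟩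
  · refine ⟨((Polynomial.X : Polynomial ℂ) • (Matrix.of (ent g C y)).map Polynomial.C
      + (Matrix.of (enc g C y)).map Polynomial.C).det, ?_, ?_, ?_⟩
    · have h := Polynomial.natDegree_det_X_add_C_le (Matrix.of (ent g C y)) (Matrix.of (enc g C y))
      rwa [Fintype.card_fin] at h
    · intro c
      rw [DT_eq, ← Polynomial.coe_evalRingHom, RingHom.map_det]
      congr 1
      ext i j
      simp only [RingHom.mapMatrix_apply, Matrix.map_apply, Matrix.of_apply, Matrix.add_apply,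
        Matrix.smul_apply, Polynomial.coe_evalRingHom, smul_eq_mul, Polynomial.eval_add,
        Polynomial.eval_mul, Polynomial.eval_X, Polynomial.eval_C, ent_cons]
    · have h := Polynomial.coeff_det_X_add_C_card (Matrix.of (ent g C y)) (Matrix.of (enc g C y))
      rw [Fintype.card_fin] at h
      rw [h, DT_eq]
  · intro C' h
    unfold DT
    simp only [lam_perm h]
  · intro s
    rw [DT_eq, DT_eq, ← Matrix.det_submatrix_equiv_self s (Matrix.of (ent g C y))]
    rfl
  · intro i _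
    rw [DT_eq, DT_eq]
    congr 1
    ext a b
    simp only [Matrix.of_apply]
    have hX : ∀ k, Xf (Function.update y i (y i)⁻¹ k ^ 2) = Xf (y k ^ 2) := by
      intro k
      by_cases hk : k = i
      · subst hk
        rw [Function.update_self, inv_pow, Xf_inv]
      · rw [Function.update_of_ne hk]
    unfold ent
    rw [hX a]
    by_cases hb : b = i
    · subst hb
      rw [Function.update_self, inv_inv]
      ring
    · rw [Function.update_of_ne hb]

end Pool.Agent.W808.KS
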