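import Pool.Agent.W808.KS.Stm
import Pool.Agent.W808.HB.T_TR

/-!
# The recursion of the determinant with a general weight, by helper397
-/

set_option autoImplicit false

namespace Pool.Agent.W808.KS
open Pool.Agent.H160R2.ML (Gn)
open Pool.Agent.W808.HB (prs Xf Yf)

namespace TTR

theorem lam_cons (a : ℂ) (C : List ℂ) (x : ℂ) :
    lam (a :: C) x = (Xf a - Yf q x⁻¹) * lam C x := by
  simp [lam]

end TTR

open TTR Pool.Agent.W808.HB.T_TRaux in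
theorem t_TR : S_TR := by
  intro g C c0 M y0 y hG hc0
  have hq : q ^ 2 + q + 1 = 0 := Pool.Agent.H988R2.Perc.q_spec
  set x0 : ℂ := y0 ^ 2 with hx0d
  set x : Fin M → ℂ := sq y with hxd
  have hxe : ∀ j, y j ^ 2 = x j := fun j => rfl
  have hxi : ∀ j, (y j)⁻¹ ^ 2 = (x j)⁻¹ := fun j => by rw [inv_pow, hxe]
  have hx0i : y0⁻¹ ^ 2 = x0⁻¹ := by rw [inv_pow]
  have hG' : Gn (prs (List.ofFn (Fin.cons x0 x : Fin (M + 1) → ℂ))) := by
    rw [List.ofFn_succ]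
    simpa using hG
  obtain ⟨hz, hd⟩ := gn hG'
  have h0 : Nz x0 := by simpa using hz 0
  have hx : ∀ j, Nz (x j) := fun j => by simpa using hz j.succ
  have d0 : ∀ j, Df x0 (x j) := fun j => by
    simpa using hd 0 j.succ (Fin.succ_ne_zero j).symm
  have dx : ∀ i j, i ≠ j → Df (x i) (x j) := fun i j hij => by
    simpa using hd i.succ j.succ (fun h => hij (Fin.succ_injective _ h))
  clear hz hd hG' hG
  obtain ⟨n1, n2, n4, n5, n6⟩ := ne1 hq h0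
  have hx0 : x0 ≠ 0 := h0.1
  have yne : ∀ i j, Xf (x i) - Yf q (x j) ≠ 0 ∧ Xf (x i) - Yf q (x j)⁻¹ ≠ 0 := by
    intro i j
    by_cases h : i = j
    · subst h
      obtain ⟨-, -, -, a, b⟩ := ne1 hq (hx i)
      exact ⟨a, b⟩
    · exact (ne3 hq (hx i).1 (hx j).1 (dx i j h)).2
  have y0' : ∀ j, Xf x0 - Yf q (x j) ≠ 0 ∧ Xf x0 - Yf q (x j)⁻¹ ≠ 0 := fun j =>
    (ne3 hq hx0 (hx j).1 (d0 j)).2
  have yP : ∀ j, Xf (x j) - Yf q x0 ≠ 0 := fun j =>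
    (ne3 hq (hx j).1 hx0 (d0 j).symm).2.1
  unfold DT
  set N : Matrix (Fin (M + 1)) (Fin (M + 1)) ℂ := Matrix.of fun i j : Fin (M + 1) =>
    g ((Fin.cons y0 y : Fin (M + 1) → ℂ) j) *
        lam (c0 :: C) ((Fin.cons y0 y : Fin (M + 1) → ℂ) j ^ 2) /
        (Xf ((Fin.cons y0 y : Fin (M + 1) → ℂ) i ^ 2) -
          Yf q ((Fin.cons y0 y : Fin (M + 1) → ℂ) j ^ 2)) +
      g ((Fin.cons y0 y : Fin (M + 1) → ℂ) j)⁻¹ *
        lam (c0 :: C) (((Fin.cons y0 y : Fin (M + 1) → ℂ) j)⁻¹ ^ 2) /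
        (Xf ((Fin.cons y0 y : Fin (M + 1) → ℂ) i ^ 2) -
          Yf q (((Fin.cons y0 y : Fin (M + 1) → ℂ) j)⁻¹ ^ 2))
    with hN
  have hl0 : lam (c0 :: C) x0⁻¹ = 0 := by
    rw [lam_cons, inv_inv, hc0, sub_self, zero_mul]
  have hl1 : lam (c0 :: C) x0 = (Yf q x0 - Yf q x0⁻¹) * lam C x0 := by
    rw [lam_cons, hc0]
  have hN00 : N 0 0 = g y0 * ((Yf q x0 - Yf q x0⁻¹) * lam C x0) / (Xf x0 - Yf q x0) := by
    rw [hN, Matrix.of_apply, Fin.cons_zero, hx0i, hl0, mul_zero, zero_div, add_zero, ← hx0d, hl1]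
  have hNs0 : ∀ i : Fin M, N i.succ 0 = (Xf x0 - Yf q x0) / (Xf (x i) - Yf q x0) * N 0 0 := by
    intro i
    rw [hN00, hN, Matrix.of_apply, Fin.cons_zero, Fin.cons_succ, hx0i, hl0, mul_zero, zero_div,
      add_zero, ← hx0d, hl1, hxe, div_mul_div_comm, mul_comm (Xf x0 - Yf q x0),
      mul_div_mul_right _ _ n5]
  rw [det_col0 N _ hNs0, hN00]
  have hent : (Matrix.of fun i j : Fin M => N i.succ j.succ -
      (Xf x0 - Yf q x0) / (Xf (x i) - Yf q x0) * N 0 j.succ) =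
      Matrix.of fun i j : Fin M => ((Xf x0 - Xf (x i)) / (Xf (x i) - Yf q x0)) *
        (Matrix.of fun i j : Fin M =>
          ((Xf x0 - Xf (x j)) / (Xf (x j) - Yf q x0)) *
          (Matrix.of fun i j : Fin M =>
            g (y j) * lam (x0 :: C) (y j ^ 2) / (Xf (y i ^ 2) - Yf q (y j ^ 2))
            + g (y j)⁻¹ * lam (x0 :: C) ((y j)⁻¹ ^ 2) /
              (Xf (y i ^ 2) - Yf q ((y j)⁻¹ ^ 2))) i j) i j := by
    ext i j
    simp only [Matrix.of_apply, hN, Fin.cons_succ, Fin.cons_zero]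
    rw [hxi j, hxe i, hxe j, ← hx0d, lam_cons, lam_cons, lam_cons, lam_cons, inv_inv, hc0]
    have hr : (Xf x0 - Xf (x j)) * (Xf x0 - Yf q (x j)) * (Xf x0 - Yf q (x j)⁻¹) =
        (Yf q x0 - Xf (x j)) * (Yf q x0 - Yf q (x j)) * (Yf q x0 - Yf q (x j)⁻¹) := by
      rw [root hq (hx j).1, root hq (hx j).1, rX hx0, rY hq hx0]
    have := ent (A := g (y j) * lam C (x j)) (B := g (y j)⁻¹ * lam C (x j)⁻¹)
      (a := 1) (yne i j).1 (yne i j).2 (y0' j).1 (y0' j).2 (yP i) (Xf (x j)) (yP j) hr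
    linear_combination this
  rw [hent, Matrix.det_mul_column, Matrix.det_mul_row]
  have hprod : (∏ i : Fin M, (Xf x0 - Xf (x i)) / (Xf (x i) - Yf q x0)) *
      (∏ j : Fin M, (Xf x0 - Xf (x j)) / (Xf (x j) - Yf q x0)) *
      (∏ j : Fin M, (Xf (y j ^ 2) - Yf q x0) ^ 2) =
      ∏ j : Fin M, (Xf x0 - Xf (y j ^ 2)) ^ 2 := by
    rw [← Finset.prod_mul_distrib, ← Finset.prod_mul_distrib]
    refine Finset.prod_congr rfl fun j _ => ?_
    rw [hxe]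
    have hj := yP j
    generalize Xf (x j) - Yf q x0 = D at hj ⊢
    field_simp
  have hK : g y0 * ((Yf q x0 - Yf q x0⁻¹) * lam C x0) / (Xf x0 - Yf q x0) * (Xf x0 - Yf q x0) =
      g y0 * ((Yf q x0 - Yf q x0⁻¹) * lam C x0) := div_mul_cancel₀ _ n5
  generalize (Matrix.of fun i j : Fin M =>
            g (y j) * lam (x0 :: C) (y j ^ 2) / (Xf (y i ^ 2) - Yf q (y j ^ 2))
            + g (y j)⁻¹ * lam (x0 :: C) ((y j)⁻¹ ^ 2) /
              (Xf (y i ^ 2) - Yf q ((y j)⁻¹ ^ 2))).det = DD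
  rw [← hprod]
  linear_combination ((∏ i : Fin M, (Xf x0 - Xf (x i)) / (Xf (x i) - Yf q x0)) *
      (∏ j : Fin M, (Xf x0 - Xf (x j)) / (Xf (x j) - Yf q x0)) *
      (∏ j : Fin M, (Xf (y j ^ 2) - Yf q x0) ^ 2) * DD) * hK

end Pool.Agent.W808.KS
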