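import Pool.Agent.W808.KS.Stm
import Pool.Agent.W808.KC.T_MRa
import Pool.Agent.W808.KC.T_MRb
import Pool.Agent.W808.KC.T_DC
import Pool.Agent.W808.HB.T_KR

/-!
# KS-VV: evaluation of the determinants
-/

set_option autoImplicit false

namespace Pool.Agent.W808.KS

namespace TVV

open Pool.Agent.W808.KC

lemma mrb : S_MRb := t_MRb t_MRa HB.t_KR

lemma gen (M : ℕ) (p : ℝ) (hp : 1 ≤ p) :
    (Matrix.of fun k l : Fin M => uR p k l).det = CR p M := by
  have h1 := congrArg (Polynomial.eval p) (TDC.key mrb M)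
  rw [← TDC.det_eval]
  rw [Polynomial.eval_mul] at h1
  have h3 := TDC.De_pos M p hp
  rw [← eq_div_iff h3.ne'] at h1
  rw [h1, TDC.Nu_eval, TDC.De_eval, ← Finset.prod_div_distrib]
  rfl

lemma dbl (M : ℕ) (x : ℝ) (hx : 1 ≤ x) :
    (Matrix.of fun k l : Fin M => uR (x + 1 / 2) k l + uR (x - 1 / 2) k l).det =
      2 ^ M * CR x M := by
  rw [← TMRb.U_mul t_MRa, Matrix.det_mul, TMRb.TM_det, gen M x hx]
  ring

end TVV

open TVV Pool.Agent.W808.KC in
theorem t_VV : S_VV := by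
  intro k M
  have hk : (0 : ℝ) ≤ k := Nat.cast_nonneg k
  refine ⟨?_, fun _ => ?_, ?_, ?_⟩
  · have e : V1 0 k M = (Matrix.of fun r l : Fin M => uR ((k : ℝ) + 1) r l).det := by
      unfold V1 v1
      congr 1
      ext r l
      simp only [Matrix.of_apply, if_true]
      exact TDC.uc_eq k r l
    rw [e, gen M _ (by linarith)]
  · have e : V1 1 k M = (Matrix.of fun r l : Fin M =>
        uR ((k : ℝ) + 3 / 2 + 1 / 2) r l + uR ((k : ℝ) + 3 / 2 - 1 / 2) r l).det := by
      unfold V1 v1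
      congr 1
      ext r l
      simp only [Matrix.of_apply, one_ne_zero, if_false, Nat.cast_add]
      rw [TDC.uc_eq, TDC.uc_eq]
      have e1 : (((k + 1 : ℕ) : ℝ) + 1) = (k : ℝ) + 3 / 2 + 1 / 2 := by push_cast; ring
      have e2 : ((k : ℝ) + 1) = (k : ℝ) + 3 / 2 - 1 / 2 := by ring
      rw [e1, ← e2]
    rw [e, dbl M _ (by linarith)]
  · have e : V2 0 k M = (Matrix.of fun r l : Fin M =>
        uR ((k : ℝ) + 5 / 2 + 1 / 2) r l + uR ((k : ℝ) + 5 / 2 - 1 / 2) r l).det := by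
      unfold V2 v2
      congr 1
      ext r l
      simp only [Matrix.of_apply, if_true, Nat.cast_add]
      rw [TDC.uc_eq, TDC.uc_eq]
      have e1 : (((k + 2 : ℕ) : ℝ) + 1) = (k : ℝ) + 5 / 2 + 1 / 2 := by push_cast; ring
      have e2 : (((k + 1 : ℕ) : ℝ) + 1) = (k : ℝ) + 5 / 2 - 1 / 2 := by push_cast; ring
      rw [e1, e2]
    rw [e, dbl M _ (by linarith)]
  · have e : V2 1 k M = (Matrix.of fun r l : Fin M => uR ((k : ℝ) + 3) r l).det := by
      unfold V2 v2
      congr 1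
      ext r l
      simp only [Matrix.of_apply, one_ne_zero, if_false]
      rw [TDC.uc_eq]
      have e1 : (((k + 2 : ℕ) : ℝ) + 1) = (k : ℝ) + 3 := by push_cast; ring
      rw [e1]
    rw [e, gen M _ (by linarith)]

end Pool.Agent.W808.KS
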