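import Pool.Agent.W808.KS.Stm
import Pool.Agent.W808.HB.T_WG
import Pool.Agent.W808.KC.T_Fc

/-! # Legs at the tip of a slit: words and connections -/

set_option autoImplicit false

namespace Pool.Agent.W808.KS
open Pool.Agent.H863R2.Cyl
open Pool.Agent.H988R2.Perc (Word PD Dyck LP Fw rainbow firstArc rem)
open Pool.Agent.W808.HB (bwm)

namespace TWGs

open Pool.Agent.H863R2.Cyl.Sem4Aux (ct sm iso sec ct_eq iso_iff sec_spec)
open Pool.Agent.W808.HB.TWG (small hcap base_mp base_mpr)
open Pool.Agent.W808.KC.TFc (Fc_ins insR Fc_refl low_up up_ne)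
open Pool.Agent.H988R2.Perc.St (low up)

/-- the faces of the upper word -/
theorem face {m i N : ℕ} (hi : m + i ≤ N) (s : ℤ) (a : ℕ) (ha : a ≤ N + 2 - m) (hai : a ≠ i + 1) :
    ¬ iso N (m + i) (s * ((N + 2 : ℕ) : ℤ) + m + a) ∧
      sm N (m + i) (s * ((N + 2 : ℕ) : ℤ) + m + a) = s * N + m + (low i a : ℕ) := by
  unfold low
  split_ifs with h
  · have e : s * ((N + 2 : ℕ) : ℤ) + m + a = (N + 2) * s + ((N : ℤ) - i + a)
        - (N - ((m + i : ℕ) : ℤ)) := by
      push_cast; ring
    refine ⟨?_, ?_⟩
    · rw [iso_iff e (by omega) (by omega)]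
      omega
    · unfold sm
      rw [ct_eq e (by omega) (by omega)]
      push_cast
      ring
  · have e : s * ((N + 2 : ℕ) : ℤ) + m + a = (N + 2) * (s + 1) + ((a : ℤ) - 2 - i)
        - (N - ((m + i : ℕ) : ℤ)) := by
      push_cast; ring
    refine ⟨?_, ?_⟩
    · rw [iso_iff e (by omega) (by omega)]
      omega
    · unfold sm
      rw [ct_eq e (by omega) (by omega)]
      push_cast [Nat.cast_sub (show 2 ≤ a by omega)]
      ring

/-- one arc -/
theorem step {u w : Word} {m i N : ℕ} (hu : Ok u) (hl : u.length = N + 2) (hN : 1 ≤ N)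
    (hw : N = m + w.length) (hi : i ≤ w.length) (a b : ℤ) (ha : ¬ iso N (m + i) a)
    (hb : ¬ iso N (m + i) b) :
    Relation.EqvGen (Ls (N + 2) m u (Pool.Agent.H988R2.Perc.ins i w)) a b ↔
      Relation.EqvGen (Ls N m (cap (m + i) u) w) (sm N (m + i) a) (sm N (m + i) b) := by
  have hpN : m + i ≤ N := by omega
  have hwl : (Pool.Agent.H988R2.Perc.ins i w).length = w.length + 2 :=
    Pool.Agent.H988R2.Perc.length_ins i w
  have hisol : ∀ a, isol u (m + i) a ↔ iso N (m + i) a := by
    intro a
    unfold isol iso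
    rw [hl]
    push_cast
    rfl
  have hR1 := Relation.EqvGen.is_equivalence (Ls (N + 2) m u (Pool.Agent.H988R2.Perc.ins i w))
  have hR2 := Relation.EqvGen.is_equivalence (Ls N m (cap (m + i) u) w)
  have hcap' := fun a b ha hb => hcap (m := m + i) hu hl hN hpN a b ha hb
  constructor
  · intro h
    set Q : ℤ → ℤ → Prop := fun a b => Rw u a b ∨ ∃ a' b', ¬ iso N (m + i) a' ∧
      ¬ iso N (m + i) b' ∧ Rw u a a' ∧
      Relation.EqvGen (Ls N m (cap (m + i) u) w) (sm N (m + i) a') (sm N (m + i) b') ∧
      Rw u b' b with hQ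
    have hh : ∀ a b, ¬ iso N (m + i) a → ¬ iso N (m + i) b → Rw u a b →
        Relation.EqvGen (Ls N m (cap (m + i) u) w) (sm N (m + i) a) (sm N (m + i) b) := by
      intro a b ha hb hab
      apply Relation.EqvGen.rel
      apply Ls.rw
      rw [hcap' a b ha hb]
      apply Relation.EqvGen.rel
      left
      rw [hisol, hisol]
      exact ⟨ha, hb, hab⟩
    have hMe : Equivalence Q := by
      refine ⟨fun a => Or.inl ((Rw_equiv _).refl a), ?_, ?_⟩
      · rintro a b (h | ⟨a', b', h1, h2, h3, h4, h5⟩)
        · exact Or.inl ((Rw_equiv _).symm h)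
        · exact Or.inr ⟨b', a', h2, h1, (Rw_equiv _).symm h5, hR2.symm h4, (Rw_equiv _).symm h3⟩
      · rintro a b c (h | ⟨a', b', h1, h2, h3, h4, h5⟩) (k | ⟨b'', c', k1, k2, k3, k4, k5⟩)
        · exact Or.inl ((Rw_equiv _).trans h k)
        · exact Or.inr ⟨b'', c', k1, k2, (Rw_equiv _).trans h k3, k4, k5⟩
        · exact Or.inr ⟨a', b', h1, h2, h3, h4, (Rw_equiv _).trans h5 k⟩
        · exact Or.inr ⟨a', c', h1, k2, h3, hR2.trans h4 (hR2.trans
            (hh _ _ h2 k1 ((Rw_equiv _).trans h5 k3)) k4), k5⟩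
    have key : ∀ a b, Relation.EqvGen (Ls (N + 2) m u (Pool.Agent.H988R2.Perc.ins i w)) a b →
        Q a b := by
      intro a b hab
      induction hab with
      | rel a b h =>
        rcases h with ⟨a, b, h⟩ | ⟨s, j, k, hj, hk, h⟩
        · exact Or.inl h
        · rw [Fc_ins hi] at h
          rcases h with h | ⟨h1, h2, h3⟩
          · subst h
            exact hMe.refl _
          · obtain ⟨t1, t2⟩ := face hpN s j (by omega) h1
            obtain ⟨t3, t4⟩ := face hpN s k (by omega) h2
            refine Or.inr ⟨_, _, t1, t3, (Rw_equiv _).refl _, ?_, (Rw_equiv _).refl _⟩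
            rw [t2, t4]
            refine Relation.EqvGen.rel _ _ (Ls.up s _ _ ?_ ?_ h3)
            · unfold low; split_ifs <;> omega
            · unfold low; split_ifs <;> omega
      | refl a => exact hMe.refl _
      | symm a b _ ih => exact hMe.symm ih
      | trans a b c _ _ ih1 ih2 => exact hMe.trans ih1 ih2
    rcases key _ _ h with h1 | ⟨a', b', h1, h2, h3, h4, h5⟩
    · exact hh _ _ ha hb h1
    · exact hR2.trans (hh _ _ ha h1 h3) (hR2.trans h4 (hh _ _ h2 hb h5))
  · intro h
    have hgen : ∀ a b, Relation.EqvGen (fun x y => (¬ isol u (m + i) x ∧ ¬ isol u (m + i) y ∧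
          Rw u x y) ∨
        ∃ k : ℤ, x = ((m + i : ℕ) : ℤ) + k * u.length ∧
          y = ((m + i : ℕ) : ℤ) + 2 + k * u.length) a b →
        Relation.EqvGen (Ls (N + 2) m u (Pool.Agent.H988R2.Perc.ins i w)) a b := by
      intro a b h1
      induction h1 with
      | rel a b h =>
        rcases h with h | ⟨k, h1, h2⟩
        · exact Relation.EqvGen.rel _ _ (Ls.rw _ _ h.2.2)
        · have := Ls.up (N := N + 2) (m := m) (u := u) (w := Pool.Agent.H988R2.Perc.ins i w)
            k i (i + 2) (by omega) (by omega) (by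
              rw [Fc_ins hi]
              refine Or.inr ⟨by omega, by omega, ?_⟩
              have e1 : low i i = i := by unfold low; simp
              have e2 : low i (i + 2) = i := by unfold low; simp
              rw [e1, e2]
              exact Fc_refl _ _)
          have e1 : k * ((N + 2 : ℕ) : ℤ) + m + (i : ℕ) = a := by
            rw [h1, hl]; push_cast; ring
          have e2 : k * ((N + 2 : ℕ) : ℤ) + m + (i + 2 : ℕ) = b := by
            rw [h2, hl]; push_cast; ring
          rw [e2, e1] at this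
          exact Relation.EqvGen.rel _ _ this
      | refl a => exact Relation.EqvGen.refl _
      | symm a b _ ih => exact Relation.EqvGen.symm _ _ ih
      | trans a b c _ _ ih1 ih2 => exact Relation.EqvGen.trans _ _ _ ih1 ih2
    have hsame : ∀ a b, ¬ iso N (m + i) a → ¬ iso N (m + i) b →
        sm N (m + i) a = sm N (m + i) b →
        Relation.EqvGen (Ls (N + 2) m u (Pool.Agent.H988R2.Perc.ins i w)) a b := by
      intro a b ha hb hab
      apply hgen
      rw [← hcap' a b ha hb, hab]
      exact (Rw_equiv _).refl _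
    have key : ∀ x y, Relation.EqvGen (Ls N m (cap (m + i) u) w) x y →
        Relation.EqvGen (Ls (N + 2) m u (Pool.Agent.H988R2.Perc.ins i w))
          (sec N (m + i) x) (sec N (m + i) y) := by
      intro x y hxy
      induction hxy with
      | rel x y h =>
        rcases h with ⟨x, y, h⟩ | ⟨s, j, k, hj, hk, h⟩
        · obtain ⟨t1, t2⟩ := sec_spec (i := m + i) hN x
          obtain ⟨t3, t4⟩ := sec_spec (i := m + i) hN y
          exact hgen _ _ ((hcap' _ _ t1 t3).1 (by rw [t2, t4]; exact h))
        · obtain ⟨t1, t2⟩ := sec_spec (i := m + i) hN (s * (N : ℤ) + m + j)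
          obtain ⟨t3, t4⟩ := sec_spec (i := m + i) hN (s * (N : ℤ) + m + k)
          have hj2 : up i j ≤ w.length + 2 := by unfold up; split_ifs <;> omega
          have hk2 : up i k ≤ w.length + 2 := by unfold up; split_ifs <;> omega
          obtain ⟨t5, t6⟩ := face hpN s (up i j) (by omega) (up_ne i j)
          obtain ⟨t7, t8⟩ := face hpN s (up i k) (by omega) (up_ne i k)
          rw [low_up] at t6 t8
          have h1 := hsame _ _ t1 t5 (by rw [t2, t6])
          have h2 := hsame _ _ t7 t3 (by rw [t8, t4])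
          have h3 := Ls.up (N := N + 2) (m := m) (u := u) (w := Pool.Agent.H988R2.Perc.ins i w)
            s (up i j) (up i k) (by omega) (by omega) (by
              rw [Fc_ins hi]
              refine Or.inr ⟨up_ne i j, up_ne i k, ?_⟩
              rw [low_up, low_up]
              exact h)
          exact hR1.trans h1 (hR1.trans (Relation.EqvGen.rel _ _ h3) h2)
      | refl a => exact Relation.EqvGen.refl _
      | symm a b _ ih => exact Relation.EqvGen.symm _ _ ih
      | trans a b c _ _ ih1 ih2 => exact Relation.EqvGen.trans _ _ _ ih1 ih2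
    obtain ⟨t1, t2⟩ := sec_spec (i := m + i) hN (sm N (m + i) a)
    obtain ⟨t3, t4⟩ := sec_spec (i := m + i) hN (sm N (m + i) b)
    exact hR1.trans (hsame _ _ ha t1 t2.symm) (hR1.trans (key _ _ h) (hsame _ _ t3 hb t4))

/-- one arc, sectors -/
theorem step_Sec {u w : Word} {m i N : ℕ} (hu : Ok u) (hl : u.length = N + 2) (hN : 1 ≤ N)
    (hw : N = m + w.length) (hi : i ≤ w.length) :
    HB.Sec m (N + 2) (Relation.EqvGen (Ls (N + 2) m u (Pool.Agent.H988R2.Perc.ins i w))) ↔
      HB.Sec m N (Relation.EqvGen (Ls N m (cap (m + i) u) w)) := by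
  have hpN : m + i ≤ N := by omega
  have key : ∀ (c d : ℕ) (s : ℤ), c ≤ m → d ≤ m →
      (Relation.EqvGen (Ls (N + 2) m u (Pool.Agent.H988R2.Perc.ins i w)) (c : ℤ)
          (s * ((N + 2 : ℕ) : ℤ) + d) ↔
        Relation.EqvGen (Ls N m (cap (m + i) u) w) (c : ℤ) (s * (N : ℤ) + d)) := by
    intro c d s hc hd
    obtain ⟨t1, t2⟩ := small hpN 0 c (by omega)
    obtain ⟨t3, t4⟩ := small hpN s d (by omega)
    have := step hu hl hN hw hi _ _ t1 t3
    rw [t2, t4] at this
    simpa only [zero_mul, zero_add] using this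
  unfold HB.Sec
  constructor
  · rintro ⟨h1, h2⟩
    refine ⟨?_, ?_⟩
    · intro c d hc hcm hd hcd hC
      apply h1 c d hc hcm hd hcd
      have := (key c d 0 hcm.le hd).2 (by simpa only [zero_mul, zero_add] using hC)
      simpa only [zero_mul, zero_add] using this
    · intro c hc hcm
      obtain ⟨s, hs, d, hd, hdm, hC⟩ := h2 c hc hcm
      exact ⟨s, hs, d, hd, hdm, (key c d s hcm.le hdm.le).1 hC⟩
  · rintro ⟨h1, h2⟩
    refine ⟨?_, ?_⟩
    · intro c d hc hcm hd hcd hC
      apply h1 c d hc hcm hd hcd
      have := (key c d 0 hcm.le hd).1 (by simpa only [zero_mul, zero_add] using hC)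
      simpa only [zero_mul, zero_add] using this
    · intro c hc hcm
      obtain ⟨s, hs, d, hd, hdm, hC⟩ := h2 c hc hcm
      exact ⟨s, hs, d, hd, hdm, (key c d s hcm.le hdm.le).2 hC⟩

theorem Ls_nil {m : ℕ} {u : Word} (a b : ℤ) :
    Relation.EqvGen (Ls m m u []) a b ↔ Rw u a b := by
  constructor
  · intro h
    induction h with
    | rel a b h =>
      rcases h with ⟨a, b, h⟩ | ⟨s, j, k, hj, hk, h⟩
      · exact h
      · simp only [List.length_nil, Nat.le_zero] at hj hk
        subst hj
        subst hk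
        exact (Rw_equiv _).refl _
    | refl a => exact (Rw_equiv _).refl _
    | symm a b _ ih => exact (Rw_equiv _).symm ih
    | trans a b c _ _ ih1 ih2 => exact (Rw_equiv _).trans ih1 ih2
  · intro h
    exact Relation.EqvGen.rel _ _ (Ls.rw _ _ h)

theorem main (hGC : S_GC) {m : ℕ} (hm : 1 ≤ m) {w : Word} (hw : Dyck w) :
    ∀ (M : ℕ) (u : Word), Ok u → w.length = 2 * M → u.length = m + 2 * M →
    (gl m M w u = bwm m ↔ HB.Sec m (m + 2 * M) (Relation.EqvGen (Ls (m + 2 * M) m u w))) := by
  induction hw with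
  | nil =>
    intro M u hu hwl hl
    have hM : M = 0 := by simp only [List.length_nil] at hwl; omega
    subst hM
    have e : Relation.EqvGen (Ls (m + 2 * 0) m u []) = Rw u := by
      funext a b
      exact propext (Ls_nil a b)
    rw [e]
    constructor
    · intro h
      change u = bwm m at h
      rw [h]
      exact base_mp hm
    · intro h
      exact base_mpr hm hu hl h
  | ins i w hi hw ih =>
    intro M u hu hwl hl
    rw [Pool.Agent.H988R2.Perc.length_ins] at hwl
    obtain ⟨M, rfl⟩ : ∃ M', M = M' + 1 := ⟨M - 1, by omega⟩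
    have hwl' : w.length = 2 * M := by omega
    have hc := length_cap (i := m + i) (w := u) (by omega)
    have h1 := ih M (cap (m + i) u) (ok_cap hu (by omega)) hwl' (by omega)
    have h2 := step_Sec (u := u) (w := w) (m := m) (i := i) (N := m + 2 * M) hu (by omega) (by omega)
      (by omega) hi
    have e : m + 2 * (M + 1) = m + 2 * M + 2 := by ring
    rw [e, h2, ← h1, hGC m M i w u hw hwl' hu (by omega) (by omega)]

theorem gl_length (hGC : S_GC) {w : Word} (hw : Dyck w) :
    ∀ (M : ℕ) (u : Word), Ok u → w.length = 2 * M → u.length = 2 * M →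
    (gl 0 M w u).length = 0 := by
  induction hw with
  | nil =>
    intro M u hu hwl hl
    have hM : M = 0 := by simp only [List.length_nil] at hwl; omega
    subst hM
    simpa [gl] using hl
  | ins i w hi hw ih =>
    intro M u hu hwl hl
    rw [Pool.Agent.H988R2.Perc.length_ins] at hwl
    obtain ⟨M, rfl⟩ : ∃ M', M = M' + 1 := ⟨M - 1, by omega⟩
    have hwl' : w.length = 2 * M := by omega
    have hc := length_cap (i := 0 + i) (w := u) (by omega)
    rw [hGC 0 M i w u hw hwl' hu (by omega) (by omega)]
    exact ih M _ (ok_cap hu (by omega)) hwl' (by omega)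

end TWGs

theorem t_WGs : S_GC → S_WGs := by
  intro hGC m M u w hu hw hl hwl h1
  unfold Gs
  have hM : w.length / 2 = M := by omega
  have hUs : Us 0 0 m u = u := by
    unfold Us
    simp
  rw [hM, hUs]
  simp only [add_zero]
  rcases Nat.eq_zero_or_pos m with h0 | h0
  · subst h0
    constructor
    · intro _
      exact ⟨fun c d _ hc => absurd hc (by omega), fun c _ hc => absurd hc (by omega)⟩
    · intro _
      have := TWGs.gl_length hGC hw M u hu hwl (by omega)
      rw [List.length_eq_zero_iff] at this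
      rw [this]
      rfl
  · rw [hl]
    exact TWGs.main hGC h0 hw M u hu hwl hl

end Pool.Agent.W808.KS
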