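import Pool.Agent.W808.KS.Stm
import Pool.Agent.W808.HB.T_X1
import Pool.Agent.W808.HB.T_X3

/-!
# The leg event and the words
-/

set_option autoImplicit false

namespace Pool.Agent.W808.KS
open Pool.Agent.H863R2.Cyl
open Pool.Agent.H988R2.Perc (Word PD Dyck LP Fw rainbow firstArc rem)

namespace TY1

lemma eqvGen_iff_of {α : Type*} {r s : α → α → Prop}
    (h1 : ∀ a b, r a b → Relation.EqvGen s a b) (h2 : ∀ a b, s a b → Relation.EqvGen r a b)
    (a b : α) : Relation.EqvGen r a b ↔ Relation.EqvGen s a b := by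
  have key : ∀ {r s : α → α → Prop}, (∀ a b, r a b → Relation.EqvGen s a b) →
      ∀ a b, Relation.EqvGen r a b → Relation.EqvGen s a b := by
    intro r s h a b hab
    induction hab with
    | rel x y hxy => exact h x y hxy
    | refl x => exact Relation.EqvGen.refl x
    | symm x y _ ih => exact Relation.EqvGen.symm _ _ ih
    | trans x y z _ _ ih1 ih2 => exact Relation.EqvGen.trans _ _ _ ih1 ih2
  exact ⟨key h1 a b, key h2 a b⟩

lemma Lw_full {N : ℕ} {u : Word} {a b : ℤ} (h : HB.Lw N N u a b) : Rw u a b := by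
  cases h with
  | rw _ _ h => exact h
  | wire s i h => omega

end TY1

open TY1 in
theorem t_Y1 : S_WGs → S_SFs → S_SIs → S_GLs → S_Y1 := by
  intro hWG hSF hSI hGL n m M K L s t ω hn hm hM hs hA ht hAlt σ
  have hw := (hSF m M K ω hM).1
  rw [Pool.Agent.H988R2.Perc.mem_LP] at hw
  obtain ⟨hwl, hwd⟩ := hw
  set w := KC.XW (2 * M) (cT m K ω) (KC.w0 M) K with hwdef
  set u := rows n (HB.crow (n + 1) L (lowH ω)) L σ with hu
  have hul : u.1.length = n + 1 := u.2.1
  have huo : Ok u.1 := u.2.2
  have key : ∀ a b : ℤ, Relation.EqvGen (HS (n + 1) m ω) (a, 0) (b, 0) ↔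
      Relation.EqvGen (Ls (n + 1) m u.1 w) a b := by
    intro a b
    rw [hGL (n + 1) m M ω hn hm hM a b]
    apply eqvGen_iff_of
    · intro a b hab
      rcases hab with hab | ⟨s', i, k, hi, hk, rfl, rfl, hik⟩
      · rw [HB.t_X3 HB.t_X1 n L (n + 1) t (by omega) ht (lowH ω) hAlt σ a b] at hab
        exact Relation.EqvGen.mono (fun x y h => Ls.rw x y (Lw_full h)) _ _ hab
      · apply Relation.EqvGen.rel
        exact Ls.up s' i k (by omega) (by omega) ((hSI m M K s ω hM hs hA i k hi hk).2 hik)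
    · intro a b hab
      apply Relation.EqvGen.rel
      cases hab with
      | rw _ _ h =>
        left
        rw [HB.t_X3 HB.t_X1 n L (n + 1) t (by omega) ht (lowH ω) hAlt σ a b]
        exact Relation.EqvGen.rel _ _ (HB.Lw.rw _ _ h)
      | up s' i k hi hk h =>
        right
        exact ⟨s', i, k, by omega, by omega, rfl, rfl,
          (hSI m M K s ω hM hs hA i k (by omega) (by omega)).1 h⟩
  have h1 := hWG m M u.1 w huo hwd (by omega) hwl (by omega)
  rw [h1, hul]
  unfold LegS
  have h2 : (fun a b : ℤ => Relation.EqvGen (HS (n + 1) m ω) (a, 0) (b, 0)) =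
      Relation.EqvGen (Ls (n + 1) m u.1 w) := by
    funext a b
    exact propext (key a b)
  rw [h2]

end Pool.Agent.W808.KS
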