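import Pool.Agent.W808.KS.Stm
import Pool.Agent.W808.HB.T_X5
import Pool.Agent.W808.KC.T_LW

/-!
# KS, task Y2: averaging over the rows of both halves
-/

set_option autoImplicit false

namespace Pool.Agent.W808.KS
open Pool.Agent.H863R2.Cyl
open Pool.Agent.H988R2.Perc (Word PD Dyck LP)
open H974 H906.Cyl
open MeasureTheory

namespace TY2

theorem prob {J : Type} [Fintype J] (c : J → ℤ × ℤ) (hc : Function.Injective c) (v : J → Bool) :
    coinsZ.real {ω | ∀ x, ω (c x) = v x} = (1 / 2 : ℝ) ^ Fintype.card J := by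
  classical
  have h1 : {ω : ℤ × ℤ → Bool | ∀ x, ω (c x) = v x} =
      Set.pi ((Finset.univ.map ⟨c, hc⟩ : Finset (ℤ × ℤ)) : Set (ℤ × ℤ))
        (fun i => {Function.extend c v (fun _ => true) i}) := by
    ext ω
    simp only [Set.mem_ofPred_eq, Set.mem_pi, Finset.mem_coe, Finset.mem_map, Finset.mem_univ,
      true_and, Set.mem_singleton_iff, Function.Embedding.coeFn_mk]
    constructor
    · rintro h _ ⟨x, rfl⟩
      rw [h x, hc.extend_apply]
    · intro h x
      rw [h _ ⟨x, rfl⟩, hc.extend_apply]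
  rw [h1, measureReal_def]
  unfold coinsZ
  rw [Measure.infinitePi_pi _ (fun i _ => measurableSet_singleton _), ENNReal.toReal_prod,
    Finset.prod_congr rfl fun i _ => HB.TX5.ber _ rfl _, Finset.prod_const, Finset.card_map,
    Finset.card_univ]

open Classical in
theorem split {J : Type} [Fintype J] (c : J → ℤ × ℤ) (hc : Function.Injective c)
    (P : (J → Bool) → Prop) :
    coinsZ.real {ω | P (fun x => ω (c x))} =
      ∑ v : J → Bool, (if P v then (1 / 2 : ℝ) ^ Fintype.card J else 0) := by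
  have h1 : {ω : ℤ × ℤ → Bool | P (fun x => ω (c x))} =
      ⋃ v ∈ (Finset.univ.filter fun v : J → Bool => P v),
        {ω : ℤ × ℤ → Bool | ∀ x, ω (c x) = v x} := by
    ext ω
    simp only [Set.mem_ofPred_eq, Set.mem_iUnion, Finset.mem_filter, Finset.mem_univ, true_and,
      exists_prop]
    constructor
    · intro h
      exact ⟨_, h, fun _ => rfl⟩
    · rintro ⟨v, hv, h⟩
      have : (fun x => ω (c x)) = v := funext h
      rw [this]
      exact hv
  have hm : ∀ v : J → Bool, MeasurableSet {ω : ℤ × ℤ → Bool | ∀ x, ω (c x) = v x} := by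
    intro v
    have : {ω : ℤ × ℤ → Bool | ∀ x, ω (c x) = v x} =
        ⋂ x, (fun ω : ℤ × ℤ → Bool => ω (c x)) ⁻¹' {v x} := by
      ext ω
      simp
    rw [this]
    exact MeasurableSet.iInter fun y => measurable_pi_apply _ (measurableSet_singleton _)
  have hprob : IsProbabilityMeasure coinsZ := by
    unfold coinsZ
    infer_instance
  rw [h1, measureReal_biUnion_finset]
  · rw [Finset.sum_congr rfl fun x _ => prob c hc x, Finset.sum_filter]
  · intro x _ y _ hxy
    rw [Function.onFun, Set.disjoint_left]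
    intro ω h3 h4
    apply hxy
    funext z
    exact (h3 z).symm.trans (h4 z)
  · intro x _
    exact hm x

/-- the sites of the coins -/
abbrev Jn (n M K L : ℕ) : Type := (Fin L × Fin (n + 1)) ⊕ (Fin (2 * K) × Fin (2 * M))

def site (n m M K L : ℕ) : Jn n M K L → ℤ × ℤ :=
  Sum.elim (fun x => ((x.2.val : ℤ), ((L - 1 - x.1.val : ℕ) : ℤ)))
    (fun x => ((m : ℤ) + x.2.val, (x.1.val : ℤ) - 2 * K))

theorem site_inj (n m M K L : ℕ) : Function.Injective (site n m M K L) := by
  rintro (⟨t, j⟩ | ⟨t, j⟩) (⟨t', j'⟩ | ⟨t', j'⟩) h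
  · have h1 := t.2
    have h2 := t'.2
    simp only [site, Sum.elim_inl, Prod.mk.injEq] at h
    obtain ⟨h3, h4⟩ := h
    have h5 : j = j' := Fin.ext (by omega)
    have h6 : t = t' := Fin.ext (by omega)
    rw [h5, h6]
  · exfalso
    have h1 := t.2
    have h2 := t'.2
    simp only [site, Sum.elim_inl, Sum.elim_inr, Prod.mk.injEq] at h
    omega
  · exfalso
    have h1 := t.2
    have h2 := t'.2
    simp only [site, Sum.elim_inl, Sum.elim_inr, Prod.mk.injEq] at h
    omega
  · have h1 := t.2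
    have h2 := t'.2
    simp only [site, Sum.elim_inr, Prod.mk.injEq] at h
    obtain ⟨h3, h4⟩ := h
    have h5 : j = j' := Fin.ext (by omega)
    have h6 : t = t' := Fin.ext (by omega)
    rw [h5, h6]

/-- the bits of the rows -/
def Phi (n M K L : ℕ) :
    (Jn n M K L → Bool) ≃ (HB.TX5.Rws n L × (Fin (2 * K) → Fin (2 * M) → Bool)) where
  toFun v := (fun t j => !(v (Sum.inl (t, j))),
    fun k i => if k.val % 2 = 0 then v (Sum.inr (k, i)) else !(v (Sum.inr (k, i))))
  invFun p := Sum.elim (fun x => !(p.1 x.1 x.2))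
    (fun x => if x.1.val % 2 = 0 then p.2 x.1 x.2 else !(p.2 x.1 x.2))
  left_inv v := by
    funext x
    rcases x with ⟨t, j⟩ | ⟨k, i⟩
    · simp
    · simp only [Sum.elim_inr]
      split_ifs <;> simp
  right_inv p := by
    apply Prod.ext
    · funext t j
      simp
    · funext k i
      simp only [Sum.elim_inr]
      split_ifs <;> simp

end TY2

open TY2

theorem t_Y2 : S_Y2 := by
  classical
  intro n m M K L hn hM μ hst
  obtain ⟨N, hN⟩ : ∃ N : ℝ, N = (1 / 2 : ℝ) ^ Fintype.card (Jn n M K L) := ⟨_, rfl⟩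
  -- the event depends on finitely many bits
  have hev : ∀ (σ : Wd (n + 1)) (ω : ℤ × ℤ → Bool),
      (Gs 0 0 m (KC.XW (2 * M) (cT m K ω) (KC.w0 M) K)
        (rows n (HB.crow (n + 1) L (lowH ω)) L σ).1 ↔
      Gs 0 0 m (KC.XW (2 * M) (KC.TLW.exB (Phi n M K L (fun x => ω (site n m M K L x))).2)
        (KC.w0 M) K)
        (rows n (ext (Phi n M K L (fun x => ω (site n m M K L x))).1) L σ).1) := by
    intro σ ω
    have e1 : rows n (HB.crow (n + 1) L (lowH ω)) L σ =
        rows n (ext (Phi n M K L (fun x => ω (site n m M K L x))).1) L σ := by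
      apply rows_congr
      intro t ht
      unfold ext
      rw [dif_pos ht]
      rfl
    have e2 : KC.XW (2 * M) (cT m K ω) (KC.w0 M) K =
        KC.XW (2 * M) (KC.TLW.exB (Phi n M K L (fun x => ω (site n m M K L x))).2)
          (KC.w0 M) K := by
      apply KC.TLW.XW_congr
      intro k hk i h1 h2
      unfold KC.TLW.exB KC.ex
      rw [dif_pos hk, dif_pos ⟨h1, h2⟩]
      unfold cT
      have e3 : ((m : ℤ) + i - 1, (k : ℤ) - 2 * K) =
          site n m M K L (Sum.inr (⟨k, hk⟩, ⟨i - 1, by omega⟩)) := by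
        simp only [site, Sum.elim_inr, Prod.mk.injEq, and_true]
        have : ((i - 1 : ℕ) : ℤ) = (i : ℤ) - 1 := by omega
        rw [this]
        ring
      rw [e3]
      rfl
    rw [e1, e2]
  have h1 : ∀ σ : Wd (n + 1), coinsZ.real {ω | Gs 0 0 m (KC.XW (2 * M) (cT m K ω) (KC.w0 M) K)
      (rows n (HB.crow (n + 1) L (lowH ω)) L σ).1} =
      ∑ b : Fin (2 * K) → Fin (2 * M) → Bool, ∑ a : HB.TX5.Rws n L,
        N * (if Gs 0 0 m (KC.XW (2 * M) (KC.TLW.exB b) (KC.w0 M) K)
          (rows n (ext a) L σ).1 then 1 else 0) := by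
    intro σ
    have h2 := split (site n m M K L) (site_inj n m M K L) (fun v =>
      Gs 0 0 m (KC.XW (2 * M) (KC.TLW.exB (Phi n M K L v).2) (KC.w0 M) K)
        (rows n (ext (Phi n M K L v).1) L σ).1)
    have h3 : {ω : ℤ × ℤ → Bool | Gs 0 0 m (KC.XW (2 * M) (cT m K ω) (KC.w0 M) K)
        (rows n (HB.crow (n + 1) L (lowH ω)) L σ).1} =
        {ω | Gs 0 0 m (KC.XW (2 * M) (KC.TLW.exB (Phi n M K L (fun x => ω (site n m M K L x))).2)
          (KC.w0 M) K)
        (rows n (ext (Phi n M K L (fun x => ω (site n m M K L x))).1) L σ).1} := by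
      ext ω
      exact hev σ ω
    rw [h3]
    refine h2.trans ?_
    have h4 := Equiv.sum_comp (Phi n M K L)
      (fun p : HB.TX5.Rws n L × (Fin (2 * K) → Fin (2 * M) → Bool) =>
        N * (if Gs 0 0 m (KC.XW (2 * M) (KC.TLW.exB p.2) (KC.w0 M) K)
          (rows n (ext p.1) L σ).1 then 1 else 0))
    have h5 := (Fintype.sum_prod_type_right
      (fun p : HB.TX5.Rws n L × (Fin (2 * K) → Fin (2 * M) → Bool) =>
        N * (if Gs 0 0 m (KC.XW (2 * M) (KC.TLW.exB p.2) (KC.w0 M) K)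
          (rows n (ext p.1) L σ).1 then 1 else 0)))
    refine Eq.trans ?_ (h4.trans h5)
    refine Finset.sum_congr (Finset.ext fun v => by simp) fun v _ => ?_
    rw [← hN]
    split_ifs <;> simp
  have h2 := fun b : Fin (2 * K) → Fin (2 * M) → Bool => rows_stat hst L
    (fun σ => if Gs 0 0 m (KC.XW (2 * M) (KC.TLW.exB b) (KC.w0 M) K) σ.1 then (1 : ℝ) else 0)
  have h3 : ∑ σ, μ σ * coinsZ.real {ω | Gs 0 0 m (KC.XW (2 * M) (cT m K ω) (KC.w0 M) K)
      (rows n (HB.crow (n + 1) L (lowH ω)) L σ).1} =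
      N * ∑ b : Fin (2 * K) → Fin (2 * M) → Bool, ∑ a : HB.TX5.Rws n L, ∑ σ, μ σ *
        (if Gs 0 0 m (KC.XW (2 * M) (KC.TLW.exB b) (KC.w0 M) K)
          (rows n (ext a) L σ).1 then (1 : ℝ) else 0) := by
    simp only [h1, Finset.mul_sum]
    rw [Finset.sum_comm]
    refine Finset.sum_congr rfl fun b _ => ?_
    rw [Finset.sum_comm]
    refine Finset.sum_congr rfl fun a _ => ?_
    refine Finset.sum_congr rfl fun σ _ => ?_
    ring
  rw [h3, Finset.sum_congr rfl fun b _ => h2 b, ← Finset.mul_sum, Finset.sum_comm]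
  have h5 : ∀ σ : Wd (n + 1), ∑ b : Fin (2 * K) → Fin (2 * M) → Bool,
      μ σ * (if Gs 0 0 m (KC.XW (2 * M) (KC.TLW.exB b) (KC.w0 M) K) σ.1 then (1 : ℝ) else 0) =
      4 ^ (2 * M * K) * ∑ w ∈ LP (2 * M), μ σ * KC.lawW M K w *
        (if Gs 0 0 m w σ.1 then 1 else 0) := by
    intro σ
    rw [← Finset.mul_sum, KC.TLW.avg M K (fun w => if Gs 0 0 m w σ.1 then (1 : ℝ) else 0),
      Finset.mul_sum, Finset.mul_sum, Finset.mul_sum]
    refine Finset.sum_congr rfl fun w _ => ?_
    ring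
  rw [Finset.sum_congr rfl fun σ _ => h5 σ, ← Finset.mul_sum, ← mul_assoc, ← mul_assoc]
  have h4 : N * (2 ^ (n + 1)) ^ L * 4 ^ (2 * M * K) = 1 := by
    have hc : Fintype.card (Jn n M K L) = L * (n + 1) + 2 * (2 * M * K) := by
      simp only [Jn, Fintype.card_sum, Fintype.card_prod, Fintype.card_fin]
      ring
    rw [hN, hc, pow_add, ← pow_mul, mul_comm L (n + 1), show (4 : ℝ) = 2 ^ 2 by norm_num,
      ← pow_mul]
    calc (1 / 2 : ℝ) ^ ((n + 1) * L) * (1 / 2) ^ (2 * (2 * M * K)) * 2 ^ ((n + 1) * L) *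
          2 ^ (2 * (2 * M * K))
        = ((1 / 2 : ℝ) ^ ((n + 1) * L) * 2 ^ ((n + 1) * L)) *
          ((1 / 2) ^ (2 * (2 * M * K)) * 2 ^ (2 * (2 * M * K))) := by ring
      _ = 1 := by
        rw [← mul_pow, ← mul_pow]
        norm_num
  rw [h4, one_mul]

end Pool.Agent.W808.KS
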