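import Pool.Agent.W808.KS.Stm
import Mathlib.Probability.Independence.InfinitePi

/-!
# KS, task Y3: alternating rows exist
-/

set_option autoImplicit false

namespace Pool.Agent.W808.KS
open MeasureTheory ProbabilityTheory

namespace TY3

noncomputable abbrev ber : Measure Bool :=
  ProbabilityTheory.bernoulliMeasure true false ⟨1/2, by norm_num, by norm_num⟩

instance : IsProbabilityMeasure coinsZ := by
  unfold coinsZ; infer_instance

lemma ber_sing (b : Bool) : ber {b} = ENNReal.ofReal (1/2) := by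
  have h : (ber).real {b} = 1/2 := by
    rw [bernoulliMeasure_real_apply _ (MeasurableSet.of_discrete)]
    cases b <;> simp
    norm_num
  rw [← h, ofReal_measureReal]

lemma meas_pattern (T : Finset (ℤ × ℤ)) (v : ℤ × ℤ → Bool) :
    coinsZ {ω | ∀ c ∈ T, ω c = v c} = ENNReal.ofReal (1/2) ^ T.card := by
  have : {ω : ℤ × ℤ → Bool | ∀ c ∈ T, ω c = v c} = Set.pi (T : Set (ℤ × ℤ)) (fun c => {v c}) := by
    ext ω; simp [Set.mem_pi]
  rw [this]
  unfold coinsZ
  rw [Measure.infinitePi_pi _ (fun i _ => MeasurableSet.of_discrete)]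
  rw [Finset.prod_congr rfl (fun c _ => ber_sing (v c))]
  simp

lemma meas_ext (S : Finset (ℤ × ℤ)) (E : Set (ℤ × ℤ → Bool))
    (hE : ∀ ω ω' : ℤ × ℤ → Bool, (∀ c ∈ S, ω c = ω' c) → ω ∈ E → ω' ∈ E) :
    ∃ E' : Set (S → Bool), E = (fun (ω : ℤ × ℤ → Bool) (i : S) => ω i) ⁻¹' E' := by
  classical
  refine ⟨{g | (fun c => if h : c ∈ S then g ⟨c, h⟩ else false) ∈ E}, ?_⟩
  ext ω
  simp only [Set.mem_preimage, Set.mem_ofPred_eq]
  constructor
  · intro h
    refine hE _ _ (fun c hc => ?_) h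
    simp [hc]
  · intro h
    refine hE _ _ (fun c hc => ?_) h
    simp [hc]

lemma indep (S T : Finset (ℤ × ℤ)) (hST : Disjoint S T) (E F : Set (ℤ × ℤ → Bool))
    (hE : ∀ ω ω' : ℤ × ℤ → Bool, (∀ c ∈ S, ω c = ω' c) → ω ∈ E → ω' ∈ E)
    (hF : ∀ ω ω' : ℤ × ℤ → Bool, (∀ c ∈ T, ω c = ω' c) → ω ∈ F → ω' ∈ F) :
    coinsZ (E ∩ F) = coinsZ E * coinsZ F := by
  obtain ⟨E', rfl⟩ := meas_ext S E hE
  obtain ⟨F', rfl⟩ := meas_ext T F hF
  have h1 : iIndepFun (fun (i : ℤ × ℤ) (ω : ℤ × ℤ → Bool) => ω i) coinsZ := by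
    unfold coinsZ
    exact iIndepFun_infinitePi (X := fun _ (x : Bool) => x) (fun _ => measurable_id)
  have h2 := iIndepFun.indepFun_finset S T hST h1 (fun i => measurable_pi_apply i)
  exact h2.measure_inter_preimage_eq_mul _ _ (MeasurableSet.of_discrete) (MeasurableSet.of_discrete)

lemma key (T : ℕ → Finset (ℤ × ℤ)) (hd : ∀ i j, i ≠ j → Disjoint (T i) (T j)) (N : ℕ)
    (hN : ∀ i, (T i).card = N) (v : ℤ × ℤ → Bool) (m : ℕ) :
    coinsZ.real {ω | ∀ i < m, ¬ ∀ c ∈ T i, ω c = v c} = (1 - (1/2 : ℝ) ^ N) ^ m := by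
  classical
  induction m with
  | zero => simp
  | succ m ih =>
    have hset : {ω : ℤ × ℤ → Bool | ∀ i < m + 1, ¬ ∀ c ∈ T i, ω c = v c}
        = {ω | ∀ i < m, ¬ ∀ c ∈ T i, ω c = v c} ∩ {ω | ¬ ∀ c ∈ T m, ω c = v c} := by
      ext ω
      simp only [Set.mem_ofPred_eq, Set.mem_inter_iff]
      constructor
      · intro h
        exact ⟨fun i hi => h i (by omega), h m (by omega)⟩
      · rintro ⟨h1, h2⟩ i hi
        rcases Nat.lt_succ_iff_lt_or_eq.mp hi with h | h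
        · exact h1 i h
        · subst h; exact h2
    have hi := indep ((Finset.range m).biUnion T) (T m)
      (by
        rw [Finset.disjoint_biUnion_left]
        intro i hi
        exact hd i m (by have := Finset.mem_range.mp hi; omega))
      {ω | ∀ i < m, ¬ ∀ c ∈ T i, ω c = v c} {ω | ¬ ∀ c ∈ T m, ω c = v c}
      (by
        intro ω ω' hh h i hi hc
        refine h i hi (fun c hcT => ?_)
        rw [hh c (Finset.mem_biUnion.mpr ⟨i, Finset.mem_range.mpr hi, hcT⟩)]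
        exact hc c hcT)
      (by
        intro ω ω' hh h hc
        refine h (fun c hcT => ?_)
        rw [hh c hcT]
        exact hc c hcT)
    rw [hset, measureReal_def, hi, ENNReal.toReal_mul, ← measureReal_def, ih, ← measureReal_def, pow_succ]
    congr 1
    have hm : MeasurableSet {ω : ℤ × ℤ → Bool | ∀ c ∈ T m, ω c = v c} := by
      have : {ω : ℤ × ℤ → Bool | ∀ c ∈ T m, ω c = v c}
          = ⋂ c ∈ T m, (fun ω : ℤ × ℤ → Bool => ω c) ⁻¹' {v c} := by
        ext ω; simp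
      rw [this]
      exact Finset.measurableSet_biInter _ (fun c _ => measurable_pi_apply c MeasurableSet.of_discrete)
    have hcompl : {ω : ℤ × ℤ → Bool | ¬ ∀ c ∈ T m, ω c = v c}
        = {ω : ℤ × ℤ → Bool | ∀ c ∈ T m, ω c = v c}ᶜ := rfl
    rw [hcompl, probReal_compl_eq_one_sub hm]
    congr 1
    rw [measureReal_def, meas_pattern, hN]
    rw [ENNReal.toReal_pow, ENNReal.toReal_ofReal (by norm_num)]


/-- a row -/
noncomputable def TR (a b t : ℤ) : Finset (ℤ × ℤ) := Finset.Ico a b ×ˢ {t}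

lemma mem_TR (l r t : ℤ) (a b : ℤ) :
    (a, b) ∈ TR l r t ↔ (l ≤ a ∧ a < r) ∧ b = t := by
  simp only [TR, Finset.mem_product, Finset.mem_Ico, Finset.mem_singleton]

lemma card_TR (l t : ℤ) (N : ℕ) : (TR l (l + N) t).card = N := by
  unfold TR
  rw [Finset.card_product]
  simp

end TY3

open TY3 in
theorem t_Y3 : S_Y3 := by
  intro m M N ε hε
  classical
  have p1 : ∀ n : ℕ, 0 ≤ 1 - (1/2 : ℝ) ^ n ∧ 1 - (1/2 : ℝ) ^ n < 1 := by
    intro n
    have h0 : (0:ℝ) < (1/2 : ℝ) ^ n := by positivity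
    have h1 : (1/2 : ℝ) ^ n ≤ 1 := pow_le_one₀ (by norm_num) (by norm_num)
    constructor <;> linarith
  obtain ⟨L1, hL1⟩ := exists_pow_lt_of_lt_one (half_pos hε) (p1 N).2
  obtain ⟨L2, hL2⟩ := exists_pow_lt_of_lt_one (half_pos hε) (p1 (2 * M)).2
  refine ⟨max L1 L2, fun K hK => ?_⟩
  have k1 := key (fun t => TR 0 (0 + (N : ℤ)) (t : ℤ))
    (by
      intro i j hij
      rw [Finset.disjoint_left]
      rintro ⟨a, b⟩ h1 h2
      rw [mem_TR] at h1 h2
      omega)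
    N (fun i => card_TR _ _ _) (fun c => decide (c.1 % 2 = 1)) (max L1 L2)
  have k2 := key (fun t => TR (m : ℤ) ((m : ℤ) + ((2 * M : ℕ) : ℤ)) (-(2 * t : ℤ) - 1))
    (by
      intro i j hij
      rw [Finset.disjoint_left]
      rintro ⟨a, b⟩ h1 h2
      rw [mem_TR] at h1 h2
      omega)
    (2 * M) (fun i => card_TR _ _ _) (fun c => decide ((c.1 - m) % 2 = 0)) K
  have b1 : (1 - (1/2 : ℝ) ^ N) ^ (max L1 L2) ≤ ε / 2 :=
    (pow_le_pow_of_le_one (p1 N).1 (p1 N).2.le (le_max_left _ _)).trans hL1.le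
  have b2 : (1 - (1/2 : ℝ) ^ (2 * M)) ^ K ≤ ε / 2 :=
    (pow_le_pow_of_le_one (p1 _).1 (p1 _).2.le ((le_max_right _ _).trans hK)).trans hL2.le
  have hsub : {ω : ℤ × ℤ → Bool | ¬ ((∃ t < max L1 L2, HB.Alt N (lowH ω) t) ∧
      ∃ s < K, AltS m M ω (-(2 * s : ℤ) - 1))} ⊆
      {ω | ∀ i < max L1 L2, ¬ ∀ c ∈ TR 0 (0 + (N : ℤ)) (i : ℤ), ω c = decide (c.1 % 2 = 1)} ∪
      {ω | ∀ i < K, ¬ ∀ c ∈ TR (m : ℤ) ((m : ℤ) + ((2 * M : ℕ) : ℤ)) (-(2 * i : ℤ) - 1),
        ω c = decide ((c.1 - m) % 2 = 0)} := by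
    intro ω hω
    simp only [Set.mem_ofPred_eq, not_and_or] at hω
    rcases hω with hω | hω
    · left
      simp only [Set.mem_ofPred_eq]
      intro i hi hc
      refine hω ⟨i, hi, fun j hj => ?_⟩
      have := hc ((j : ℤ), (i : ℤ)) ((mem_TR _ _ _ _ _).mpr ⟨⟨by omega, by omega⟩, rfl⟩)
      show ω ((j : ℤ), (i : ℤ)) = _
      rw [this]
      simp only [decide_eq_decide]
      omega
    · right
      simp only [Set.mem_ofPred_eq]
      intro i hi hc
      refine hω ⟨i, hi, fun j hj => ?_⟩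
      have := hc ((m : ℤ) + j, -(2 * i : ℤ) - 1)
        ((mem_TR _ _ _ _ _).mpr ⟨⟨by omega, by push_cast; omega⟩, rfl⟩)
      rw [this]
      simp only [decide_eq_decide]
      omega
  refine (measureReal_mono hsub (measure_ne_top _ _)).trans ?_
  refine (measureReal_union_le _ _).trans ?_
  rw [k1, k2]
  linarith

end Pool.Agent.W808.KS
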