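import Pool.Agent.W808.KS.Stm
import Pool.Agent.W808.KC.T_Ec
import Pool.Agent.H988R2.Perc.T14

/-!
# The sum of the components in the strip
-/

set_option autoImplicit false

namespace Pool.Agent.W808.KS
open Pool.Agent.H988R2.Perc (Word PD Dyck LP Fw rainbow firstArc rem fac Z)
open Pool.Agent.H988R2.Perc.T10 (pairs fA fB)
open Pool.Agent.H160R2.ML (pfq Gn)
open Pool.Agent.W808.HB (bwm prs Xf Yf vdx wdx bet xY gp)

namespace ZSX

theorem qs : q ^ 2 + q + 1 = 0 := Pool.Agent.H988R2.Perc.q_spec
theorem q3 : q ^ 3 = 1 := Pool.Agent.H988R2.Perc.q_cube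
theorem q0 : q ≠ 0 := by
  intro h
  have := qs
  rw [h] at this
  norm_num at this

theorem prs_even (l : List ℂ) : (prs l).length = 2 * l.length := by
  induction l with
  | nil => simp [prs]
  | cons a l ih =>
    have : prs (a :: l) = a :: a⁻¹ :: prs l := by simp [prs]
    rw [this, List.length_cons, List.length_cons, ih, List.length_cons]
    ring

theorem fac0 (l : List ℂ) (h : ∀ a ∈ l, a ≠ 0) : fac 0 (prs l) = q ^ (2 * l.length) := by
  induction l with
  | nil => simp [prs, fac]
  | cons a l ih =>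
    have e : prs (a :: l) = a :: a⁻¹ :: prs l := by simp [prs]
    have ha : a ≠ 0 := h a (by simp)
    have haa : a * a⁻¹ = 1 := mul_inv_cancel₀ ha
    have ih' := ih (fun b hb => h b (List.mem_cons_of_mem a hb))
    rw [e]
    unfold fac at ih' ⊢
    rw [List.map_cons, List.map_cons, List.prod_cons, List.prod_cons, ih', List.length_cons]
    have h3 := q3
    change Pool.Agent.H988R2.Perc.q ^ 3 = 1 at h3
    change _ = Pool.Agent.H988R2.Perc.q ^ _
    rw [mul_add, pow_add]
    generalize Pool.Agent.H988R2.Perc.q ^ (2 * l.length) = Q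
    generalize a⁻¹ = b at *
    generalize Pool.Agent.H988R2.Perc.q = r at *
    have h8 : r ^ 8 = r ^ 2 := by
      calc r ^ 8 = (r ^ 3) ^ 2 * r ^ 2 := by ring
        _ = r ^ 2 := by rw [h3]; ring
    linear_combination (r ^ 8 * Q) * haa + Q * h8

end ZSX

open ZSX in
theorem t_ZS (hM2 : KC.S_M2) : S_ZS := by
  intro M x hG
  have hne : ∀ a ∈ List.ofFn x, a ≠ 0 := by
    intro a ha
    apply hG.1
    rw [prs, List.mem_flatMap]
    exact ⟨a, ha, by simp⟩
  set z := prs (List.ofFn x) with hz
  have hzl : z.length = 2 * M := by rw [hz, prs_even, List.length_ofFn]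
  have h1 := hM2 1 M le_rfl [0] [0] x rfl rfl hG
  -- the left side
  have h2 : KC.GG [0] z [0] = q ^ (2 * M) * Zs z := by
    unfold KC.GG
    have e1 : ∀ w ∈ LP ([(0 : ℂ)].length + z.length + [(0 : ℂ)].length),
        KC.el [(0 : ℂ)].length w * Fw w ([0] ++ z ++ [0]) = Fw w ([0] ++ z ++ [0]) := by
      intro w hw
      rw [Pool.Agent.H988R2.Perc.mem_LP] at hw
      have hd : KC.Gd 1 w := KC.t_E1.1 w hw.2 (by rw [hw.1]; simp)
      have : KC.el [(0 : ℂ)].length w = 1 := by
        simp only [List.length_cons, List.length_nil, zero_add, KC.el, hd, if_true]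
      rw [this, one_mul]
    rw [Finset.sum_congr rfl e1]
    have e2 : [(0 : ℂ)].length + z.length + [(0 : ℂ)].length = ([0] ++ z ++ [(0 : ℂ)]).length := by
      simp; ring
    rw [e2, ← Pool.Agent.H988R2.Perc.Z_eq_sum]
    have hev : Even ([0] ++ z ++ [(0 : ℂ)]).length := by
      simp only [List.length_append, List.length_cons, List.length_nil, hzl]
      exact ⟨M + 1, by ring⟩
    have hp : ([0] ++ z ++ [(0 : ℂ)]).Perm (0 :: 0 :: z) := by
      simp only [List.cons_append, List.nil_append]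
      refine List.Perm.cons 0 ?_
      exact List.perm_append_comm
    rw [Pool.Agent.H988R2.Perc.Z_perm hev hp]
    have h3 := Pool.Agent.H988R2.Perc.Z_rec [] z 0 (by
      simp only [List.length_nil, hzl, zero_add]; exact ⟨M, by ring⟩)
    simp only [List.nil_append, mul_zero] at h3
    rw [h3, hz, fac0 _ hne, List.length_ofFn]
    unfold Zs
    rw [Pool.Agent.H988R2.Perc.Z_eq_sum]
  -- the right side
  have h3 : KC.TT ([0] ++ [0]) x = KC.TT [] x := by
    unfold KC.TT
    have hx : ∀ j, x j ≠ 0 := fun j => hne _ (by simp)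
    have e : ∀ c : ℂ, c ≠ 0 → HB.lp q ([0] ++ [0]) c = HB.lp q [] c := by
      intro c hc
      have hcc : c * c⁻¹ = 1 := mul_inv_cancel₀ hc
      simp only [HB.lp, List.cons_append, List.nil_append, List.map_cons, List.map_nil,
        List.prod_cons, List.prod_nil, mul_one]
      have h3 := q3
      generalize c⁻¹ = d at *
      have h6 : (0 - q * c) * (0 - q ^ 2 * d) = 1 := by
        linear_combination q ^ 3 * hcc + h3
      rw [h6, one_mul]
    congr 1
    ext i j
    simp only [Matrix.of_apply]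
    have a1 := e (x j) (hx j)
    have a2 := e (x j)⁻¹ (inv_ne_zero (hx j))
    change HB.lp Pool.Agent.H988R2.Perc.q ([0] ++ [0]) (x j) =
      HB.lp Pool.Agent.H988R2.Perc.q [] (x j) at a1
    change HB.lp Pool.Agent.H988R2.Perc.q ([0] ++ [0]) (x j)⁻¹ =
      HB.lp Pool.Agent.H988R2.Perc.q [] (x j)⁻¹ at a2
    rw [a1, a2]
  have h4 : pairs fA [0] * pairs fB [0] = 1 := by simp [pairs]
  rw [h2, h3, h4, mul_one] at h1
  have h5 : KC.kap 1 M = q ^ (2 * M) * ((q - 1) ^ M * q ^ M ^ 2) := by
    unfold KC.kap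
    change (q - 1) ^ M * q ^ (M * (2 * 1 + M)) = _
    rw [show M * (2 * 1 + M) = 2 * M + M ^ 2 by ring, pow_add]
    ring
  rw [h5] at h1
  have h6 : q ^ (2 * M) ≠ 0 := pow_ne_zero _ q0
  apply mul_left_cancel₀ h6
  linear_combination h1

end Pool.Agent.W808.KS
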