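import Pool.Agent.W808.KS.Stm
import Pool.Agent.H863R2.Cyl.Braid
import Pool.Agent.H988R2.Perc.T03

/-!
# Polynomial in every leg below (helper215)
-/

set_option autoImplicit false

namespace Pool.Agent.W808.KS
open Pool.Agent.H863R2.Cyl
open Pool.Agent.H988R2.Perc (Word PD Dyck LP Fw mem_LP)

theorem t_dg : S_dg := by
  intro Ψ D u v B1 B2 z
  have hPD : ∀ w : Word, ∃ P : Polynomial ℂ, P.natDegree ≤ u.length + v.length + z.length ∧
      ∀ x, Ψ (u ++ x :: (v ++ z)) w = P.eval x := by
    intro w
    have h := D.deg (u.length + (v ++ z).length + 1) w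
    obtain ⟨P, hP, hPe⟩ := Pool.Agent.H988R2.Perc.PD.univ h u (v ++ z) rfl
    refine ⟨P, ?_, hPe⟩
    rw [List.length_append] at hP
    omega
  choose P hPd hPe using hPD
  have hlen : ∀ x, (u ++ x :: (v ++ z)).length = u.length + v.length + z.length + 1 := by
    intro x
    simp only [List.length_append, List.length_cons]; omega
  refine ⟨∑ w ∈ LP (B1.length + z.length + B2.length), Polynomial.C (Fw w (B1 ++ z ++ B2)) *
    ∑ w' ∈ BLAux.SN (u.length + v.length + z.length + 1),
      Polynomial.C (es B1.length B2.length (u.length + v.length + 1) w (bs w')) * P w', ?_, ?_⟩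
  · refine Polynomial.natDegree_sum_le_of_forall_le _ _ fun w _ => ?_
    refine (Polynomial.natDegree_C_mul_le _ _).trans ?_
    refine Polynomial.natDegree_sum_le_of_forall_le _ _ fun w' _ => ?_
    exact (Polynomial.natDegree_C_mul_le _ _).trans (hPd w')
  · intro x
    have hmem := D.mem (u ++ x :: (v ++ z))
    rw [hlen] at hmem
    have hex := BLAux.expand hmem
    have hA : u ++ x :: v ++ z = u ++ x :: (v ++ z) := by simp
    have hl1 : (u ++ x :: v).length = u.length + v.length + 1 := by
      simp only [List.length_append, List.length_cons]; omega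
    unfold HH HV
    rw [hA, hl1, Polynomial.eval_finsetSum]
    refine Finset.sum_congr rfl fun w _ => ?_
    rw [Polynomial.eval_mul, Polynomial.eval_C, Polynomial.eval_finsetSum, hex, map_sum]
    congr 1
    refine Finset.sum_congr rfl fun w' _ => ?_
    rw [map_smul, Polynomial.eval_mul, Polynomial.eval_C, ← hPe w' x, smul_eq_mul, mul_comm]

end Pool.Agent.W808.KS
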