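import Pool.Agent.W808.KS.Stm
import Pool.Agent.W808.HB.T_legx
import Pool.Agent.W808.KC.T_flip

/-!
# Exchange of legs (helper215)
-/

set_option autoImplicit false

namespace Pool.Agent.W808.KS
open Pool.Agent.H863R2.Cyl
open Pool.Agent.H988R2.Perc (Word PD Dyck LP Fw mem_LP)

namespace Tex

open Pool.Agent.W808.HB.Tlegx (lc_lin lc_congr)
open Pool.Agent.W808.KC.Tflip (Gf Gf_congr Gf_zero Gf_exch)

/-- the functional of a mapped vector -/
theorem es_lin (b1 b2 m : ℕ) (w : Word) (g : Word → Word) (v : VW) :
    es b1 b2 m w (lin g v) =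
      Finsupp.linearCombination ℂ (fun u => if Gs b1 b2 m w (g u) then (1 : ℂ) else 0) v := by
  unfold es
  rw [lc_lin]

theorem es_congr {b1 b2 m b1' b2' m' : ℕ} {w w' : Word} {v : VW} {N : ℕ} (hv : v ∈ VN N)
    (h : ∀ u : Word, u.length = N → Ok u → (Gs b1 b2 m w u ↔ Gs b1' b2' m' w' u)) :
    es b1 b2 m w v = es b1' b2' m' w' v := by
  unfold es
  refine lc_congr hv fun u hu hok => ?_
  simp only [h u hu hok]

theorem es_zero {b1 b2 m : ℕ} {w : Word} {v : VW} {N : ℕ} (hv : v ∈ VN N)
    (h : ∀ u : Word, u.length = N → Ok u → ¬ Gs b1 b2 m w u) : es b1 b2 m w v = 0 := by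
  unfold es
  rw [lc_congr (g := fun _ => (0 : ℂ)) hv]
  · rw [Finsupp.linearCombination_apply]
    simp
  · intro u hu hok
    exact if_neg (h u hu hok)

theorem HH_eq (Ψ : List ℂ → VW) (A B1 B2 z : List ℂ) :
    HH Ψ A B1 B2 z = Gf (fun w => es B1.length B2.length A.length w (Ψ (A ++ z)))
      (B1 ++ z ++ B2) := by
  unfold HH HV Gf
  have h : (B1 ++ z ++ B2).length = B1.length + z.length + B2.length := by
    simp only [List.length_append]
  rw [h]
  exact Finset.sum_congr rfl fun w _ => mul_comm _ _

/-- exchange inside the upper word -/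
theorem exB_aux (Ψ : List ℂ → VW) (h : Fam q Ψ) (A B1 B2 z P Q : List ℂ) (x y : ℂ)
    (hl : ∀ w' : Word, Dyck w' → w'.length = P.length + Q.length → ∀ u : Word, Ok u →
      u.length = (A ++ z).length →
      ¬ Gs B1.length B2.length A.length (Pool.Agent.H988R2.Perc.ins P.length w') u) :
    (q * x - q ^ 2 * y) * Gf (fun w => es B1.length B2.length A.length w (Ψ (A ++ z)))
      (P ++ y :: x :: Q) =
    (q * y - q ^ 2 * x) * Gf (fun w => es B1.length B2.length A.length w (Ψ (A ++ z)))
      (P ++ x :: y :: Q) := by
  rw [Gf_exch]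
  have h3 : Gf (fun w => es B1.length B2.length A.length
      (Pool.Agent.H988R2.Perc.act P.length w) (Ψ (A ++ z))) (P ++ x :: y :: Q) = 0 := by
    rw [Gf_congr (g := fun _ => (0 : ℂ)), Gf_zero]
    intro w hw hd
    have hlen : w.length = P.length + Q.length + 2 := by
      rw [hw]
      simp only [List.length_append, List.length_cons]
      omega
    have h5 : P.length + 2 ≤ w.length := by omega
    have h6 := Pool.Agent.H988R2.Perc.length_cap h5
    refine es_zero (h.mem _) fun u hu hok => ?_
    unfold Pool.Agent.H988R2.Perc.act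
    exact hl _ (Pool.Agent.H988R2.Perc.dyck_cap hd h5) (by omega) u hok hu
  rw [h3, mul_zero, add_zero]

end Tex

open Tex

theorem t_exA : S_Gz → S_exA := by
  intro hz Ψ D u v B1 B2 z x y _
  have h1 := D.exch u (v ++ z) x y
  have e1 : (u ++ y :: x :: v) ++ z = u ++ y :: x :: (v ++ z) := by simp
  have e2 : (u ++ x :: y :: v) ++ z = u ++ x :: y :: (v ++ z) := by simp
  have l1 : (u ++ y :: x :: v).length = u.length + v.length + 2 := by
    simp only [List.length_append, List.length_cons]; omega
  have l2 : (u ++ x :: y :: v).length = u.length + v.length + 2 := by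
    simp only [List.length_append, List.length_cons]; omega
  unfold HH HV
  rw [l1, l2, e1, e2, Finset.mul_sum, Finset.mul_sum]
  refine Finset.sum_congr rfl fun w hw => ?_
  have hw1 := mem_LP.1 hw
  have h2 := congrArg (es B1.length B2.length (u.length + v.length + 2) w) h1
  have hm := D.mem (u ++ x :: y :: (v ++ z))
  have hz0 : es B1.length B2.length (u.length + v.length + 2) w
      (lin (act u.length) (Ψ (u ++ x :: y :: (v ++ z)))) = 0 := by
    rw [es_lin, Pool.Agent.W808.HB.Tlegx.lc_congr (g := fun _ => (0 : ℂ)) hm]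
    · rw [Finsupp.linearCombination_apply]
      simp
    · intro u' hu' hok
      have h5 : u.length + 2 ≤ u'.length := by
        rw [hu']; simp only [List.length_append, List.length_cons]; omega
      have h6 := length_cap h5
      have h7 : u'.length = u.length + v.length + 2 + z.length := by
        rw [hu']; simp only [List.length_append, List.length_cons]; omega
      rw [act_eq h5]
      refine if_neg ?_
      exact (hz B1.length B2.length (u.length + v.length + 2) z.length u.length w
        (cap u.length u') hw1.2 (ok_cap hok h5)).1 hw1.1 (by omega) (by omega)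
  rw [map_add, map_smul, map_smul, map_smul, hz0, smul_zero, add_zero, smul_eq_mul,
    smul_eq_mul] at h2
  linear_combination Fw w (B1 ++ z ++ B2) * h2

theorem t_exB : S_Gz → S_exB := by
  intro hz Ψ D A u v B z x y _
  constructor
  · rw [HH_eq, HH_eq]
    have e1 : (u ++ y :: x :: v) ++ z ++ B = u ++ y :: x :: (v ++ z ++ B) := by simp
    have e2 : (u ++ x :: y :: v) ++ z ++ B = u ++ x :: y :: (v ++ z ++ B) := by simp
    have l1 : (u ++ y :: x :: v).length = (u ++ x :: y :: v).length := by
      simp only [List.length_append, List.length_cons]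
    rw [e1, e2, l1]
    refine exB_aux Ψ D A (u ++ x :: y :: v) B z u (v ++ z ++ B) x y ?_
    intro w' hd hw' u' hok hu'
    refine (hz _ _ _ z.length u.length w' u' hd hok).2 ?_ ?_ ?_ (Or.inl ?_)
    · rw [hw']; simp only [List.length_append, List.length_cons]; omega
    · rw [hu']; simp only [List.length_append]
    · omega
    · simp only [List.length_append, List.length_cons]; omega
  · rw [HH_eq, HH_eq]
    have e1 : B ++ z ++ (u ++ y :: x :: v) = (B ++ z ++ u) ++ y :: x :: v := by simp
    have e2 : B ++ z ++ (u ++ x :: y :: v) = (B ++ z ++ u) ++ x :: y :: v := by simp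
    have l1 : (u ++ y :: x :: v).length = (u ++ x :: y :: v).length := by
      simp only [List.length_append, List.length_cons]
    rw [e1, e2, l1]
    refine exB_aux Ψ D A B (u ++ x :: y :: v) z (B ++ z ++ u) v x y ?_
    intro w' hd hw' u' hok hu'
    refine (hz _ _ _ z.length (B ++ z ++ u).length w' u' hd hok).2 ?_ ?_ ?_ (Or.inr ?_)
    · rw [hw']; simp only [List.length_append, List.length_cons]; omega
    · rw [hu']; simp only [List.length_append]
    · omega
    · simp only [List.length_append]; omega

end Pool.Agent.W808.KS
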