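import Pool.Agent.W808.KS.T_ex
import Pool.Agent.H863R2.Cyl.Braid

/-!
# Recursions at the legs below (helper215)
-/

set_option autoImplicit false

namespace Pool.Agent.W808.KS
open Pool.Agent.H863R2.Cyl
open Pool.Agent.H988R2.Perc (Word PD Dyck LP Fw mem_LP)

namespace TnA

open Pool.Agent.W808.HB.Tlegx (lc_lin lc_congr)

theorem es_lin_congr {b1 b2 m b1' b2' m' : ℕ} {w w' : Word} {g : Word → Word} {v : VW} {N : ℕ}
    (hv : v ∈ VN N)
    (h : ∀ u : Word, u.length = N → Ok u → (Gs b1 b2 m w (g u) ↔ Gs b1' b2' m' w' u)) :
    es b1 b2 m w (lin g v) = es b1' b2' m' w' v := by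
  rw [Tex.es_lin]
  unfold es
  refine lc_congr hv fun u hu hok => ?_
  simp only [h u hu hok]

end TnA

open TnA

theorem t_nA : S_Gv → S_nA := by
  intro h Ψ D A B1 B2 z a _
  constructor
  · have e1 : (A ++ [a]) ++ (q * a) :: z = A ++ a :: (q * a) :: z := by simp
    have e2 : B1 ++ (q * a) :: z ++ B2 = (B1 ++ [q * a]) ++ z ++ B2 := by simp
    have l1 : (A ++ [a]).length = A.length + 1 := by simp
    have l2 : (B1 ++ [q * a]).length = B1.length + 1 := by simp
    have l3 : B1.length + ((q * a) :: z).length + B2.length =
        B1.length + 1 + z.length + B2.length := by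
      simp only [List.length_cons]; omega
    unfold HH HV
    rw [e1, e2, l1, l2, l3, D.recu A z a, Finset.mul_sum]
    refine Finset.sum_congr rfl fun w hw => ?_
    have hw1 := mem_LP.1 hw
    rw [map_smul, smul_eq_mul]
    have hm := D.mem (A ++ z)
    rw [List.length_append] at hm
    rw [es_lin_congr (b1' := B1.length + 1) (b2' := B2.length) (m' := A.length) (w' := w) hm
      (fun u hu hok => ((h B1.length B2.length A.length z.length w u hw1.2 hok).1
        (by rw [hw1.1]; omega) hu).1)]
    ring
  · have e1 : (q * a) :: A ++ (z ++ [a]) = (q * a) :: ((A ++ z) ++ [a]) := by simp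
    have e2 : B1 ++ (z ++ [a]) ++ B2 = B1 ++ z ++ (a :: B2) := by simp
    have l1 : ((q * a) :: A).length = A.length + 1 := by simp
    have l2 : (a :: B2).length = B2.length + 1 := by simp
    have l3 : B1.length + (z ++ [a]).length + B2.length =
        B1.length + z.length + (B2.length + 1) := by
      simp only [List.length_append, List.length_cons, List.length_nil]; omega
    unfold HH HV
    rw [e1, e2, l1, l2, l3, BLAux.seam_form D, Finset.mul_sum]
    refine Finset.sum_congr rfl fun w hw => ?_
    have hw1 := mem_LP.1 hw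
    rw [map_smul, smul_eq_mul]
    have hm := D.mem (A ++ z)
    rw [List.length_append] at hm
    rw [es_lin_congr (b1' := B1.length) (b2' := B2.length + 1) (m' := A.length) (w' := w) hm
      (fun u hu hok => ((h B1.length B2.length A.length z.length w u hw1.2 hok).1
        (by rw [hw1.1]; omega) hu).2)]
    ring

end Pool.Agent.W808.KS
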