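import Pool.Agent.W808.KS.T_nA

/-!
# Recursions at the legs above (helper215)
-/

set_option autoImplicit false

namespace Pool.Agent.W808.KS
open Pool.Agent.H863R2.Cyl
open Pool.Agent.H988R2.Perc (Word PD Dyck LP Fw mem_LP)

namespace TnB

/-- transport of the recursion of the upper word -/
theorem sum_rec (n : ℕ) (P Q : List ℂ) (b : ℂ) (hl : P.length + Q.length = 2 * n)
    (f g : Word → ℂ)
    (h : ∀ w' ∈ LP (2 * n), f (Pool.Agent.H988R2.Perc.ins P.length w') = g w') :
    ∑ w ∈ LP (2 * (n + 1)), Fw w (P ++ b :: (q ^ 2 * b) :: Q) * f w =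
      Pool.Agent.H988R2.Perc.fac b (P ++ Q) * ∑ w ∈ LP (2 * n), Fw w (P ++ Q) * g w := by
  have h1 : ∀ w ∈ LP (2 * (n + 1)), Fw w (P ++ b :: (q ^ 2 * b) :: Q) * f w =
      Pool.Agent.H988R2.Perc.fac b (P ++ Q) * ∑ w' ∈ LP (2 * n),
        (if Pool.Agent.H988R2.Perc.ins P.length w' = w then Fw w' (P ++ Q) * f w else 0) := by
    intro w hw
    rw [Pool.Agent.H988R2.Perc.Fw_rec hw P Q b hl, mul_assoc, Finset.sum_mul]
    congr 1
    refine Finset.sum_congr rfl fun w' _ => ?_
    split_ifs
    · rfl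
    · rw [zero_mul]
  rw [Finset.sum_congr rfl h1, ← Finset.mul_sum, Finset.sum_comm]
  congr 1
  refine Finset.sum_congr rfl fun w' hw' => ?_
  have hw1 := mem_LP.1 hw'
  have hmem : Pool.Agent.H988R2.Perc.ins P.length w' ∈ LP (2 * (n + 1)) :=
    mem_LP.2 ⟨by rw [Pool.Agent.H988R2.Perc.length_ins, hw1.1]; ring,
      (Pool.Agent.H988R2.Perc.dyck_ins_iff (by omega)).2 hw1.2⟩
  rw [Finset.sum_ite_eq, if_pos hmem, h w' hw']

end TnB

open TnB

theorem t_nB : S_Gv → S_nB := by
  intro h Ψ D A B1 B2 z b hE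
  obtain ⟨n, hn⟩ := hE
  constructor
  · have e1 : (A ++ [q ^ 2 * b]) ++ z = A ++ (q ^ 2 * b) :: z := by simp
    have e2 : (B1 ++ [b]) ++ (q ^ 2 * b) :: z ++ B2 = B1 ++ b :: (q ^ 2 * b) :: (z ++ B2) := by simp
    have e3 : B1 ++ z ++ B2 = B1 ++ (z ++ B2) := by simp
    have l1 : (A ++ [q ^ 2 * b]).length = A.length + 1 := by simp
    have l2 : (B1 ++ [b]).length = B1.length + 1 := by simp
    have l3 : B1.length + 1 + ((q ^ 2 * b) :: z).length + B2.length = 2 * (n + 1) := by
      simp only [List.length_cons]; omega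
    have l4 : B1.length + z.length + B2.length = 2 * n := by omega
    unfold HH HV
    rw [e1, e2, e3, l1, l2, l3, l4]
    refine sum_rec n B1 (z ++ B2) b (by rw [List.length_append]; omega) _ _ fun w' hw' => ?_
    have hw1 := mem_LP.1 hw'
    have hm := D.mem (A ++ (q ^ 2 * b) :: z)
    refine Tex.es_congr hm fun u hu hok => ?_
    exact ((h B1.length B2.length A.length z.length w' u hw1.2 hok).2 (by omega)
      (by rw [hu]; simp only [List.length_append, List.length_cons]; omega)).1
  · have e1 : b :: A ++ z = b :: (A ++ z) := by simp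
    have e2 : B1 ++ (z ++ [b]) ++ (q ^ 2 * b) :: B2 = (B1 ++ z) ++ b :: (q ^ 2 * b) :: B2 := by simp
    have e4 : A ++ (z ++ [b]) = (A ++ z) ++ [b] := by simp
    have l1 : (b :: A).length = A.length + 1 := by simp
    have l2 : ((q ^ 2 * b) :: B2).length = B2.length + 1 := by simp
    have l3 : B1.length + (z ++ [b]).length + (B2.length + 1) = 2 * (n + 1) := by
      simp only [List.length_append, List.length_cons, List.length_nil]; omega
    have l4 : B1.length + z.length + B2.length = 2 * n := by omega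
    unfold HH HV
    rw [e1, e2, e4, l1, l2, l3, l4, D.rot b (A ++ z)]
    refine sum_rec n (B1 ++ z) B2 b (by rw [List.length_append]; omega) _ _ fun w' hw' => ?_
    have hw1 := mem_LP.1 hw'
    have hm := D.mem ((A ++ z) ++ [b])
    symm
    refine TnA.es_lin_congr hm fun u hu hok => ?_
    have hB : (B1 ++ z).length = B1.length + z.length := List.length_append
    rw [hB]
    exact ((h B1.length B2.length A.length z.length w' u hw1.2 hok).2 (by omega)
      (by rw [hu]; simp only [List.length_append, List.length_cons, List.length_nil])).2.symm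

end Pool.Agent.W808.KS
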