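import Pool.Agent.W808.KS.T_ex
import Pool.Agent.W808.HB.T_sym

/-!
# Symmetry in the other strands (helper215)
-/

set_option autoImplicit false

namespace Pool.Agent.W808.KS
open Pool.Agent.H863R2.Cyl
open Pool.Agent.H988R2.Perc (Word PD Dyck LP Fw mem_LP)
open Pool.Agent.H160R2.ML (pfq Gn)

namespace Tsz

open Pool.Agent.W808.HB.Tlegx (lc_lin lc_congr)
open Pool.Agent.W808.KC.Tflip (Gf Gf_congr Gf_zero Gf_exch)

theorem Gf_lin (c d : ℂ) (f g : Word → ℂ) (l : List ℂ) :
    Gf (fun w => c * f w + d * g w) l = c * Gf f l + d * Gf g l := by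
  unfold Gf
  rw [Finset.mul_sum, Finset.mul_sum, ← Finset.sum_add_distrib]
  exact Finset.sum_congr rfl fun _ _ => by ring

theorem Gf_smul (c : ℂ) (f : Word → ℂ) (l : List ℂ) :
    Gf (fun w => c * f w) l = c * Gf f l := by
  unfold Gf
  rw [Finset.mul_sum]
  exact Finset.sum_congr rfl fun _ _ => by ring

/-- the generator can be moved to the other side -/
theorem es_act (h : S_Gm) {b1 b2 m n i : ℕ} {w : Word} {v : VW} (hd : Dyck w)
    (hw : w.length = b1 + n + b2) (hv : v ∈ VN (m + n)) (hi : i + 2 ≤ n) :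
    es b1 b2 m w (lin (act (m + i)) v) =
      es b1 b2 m (Pool.Agent.H988R2.Perc.act (b1 + i) w) v := by
  rw [Tex.es_lin]
  unfold es
  refine lc_congr hv fun u hu hok => ?_
  have h5 : (m + i) + 2 ≤ u.length := by omega
  have h6 := length_cap h5
  have h7 : (b1 + i) + 2 ≤ w.length := by omega
  have h8 := Pool.Agent.H988R2.Perc.length_cap h7
  have k1 := (h b1 b2 m n i w (cap (m + i) u) hd (ok_cap hok h5) hi).1 hw (by omega)
  have k2 := (h b1 b2 m n i (Pool.Agent.H988R2.Perc.cap (b1 + i) w) u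
    (Pool.Agent.H988R2.Perc.dyck_cap hd h7) hok hi).2 (by omega) hu
  have k3 : Gs b1 b2 m w (act (m + i) u) ↔
      Gs b1 b2 m (Pool.Agent.H988R2.Perc.act (b1 + i) w) u := by
    rw [act_eq h5]
    unfold Pool.Agent.H988R2.Perc.act
    exact k1.trans k2.symm
  simp only [k3]

theorem act_act {i : ℕ} {w : Word} (h : i + 2 ≤ w.length) :
    Pool.Agent.H988R2.Perc.act i (Pool.Agent.H988R2.Perc.act i w) =
      Pool.Agent.H988R2.Perc.act i w := by
  have h2 := Pool.Agent.H988R2.Perc.length_cap h
  unfold Pool.Agent.H988R2.Perc.act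
  rw [Pool.Agent.H988R2.Perc.cap_ins_self (by omega)]

/-- adjacent transposition -/
theorem swap (h : S_Gm) (Ψ : List ℂ → VW) (D : Fam q Ψ) (A B1 B2 z1 z2 : List ℂ) (x y : ℂ)
    (hx : q * x - q ^ 2 * y ≠ 0) (hy : q * y - q ^ 2 * x ≠ 0) :
    HH Ψ A B1 B2 (z1 ++ y :: x :: z2) = HH Ψ A B1 B2 (z1 ++ x :: y :: z2) := by
  have e1 : ∀ a b : ℂ, B1 ++ (z1 ++ a :: b :: z2) ++ B2 =
      (B1 ++ z1) ++ a :: b :: (z2 ++ B2) := by intro a b; simp
  have e2 : ∀ a b : ℂ, A ++ (z1 ++ a :: b :: z2) = (A ++ z1) ++ a :: b :: z2 := by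
    intro a b; simp
  rw [Tex.HH_eq, Tex.HH_eq, e1, e1, e2, e2]
  set f : Word → ℂ := fun w => es B1.length B2.length A.length w
    (Ψ ((A ++ z1) ++ x :: y :: z2)) with hf
  have hlen : ((A ++ z1) ++ x :: y :: z2).length = A.length + (z1.length + 2 + z2.length) := by
    simp only [List.length_append, List.length_cons]; omega
  have hm := D.mem ((A ++ z1) ++ x :: y :: z2)
  rw [hlen] at hm
  have h1 := D.exch (A ++ z1) z2 x y
  have hA : (A ++ z1).length = A.length + z1.length := List.length_append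
  have hB : (B1 ++ z1).length = B1.length + z1.length := List.length_append
  rw [hA] at h1
  have h2 : ∀ w : Word, w.length = ((B1 ++ z1) ++ y :: x :: (z2 ++ B2)).length → Dyck w →
      (q * y - q ^ 2 * x) * es B1.length B2.length A.length w
        (Ψ ((A ++ z1) ++ y :: x :: z2)) =
      (q * x - q ^ 2 * y) * f w + (x - y) *
        f (Pool.Agent.H988R2.Perc.act (B1.length + z1.length) w) := by
    intro w hw hd
    have hw' : w.length = B1.length + (z1.length + 2 + z2.length) + B2.length := by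
      rw [hw]; simp only [List.length_append, List.length_cons]; omega
    have h3 := congrArg (es B1.length B2.length A.length w) h1
    rw [map_add, map_smul, map_smul, map_smul, smul_eq_mul, smul_eq_mul, smul_eq_mul,
      es_act h hd hw' hm (by omega)] at h3
    exact h3
  have h4 := Gf_congr (l := (B1 ++ z1) ++ y :: x :: (z2 ++ B2)) h2
  rw [Gf_smul] at h4
  have h5 := Gf_exch (fun w => (q * x - q ^ 2 * y) * f w + (x - y) *
    f (Pool.Agent.H988R2.Perc.act (B1.length + z1.length) w)) (B1 ++ z1) (z2 ++ B2) x y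
  rw [← h4, hB] at h5
  have h6 : Gf (fun w => (q * x - q ^ 2 * y) *
      f (Pool.Agent.H988R2.Perc.act (B1.length + z1.length) w) + (x - y) *
      f (Pool.Agent.H988R2.Perc.act (B1.length + z1.length)
        (Pool.Agent.H988R2.Perc.act (B1.length + z1.length) w)))
        ((B1 ++ z1) ++ x :: y :: (z2 ++ B2)) =
      Gf (fun w => ((q * x - q ^ 2 * y) + (x - y)) *
        f (Pool.Agent.H988R2.Perc.act (B1.length + z1.length) w))
        ((B1 ++ z1) ++ x :: y :: (z2 ++ B2)) := by
    refine Gf_congr fun w hw _ => ?_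
    rw [act_act (by
      rw [hw]; simp only [List.length_append, List.length_cons]; omega)]
    ring
  rw [h6, Gf_smul, Gf_lin] at h5
  apply mul_left_cancel₀ (mul_ne_zero hx hy)
  have hq : q ^ 2 + q + 1 = 0 := Pool.Agent.H988R2.Perc.q_spec
  generalize Gf (fun w => f (Pool.Agent.H988R2.Perc.act (B1.length + z1.length) w))
    ((B1 ++ z1) ++ x :: y :: (z2 ++ B2)) = G at h5
  linear_combination h5 + G * (x - y) * (y - x) * hq

theorem den {a b : ℂ} (hab : a ^ 3 ≠ b ^ 3) : q * b - q ^ 2 * a ≠ 0 := by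
  have hq : q ^ 2 + q + 1 = 0 := Pool.Agent.H988R2.Perc.q_spec
  have hq3 : q ^ 3 = 1 := by linear_combination (q - 1) * hq
  intro h0
  apply hab
  have hq0 : (q : ℂ) ≠ 0 := by
    intro h
    rw [h] at hq
    norm_num at hq
  have h1 : b = q * a := by
    have : q * (b - q * a) = 0 := by linear_combination h0
    rcases mul_eq_zero.1 this with h2 | h2
    · exact absurd h2 hq0
    · linear_combination h2
  rw [h1]
  linear_combination (-a ^ 3) * hq3

end Tsz

open Tsz Pool.Agent.W808.HB.Tsym in
theorem t_sz : S_Gm → S_sz := by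
  intro h Ψ D A B1 B2 z z' hE hp hG
  clear hE
  have key : ∀ u : List ℂ, Gn (u ++ z) →
      HH Ψ A B1 B2 (u ++ z) = HH Ψ A B1 B2 (u ++ z') := by
    clear hG
    induction hp with
    | nil => intro u _; rfl
    | cons x _ ih =>
      intro u hu
      have := ih (u ++ [x]) (by simpa using hu)
      simpa using this
    | swap x y l =>
      intro u hu
      have h3 : Gn [y, x] := by
        refine Gn_sublist ?_ hu
        refine List.Sublist.trans ?_ (List.sublist_append_right _ _)
        exact ((List.nil_sublist _).cons_cons _).cons_cons _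
      have h4 := h3.2
      simp only [List.map_cons, List.map_nil, List.nodup_cons, List.mem_cons, List.not_mem_nil,
        or_false, not_false_eq_true, List.nodup_nil, and_true] at h4
      exact swap h Ψ D A B1 B2 u l x y (den (fun h => h4 h)) (den (fun h => h4 h.symm))
    | trans p1 p2 ih1 ih2 =>
      intro u hu
      rw [ih1 u hu, ih2 u (Gn_perm (p1.append_left u) hu)]
  exact key [] hG

end Pool.Agent.W808.KS
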