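import Pool.Agent.W808.KC.All
import Pool.Agent.W808.KS.T_ASs
import Pool.Agent.W808.KS.T_B0
import Pool.Agent.W808.KS.T_B1
import Pool.Agent.W808.KS.T_Bc
import Pool.Agent.W808.KS.T_Bd
import Pool.Agent.W808.KS.T_D1
import Pool.Agent.W808.KS.T_DE
import Pool.Agent.W808.KS.T_F00
import Pool.Agent.W808.KS.T_FS
import Pool.Agent.W808.KS.T_G0
import Pool.Agent.W808.KS.T_GC
import Pool.Agent.W808.KS.T_GI
import Pool.Agent.W808.KS.T_GLs
import Pool.Agent.W808.KS.T_Gm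
import Pool.Agent.W808.KS.T_Go
import Pool.Agent.W808.KS.T_Gt
import Pool.Agent.W808.KS.T_Gv
import Pool.Agent.W808.KS.T_Gz
import Pool.Agent.W808.KS.T_HVs
import Pool.Agent.W808.KS.T_KLs
import Pool.Agent.W808.KS.T_KR
import Pool.Agent.W808.KS.T_KW
import Pool.Agent.W808.KS.T_LAW
import Pool.Agent.W808.KS.T_LBs
import Pool.Agent.W808.KS.T_LC
import Pool.Agent.W808.KS.T_M1
import Pool.Agent.W808.KS.T_M2
import Pool.Agent.W808.KS.T_MA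
import Pool.Agent.W808.KS.T_MB
import Pool.Agent.W808.KS.T_PWs
import Pool.Agent.W808.KS.T_QA
import Pool.Agent.W808.KS.T_QB
import Pool.Agent.W808.KS.T_RA
import Pool.Agent.W808.KS.T_RB
import Pool.Agent.W808.KS.T_RU
import Pool.Agent.W808.KS.T_RV
import Pool.Agent.W808.KS.T_SFs
import Pool.Agent.W808.KS.T_SIs
import Pool.Agent.W808.KS.T_TKs
import Pool.Agent.W808.KS.T_TP
import Pool.Agent.W808.KS.T_TR
import Pool.Agent.W808.KS.T_TT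
import Pool.Agent.W808.KS.T_VV
import Pool.Agent.W808.KS.T_WGs
import Pool.Agent.W808.KS.T_Y1
import Pool.Agent.W808.KS.T_Y2
import Pool.Agent.W808.KS.T_Y3
import Pool.Agent.W808.KS.T_ZS
import Pool.Agent.W808.KS.T_dg
import Pool.Agent.W808.KS.T_ex
import Pool.Agent.W808.KS.T_nA
import Pool.Agent.W808.KS.T_nB
import Pool.Agent.W808.KS.T_sz

/-!
# Legs at the tip of a slit: assembly
-/

set_option autoImplicit false

namespace Pool.Agent.W808.KS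

theorem a_GI : S_GI := t_GI t_GC
theorem a_Gz : S_Gz := t_Gz t_GC a_GI
theorem a_Gm : S_Gm := t_Gm t_GC a_GI
theorem a_Gv : S_Gv := t_Gv t_GC a_GI
theorem a_G0 : S_G0 := t_G0 t_GC a_GI a_Gz
theorem a_Go : S_Go := t_Go t_GC a_GI
theorem a_KW : S_KW := t_KW t_KR a_Gz a_Gm a_Gv a_G0
theorem a_LC : S_LC := t_LC t_FS
theorem a_exA : S_exA := t_exA a_Gz
theorem a_exB : S_exB := t_exB a_Gz
theorem a_sz : S_sz := t_sz a_Gm
theorem a_nA : S_nA := t_nA a_Gv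
theorem a_nB : S_nB := t_nB a_Gv
theorem a_D1 : S_D1 := t_D1 t_KR a_Gz a_Gm a_Gv a_G0 a_nA a_nB
theorem a_DE : S_DE := t_DE a_KW a_D1
theorem a_RU : S_RU := t_RU a_exA t_dg
theorem a_RV : S_RV := t_RV a_exB
theorem a_QA : S_QA := t_QA a_RU a_exA a_DE a_LC t_dg
theorem a_QB : S_QB := t_QB a_RV a_exB t_F00 a_Go
theorem a_RA : S_RA := t_RA t_TR t_TP
theorem a_RB : S_RB := t_RB t_TR t_TP
theorem a_ZS : S_ZS := t_ZS KC.a_M2
theorem a_B0 : S_B0 := t_B0 t_TT a_ZS t_Gt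
theorem a_B1 : S_B1 := t_B1 a_G0
theorem a_MA : S_MA := t_MA a_QA a_nA a_sz t_TP a_RA
theorem a_MB : S_MB := t_MB a_QB a_nB a_sz a_exB a_exA t_TP a_RB
theorem a_M1 : S_M1 := t_M1 a_MA a_MB a_B0 a_B1
theorem a_M2 : S_M2 := t_M2 a_M1 t_dg t_TP
theorem a_HVs : S_HVs := t_HVs a_M2 t_TKs t_KLs t_VV
theorem a_WGs : S_WGs := t_WGs t_GC
theorem a_SIs : S_SIs := t_SIs t_SFs
theorem a_Y1 : S_Y1 := t_Y1 a_WGs t_SFs a_SIs t_GLs
theorem a_PWs : S_PWs := t_PWs KC.a_CV KC.a_HV KC.a_DC KC.t_E1 a_HVs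
theorem a_LAW : S_LAW := t_LAW a_Y1 t_Y2 t_Y3 a_PWs
theorem a_LBs : S_LBs := t_LBs a_LAW t_ASs t_Bd t_Bc

end Pool.Agent.W808.KS
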