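import Pool.Agent.H863R2.Cyl.KRel
import Pool.Agent.H863R2.Cyl.Sem4
import Pool.Agent.W808.KC.Stm

/-!
# Legs at the tip of a slit: definitions

The half-infinite cylinder of circumference `N = m + 2 M` (heights `t ≥ 0`) is continued at heights
`t ≤ 0` by a half-infinite strip of width `2 M`: the cylinder above is cut by a slit of thickness `m`.
The strands `0, …, m - 1` of the lower word `u` end at the tip of the slit; the other strands are glued
to the strands of the upper (Dyck) word `w`. In the recursions the upper word has moreover `b1` legs at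
its left end and `b2` legs at its right end.
-/

set_option autoImplicit false

namespace Pool.Agent.W808.KS
open Pool.Agent.H863R2.Cyl
open Pool.Agent.H988R2.Perc (Word PD Dyck LP Fw rainbow firstArc rem)
open Pool.Agent.H988R2.Perc.T10 (pairs fA fB)
open Pool.Agent.H160R2.ML (pfq Gn)
open Pool.Agent.W808.HB (bwm prs Xf Yf vdx wdx bet xY)
open Filter Topology

/-- the cube root of unity -/
noncomputable abbrev q : ℂ := Pool.Agent.H988R2.Perc.q

/-! ## the leg functional -/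

/-- glue the Dyck word `w` (with `n` arcs) to the strands `p, p + 1, …` of the cylinder word `U` -/
def gl (p : ℕ) : ℕ → Word → Word → Word
  | 0, _, U => U
  | n + 1, w, U => gl p n (rem (firstArc w) w) (cap (p + firstArc w) U)

/-- the word with the legs of both sides of the slit -/
def Us (b1 b2 m : ℕ) (u : Word) : Word :=
  List.replicate b2 false ++ u.take m ++ List.replicate b1 true ++ List.replicate b1 false ++
    u.drop m ++ List.replicate b2 true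

/-- no leg is connected to another leg of the same slit -/
def Gs (b1 b2 m : ℕ) (w u : Word) : Prop :=
  gl (m + b1 + b2) (w.length / 2) w (Us b1 b2 m u) = bwm (m + b1 + b2)

instance (b1 b2 m : ℕ) (w u : Word) : Decidable (Gs b1 b2 m w u) := inferInstanceAs (Decidable (_ = _))

/-- linear extension of the indicator -/
noncomputable def es (b1 b2 m : ℕ) (w : Word) : VW →ₗ[ℂ] ℂ :=
  Finsupp.linearCombination ℂ (fun u => if Gs b1 b2 m w u then (1 : ℂ) else 0)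

/-- the functional on vectors (`m` legs below, `B1`, `B2` legs above, other strands `z`) -/
noncomputable def HV (v : VW) (m : ℕ) (B1 B2 z : List ℂ) : ℂ :=
  ∑ w ∈ LP (B1.length + z.length + B2.length),
    Fw w (B1 ++ z ++ B2) * es B1.length B2.length m w v

/-- the partition function -/
noncomputable def HH (Ψ : List ℂ → VW) (A B1 B2 z : List ℂ) : ℂ := HV (Ψ (A ++ z)) A.length B1 B2 z

/-- the constant of the limit -/
noncomputable def cK (r : ℂ) (p b2 : ℕ) : ℂ :=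
  (-r) ^ b2 * (-r ^ 2) ^ (p / 2) * (if p % 2 = 1 then r / (r - 1) else 1)

/-- the sum of the components in the strip -/
noncomputable def Zs (z : List ℂ) : ℂ := ∑ w ∈ LP z.length, Fw w z

/-- the legs `a⁻¹, …, (1), …, a` -/
noncomputable def symA (ε : ℕ) : List ℂ → List ℂ
  | [] => List.replicate ε 1
  | a :: A => a⁻¹ :: symA ε A ++ [a]

/-- the inverses in the opposite order -/
noncomputable def rv (B : List ℂ) : List ℂ := (B.map (fun b => b⁻¹)).reverse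

/-! ## the determinants -/

noncomputable def gs2 (x : ℂ) : ℂ := (x⁻¹ - q * x) * (x⁻¹ - q ^ 2 * x)

noncomputable def sg (ε : ℕ) (y : ℂ) : ℂ := (y⁻¹ - q * y) ^ ε

noncomputable def g1 (ε : ℕ) (y : ℂ) : ℂ := KC.gs (y ^ 2) * sg ε y

noncomputable def g2 (ε : ℕ) (y : ℂ) : ℂ := gs2 (y ^ 2) * sg ε y

noncomputable def lam (C : List ℂ) (x : ℂ) : ℂ := (C.map (fun c => Xf c - Yf q x⁻¹)).prod

/-- the determinant with the weight `g` and the legs `C` (the parameters are `y_i ^ 2`) -/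
noncomputable def DT (g : ℂ → ℂ) (C : List ℂ) {M : ℕ} (y : Fin M → ℂ) : ℂ :=
  (Matrix.of fun i j : Fin M =>
    g (y j) * lam C (y j ^ 2) / (Xf (y i ^ 2) - Yf q (y j ^ 2))
    + g (y j)⁻¹ * lam C ((y j)⁻¹ ^ 2) / (Xf (y i ^ 2) - Yf q ((y j)⁻¹ ^ 2))).det

noncomputable def sq {M : ℕ} (y : Fin M → ℂ) : Fin M → ℂ := fun i => y i ^ 2

/-- the normalisation -/
noncomputable def kap (ε k l M : ℕ) : ℂ :=
  (-1) ^ (M * (1 - ε) + k * ε) * ((q - 1) ^ M * ((q - 1) ^ k)⁻¹) * q ^ (M * (M + 1 - ε + 2 * l))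

/-- the right-hand side of the exact formula -/
noncomputable def Rf (ε : ℕ) (A B : List ℂ) {M : ℕ} (y : Fin M → ℂ) : ℂ :=
  kap ε A.length B.length M * pfq q (symA ε A) * (pairs fA B * pairs fB (rv B)) *
    (wdx (sq y) ^ 2 * (DT (g1 ε) (A ++ B) y * DT (g2 ε) (A ++ B) y))

/-! ## the homogeneous limit -/

/-- the path to the homogeneous point (`T = Y ^ (1/2)`) -/
noncomputable def Tv (t : ℝ) (i : ℕ) : ℂ := ((1 + t * (i + 1) : ℝ) : ℂ)

noncomputable def K1 (ε k : ℕ) (b T : ℂ) : ℂ :=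
  (T ^ (2 + 2 * k + ε) / (1 - b * (T ^ 2 * (T ^ 2 - 1)))
    - T⁻¹ ^ (2 + 2 * k + ε) / (1 - b * (T⁻¹ ^ 2 * (T⁻¹ ^ 2 - 1)))) / (T ^ 2 - T⁻¹ ^ 2) * (T + T⁻¹) ^ ε

noncomputable def K2 (ε k : ℕ) (b T : ℂ) : ℂ :=
  (T ^ (2 + 2 * k + ε) / (1 - b * (T ^ 2 * (T ^ 2 - 1)))
    + T⁻¹ ^ (2 + 2 * k + ε) / (1 - b * (T⁻¹ ^ 2 * (T⁻¹ ^ 2 - 1)))) / (T + T⁻¹) ^ ε

/-- the coefficients of the first determinant -/
def v1 (ε k r l : ℕ) : ℕ := if ε = 0 then KC.uc k r l else KC.uc (k + 1) r l + KC.uc k r l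

/-- the coefficients of the second determinant (without its first row and column) -/
def v2 (ε k r l : ℕ) : ℕ := if ε = 0 then KC.uc (k + 2) r l + KC.uc (k + 1) r l else KC.uc (k + 2) r l

noncomputable def V1 (ε k M : ℕ) : ℝ := (Matrix.of fun r l : Fin M => (v1 ε k r l : ℝ)).det

noncomputable def V2 (ε k M : ℕ) : ℝ := (Matrix.of fun r l : Fin M => (v2 ε k r l : ℝ)).det

/-- product formula for a real parameter -/
noncomputable def CR (p : ℝ) (M : ℕ) : ℝ := ∏ i ∈ Finset.range M,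
  ((2 * p + 3 * i) * (i + 1).factorial *
    ∏ s ∈ Finset.range (i + 1), ((2 * p + 1 + 4 * i + 2 * s) * (2 * p - 1 + 2 * i + s))) /
  ((2 * i + 2).factorial * ∏ s ∈ Finset.range (i + 2), (2 * p - 1 + 2 * i + 2 * s))

/-- the probability of `m` legs at the tip of the slit, circumference `m + 2 M`, `M ≥ 1` -/
noncomputable def Psl (m M : ℕ) : ℝ :=
  2 ^ M * CR ((m : ℝ) / 2 + 1) M * CR (((m : ℝ) + 5) / 2) (M - 1) /
    (HB.Cn (m % 2) (M + m / 2) * CR 3 (M - 1))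

/-! ## faces -/

/-- connections of the faces `a ∈ ℤ` of the universal cover: by the lower word `u` and by the upper
words `w` -/
inductive Ls (N m : ℕ) (u w : Word) : ℤ → ℤ → Prop
  | rw (a b : ℤ) : Rw u a b → Ls N m u w a b
  | up (s : ℤ) (i k : ℕ) : i ≤ w.length → k ≤ w.length → KC.Fc w i k →
      Ls N m u w (s * N + m + i) (s * N + m + k)

/-! ## the lattice: points `(j, t)`, every unit square contains one of its diagonals -/

/-- the half-infinite strip of width `2 M` (columns `0, …, 2 M`, heights `t ≤ 0`) which occupies the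
columns `m, …, m + 2 M` of `ω`; the walls are wired at the even heights -/
inductive SI (m M : ℕ) (ω : ℤ × ℤ → Bool) : ℤ × ℤ → ℤ × ℤ → Prop
  | rise (j : ℕ) (t : ℤ) : j < 2 * M → t < 0 → ω ((m : ℤ) + j, t) = false →
      SI m M ω (j, t) (j + 1, t + 1)
  | fall (j : ℕ) (t : ℤ) : j < 2 * M → t < 0 → ω ((m : ℤ) + j, t) = true →
      SI m M ω (j + 1, t) (j, t + 1)
  | wallL (s : ℕ) : SI m M ω (0, -(2 * s : ℤ)) (0, -(2 * s : ℤ) - 2)
  | wallR (s : ℕ) : SI m M ω ((2 * M : ℕ), -(2 * s : ℤ)) ((2 * M : ℕ), -(2 * s : ℤ) - 2)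

/-- the strip of height `2 K`, closed at the height `-2 K` -/
inductive SF (m M K : ℕ) (ω : ℤ × ℤ → Bool) : ℤ × ℤ → ℤ × ℤ → Prop
  | rise (j : ℕ) (t : ℤ) : j < 2 * M → t < 0 → -(2 * K : ℤ) ≤ t → ω ((m : ℤ) + j, t) = false →
      SF m M K ω (j, t) (j + 1, t + 1)
  | fall (j : ℕ) (t : ℤ) : j < 2 * M → t < 0 → -(2 * K : ℤ) ≤ t → ω ((m : ℤ) + j, t) = true →
      SF m M K ω (j + 1, t) (j, t + 1)
  | wallL (s : ℕ) : s < K → SF m M K ω (0, -(2 * s : ℤ)) (0, -(2 * s : ℤ) - 2)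
  | wallR (s : ℕ) : s < K → SF m M K ω ((2 * M : ℕ), -(2 * s : ℤ)) ((2 * M : ℕ), -(2 * s : ℤ) - 2)
  | top (i : ℕ) : i < M → SF m M K ω ((2 * i : ℕ), -(2 * K : ℤ)) ((2 * i : ℕ) + 2, -(2 * K : ℤ))

/-- the bits of the rows of the strip (tile `i`, row `k` = the squares `[k - 2 K, k + 1 - 2 K]`) -/
def cT (m K : ℕ) (ω : ℤ × ℤ → Bool) (k i : ℕ) : Bool :=
  if k % 2 = 0 then ω ((m : ℤ) + i - 1, (k : ℤ) - 2 * K) else !ω ((m : ℤ) + i - 1, (k : ℤ) - 2 * K)

/-- alternating row of the strip at height `t` -/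
def AltS (m M : ℕ) (ω : ℤ × ℤ → Bool) (t : ℤ) : Prop :=
  ∀ j : ℕ, j < 2 * M → ω ((m : ℤ) + j, t) = decide (j % 2 = 0)

/-- the cylinder of circumference `N` (universal cover) cut at the heights `t < 0` by the slits
`s N < j < s N + m` -/
inductive HS (N m : ℕ) (ω : ℤ × ℤ → Bool) : ℤ × ℤ → ℤ × ℤ → Prop
  | rise (j t : ℤ) : (0 ≤ t ∨ (m : ℤ) ≤ j % N) → ω (j % N, t) = false → HS N m ω (j, t) (j + 1, t + 1)
  | fall (j t : ℤ) : (0 ≤ t ∨ (m : ℤ) ≤ j % N) → ω (j % N, t) = true → HS N m ω (j + 1, t) (j, t + 1)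
  | wallL (s : ℤ) (i : ℕ) : HS N m ω (s * N + m, -(2 * i : ℤ)) (s * N + m, -(2 * i : ℤ) - 2)
  | wallR (s : ℤ) (i : ℕ) : HS N m ω (s * N, -(2 * i : ℤ)) (s * N, -(2 * i : ℤ) - 2)

/-- the `m` leg event at the tip of the slit -/
def LegS (N m : ℕ) (ω : ℤ × ℤ → Bool) : Prop :=
  HB.Sec m N (fun a b => Relation.EqvGen (HS N m ω) (a, 0) (b, 0))

/-- the lower half of the configuration -/
def lowH (ω : ℤ × ℤ → Bool) : ℤ × ℕ → Bool := fun p => ω (p.1, (p.2 : ℤ))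

open MeasureTheory in
/-- fair coins -/
noncomputable def coinsZ : Measure (ℤ × ℤ → Bool) :=
  Measure.infinitePi (fun _ => ProbabilityTheory.bernoulliMeasure true false
    ⟨1/2, by norm_num, by norm_num⟩)

/-! ## the slit plane -/

/-- the box `|j|, |t| ≤ R` of the plane cut along the slit `0 < j < m`, `t < 0` -/
inductive BS (m R : ℕ) (ω : ℤ × ℤ → Bool) : ℤ × ℤ → ℤ × ℤ → Prop
  | rise (j t : ℤ) : (0 ≤ t ∨ j < 0 ∨ (m : ℤ) ≤ j) → ω (j, t) = false → -(R : ℤ) ≤ j → j + 1 ≤ R →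
      -(R : ℤ) ≤ t → t + 1 ≤ R → BS m R ω (j, t) (j + 1, t + 1)
  | fall (j t : ℤ) : (0 ≤ t ∨ j < 0 ∨ (m : ℤ) ≤ j) → ω (j, t) = true → -(R : ℤ) ≤ j → j + 1 ≤ R →
      -(R : ℤ) ≤ t → t + 1 ≤ R → BS m R ω (j + 1, t) (j, t + 1)
  | wallL (i : ℕ) : 2 * i + 2 ≤ R → BS m R ω (0, -(2 * i : ℤ)) (0, -(2 * i : ℤ) - 2)
  | wallR (i : ℕ) : 2 * i + 2 ≤ R → BS m R ω ((m : ℤ), -(2 * i : ℤ)) ((m : ℤ), -(2 * i : ℤ) - 2)

/-- the sectors `1, …, m - 1` of the tip reach distance `R` and are not connected to each other nor to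
the outer sectors -/
def SArm (m R : ℕ) (ω : ℤ × ℤ → Bool) : Prop :=
  (∀ c d : ℕ, 1 ≤ c → c < m → d ≤ m → c ≠ d →
    ¬ Relation.EqvGen (BS m R ω) ((c : ℤ), 0) ((d : ℤ), 0)) ∧
  (∀ c : ℕ, 1 ≤ c → c < m → ∃ y : ℤ × ℤ, (|y.1| = R ∨ |y.2| = R) ∧
    Relation.EqvGen (BS m R ω) ((c : ℤ), 0) y)

end Pool.Agent.W808.KS
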