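import Pool.Agent.W808.KS.Stm
import Pool.Agent.H863R2.Cyl.Lst
import Pool.Agent.H863R2.Cyl.Lst2

set_option autoImplicit false

namespace Pool.Agent.W808.KS
open Pool.Agent.H863R2.Cyl
open Pool.Agent.H988R2.Perc (Word PD Dyck LP Fw rainbow firstArc rem)

namespace TGm

theorem Us_zero (m : ℕ) (u : Word) : Us 0 0 m u = u := by
  simp [Us]

theorem Us_b1 (b1 b2 m : ℕ) (u : Word) (hm : m ≤ u.length) :
    Us (b1 + 1) b2 m u = lins (b2 + m + b1) (Us b1 b2 m u) := by
  have h1 : Us b1 b2 m u = (List.replicate b2 false ++ u.take m ++ List.replicate b1 true) ++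
      (List.replicate b1 false ++ u.drop m ++ List.replicate b2 true) := by
    simp [Us]
  have h2 : (List.replicate b2 false ++ u.take m ++ List.replicate b1 true).length =
      b2 + m + b1 := by
    simp [hm]; omega
  rw [h1]
  unfold lins Pool.Agent.H988R2.Perc.ins
  rw [List.take_left' h2, List.drop_left' h2]
  unfold Us
  rw [List.replicate_succ' (n := b1) (a := true), List.replicate_succ (n := b1) (a := false)]
  simp

theorem Us_b2 (b1 b2 m : ℕ) (u : Word) :
    Us b1 (b2 + 1) m u = seam (Us b1 b2 m u) := by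
  unfold Us seam
  rw [List.replicate_succ (n := b2) (a := false), List.replicate_succ' (n := b2) (a := true)]
  simp

theorem length_Us (b1 b2 m : ℕ) (u : Word) : (Us b1 b2 m u).length = u.length + 2 * b1 + 2 * b2 := by
  simp only [Us, List.length_append, List.length_replicate, List.length_take, List.length_drop]
  omega

theorem ok_Us (b1 b2 m : ℕ) (u : Word) (hm : m ≤ u.length) (hu : Ok u) : Ok (Us b1 b2 m u) := by
  induction b2 with
  | zero =>
    induction b1 with
    | zero => rw [Us_zero]; exact hu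
    | succ b1 ih => rw [Us_b1 _ _ _ _ hm]; exact ok_lins.2 ih
  | succ b2 ih => rw [Us_b2]; exact ok_seam.2 ih

theorem Us_lins (b1 b2 m i : ℕ) (u : Word) (h : m + i ≤ u.length) :
    Us b1 b2 m (lins (m + i) u) = lins (m + b1 + b2 + (b1 + i)) (Us b1 b2 m u) := by
  obtain ⟨a, c, rfl, ha⟩ : ∃ a c : Word, u = a ++ c ∧ a.length = m :=
    ⟨u.take m, u.drop m, by simp, by simp; omega⟩
  obtain ⟨d, e, rfl, hd⟩ : ∃ d e : Word, c = d ++ e ∧ d.length = i :=
    ⟨c.take i, c.drop i, by simp, by simp at h ⊢; omega⟩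
  have h1 : lins (m + i) (a ++ (d ++ e)) = a ++ (d ++ true :: false :: e) := by
    unfold lins Pool.Agent.H988R2.Perc.ins
    rw [← List.append_assoc, List.take_left' (by simp [ha, hd]), List.drop_left' (by simp [ha, hd])]
    simp
  rw [h1]
  have h2 : Us b1 b2 m (a ++ (d ++ e)) =
      (List.replicate b2 false ++ a ++ List.replicate b1 true ++ List.replicate b1 false ++ d) ++
        (e ++ List.replicate b2 true) := by
    unfold Us
    rw [List.take_left' ha, List.drop_left' ha]
    simp
  rw [h2]
  unfold lins Pool.Agent.H988R2.Perc.ins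
  rw [List.take_left' (by simp [ha, hd]; omega), List.drop_left' (by simp [ha, hd]; omega)]
  unfold Us
  rw [List.take_left' ha, List.drop_left' ha]
  simp

theorem cap_Us (b1 b2 m n i : ℕ) (u : Word) (hi : i + 2 ≤ n) (hu : u.length = m + n) :
    cap (m + b1 + b2 + (b1 + i)) (Us b1 b2 m u) = Us b1 b2 m (cap (m + i) u) := by
  have hc : (cap (m + i) u).length + 2 = u.length := length_cap (by omega)
  induction b2 with
  | zero =>
    induction b1 with
    | zero =>
      rw [Us_zero, Us_zero]
      congr 1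
      omega
    | succ b1 ih =>
      rw [Us_b1 _ _ _ _ (by omega), Us_b1 _ _ _ _ (by omega),
        cap_lins_left (by omega) (by rw [length_Us]; omega), ← ih]
      congr 2
      omega
  | succ b2 ih =>
    rw [Us_b2, Us_b2, ← ih, ← cap_seam (by rw [length_Us]; omega)]
    congr 1
    omega

end TGm

open TGm in
theorem t_Gm : S_GC → S_GI → S_Gm := by
  intro hGC hGI b1 b2 m n i w u hw hu hi
  refine ⟨fun h1 h2 => ?_, fun h1 h2 => ?_⟩
  · obtain ⟨k, hk⟩ := Pool.Agent.H988R2.Perc.dyck_even hw
    obtain ⟨k', rfl⟩ : ∃ k', k = k' + 1 := ⟨k - 1, by omega⟩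
    have hl : (Pool.Agent.H988R2.Perc.cap (b1 + i) w).length = 2 * k' := by
      have := Pool.Agent.H988R2.Perc.length_cap (i := b1 + i) (w := w) (by omega)
      omega
    unfold Gs
    rw [Us_lins _ _ _ _ _ (by omega), hl, show w.length / 2 = k' + 1 by omega,
      show 2 * k' / 2 = k' by omega,
      hGI (m + b1 + b2) k' (b1 + i) w (Us b1 b2 m u) hw (by omega)
        (ok_Us _ _ _ _ (by omega) hu) (by rw [length_Us]; omega) (by omega)]
  · obtain ⟨k, hk⟩ := Pool.Agent.H988R2.Perc.dyck_even hw
    have hl : (Pool.Agent.H988R2.Perc.ins (b1 + i) w).length = w.length + 2 := by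
      simp [Pool.Agent.H988R2.Perc.ins]; omega
    unfold Gs
    rw [hl, show (w.length + 2) / 2 = k + 1 by omega, show w.length / 2 = k by omega,
      hGC (m + b1 + b2) k (b1 + i) w (Us b1 b2 m u) hw (by omega)
        (ok_Us _ _ _ _ (by omega) hu) (by rw [length_Us]; omega) (by omega),
      cap_Us b1 b2 m n i u hi h2]

end Pool.Agent.W808.KS
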