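import Pool.Agent.W808.KS.Stm
import Pool.Agent.W808.HB.T_M1

/-!
# Legs at the tip of a slit: one more leg below (task KS-MA)
-/

set_option autoImplicit false

namespace Pool.Agent.W808.KS
open Pool.Agent.H863R2.Cyl
open Pool.Agent.H988R2.Perc (q_cube q_spec q_ne_zero q_ne_one)
open Pool.Agent.H988R2.Perc.T10 (pairs fA fB)
open Pool.Agent.H160R2.ML (pfq Gn)
open Pool.Agent.W808.HB (prs Xf Yf vdx wdx)

namespace TMA

open Pool.Agent.W808.HB.TM1 (prs_nil prs_cons prs_append prs_len prs_even prs_perm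
  mem_prs prs_prod Gn_perm Gn_sub Gn_cons Gn_append Gn_inj ef vdx_perm wdx_perm vdx_cons wdx_cons
  Xf_inv ef_inv ofFn_cons pfq_append)

/-! ### generic lists -/

theorem mem_prs_self {x : ℂ} {l : List ℂ} (h : x ∈ l) : x ∈ prs l := by
  unfold prs
  rw [List.mem_flatMap]
  exact ⟨x, h, List.mem_cons_self⟩

theorem mem_prs_inv {x : ℂ} {l : List ℂ} (h : x ∈ l) : x⁻¹ ∈ prs l := by
  unfold prs
  rw [List.mem_flatMap]
  exact ⟨x, h, List.mem_cons_of_mem _ List.mem_cons_self⟩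

theorem inv_mem_prs {x : ℂ} {l : List ℂ} (h : x ∈ prs l) : x⁻¹ ∈ prs l := by
  obtain ⟨y, hy, h⟩ := mem_prs h
  rcases h with rfl | rfl
  · exact mem_prs_inv hy
  · rw [inv_inv]
    exact mem_prs_self hy

/-- a generic element is not the third root of its inverse -/
theorem Gn_self {l : List ℂ} (h : Gn (prs l)) {x : ℂ} (hx : x ∈ l) : x ^ 3 ≠ x⁻¹ ^ 3 := by
  obtain ⟨u, v, rfl⟩ := List.append_of_mem hx
  rw [prs_append, prs_cons] at h
  have h2 := Gn_sub (List.sublist_append_right _ _) h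
  exact Gn_cons h2 x⁻¹ List.mem_cons_self

theorem pfq_ne {l : List ℂ} (h : Gn l) : pfq q l ≠ 0 := by
  induction l with
  | nil => simp [pfq]
  | cons a l ih =>
    rw [pfq]
    refine mul_ne_zero ?_ (ih (Gn_sub (List.sublist_cons_self _ _) h))
    rw [Ne, List.prod_eq_zero_iff, List.mem_map]
    rintro ⟨b, hb, h0⟩
    apply Gn_cons h b hb
    have h1 : q * b = q ^ 2 * a := sub_eq_zero.1 h0
    have h2 : (q * b) ^ 3 = (q ^ 2 * a) ^ 3 := by rw [h1]
    have h3 : (q * b) ^ 3 = q ^ 3 * b ^ 3 := by ring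
    have h4 : (q ^ 2 * a) ^ 3 = (q ^ 3) ^ 2 * a ^ 3 := by ring
    rw [h3, h4, q_cube, one_pow, one_mul, one_mul] at h2
    exact h2.symm

theorem symA_perm (ε : ℕ) (A : List ℂ) : (symA ε A).Perm (List.replicate ε 1 ++ prs A) := by
  induction A with
  | nil =>
    rw [prs_nil, List.append_nil]
    exact List.Perm.refl _
  | cons a A ih =>
    rw [symA, prs_cons]
    have h1 : (a⁻¹ :: symA ε A ++ [a]).Perm (a :: (a⁻¹ :: symA ε A)) :=
      List.perm_append_singleton _ _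
    refine h1.trans ?_
    have h2 : (a :: a⁻¹ :: symA ε A).Perm (a :: a⁻¹ :: (List.replicate ε 1 ++ prs A)) :=
      (ih.cons _).cons _
    refine h2.trans ?_
    have h3 : (a :: a⁻¹ :: (List.replicate ε 1 ++ prs A)).Perm
        (a :: (List.replicate ε 1 ++ a⁻¹ :: prs A)) := (List.perm_middle.symm).cons _
    exact h3.trans List.perm_middle.symm

theorem symA_len (ε : ℕ) (A : List ℂ) : (symA ε A).length = 2 * A.length + ε := by
  rw [(symA_perm ε A).length_eq, List.length_append, List.length_replicate, prs_len]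
  ring

theorem Gn_symA {ε : ℕ} (hε : ε ≤ 1) {A : List ℂ} (h : Gn (prs A)) : Gn (symA ε A) := by
  refine Gn_perm (symA_perm ε A).symm ?_
  rcases Nat.le_one_iff_eq_zero_or_eq_one.1 hε with rfl | rfl
  · exact h
  · rw [List.replicate_one, List.singleton_append]
    refine ⟨?_, ?_⟩
    · intro x hx
      rcases List.mem_cons.1 hx with rfl | hx
      · exact one_ne_zero
      · exact h.1 x hx
    · rw [List.map_cons, List.nodup_cons]
      refine ⟨?_, h.2⟩
      rw [List.mem_map]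
      rintro ⟨c, hc, h1⟩
      rw [one_pow] at h1
      obtain ⟨x, hx, hcx⟩ := mem_prs hc
      apply Gn_self h hx
      rcases hcx with rfl | rfl
      · rw [inv_pow, h1, inv_one]
      · rw [inv_pow] at h1
        have h2 := inv_eq_one.1 h1
        rw [inv_pow, h2, inv_one]

theorem Gn_node {x0 : ℂ} {A : List ℂ} (h : Gn (prs (x0 :: A))) :
    Gn (prs ((q ^ 2 * x0) :: A)) := by
  rw [prs_cons] at h ⊢
  have hx0 : x0 ≠ 0 := h.1 x0 List.mem_cons_self
  have e1 : (q ^ 2 * x0) ^ 3 = x0 ^ 3 := by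
    have : (q ^ 2 * x0) ^ 3 = (q ^ 3) ^ 2 * x0 ^ 3 := by ring
    rw [this, q_cube, one_pow, one_mul]
  have e2 : (q ^ 2 * x0)⁻¹ ^ 3 = x0⁻¹ ^ 3 := by rw [inv_pow, e1, inv_pow]
  refine ⟨?_, ?_⟩
  · intro x hx
    rcases List.mem_cons.1 hx with rfl | hx
    · exact mul_ne_zero (pow_ne_zero 2 q_ne_zero) hx0
    · rcases List.mem_cons.1 hx with rfl | hx
      · exact inv_ne_zero (mul_ne_zero (pow_ne_zero 2 q_ne_zero) hx0)
      · exact h.1 x (List.mem_cons_of_mem _ (List.mem_cons_of_mem _ hx))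
  · have h2 := h.2
    rw [List.map_cons, List.map_cons] at h2 ⊢
    rw [e1, e2]
    exact h2

theorem prs_prod_one {l : List ℂ} (h : ∀ x ∈ l, x ≠ 0) : (prs l).prod = 1 := by
  have h1 := prs_prod (fun x => x) l
  rw [List.map_id'] at h1
  rw [h1]
  apply List.prod_eq_one
  intro y hy
  obtain ⟨x, hx, rfl⟩ := List.mem_map.1 hy
  exact mul_inv_cancel₀ (h x hx)

theorem rv_append (B : List ℂ) (x : ℂ) : rv (B ++ [x]) = x⁻¹ :: rv B := by
  simp [rv]

theorem rv_len (B : List ℂ) : (rv B).length = B.length := by simp [rv]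

theorem q_inv : q⁻¹ = q ^ 2 := inv_eq_of_mul_eq_one_right (by linear_combination q_cube)

theorem node_inv (x : ℂ) : (q ^ 2 * x)⁻¹ = q * x⁻¹ := by
  rw [mul_inv, ← q_inv, inv_inv]

theorem Xf_node (x : ℂ) : Xf (q ^ 2 * x) = Yf q x := by
  unfold Xf Yf
  rw [node_inv]

theorem Yf_inj {l : List ℂ} (h : Gn (prs l)) {u v : ℂ} (hu : u ∈ prs l) (hv : v ∈ prs l)
    (he : Yf q u = Yf q v) : u = v := by
  have hu0 := h.1 u hu
  have hv0 := h.1 v hv
  have h1 : (u - v) * (q ^ 2 - q * (u⁻¹ * v⁻¹)) = 0 := by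
    have e : u⁻¹ - v⁻¹ = -(u - v) * (u⁻¹ * v⁻¹) := by
      field_simp
      ring
    unfold Yf at he
    linear_combination he - q * e
  rcases mul_eq_zero.1 h1 with h2 | h2
  · exact sub_eq_zero.1 h2
  · exfalso
    have h3 : u * v = q ^ 2 := by
      have e : (u * v) * (u⁻¹ * v⁻¹) = 1 := by field_simp
      linear_combination (q * (u * v)) * h2 + q ^ 2 * e - (u * v) * q_cube
    have h4 : u ^ 3 = v⁻¹ ^ 3 := by
      have e1 : (u * v) ^ 3 = 1 := by
        rw [h3]
        linear_combination (q ^ 3 + 1) * q_cube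
      rw [inv_pow]
      apply eq_inv_of_mul_eq_one_left
      rw [← mul_pow]
      exact e1
    have h5 := Gn_inj h hu (inv_mem_prs hv) h4
    rw [h5, inv_mul_cancel₀ hv0] at h3
    apply q_ne_one
    linear_combination q_cube + q * h3

/-! ### the equation -/

theorem sq_cons {M : ℕ} (y0 : ℂ) (y : Fin M → ℂ) :
    sq (Fin.cons y0 y : Fin (M + 1) → ℂ) = (Fin.cons (y0 ^ 2) (sq y) : Fin (M + 1) → ℂ) := by
  funext i
  refine Fin.cases ?_ (fun i => ?_) i <;> simp [sq]

/-- the formula -/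
def EQ (Ψ : List ℂ → VW) (ε : ℕ) (A B : List ℂ) {M : ℕ} (y : Fin M → ℂ) : Prop :=
  HH Ψ (symA ε A) B (rv B) (prs (List.ofFn (sq y))) * vdx (sq y) ^ 4 = Rf ε A B y

theorem ev_len (B l : List ℂ) : Even (B.length + (prs l).length + (rv B).length) := by
  rw [rv_len, prs_len]
  exact ⟨B.length + l.length, by ring⟩

theorem EQ_perm (hsz : S_sz) (hTP : S_TP) {Ψ : List ℂ → VW} (hF : Fam q Ψ) {ε : ℕ}
    {A B : List ℂ} {M : ℕ} {y : Fin M → ℂ} (hG : Gn (prs (List.ofFn (sq y))))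
    (s : Equiv.Perm (Fin M)) : EQ Ψ ε A B (y ∘ s) ↔ EQ Ψ ε A B y := by
  have e : sq (y ∘ s) = sq y ∘ s := rfl
  have hpm : (prs (List.ofFn (sq y))).Perm (prs (List.ofFn (sq y ∘ s))) :=
    (prs_perm (Equiv.Perm.ofFn_comp_perm s (sq y))).symm
  unfold EQ Rf
  rw [e, ← hsz Ψ hF (symA ε A) B (rv B) _ _ (ev_len _ _) hpm hG, vdx_perm, wdx_perm,
    (hTP (g1 ε) (A ++ B) M y).2.2.1 s, (hTP (g2 ε) (A ++ B) M y).2.2.1 s]

theorem EQ_inv (hsz : S_sz) (hTP : S_TP) {Ψ : List ℂ → VW} (hF : Fam q Ψ) {ε : ℕ}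
    {A B : List ℂ} {M : ℕ} {y0 : ℂ} {y : Fin M → ℂ} (hy0 : y0 ≠ 0)
    (hG : Gn (prs (y0 ^ 2 :: List.ofFn (sq y)))) :
    EQ Ψ ε A B (Fin.cons y0⁻¹ y : Fin (M + 1) → ℂ) ↔
      EQ Ψ ε A B (Fin.cons y0 y : Fin (M + 1) → ℂ) := by
  have h1 : ∀ g : ℂ → ℂ, DT g (A ++ B) (Fin.cons y0⁻¹ y : Fin (M + 1) → ℂ) =
      DT g (A ++ B) (Fin.cons y0 y : Fin (M + 1) → ℂ) := by
    intro g
    have h2 := (hTP g (A ++ B) (M + 1) (Fin.cons y0 y : Fin (M + 1) → ℂ)).2.2.2 0
      (by rw [Fin.cons_zero]; exact hy0)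
    rw [Fin.cons_zero, Fin.update_cons_zero] at h2
    exact h2
  have hpm : (prs (y0 ^ 2 :: List.ofFn (sq y))).Perm (prs ((y0 ^ 2)⁻¹ :: List.ofFn (sq y))) := by
    rw [prs_cons, prs_cons, inv_inv]
    exact List.Perm.swap _ _ _
  unfold EQ Rf
  rw [h1, h1, sq_cons, sq_cons, ofFn_cons, ofFn_cons, inv_pow,
    ← hsz Ψ hF (symA ε A) B (rv B) _ _ (ev_len _ _) hpm hG, vdx_cons, vdx_cons, wdx_cons, wdx_cons,
    Xf_inv, ef_inv]

/-- the values at the nodes -/
theorem evR (hnA : S_nA) (hsz : S_sz) (hRA : S_RA) {ε k l M : ℕ} (hε : ε ≤ 1)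
    (hC : Cl ε k (l + 1) M) {Ψ : List ℂ → VW} (hF : Fam q Ψ) {A B : List ℂ} (hA : A.length = k)
    (hB : B.length = l) (y0 : ℂ) (y : Fin M → ℂ)
    (hG : Gn (prs (A ++ B ++ y0 ^ 2 :: List.ofFn (sq y)))) :
    EQ Ψ ε ((q ^ 2 * y0 ^ 2) :: A) B (Fin.cons y0 y : Fin (M + 1) → ℂ) := by
  set x0 : ℂ := y0 ^ 2 with hx0
  set z' := prs (List.ofFn (sq y)) with hz'
  have hz'l : z'.length = 2 * M := by rw [hz', prs_len, List.length_ofFn]
  have hGz : Gn (prs (x0 :: List.ofFn (sq y))) := by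
    rw [prs_append] at hG
    exact Gn_sub (List.sublist_append_right _ _) hG
  have hpm : (prs (x0 :: List.ofFn (sq y))).Perm (x0 :: (z' ++ [x0⁻¹])) := by
    rw [prs_cons]
    exact (List.perm_append_singleton _ _).symm.cons _
  have e1 : q * (q ^ 2 * x0) = x0 := by linear_combination x0 * q_cube
  have h1 := (hnA Ψ hF ((q * x0⁻¹) :: symA ε A) B (rv B) (z' ++ [x0⁻¹]) (q ^ 2 * x0) (by
    rw [rv_len, List.length_append, List.length_singleton, hz'l]
    exact ⟨B.length + M + 1, by ring⟩)).1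
  have h2 := (hnA Ψ hF (symA ε A) (B ++ [x0]) (rv B) z' x0⁻¹ (by
    rw [rv_len, List.length_append, List.length_singleton, hz'l]
    exact ⟨B.length + M + 1, by ring⟩)).2
  rw [e1] at h1
  have h3 := hC Ψ hF A (B ++ [x0]) y hA (by rw [List.length_append, List.length_singleton, hB]) (by
    rw [List.append_assoc, List.append_assoc]
    rw [List.append_assoc] at hG
    exact hG)
  rw [rv_append, ← hz'] at h3
  have h4 := hRA ε A B M y0 y hε hG
  rw [← hx0, ← hz'] at h4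
  unfold EQ
  rw [h4, sq_cons, ofFn_cons, ← hx0, hsz Ψ hF _ B (rv B) _ _ (ev_len _ _) hpm hGz, symA, node_inv,
    h1, h2, vdx_cons]
  have e2 : ∏ j, (Xf x0 - Xf (y j ^ 2)) ^ 8 = (∏ j, (Xf x0 - Xf (sq y j)) ^ 2) ^ 4 := by
    rw [← Finset.prod_pow]
    refine Finset.prod_congr rfl fun j _ => ?_
    rw [sq]
    ring
  rw [e2, ← h3]
  ring

theorem kap_step {ε : ℕ} (k l M : ℕ) :
    kap ε (k + 1) l M * (q - 1) = kap ε k l M * (-1) ^ ε := by
  have hq1 : q - 1 ≠ 0 := sub_ne_zero.2 q_ne_one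
  unfold kap
  have e1 : M * (1 - ε) + (k + 1) * ε = (M * (1 - ε) + k * ε) + ε := by ring
  rw [e1, pow_add (-1 : ℂ) (M * (1 - ε) + k * ε) ε, pow_succ (q - 1) k, mul_inv]
  have e2 : (q - 1)⁻¹ * (q - 1) = 1 := inv_mul_cancel₀ hq1
  linear_combination ((-1) ^ (M * (1 - ε) + k * ε) * (-1) ^ ε * ((q - 1) ^ M * ((q - 1) ^ k)⁻¹) *
    q ^ (M * (M + 1 - ε + 2 * l))) * e2

theorem main (hQA : S_QA) (hnA : S_nA) (hsz : S_sz) (hTP : S_TP) (hRA : S_RA) : S_MA := by
  intro ε k l M hε hC1 hC2 Ψ hF A0 B y hA0 hB hG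
  obtain ⟨a, A, rfl⟩ : ∃ a A, A0 = a :: A := by
    cases A0 with
    | nil => simp at hA0
    | cons a A => exact ⟨a, A, rfl⟩
  have hA : A.length = k := by
    rw [List.length_cons] at hA0
    omega
  have hq1 : q - 1 ≠ 0 := sub_ne_zero.2 q_ne_one
  have hGa : Gn (prs (a :: A)) := by
    rw [List.append_assoc, prs_append] at hG
    exact Gn_sub (List.sublist_append_left _ _) hG
  have hGt : Gn (prs (A ++ B ++ List.ofFn (sq y))) := by
    rw [List.cons_append, List.cons_append, prs_cons] at hG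
    exact Gn_sub ((List.sublist_cons_self _ _).trans (List.sublist_cons_self _ _)) hG
  have hGz : Gn (prs (List.ofFn (sq y))) := by
    rw [prs_append] at hGt
    exact Gn_sub (List.sublist_append_right _ _) hGt
  have hGA : Gn (prs A) := by
    rw [List.append_assoc, prs_append] at hGt
    exact Gn_sub (List.sublist_append_left _ _) hGt
  have hmem : ∀ j, y j ^ 2 ∈ List.ofFn (sq y) := fun j => List.mem_ofFn.2 ⟨j, rfl⟩
  have hy0 : ∀ j, y j ≠ 0 := by
    intro j h
    apply hGz.1 (y j ^ 2) (mem_prs_self (hmem j))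
    rw [h]
    ring
  -- the values at the nodes
  have key0 : ∀ (y0 : ℂ) (y1 : Fin M → ℂ), Gn (prs (A ++ B ++ y0 ^ 2 :: List.ofFn (sq y1))) →
      EQ Ψ ε ((q ^ 2 * y0 ^ 2) :: A) B (Fin.cons y0 y1 : Fin (M + 1) → ℂ) :=
    fun y0 y1 h => evR hnA hsz hRA hε hC1 hF hA hB y0 y1 h
  have hsw : ∀ j : Fin (M + 1), ∃ y1 : Fin M → ℂ,
      (Fin.cons (y j) y1 : Fin (M + 1) → ℂ) = y ∘ Equiv.swap 0 j ∧
      (y j ^ 2 :: List.ofFn (sq y1)).Perm (List.ofFn (sq y)) := by
    intro j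
    have e1 : (y ∘ Equiv.swap 0 j) 0 = y j := by simp
    have e2 : (Fin.cons (y j) (Fin.tail (y ∘ Equiv.swap 0 j)) : Fin (M + 1) → ℂ) =
        y ∘ Equiv.swap 0 j := by
      rw [← e1]
      exact Fin.cons_self_tail _
    refine ⟨Fin.tail (y ∘ Equiv.swap 0 j), e2, ?_⟩
    rw [← ofFn_cons, ← sq_cons, e2]
    exact Equiv.Perm.ofFn_comp_perm (Equiv.swap 0 j) (sq y)
  have keyj : ∀ j : Fin (M + 1), EQ Ψ ε ((q ^ 2 * y j ^ 2) :: A) B y := by
    intro j
    obtain ⟨y1, h1, h2⟩ := hsw j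
    have h := key0 (y j) y1 (Gn_perm (prs_perm (List.Perm.append_left (A ++ B) h2.symm)) hGt)
    rw [h1, EQ_perm hsz hTP hF hGz] at h
    exact h
  have keyj' : ∀ j : Fin (M + 1), EQ Ψ ε ((q ^ 2 * (y j ^ 2)⁻¹) :: A) B y := by
    intro j
    obtain ⟨y1, h1, h2⟩ := hsw j
    have h := key0 (y j)⁻¹ y1 (by
      refine Gn_perm ?_ hGt
      rw [prs_append (A ++ B) (List.ofFn (sq y)), prs_append (A ++ B) _, inv_pow]
      refine (List.Perm.append_left _ (prs_perm h2.symm)).trans (List.Perm.append_left _ ?_)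
      rw [prs_cons, prs_cons, inv_inv]
      exact List.Perm.swap _ _ _)
    rw [EQ_inv hsz hTP hF (hy0 j) (Gn_perm (prs_perm h2.symm) hGz), h1,
      EQ_perm hsz hTP hF hGz, inv_pow] at h
    exact h
  have hIH := hC2 Ψ hF A B y hA hB hGt
  set z := prs (List.ofFn (sq y)) with hz
  have hzl : z.length = (M + 1) + (M + 1) := by
    rw [hz, prs_len, List.length_ofFn]
    ring
  have hzp : z.prod = 1 := by
    rw [hz]
    apply prs_prod_one
    intro x hx
    exact hGz.1 x (mem_prs_self hx)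
  obtain ⟨Q, hQd, hQe, hQc⟩ := hQA Ψ hF (symA ε A) B (rv B) z (rv_len B).symm (prs_even _)
    (Gn_symA hε hGA) hGz.1
  obtain ⟨⟨P1, hP1d, hP1e, hP1c⟩, -⟩ := hTP (g1 ε) (A ++ B) (M + 1) y
  obtain ⟨⟨P2, hP2d, hP2e, hP2c⟩, -⟩ := hTP (g2 ε) (A ++ B) (M + 1) y
  rw [hzl] at hQd hQc
  rw [hzp, one_mul, symA_len] at hQc
  set pr : ℂ := pairs fA B * pairs fB (rv B) with hpr
  set c0 : ℂ := kap ε (k + 1) l (M + 1) * pr * wdx (sq y) ^ 2 with hc0
  set V : ℂ := vdx (sq y) ^ 4 with hV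
  set F : Polynomial ℂ := Polynomial.C V * Q - Polynomial.C c0 * (P1 * P2) with hFdef
  have hrel : ∀ c, c ≠ 0 → HH Ψ (symA ε (c :: A)) B (rv B) z * V - Rf ε (c :: A) B y =
      pfq q (symA ε (c :: A)) * F.eval (Xf c) := by
    intro c hc
    have e1 : HH Ψ (symA ε (c :: A)) B (rv B) z =
        pfq q (symA ε (c :: A)) * Q.eval (Xf c) := hQe c hc
    rw [e1, hFdef, Polynomial.eval_sub, Polynomial.eval_mul, Polynomial.eval_mul,
      Polynomial.eval_mul, Polynomial.eval_C, Polynomial.eval_C, hP1e, hP2e]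
    unfold Rf
    rw [List.cons_append, List.length_cons, hA, hB, ← hpr, hc0]
    ring
  have hcoef : F.coeff ((M + 1) + (M + 1)) = 0 := by
    rw [hFdef, Polynomial.coeff_sub, Polynomial.coeff_C_mul, Polynomial.coeff_C_mul,
      Polynomial.coeff_mul_add_eq_of_natDegree_le hP1d hP2d, hP1c, hP2c]
    have hp : pfq q (symA ε A) ≠ 0 := pfq_ne (Gn_symA hε hGA)
    have hk := kap_step (ε := ε) k l (M + 1)
    have hs : ((-1 : ℂ) ^ (2 * A.length + ε)) = (-1) ^ ε := by
      rw [pow_add, pow_mul, neg_one_sq, one_pow, one_mul]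
    have hs2 : ((-1 : ℂ) ^ ε) * (-1) ^ ε = 1 := by
      rw [← mul_pow, neg_one_mul, neg_neg, one_pow]
    rw [hs] at hQc
    unfold Rf at hIH
    rw [hA, hB, ← hpr] at hIH
    have hne : (q - 1) * pfq q (symA ε A) ≠ 0 := mul_ne_zero hq1 hp
    refine (mul_eq_zero.1 (?_ : (q - 1) * pfq q (symA ε A) * _ = 0)).resolve_left hne
    rw [hc0]
    generalize (-1 : ℂ) ^ ε = sg at *
    generalize DT (g1 ε) (A ++ B) y = D1 at *
    generalize DT (g2 ε) (A ++ B) y = D2 at *
    generalize pfq q (symA ε A) = p at *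
    generalize HH Ψ (symA ε A) B (rv B) z = H at *
    generalize Q.coeff ((M + 1) + (M + 1)) = Qc at *
    generalize kap ε k l (M + 1) = k0 at *
    generalize kap ε (k + 1) l (M + 1) = k1 at *
    generalize wdx (sq y) = w at *
    generalize pairs fA B * pairs fB (rv B) = pr' at *
    linear_combination (V * sg) * hQc + sg * hIH - (p * pr * w ^ 2 * D1 * D2) * hk
      - (V * Qc * (q - 1) * p) * hs2
  have hFd : F.natDegree ≤ (M + 1) + (M + 1) := by
    refine (Polynomial.natDegree_sub_le _ _).trans (max_le ?_ ?_)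
    · exact (Polynomial.natDegree_C_mul_le _ _).trans hQd
    · refine (Polynomial.natDegree_C_mul_le _ _).trans (Polynomial.natDegree_mul_le.trans ?_)
      omega
  have hFd2 := Polynomial.natDegree_le_pred hFd hcoef
  have hzero : F = 0 := by
    have hnd : (z.map (Yf q)).Nodup := by
      refine List.Nodup.map_on ?_ (List.Nodup.of_map _ hGz.2)
      intro u hu v hv h
      exact Yf_inj hGz hu hv h
    refine Polynomial.eq_zero_of_natDegree_lt_card_of_eval_eq_zero' F (z.map (Yf q)).toFinset ?_ ?_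
    · intro X hX
      rw [List.mem_toFinset, List.mem_map] at hX
      obtain ⟨u, hu, rfl⟩ := hX
      have hu0 : q ^ 2 * u ≠ 0 := mul_ne_zero (pow_ne_zero 2 q_ne_zero) (hGz.1 u hu)
      have hE : EQ Ψ ε ((q ^ 2 * u) :: A) B y := by
        obtain ⟨v, hv, h⟩ := mem_prs hu
        obtain ⟨j, rfl⟩ := List.mem_ofFn.1 hv
        rcases h with rfl | rfl
        · exact keyj j
        · exact keyj' j
      have hGu : Gn (prs (u :: A)) := by
        rw [List.append_assoc, prs_append, prs_append] at hGt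
        have hGA2 : Gn (prs A ++ z) := Gn_sub
          (List.Sublist.append_left (List.sublist_append_right _ _) _) hGt
        rw [prs_cons]
        refine ⟨?_, ?_⟩
        · intro x hx
          rcases List.mem_cons.1 hx with rfl | hx
          · exact hGz.1 _ hu
          · rcases List.mem_cons.1 hx with rfl | hx
            · exact inv_ne_zero (hGz.1 _ hu)
            · exact hGA.1 x hx
        · rw [List.map_cons, List.map_cons, List.nodup_cons, List.nodup_cons]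
          refine ⟨?_, ?_, hGA.2⟩
          · rw [List.mem_cons, not_or]
            constructor
            · obtain ⟨v, hv, h⟩ := mem_prs hu
              have h1 := Gn_self hGz hv
              rcases h with rfl | rfl
              · exact h1
              · rw [inv_inv]
                exact h1.symm
            · rw [List.mem_map]
              rintro ⟨c, hc, h⟩
              exact Gn_append hGA2 c hc u hu h
          · rw [List.mem_map]
            rintro ⟨c, hc, h⟩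
            exact Gn_append hGA2 c hc u⁻¹ (inv_mem_prs hu) h
      have hp : pfq q (symA ε ((q ^ 2 * u) :: A)) ≠ 0 := pfq_ne (Gn_symA hε (Gn_node hGu))
      have h1 := hrel (q ^ 2 * u) hu0
      unfold EQ at hE
      rw [← hz, ← hV] at hE
      rw [hE, sub_self, Xf_node] at h1
      exact (mul_eq_zero.1 h1.symm).resolve_left hp
    · rw [List.toFinset_card_of_nodup hnd, List.length_map, hzl]
      omega
  have ha0 : a ≠ 0 := hGa.1 a (mem_prs_self List.mem_cons_self)
  have h := hrel a ha0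
  rw [hzero, Polynomial.eval_zero, mul_zero] at h
  exact sub_eq_zero.1 h

end TMA

/-- **One more leg below.** -/
theorem t_MA (hQA : S_QA) (hnA : S_nA) (hsz : S_sz) (hTP : S_TP) (hRA : S_RA) : S_MA :=
  TMA.main hQA hnA hsz hTP hRA

end Pool.Agent.W808.KS
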