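import Pool.Agent.W808.KS.Stm
import Pool.Agent.W808.HB.T_TR

/-!
# The identities between the determinants without legs
-/

set_option autoImplicit false

namespace Pool.Agent.W808.KS
open Pool.Agent.H160R2.ML (pfq Gn)
open Pool.Agent.W808.HB (bwm prs Xf Yf vdx wdx bet xY gp)

namespace TTX
open Pool.Agent.W808.HB.T_TRaux

theorem qs : q ^ 2 + q + 1 = 0 := Pool.Agent.H988R2.Perc.q_spec

theorem comb {A B Y Y' X N : ℂ} (h1 : X - Y ≠ 0) (h2 : X - Y' ≠ 0)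
    (hN : A * (X - Y') + B * (X - Y) = N) :
    A / (X - Y) + B / (X - Y') = N / ((X - Y) * (X - Y')) := by
  rw [div_add_div _ _ h1 h2, ← hN]
  congr 1
  ring

theorem dl {q x : ℂ} (hq : q ^ 2 + q + 1 = 0) (hx : x ≠ 0) (X : ℂ) :
    (X - Yf q x) * (X - Yf q x⁻¹) = X ^ 2 + X * Xf x + Xf x ^ 2 - 3 := by
  have hxx : x * x⁻¹ = 1 := mul_inv_cancel₀ hx
  simp only [Xf, Yf, inv_inv]
  generalize x⁻¹ = y at *
  grind

theorem yd {q x : ℂ} (hq : q ^ 2 + q + 1 = 0) :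
    Yf q x = - Xf x / 2 + (q - q ^ 2) / 2 * (x⁻¹ - x) ∧
    Yf q x⁻¹ = - Xf x / 2 - (q - q ^ 2) / 2 * (x⁻¹ - x) := by
  simp only [Xf, Yf, inv_inv]
  generalize x⁻¹ = y at *
  constructor
  · linear_combination (x + y) / 2 * hq
  · linear_combination (x + y) / 2 * hq

/-- gs -/
theorem gs1 {x : ℂ} (hx : x ≠ 0) :
    KC.gs x = (Xf x ^ 2 - 1) / (x⁻¹ - x) ∧ KC.gs x⁻¹ = - ((Xf x ^ 2 - 1) / (x⁻¹ - x)) := by
  have hxx : x * x⁻¹ = 1 := mul_inv_cancel₀ hx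
  have hq := qs
  simp only [Xf, KC.gs, inv_inv]
  have e : x - x⁻¹ = - (x⁻¹ - x) := by ring
  rw [e, div_neg]
  generalize x⁻¹ - x = d
  generalize x⁻¹ = y at *
  change q ^ 2 + q + 1 = 0 at hq
  have e1 : (y - q * x) * (y - q ^ 2 * x) = (x + y) ^ 2 - 1 := by
    grind
  have e2 : (x - q * y) * (x - q ^ 2 * y) = (x + y) ^ 2 - 1 := by
    grind
  exact ⟨by rw [← e1], by rw [← e2]⟩

/-- entry of `KC.TT []` -/
theorem en1 {x X : ℂ} (hx : x ≠ 0) (hd : x⁻¹ - x ≠ 0) :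
    KC.gs x * (X - Yf q x⁻¹) + KC.gs x⁻¹ * (X - Yf q x) = (q - q ^ 2) * (Xf x ^ 2 - 1) := by
  rw [(gs1 hx).1, (gs1 hx).2, (yd (x := x) qs).1, (yd (x := x) qs).2]
  generalize x⁻¹ - x = d at *
  field_simp
  ring

/-- entry of `DT (g2 0) []` -/
theorem en2 {x X : ℂ} (hx : x ≠ 0) :
    gs2 x * (X - Yf q x⁻¹) + gs2 x⁻¹ * (X - Yf q x) = (Xf x ^ 2 - 1) * (2 * X + Xf x) := by
  have hxx : x * x⁻¹ = 1 := mul_inv_cancel₀ hx
  rw [(yd (x := x) qs).1, (yd (x := x) qs).2]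
  have hq := qs
  simp only [gs2, Xf, inv_inv]
  generalize x⁻¹ = y at *
  have e1 : (y - q * x) * (y - q ^ 2 * x) = (x + y) ^ 2 - 1 := by
    grind
  have e2 : (x - q * y) * (x - q ^ 2 * y) = (x + y) ^ 2 - 1 := by
    grind
  rw [e1, e2]
  ring

/-- entry of `HB.TT []` -/
theorem en3 {x X : ℂ} (hx : x ≠ 0) (hd : x⁻¹ - x ≠ 0) :
    gp q x * (X - Yf q x⁻¹) + gp q x⁻¹ * (X - Yf q x) = -q * (Xf x ^ 2 - 1) * (X + 2 * Xf x) := by
  have hxx : x * x⁻¹ = 1 := mul_inv_cancel₀ hx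
  have hq := qs
  simp only [gp, Xf, Yf, inv_inv]
  have e : x - x⁻¹ = - (x⁻¹ - x) := by ring
  rw [e, div_neg, div_mul_eq_mul_div, neg_mul, div_mul_eq_mul_div, ← sub_eq_add_neg, ← sub_div,
    div_eq_iff hd]
  generalize x⁻¹ = y at *
  grind

/-- entry of `DT (g1 1) []` -/
theorem en4 {y X : ℂ} (hy : y ≠ 0) (hd : (y ^ 2)⁻¹ - y ^ 2 ≠ 0) :
    KC.gs (y ^ 2) * (y⁻¹ - q * y) * (X - Yf q (y⁻¹ ^ 2)) +
      KC.gs (y⁻¹ ^ 2) * (y - q * y⁻¹) * (X - Yf q (y ^ 2)) =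
    -q ^ 2 * (Xf (y ^ 2) ^ 2 - 1) / (y + y⁻¹) * (X + 2 * Xf (y ^ 2) + 3) := by
  have hx : y ^ 2 ≠ 0 := pow_ne_zero _ hy
  have hyy : y * y⁻¹ = 1 := mul_inv_cancel₀ hy
  have hd2 : (y ^ 2)⁻¹ - y ^ 2 = (y⁻¹ - y) * (y + y⁻¹) := by
    rw [← inv_pow]; ring
  have hd3 := hd
  rw [hd2] at hd3
  have h1 : y⁻¹ - y ≠ 0 := left_ne_zero_of_mul hd3
  have h2 : y + y⁻¹ ≠ 0 := right_ne_zero_of_mul hd3
  rw [inv_pow, (gs1 hx).1, (gs1 hx).2, hd2]
  generalize Xf (y ^ 2) ^ 2 - 1 = P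
  simp only [Xf, Yf, inv_inv, ← inv_pow]
  have hq := qs
  rw [div_mul_eq_mul_div, neg_mul, div_mul_eq_mul_div, neg_mul, ← sub_eq_add_neg,
    div_mul_eq_mul_div, div_mul_eq_mul_div, ← sub_div, div_mul_eq_mul_div,
    div_eq_div_iff hd3 h2]
  generalize y⁻¹ = z at *
  have key : (z - q * y) * (X - (q ^ 2 * z ^ 2 + q * y ^ 2)) -
      (y - q * z) * (X - (q ^ 2 * y ^ 2 + q * z ^ 2)) =
      -q ^ 2 * (z - y) * (X + 2 * (y ^ 2 + z ^ 2) + 3) := by
    grind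
  linear_combination P * (y + z) * key

/-- entry of `DT (g2 1) []` -/
theorem en5 {y X : ℂ} (hy : y ≠ 0) :
    gs2 (y ^ 2) * (y⁻¹ - q * y) * (X - Yf q (y⁻¹ ^ 2)) +
      gs2 (y⁻¹ ^ 2) * (y - q * y⁻¹) * (X - Yf q (y ^ 2)) =
    (1 - q) * (Xf (y ^ 2) ^ 2 - 1) * (y + y⁻¹) * (X + 1) := by
  have hyy : y * y⁻¹ = 1 := mul_inv_cancel₀ hy
  have hq := qs
  simp only [gs2, Xf, Yf, inv_inv, ← inv_pow]
  generalize y⁻¹ = z at *
  have e1 : (z ^ 2 - q * y ^ 2) * (z ^ 2 - q ^ 2 * y ^ 2) = (y ^ 2 + z ^ 2) ^ 2 - 1 := by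
    grind
  have e2 : (y ^ 2 - q * z ^ 2) * (y ^ 2 - q ^ 2 * z ^ 2) = (y ^ 2 + z ^ 2) ^ 2 - 1 := by
    grind
  rw [e1, e2]
  have key : (z - q * y) * (X - (q ^ 2 * z ^ 2 + q * y ^ 2)) +
      (y - q * z) * (X - (q ^ 2 * y ^ 2 + q * z ^ 2)) = (1 - q) * (y + z) * (X + 1) := by
    grind
  linear_combination ((y ^ 2 + z ^ 2) ^ 2 - 1) * key

/-- entry of `HB.TT [1]` -/
theorem en6 {x X : ℂ} (hx : x ≠ 0) (hd : x⁻¹ - x ≠ 0) :
    gp q x * HB.lp q [1] x * (X - Yf q x⁻¹) + gp q x⁻¹ * HB.lp q [1] x⁻¹ * (X - Yf q x) =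
      -q * (Xf x ^ 2 - 1) * (Xf x + 1) * (2 * X + Xf x + 3) := by
  have hxx : x * x⁻¹ = 1 := mul_inv_cancel₀ hx
  have hq := qs
  simp only [gp, HB.lp, Xf, Yf, inv_inv, List.map_cons, List.map_nil, List.prod_cons, List.prod_nil,
    mul_one]
  have e : x - x⁻¹ = - (x⁻¹ - x) := by ring
  rw [e, div_neg, div_mul_eq_mul_div, neg_mul, div_mul_eq_mul_div, neg_mul, div_mul_eq_mul_div,
    div_mul_eq_mul_div, ← sub_eq_add_neg, ← sub_div, div_eq_iff hd]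
  generalize x⁻¹ = y at *
  grind

/-- the denominator -/
noncomputable def Ds (X Y : ℂ) : ℂ := X ^ 2 + X * Y + Y ^ 2 - 3

theorem Ds_comm (X Y : ℂ) : Ds X Y = Ds Y X := by
  unfold Ds; ring

theorem detl {M : ℕ} (x : Fin M → ℂ) (hG : Gn (prs (List.ofFn x))) (A B v : Fin M → ℂ)
    (n : Fin M → Fin M → ℂ)
    (h : ∀ i j, A j * (Xf (x i) - Yf q (x j)⁻¹) + B j * (Xf (x i) - Yf q (x j)) = v j * n i j) :
    (Matrix.of fun i j : Fin M =>
      A j / (Xf (x i) - Yf q (x j)) + B j / (Xf (x i) - Yf q (x j)⁻¹)).det =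
    (∏ j, v j) * (Matrix.of fun i j : Fin M => n i j / Ds (Xf (x i)) (Xf (x j))).det := by
  obtain ⟨hz, hd⟩ := gn hG
  have yne : ∀ i j, Xf (x i) - Yf q (x j) ≠ 0 ∧ Xf (x i) - Yf q (x j)⁻¹ ≠ 0 := by
    intro i j
    by_cases h : i = j
    · subst h
      obtain ⟨-, -, -, a, b⟩ := ne1 qs (hz i)
      exact ⟨a, b⟩
    · exact (ne3 qs (hz i).1 (hz j).1 (hd i j h)).2
  rw [← Matrix.det_mul_row]
  congr 1
  ext i j
  simp only [Matrix.of_apply]
  rw [comb (yne i j).1 (yne i j).2 (h i j), dl qs (hz j).1]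
  unfold Ds
  ring

theorem det_tr {M : ℕ} (n : Fin M → Fin M → ℂ) (X : Fin M → ℂ) :
    (Matrix.of fun i j : Fin M => n i j / Ds (X i) (X j)).det =
      (Matrix.of fun i j : Fin M => n j i / Ds (X i) (X j)).det := by
  rw [← Matrix.det_transpose]
  congr 1
  ext i j
  simp only [Matrix.of_apply, Matrix.transpose_apply]
  rw [Ds_comm]

end TTX

open TTX Pool.Agent.W808.HB.T_TRaux in
theorem t_TT : S_TT := by
  intro M y hG
  obtain ⟨hz, hd⟩ := gn hG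
  set x : Fin M → ℂ := sq y with hxd
  have hxj : ∀ j, x j = y j ^ 2 := fun j => rfl
  have hx : ∀ j, x j ≠ 0 := fun j => (hz j).1
  have hy : ∀ j, y j ≠ 0 := fun j h => hx j (by rw [hxj, h]; simp)
  have hdx : ∀ j, (x j)⁻¹ - x j ≠ 0 := fun j => (ne1 qs (hz j)).1
  have hl : ∀ c : ℂ, lam [] c = 1 := fun c => by simp [lam]
  have hlp : ∀ c : ℂ, HB.lp q [] c = 1 := fun c => by simp [HB.lp]
  -- the three determinants without the leg
  have h1 : KC.TT [] x = (∏ j, (q - q ^ 2) * (Xf (x j) ^ 2 - 1)) *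
      (Matrix.of fun i j : Fin M => 1 / Ds (Xf (x i)) (Xf (x j))).det := by
    rw [← detl x hG (fun j => KC.gs (x j) * HB.lp q [] (x j))
      (fun j => KC.gs (x j)⁻¹ * HB.lp q [] (x j)⁻¹) _ (fun _ _ => 1)]
    · rfl
    · intro i j
      simp only [hlp, mul_one]
      exact en1 (hx j) (hdx j)
  have h1' : DT (g1 0) [] y = (∏ j, (q - q ^ 2) * (Xf (x j) ^ 2 - 1)) *
      (Matrix.of fun i j : Fin M => 1 / Ds (Xf (x i)) (Xf (x j))).det := by
    rw [← detl x hG (fun j => KC.gs (x j) * HB.lp q [] (x j))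
      (fun j => KC.gs (x j)⁻¹ * HB.lp q [] (x j)⁻¹) _ (fun _ _ => 1)]
    · unfold DT
      congr 1
      ext i j
      simp only [Matrix.of_apply, hl, hlp, g1, sg, pow_zero, mul_one, inv_pow, hxj]
    · intro i j
      simp only [hlp, mul_one]
      exact en1 (hx j) (hdx j)
  have h2 : DT (g2 0) [] y = (∏ j, (Xf (x j) ^ 2 - 1)) *
      (Matrix.of fun i j : Fin M => (2 * Xf (x i) + Xf (x j)) /
        Ds (Xf (x i)) (Xf (x j))).det := by
    rw [← detl x hG (fun j => gs2 (x j)) (fun j => gs2 (x j)⁻¹) _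
      (fun i j => 2 * Xf (x i) + Xf (x j))]
    · unfold DT
      congr 1
      ext i j
      simp only [Matrix.of_apply, hl, g2, sg, pow_zero, mul_one, inv_pow, hxj]
    · intro i j
      exact en2 (hx j)
  have h3 : HB.TT q [] x = (∏ j, (-q * (Xf (x j) ^ 2 - 1))) *
      (Matrix.of fun i j : Fin M => (Xf (x i) + 2 * Xf (x j)) /
        Ds (Xf (x i)) (Xf (x j))).det := by
    rw [← detl x hG (fun j => gp q (x j) * HB.lp q [] (x j))
      (fun j => gp q (x j)⁻¹ * HB.lp q [] (x j)⁻¹) _ (fun i j => Xf (x i) + 2 * Xf (x j))]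
    · rfl
    · intro i j
      simp only [hlp, mul_one]
      exact en3 (hx j) (hdx j)
  -- the determinants with the leg
  have hyi : ∀ j, y j + (y j)⁻¹ ≠ 0 := by
    intro j h
    apply hdx j
    have : (x j)⁻¹ - x j = ((y j)⁻¹ - y j) * (y j + (y j)⁻¹) := by
      rw [hxj, ← inv_pow]; ring
    rw [this, h, mul_zero]
  have h4 : DT (g1 1) [] y = (∏ j, (-q ^ 2 * (Xf (x j) ^ 2 - 1) / (y j + (y j)⁻¹))) *
      (Matrix.of fun i j : Fin M => (Xf (x i) + 2 * Xf (x j) + 3) /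
        Ds (Xf (x i)) (Xf (x j))).det := by
    rw [← detl x hG (fun j => g1 1 (y j)) (fun j => g1 1 (y j)⁻¹) _
      (fun i j => Xf (x i) + 2 * Xf (x j) + 3)]
    · unfold DT
      congr 1
      ext i j
      simp only [Matrix.of_apply, hl, mul_one, inv_pow, hxj]
    · intro i j
      have := en4 (y := y j) (X := Xf (x i)) (hy j) (by rw [← hxj]; exact hdx j)
      simp only [g1, sg, pow_one, inv_inv, hxj]
      rw [inv_pow] at this ⊢
      exact this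
  have h5 : DT (g2 1) [] y = (∏ j, ((1 - q) * (Xf (x j) ^ 2 - 1) * (y j + (y j)⁻¹))) *
      (Matrix.of fun i j : Fin M => (Xf (x i) + 1) /
        Ds (Xf (x i)) (Xf (x j))).det := by
    rw [← detl x hG (fun j => g2 1 (y j)) (fun j => g2 1 (y j)⁻¹) _
      (fun i j => Xf (x i) + 1)]
    · unfold DT
      congr 1
      ext i j
      simp only [Matrix.of_apply, hl, mul_one, inv_pow, hxj]
    · intro i j
      have := en5 (y := y j) (X := Xf (x i)) (hy j)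
      simp only [g2, sg, pow_one, inv_inv, hxj]
      rw [inv_pow] at this ⊢
      exact this
  have h5' : (Matrix.of fun i j : Fin M => (Xf (x i) + 1) / Ds (Xf (x i)) (Xf (x j))).det =
      (∏ j, (Xf (x j) + 1)) *
        (Matrix.of fun i j : Fin M => 1 / Ds (Xf (x i)) (Xf (x j))).det := by
    rw [← Matrix.det_mul_column]
    congr 1
    ext i j
    simp only [Matrix.of_apply]
    ring
  have h6 : HB.TT q [1] x = (∏ j, (-q * (Xf (x j) ^ 2 - 1) * (Xf (x j) + 1))) *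
      (Matrix.of fun i j : Fin M => (2 * Xf (x i) + Xf (x j) + 3) /
        Ds (Xf (x i)) (Xf (x j))).det := by
    rw [← detl x hG (fun j => gp q (x j) * HB.lp q [1] (x j))
      (fun j => gp q (x j)⁻¹ * HB.lp q [1] (x j)⁻¹) _ (fun i j => 2 * Xf (x i) + Xf (x j) + 3)]
    · rfl
    · intro i j
      exact en6 (hx j) (hdx j)
  refine ⟨?_, ?_, ?_⟩
  · rw [h3, h2, det_tr (fun i j => 2 * Xf (x i) + Xf (x j)) (fun i => Xf (x i)),
      Finset.prod_mul_distrib, Finset.prod_const, Finset.card_univ, Fintype.card_fin, mul_assoc]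
    congr 3
    ext i j
    simp only [Matrix.of_apply]
    ring
  · rw [h1, h1']
  · rw [h1, h4, h5, h5', h6,
      det_tr (fun i j => 2 * Xf (x i) + Xf (x j) + 3) (fun i => Xf (x i))]
    have e : (Matrix.of fun i j : Fin M => (2 * Xf (x j) + Xf (x i) + 3) /
        Ds (Xf (x i)) (Xf (x j))).det = (Matrix.of fun i j : Fin M =>
        (Xf (x i) + 2 * Xf (x j) + 3) / Ds (Xf (x i)) (Xf (x j))).det := by
      congr 1
      ext i j
      simp only [Matrix.of_apply]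
      ring
    rw [e]
    have e2 : (∏ j, (-q * (Xf (x j) ^ 2 - 1) * (Xf (x j) + 1))) *
        (∏ j, (q - q ^ 2) * (Xf (x j) ^ 2 - 1)) =
        (∏ j, (-q ^ 2 * (Xf (x j) ^ 2 - 1) / (y j + (y j)⁻¹))) *
        (∏ j, ((1 - q) * (Xf (x j) ^ 2 - 1) * (y j + (y j)⁻¹))) * (∏ j, (Xf (x j) + 1)) := by
      rw [← Finset.prod_mul_distrib, ← Finset.prod_mul_distrib, ← Finset.prod_mul_distrib]
      refine Finset.prod_congr rfl fun j _ => ?_
      have := hyi j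
      generalize y j + (y j)⁻¹ = w at this ⊢
      field_simp
    linear_combination (Matrix.of fun i j : Fin M =>
        (Xf (x i) + 2 * Xf (x j) + 3) / Ds (Xf (x i)) (Xf (x j))).det *
        (Matrix.of fun i j : Fin M => 1 / Ds (Xf (x i)) (Xf (x j))).det * e2

end Pool.Agent.W808.KS
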